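import Pool.Agent.LibSX15.AS0

/-! ROW AS1 (only Mathlib). Taylor expansion of the phase.  `zph n (tt u) = 2 √(n (u² + n/12))`.
With `b = n/12`, `g u = √(u² + b)`: `zph = 2 √n g u`, `zlam u0 n = 2 √n u0 / g u0` (as `√(1 + b/u0²) = g u0/u0`), and
`g u - g u0 - (u - u0) u0/g u0 = (g u g u0 - b - u u0)/g u0 = b (u-u0)² / (g u0 (g u g u0 + b + u u0))` because
`(g u g u0)² - (b + u u0)² = b (u-u0)²`; it is `≥ 0` and `≤ b (u-u0)²/(2 u0³)` since `g u0 ≥ u0`, `g u g u0 + b + u u0 ≥ 2 u0²`.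
Times `2 √n`: `n √n (u-u0)²/(12 u0³)`. -/

set_option autoImplicit false

namespace Pool.Agent.LibSX15

open Finset

theorem as1_zph (n : ℕ) (u : ℝ) :
    zph n (tt u) = 2 * (Real.sqrt n * Real.sqrt (u ^ 2 + n / 12)) := by
  unfold zph tt
  have hpi : (2 * Real.pi) ≠ 0 := by positivity
  rw [mul_div_cancel_left₀ _ hpi, Real.sqrt_mul (Nat.cast_nonneg n)]

theorem as1_zlam (n : ℕ) (u0 : ℝ) (h0 : 0 < u0) :
    zlam u0 n = 2 * (Real.sqrt n * (u0 / Real.sqrt (u0 ^ 2 + n / 12))) := by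
  unfold zlam
  have h1 : (1 : ℝ) + n / (12 * u0 ^ 2) = (u0 ^ 2 + n / 12) / u0 ^ 2 := by
    field_simp
  rw [h1, Real.sqrt_div (by positivity), Real.sqrt_sq h0.le]
  have h2 : 0 < Real.sqrt (u0 ^ 2 + n / 12) := Real.sqrt_pos.2 (by positivity)
  field_simp

theorem as1 (n : ℕ) (u0 u : ℝ) (h0 : 0 < u0) (h : u0 ≤ u) :
    |zph n (tt u) - (zph n (tt u0) + (u - u0) * zlam u0 n)| ≤
      n * Real.sqrt n * (u - u0) ^ 2 / (12 * u0 ^ 3) := by
  rw [as1_zph, as1_zph, as1_zlam n u0 h0]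
  obtain ⟨b, hb⟩ : ∃ b : ℝ, b = n / 12 := ⟨_, rfl⟩
  have hb0 : 0 ≤ b := by rw [hb]; positivity
  have hn : (n : ℝ) = 12 * b := by rw [hb]; ring
  rw [← hb]
  have hu : 0 < u := lt_of_lt_of_le h0 h
  have hgpos : 0 < u ^ 2 + b := by positivity
  have hg0pos : 0 < u0 ^ 2 + b := by positivity
  obtain ⟨g, hg⟩ : ∃ g : ℝ, g = Real.sqrt (u ^ 2 + b) := ⟨_, rfl⟩
  obtain ⟨g0, hg0⟩ : ∃ g0 : ℝ, g0 = Real.sqrt (u0 ^ 2 + b) := ⟨_, rfl⟩
  have hgp : 0 < g := by rw [hg]; exact Real.sqrt_pos.2 hgpos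
  have hg0p : 0 < g0 := by rw [hg0]; exact Real.sqrt_pos.2 hg0pos
  have hg2 : g ^ 2 = u ^ 2 + b := by rw [hg]; exact Real.sq_sqrt hgpos.le
  have hg02 : g0 ^ 2 = u0 ^ 2 + b := by rw [hg0]; exact Real.sq_sqrt hg0pos.le
  rw [← hg, ← hg0]
  have hgu : u ≤ g := by
    rw [hg]
    exact Real.le_sqrt_of_sq_le (by linarith)
  have hg0u : u0 ≤ g0 := by
    rw [hg0]
    exact Real.le_sqrt_of_sq_le (by linarith)
  have hD : 0 < g0 * (g * g0 + b + u * u0) := by positivity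
  have key : g - g0 - (u - u0) * (u0 / g0) = b * (u - u0) ^ 2 / (g0 * (g * g0 + b + u * u0)) := by
    rw [eq_div_iff hD.ne']
    have h1 : (g - g0 - (u - u0) * (u0 / g0)) * (g0 * (g * g0 + b + u * u0)) =
        (g * g0 - g0 ^ 2 - (u - u0) * u0) * (g * g0 + b + u * u0) := by
      field_simp
    rw [h1, hg02]
    have h2 : (g * g0 - (u0 ^ 2 + b) - (u - u0) * u0) * (g * g0 + b + u * u0) =
        g ^ 2 * g0 ^ 2 - (b + u * u0) ^ 2 := by ring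
    rw [h2, hg2, hg02]
    ring
  have e : 2 * (Real.sqrt n * g) - (2 * (Real.sqrt n * g0) +
      (u - u0) * (2 * (Real.sqrt n * (u0 / g0)))) =
      2 * Real.sqrt n * (g - g0 - (u - u0) * (u0 / g0)) := by ring
  rw [e, key]
  have hs : 0 ≤ Real.sqrt n := Real.sqrt_nonneg _
  have hq : 0 ≤ b * (u - u0) ^ 2 / (g0 * (g * g0 + b + u * u0)) := by positivity
  rw [abs_of_nonneg (by positivity)]
  have hle : b * (u - u0) ^ 2 / (g0 * (g * g0 + b + u * u0)) ≤ b * (u - u0) ^ 2 / (2 * u0 ^ 3) := by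
    refine div_le_div_of_nonneg_left (by positivity) (by positivity) ?_
    have h3 : u0 * u0 ≤ g * g0 := mul_le_mul (h.trans hgu) hg0u h0.le hgp.le
    have h4 : u0 * u0 ≤ u * u0 := mul_le_mul_of_nonneg_right h h0.le
    have h5 : 2 * u0 ^ 2 ≤ g * g0 + b + u * u0 := by nlinarith
    calc 2 * u0 ^ 3 = u0 * (2 * u0 ^ 2) := by ring
      _ ≤ g0 * (g * g0 + b + u * u0) := mul_le_mul hg0u h5 (by positivity) hg0p.le
  calc 2 * Real.sqrt n * (b * (u - u0) ^ 2 / (g0 * (g * g0 + b + u * u0)))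
      ≤ 2 * Real.sqrt n * (b * (u - u0) ^ 2 / (2 * u0 ^ 3)) :=
        mul_le_mul_of_nonneg_left hle (by positivity)
    _ = 12 * b * Real.sqrt n * (u - u0) ^ 2 / (12 * u0 ^ 3) := by
        field_simp
    _ = n * Real.sqrt n * (u - u0) ^ 2 / (12 * u0 ^ 3) := by rw [← hn]

/-- `zxi` is `kap` times `zlam` -/
theorem as1b (K u0 : ℝ) (n : ℕ) (hK : 0 < K) : kap K * zlam u0 n = zxi K u0 n := by
  unfold kap zlam zxi
  rw [Real.sqrt_div (Nat.cast_nonneg n)]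
  have hs : 0 < Real.sqrt K := Real.sqrt_pos.2 hK
  have h1 : 0 < Real.sqrt (1 + n / (12 * u0 ^ 2)) := Real.sqrt_pos.2 (by positivity)
  field_simp
  ring

end Pool.Agent.LibSX15
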