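import Pool.Agent.LibSX15.AS0
import Pool.Agent.LibHLP.DivBound

/-! ROW AS4. The divisor bound, from `Pool.Agent.LibHLP` `exists_card_divisors_le` (`d(n) ≤ C n^ε`) with `ε = η/2`:
`C * C' * T^(η/2) ≤ T^η` for large `T`.  (`n = 0` has no divisors.) Second part: the logarithms. -/

set_option autoImplicit false

namespace Pool.Agent.LibSX15

open Finset

private lemma as4_big (D η : ℝ) (hη : 0 < η) : ∃ T0 : ℝ, 3 ≤ T0 ∧ ∀ T : ℝ, T0 ≤ T →
    D * T ^ (η / 2) ≤ T ^ η := by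
  have h := tendsto_rpow_atTop (half_pos hη)
  obtain ⟨T1, hT1⟩ := Filter.eventually_atTop.1 (h.eventually_ge_atTop D)
  refine ⟨max 3 T1, le_max_left _ _, fun T hT => ?_⟩
  have hT3 : 3 ≤ T := (le_max_left _ _).trans hT
  have hT0 : 0 < T := by linarith
  have h1 : D ≤ T ^ (η / 2) := hT1 T ((le_max_right _ _).trans hT)
  calc D * T ^ (η / 2) ≤ T ^ (η / 2) * T ^ (η / 2) :=
        mul_le_mul_of_nonneg_right h1 (Real.rpow_nonneg hT0.le _)
    _ = T ^ η := by rw [← Real.rpow_add hT0, add_halves]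

theorem as4 (C η : ℝ) (hC : 0 ≤ C) (hη : 0 < η) : ∃ T0 : ℝ, 3 ≤ T0 ∧ ∀ T : ℝ, T0 ≤ T →
    ∀ n : ℕ, (n : ℝ) ≤ T → C * n.divisors.card ≤ T ^ η := by
  obtain ⟨C', hC', hd⟩ := Pool.Agent.LibHLP.exists_card_divisors_le (η / 2) (half_pos hη)
  obtain ⟨T0, hT0, hb⟩ := as4_big (C * C') η hη
  refine ⟨T0, hT0, fun T hT n hn => ?_⟩
  have hTp : 0 < T := by linarith
  rcases Nat.eq_zero_or_pos n with rfl | hn0
  · simpa using Real.rpow_nonneg hTp.le η
  · calc C * (n.divisors.card : ℝ) ≤ C * (C' * (n : ℝ) ^ (η / 2)) :=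
          mul_le_mul_of_nonneg_left (hd n hn0.ne') hC
      _ ≤ C * (C' * T ^ (η / 2)) := by
          have : (n : ℝ) ^ (η / 2) ≤ T ^ (η / 2) :=
            Real.rpow_le_rpow (Nat.cast_nonneg n) hn (half_pos hη).le
          have h2 : 0 ≤ C' := by linarith
          exact mul_le_mul_of_nonneg_left (mul_le_mul_of_nonneg_left this h2) hC
      _ = C * C' * T ^ (η / 2) := by ring
      _ ≤ T ^ η := hb T hT

/-- logarithms and constants are `≤ T^η` -/
theorem as4b (C η : ℝ) (k : ℕ) (hC : 0 ≤ C) (hη : 0 < η) : ∃ T0 : ℝ, 3 ≤ T0 ∧ ∀ T : ℝ, T0 ≤ T →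
    C * (Real.log T) ^ k ≤ T ^ η := by
  have hs : 0 < η / (2 * (k + 1)) := by positivity
  obtain ⟨T0, hT0, hb⟩ := as4_big (C * (1 / (η / (2 * (k + 1)))) ^ k) η hη
  refine ⟨T0, hT0, fun T hT => ?_⟩
  have hTp : 0 < T := by linarith
  have hT1 : 1 ≤ T := by linarith
  have h1 : Real.log T ≤ T ^ (η / (2 * (k + 1))) / (η / (2 * (k + 1))) :=
    Real.log_le_rpow_div hTp.le hs
  have h0 : 0 ≤ Real.log T := Real.log_nonneg hT1
  calc C * (Real.log T) ^ k
      ≤ C * (T ^ (η / (2 * (k + 1))) / (η / (2 * (k + 1)))) ^ k :=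
        mul_le_mul_of_nonneg_left (pow_le_pow_left₀ h0 h1 k) hC
    _ = C * (1 / (η / (2 * (k + 1)))) ^ k * (T ^ (η / (2 * (k + 1)))) ^ k := by
        rw [div_eq_mul_one_div (T ^ (η / (2 * ((k : ℝ) + 1)))), mul_pow]
        ring
    _ ≤ C * (1 / (η / (2 * (k + 1)))) ^ k * T ^ (η / 2) := by
        refine mul_le_mul_of_nonneg_left ?_ (by positivity)
        rw [← Real.rpow_natCast, ← Real.rpow_mul hTp.le]
        apply Real.rpow_le_rpow_of_exponent_le hT1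
        rw [div_mul_eq_mul_div, div_le_div_iff₀ (by positivity) (by norm_num)]
        nlinarith
    _ ≤ T ^ η := hb T hT

end Pool.Agent.LibSX15
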