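import Pool.Agent.LibSX15.AS0

/-! ROW AS3 (only Mathlib). Dyadic decomposition.  Let `A = ⌊log (X/y0) / log 2⌋₊`.  Every `i` with `f i ≥ y0` has
`2^a y0 ≤ f i < 2^(a+1) y0` for some `a ≤ A` (`a = ⌊log (f i / y0)/log 2⌋₊`), so
`Σ f i ^ 2 ≤ Σ_{a ≤ A} (2^(a+1) y0)² #{f i ≥ 2^a y0} ≤ Σ_{a ≤ A} 4 B = 4 B (A + 1)` and `4/log 2 ≤ 6`. -/

set_option autoImplicit false

namespace Pool.Agent.LibSX15

open Finset

theorem as3 {ι : Type*} (s : Finset ι) (f : ι → ℝ) (y0 X B : ℝ) (hy : 0 < y0) (hX : y0 ≤ X) (hB : 0 ≤ B)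
    (hf : ∀ i ∈ s, f i ≤ X)
    (hc : ∀ y, y0 ≤ y → ((s.filter fun i => y ≤ f i).card : ℝ) ≤ B / y ^ 2) :
    ∑ i ∈ s.filter (fun i => y0 ≤ f i), f i ^ 2 ≤ B * (4 + 6 * Real.log (X / y0)) := by
  classical
  set A : ℕ := ⌊Real.log (X / y0) / Real.log 2⌋₊ with hA
  have hl2 : 0 < Real.log 2 := Real.log_pos (by norm_num)
  have hl2' : (2 / 3 : ℝ) ≤ Real.log 2 := by
    have := Real.log_two_gt_d9
    linarith
  have hlX : 0 ≤ Real.log (X / y0) := Real.log_nonneg (by rw [le_div_iff₀ hy]; linarith)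
  have h1 : ∀ i ∈ s.filter (fun i => y0 ≤ f i), f i ^ 2 ≤
      ∑ a ∈ range (A + 1), if 2 ^ a * y0 ≤ f i then (2 ^ (a + 1) * y0) ^ 2 else 0 := by
    intro i hi
    rw [mem_filter] at hi
    have hx : 1 ≤ f i / y0 := by rw [le_div_iff₀ hy]; linarith [hi.2]
    obtain ⟨a, ha1, ha2⟩ := exists_nat_pow_near hx (one_lt_two : (1 : ℝ) < 2)
    have hb1 : 2 ^ a * y0 ≤ f i := by rwa [le_div_iff₀ hy] at ha1
    have hb2 : f i < 2 ^ (a + 1) * y0 := by rwa [div_lt_iff₀ hy] at ha2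
    have haA : a ≤ A := by
      apply Nat.le_floor
      rw [le_div_iff₀ hl2, ← Real.log_pow]
      apply Real.log_le_log (by positivity)
      rw [le_div_iff₀ hy]
      exact hb1.trans (hf i hi.1)
    have h3 : (if 2 ^ a * y0 ≤ f i then (2 ^ (a + 1) * y0) ^ 2 else 0) ≤
        ∑ a ∈ range (A + 1), if 2 ^ a * y0 ≤ f i then (2 ^ (a + 1) * y0) ^ 2 else 0 := by
      refine single_le_sum (f := fun a : ℕ =>
        if 2 ^ a * y0 ≤ f i then (2 ^ (a + 1) * y0) ^ 2 else 0) ?_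
        (mem_range.2 (Nat.lt_succ_of_le haA))
      intro b _
      split_ifs <;> positivity
    rw [if_pos hb1] at h3
    refine le_trans ?_ h3
    have hf0 : 0 ≤ f i := hy.le.trans hi.2
    exact pow_le_pow_left₀ hf0 hb2.le 2
  calc ∑ i ∈ s.filter (fun i => y0 ≤ f i), f i ^ 2
      ≤ ∑ i ∈ s.filter (fun i => y0 ≤ f i),
        ∑ a ∈ range (A + 1), (if 2 ^ a * y0 ≤ f i then (2 ^ (a + 1) * y0) ^ 2 else 0) :=
        sum_le_sum h1
    _ = ∑ a ∈ range (A + 1), ∑ i ∈ s.filter (fun i => y0 ≤ f i),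
        (if 2 ^ a * y0 ≤ f i then (2 ^ (a + 1) * y0) ^ 2 else 0) := sum_comm
    _ ≤ ∑ a ∈ range (A + 1), 4 * B := by
        refine sum_le_sum fun a _ => ?_
        rw [← sum_filter, sum_const, nsmul_eq_mul]
        have hya : y0 ≤ 2 ^ a * y0 := le_mul_of_one_le_left hy.le (one_le_pow₀ (by norm_num))
        have h4 : (((s.filter (fun i => y0 ≤ f i)).filter
            (fun i => 2 ^ a * y0 ≤ f i)).card : ℝ) ≤ B / (2 ^ a * y0) ^ 2 := by
          refine le_trans ?_ (hc _ hya)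
          exact_mod_cast card_le_card (filter_subset_filter _ (filter_subset _ _))
        calc _ ≤ B / (2 ^ a * y0) ^ 2 * (2 ^ (a + 1) * y0) ^ 2 :=
              mul_le_mul_of_nonneg_right h4 (by positivity)
          _ = 4 * B := by
              have : (2 : ℝ) ^ a * y0 ≠ 0 := by positivity
              field_simp
              ring
    _ = 4 * B * (A + 1) := by
        rw [sum_const, card_range, nsmul_eq_mul]
        push_cast
        ring
    _ ≤ B * (4 + 6 * Real.log (X / y0)) := by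
        have h5 : (A : ℝ) ≤ Real.log (X / y0) / Real.log 2 := Nat.floor_le (by positivity)
        have h6 : Real.log (X / y0) / Real.log 2 ≤ 3 / 2 * Real.log (X / y0) := by
          rw [div_le_iff₀ hl2]
          nlinarith
        nlinarith

end Pool.Agent.LibSX15
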