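import Pool.Agent.LibSX15.AS1

/-! ROW AS5 (only AS1, which you may use as it is stated). Linearisation of `S` at `u0`.
Termwise, for `1 ≤ n ≤ K`: `c n (tt u) ee(-f(u)) - c n (tt u0) ee(-f(u0)) ee(-(u-u0) zlam)` =
`(c n (tt u) - c n (tt u0)) ee(-f(u)) + c n (tt u0) (ee(-f(u)) - ee(-(f(u0) + (u-u0) zlam)))`; first part `≤ Λ |tt u - tt u0|/T`
(`hc.l`), second part `≤ Λ * 2π * n √n (u-u0)²/(12 u0³)` (`hc.b`, `|ee x - ee y| ≤ 2π |x - y|`, `as1`), `2π/12 ≤ 1`, `n √n ≤ K √K`,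
at most `K` terms. -/

set_option autoImplicit false

namespace Pool.Agent.LibSX15

open Finset

private theorem as5_norm_ee (x : ℝ) : ‖ee x‖ = 1 := by
  unfold ee
  exact Complex.norm_exp_ofReal_mul_I _

private theorem as5_ee_add (x y : ℝ) : ee (x + y) = ee x * ee y := by
  unfold ee
  rw [← Complex.exp_add]
  congr 1
  push_cast
  ring

private theorem as5_ee_lip (x y : ℝ) : ‖ee x - ee y‖ ≤ 2 * Real.pi * |x - y| := by
  have h1 : ee x - ee y = ee y * (ee (x - y) - 1) := by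
    rw [mul_sub, ← as5_ee_add, mul_one]
    congr 2
    ring
  rw [h1, norm_mul, as5_norm_ee, one_mul]
  have h2 := Real.norm_exp_I_mul_ofReal_sub_one_le (x := 2 * Real.pi * (x - y))
  have h3 : Complex.exp (Complex.I * ((2 * Real.pi * (x - y) : ℝ) : ℂ)) = ee (x - y) := by
    unfold ee
    rw [mul_comm]
  rw [h3] at h2
  refine h2.trans (le_of_eq ?_)
  rw [Real.norm_eq_abs, abs_mul, abs_of_nonneg (by positivity)]

private theorem as5_lam {C K Λ : ℝ} (hK : 0 ≤ K)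
    (hΛ : ∀ n : ℕ, (n : ℝ) ≤ K → C * n.divisors.card ≤ Λ) : 0 ≤ Λ := by
  have := hΛ 0 (by simpa using hK)
  simpa using this

private theorem as5_sum {K B : ℝ} (hK : 0 ≤ K) (hB : 0 ≤ B) (F : ℕ → ℂ)
    (hF : ∀ n ∈ Finset.Icc 1 ⌊K⌋₊, ‖F n‖ ≤ B) : ‖∑ n ∈ Finset.Icc 1 ⌊K⌋₊, F n‖ ≤ K * B := by
  calc ‖∑ n ∈ Finset.Icc 1 ⌊K⌋₊, F n‖ ≤ ∑ n ∈ Finset.Icc 1 ⌊K⌋₊, ‖F n‖ := norm_sum_le _ _
    _ ≤ ∑ n ∈ Finset.Icc 1 ⌊K⌋₊, B := Finset.sum_le_sum hF
    _ = (⌊K⌋₊ : ℝ) * B := by simp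
    _ ≤ K * B := mul_le_mul_of_nonneg_right (Nat.floor_le hK) hB

private theorem as5_le {K : ℝ} (hK : 0 ≤ K) {n : ℕ} (hn : n ∈ Finset.Icc 1 ⌊K⌋₊) : (n : ℝ) ≤ K :=
  (Nat.le_floor_iff hK).1 (Finset.mem_Icc.1 hn).2

theorem as5 (C T K Λ : ℝ) (c : ℕ → ℝ → ℂ) (hc : CC C T K c) (hT : 0 < T) (hK : 0 ≤ K)
    (hΛ : ∀ n : ℕ, (n : ℝ) ≤ K → C * n.divisors.card ≤ Λ) (u0 u : ℝ) (h0 : 0 < u0) (hu : u0 ≤ u)
    (h1 : T ≤ tt u0) (h2 : tt u ≤ 2 * T) :
    ‖SS K c (tt u) - SL K c u0 (u - u0)‖ ≤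
      Λ * K * ((tt u - tt u0) / T + K * Real.sqrt K * (u - u0) ^ 2 / u0 ^ 3) := by
  have hΛ0 := as5_lam hK hΛ
  have hab : tt u0 ≤ tt u := by
    unfold tt
    have : u0 ^ 2 ≤ u ^ 2 := pow_le_pow_left₀ h0.le hu 2
    have hpi : 0 ≤ 2 * Real.pi := by positivity
    exact mul_le_mul_of_nonneg_left this hpi
  have ha : tt u0 ∈ Set.Icc T (2 * T) := ⟨h1, hab.trans h2⟩
  have hb : tt u ∈ Set.Icc T (2 * T) := ⟨h1.trans hab, h2⟩
  have hA0 : 0 ≤ (tt u - tt u0) / T := div_nonneg (by linarith) hT.le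
  have hB0 : 0 ≤ K * Real.sqrt K * (u - u0) ^ 2 / u0 ^ 3 := by positivity
  have hmain : ‖SS K c (tt u) - SL K c u0 (u - u0)‖ ≤
      K * (Λ * ((tt u - tt u0) / T) + Λ * (K * Real.sqrt K * (u - u0) ^ 2 / u0 ^ 3)) := by
    unfold SS SL
    rw [← Finset.sum_sub_distrib]
    refine as5_sum hK (by positivity) _ fun n hn => ?_
    have hnK := as5_le hK hn
    have hCn := hΛ n hnK
    set f := zph n (tt u)
    set g := zph n (tt u0) + (u - u0) * zlam u0 n with hg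
    have e1 : ee (-zph n (tt u0)) * ee (-((u - u0) * zlam u0 n)) = ee (-g) := by
      rw [← as5_ee_add, hg]
      congr 1
      ring
    have e2 : c n (tt u) * ee (-f) - c n (tt u0) * ee (-zph n (tt u0)) *
        ee (-((u - u0) * zlam u0 n)) =
        (c n (tt u) - c n (tt u0)) * ee (-f) + c n (tt u0) * (ee (-f) - ee (-g)) := by
      rw [mul_assoc, e1]
      ring
    rw [e2]
    refine (norm_add_le _ _).trans (add_le_add ?_ ?_)
    · rw [norm_mul, as5_norm_ee, mul_one]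
      refine (hc.l n _ hb _ ha).trans ?_
      rw [abs_of_nonneg (by linarith), mul_div_assoc]
      exact mul_le_mul_of_nonneg_right hCn hA0
    · rw [norm_mul]
      have e3 : ‖c n (tt u0)‖ ≤ Λ := (hc.b n _ ha).trans hCn
      have e4 : ‖ee (-f) - ee (-g)‖ ≤ K * Real.sqrt K * (u - u0) ^ 2 / u0 ^ 3 := by
        refine (as5_ee_lip _ _).trans ?_
        have e5 : |-f - -g| = |f - g| := by
          rw [← abs_neg]
          congr 1
          ring
        rw [e5]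
        have e6 := as1 n u0 u h0 hu
        have e7 : (n : ℝ) * Real.sqrt n ≤ K * Real.sqrt K :=
          mul_le_mul hnK (Real.sqrt_le_sqrt hnK) (Real.sqrt_nonneg _) hK
        have e8 : 2 * Real.pi ≤ 12 := by
          have := Real.pi_lt_four
          linarith
        calc 2 * Real.pi * |f - g| ≤ 12 * (n * Real.sqrt n * (u - u0) ^ 2 / (12 * u0 ^ 3)) :=
              mul_le_mul e8 e6 (abs_nonneg _) (by norm_num)
          _ = n * Real.sqrt n * (u - u0) ^ 2 / u0 ^ 3 := by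
              field_simp
          _ ≤ K * Real.sqrt K * (u - u0) ^ 2 / u0 ^ 3 := by gcongr
      exact mul_le_mul e3 e4 (norm_nonneg _) hΛ0
  refine hmain.trans (le_of_eq ?_)
  ring

/-- `SS` is continuous -/
theorem as5b (C T K : ℝ) (c : ℕ → ℝ → ℂ) (hc : CC C T K c) (hT : 0 < T) :
    ContinuousOn (SS K c) (Set.Icc T (2 * T)) := by
  have hcont : ∀ n : ℕ, ContinuousOn (c n) (Set.Icc T (2 * T)) := by
    intro n t ht
    rw [ContinuousWithinAt, tendsto_iff_norm_sub_tendsto_zero]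
    have h1 : Filter.Tendsto (fun s : ℝ => C * n.divisors.card * |s - t| / T)
        (nhdsWithin t (Set.Icc T (2 * T))) (nhds 0) := by
      have h2 : Continuous fun s : ℝ => C * n.divisors.card * |s - t| / T := by fun_prop
      have h3 := h2.tendsto t
      simp only [sub_self, abs_zero, mul_zero, zero_div] at h3
      exact h3.mono_left nhdsWithin_le_nhds
    refine squeeze_zero' (Filter.Eventually.of_forall fun s => norm_nonneg _) ?_ h1
    filter_upwards [self_mem_nhdsWithin] with s hs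
    exact hc.l n s hs t ht
  have hee : Continuous ee := by
    unfold ee
    fun_prop
  have hzph : ∀ n : ℕ, Continuous (zph n) := by
    intro n
    unfold zph
    fun_prop
  unfold SS
  refine continuousOn_finsetSum _ fun n _ => ?_
  exact (hcont n).mul ((hee.comp (hzph n).neg).continuousOn)

/-- the trivial bounds -/
theorem as5c (C T K Λ : ℝ) (c : ℕ → ℝ → ℂ) (hc : CC C T K c) (hK : 0 ≤ K)
    (hΛ : ∀ n : ℕ, (n : ℝ) ≤ K → C * n.divisors.card ≤ Λ) :
    (∀ t ∈ Set.Icc T (2 * T), ‖SS K c t‖ ≤ Λ * K) ∧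
    (∀ u0 v : ℝ, tt u0 ∈ Set.Icc T (2 * T) → ‖SL K c u0 v‖ ≤ Λ * K) := by
  have hΛ0 := as5_lam hK hΛ
  constructor
  · intro t ht
    rw [mul_comm]
    refine as5_sum hK hΛ0 _ fun n hn => ?_
    rw [norm_mul, as5_norm_ee, mul_one]
    exact (hc.b n t ht).trans (hΛ n (as5_le hK hn))
  · intro u0 v ht
    rw [mul_comm]
    refine as5_sum hK hΛ0 _ fun n hn => ?_
    rw [norm_mul, norm_mul, as5_norm_ee, as5_norm_ee, mul_one, mul_one]
    exact (hc.b n _ ht).trans (hΛ n (as5_le hK hn))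

end Pool.Agent.LibSX15
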