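import Pool.Agent.LibSX15.AS2
import Pool.Agent.LibSX15.AS3
import Pool.Agent.LibSX15.AS5

/-! ROW AS7. From the counts of the large values of the linearised sums to the truncated second moment `TT`.
(use AS2, AS3, AS5 as they are stated.)
as7a: let `a = √(T/2π)`, `b = √(T/π)`, `g t = if Y ≤ ‖SS K c t‖ then ‖SS K c t‖^2 else 0`, `h u = g (tt u)` on `[a,b]`, 0 outside
(bounded by as5c-type bounds or by continuity, measurable because `SS` is continuous on `[T, 2T]`: as5b).
`∫_T^{2T} g = ∫_a^b g(2πu²) 4πu du ≤ 4πb ∫ h`, and `as2`: `∫ h ≤ ((b-a)/J + κ) Q`. With `κ J ≤ √T`, `b - a ≤ b`, `b = √T/√π`: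
`4πb((b-a)/J + κ) ≤ 4πb (b + √T)/J ≤ 12 T/J`... (`4π/π = 4`, `4π/√π = 4√π ≤ 7.1`: total `≤ 12`).
as7: apply as7a with `Q = 4 B (4 + 6 log (2X/Y))`. For `x ∈ [a,b]`: `Σ_{j<J} h(x + κ j)` = sum over the `j` with `tt (x+κj) ≤ 2T` and
`‖SS‖ ≥ Y`; for these `‖SS‖ ≤ ‖SL‖ + Y/2 ≤ ‖SL‖ + ‖SS‖/2`, so `‖SS‖ ≤ 2 ‖SL K c x (κ j)‖` and `‖SL‖ ≥ Y/2`; `as3` with
`y0 = Y/2` (if `X < Y/2` the sum is empty: treat separately or use `max`). -/

set_option autoImplicit false

namespace Pool.Agent.LibSX15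

open Finset

theorem as7_tt_sqrt (y : ℝ) (hy : 0 ≤ y) : tt (Real.sqrt (y / (2 * Real.pi))) = y := by
  unfold tt
  rw [Real.sq_sqrt (by positivity)]
  field_simp

theorem as7_tt_mono {x y : ℝ} (hx : 0 ≤ x) (h : x ≤ y) : tt x ≤ tt y := by
  unfold tt
  have : x ^ 2 ≤ y ^ 2 := pow_le_pow_left₀ hx h 2
  exact mul_le_mul_of_nonneg_left this (by positivity)

theorem as7_tt_le {x y : ℝ} (hx : 0 ≤ x) (hy : 0 ≤ y) (h : tt x ≤ tt y) : x ≤ y := by
  unfold tt at h
  have h2 : x ^ 2 ≤ y ^ 2 := le_of_mul_le_mul_left h (by positivity)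
  exact (pow_le_pow_iff_left₀ hx hy two_ne_zero).1 h2

theorem as7_image (T : ℝ) (hT : 1 ≤ T) :
    tt '' Set.Icc (Real.sqrt (T / (2 * Real.pi))) (Real.sqrt ((2 * T) / (2 * Real.pi))) =
      Set.Icc T (2 * T) := by
  ext t
  constructor
  · rintro ⟨u, hu, rfl⟩
    have h1 := as7_tt_mono (Real.sqrt_nonneg _) hu.1
    have h2 := as7_tt_mono ((Real.sqrt_nonneg _).trans hu.1) hu.2
    rw [as7_tt_sqrt _ (by linarith)] at h1 h2
    exact ⟨h1, h2⟩
  · rintro ⟨h1, h2⟩
    refine ⟨Real.sqrt (t / (2 * Real.pi)), ⟨?_, ?_⟩, as7_tt_sqrt t (by linarith)⟩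
    · exact Real.sqrt_le_sqrt (by gcongr)
    · exact Real.sqrt_le_sqrt (by gcongr)

open MeasureTheory in
theorem as7a (C T K Y κ Q : ℝ) (J : ℕ) (c : ℕ → ℝ → ℂ) (hc : CC C T K c) (hT : 1 ≤ T) (hJ : 1 ≤ J)
    (hY : 0 < Y) (hκ : 0 < κ) (hκJ : κ * J ≤ Real.sqrt T)
    (hQ : ∀ x : ℝ, 0 < x → tt x ∈ Set.Icc T (2 * T) →
      ∑ j ∈ (range J).filter (fun j : ℕ => tt (x + κ * j) ≤ 2 * T ∧ Y ≤ ‖SS K c (tt (x + κ * j))‖),
        ‖SS K c (tt (x + κ * j))‖ ^ 2 ≤ Q) :
    TT K c T Y ≤ 12 * T / J * Q := by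
  classical
  have hT0 : 0 < T := by linarith
  have hJ0 : (0 : ℝ) < J := by exact_mod_cast hJ
  set a : ℝ := Real.sqrt (T / (2 * Real.pi)) with ha
  set b : ℝ := Real.sqrt ((2 * T) / (2 * Real.pi)) with hb
  have ha0 : 0 < a := Real.sqrt_pos.2 (by positivity)
  have hab : a ≤ b := Real.sqrt_le_sqrt (by gcongr; linarith)
  have hb0 : 0 < b := lt_of_lt_of_le ha0 hab
  have hta : tt a = T := as7_tt_sqrt T hT0.le
  have htb : tt b = 2 * T := as7_tt_sqrt (2 * T) (by linarith)
  have himg : tt '' Set.Icc a b = Set.Icc T (2 * T) := as7_image T hT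
  have hmaps : ∀ u ∈ Set.Icc a b, tt u ∈ Set.Icc T (2 * T) := fun u hu => by
    rw [← himg]
    exact ⟨u, hu, rfl⟩
  have httc : Continuous tt := by
    unfold tt
    fun_prop
  -- the truncation
  set g : ℝ → ℝ := fun t => if Y ≤ ‖SS K c t‖ then ‖SS K c t‖ ^ 2 else 0 with hg
  have hg0 : ∀ t, 0 ≤ g t := by
    intro t
    rw [hg]
    dsimp only
    split_ifs
    · positivity
    · exact le_rfl
  have hScont : ContinuousOn (fun u => ‖SS K c (tt u)‖) (Set.Icc a b) :=
    ((as5b C T K c hc hT0).comp httc.continuousOn hmaps).norm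
  set Fp : ℝ → ℝ := (Set.Icc a b).piecewise (fun u => ‖SS K c (tt u)‖) (fun _ => 0) with hFp
  have hFm : Measurable Fp :=
    ContinuousOn.measurable_piecewise hScont continuousOn_const measurableSet_Icc
  set h : ℝ → ℝ := fun u => if Y ≤ Fp u then Fp u ^ 2 else 0 with hh
  have hhin : ∀ u ∈ Set.Icc a b, h u = g (tt u) := by
    intro u hu
    have : Fp u = ‖SS K c (tt u)‖ := Set.piecewise_eq_of_mem _ _ _ hu
    rw [hh, hg]
    dsimp only
    rw [this]
  have hhout : ∀ u, u ∉ Set.Icc a b → h u = 0 := by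
    intro u hu
    have : Fp u = 0 := Set.piecewise_eq_of_notMem _ _ _ hu
    rw [hh]
    dsimp only
    rw [this, if_neg (not_le.2 hY)]
  have hh0 : ∀ u, 0 ≤ h u := by
    intro u
    rw [hh]
    dsimp only
    split_ifs
    · positivity
    · exact le_rfl
  have hhm : Measurable h :=
    Measurable.ite (measurableSet_le measurable_const hFm) (hFm.pow_const 2) measurable_const
  obtain ⟨B0, hB0⟩ : ∃ B0, ∀ u ∈ Set.Icc a b, ‖SS K c (tt u)‖ ≤ B0 := by
    obtain ⟨B0, hB0⟩ := (isCompact_Icc (a := a) (b := b)).bddAbove_image hScont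
    exact ⟨B0, fun u hu => hB0 ⟨u, hu, rfl⟩⟩
  have hhb : ∀ u, ‖h u‖ ≤ B0 ^ 2 := by
    intro u
    rw [Real.norm_eq_abs, abs_of_nonneg (hh0 u)]
    by_cases hu : u ∈ Set.Icc a b
    · rw [hhin u hu, hg]
      dsimp only
      split_ifs
      · exact pow_le_pow_left₀ (norm_nonneg _) (hB0 u hu) 2
      · positivity
    · rw [hhout u hu]
      positivity
  have hhi : Integrable h := by
    have h1 : IntegrableOn h (Set.Icc a b) :=
      Measure.integrableOn_of_bounded (M := B0 ^ 2) (by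
        rw [Real.volume_Icc]
        exact ENNReal.ofReal_ne_top) hhm.aestronglyMeasurable
        (Filter.Eventually.of_forall hhb)
    exact h1.integrable_of_forall_notMem_eq_zero hhout
  -- the sum
  have hQ' : ∀ x ∈ Set.Icc a b, ∑ j ∈ range J, h (x + κ * j) ≤ Q := by
    intro x hx
    have hx0 : 0 < x := lt_of_lt_of_le ha0 hx.1
    have h1 : ∑ j ∈ range J, h (x + κ * j) =
        ∑ j ∈ (range J).filter (fun j : ℕ => tt (x + κ * j) ≤ 2 * T ∧
          Y ≤ ‖SS K c (tt (x + κ * j))‖), ‖SS K c (tt (x + κ * j))‖ ^ 2 := by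
      rw [Finset.sum_filter]
      refine Finset.sum_congr rfl fun j _ => ?_
      have hj0 : 0 ≤ κ * (j : ℝ) := by positivity
      by_cases hle : tt (x + κ * j) ≤ 2 * T
      · have hmem : x + κ * j ∈ Set.Icc a b := by
          refine ⟨by linarith [hx.1], ?_⟩
          rw [← htb] at hle
          exact as7_tt_le (by linarith) hb0.le hle
        rw [hhin _ hmem, hg]
        dsimp only
        by_cases hY' : Y ≤ ‖SS K c (tt (x + κ * j))‖
        · rw [if_pos hY', if_pos ⟨hle, hY'⟩]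
        · rw [if_neg hY', if_neg (fun h => hY' h.2)]
      · rw [if_neg (fun h => hle h.1)]
        apply hhout
        intro hmem
        apply hle
        have := as7_tt_mono (by linarith) hmem.2
        rwa [htb] at this
    rw [h1]
    exact hQ x hx0 (hmaps x hx)
  have hQ0 : 0 ≤ Q := le_trans (Finset.sum_nonneg fun j _ => hh0 _)
    (hQ' a ⟨le_rfl, hab⟩)
  have hmain := as2 h a b κ Q J hab hκ hJ hh0 hhout hhi hQ'
  -- change of variables
  have hTT : TT K c T Y = ∫ t in Set.Icc T (2 * T), g t := by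
    unfold TT
    rw [intervalIntegral.integral_of_le (by linarith), ← integral_Icc_eq_integral_Ioc]
  have hcv : ∫ t in Set.Icc T (2 * T), g t =
      ∫ u in Set.Icc a b, |4 * Real.pi * u| • g (tt u) := by
    rw [← himg]
    refine integral_image_eq_integral_abs_deriv_smul measurableSet_Icc ?_ ?_ g
    · intro u _
      have h1 : HasDerivAt tt (2 * Real.pi * ((2 : ℕ) * u ^ (2 - 1))) u := by
        unfold tt
        exact (hasDerivAt_pow 2 u).const_mul (2 * Real.pi)
      have h2 : 2 * Real.pi * (((2 : ℕ) : ℝ) * u ^ (2 - 1)) = 4 * Real.pi * u := by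
        norm_num
        ring
      rw [h2] at h1
      exact h1.hasDerivWithinAt
    · intro x hx y hy hxy
      exact le_antisymm (as7_tt_le (ha0.le.trans hx.1) (ha0.le.trans hy.1) hxy.le)
        (as7_tt_le (ha0.le.trans hy.1) (ha0.le.trans hx.1) hxy.ge)
  have hbd : ∫ u in Set.Icc a b, |4 * Real.pi * u| • g (tt u) ≤ 4 * Real.pi * b * ∫ u, h u := by
    have h1 : ∫ u in Set.Icc a b, |4 * Real.pi * u| • g (tt u) =
        ∫ u in Set.Icc a b, |4 * Real.pi * u| * h u := by
      refine setIntegral_congr_fun measurableSet_Icc fun u hu => ?_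
      change |4 * Real.pi * u| * g (tt u) = |4 * Real.pi * u| * h u
      rw [hhin u hu]
    have h2 : ∫ u in Set.Icc a b, |4 * Real.pi * u| * h u ≤
        ∫ u in Set.Icc a b, 4 * Real.pi * b * h u := by
      refine setIntegral_mono_on ?_ (hhi.integrableOn.const_mul _) measurableSet_Icc
        fun u hu => ?_
      · refine Measure.integrableOn_of_bounded (M := 4 * Real.pi * b * B0 ^ 2) (by
          rw [Real.volume_Icc]
          exact ENNReal.ofReal_ne_top)
          ((by fun_prop : Measurable fun u : ℝ => |4 * Real.pi * u|).mul hhm).aestronglyMeasurable ?_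
        refine (ae_restrict_iff' measurableSet_Icc).2 (Filter.Eventually.of_forall fun u hu => ?_)
        rw [norm_mul]
        refine mul_le_mul ?_ (hhb u) (norm_nonneg _) (by positivity)
        rw [Real.norm_eq_abs, abs_abs, abs_of_nonneg (by
          have : 0 ≤ u := ha0.le.trans hu.1
          positivity)]
        exact mul_le_mul_of_nonneg_left hu.2 (by positivity)
      · refine mul_le_mul_of_nonneg_right ?_ (hh0 u)
        rw [abs_of_nonneg (by
          have : 0 ≤ u := ha0.le.trans hu.1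
          positivity)]
        exact mul_le_mul_of_nonneg_left hu.2 (by positivity)
    have h3 : ∫ u in Set.Icc a b, 4 * Real.pi * b * h u = 4 * Real.pi * b * ∫ u, h u := by
      rw [integral_const_mul]
      congr 1
      exact setIntegral_eq_integral_of_forall_compl_eq_zero hhout
    rw [h1]
    linarith
  rw [hTT, hcv]
  refine hbd.trans ?_
  have hfin : 4 * Real.pi * b * ((b - a) / J + κ) ≤ 12 * T / J := by
    have hκ' : κ ≤ Real.sqrt T / J := by
      rw [le_div_iff₀ hJ0]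
      exact hκJ
    have hbb : b * b = T / Real.pi := by
      rw [hb, Real.mul_self_sqrt (by positivity)]
      field_simp
    have hpi : 0 < Real.pi := Real.pi_pos
    have hbs : b * Real.sqrt T ≤ T / Real.sqrt 3 := by
      have h1 : b = Real.sqrt (T / Real.pi) := by
        rw [hb]
        congr 1
        field_simp
      rw [h1, ← Real.sqrt_mul (by positivity)]
      have h2 : T / Real.pi * T ≤ T ^ 2 / 3 := by
        rw [div_mul_eq_mul_div, div_le_div_iff₀ hpi (by norm_num)]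
        have := Real.pi_gt_three
        nlinarith
      calc Real.sqrt (T / Real.pi * T) ≤ Real.sqrt (T ^ 2 / 3) := Real.sqrt_le_sqrt h2
        _ = T / Real.sqrt 3 := by
            rw [Real.sqrt_div (by positivity), Real.sqrt_sq hT0.le]
    have hs3 : (1.7 : ℝ) ≤ Real.sqrt 3 := by
      rw [Real.le_sqrt (by norm_num) (by norm_num)]
      norm_num
    have hbs' : 4 * Real.pi * (b * Real.sqrt T) ≤ 8 * T := by
      have h1 : T / Real.sqrt 3 ≤ T / 1.7 := by
        apply div_le_div_of_nonneg_left hT0.le (by norm_num) hs3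
      have h2 : b * Real.sqrt T ≤ T / 1.7 := hbs.trans h1
      have h3 : 4 * Real.pi ≤ 12.6 := by linarith [Real.pi_lt_d2]
      have h4 : 0 ≤ b * Real.sqrt T := by positivity
      calc 4 * Real.pi * (b * Real.sqrt T) ≤ 12.6 * (b * Real.sqrt T) :=
            mul_le_mul_of_nonneg_right h3 h4
        _ ≤ 12.6 * (T / 1.7) := mul_le_mul_of_nonneg_left h2 (by norm_num)
        _ ≤ 8 * T := by
            rw [← mul_div_assoc, div_le_iff₀ (by norm_num)]
            nlinarith
    have hbb' : 4 * Real.pi * (b * b) = 4 * T := by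
      rw [hbb]
      field_simp
    calc 4 * Real.pi * b * ((b - a) / J + κ)
        ≤ 4 * Real.pi * b * (b / J + Real.sqrt T / J) := by
          refine mul_le_mul_of_nonneg_left ?_ (by positivity)
          refine add_le_add ?_ hκ'
          exact div_le_div_of_nonneg_right (by linarith) hJ0.le
      _ = (4 * Real.pi * (b * b) + 4 * Real.pi * (b * Real.sqrt T)) / J := by
          field_simp
      _ ≤ (4 * T + 8 * T) / J := by
          refine div_le_div_of_nonneg_right ?_ hJ0.le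
          linarith
      _ = 12 * T / J := by ring
  calc 4 * Real.pi * b * ∫ u, h u ≤ 4 * Real.pi * b * (((b - a) / J + κ) * Q) :=
        mul_le_mul_of_nonneg_left hmain (by positivity)
    _ = 4 * Real.pi * b * ((b - a) / J + κ) * Q := by ring
    _ ≤ 12 * T / J * Q := mul_le_mul_of_nonneg_right hfin hQ0

theorem as7 (C T K Y X B κ : ℝ) (J : ℕ) (c : ℕ → ℝ → ℂ) (hc : CC C T K c) (hT : 1 ≤ T) (hJ : 1 ≤ J)
    (hY : 0 < Y) (hκ : 0 < κ) (hκJ : κ * J ≤ Real.sqrt T) (hB : 0 ≤ B) (hYX : Y ≤ 2 * X)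
    (hX : ∀ x v : ℝ, tt x ∈ Set.Icc T (2 * T) → ‖SL K c x v‖ ≤ X)
    (herr : ∀ x : ℝ, 0 < x → ∀ j : ℕ, j < J → T ≤ tt x → tt (x + κ * j) ≤ 2 * T →
      ‖SS K c (tt (x + κ * j)) - SL K c x (κ * j)‖ ≤ Y / 2)
    (hcount : ∀ x : ℝ, 0 < x → tt x ∈ Set.Icc T (2 * T) → ∀ y : ℝ, Y / 2 ≤ y →
      (((range J).filter (fun j : ℕ => y ≤ ‖SL K c x (κ * j)‖)).card : ℝ) ≤ B / y ^ 2) :
    TT K c T Y ≤ 48 * T / J * B * (4 + 6 * Real.log (2 * X / Y)) := by
  classical
  have key := as7a C T K Y κ (4 * (B * (4 + 6 * Real.log (2 * X / Y)))) J c hc hT hJ hY hκ hκJ ?_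
  · refine key.trans (le_of_eq ?_)
    ring
  intro x hx0 hx
  have h3 := as3 (range J) (fun j : ℕ => ‖SL K c x (κ * j)‖) (Y / 2) X B (by positivity)
    (by linarith) hB (fun j _ => hX x _ hx) (fun y hy => hcount x hx0 hx y hy)
  have hlog : X / (Y / 2) = 2 * X / Y := by
    field_simp
  rw [hlog] at h3
  have hstep : ∀ j ∈ (range J).filter (fun j : ℕ => tt (x + κ * j) ≤ 2 * T ∧
      Y ≤ ‖SS K c (tt (x + κ * j))‖), Y / 2 ≤ ‖SL K c x (κ * j)‖ ∧
      ‖SS K c (tt (x + κ * j))‖ ≤ 2 * ‖SL K c x (κ * j)‖ := by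
    intro j hj
    rw [Finset.mem_filter, Finset.mem_range] at hj
    obtain ⟨hj1, hj2, hj3⟩ := hj
    have h1 := herr x hx0 j hj1 hx.1 hj2
    have h2 : ‖SS K c (tt (x + κ * j))‖ ≤ ‖SL K c x (κ * j)‖ +
        ‖SS K c (tt (x + κ * j)) - SL K c x (κ * j)‖ := by
      have := norm_add_le (SL K c x (κ * j)) (SS K c (tt (x + κ * j)) - SL K c x (κ * j))
      rwa [add_sub_cancel] at this
    constructor
    · linarith
    · linarith
  calc ∑ j ∈ (range J).filter (fun j : ℕ => tt (x + κ * j) ≤ 2 * T ∧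
        Y ≤ ‖SS K c (tt (x + κ * j))‖), ‖SS K c (tt (x + κ * j))‖ ^ 2
      ≤ ∑ j ∈ (range J).filter (fun j : ℕ => tt (x + κ * j) ≤ 2 * T ∧
        Y ≤ ‖SS K c (tt (x + κ * j))‖), 4 * ‖SL K c x (κ * j)‖ ^ 2 := by
        refine Finset.sum_le_sum fun j hj => ?_
        have h1 := pow_le_pow_left₀ (norm_nonneg _) (hstep j hj).2 2
        linarith [mul_pow 2 ‖SL K c x (κ * j)‖ 2]
    _ ≤ ∑ j ∈ (range J).filter (fun j : ℕ => Y / 2 ≤ ‖SL K c x (κ * j)‖),
        4 * ‖SL K c x (κ * j)‖ ^ 2 := by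
        refine Finset.sum_le_sum_of_subset_of_nonneg ?_ (fun j _ _ => by positivity)
        intro j hj
        have h1 := (hstep j hj).1
        rw [Finset.mem_filter] at hj ⊢
        exact ⟨hj.1, h1⟩
    _ ≤ 4 * (B * (4 + 6 * Real.log (2 * X / Y))) := by
        rw [← Finset.mul_sum]
        exact mul_le_mul_of_nonneg_left h3 (by norm_num)

end Pool.Agent.LibSX15
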