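import Pool.Agent.LibSX15.AS4
import Pool.Agent.LibSX15.AS8

/-! ROW AS10 (uses AS4, AS8 as stated). The critical case: the large values theorem.
Let `x0 = 1/(1040 (11 k + 60))`, `M = T^(1/26)`, `Λ = T^(11x)`, `K = T^κ`, `κ ∈ [1/2 - 4x, 1/2 + 5x]`, `B = T^((11k + 58) x) K² M^(19/20)`;
`Y ≥ T^((1+κ)/4 - x)`, and `Y ≤ 2ΛK` may be assumed (otherwise `TT = 0`, `as5c`).  Everything is a power of `T`; constants and
logarithms are `≤ T^(x/100)` for large `T`.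
* `C1 d(n) ≤ T^x ≤ Λ` (as4).
* hE: first term `11x + 1/26 + 3κ/2 - 1/2 ≤ 1/4 + 1/26 + 19x`, second `11x + 1/13 + 7κ/2 - 3/2 ≤ 1/4 + 1/13 + 29x`, against `(1+κ)/4 - x ≥ 3/8 - 2x`.
* hκ: `1/26 + κ/2 ≤ 1/2`. `M ≤ K`, `K ≤ T/1000` clear.
* hLV: `d.ε = 3K²/x² ≤ 6π T^(10x) ≤ T^(11x) = Λ` (`x² ≥ T/2π`), `log M + 1 ≤ Λ`, `Err ≤ C0 (2 T^(1/26 + 11x))² (1 + log T) ≤ T^(1/13 + 23x)`,
  `H = Λ²K²/y² ≤ 4 T^(22x + 2κ - (1+κ)/2 + 2x) ≤ T^(1/4 + 33x)` for `y ≥ Y/2`;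
  `C2 H Err ≤ K`: `1/4 + 33x + 1/13 + 23x + .. ≤ 1/2 - 4x`; `Err² ≤ K`: `2/13 + 46x ≤ 1/2 - 4x`;
  `C2 Λ^k M^6 H ≤ K`: `11kx + 6/26 + 1/4 + 33x + .. ≤ 1/2 - 4x`, true since `(11k + 38) x ≤ 1/52`.
  `MP` gives `|W| ≤ C2 Λ^k √(max 1 (H²/K)) H M^(19/20)`, `H²/K ≤ T^(70x)`, `H = Λ²K²/y²`: `≤ C2 T^(11kx + 35x + 22x) K² M^(19/20)/y² ≤ B/y²`.
* conclusion: `96 T/(M K) * B * (4 + 6 log (2ΛK/Y)) ≤ T K T^(-1/1040)`: `(11k + 58)x - 1/520 + .. ≤ -1/1040`. -/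

set_option autoImplicit false

namespace Pool.Agent.LibSX15

open Finset

private theorem AS10_mul {T C a b x : ℝ} (hT : 1 ≤ T) (hC : C ≤ T ^ x) (h : a + x ≤ b) :
    C * T ^ a ≤ T ^ b := by
  have hTp : 0 < T := by linarith
  calc C * T ^ a ≤ T ^ x * T ^ a := mul_le_mul_of_nonneg_right hC (Real.rpow_nonneg hTp.le _)
    _ = T ^ (a + x) := by rw [← Real.rpow_add hTp, add_comm]
    _ ≤ T ^ b := Real.rpow_le_rpow_of_exponent_le hT h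

private theorem AS10_sq {T : ℝ} (hT : 0 < T) (a : ℝ) : (T ^ a) ^ 2 = T ^ (2 * a) := by
  rw [pow_two, ← Real.rpow_add hT]
  congr 1
  ring

private theorem AS10_pow {T : ℝ} (hT : 0 < T) (a : ℝ) (k : ℕ) : (T ^ a) ^ k = T ^ (a * k) := by
  rw [← Real.rpow_natCast, ← Real.rpow_mul hT.le]

/-- the large values theorem for the data of the kernel theorem -/
private theorem AS10_LV (C0 C2 : ℝ) (k : ℕ) (hC0 : 1 ≤ C0) (hMP : MP C0 C2 k) (x : ℝ) (hx : 0 < x)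
    (hxk : 11 * (x * k) + 60 * x ≤ 1 / 1040) (T κ Y : ℝ) (hT3 : 3 ≤ T) (hl1 : 1 ≤ Real.log T)
    (hbig : (2000 + 8 * C0 + C2) * Real.log T ≤ T ^ x) (hκ1 : 1 / 2 - 4 * x ≤ κ)
    (hκ2 : κ ≤ 1 / 2 + 5 * x) (hY : T ^ ((1 + κ) / 4 - x) ≤ Y) :
    ∀ v : ℝ, 0 < v → tt v ∈ Set.Icc T (2 * T) → ∀ d : Dat, d.Good C0 → d.N = T ^ κ →
      d.M = T ^ (1 / 26 : ℝ) → d.ε = 3 * (T ^ κ) ^ 2 / v ^ 2 →
      d.Err = C0 * (1 + T ^ (1 / 26 : ℝ) * (3 * (T ^ κ) ^ 2 / v ^ 2)) ^ 2 *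
        (1 + Real.log (T ^ (1 / 26 : ℝ))) →
      ∀ (a : ℕ → ℂ) (W : Finset ℤ) (y : ℝ), Y / 2 ≤ y → (∀ n, ‖a n‖ ≤ T ^ (11 * x) * d.ω n) →
      (∀ t ∈ W, (0 : ℝ) ≤ t ∧ (t : ℝ) ≤ T ^ (1 / 26 : ℝ) * T ^ κ) → (∀ t ∈ W, y ≤ ‖d.D a t‖) →
      (W.card : ℝ) ≤ (T ^ (11 * (x * k) + 58 * x) * (T ^ κ) ^ 2 *
        (T ^ (1 / 26 : ℝ)) ^ (19 / 20 : ℝ)) / y ^ 2 := by
  intro v hv htv d hd hN hM hε hErr a W y hy ha hW hD
  obtain ⟨hC2, hMP'⟩ := hMP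
  have hTp : 0 < T := by linarith
  have hT1 : 1 ≤ T := by linarith
  have hxk0 : 0 ≤ x * k := mul_nonneg hx.le (Nat.cast_nonneg _)
  have hpos : ∀ a : ℝ, 0 < T ^ a := fun a => Real.rpow_pos_of_pos hTp a
  have hle : ∀ {a b : ℝ}, a ≤ b → T ^ a ≤ T ^ b := fun h => Real.rpow_le_rpow_of_exponent_le hT1 h
  have hadd : ∀ a b : ℝ, T ^ a * T ^ b = T ^ (a + b) := fun a b => (Real.rpow_add hTp a b).symm
  have hone : ∀ {a : ℝ}, 0 ≤ a → 1 ≤ T ^ a := fun h => Real.one_le_rpow hT1 h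
  have hC : 2000 + 8 * C0 + C2 ≤ T ^ x := by
    refine le_trans ?_ hbig
    have h0 : 0 ≤ 2000 + 8 * C0 + C2 := by linarith
    calc 2000 + 8 * C0 + C2 = (2000 + 8 * C0 + C2) * 1 := (mul_one _).symm
      _ ≤ (2000 + 8 * C0 + C2) * Real.log T := mul_le_mul_of_nonneg_left hl1 h0
  have hy0 : 0 < y := by
    have := hpos ((1 + κ) / 4 - x)
    linarith
  -- epsilon
  have hv2 : T / (2 * Real.pi) ≤ v ^ 2 := by
    have h1 := htv.1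
    unfold tt at h1
    rw [div_le_iff₀ Real.two_pi_pos]
    linarith
  have hK2 : (T ^ κ) ^ 2 ≤ T ^ (1 + 10 * x) := by
    rw [AS10_sq hTp]
    exact hle (by linarith)
  have hε1 : 3 * (T ^ κ) ^ 2 / v ^ 2 ≤ 19 * T ^ (10 * x) := by
    have hπ := Real.pi_lt_d2
    have hπ0 := Real.pi_pos
    have h1 : T ^ (1 + 10 * x) = T * T ^ (10 * x) := by
      rw [Real.rpow_add hTp, Real.rpow_one]
    rw [div_le_iff₀ (by positivity)]
    have h2 : 19 * T ^ (10 * x) * (T / (2 * Real.pi)) ≤ 19 * T ^ (10 * x) * v ^ 2 :=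
      mul_le_mul_of_nonneg_left hv2 (by positivity)
    refine le_trans ?_ h2
    rw [mul_div_assoc', le_div_iff₀ Real.two_pi_pos]
    have h3 : 3 * (T ^ κ) ^ 2 * (2 * Real.pi) ≤ 3 * (T * T ^ (10 * x)) * (2 * Real.pi) := by
      refine mul_le_mul_of_nonneg_right ?_ Real.two_pi_pos.le
      rw [← h1]
      linarith
    have h4 : 0 < T * T ^ (10 * x) := mul_pos hTp (hpos _)
    nlinarith
  have hε0 : 0 ≤ 3 * (T ^ κ) ^ 2 / v ^ 2 := by positivity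
  have hεΛ : 3 * (T ^ κ) ^ 2 / v ^ 2 ≤ T ^ (11 * x) :=
    hε1.trans (AS10_mul hT1 (by linarith : (19 : ℝ) ≤ T ^ x) (by linarith))
  -- logarithm of M
  have hlogM : Real.log (T ^ (1 / 26 : ℝ)) = 1 / 26 * Real.log T := Real.log_rpow hTp _
  have hlogM1 : 1 + Real.log (T ^ (1 / 26 : ℝ)) ≤ 2 * Real.log T := by
    rw [hlogM]
    linarith
  have hΛlog : Real.log (T ^ (1 / 26 : ℝ)) + 1 ≤ T ^ (11 * x) := by
    have h1 : 2 * Real.log T ≤ T ^ x := by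
      refine le_trans ?_ hbig
      exact mul_le_mul_of_nonneg_right (by linarith) (by linarith)
    have h2 : T ^ x ≤ T ^ (11 * x) := hle (by linarith)
    linarith
  -- Err
  have hErr1 : d.Err ≤ T ^ (1 / 13 + 23 * x) := by
    rw [hErr]
    have h1 : 1 + T ^ (1 / 26 : ℝ) * (3 * (T ^ κ) ^ 2 / v ^ 2) ≤ 2 * T ^ (1 / 26 + 11 * x) := by
      have h2 : T ^ (1 / 26 : ℝ) * (3 * (T ^ κ) ^ 2 / v ^ 2) ≤ T ^ (1 / 26 + 11 * x) := by
        rw [← hadd]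
        exact mul_le_mul_of_nonneg_left hεΛ (hpos _).le
      have h3 : 1 ≤ T ^ (1 / 26 + 11 * x) := hone (by positivity)
      linarith
    have h0 : 0 ≤ 1 + T ^ (1 / 26 : ℝ) * (3 * (T ^ κ) ^ 2 / v ^ 2) := by
      have := mul_nonneg (hpos (1 / 26 : ℝ)).le hε0
      linarith
    have h2 : (1 + T ^ (1 / 26 : ℝ) * (3 * (T ^ κ) ^ 2 / v ^ 2)) ^ 2 ≤
        4 * T ^ (1 / 13 + 22 * x) := by
      refine (pow_le_pow_left₀ h0 h1 2).trans (le_of_eq ?_)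
      rw [mul_pow, AS10_sq hTp]
      norm_num
      congr 1
      ring
    have h3 : C0 * (1 + T ^ (1 / 26 : ℝ) * (3 * (T ^ κ) ^ 2 / v ^ 2)) ^ 2 *
        (1 + Real.log (T ^ (1 / 26 : ℝ))) ≤
        C0 * (4 * T ^ (1 / 13 + 22 * x)) * (2 * Real.log T) := by
      have hl0 : 0 ≤ 1 + Real.log (T ^ (1 / 26 : ℝ)) := by
        rw [hlogM]
        linarith
      refine mul_le_mul (mul_le_mul_of_nonneg_left h2 (by linarith)) hlogM1 hl0 ?_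
      have := hpos (1 / 13 + 22 * x)
      positivity
    refine h3.trans ?_
    have h4 : 8 * C0 * Real.log T ≤ T ^ x := by
      refine le_trans ?_ hbig
      exact mul_le_mul_of_nonneg_right (by linarith) (by linarith)
    calc C0 * (4 * T ^ (1 / 13 + 22 * x)) * (2 * Real.log T)
        = (8 * C0 * Real.log T) * T ^ (1 / 13 + 22 * x) := by ring
      _ ≤ T ^ (1 / 13 + 23 * x) := AS10_mul hT1 h4 (by linarith)
  have hErr0 : 0 ≤ d.Err := le_trans zero_le_one hd.hErr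
  -- H
  obtain ⟨H, hH⟩ : ∃ H : ℝ, H = (T ^ (11 * x)) ^ 2 * d.N ^ 2 / y ^ 2 := ⟨_, rfl⟩
  have hH' : H = T ^ (22 * x) * (T ^ κ) ^ 2 / y ^ 2 := by
    rw [hH, hN, AS10_sq hTp]
    congr 3
    ring
  have hH0 : 0 ≤ H := by
    rw [hH]
    positivity
  have hH1 : H ≤ T ^ (1 / 4 + 33 * x) := by
    have h1 : T ^ ((1 + κ) / 2 - 2 * x) ≤ 4 * y ^ 2 := by
      have h2 : T ^ ((1 + κ) / 4 - x) ≤ 2 * y := by linarith
      have h3 := pow_le_pow_left₀ (hpos _).le h2 2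
      rw [AS10_sq hTp] at h3
      calc T ^ ((1 + κ) / 2 - 2 * x) = T ^ (2 * ((1 + κ) / 4 - x)) := by
            congr 1
            ring
        _ ≤ (2 * y) ^ 2 := h3
        _ = 4 * y ^ 2 := by ring
    rw [hH', div_le_iff₀ (by positivity)]
    have h4 : T ^ (22 * x) * (T ^ κ) ^ 2 = T ^ (22 * x + 2 * κ) := by
      rw [AS10_sq hTp, hadd]
    rw [h4]
    have h5 : 4 * T ^ (22 * x + 2 * κ) ≤ T ^ (1 / 4 + 33 * x) * T ^ ((1 + κ) / 2 - 2 * x) := by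
      rw [hadd]
      refine AS10_mul hT1 (by linarith : (4 : ℝ) ≤ T ^ x) ?_
      linarith
    have h6 : T ^ (1 / 4 + 33 * x) * T ^ ((1 + κ) / 2 - 2 * x) ≤
        T ^ (1 / 4 + 33 * x) * (4 * y ^ 2) := mul_le_mul_of_nonneg_left h1 (hpos _).le
    linarith
  -- the three conditions
  have c1 : C2 * H * d.Err ≤ d.N := by
    rw [hN]
    calc C2 * H * d.Err ≤ C2 * T ^ (1 / 4 + 33 * x) * T ^ (1 / 13 + 23 * x) :=
          mul_le_mul (mul_le_mul_of_nonneg_left hH1 (by linarith)) hErr1 hErr0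
            (mul_nonneg (by linarith) (hpos _).le)
      _ = C2 * T ^ (1 / 4 + 33 * x + (1 / 13 + 23 * x)) := by rw [mul_assoc, hadd]
      _ ≤ T ^ κ := AS10_mul hT1 (by linarith : C2 ≤ T ^ x) (by linarith)
  have c2 : d.Err ^ 2 ≤ d.N := by
    rw [hN]
    calc d.Err ^ 2 ≤ (T ^ (1 / 13 + 23 * x)) ^ 2 := pow_le_pow_left₀ hErr0 hErr1 2
      _ = T ^ (2 * (1 / 13 + 23 * x)) := AS10_sq hTp _
      _ ≤ T ^ κ := hle (by linarith)
  have c3 : C2 * (T ^ (11 * x)) ^ k * d.M ^ 6 * H ≤ d.N := by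
    rw [hN, hM, AS10_pow hTp, AS10_pow hTp]
    calc C2 * T ^ (11 * x * k) * T ^ ((1 / 26 : ℝ) * (6 : ℕ)) * H
        ≤ C2 * T ^ (11 * x * k) * T ^ ((1 / 26 : ℝ) * (6 : ℕ)) * T ^ (1 / 4 + 33 * x) := by
          refine mul_le_mul_of_nonneg_left hH1 ?_
          have h1 := hpos (11 * x * k)
          have h2 := hpos ((1 / 26 : ℝ) * (6 : ℕ))
          positivity
      _ = C2 * T ^ (11 * x * k + (1 / 26 : ℝ) * (6 : ℕ) + (1 / 4 + 33 * x)) := by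
          rw [mul_assoc C2, hadd, mul_assoc C2, hadd]
      _ ≤ T ^ κ := by
          refine AS10_mul hT1 (by linarith : C2 ≤ T ^ x) ?_
          have h1 : 11 * x * k = 11 * (x * k) := by ring
          rw [h1]
          push_cast
          linarith
  have hmain := hMP' d hd (T ^ (11 * x)) y H a W (hone (by positivity)) (by rw [hε]; exact hεΛ)
    (by rw [hM]; exact hΛlog) hy0 ha (by rw [hM, hN]; exact hW) hD hH c1 c2 c3
  refine hmain.trans ?_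
  rw [hN, hM]
  have hsq : Real.sqrt (max 1 (H ^ 2 / T ^ κ)) ≤ T ^ (35 * x) := by
    rw [Real.sqrt_le_left (hpos _).le, AS10_sq hTp]
    refine max_le (hone (by positivity)) ?_
    rw [div_le_iff₀ (hpos _), hadd]
    calc H ^ 2 ≤ (T ^ (1 / 4 + 33 * x)) ^ 2 := pow_le_pow_left₀ hH0 hH1 2
      _ = T ^ (2 * (1 / 4 + 33 * x)) := AS10_sq hTp _
      _ ≤ T ^ (2 * (35 * x) + κ) := hle (by linarith)
  have hMp : 0 < (T ^ (1 / 26 : ℝ)) ^ (19 / 20 : ℝ) := Real.rpow_pos_of_pos (hpos _) _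
  have hX : 0 ≤ (T ^ κ) ^ 2 * (T ^ (1 / 26 : ℝ)) ^ (19 / 20 : ℝ) / y ^ 2 := by positivity
  calc C2 * (T ^ (11 * x)) ^ k * Real.sqrt (max 1 (H ^ 2 / T ^ κ)) * H *
        (T ^ (1 / 26 : ℝ)) ^ (19 / 20 : ℝ)
      ≤ C2 * T ^ (11 * x * k) * T ^ (35 * x) * H * (T ^ (1 / 26 : ℝ)) ^ (19 / 20 : ℝ) := by
        rw [AS10_pow hTp]
        refine mul_le_mul_of_nonneg_right (mul_le_mul_of_nonneg_right
          (mul_le_mul_of_nonneg_left hsq ?_) hH0) hMp.le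
        have h1 := hpos (11 * x * k)
        positivity
    _ = (C2 * T ^ (11 * x * k + 35 * x + 22 * x)) *
        ((T ^ κ) ^ 2 * (T ^ (1 / 26 : ℝ)) ^ (19 / 20 : ℝ) / y ^ 2) := by
        rw [hH', ← hadd, ← hadd]
        ring
    _ ≤ T ^ (11 * (x * k) + 58 * x) *
        ((T ^ κ) ^ 2 * (T ^ (1 / 26 : ℝ)) ^ (19 / 20 : ℝ) / y ^ 2) := by
        refine mul_le_mul_of_nonneg_right ?_ hX
        refine AS10_mul hT1 (by linarith : C2 ≤ T ^ x) ?_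
        have h1 : 11 * x * k = 11 * (x * k) := by ring
        rw [h1]
        linarith
    _ = _ := by ring

theorem as10 (C0 C2 C1 : ℝ) (k : ℕ) (hKP : KP C0) (hMP : MP C0 C2 k) (hC1 : 1 ≤ C1) (x : ℝ) (hx : 0 < x)
    (hx1 : x ≤ 1 / (1040 * (11 * k + 60))) :
    ∃ T0 : ℝ, 3 ≤ T0 ∧ ∀ T : ℝ, T0 ≤ T → ∀ (K : ℝ) (c : ℕ → ℝ → ℂ), CC C1 T K c →
      T ^ (1 / 2 - 4 * x) ≤ K → K ≤ T ^ (1 / 2 + 5 * x) → ∀ Y : ℝ, (T * K) ^ (1 / 4 : ℝ) * T ^ (-x) ≤ Y →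
      TT K c T Y ≤ T * K * T ^ (-(1 / 1040) : ℝ) := by
  obtain ⟨hC0, hker⟩ := hKP
  have hC2 : 1 ≤ C2 := hMP.1
  have hxk : 11 * (x * k) + 60 * x ≤ 1 / 1040 := by
    have h0 : (0 : ℝ) < 1040 * (11 * k + 60) := by positivity
    have h1 := (le_div_iff₀ h0).1 hx1
    linarith
  have hxk0 : 0 ≤ x * k := mul_nonneg hx.le (Nat.cast_nonneg _)
  obtain ⟨T4, hT4, h4⟩ := as4 C1 (11 * x) (by linarith) (by linarith)
  obtain ⟨T5, hT5, h5⟩ := as4b (2000 + 8 * C0 + C2) x 1 (by linarith) hx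
  refine ⟨max T4 T5, hT4.trans (le_max_left _ _), fun T hT K c hc hK1 hK2 Y hY => ?_⟩
  have hT3 : 3 ≤ T := hT4.trans ((le_max_left _ _).trans hT)
  have hTp : 0 < T := by linarith
  have hT1 : 1 ≤ T := by linarith
  have hdiv := h4 T ((le_max_left _ _).trans hT)
  have hbig := h5 T ((le_max_right _ _).trans hT)
  rw [pow_one] at hbig
  have hl1 : 1 ≤ Real.log T := by
    rw [Real.le_log_iff_exp_le hTp]
    have := Real.exp_one_lt_d9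
    linarith
  have hpos : ∀ a : ℝ, 0 < T ^ a := fun a => Real.rpow_pos_of_pos hTp a
  have hle : ∀ {a b : ℝ}, a ≤ b → T ^ a ≤ T ^ b := fun h => Real.rpow_le_rpow_of_exponent_le hT1 h
  have hadd : ∀ a b : ℝ, T ^ a * T ^ b = T ^ (a + b) := fun a b => (Real.rpow_add hTp a b).symm
  have hone : ∀ {a : ℝ}, 0 ≤ a → 1 ≤ T ^ a := fun h => Real.one_le_rpow hT1 h
  have hC : 2000 + 8 * C0 + C2 ≤ T ^ x := by
    refine le_trans ?_ hbig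
    have h0 : 0 ≤ 2000 + 8 * C0 + C2 := by linarith
    calc 2000 + 8 * C0 + C2 = (2000 + 8 * C0 + C2) * 1 := (mul_one _).symm
      _ ≤ (2000 + 8 * C0 + C2) * Real.log T := mul_le_mul_of_nonneg_left hl1 h0
  have hKp : 0 < K := lt_of_lt_of_le (hpos _) hK1
  obtain ⟨κ, rfl⟩ : ∃ κ : ℝ, K = T ^ κ :=
    ⟨Real.logb T K, (Real.rpow_logb hTp (by linarith) hKp).symm⟩
  have hκ1 : 1 / 2 - 4 * x ≤ κ := (Real.rpow_le_rpow_left_iff (by linarith)).1 hK1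
  have hκ2 : κ ≤ 1 / 2 + 5 * x := (Real.rpow_le_rpow_left_iff (by linarith)).1 hK2
  have hY' : T ^ ((1 + κ) / 4 - x) ≤ Y := by
    refine le_trans (le_of_eq ?_) hY
    have h1 : T * T ^ κ = T ^ (1 + κ) := by
      rw [Real.rpow_add hTp, Real.rpow_one]
    rw [h1, ← Real.rpow_mul hTp.le, hadd]
    congr 1
    ring
  have hY1 : 1 ≤ Y := le_trans (hone (by linarith)) hY'
  have hKT : T ^ κ ≤ T / 1000 := by
    rw [le_div_iff₀ (by norm_num)]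
    have h1 : T = T ^ (1 : ℝ) := (Real.rpow_one T).symm
    calc T ^ κ * 1000 = 1000 * T ^ κ := mul_comm _ _
      _ ≤ T ^ (1 : ℝ) := AS10_mul hT1 (by linarith : (1000 : ℝ) ≤ T ^ x) (by linarith)
      _ = T := Real.rpow_one T
  have hKle : ∀ n : ℕ, (n : ℝ) ≤ T ^ κ → (n : ℝ) ≤ T := fun n hn => by linarith
  have hΛ : ∀ n : ℕ, (n : ℝ) ≤ T ^ κ → C1 * n.divisors.card ≤ T ^ (11 * x) :=
    fun n hn => hdiv n (hKle n hn)
  have hgoal0 : 0 ≤ T * T ^ κ * T ^ (-(1 / 1040) : ℝ) :=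
    mul_nonneg (mul_nonneg hTp.le (hpos _).le) (hpos _).le
  by_cases hYX : Y ≤ 2 * (T ^ (11 * x) * T ^ κ)
  swap
  · push Not at hYX
    have h1 := (as5c C1 T (T ^ κ) (T ^ (11 * x)) c hc (hpos _).le hΛ).1
    have h2 : TT (T ^ κ) c T Y = 0 := by
      unfold TT
      have h3 : ∫ t in T..(2 * T), (if Y ≤ ‖SS (T ^ κ) c t‖ then ‖SS (T ^ κ) c t‖ ^ 2 else 0) =
          ∫ t in T..(2 * T), (0 : ℝ) := by
        refine intervalIntegral.integral_congr fun t ht => ?_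
        rw [Set.uIcc_of_le (by linarith)] at ht
        have h4 := h1 t ht
        have h5 : 0 < T ^ (11 * x) * T ^ κ := mul_pos (hpos _) (hpos _)
        exact if_neg (by linarith)
      rw [h3, intervalIntegral.integral_zero]
    rw [h2]
    exact hgoal0
  have hE : T ^ (11 * x) * (T ^ (1 / 26 : ℝ) * (T ^ κ) ^ (3 / 2 : ℝ) / T ^ (1 / 2 : ℝ) +
      (T ^ (1 / 26 : ℝ)) ^ 2 * (T ^ κ) ^ (7 / 2 : ℝ) / T ^ (3 / 2 : ℝ)) ≤ Y / 2 := by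
    have e1 : T ^ (11 * x) * (T ^ (1 / 26 : ℝ) * (T ^ κ) ^ (3 / 2 : ℝ) / T ^ (1 / 2 : ℝ)) =
        T ^ (11 * x + (1 / 26 + κ * (3 / 2) + -(1 / 2))) := by
      rw [← Real.rpow_mul hTp.le, div_eq_mul_inv, ← Real.rpow_neg hTp.le, hadd, hadd, hadd]
    have e2 : T ^ (11 * x) * ((T ^ (1 / 26 : ℝ)) ^ 2 * (T ^ κ) ^ (7 / 2 : ℝ) / T ^ (3 / 2 : ℝ)) =
        T ^ (11 * x + (2 * (1 / 26) + κ * (7 / 2) + -(3 / 2))) := by
      rw [AS10_sq hTp, ← Real.rpow_mul hTp.le, div_eq_mul_inv, ← Real.rpow_neg hTp.le, hadd, hadd,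
        hadd]
    have k1 : 4 * T ^ (11 * x + (1 / 26 + κ * (3 / 2) + -(1 / 2))) ≤ T ^ ((1 + κ) / 4 - x) :=
      AS10_mul hT1 (by linarith : (4 : ℝ) ≤ T ^ x) (by linarith)
    have k2 : 4 * T ^ (11 * x + (2 * (1 / 26) + κ * (7 / 2) + -(3 / 2))) ≤
        T ^ ((1 + κ) / 4 - x) :=
      AS10_mul hT1 (by linarith : (4 : ℝ) ≤ T ^ x) (by linarith)
    rw [mul_add, e1, e2]
    linarith
  have hκM : T ^ (1 / 26 : ℝ) * (T ^ κ) ^ (1 / 2 : ℝ) ≤ 12 * T ^ (1 / 2 : ℝ) := by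
    rw [← Real.rpow_mul hTp.le, hadd]
    have h1 : T ^ (1 / 26 + κ * (1 / 2)) ≤ T ^ (1 / 2 : ℝ) := hle (by linarith)
    have h2 := hpos (1 / 2 : ℝ)
    linarith
  have hK2' : 2 ≤ T ^ κ := by
    have h1 : T ^ x ≤ T ^ κ := hle (by linarith)
    linarith
  have hB0 : 0 ≤ T ^ (11 * (x * k) + 58 * x) * (T ^ κ) ^ 2 *
      (T ^ (1 / 26 : ℝ)) ^ (19 / 20 : ℝ) := by
    have h1 := hpos (11 * (x * k) + 58 * x)
    have h2 : 0 < (T ^ (1 / 26 : ℝ)) ^ (19 / 20 : ℝ) := Real.rpow_pos_of_pos (hpos _) _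
    positivity
  have h8 := as8 C0 C1 T (T ^ κ) (T ^ (1 / 26 : ℝ)) (T ^ (11 * x)) Y
    (T ^ (11 * (x * k) + 58 * x) * (T ^ κ) ^ 2 * (T ^ (1 / 26 : ℝ)) ^ (19 / 20 : ℝ)) c
    ⟨hC0, hker⟩ hc hΛ (hone (by positivity))
    (by
      have h1 : T ^ x ≤ T ^ (1 : ℝ) := hle (by linarith)
      rw [Real.rpow_one] at h1
      linarith) hK2' hKT (hone (by norm_num)) (hle (by linarith)) (by linarith) hB0 hYX hE hκM
    (AS10_LV C0 C2 k hC0 hMP x hx hxk T κ Y hT3 hl1 hbig hκ1 hκ2 hY')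
  refine h8.trans ?_
  -- the logarithm
  have hlog : Real.log (2 * (T ^ (11 * x) * T ^ κ) / Y) ≤ 2 * Real.log T := by
    have h1 : 2 * (T ^ (11 * x) * T ^ κ) / Y ≤ T ^ (2 : ℝ) := by
      rw [div_le_iff₀ (by linarith), hadd]
      have h2 : 2 * T ^ (11 * x + κ) ≤ T ^ (2 : ℝ) :=
        AS10_mul hT1 (by linarith : (2 : ℝ) ≤ T ^ x) (by linarith)
      have h3 : T ^ (2 : ℝ) * 1 ≤ T ^ (2 : ℝ) * Y := mul_le_mul_of_nonneg_left hY1 (hpos _).le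
      linarith
    have h2 : 0 < 2 * (T ^ (11 * x) * T ^ κ) / Y := by
      have h3 := mul_pos (hpos (11 * x)) (hpos κ)
      positivity
    have h3 := Real.log_le_log h2 h1
    rw [Real.log_rpow hTp] at h3
    exact h3
  have hMM : (T ^ (1 / 26 : ℝ)) ^ (19 / 20 : ℝ) = T ^ (19 / 520 : ℝ) := by
    rw [← Real.rpow_mul hTp.le]
    norm_num
  have hD0 : 0 < T ^ (1 / 26 : ℝ) * T ^ κ := mul_pos (hpos _) (hpos _)
  have e3 : 96 * T / (T ^ (1 / 26 : ℝ) * T ^ κ) * (T ^ (11 * (x * k) + 58 * x) * (T ^ κ) ^ 2 *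
      (T ^ (1 / 26 : ℝ)) ^ (19 / 20 : ℝ)) =
      96 * T * T ^ κ * T ^ (11 * (x * k) + 58 * x + (19 / 520 + -(1 / 26))) := by
    have h1 := (hpos (1 / 26 : ℝ)).ne'
    have h2 := (hpos κ).ne'
    have e5 : T ^ (11 * (x * k) + 58 * x + (19 / 520 + -(1 / 26))) =
        T ^ (11 * (x * k) + 58 * x) * (T ^ (19 / 520 : ℝ) * (T ^ (1 / 26 : ℝ))⁻¹) := by
      rw [← Real.rpow_neg hTp.le, hadd, hadd]
    rw [hMM, e5]
    field_simp
  rw [e3]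
  have hL : 4 + 6 * Real.log (2 * (T ^ (11 * x) * T ^ κ) / Y) ≤ 16 * Real.log T := by linarith
  have h9 : 1536 * Real.log T ≤ T ^ x := by
    refine le_trans ?_ hbig
    exact mul_le_mul_of_nonneg_right (by linarith) (by linarith)
  have hQ : 0 ≤ 96 * T * T ^ κ * T ^ (11 * (x * k) + 58 * x + (19 / 520 + -(1 / 26))) := by
    have h1 := hpos κ
    have h2 := hpos (11 * (x * k) + 58 * x + (19 / 520 + -(1 / 26)))
    positivity
  calc 96 * T * T ^ κ * T ^ (11 * (x * k) + 58 * x + (19 / 520 + -(1 / 26))) *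
        (4 + 6 * Real.log (2 * (T ^ (11 * x) * T ^ κ) / Y))
      ≤ 96 * T * T ^ κ * T ^ (11 * (x * k) + 58 * x + (19 / 520 + -(1 / 26))) *
        (16 * Real.log T) := mul_le_mul_of_nonneg_left hL hQ
    _ = T * T ^ κ * ((1536 * Real.log T) *
        T ^ (11 * (x * k) + 58 * x + (19 / 520 + -(1 / 26)))) := by ring
    _ ≤ T * T ^ κ * T ^ (-(1 / 1040) : ℝ) := by
        refine mul_le_mul_of_nonneg_left ?_ (mul_nonneg hTp.le (hpos _).le)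
        exact AS10_mul hT1 h9 (by linarith)

end Pool.Agent.LibSX15
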