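import Pool.Agent.LibSX15.AS4
import Pool.Agent.LibSX15.AS5

/-! ROW AS11 (uses AS4, AS5). Very small `K`: there are no large values.  `as5c` with `Λ = T^(e/100)` (as4): `‖SS‖ ≤ T^(e/100) K` and, with
`K ≤ T^(1/3 - e)`: `T^(e/100) K < (T K)^(1/4) T^(-e/2)` because `K^(3/4) ≤ T^(1/4 - 3e/4)`. So the integrand of `TT` is 0 on `[T, 2T]`. -/

set_option autoImplicit false

namespace Pool.Agent.LibSX15

open Finset

theorem as11_key {T K e : ℝ} (hT : 1 < T) (hK : 0 < K) (he : 0 < e) (h : K ≤ T ^ (1 / 3 - e)) :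
    T ^ (e / 100) * K < (T * K) ^ (1 / 4 : ℝ) * T ^ (-(e / 2)) := by
  have hT0 : 0 < T := by linarith
  have h1 : K ^ (3 / 4 : ℝ) ≤ T ^ ((1 / 3 - e) * (3 / 4)) := by
    rw [Real.rpow_mul hT0.le]
    exact Real.rpow_le_rpow hK.le h (by norm_num)
  have h2 : K = K ^ (1 / 4 : ℝ) * K ^ (3 / 4 : ℝ) := by
    rw [← Real.rpow_add hK]
    norm_num
  have h3 : T ^ (e / 100) * K ^ (3 / 4 : ℝ) < T ^ (1 / 4 : ℝ) * T ^ (-(e / 2)) := by
    refine lt_of_le_of_lt (mul_le_mul_of_nonneg_left h1 (by positivity)) ?_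
    rw [← Real.rpow_add hT0, ← Real.rpow_add hT0]
    refine Real.rpow_lt_rpow_of_exponent_lt hT ?_
    linarith
  have h4 : 0 < K ^ (1 / 4 : ℝ) := Real.rpow_pos_of_pos hK _
  rw [Real.mul_rpow hT0.le hK.le]
  calc T ^ (e / 100) * K = K ^ (1 / 4 : ℝ) * (T ^ (e / 100) * K ^ (3 / 4 : ℝ)) := by
        nth_rewrite 1 [h2]
        ring
    _ < K ^ (1 / 4 : ℝ) * (T ^ (1 / 4 : ℝ) * T ^ (-(e / 2))) := mul_lt_mul_of_pos_left h3 h4
    _ = T ^ (1 / 4 : ℝ) * K ^ (1 / 4 : ℝ) * T ^ (-(e / 2)) := by ring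

theorem as11 (C1 e : ℝ) (hC1 : 1 ≤ C1) (he : 0 < e) (he1 : e ≤ 1 / 10) :
    ∃ T0 : ℝ, 3 ≤ T0 ∧ ∀ T : ℝ, T0 ≤ T → ∀ (K : ℝ) (c : ℕ → ℝ → ℂ), CC C1 T K c → 0 < K →
      K ≤ T ^ (1 / 3 - e) → ∀ Y : ℝ, (T * K) ^ (1 / 4 : ℝ) * T ^ (-(e / 2)) ≤ Y →
      TT K c T Y = 0 := by
  obtain ⟨T0, h3, h4⟩ := as4 C1 (e / 100) (by linarith) (by positivity)
  refine ⟨T0, h3, fun T hT K c hc hK hKT Y hY => ?_⟩
  have hT3 : 3 ≤ T := h3.trans hT
  have hT1 : 1 < T := by linarith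
  have hKleT : K ≤ T := by
    refine hKT.trans ?_
    have h5 := Real.rpow_le_rpow_of_exponent_le hT1.le (by linarith : 1 / 3 - e ≤ 1)
    rwa [Real.rpow_one] at h5
  have hb := (as5c C1 T K (T ^ (e / 100)) c hc hK.le
    (fun n hn => h4 T hT n (hn.trans hKleT))).1
  have hkey := (as11_key hT1 hK he hKT).trans_le hY
  unfold TT
  have h6 : ∀ t ∈ Set.uIcc T (2 * T),
      (if Y ≤ ‖SS K c t‖ then ‖SS K c t‖ ^ 2 else 0) = 0 := by
    intro t ht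
    rw [Set.uIcc_of_le (by linarith)] at ht
    rw [if_neg (not_le.2 ((hb t ht).trans_lt hkey))]
  rw [intervalIntegral.integral_congr h6]
  simp

end Pool.Agent.LibSX15
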