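import Pool.Agent.LibSX15.AS0

/-! ROW AS12 (only Mathlib; two elementary facts).
as12a: for every `r ∈ RS T V` (so `T ≤ r ≤ 2T`) the set `{t ∈ [T,2T] : |r - t| ≤ G/2}` contains an interval of length `≥ G/2`
(as `G/2 ≤ T`: `[r, r + G/2]` if `r ≤ 3T/2`, else `[r - G/2, r]`). Sum over `r`, exchange the finite sum and the integral.
as12b: `p i ≥ 0`, `1 ≤ n ≤ Σ p i`. Then `(Σ p i)² ≤ (#ι)² max p²` and `max p ≥ 1/#ι`, so
`n ≤ Σ p ≤ (Σ p)² ≤ (#ι)² Σ_i p i ^ 2 1_{p i ≥ 1/#ι}`. -/

set_option autoImplicit false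

namespace Pool.Agent.LibSX15

open Finset

private noncomputable def as12_ind (G : ℝ) (r : ℤ) (t : ℝ) : ℝ :=
  (Set.Icc ((r : ℝ) - G / 2) (r + G / 2)).indicator (fun _ => (1 : ℝ)) t

private theorem as12_ind_eq (G : ℝ) (r : ℤ) (t : ℝ) :
    as12_ind G r t = if |(r : ℝ) - t| ≤ G / 2 then 1 else 0 := by
  unfold as12_ind
  by_cases h : |(r : ℝ) - t| ≤ G / 2
  · rw [if_pos h, Set.indicator_of_mem]
    rw [abs_le] at h
    constructor <;> linarith [h.1, h.2]
  · rw [if_neg h, Set.indicator_of_notMem]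
    intro h1
    apply h
    rw [abs_le]
    constructor <;> linarith [h1.1, h1.2]

private theorem as12_one (G : ℝ) (r : ℤ) (t : ℝ) (h : |(r : ℝ) - t| ≤ G / 2) :
    as12_ind G r t = 1 := by
  rw [as12_ind_eq, if_pos h]

private theorem as12_nonneg (G : ℝ) (r : ℤ) (t : ℝ) : 0 ≤ as12_ind G r t := by
  rw [as12_ind_eq]
  split_ifs <;> norm_num

private theorem as12_int (G : ℝ) (r : ℤ) (a b : ℝ) :
    IntervalIntegrable (as12_ind G r) MeasureTheory.volume a b := by
  have h : MeasureTheory.Integrable (as12_ind G r) MeasureTheory.volume := by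
    unfold as12_ind
    refine (MeasureTheory.integrable_indicator_iff measurableSet_Icc).2 ?_
    exact MeasureTheory.integrableOn_const (by simp)
  exact h.intervalIntegrable

theorem as12a (T V G : ℝ) (hG : 0 < G) (hGT : G ≤ T) :
    G / 2 * ((RS T V).card : ℝ) ≤
      ∫ t in T..(2 * T), (((RS T V).filter fun r : ℤ => |(r : ℝ) - t| ≤ G / 2).card : ℝ) := by
  classical
  have hT : 0 < T := hG.trans_le hGT
  have hcard : ∀ t : ℝ, (((RS T V).filter fun r : ℤ => |(r : ℝ) - t| ≤ G / 2).card : ℝ) =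
      ∑ r ∈ RS T V, as12_ind G r t := by
    intro t
    rw [Finset.card_filter, Nat.cast_sum]
    refine Finset.sum_congr rfl fun r _ => ?_
    rw [as12_ind_eq]
    split_ifs <;> simp
  simp only [hcard]
  rw [intervalIntegral.integral_finsetSum fun r _ => as12_int G r T (2 * T)]
  have hr : ∀ r ∈ RS T V, G / 2 ≤ ∫ t in T..(2 * T), as12_ind G r t := by
    intro r hr
    unfold RS at hr
    have hr' := Finset.mem_Icc.1 (Finset.mem_filter.1 hr).1
    have h1 : T ≤ r := Int.ceil_le.1 hr'.1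
    have h2 : (r : ℝ) ≤ 2 * T := Int.le_floor.1 hr'.2
    rcases le_total (r : ℝ) (3 * T / 2) with h3 | h3
    · have h4 : ∫ t in (r : ℝ)..(r + G / 2), as12_ind G r t = G / 2 := by
        rw [intervalIntegral.integral_congr (g := fun _ => (1 : ℝ))]
        · rw [intervalIntegral.integral_const, smul_eq_mul, mul_one]
          ring
        · intro t ht
          rw [Set.uIcc_of_le (by linarith)] at ht
          refine as12_one G r t ?_
          rw [abs_le]
          constructor <;> linarith [ht.1, ht.2]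
      rw [← h4]
      exact intervalIntegral.integral_mono_interval h1 (by linarith) (by linarith)
        (Filter.Eventually.of_forall fun t => as12_nonneg G r t) (as12_int G r T (2 * T))
    · have h4 : ∫ t in (r - G / 2 : ℝ)..r, as12_ind G r t = G / 2 := by
        rw [intervalIntegral.integral_congr (g := fun _ => (1 : ℝ))]
        · rw [intervalIntegral.integral_const, smul_eq_mul, mul_one]
          ring
        · intro t ht
          rw [Set.uIcc_of_le (by linarith)] at ht
          refine as12_one G r t ?_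
          rw [abs_le]
          constructor <;> linarith [ht.1, ht.2]
      rw [← h4]
      exact intervalIntegral.integral_mono_interval (by linarith) (by linarith) h2
        (Filter.Eventually.of_forall fun t => as12_nonneg G r t) (as12_int G r T (2 * T))
  calc G / 2 * ((RS T V).card : ℝ) = ∑ r ∈ RS T V, G / 2 := by
        rw [Finset.sum_const, nsmul_eq_mul]
        ring
    _ ≤ _ := Finset.sum_le_sum hr

open scoped Classical in
theorem as12b (s : Finset ℕ) (p : ℕ → ℝ) (n : ℝ) (hp : ∀ i ∈ s, 0 ≤ p i) (h1 : 1 ≤ n) (hn : n ≤ ∑ i ∈ s, p i) :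
    n ≤ (s.card : ℝ) ^ 2 * ∑ i ∈ s, (if 1 / (s.card : ℝ) ≤ p i then p i ^ 2 else 0) := by
  have hs : s.Nonempty := by
    rcases s.eq_empty_or_nonempty with h | h
    · rw [h, Finset.sum_empty] at hn
      linarith
    · exact h
  obtain ⟨i, hi, hmax⟩ := Finset.exists_max_image s p hs
  have hc : (0 : ℝ) < s.card := by exact_mod_cast hs.card_pos
  have hsum : ∑ j ∈ s, p j ≤ s.card * p i := by
    have := Finset.sum_le_card_nsmul s p (p i) hmax
    rwa [nsmul_eq_mul] at this
  have h2 : 1 / (s.card : ℝ) ≤ p i := by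
    rw [div_le_iff₀ hc]
    linarith [mul_comm (s.card : ℝ) (p i)]
  have h3 : p i ^ 2 ≤ ∑ j ∈ s, (if 1 / (s.card : ℝ) ≤ p j then p j ^ 2 else 0) := by
    have h4 : (if 1 / (s.card : ℝ) ≤ p i then p i ^ 2 else 0) = p i ^ 2 := if_pos h2
    rw [← h4]
    refine Finset.single_le_sum (f := fun j => if 1 / (s.card : ℝ) ≤ p j then p j ^ 2 else 0)
      (fun j _ => ?_) hi
    show 0 ≤ (if 1 / (s.card : ℝ) ≤ p j then p j ^ 2 else 0)
    split_ifs
    · exact sq_nonneg _
    · exact le_rfl
  have h5 : 1 ≤ (s.card : ℝ) * p i := by linarith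
  calc n ≤ (s.card : ℝ) * p i := hn.trans hsum
    _ ≤ ((s.card : ℝ) * p i) ^ 2 := by nlinarith
    _ = (s.card : ℝ) ^ 2 * p i ^ 2 := by ring
    _ ≤ _ := mul_le_mul_of_nonneg_left h3 (sq_nonneg _)

end Pool.Agent.LibSX15
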