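import Pool.Agent.LibSX15.AS9
import Pool.Agent.LibSX15.AS10
import Pool.Agent.LibSX15.AS11
import Pool.Agent.LibSX15.AS13

/-! ROW AS14 (uses AS4 (as4b), AS9, AS10, AS11, AS13 as stated): the bound for the number of large values.
Let `C1` from `as13` (`CC C1`), `k` from `MP`; `x = 1/(29120 (11 k + 60))` (so `x ≤ 1/(1040 (11k+60))` and `14 x ≤ 1/2080`),
`e = (12 - A) x/4` (`0 < e ≤ 2x`), `δ = (12 - A) x/4`.  `V ∈ [T^(1/8 - x), T^(9/50)]`, `L = log T`, as13 gives `ι, K, c`, `K i ≤ C1 L⁶ T/V⁴`.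
Claim: `V^(A-2) (T K i)^(-1/2) TT_i ≤ T^(1 + (A-4)/8 - 2 δ)` for every `i` (then `V^A #RS ≤ C1 L⁷ (C1 L²) T^(...- 2δ) ≤ T^(... - δ)`).
Threshold: `(T K i)^(1/4)/(C1 L²) ≥ (T K i)^(1/4) T^(-η)` for every `η > 0`, `T` large.  `K = K i`:
(0) `K ≤ T^(1/3 - e/20)`: as11 with `e/20` in place of `e`: `TT = 0`.
(c) `T^(1/3 - e/20) ≤ K ≤ T^(1/2 - 4x)` (`≤ T^(1/2 - e)`): as9: `V^(A-2) (TK)^(-1/2) TT ≤ V^(A-2) T^(e - 1/2) K^(5/2)`.
   If `V ≥ T^(1/8 + x)`: `K ≤ C1 L⁶ T V^(-4)`: `≤ (C1 L⁶)^(5/2) V^(A-12) T^(e + 2) ≤ T^(2 - (12-A)/8 - (12 - A)x + e + small)`;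
   if `V ≤ T^(1/8 + x)`: `≤ T^((A-2)(1/8 + x) + e - 1/2 + 5/4 - 10x)`; both are `T^(1 + (A-4)/8 - (12-A)x + e + small)`.
(b) `K > T^(1/2 - 4x)`: `V⁴ ≤ C1 L⁶ T/K ≤ C1 L⁶ T^(1/2 + 4x)`, so `V ≤ T^(1/8 + 1.1x)`, and `K ≤ C1 L⁶ T^(1/2 + 4x) ≤ T^(1/2 + 5x)` (from
   `V ≥ T^(1/8 - x)`): as10: `V^(A-2) (TK)^(1/2) T^(-1/1040) ≤ T^((A-2)/8 + 11x + 3/4 + 5x/2 - 1/1040)`, `(A-2)/8 + 3/4 = 1 + (A-4)/8`,
   `13.5 x - 1/1040 ≤ -2 δ` (`δ ≤ 2x`).
as14b: `V = T^(9/50)`: `K i ≤ C1 L⁶ T^(7/25) ≤ T^(1/3 - 1/1000)`, so all the `TT` are 0 by as11 (`e = 1/1000`) and `#RS ≤ 0`. -/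

set_option autoImplicit false

namespace Pool.Agent.LibSX15

open Finset

theorem as14_thr {T Q P η : ℝ} (hT : 0 < T) (hQ : 0 ≤ Q) (hP : 0 < P) (h : P ≤ T ^ η) :
    Q * T ^ (-η) ≤ Q / P := by
  rw [Real.rpow_neg hT.le, div_eq_mul_inv]
  exact mul_le_mul_of_nonneg_left (inv_anti₀ hP h) hQ

theorem as14_claim (C0 C2 C3 C1 : ℝ) (k : ℕ) (hKP : KP C0) (hHP : HP C0 C2) (hMP : MP C0 C3 k)
    (hC1 : 1 ≤ C1) (A x e : ℝ) (hA : 4 < A) (hA2 : A < 12) (hx : 0 < x)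
    (hx1 : x ≤ 1 / (1040 * (11 * k + 60))) (hx2 : 20 * x ≤ 1 / 1040) (he : e = (12 - A) * x / 4) :
    ∃ T0 : ℝ, 3 ≤ T0 ∧ ∀ T : ℝ, T0 ≤ T → ∀ V : ℝ, T ^ (1 / 8 - x) ≤ V →
      ∀ (K : ℝ) (c : ℕ → ℝ → ℂ), CC C1 T K c → 0 < K → K ≤ C1 * (Real.log T) ^ 6 * T / V ^ 4 →
      V ^ (A - 2) * ((T * K) ^ (-1 / 2 : ℝ) *
        TT K c T ((T * K) ^ (1 / 4 : ℝ) / (C1 * (Real.log T) ^ 2))) ≤
        T ^ (1 + (A - 4) / 8 - 2 * e) := by
  have he4 : (12 - A) * x = 4 * e := by rw [he]; ring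
  have he0 : 0 < e := by
    have : 0 < (12 - A) * x := mul_pos (by linarith) hx
    linarith
  have he2 : e < 2 * x := by nlinarith
  have he1 : e ≤ 1 / 10 := by linarith
  obtain ⟨Ta, hTa, ha⟩ := as11 C1 (e / 20) hC1 (by positivity) (by linarith)
  obtain ⟨Tb, hTb, hb⟩ := as9 C0 C2 C1 e hKP hHP hC1 he0 he1
  obtain ⟨Tc, hTc, hc⟩ := as10 C0 C3 C1 k hKP hMP hC1 x hx hx1
  obtain ⟨Td, hTd, hd⟩ := as4b C1 (e / 100) 2 (by linarith) (by positivity)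
  obtain ⟨Te, hTe, hE⟩ := as4b C1 (2 * e / 5) 6 (by linarith) (by positivity)
  refine ⟨max Ta (max Tb (max Tc (max Td Te))), hTa.trans (le_max_left _ _),
    fun T hT V hV K c hcc hK hK2 => ?_⟩
  simp only [max_le_iff] at hT
  obtain ⟨hT1, hT2, hT3, hT4, hT5⟩ := hT
  have hT0 : 0 < T := by linarith
  have hT' : 1 ≤ T := by linarith
  have hlog : 0 < Real.log T := Real.log_pos (by linarith)
  have hC0' : 0 < C1 := by linarith
  have hP2 : 0 < C1 * Real.log T ^ 2 := by positivity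
  have hd' := hd T hT4
  have hE' := hE T hT5
  have hV0 : 0 < V := lt_of_lt_of_le (Real.rpow_pos_of_pos hT0 _) hV
  have hTK : 0 < T * K := mul_pos hT0 hK
  have hq : 0 ≤ (T * K) ^ (1 / 4 : ℝ) := (Real.rpow_pos_of_pos hTK _).le
  have thr : ∀ η : ℝ, e / 100 ≤ η → (T * K) ^ (1 / 4 : ℝ) * T ^ (-η) ≤
      (T * K) ^ (1 / 4 : ℝ) / (C1 * Real.log T ^ 2) := fun η hη =>
    as14_thr hT0 hq hP2 (hd'.trans (Real.rpow_le_rpow_of_exponent_le hT' hη))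
  have hKT : K * V ^ 4 ≤ T ^ (1 + 2 * e / 5) := by
    rw [le_div_iff₀ (by positivity)] at hK2
    refine hK2.trans ?_
    rw [Real.rpow_add hT0, Real.rpow_one, mul_comm T]
    exact mul_le_mul_of_nonneg_right hE' hT0.le
  rcases le_or_gt K (T ^ (1 / 3 - e / 20)) with h0 | h0
  · rw [ha T hT1 K c hcc hK h0 _ (thr _ (by linarith)), mul_zero, mul_zero]
    positivity
  rcases le_or_gt K (T ^ (1 / 2 - 4 * x)) with h3 | h3
  · have hTT := hb T hT2 K c hcc h0.le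
      (h3.trans (Real.rpow_le_rpow_of_exponent_le hT' (by linarith))) _ (thr _ le_rfl)
    have hstep : V ^ (A - 2) * ((T * K) ^ (-1 / 2 : ℝ) *
        TT K c T ((T * K) ^ (1 / 4 : ℝ) / (C1 * (Real.log T) ^ 2))) ≤
        V ^ (A - 2) * (T ^ (e - 1 / 2) * K ^ (5 / 2 : ℝ)) := by
      refine mul_le_mul_of_nonneg_left ?_ (by positivity)
      refine (mul_le_mul_of_nonneg_left hTT (by positivity)).trans (le_of_eq ?_)
      rw [Real.mul_rpow hT0.le hK.le]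
      have e1 : T ^ (e - 1 / 2) = T ^ (-1 / 2 : ℝ) * T ^ e := by
        rw [← Real.rpow_add hT0]
        congr 1
        ring
      have e2 : K ^ (5 / 2 : ℝ) = K ^ (-1 / 2 : ℝ) * K ^ 3 := by
        rw [← Real.rpow_natCast K 3, ← Real.rpow_add hK]
        congr 1
        norm_num
      rw [e1, e2]
      ring
    refine hstep.trans ?_
    rcases le_or_gt (T ^ (1 / 8 + x)) V with h4 | h4
    · have hK5 : K ^ (5 / 2 : ℝ) ≤ T ^ (5 / 2 + e) * V ^ (-10 : ℝ) := by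
        have h5 : K ≤ T ^ (1 + 2 * e / 5) * V ^ (-4 : ℝ) := by
          rw [Real.rpow_neg hV0.le, ← div_eq_mul_inv, le_div_iff₀ (Real.rpow_pos_of_pos hV0 _)]
          have h6 : V ^ (4 : ℝ) = V ^ 4 := by exact_mod_cast Real.rpow_natCast V 4
          rw [h6]
          exact hKT
        refine (Real.rpow_le_rpow hK.le h5 (by norm_num : (0 : ℝ) ≤ 5 / 2)).trans (le_of_eq ?_)
        rw [Real.mul_rpow (by positivity) (by positivity), ← Real.rpow_mul hT0.le,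
          ← Real.rpow_mul hV0.le]
        have h7 : (1 + 2 * e / 5) * (5 / 2) = 5 / 2 + e := by ring
        have h8 : (-4 : ℝ) * (5 / 2) = -10 := by norm_num
        rw [h7, h8]
      have e3 : T ^ (2 + 2 * e) = T ^ (e - 1 / 2) * T ^ (5 / 2 + e) := by
        rw [← Real.rpow_add hT0]
        congr 1
        ring
      have e4 : V ^ (A - 12) = V ^ (A - 2) * V ^ (-10 : ℝ) := by
        rw [← Real.rpow_add hV0]
        congr 1
        ring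
      have e5 : V ^ (A - 12) ≤ (T ^ (1 / 8 + x)) ^ (A - 12) :=
        Real.rpow_le_rpow_of_nonpos (by positivity) h4 (by linarith)
      have e6 : T ^ (1 + (A - 4) / 8 - 2 * e) = T ^ (2 + 2 * e) * (T ^ (1 / 8 + x)) ^ (A - 12) := by
        rw [← Real.rpow_mul hT0.le, ← Real.rpow_add hT0]
        congr 1
        linarith
      rw [e6]
      calc V ^ (A - 2) * (T ^ (e - 1 / 2) * K ^ (5 / 2 : ℝ))
          ≤ V ^ (A - 2) * (T ^ (e - 1 / 2) * (T ^ (5 / 2 + e) * V ^ (-10 : ℝ))) := by gcongr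
        _ = T ^ (2 + 2 * e) * V ^ (A - 12) := by
          rw [e3, e4]
          ring
        _ ≤ T ^ (2 + 2 * e) * (T ^ (1 / 8 + x)) ^ (A - 12) :=
          mul_le_mul_of_nonneg_left e5 (by positivity)
    · have h5 : V ^ (A - 2) ≤ T ^ ((1 / 8 + x) * (A - 2)) := by
        rw [Real.rpow_mul hT0.le]
        exact Real.rpow_le_rpow hV0.le h4.le (by linarith)
      have h6 : K ^ (5 / 2 : ℝ) ≤ T ^ ((1 / 2 - 4 * x) * (5 / 2)) := by
        rw [Real.rpow_mul hT0.le]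
        exact Real.rpow_le_rpow hK.le h3 (by norm_num)
      calc V ^ (A - 2) * (T ^ (e - 1 / 2) * K ^ (5 / 2 : ℝ))
          ≤ T ^ ((1 / 8 + x) * (A - 2)) *
            (T ^ (e - 1 / 2) * T ^ ((1 / 2 - 4 * x) * (5 / 2))) := by gcongr
        _ = T ^ ((1 / 8 + x) * (A - 2) + ((e - 1 / 2) + (1 / 2 - 4 * x) * (5 / 2))) := by
          rw [Real.rpow_add hT0, Real.rpow_add hT0 (e - 1 / 2)]
        _ ≤ T ^ (1 + (A - 4) / 8 - 2 * e) :=
          Real.rpow_le_rpow_of_exponent_le hT' (by linarith)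
  · have hK3 : K ≤ T ^ (1 / 2 + 5 * x) := by
      have hV4 : T ^ (1 / 2 - 4 * x) ≤ V ^ 4 := by
        have h5 := pow_le_pow_left₀ (by positivity) hV 4
        refine le_trans (le_of_eq ?_) h5
        rw [← Real.rpow_natCast, ← Real.rpow_mul hT0.le]
        congr 1
        push_cast
        ring
      have h5 : K * T ^ (1 / 2 - 4 * x) ≤ T ^ (1 + 2 * e / 5) :=
        (mul_le_mul_of_nonneg_left hV4 hK.le).trans hKT
      have h6 : K ≤ T ^ (1 + 2 * e / 5) / T ^ (1 / 2 - 4 * x) := by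
        rwa [le_div_iff₀ (by positivity)]
      refine h6.trans ?_
      rw [← Real.rpow_sub hT0]
      exact Real.rpow_le_rpow_of_exponent_le hT' (by linarith)
    have hV5 : V ≤ T ^ (1 / 8 + x + e / 10) := by
      have h5 : V ^ 4 ≤ (T ^ (1 / 8 + x + e / 10)) ^ 4 := by
        have h6 : (T ^ (1 / 8 + x + e / 10)) ^ 4 = T ^ (1 + 2 * e / 5) / T ^ (1 / 2 - 4 * x) := by
          rw [← Real.rpow_natCast, ← Real.rpow_mul hT0.le, ← Real.rpow_sub hT0]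
          congr 1
          push_cast
          ring
        rw [h6, le_div_iff₀ (by positivity)]
        calc V ^ 4 * T ^ (1 / 2 - 4 * x) ≤ V ^ 4 * K := by gcongr
          _ = K * V ^ 4 := mul_comm _ _
          _ ≤ _ := hKT
      exact le_of_pow_le_pow_left₀ (by norm_num) (by positivity) h5
    have hTT := hc T hT3 K c hcc h3.le hK3 _ (thr x (by linarith))
    have h7 : (T * K) ^ (1 / 2 : ℝ) = (T * K) ^ (-1 / 2 : ℝ) * (T * K) := by
      have h8 : (T * K) ^ (1 / 2 : ℝ) = (T * K) ^ (-1 / 2 : ℝ) * (T * K) ^ (1 : ℝ) := by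
        rw [← Real.rpow_add hTK]
        norm_num
      rw [h8, Real.rpow_one]
    have h9 : V ^ (A - 2) ≤ T ^ ((1 / 8 + x + e / 10) * (A - 2)) := by
      rw [Real.rpow_mul hT0.le]
      exact Real.rpow_le_rpow hV0.le hV5 (by linarith)
    have h10 : (T * K) ^ (1 / 2 : ℝ) ≤ T ^ ((3 / 2 + 5 * x) * (1 / 2)) := by
      rw [Real.rpow_mul hT0.le]
      refine Real.rpow_le_rpow hTK.le ?_ (by norm_num)
      have h11 : T ^ (3 / 2 + 5 * x) = T * T ^ (1 / 2 + 5 * x) := by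
        have h12 : T ^ (3 / 2 + 5 * x) = T ^ (1 : ℝ) * T ^ (1 / 2 + 5 * x) := by
          rw [← Real.rpow_add hT0]
          congr 1
          ring
        rw [h12, Real.rpow_one]
      rw [h11]
      exact mul_le_mul_of_nonneg_left hK3 hT0.le
    have h13 : (x + e / 10) * (A - 2) ≤ 12 * x := by
      have h14 : x + e / 10 ≤ 12 / 10 * x := by linarith
      have h15 : 0 ≤ x + e / 10 := by linarith
      nlinarith
    calc V ^ (A - 2) * ((T * K) ^ (-1 / 2 : ℝ) *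
          TT K c T ((T * K) ^ (1 / 4 : ℝ) / (C1 * (Real.log T) ^ 2)))
        ≤ V ^ (A - 2) * ((T * K) ^ (-1 / 2 : ℝ) * (T * K * T ^ (-(1 / 1040) : ℝ))) := by gcongr
      _ = V ^ (A - 2) * ((T * K) ^ (1 / 2 : ℝ) * T ^ (-(1 / 1040) : ℝ)) := by
        rw [h7]
        ring
      _ ≤ T ^ ((1 / 8 + x + e / 10) * (A - 2)) *
          (T ^ ((3 / 2 + 5 * x) * (1 / 2)) * T ^ (-(1 / 1040) : ℝ)) := by gcongr
      _ = T ^ ((1 / 8 + x + e / 10) * (A - 2) + ((3 / 2 + 5 * x) * (1 / 2) + (-(1 / 1040) : ℝ))) := by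
        rw [Real.rpow_add hT0, Real.rpow_add hT0 ((3 / 2 + 5 * x) * (1 / 2))]
      _ ≤ T ^ (1 + (A - 4) / 8 - 2 * e) :=
        Real.rpow_le_rpow_of_exponent_le hT' (by linarith)

theorem as14 (C0 C2 C3 C4 T4 : ℝ) (k : ℕ) (hKP : KP C0) (hHP : HP C0 C2) (hMP : MP C0 C3 k) (hZP : ZP C4 T4)
    (A : ℝ) (hA : 4 < A) (hA2 : A < 12) : ∃ x δ T0 : ℝ, 0 < x ∧ x ≤ 1 / 100 ∧ 0 < δ ∧ 3 ≤ T0 ∧ ∀ T : ℝ, T0 ≤ T →
      ∀ V : ℝ, T ^ (1 / 8 - x) ≤ V → V ≤ T ^ (9 / 50 : ℝ) →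
        V ^ A * ((RS T V).card : ℝ) ≤ T ^ (1 + (A - 4) / 8 - δ) := by
  obtain ⟨C1, T1, hC1, hT1, h13⟩ := as13 C4 T4 hZP
  have hk : (0 : ℝ) ≤ k := Nat.cast_nonneg k
  set x : ℝ := 1 / (29120 * (11 * k + 60)) with hxdef
  have hx : 0 < x := by positivity
  have hx1 : x ≤ 1 / (1040 * (11 * k + 60)) := by
    rw [hxdef]
    apply one_div_le_one_div_of_le (by positivity)
    nlinarith
  have hx3 : x ≤ 1 / (29120 * 60) := by
    rw [hxdef]
    apply one_div_le_one_div_of_le (by positivity)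
    nlinarith
  have hx2 : 20 * x ≤ 1 / 1040 := by
    have : (20 : ℝ) * (1 / (29120 * 60)) ≤ 1 / 1040 := by norm_num
    linarith
  have hx4 : x ≤ 1 / 100 := by linarith
  obtain ⟨e, he⟩ : ∃ e : ℝ, e = (12 - A) * x / 4 := ⟨_, rfl⟩
  have he0 : 0 < e := by
    have : 0 < (12 - A) * x := mul_pos (by linarith) hx
    linarith
  obtain ⟨T2, hT2, hcl⟩ := as14_claim C0 C2 C3 C1 k hKP hHP hMP hC1 A x e hA hA2 hx hx1 hx2 he
  obtain ⟨T3, hT3, hL⟩ := as4b (C1 ^ 2) e 9 (by positivity) he0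
  refine ⟨x, e, max T1 (max T2 T3), hx, hx4, he0, hT1.trans (le_max_left _ _),
    fun T hT V hV hV2 => ?_⟩
  simp only [max_le_iff] at hT
  obtain ⟨hTa, hTb, hTc⟩ := hT
  have hT0 : 0 < T := by linarith
  have hT' : 1 ≤ T := by linarith
  have hlog : 0 < Real.log T := Real.log_pos (by linarith)
  have hC0' : 0 < C1 := by linarith
  have hV0 : 0 < V := lt_of_lt_of_le (Real.rpow_pos_of_pos hT0 _) hV
  obtain ⟨ι, K, c, hι, hK, hc, hRS⟩ := h13 T hTa V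
    ((Real.rpow_le_rpow_of_exponent_le hT' (by linarith)).trans hV)
    (hV2.trans (Real.rpow_le_rpow_of_exponent_le hT' (by norm_num)))
  have hVA : V ^ A = V ^ (A - 2) * V ^ 2 := by
    rw [← Real.rpow_natCast V 2, ← Real.rpow_add hV0]
    congr 1
    push_cast
    ring
  have hsum : ∑ i ∈ ι, V ^ (A - 2) * ((T * K i) ^ (-1 / 2 : ℝ) *
      TT (K i) (c i) T ((T * K i) ^ (1 / 4 : ℝ) / (C1 * (Real.log T) ^ 2))) ≤
      C1 * (Real.log T) ^ 2 * T ^ (1 + (A - 4) / 8 - 2 * e) := by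
    refine (Finset.sum_le_card_nsmul ι _ _ fun i hi =>
      hcl T hTb V hV (K i) (c i) (hc i hi) (hK i hi).1 (hK i hi).2).trans ?_
    rw [nsmul_eq_mul]
    exact mul_le_mul_of_nonneg_right hι (by positivity)
  calc V ^ A * ((RS T V).card : ℝ)
      ≤ V ^ A * (C1 * (Real.log T) ^ 7 / V ^ 2 * ∑ i ∈ ι, (T * K i) ^ (-1 / 2 : ℝ) *
        TT (K i) (c i) T ((T * K i) ^ (1 / 4 : ℝ) / (C1 * (Real.log T) ^ 2))) :=
        mul_le_mul_of_nonneg_left hRS (by positivity)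
    _ = C1 * (Real.log T) ^ 7 * ∑ i ∈ ι, V ^ (A - 2) * ((T * K i) ^ (-1 / 2 : ℝ) *
        TT (K i) (c i) T ((T * K i) ^ (1 / 4 : ℝ) / (C1 * (Real.log T) ^ 2))) := by
        rw [← Finset.mul_sum, hVA]
        field_simp
    _ ≤ C1 * (Real.log T) ^ 7 * (C1 * (Real.log T) ^ 2 * T ^ (1 + (A - 4) / 8 - 2 * e)) :=
        mul_le_mul_of_nonneg_left hsum (by positivity)
    _ = (C1 ^ 2 * (Real.log T) ^ 9) * T ^ (1 + (A - 4) / 8 - 2 * e) := by ring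
    _ ≤ T ^ e * T ^ (1 + (A - 4) / 8 - 2 * e) :=
        mul_le_mul_of_nonneg_right (hL T hTc) (by positivity)
    _ = T ^ (1 + (A - 4) / 8 - e) := by
        rw [← Real.rpow_add hT0]
        congr 1
        ring

theorem as14b (C4 T4 : ℝ) (hZP : ZP C4 T4) : ∃ T0 : ℝ, 3 ≤ T0 ∧ ∀ T : ℝ, T0 ≤ T → RS T (T ^ (9 / 50 : ℝ)) = ∅ := by
  obtain ⟨C1, T1, hC1, hT1, h13⟩ := as13 C4 T4 hZP
  obtain ⟨Ta, hTa, ha⟩ := as11 C1 (1 / 1000) hC1 (by norm_num) (by norm_num)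
  obtain ⟨Tb, hTb, hb⟩ := as4b C1 (1 / 2000) 2 (by linarith) (by norm_num)
  obtain ⟨Tc, hTc, hc6⟩ := as4b C1 (1 / 100) 6 (by linarith) (by norm_num)
  refine ⟨max T1 (max Ta (max Tb Tc)), hT1.trans (le_max_left _ _), fun T hT => ?_⟩
  simp only [max_le_iff] at hT
  obtain ⟨h1, h2, h3, h4⟩ := hT
  have hT0 : 0 < T := by linarith
  have hT' : 1 ≤ T := by linarith
  have hlog : 0 < Real.log T := Real.log_pos (by linarith)
  have hC0' : 0 < C1 := by linarith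
  obtain ⟨ι, K, c, hι, hK, hc, hRS⟩ := h13 T h1 (T ^ (9 / 50 : ℝ))
    (Real.rpow_le_rpow_of_exponent_le hT' (by norm_num))
    (Real.rpow_le_rpow_of_exponent_le hT' (by norm_num))
  have hV4 : (T ^ (9 / 50 : ℝ)) ^ 4 = T ^ (18 / 25 : ℝ) := by
    rw [← Real.rpow_natCast, ← Real.rpow_mul hT0.le]
    congr 1
    norm_num
  have hzero : ∀ i ∈ ι, TT (K i) (c i) T ((T * K i) ^ (1 / 4 : ℝ) /
      (C1 * (Real.log T) ^ 2)) = 0 := by
    intro i hi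
    obtain ⟨hk0, hk1⟩ := hK i hi
    refine ha T h2 (K i) (c i) (hc i hi) hk0 ?_ _ ?_
    · refine hk1.trans ?_
      rw [hV4]
      have h5 : T = T ^ (1 : ℝ) := (Real.rpow_one T).symm
      calc C1 * Real.log T ^ 6 * T / T ^ (18 / 25 : ℝ)
          ≤ T ^ (1 / 100 : ℝ) * T / T ^ (18 / 25 : ℝ) := by
            have := hc6 T h4
            gcongr
        _ = T ^ (1 / 100 : ℝ) * T ^ (1 : ℝ) / T ^ (18 / 25 : ℝ) := by rw [Real.rpow_one]
        _ = T ^ (1 / 100 + 1 - 18 / 25 : ℝ) := by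
            rw [Real.rpow_sub hT0, Real.rpow_add hT0]
        _ ≤ T ^ (1 / 3 - 1 / 1000 : ℝ) := Real.rpow_le_rpow_of_exponent_le hT' (by norm_num)
    · have h6 : (1 / 1000 / 2 : ℝ) = 1 / 2000 := by norm_num
      rw [h6]
      exact as14_thr hT0 (Real.rpow_pos_of_pos (mul_pos hT0 hk0) _).le (by positivity) (hb T h3)
  have hsum : ∑ i ∈ ι, (T * K i) ^ (-1 / 2 : ℝ) *
      TT (K i) (c i) T ((T * K i) ^ (1 / 4 : ℝ) / (C1 * (Real.log T) ^ 2)) = 0 :=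
    Finset.sum_eq_zero fun i hi => by rw [hzero i hi, mul_zero]
  rw [hsum, mul_zero] at hRS
  have h7 : (RS T (T ^ (9 / 50 : ℝ))).card = 0 := by
    have h8 : (0 : ℝ) ≤ ((RS T (T ^ (9 / 50 : ℝ))).card : ℝ) := Nat.cast_nonneg _
    exact_mod_cast le_antisymm hRS h8
  exact Finset.card_eq_zero.1 h7

end Pool.Agent.LibSX15
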