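import Pool.Agent.LibSX15.AS4
import Pool.Agent.LibPH.A01

/-! ROW AS15 (uses AS4 (as4b), `LibPH.a01_fourth`, `LibPH.a01_cont`). From the number of large values to the moment on `[N, 2N]`, `N` an
INTEGER (every `t ∈ [N, 2N]` is within `1/2` of an integer `r ∈ [N, 2N]`).
`f t = ‖ζ(1/2 + i t)‖` (continuous), `V0 = N^(1/8 - x)`.  On `{f ≤ V0}`: `f^A ≤ V0^(A-4) f⁴`; `∫_N^{2N} f⁴ ≤ C N (log N)^8` (`a01_fourth`).
On `{f > V0}`: let `V_j = 2^j V0`, `j < m`, `m` the first with `V_m ≥ N^(9/50)` (`m ≤ 2 log N`); `f < N^(9/50)` everywhere as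
`RS N (N^(9/50)) = ∅` (so `f ≤ V_m`); `∫_{V_j < f ≤ V_{j+1}} f^A ≤ (2 V_j)^A |{f > V_j}| ≤ 2^A V_j^A #RS(N, V_j)`: the set `{t ∈ [N,2N] : f t > V_j}` is
contained in the union of the `[r - 1/2, r + 1/2]`, `r ∈ RS N V_j` (`v = t - r`).
Total `≤ N^(1 + (A-4)/8 - x(A-4)) C (log N)^8 + 2^A m N^(1 + (A-4)/8 - δ) ≤ N^(1 + (A-4)/8 - δ')`, `δ' = min(x (A-4), δ)/2`. -/

set_option autoImplicit false

namespace Pool.Agent.LibSX15

open Finset

/-- the indicator of the unit interval around an integer -/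
noncomputable def as15_I (r : ℤ) : ℝ → ℝ :=
  Set.indicator (Set.Icc ((r : ℝ) - 1 / 2) (r + 1 / 2)) (fun _ => (1 : ℝ))

theorem as15_I_int (r : ℤ) : MeasureTheory.Integrable (as15_I r) MeasureTheory.volume := by
  unfold as15_I
  refine MeasureTheory.IntegrableOn.integrable_indicator ?_ measurableSet_Icc
  exact MeasureTheory.integrableOn_const (by rw [Real.volume_Icc]; exact ENNReal.ofReal_ne_top)

theorem as15_I_nonneg (r : ℤ) (t : ℝ) : 0 ≤ as15_I r t :=
  Set.indicator_nonneg (fun _ _ => zero_le_one) t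

theorem as15_I_le (r : ℤ) (a b : ℝ) (hab : a ≤ b) : ∫ t in a..b, as15_I r t ≤ 1 := by
  rw [intervalIntegral.integral_of_le hab]
  refine (MeasureTheory.setIntegral_le_integral (as15_I_int r)
    (Filter.Eventually.of_forall fun t => as15_I_nonneg r t)).trans (le_of_eq ?_)
  unfold as15_I
  rw [MeasureTheory.integral_indicator_const _ measurableSet_Icc, MeasureTheory.measureReal_def,
    Real.volume_Icc, ENNReal.toReal_ofReal (by linarith)]
  rw [smul_eq_mul]
  ring

/-- a large value at `t ∈ [N, 2N]` is counted -/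
theorem as15_mem (N : ℕ) (V t : ℝ) (h1 : (N : ℝ) ≤ t) (h2 : t ≤ 2 * N)
    (hV : V ≤ ‖riemannZeta (1 / 2 + (t : ℂ) * Complex.I)‖) :
    round t ∈ RS N V ∧ as15_I (round t) t = 1 := by
  classical
  have h3 := abs_sub_round t
  rw [abs_le] at h3
  constructor
  · unfold RS
    rw [Finset.mem_filter, Finset.mem_Icc]
    refine ⟨⟨?_, ?_⟩, t - round t, ⟨by linarith [h3.1], by linarith [h3.2]⟩, ?_⟩
    · rw [Int.ceil_natCast]
      have h4 : ((N : ℤ) : ℝ) < (round t : ℝ) + 1 := by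
        rw [Int.cast_natCast]
        linarith [h3.2]
      have h5 : (N : ℤ) < round t + 1 := by exact_mod_cast h4
      omega
    · rw [Int.le_floor]
      have h4 : (round t : ℝ) < ((2 * (N : ℤ) + 1 : ℤ) : ℝ) := by
        push_cast
        linarith [h3.1]
      have h5 : round t < 2 * (N : ℤ) + 1 := by exact_mod_cast h4
      have h6 : round t ≤ 2 * (N : ℤ) := by omega
      have h7 : ((round t : ℤ) : ℝ) ≤ ((2 * (N : ℤ) : ℤ) : ℝ) := by exact_mod_cast h6
      push_cast at h7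
      exact h7
    · have h4 : (((round t : ℤ) : ℝ) + (t - round t) : ℝ) = t := by ring
      rw [h4]
      exact hV
  · unfold as15_I
    rw [Set.indicator_of_mem]
    constructor
    · linarith [h3.1]
    · linarith [h3.2]

theorem as15_small (A V0 y : ℝ) (hA : 4 < A) (hy : 0 ≤ y) (h : y ≤ V0) :
    y ^ A ≤ V0 ^ (A - 4) * y ^ 4 := by
  have h1 : y ^ A = y ^ (A - 4) * y ^ 4 := by
    have h2 : A = (A - 4) + 4 := by ring
    conv_lhs => rw [h2]
    rw [Real.rpow_add_of_nonneg hy (by linarith) (by norm_num)]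
    congr 1
    exact_mod_cast Real.rpow_natCast y 4
  rw [h1]
  exact mul_le_mul_of_nonneg_right (Real.rpow_le_rpow hy h (by linarith)) (by positivity)

theorem as15 (A x δ T0 : ℝ) (hA : 4 < A) (hx : 0 < x) (hx1 : x ≤ 1 / 100) (hδ : 0 < δ)
    (h1 : ∀ T : ℝ, T0 ≤ T → ∀ V : ℝ, T ^ (1 / 8 - x) ≤ V → V ≤ T ^ (9 / 50 : ℝ) →
        V ^ A * ((RS T V).card : ℝ) ≤ T ^ (1 + (A - 4) / 8 - δ))
    (h2 : ∀ T : ℝ, T0 ≤ T → RS T (T ^ (9 / 50 : ℝ)) = ∅) :
    ∃ (δ' : ℝ) (N0 : ℕ), 0 < δ' ∧ ∀ N : ℕ, N0 ≤ N →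
      ∫ t in (N : ℝ)..(2 * N), ‖riemannZeta (1 / 2 + (t : ℂ) * Complex.I)‖ ^ A ≤ (N : ℝ) ^ (1 + (A - 4) / 8 - δ') := by
  obtain ⟨C, T1, hC, hT1, hfour⟩ := LibPH.a01_fourth
  set δ' : ℝ := min (x * (A - 4)) δ / 2 with hδ'
  have hA4 : 0 < A - 4 := by linarith
  have hxA : 0 < x * (A - 4) := mul_pos hx hA4
  have hδ0 : 0 < δ' := by
    rw [hδ']
    have := lt_min hxA hδ
    linarith
  have hδa : 2 * δ' ≤ x * (A - 4) := by
    rw [hδ']
    have := min_le_left (x * (A - 4)) δ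
    linarith
  have hδb : 2 * δ' ≤ δ := by
    rw [hδ']
    have := min_le_right (x * (A - 4)) δ
    linarith
  obtain ⟨T2, hT2, hlog8⟩ := as4b (2 * C) δ' 8 (by positivity) hδ0
  obtain ⟨T3, hT3, hlog1⟩ := as4b (6 * 2 ^ A) δ' 1 (by positivity) hδ0
  refine ⟨δ', ⌈max T0 (max T1 (max T2 T3))⌉₊, hδ0, fun N hN => ?_⟩
  have hNr : max T0 (max T1 (max T2 T3)) ≤ (N : ℝ) := (Nat.le_ceil _).trans (by exact_mod_cast hN)
  have hN0 : T0 ≤ N := (le_max_left _ _).trans hNr
  have hN1 : T1 ≤ N := ((le_max_left _ _).trans (le_max_right _ _)).trans hNr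
  have hN2 : T2 ≤ N :=
    (((le_max_left _ _).trans (le_max_right _ _)).trans (le_max_right _ _)).trans hNr
  have hN3 : T3 ≤ N :=
    (((le_max_right _ _).trans (le_max_right _ _)).trans (le_max_right _ _)).trans hNr
  have hN3' : (3 : ℝ) ≤ N := hT1.trans hN1
  have hNpos : (0 : ℝ) < N := by linarith
  have hN1' : (1 : ℝ) ≤ N := by linarith
  have hlogN : 1 ≤ Real.log N := by
    rw [Real.le_log_iff_exp_le hNpos]
    have := Real.exp_one_lt_d9
    linarith
  set f : ℝ → ℝ := fun t => ‖riemannZeta (1 / 2 + (t : ℂ) * Complex.I)‖ with hf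
  have hfc : Continuous f := LibPH.a01_cont'
  have hf0 : ∀ t, 0 ≤ f t := fun t => norm_nonneg _
  set V0 : ℝ := (N : ℝ) ^ (1 / 8 - x) with hV0
  have hV0pos : 0 < V0 := Real.rpow_pos_of_pos hNpos _
  set V : ℕ → ℝ := fun j => 2 ^ j * V0 with hV
  have hVpos : ∀ j, 0 < V j := fun j => by
    rw [hV]
    positivity
  have hV00 : V 0 = V0 := by
    rw [hV]
    simp
  have hVsucc : ∀ j, V (j + 1) = 2 * V j := fun j => by
    rw [hV]
    simp only
    rw [pow_succ]
    ring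
  have hVge : ∀ j, V0 ≤ V j := fun j => by
    have h3 : (1 : ℝ) ≤ 2 ^ j := one_le_pow₀ (by norm_num)
    rw [hV]
    simp only
    nlinarith
  set W : ℝ := (N : ℝ) ^ (9 / 50 : ℝ) with hW
  have hWpos : 0 < W := Real.rpow_pos_of_pos hNpos _
  have hex : ∃ m : ℕ, W ≤ V m := by
    obtain ⟨m, hm⟩ := pow_unbounded_of_one_lt (W / V0) (show (1 : ℝ) < 2 by norm_num)
    refine ⟨m, ?_⟩
    rw [div_lt_iff₀ hV0pos] at hm
    exact hm.le
  classical
  set m : ℕ := Nat.find hex with hm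
  have hmW : W ≤ V m := Nat.find_spec hex
  have hjm : ∀ j, j < m → V j < W := fun j hj => not_le.1 (Nat.find_min hex hj)
  have hmlog : (m : ℝ) ≤ 3 * Real.log N := by
    rcases Nat.eq_zero_or_pos m with h0 | h0
    · rw [h0, Nat.cast_zero]
      linarith
    · obtain ⟨j, hj⟩ : ∃ j, m = j + 1 := ⟨m - 1, by omega⟩
      have h3 := hjm j (by omega)
      have h4 : (2 : ℝ) ^ j * V0 < W := h3
      have h5 : (2 : ℝ) ^ j < (N : ℝ) ^ (1 : ℝ) := by
        have h6 : (2 : ℝ) ^ j < W / V0 := by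
          rw [lt_div_iff₀ hV0pos]
          exact h4
        refine h6.trans_le ?_
        rw [hW, hV0, ← Real.rpow_sub hNpos]
        exact Real.rpow_le_rpow_of_exponent_le hN1' (by linarith)
      rw [Real.rpow_one] at h5
      have h7 : (j : ℝ) * Real.log 2 < Real.log N := by
        rw [← Real.log_pow]
        exact Real.log_lt_log (by positivity) h5
      have h8 := Real.log_two_gt_d9
      have h9 : (j : ℝ) * (1 / 2) ≤ (j : ℝ) * Real.log 2 :=
        mul_le_mul_of_nonneg_left (by linarith) (Nat.cast_nonneg j)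
      rw [hj]
      push_cast
      linarith
  -- the majorant
  set g : ℝ → ℝ := fun t => V0 ^ (A - 4) * f t ^ 4 +
    ∑ j ∈ range m, (2 * V j) ^ A * ∑ r ∈ RS N (V j), as15_I r t with hg
  have hpt : ∀ t ∈ Set.Icc (N : ℝ) (2 * N), f t ^ A ≤ g t := by
    intro t ht
    have hS0 : ∀ j ∈ range m, 0 ≤ (2 * V j) ^ A * ∑ r ∈ RS N (V j), as15_I r t := fun j _ =>
      mul_nonneg (Real.rpow_nonneg (by have := hVpos j; linarith) _)
        (Finset.sum_nonneg fun r _ => as15_I_nonneg r t)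
    rcases le_or_gt (f t) V0 with hle | hgt
    · have h3 := as15_small A V0 (f t) hA (hf0 t) hle
      have h4 := Finset.sum_nonneg hS0
      rw [hg]
      simp only
      linarith
    · have hlt : f t < W := by
        by_contra hcon
        push Not at hcon
        have h3 := (as15_mem N W t ht.1 ht.2 hcon).1
        rw [hW, h2 N hN0] at h3
        exact absurd h3 (Finset.notMem_empty _)
      have hex2 : ∃ j : ℕ, f t < V j := ⟨m, hlt.trans_le hmW⟩
      set j0 := Nat.find hex2 with hj0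
      have hj0s : f t < V j0 := Nat.find_spec hex2
      have hj0m : j0 ≤ m := Nat.find_min' hex2 (hlt.trans_le hmW)
      have hj00 : j0 ≠ 0 := by
        intro h0
        rw [h0, hV00] at hj0s
        linarith
      obtain ⟨j, hj⟩ : ∃ j, j0 = j + 1 := ⟨j0 - 1, by omega⟩
      have hjf : V j ≤ f t := by
        have := Nat.find_min hex2 (m := j) (by omega)
        exact not_lt.1 this
      have hjr : j ∈ range m := Finset.mem_range.2 (by omega)
      rw [hj, hVsucc] at hj0s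
      obtain ⟨hr, hI⟩ := as15_mem N (V j) t ht.1 ht.2 hjf
      have h3 : (1 : ℝ) ≤ ∑ r ∈ RS N (V j), as15_I r t := by
        rw [← hI]
        exact Finset.single_le_sum (fun r _ => as15_I_nonneg r t) hr
      have h4 : f t ^ A ≤ (2 * V j) ^ A := Real.rpow_le_rpow (hf0 t) hj0s.le (by linarith)
      have h5 : (2 * V j) ^ A ≤ (2 * V j) ^ A * ∑ r ∈ RS N (V j), as15_I r t :=
        le_mul_of_one_le_right (Real.rpow_nonneg (by have := hVpos j; linarith) _) h3
      have h6 := Finset.single_le_sum hS0 hjr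
      have h7 : 0 ≤ V0 ^ (A - 4) * f t ^ 4 := by
        have := hf0 t
        positivity
      rw [hg]
      simp only
      linarith
  have hIi : ∀ r : ℤ, IntervalIntegrable (as15_I r) MeasureTheory.volume (N : ℝ) (2 * N) :=
    fun r => (as15_I_int r).intervalIntegrable
  have hS1 : ∀ j, IntervalIntegrable (fun t => (2 * V j) ^ A * ∑ r ∈ RS N (V j), as15_I r t)
      MeasureTheory.volume (N : ℝ) (2 * N) := by
    intro j
    refine IntervalIntegrable.const_mul ?_ _
    have h3 := IntervalIntegrable.sum (RS N (V j)) (f := fun r => as15_I r) (fun r _ => hIi r)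
    have h4 : (∑ r ∈ RS N (V j), as15_I r) = fun t => ∑ r ∈ RS N (V j), as15_I r t := by
      funext t
      rw [Finset.sum_apply]
    rwa [h4] at h3
  have hS2 : IntervalIntegrable (fun t => ∑ j ∈ range m, (2 * V j) ^ A *
      ∑ r ∈ RS N (V j), as15_I r t) MeasureTheory.volume (N : ℝ) (2 * N) := by
    have h3 := IntervalIntegrable.sum (range m)
      (f := fun j t => (2 * V j) ^ A * ∑ r ∈ RS N (V j), as15_I r t) (fun j _ => hS1 j)
    have h4 : (∑ j ∈ range m, fun t => (2 * V j) ^ A * ∑ r ∈ RS N (V j), as15_I r t) =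
        fun t => ∑ j ∈ range m, (2 * V j) ^ A * ∑ r ∈ RS N (V j), as15_I r t := by
      funext t
      rw [Finset.sum_apply]
    rwa [h4] at h3
  have hF : IntervalIntegrable (fun t => V0 ^ (A - 4) * f t ^ 4)
      MeasureTheory.volume (N : ℝ) (2 * N) :=
    (continuous_const.mul (hfc.pow 4)).intervalIntegrable _ _
  have hN2N : (N : ℝ) ≤ 2 * N := by linarith
  have hmono : ∫ t in (N : ℝ)..(2 * N), f t ^ A ≤ ∫ t in (N : ℝ)..(2 * N), g t := by
    refine intervalIntegral.integral_mono_on hN2N ?_ (hF.add hS2) hpt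
    exact (hfc.rpow_const fun t => Or.inr (by linarith)).intervalIntegrable _ _
  have hgi : ∫ t in (N : ℝ)..(2 * N), g t = V0 ^ (A - 4) * (∫ t in (N : ℝ)..(2 * N), f t ^ 4) +
      ∑ j ∈ range m, (2 * V j) ^ A * ∑ r ∈ RS N (V j), ∫ t in (N : ℝ)..(2 * N), as15_I r t := by
    rw [hg]
    simp only
    rw [intervalIntegral.integral_add hF hS2, intervalIntegral.integral_const_mul,
      intervalIntegral.integral_finsetSum (fun j _ => hS1 j)]
    congr 1
    refine Finset.sum_congr rfl fun j _ => ?_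
    rw [intervalIntegral.integral_const_mul, intervalIntegral.integral_finsetSum
      (fun r _ => hIi r)]
  have hfour' : ∫ t in (N : ℝ)..(2 * N), f t ^ 4 ≤ C * N * (Real.log N) ^ 8 := by
    refine le_trans ?_ (hfour N hN1)
    refine intervalIntegral.integral_mono_interval hNpos.le hN2N le_rfl ?_ ?_
    · exact Filter.Eventually.of_forall fun t => by
        have := hf0 t
        positivity
    · exact (hfc.pow 4).intervalIntegrable _ _
  set E : ℝ := 1 + (A - 4) / 8 with hE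
  have hterm1 : V0 ^ (A - 4) * (∫ t in (N : ℝ)..(2 * N), f t ^ 4) ≤ 1 / 2 * (N : ℝ) ^ (E - δ') := by
    have h3 : V0 ^ (A - 4) = (N : ℝ) ^ ((1 / 8 - x) * (A - 4)) := by
      rw [hV0, ← Real.rpow_mul hNpos.le]
    have h4 := hlog8 N hN2
    calc V0 ^ (A - 4) * (∫ t in (N : ℝ)..(2 * N), f t ^ 4)
        ≤ V0 ^ (A - 4) * (C * N * (Real.log N) ^ 8) :=
          mul_le_mul_of_nonneg_left hfour' (Real.rpow_nonneg hV0pos.le _)
      _ = 1 / 2 * ((N : ℝ) ^ ((1 / 8 - x) * (A - 4)) * (N : ℝ) ^ (1 : ℝ) *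
          (2 * C * (Real.log N) ^ 8)) := by
          rw [h3, Real.rpow_one]
          ring
      _ ≤ 1 / 2 * ((N : ℝ) ^ ((1 / 8 - x) * (A - 4)) * (N : ℝ) ^ (1 : ℝ) * (N : ℝ) ^ δ') := by
          refine mul_le_mul_of_nonneg_left ?_ (by norm_num)
          exact mul_le_mul_of_nonneg_left h4 (by positivity)
      _ = 1 / 2 * (N : ℝ) ^ ((1 / 8 - x) * (A - 4) + 1 + δ') := by
          rw [Real.rpow_add hNpos, Real.rpow_add hNpos]
      _ ≤ 1 / 2 * (N : ℝ) ^ (E - δ') := by
          refine mul_le_mul_of_nonneg_left ?_ (by norm_num)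
          refine Real.rpow_le_rpow_of_exponent_le hN1' ?_
          rw [hE]
          linarith
  have hterm2 : ∑ j ∈ range m, (2 * V j) ^ A * ∑ r ∈ RS N (V j),
      ∫ t in (N : ℝ)..(2 * N), as15_I r t ≤ 1 / 2 * (N : ℝ) ^ (E - δ') := by
    have h3 : ∀ j ∈ range m, (2 * V j) ^ A * ∑ r ∈ RS N (V j),
        ∫ t in (N : ℝ)..(2 * N), as15_I r t ≤ 2 ^ A * (N : ℝ) ^ (E - δ) := by
      intro j hj
      have hj' := hjm j (Finset.mem_range.1 hj)
      have h4 : ∑ r ∈ RS N (V j), ∫ t in (N : ℝ)..(2 * N), as15_I r t ≤ ((RS N (V j)).card : ℝ) := by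
        refine (Finset.sum_le_card_nsmul _ _ 1 fun r _ => as15_I_le r _ _ hN2N).trans
          (le_of_eq ?_)
        rw [nsmul_eq_mul, mul_one]
      have h5 := h1 N hN0 (V j) (hVge j) hj'.le
      rw [Real.mul_rpow (by norm_num) (hVpos j).le, mul_assoc]
      refine mul_le_mul_of_nonneg_left ?_ (by positivity)
      exact (mul_le_mul_of_nonneg_left h4 (Real.rpow_nonneg (hVpos j).le _)).trans h5
    have h4 := Finset.sum_le_card_nsmul _ _ _ h3
    rw [Finset.card_range, nsmul_eq_mul] at h4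
    have h5 := hlog1 N hN3
    rw [pow_one] at h5
    calc _ ≤ (m : ℝ) * (2 ^ A * (N : ℝ) ^ (E - δ)) := h4
      _ ≤ 3 * Real.log N * (2 ^ A * (N : ℝ) ^ (E - δ)) :=
          mul_le_mul_of_nonneg_right hmlog (by positivity)
      _ = 1 / 2 * (6 * 2 ^ A * Real.log N * (N : ℝ) ^ (E - δ)) := by ring
      _ ≤ 1 / 2 * ((N : ℝ) ^ δ' * (N : ℝ) ^ (E - δ)) := by
          refine mul_le_mul_of_nonneg_left ?_ (by norm_num)
          exact mul_le_mul_of_nonneg_right h5 (by positivity)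
      _ = 1 / 2 * (N : ℝ) ^ (δ' + (E - δ)) := by
          rw [Real.rpow_add hNpos]
      _ ≤ 1 / 2 * (N : ℝ) ^ (E - δ') := by
          refine mul_le_mul_of_nonneg_left ?_ (by norm_num)
          exact Real.rpow_le_rpow_of_exponent_le hN1' (by linarith)
  calc ∫ t in (N : ℝ)..(2 * N), f t ^ A ≤ ∫ t in (N : ℝ)..(2 * N), g t := hmono
    _ ≤ 1 / 2 * (N : ℝ) ^ (E - δ') + 1 / 2 * (N : ℝ) ^ (E - δ') := by
        rw [hgi]
        exact add_le_add hterm1 hterm2
    _ = (N : ℝ) ^ (E - δ') := by ring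

end Pool.Agent.LibSX15
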