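import Pool.Agent.LibSX15.AS1

/-! ROW AS6 (only AS1). The linearised sum is the polynomial `D` of the large values theorem, up to complex conjugation.
`d.D (aa c u0) j = Σ_{n ∈ d.S} conj(c n ee(-f)) ee(ξ_n j)`; the terms with `c n (tt u0) ≠ 0` have `K/2000 ≤ n ≤ K`, so
`n ∈ d.S`, `n ≥ 1` (as `K > 0`), `n ∈ Icc 1 ⌊K⌋₊`: both sums may be restricted to these `n` (`Finset.sum_subset` twice, or
`Finset.sum_filter`), `ξ_n = zxi K u0 n = kap K * zlam u0 n` (`as1b`), `conj (ee x) = ee (-x)`, norm of the conjugate.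
`‖aa c u0 n‖ = ‖c n (tt u0)‖ ≤ Λ ω_n`: 0 unless `K/2000 ≤ n ≤ K`, where `ω_n = 1` and `‖c‖ ≤ C d(n) ≤ Λ`; `ω ≥ 0`, `Λ ≥ 0`. -/

set_option autoImplicit false

namespace Pool.Agent.LibSX15

open Finset

theorem as6_norm_ee (x : ℝ) : ‖ee x‖ = 1 := by
  unfold ee
  rw [Complex.norm_exp_ofReal_mul_I]

theorem as6_conj_ee (x : ℝ) : (starRingEnd ℂ) (ee x) = ee (-x) := by
  unfold ee
  rw [← Complex.exp_conj]
  congr 1
  rw [map_mul, Complex.conj_ofReal, Complex.conj_I]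
  push_cast
  ring

theorem as6 (d : Dat) (C T K Λ u0 : ℝ) (c : ℕ → ℝ → ℂ) (hc : CC C T K c) (hK : 0 < K) (hΛ0 : 0 ≤ Λ)
    (hω0 : ∀ n, 0 ≤ d.ω n)
    (hΛ : ∀ n : ℕ, (n : ℝ) ≤ K → C * n.divisors.card ≤ Λ)
    (hS : ∀ n : ℕ, K / 2000 ≤ n → (n : ℝ) ≤ K → n ∈ d.S ∧ d.ω n = 1)
    (hξ : ∀ n ∈ d.S, d.ξ n = zxi K u0 n) (h1 : tt u0 ∈ Set.Icc T (2 * T)) :
    (∀ n, ‖aa c u0 n‖ ≤ Λ * d.ω n) ∧
    ∀ j : ℤ, ‖d.D (aa c u0) j‖ = ‖SL K c u0 (kap K * j)‖ := by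
  have hcn : ∀ n, c n (tt u0) ≠ 0 → (K / 2000 ≤ n ∧ (n : ℝ) ≤ K) := fun n hn => hc.s n _ h1 hn
  refine ⟨fun n => ?_, fun j => ?_⟩
  · have hn : ‖aa c u0 n‖ = ‖c n (tt u0)‖ := by
      unfold aa
      rw [RCLike.norm_conj, norm_mul, as6_norm_ee, mul_one]
    rw [hn]
    by_cases h0 : c n (tt u0) = 0
    · rw [h0, norm_zero]
      exact mul_nonneg hΛ0 (hω0 n)
    · obtain ⟨h2, h3⟩ := hcn n h0
      rw [(hS n h2 h3).2, mul_one]
      exact (hc.b n _ h1).trans (hΛ n h3)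
  · have hD : d.D (aa c u0) j = ∑ n ∈ d.S, aa c u0 n * ee (zxi K u0 n * j) := by
      unfold Dat.D
      exact sum_congr rfl fun n hn => by rw [hξ n hn]
    have hSL : (starRingEnd ℂ) (SL K c u0 (kap K * j)) =
        ∑ n ∈ Icc 1 ⌊K⌋₊, aa c u0 n * ee (zxi K u0 n * j) := by
      unfold SL aa
      rw [map_sum]
      refine sum_congr rfl fun n _ => ?_
      rw [map_mul, as6_conj_ee (-(kap K * j * zlam u0 n)), neg_neg, ← as1b K u0 n hK]
      congr 2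
      ring
    rw [← RCLike.norm_conj (SL K c u0 (kap K * j)), hSL, hD]
    congr 1
    rw [← sum_filter_ne_zero (s := d.S), ← sum_filter_ne_zero (s := Icc 1 ⌊K⌋₊)]
    refine sum_congr ?_ fun _ _ => rfl
    ext n
    rw [mem_filter, mem_filter]
    refine and_congr_left fun hn => ?_
    have h0 : c n (tt u0) ≠ 0 := by
      intro h0
      apply hn
      unfold aa
      rw [h0, zero_mul, map_zero, zero_mul]
    obtain ⟨h2, h3⟩ := hcn n h0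
    refine iff_of_true (hS n h2 h3).1 ?_
    rw [mem_Icc]
    refine ⟨?_, Nat.le_floor h3⟩
    have h4 : (0 : ℝ) < n := lt_of_lt_of_le (by positivity) h2
    exact_mod_cast h4

end Pool.Agent.LibSX15
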