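import Pool.Agent.LibSX15.LVDefs

set_option autoImplicit false

namespace Pool.Agent.LibSX15

open Finset ComplexConjugate

/-- Row LVA10. The intervals `[2^j, 2^(j+1))`, `0 ≤ j ≤ log₂ ⌊C0 M⌋`, cover `[1, C0 M]`; their number is at most
`C (log M + 1) ≤ C Λ`; take the one with the largest sum (`P = 2^j ≤ ⌊C0 M⌋`). -/
theorem LV_dyadic (C0 : ℝ) (hC0 : 1 ≤ C0) : ∃ C : ℝ, 1 ≤ C ∧ ∀ M Λ : ℝ, 1 ≤ M →
    Real.log M + 1 ≤ Λ → ∀ f : ℕ → ℝ, (∀ p, 0 ≤ f p) →
    ∃ P : ℕ, 1 ≤ P ∧ (P : ℝ) ≤ C0 * M ∧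
      ∑ p ∈ Finset.Icc 1 ⌊C0 * M⌋₊, f p ≤ C * Λ * ∑ p ∈ Finset.Ico P (2 * P), f p := by
  have hlC : 0 ≤ Real.log C0 := Real.log_nonneg hC0
  refine ⟨2 * Real.log C0 + 2, by linarith, ?_⟩
  intro M Λ hM hΛ f hf
  have hCM : 1 ≤ C0 * M := by nlinarith
  set n := ⌊C0 * M⌋₊ with hn
  have hn1 : 1 ≤ n := by
    rw [hn, Nat.one_le_floor_iff]
    exact hCM
  have hnle : (n : ℝ) ≤ C0 * M := Nat.floor_le (by linarith)
  set J := Nat.log 2 n with hJ
  obtain ⟨j, hj, hmax⟩ := Finset.exists_max_image (Finset.range (J + 1))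
    (fun j => ∑ p ∈ Finset.Ico (2 ^ j) (2 * 2 ^ j), f p) ⟨0, Finset.mem_range.2 (by omega)⟩
  have hjJ : j ≤ J := by
    have := Finset.mem_range.1 hj
    omega
  refine ⟨2 ^ j, Nat.one_le_two_pow, ?_, ?_⟩
  · have h1 : 2 ^ j ≤ n := (Nat.pow_le_pow_right (by norm_num) hjJ).trans (Nat.pow_log_le_self 2 (by omega))
    have h2 : ((2 ^ j : ℕ) : ℝ) ≤ n := by exact_mod_cast h1
    exact h2.trans hnle
  · set s := ∑ p ∈ Finset.Ico (2 ^ j) (2 * 2 ^ j), f p with hs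
    have hs0 : 0 ≤ s := Finset.sum_nonneg fun p _ => hf p
    have hind : ∀ K : ℕ, ∑ p ∈ Finset.Ico 1 (2 ^ K), f p =
        ∑ i ∈ Finset.range K, ∑ p ∈ Finset.Ico (2 ^ i) (2 * 2 ^ i), f p := by
      intro K
      induction K with
      | zero => simp
      | succ K ih =>
        rw [Finset.sum_range_succ, ← ih, pow_succ, mul_comm (2 ^ K) 2]
        exact (Finset.sum_Ico_consecutive f Nat.one_le_two_pow (by omega)).symm
    have h1 : ∑ p ∈ Finset.Icc 1 n, f p ≤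
        ∑ i ∈ Finset.range (J + 1), ∑ p ∈ Finset.Ico (2 ^ i) (2 * 2 ^ i), f p := by
      rw [← hind]
      refine Finset.sum_le_sum_of_subset_of_nonneg ?_ fun p _ _ => hf p
      intro p hp
      rw [Finset.mem_Icc] at hp
      rw [Finset.mem_Ico]
      exact ⟨hp.1, lt_of_le_of_lt hp.2 (Nat.lt_pow_succ_log_self (by norm_num) n)⟩
    have h2 : ∑ i ∈ Finset.range (J + 1), ∑ p ∈ Finset.Ico (2 ^ i) (2 * 2 ^ i), f p ≤ (J + 1) * s := by
      have := Finset.sum_le_card_nsmul (Finset.range (J + 1))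
        (fun i => ∑ p ∈ Finset.Ico (2 ^ i) (2 * 2 ^ i), f p) s hmax
      rw [Finset.card_range, nsmul_eq_mul] at this
      push_cast at this
      exact this
    have hJle : (J : ℝ) ≤ 2 * Real.log C0 + 2 * Real.log M := by
      have h3 : (2 : ℝ) ^ J ≤ C0 * M := by
        have : 2 ^ J ≤ n := Nat.pow_log_le_self 2 (by omega)
        have h4 : ((2 ^ J : ℕ) : ℝ) ≤ n := by exact_mod_cast this
        push_cast at h4
        exact h4.trans hnle
      have h4 := Real.log_le_log (by positivity) h3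
      rw [Real.log_pow, Real.log_mul (by linarith) (by linarith)] at h4
      have h5 : (1 : ℝ) / 2 ≤ Real.log 2 := by linarith [Real.log_two_gt_d9]
      have h6 : (J : ℝ) * (1 / 2) ≤ J * Real.log 2 := mul_le_mul_of_nonneg_left h5 (Nat.cast_nonneg J)
      linarith
    have hlM : 0 ≤ Real.log M := Real.log_nonneg hM
    have h7 : (J : ℝ) + 1 ≤ (2 * Real.log C0 + 2) * Λ := by
      have : 2 * Real.log C0 * 1 ≤ 2 * Real.log C0 * Λ :=
        mul_le_mul_of_nonneg_left (by linarith) (by linarith)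
      linarith
    exact (h1.trans h2).trans (mul_le_mul_of_nonneg_right h7 hs0)

end Pool.Agent.LibSX15
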