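import Pool.Agent.LibSX15.LVDefs

set_option autoImplicit false

namespace Pool.Agent.LibSX15

open Finset ComplexConjugate

private theorem LVA8_conj (x : ℝ) : conj (ee x) = ee (-x) := by
  unfold ee
  rw [← Complex.exp_conj]
  congr 1
  rw [map_mul, Complex.conj_I, Complex.conj_ofReal]
  push_cast
  ring

private theorem LVA8_pos (d : Dat) (p : ℕ) (t s : ℤ) :
    d.km (p : ℤ) (t - s) =
      d.γ p * (Real.sqrt (d.N / |((p : ℤ) : ℝ)|) : ℂ) * d.chirp p ((t : ℝ) - s) := by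
  unfold Dat.km Dat.chirp Dat.zz
  push_cast
  ring

private theorem LVA8_neg (d : Dat) (p : ℕ) (t s : ℤ) :
    d.km (-(p : ℤ)) (t - s) =
      d.γ (-(p : ℤ)) * (Real.sqrt (d.N / |((-(p : ℤ) : ℤ) : ℝ)|) : ℂ) *
        conj (d.chirp p ((s : ℝ) - t)) := by
  unfold Dat.km Dat.chirp Dat.zz
  rw [map_mul, Complex.conj_ofReal, LVA8_conj]
  have h1 : ((t - s : ℤ) : ℝ) / (2 * ((-(p : ℤ) : ℤ) : ℝ) * (d.b0 * d.N)) =
      ((s : ℝ) - t) / (2 * (p : ℝ) * (d.b0 * d.N)) := by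
    push_cast
    have : 2 * -(p : ℝ) * (d.b0 * d.N) = -(2 * (p : ℝ) * (d.b0 * d.N)) := by ring
    rw [this, div_neg, ← neg_div]
    congr 1
    ring
  have h2 : d.ph (-(p : ℤ)) ((t - s : ℤ) : ℝ) = -d.ph (p : ℤ) ((s : ℝ) - t) := by
    unfold Dat.ph
    rw [h1]
    push_cast
    have : 4 * -(p : ℝ) * (d.b0 * d.N) = -(4 * (p : ℝ) * (d.b0 * d.N)) := by ring
    rw [this, div_neg]
    ring
  rw [h1, h2]
  ring

/-- Row LVA8. `m = p > 0`: `km p τ = γ (N/p)^{1/2} chirp p τ`. `m = -p < 0`: `zz` is unchanged if `τ` is replaced by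
`-τ`, `ph (-p) τ = - ph p (-τ)`, so `km (-p) (t - s) = γ (N/p)^{1/2} conj (chirp p (s - t))`, and
`∑_{t,s} c t conj (c s) conj (chirp p (s - t)) = conj (B p)` (exchange `t` and `s`). -/
theorem LV_sign (C0 : ℝ) (d : Dat) (hd : d.Good C0) (W : Finset ℤ) (c : ℤ → ℂ) (m : ℤ)
    (hm : m ≠ 0) :
    ‖∑ t ∈ W, ∑ s ∈ W, c t * conj (c s) * d.km m (t - s)‖ ≤
      C0 * Real.sqrt (d.N / |(m : ℝ)|) * ‖d.B W c m.natAbs‖ := by
  have key : ∃ z : ℂ, ‖z‖ = ‖d.B W c m.natAbs‖ ∧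
      ∑ t ∈ W, ∑ s ∈ W, c t * conj (c s) * d.km m (t - s) =
        d.γ m * (Real.sqrt (d.N / |(m : ℝ)|) : ℂ) * z := by
    rcases Int.natAbs_eq m with h | h
    · refine ⟨d.B W c m.natAbs, rfl, ?_⟩
      generalize m.natAbs = p at h
      subst h
      unfold Dat.B
      rw [Finset.mul_sum]
      refine Finset.sum_congr rfl fun t _ => ?_
      rw [Finset.mul_sum]
      refine Finset.sum_congr rfl fun s _ => ?_
      rw [LVA8_pos]
      ring
    · refine ⟨conj (d.B W c m.natAbs), by rw [RCLike.norm_conj], ?_⟩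
      generalize m.natAbs = p at h
      subst h
      unfold Dat.B
      rw [map_sum, Finset.mul_sum]
      simp only [map_sum, map_mul, Complex.conj_conj, Finset.mul_sum]
      rw [Finset.sum_comm]
      refine Finset.sum_congr rfl fun t _ => Finset.sum_congr rfl fun s _ => ?_
      rw [LVA8_neg]
      ring
  obtain ⟨z, hz, he⟩ := key
  rw [he, norm_mul, norm_mul, hz, Complex.norm_real, Real.norm_eq_abs,
    abs_of_nonneg (Real.sqrt_nonneg _)]
  exact mul_le_mul_of_nonneg_right (mul_le_mul_of_nonneg_right (hd.hγ m) (Real.sqrt_nonneg _))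
    (norm_nonneg _)

end Pool.Agent.LibSX15
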