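import Pool.Agent.LibSX15.LVW
import Pool.Agent.LibSX15.LVA8

set_option autoImplicit false

namespace Pool.Agent.LibSX15

open Finset ComplexConjugate

private theorem LVA9_sum (n : ℤ) (g : ℕ → ℝ) (hg : ∀ p, 0 ≤ g p) :
    ∑ m ∈ (Finset.Icc (-n) n).erase 0, g m.natAbs ≤ 2 * ∑ p ∈ Finset.Icc 1 n.toNat, g p := by
  classical
  set A : Finset ℤ := (Finset.Icc 1 n.toNat).image (fun p : ℕ => (p : ℤ)) with hA
  set B : Finset ℤ := (Finset.Icc 1 n.toNat).image (fun p : ℕ => -(p : ℤ)) with hB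
  have hsub : (Finset.Icc (-n) n).erase 0 ⊆ A ∪ B := by
    intro m hm
    rw [Finset.mem_erase, Finset.mem_Icc] at hm
    rw [Finset.mem_union, hA, hB, Finset.mem_image, Finset.mem_image]
    rcases lt_or_gt_of_ne hm.1 with h | h
    · exact Or.inr ⟨m.natAbs, Finset.mem_Icc.2 ⟨by omega, by omega⟩, by omega⟩
    · exact Or.inl ⟨m.natAbs, Finset.mem_Icc.2 ⟨by omega, by omega⟩, by omega⟩
  have h1 : ∑ m ∈ (Finset.Icc (-n) n).erase 0, g m.natAbs ≤ ∑ m ∈ A ∪ B, g m.natAbs :=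
    Finset.sum_le_sum_of_subset_of_nonneg hsub fun _ _ _ => hg _
  have h2 : ∑ m ∈ A ∪ B, g m.natAbs ≤ ∑ m ∈ A, g m.natAbs + ∑ m ∈ B, g m.natAbs := by
    have := Finset.sum_union_inter (s₁ := A) (s₂ := B) (f := fun m : ℤ => g m.natAbs)
    have h3 : 0 ≤ ∑ m ∈ A ∩ B, g m.natAbs := Finset.sum_nonneg fun _ _ => hg _
    linarith
  have h3 : ∑ m ∈ A, g m.natAbs = ∑ p ∈ Finset.Icc 1 n.toNat, g p := by
    rw [hA, Finset.sum_image (fun x _ y _ h => by simpa using h)]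
    exact Finset.sum_congr rfl fun p _ => by rw [Int.natAbs_natCast]
  have h4 : ∑ m ∈ B, g m.natAbs = ∑ p ∈ Finset.Icc 1 n.toNat, g p := by
    rw [hB, Finset.sum_image (fun x _ y _ h => by simpa using h)]
    exact Finset.sum_congr rfl fun p _ => by rw [Int.natAbs_neg, Int.natAbs_natCast]
  linarith

/-- Row LVA9 (Step 1). `LV_dual` (file LVW); `|t - s| ≤ M N`, `hk` and `lvw_double` (with
`f τ = k τ - ∑_{m ∈ ms} km m τ`): `‖∑∑ c c k‖ ≤ C0 (5 N |W| + Err |W|²) + ∑_{m ∈ ms} ‖∑∑ c c km‖`; `LV_sign` and the sum over `m = ± p` (`1 ≤ p ≤ ⌊C0 M⌋`); `Y² = Λ² N² / H`, so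
`|W|² N / H ≤ C0² (5 N |W| + Err |W|²) + 2 C0² ∑_p (N/p)^{1/2} ‖B p‖`. The `Err` term is `≤ |W|² N / (4 H)`.
Either `5 C0² N |W| ≥ |W|² N / (4 H)` (first alternative) or the second alternative holds. -/
theorem LV_step1 (C0 : ℝ) (hC0 : 1 ≤ C0) : ∃ C : ℝ, 1 ≤ C ∧ ∀ (d : Dat) (Λ Y H : ℝ) (a : ℕ → ℂ)
    (W : Finset ℤ), LVH d C0 Λ Y H a W → C * H * d.Err ≤ d.N →
    (W.card : ℝ) ≤ C * H ∨ ∃ c : ℤ → ℂ, (∀ t, ‖c t‖ = 1) ∧
      (W.card : ℝ) ^ 2 * d.N / H ≤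
        C * ∑ p ∈ Finset.Icc 1 ⌊C0 * d.M⌋₊, Real.sqrt (d.N / p) * ‖d.B W c p‖ := by
  refine ⟨20 * C0 ^ 2, by nlinarith, ?_⟩
  intro d Λ Y H a W h hErr
  obtain ⟨c, hc, hdual⟩ := LV_dual C0 d h.good Λ Y a W h.hΛ h.hY h.ha h.hD
  have hN : 0 < d.N := by linarith [h.good.hN]
  have hM : 1 ≤ d.M := h.good.hM
  have hE : 0 < d.Err := by linarith [h.good.hErr]
  have hC0' : 0 < C0 := by linarith
  have hΛ : 0 < Λ := by linarith [h.hΛ]
  have hY := h.hY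
  have hH0 : 0 < H := by
    rw [h.hH]
    positivity
  have hHY : H * Y ^ 2 = Λ ^ 2 * d.N ^ 2 := by
    rw [h.hH]
    field_simp
  set f : ℤ → ℂ := fun τ => d.k τ - ∑ m ∈ d.ms C0, d.km m τ with hfdef
  have hf : ∀ t ∈ W, ∀ s ∈ W,
      ‖f (t - s)‖ ≤ C0 * (d.N / (1 + ((t - s : ℤ) : ℝ) ^ 2) + d.Err) := by
    intro t ht s hs
    apply h.good.hk
    have h1 := h.hW t ht
    have h2 := h.hW s hs
    have h3 : 0 ≤ d.M * d.N := by positivity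
    push_cast
    rw [abs_le]
    constructor <;> nlinarith
  have hd2 := lvw_double W f c hc C0 d.N d.Err hC0'.le hN.le hf
  set S : ℝ := ∑ p ∈ Finset.Icc 1 ⌊C0 * d.M⌋₊, Real.sqrt (d.N / p) * ‖d.B W c p‖ with hS
  have hsplit : ∑ t ∈ W, ∑ s ∈ W, c t * conj (c s) * d.k (t - s) =
      ∑ t ∈ W, ∑ s ∈ W, c t * conj (c s) * f (t - s) +
        ∑ m ∈ d.ms C0, ∑ t ∈ W, ∑ s ∈ W, c t * conj (c s) * d.km m (t - s) := by
    rw [Finset.sum_comm (s := d.ms C0), ← Finset.sum_add_distrib]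
    refine Finset.sum_congr rfl fun t _ => ?_
    rw [Finset.sum_comm (s := d.ms C0), ← Finset.sum_add_distrib]
    refine Finset.sum_congr rfl fun s _ => ?_
    rw [← Finset.mul_sum, ← mul_add, hfdef]
    congr 1
    simp only [sub_add_cancel]
  have hms : ∑ m ∈ d.ms C0, ‖∑ t ∈ W, ∑ s ∈ W, c t * conj (c s) * d.km m (t - s)‖ ≤ 2 * C0 * S := by
    have h1 : ∑ m ∈ d.ms C0, ‖∑ t ∈ W, ∑ s ∈ W, c t * conj (c s) * d.km m (t - s)‖ ≤
        ∑ m ∈ d.ms C0, C0 * Real.sqrt (d.N / (m.natAbs : ℝ)) * ‖d.B W c m.natAbs‖ := by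
      refine Finset.sum_le_sum fun m hm => ?_
      have hm0 : m ≠ 0 := (Finset.mem_erase.mp hm).1
      have h2 := LV_sign C0 d h.good W c m hm0
      have h3 : ((m.natAbs : ℕ) : ℝ) = |(m : ℝ)| := by
        rw [Nat.cast_natAbs]
        push_cast
        rfl
      rw [h3]
      exact h2
    refine h1.trans ?_
    have h2 := LVA9_sum ⌊C0 * d.M⌋ (fun p => C0 * Real.sqrt (d.N / (p : ℝ)) * ‖d.B W c p‖)
      (fun p => by positivity)
    have h3 : (⌊C0 * d.M⌋).toNat = ⌊C0 * d.M⌋₊ := Int.floor_toNat _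
    rw [h3] at h2
    refine h2.trans (le_of_eq ?_)
    rw [hS, mul_assoc, Finset.mul_sum (a := C0)]
    congr 1
    refine Finset.sum_congr rfl fun p _ => ?_
    ring
  have hnorm : ‖∑ t ∈ W, ∑ s ∈ W, c t * conj (c s) * d.k (t - s)‖ ≤
      C0 * (5 * d.N * W.card + d.Err * (W.card : ℝ) ^ 2) + 2 * C0 * S := by
    rw [hsplit]
    refine (norm_add_le _ _).trans (add_le_add hd2 ((norm_sum_le _ _).trans hms))
  have hS0 : 0 ≤ S := Finset.sum_nonneg fun p _ => by positivity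
  set w : ℝ := (W.card : ℝ) with hw
  have hw0 : 0 ≤ w := Nat.cast_nonneg _
  have h5 : (w * Y) ^ 2 ≤ Λ ^ 2 * (C0 * d.N) *
      (C0 * (5 * d.N * w + d.Err * w ^ 2) + 2 * C0 * S) :=
    hdual.trans (mul_le_mul_of_nonneg_left hnorm (by positivity))
  -- divide by `Λ² N`
  have h6 : w ^ 2 * d.N ≤ H * (C0 ^ 2 * (5 * d.N * w + d.Err * w ^ 2) + 2 * C0 ^ 2 * S) := by
    have h7 : Λ ^ 2 * d.N * (w ^ 2 * d.N) ≤
        Λ ^ 2 * d.N * (H * (C0 ^ 2 * (5 * d.N * w + d.Err * w ^ 2) + 2 * C0 ^ 2 * S)) := by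
      calc Λ ^ 2 * d.N * (w ^ 2 * d.N) = w ^ 2 * (Λ ^ 2 * d.N ^ 2) := by ring
        _ = H * (w * Y) ^ 2 := by rw [← hHY]; ring
        _ ≤ H * (Λ ^ 2 * (C0 * d.N) * (C0 * (5 * d.N * w + d.Err * w ^ 2) + 2 * C0 * S)) :=
            mul_le_mul_of_nonneg_left h5 hH0.le
        _ = _ := by ring
    exact le_of_mul_le_mul_left h7 (by positivity)
  have h8 : C0 ^ 2 * (H * d.Err) * w ^ 2 ≤ w ^ 2 * d.N / 20 := by
    have : w ^ 2 * (20 * C0 ^ 2 * H * d.Err) ≤ w ^ 2 * d.N :=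
      mul_le_mul_of_nonneg_left hErr (by positivity)
    linarith
  by_cases hcase : w ≤ 20 * C0 ^ 2 * H
  · exact Or.inl hcase
  · right
    refine ⟨c, hc, ?_⟩
    push Not at hcase
    rw [div_le_iff₀ hH0]
    have h9 : 20 * C0 ^ 2 * H * (d.N * w) ≤ w * (d.N * w) :=
      mul_le_mul_of_nonneg_right hcase.le (by positivity)
    have h10 : 0 ≤ H * (C0 ^ 2 * S) := by positivity
    nlinarith

end Pool.Agent.LibSX15
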