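import Pool.Agent.LibSX15.LVD1

set_option autoImplicit false

namespace Pool.Agent.LibSX15

open Finset ComplexConjugate

theorem LVD2_B (d : Dat) (W : Finset ℤ) (c : ℤ → ℂ) (hc : ∀ t, ‖c t‖ = 1) (p : ℕ) :
    ‖d.B W c p‖ ^ 2 ≤ W.card * ∑ s ∈ W, ‖∑ t ∈ W, c t * d.chirp p ((t : ℝ) - s)‖ ^ 2 := by
  have h1 : d.B W c p = ∑ s ∈ W, conj (c s) * ∑ t ∈ W, c t * d.chirp p ((t : ℝ) - s) := by
    unfold Dat.B
    rw [Finset.sum_comm]
    refine Finset.sum_congr rfl fun s _ => ?_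
    rw [Finset.mul_sum]
    refine Finset.sum_congr rfl fun t _ => ?_
    ring
  have h2 : ‖d.B W c p‖ ≤ ∑ s ∈ W, ‖∑ t ∈ W, c t * d.chirp p ((t : ℝ) - s)‖ := by
    rw [h1]
    refine (norm_sum_le _ _).trans (Finset.sum_le_sum fun s _ => ?_)
    rw [norm_mul, Complex.norm_conj, hc, one_mul]
  calc ‖d.B W c p‖ ^ 2 ≤ (∑ s ∈ W, ‖∑ t ∈ W, c t * d.chirp p ((t : ℝ) - s)‖) ^ 2 := by gcongr
    _ ≤ _ := sq_sum_le_card_mul_sum_sq

theorem LVD2_split (W : Finset ℤ) (n0 I : ℕ) (hn : 1 ≤ n0) (h0 : ∀ s ∈ W, 0 ≤ s)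
    (hI : ∀ s ∈ W, s < (n0 : ℤ) * I) (f : ℤ → ℝ) :
    ∑ s ∈ W, f s = ∑ i ∈ range I,
      ∑ s ∈ W.filter (fun s => ((n0 * i : ℕ) : ℤ) ≤ s ∧ s < ((n0 * i : ℕ) : ℤ) + n0), f s := by
  have hn' : (0 : ℤ) < n0 := by exact_mod_cast hn
  have hmap : ∀ s ∈ W, (s / (n0 : ℤ)).toNat ∈ range I := by
    intro s hs
    rw [Finset.mem_range]
    have h1 : s / (n0 : ℤ) < I := by
      apply Int.ediv_lt_of_lt_mul hn'
      rw [mul_comm]
      exact hI s hs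
    have h2 : 0 ≤ s / (n0 : ℤ) := Int.ediv_nonneg (h0 s hs) hn'.le
    omega
  rw [← Finset.sum_fiberwise_of_maps_to hmap]
  refine Finset.sum_congr rfl fun i _ => ?_
  refine Finset.sum_congr ?_ fun _ _ => rfl
  ext s
  simp only [Finset.mem_filter]
  constructor
  · rintro ⟨hs, he⟩
    have h2 : 0 ≤ s / (n0 : ℤ) := Int.ediv_nonneg (h0 s hs) hn'.le
    have h3 : s / (n0 : ℤ) = i := by omega
    have h4 := Int.mul_ediv_add_emod s n0
    have h5 := Int.emod_nonneg s hn'.ne'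
    have h6 := Int.emod_lt_of_pos s hn'
    rw [h3] at h4
    refine ⟨hs, ?_, ?_⟩
    · push_cast; linarith
    · push_cast; linarith
  · rintro ⟨hs, he1, he2⟩
    refine ⟨hs, ?_⟩
    have h3 : s / (n0 : ℤ) = i := by
      apply le_antisymm
      · have : s / (n0 : ℤ) < i + 1 := by
          apply Int.ediv_lt_of_lt_mul hn'
          push_cast at he2
          nlinarith
        omega
      · apply Int.le_ediv_of_mul_le hn'
        push_cast at he1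
        nlinarith
    omega

/-- Row LVD2 (all windows). `‖B p‖² ≤ |W| ∑_{s ∈ W} ‖∑_t c t chirp p (t - s)‖²` (Cauchy-Schwarz, `‖c s‖ = 1`),
`(∑_p ‖B p‖)² ≤ P ∑_p ‖B p‖²`. `n0 = ⌊N⌋₊ ≥ N / 2`, windows `s0 = i n0`, `0 ≤ i ≤ M N / n0 ≤ 2 M`, at most `3 M` of them;
`∑_i |W_i|^{1/2} ≤ (3 M |W|)^{1/2}`. -/
theorem LV_sumB (C0 C1 : ℝ) (hC0 : 1 ≤ C0) (hC1 : 1 ≤ C1) : ∃ C : ℝ, 1 ≤ C ∧
    ∀ (d : Dat) (Λ Y H : ℝ) (a : ℕ → ℂ) (W : Finset ℤ) (c : ℤ → ℂ), LVH d C0 Λ Y H a W →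
    Win C1 d.N H W → (∀ t, ‖c t‖ = 1) → d.ε ≤ Λ → C * Λ ≤ d.N → C * d.M ≤ d.N →
    d.Err ^ 2 ≤ d.N → C * H * d.M ^ 5 ≤ d.N →
    ∀ P L : ℕ, 1 ≤ L → L ≤ P → (P : ℝ) ≤ C0 * d.M →
    (∑ p ∈ Finset.Ico P (2 * P), ‖d.B W c p‖) ^ 2 ≤
      C * (P * W.card) * (Real.sqrt (Λ * d.N) * Real.sqrt (d.M * W.card) * Real.sqrt (H ^ 3) *
        ((P : ℝ) ^ 2 / Real.sqrt L) + P * W.card * H ^ 2 * (L + Λ) ^ 2) := by
  obtain ⟨Cw, hCw, win⟩ := LV_win C0 C1 hC0 hC1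
  refine ⟨2 * Cw, by linarith, ?_⟩
  intro d Λ Y H a W c hLVH hWin hc hε hΛN hMN hErr hHM P L hL hLP hPM
  have hN : 2 ≤ d.N := hLVH.good.hN
  have hN0 : 0 < d.N := by linarith
  have hM : 1 ≤ d.M := hLVH.good.hM
  have hM0 : 0 < d.M := by linarith
  have hΛ : 1 ≤ Λ := hLVH.hΛ
  have hΛ0 : 0 < Λ := by linarith
  have hY := hLVH.hY
  have hH0 : 0 < H := by rw [hLVH.hH]; positivity
  have hC0' : 0 < Cw := by linarith
  have h1 : Cw * Λ ≤ d.N := by nlinarith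
  have h2 : Cw * d.M ≤ d.N := by nlinarith
  have h3 : Cw * H * d.M ^ 5 ≤ d.N := by
    refine le_trans ?_ hHM
    gcongr
    linarith
  set n0 := ⌊d.N⌋₊ with hn0
  have hn1 : 1 ≤ n0 := by
    rw [hn0, Nat.one_le_floor_iff]; linarith
  have hn1' : (1 : ℝ) ≤ n0 := by exact_mod_cast hn1
  have hnN : (n0 : ℝ) ≤ d.N := Nat.floor_le hN0.le
  have hNn : d.N ≤ 2 * n0 := by
    have := (Nat.lt_floor_add_one d.N).le
    linarith
  set I := ⌊2 * d.M⌋₊ + 1 with hI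
  have hI3 : (I : ℝ) ≤ 3 * d.M := by
    have := Nat.floor_le (by linarith : 0 ≤ 2 * d.M)
    rw [hI]
    push_cast
    linarith
  have hW0 : ∀ s ∈ W, 0 ≤ s := by
    intro s hs
    have := (hLVH.hW s hs).1
    exact_mod_cast this
  have hWI : ∀ s ∈ W, s < (n0 : ℤ) * I := by
    intro s hs
    have h4 := (hLVH.hW s hs).2
    have h5 : 2 * d.M < I := by
      rw [hI]; push_cast
      exact Nat.lt_floor_add_one _
    have h6 : (s : ℝ) < n0 * I := by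
      calc (s : ℝ) ≤ d.M * d.N := h4
        _ ≤ d.M * (2 * n0) := by gcongr
        _ = n0 * (2 * d.M) := by ring
        _ < n0 * I := by gcongr
    exact_mod_cast h6
  set F : ℕ → ℤ → ℝ := fun p s => ‖∑ t ∈ W, c t * d.chirp p ((t : ℝ) - s)‖ ^ 2 with hF
  set Wi : ℕ → Finset ℤ := fun i =>
    W.filter (fun s => ((n0 * i : ℕ) : ℤ) ≤ s ∧ s < ((n0 * i : ℕ) : ℤ) + n0) with hWi
  have hcard : ∑ i ∈ range I, ((Wi i).card : ℝ) = W.card := by
    have := LVD2_split W n0 I hn1 hW0 hWI (fun _ => 1)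
    simp only [Finset.sum_const, nsmul_eq_mul, mul_one] at this
    rw [this]
  have hsplit : ∑ p ∈ Finset.Ico P (2 * P), ∑ s ∈ W, F p s =
      ∑ i ∈ range I, ∑ p ∈ Finset.Ico P (2 * P), ∑ s ∈ Wi i, F p s := by
    rw [Finset.sum_comm (s := range I)]
    refine Finset.sum_congr rfl fun p _ => ?_
    exact LVD2_split W n0 I hn1 hW0 hWI (F p)
  set A : ℝ := Real.sqrt (H ^ 3) * ((P : ℝ) ^ 2 / Real.sqrt L) with hA
  set E : ℝ := P * H ^ 2 * (L + Λ) ^ 2 with hE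
  have hA0 : 0 ≤ A := by positivity
  have hwin : ∀ i ∈ range I, ∑ p ∈ Finset.Ico P (2 * P), ∑ s ∈ Wi i, F p s ≤
      Cw * (Real.sqrt (Λ * d.N) * A * Real.sqrt ((Wi i).card : ℝ) + E * (Wi i).card) := by
    intro i _
    have := win d Λ Y H a W c hLVH hWin hc hε h1 h2 hErr h3 P L n0 ((n0 * i : ℕ) : ℤ) hL hLP hPM hnN
    refine this.trans (le_of_eq ?_)
    rw [Real.sqrt_mul (by positivity : 0 ≤ Λ * d.N)]
    rw [hA, hE, hWi]
    ring
  have hsqrt : ∑ i ∈ range I, Real.sqrt ((Wi i).card : ℝ) ≤ 2 * Real.sqrt (d.M * W.card) := by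
    have h7 : (∑ i ∈ range I, Real.sqrt ((Wi i).card : ℝ)) ^ 2 ≤ (2 * Real.sqrt (d.M * W.card)) ^ 2 := by
      calc (∑ i ∈ range I, Real.sqrt ((Wi i).card : ℝ)) ^ 2
          ≤ (range I).card * ∑ i ∈ range I, Real.sqrt ((Wi i).card : ℝ) ^ 2 := sq_sum_le_card_mul_sum_sq
        _ = I * W.card := by
          rw [Finset.card_range]
          congr 1
          rw [← hcard]
          refine Finset.sum_congr rfl fun i _ => ?_
          rw [Real.sq_sqrt (by positivity)]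
        _ ≤ 3 * d.M * W.card := by gcongr
        _ ≤ 4 * (d.M * W.card) := by
          have : 0 ≤ d.M * W.card := by positivity
          linarith
        _ = (2 * Real.sqrt (d.M * W.card)) ^ 2 := by
          rw [mul_pow, Real.sq_sqrt (by positivity)]; norm_num
    exact le_of_pow_le_pow_left₀ (by norm_num) (by positivity) h7
  have hmain : ∑ p ∈ Finset.Ico P (2 * P), ∑ s ∈ W, F p s ≤
      Cw * (Real.sqrt (Λ * d.N) * A * (2 * Real.sqrt (d.M * W.card)) + E * W.card) := by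
    rw [hsplit]
    calc ∑ i ∈ range I, ∑ p ∈ Finset.Ico P (2 * P), ∑ s ∈ Wi i, F p s
        ≤ ∑ i ∈ range I, Cw * (Real.sqrt (Λ * d.N) * A * Real.sqrt ((Wi i).card : ℝ) +
            E * (Wi i).card) := Finset.sum_le_sum hwin
      _ = Cw * (Real.sqrt (Λ * d.N) * A * (∑ i ∈ range I, Real.sqrt ((Wi i).card : ℝ)) +
            E * ∑ i ∈ range I, ((Wi i).card : ℝ)) := by
          rw [← Finset.mul_sum, Finset.sum_add_distrib, Finset.mul_sum, Finset.mul_sum]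
      _ ≤ _ := by
          rw [hcard]
          gcongr
  calc (∑ p ∈ Finset.Ico P (2 * P), ‖d.B W c p‖) ^ 2
      ≤ (Finset.Ico P (2 * P)).card * ∑ p ∈ Finset.Ico P (2 * P), ‖d.B W c p‖ ^ 2 :=
        sq_sum_le_card_mul_sum_sq
    _ = P * ∑ p ∈ Finset.Ico P (2 * P), ‖d.B W c p‖ ^ 2 := by
        rw [Nat.card_Ico]
        congr 2
        omega
    _ ≤ P * ∑ p ∈ Finset.Ico P (2 * P), (W.card * ∑ s ∈ W, F p s) := by
        gcongr with p _
        exact LVD2_B d W c hc p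
    _ = P * W.card * ∑ p ∈ Finset.Ico P (2 * P), ∑ s ∈ W, F p s := by
        rw [← Finset.mul_sum]; ring
    _ ≤ P * W.card * (Cw * (Real.sqrt (Λ * d.N) * A * (2 * Real.sqrt (d.M * W.card)) + E * W.card)) := by
        gcongr
    _ ≤ P * W.card * (Cw * (Real.sqrt (Λ * d.N) * A * (2 * Real.sqrt (d.M * W.card)) +
          2 * (E * W.card))) := by
        have h8 : 0 ≤ E * W.card := by positivity
        have h9 : E * W.card ≤ 2 * (E * W.card) := by linarith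
        gcongr
    _ = _ := by rw [hA, hE]; ring

end Pool.Agent.LibSX15
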