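import Pool.Agent.LibSX15.LVDefs

set_option autoImplicit false

namespace Pool.Agent.LibSX15

open Finset ComplexConjugate

theorem LVD3_pow (M : ℝ) (hM : 1 ≤ M) : ∃ μ : ℝ, 1 ≤ μ ∧ M = μ ^ 20 ∧ M ^ (19 / 20 : ℝ) = μ ^ 19 ∧
    M ^ (-(11 / 20) : ℝ) = (μ ^ 11)⁻¹ ∧ M ^ (19 / 60 : ℝ) * M ^ (19 / 60 : ℝ) * M ^ (19 / 60 : ℝ) = μ ^ 19 := by
  have hM0 : 0 < M := by linarith
  refine ⟨M ^ (1 / 20 : ℝ), Real.one_le_rpow hM (by norm_num), ?_, ?_, ?_, ?_⟩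
  · rw [← Real.rpow_natCast, ← Real.rpow_mul hM0.le]
    norm_num
  · rw [← Real.rpow_natCast, ← Real.rpow_mul hM0.le]
    norm_num
  · rw [Real.rpow_neg hM0.le, ← Real.rpow_natCast, ← Real.rpow_mul hM0.le]
    norm_num
  · rw [← Real.rpow_natCast, ← Real.rpow_mul hM0.le, ← Real.rpow_add hM0, ← Real.rpow_add hM0]
    norm_num

theorem LVD3_D (H N : ℝ) (hN : 1 ≤ N) (hH : 0 < H) :
    1 ≤ Real.sqrt (max 1 (H ^ 2 / N)) ∧ H ^ 2 / N ≤ Real.sqrt (max 1 (H ^ 2 / N)) ^ 2 := by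
  have h1 : 1 ≤ max 1 (H ^ 2 / N) := le_max_left _ _
  constructor
  · rw [Real.one_le_sqrt]
    exact h1
  · rw [Real.sq_sqrt (by linarith)]
    exact le_max_right _ _

/-- Row LVD3 (exponents, small `P`; real numbers only). From the two hypotheses
`w² N / H ≤ C1 Λ (N/P)^{1/2} C1 P² H w`, so `w ≤ C1² Λ (H²/N)^{1/2} H P^{3/2}`, `P^{3/2} ≤ M^{19/20}`. -/
theorem LV_exp_small (C1 : ℝ) (hC1 : 1 ≤ C1) : ∃ C : ℝ, 1 ≤ C ∧ ∀ w N M H Λ P S : ℝ, 0 ≤ w → 1 ≤ N →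
    1 ≤ M → 0 < H → 1 ≤ Λ → 1 ≤ P → P ≤ M ^ (19 / 30 : ℝ) →
    w ^ 2 * N / H ≤ C1 * Λ * (Real.sqrt (N / P) * S) → S ≤ C1 * P ^ 2 * H * w →
    w ≤ C * Λ * Real.sqrt (max 1 (H ^ 2 / N)) * H * M ^ (19 / 20 : ℝ) := by
  refine ⟨C1 ^ 2, one_le_pow₀ hC1, ?_⟩
  intro w N M H Λ P S hw hN hM hH hΛ hP hPM h1 h2
  obtain ⟨μ, hμ, e1, e2, e3, e4⟩ := LVD3_pow M hM
  obtain ⟨hD1, hD2⟩ := LVD3_D H N hN hH
  set D := Real.sqrt (max 1 (H ^ 2 / N)) with hDdef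
  rw [e2]
  rcases eq_or_lt_of_le hw with hw0 | hw0
  · rw [← hw0]
    positivity
  have hN0 : 0 < N := by linarith
  have hP0 : 0 < P := by linarith
  have hM0 : 0 < M := by linarith
  -- the square roots
  set n := Real.sqrt N with hn
  set p := Real.sqrt P with hp
  have hn2 : n ^ 2 = N := Real.sq_sqrt hN0.le
  have hp2 : p ^ 2 = P := Real.sq_sqrt hP0.le
  have hn0 : 0 < n := Real.sqrt_pos.mpr hN0
  have hp0 : 0 < p := Real.sqrt_pos.mpr hP0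
  have hs : Real.sqrt (N / P) = n / p := by rw [Real.sqrt_div hN0.le]
  have hpM : p ≤ M ^ (19 / 60 : ℝ) := by
    rw [hp]
    have : M ^ (19 / 60 : ℝ) = Real.sqrt (M ^ (19 / 30 : ℝ)) := by
      rw [Real.sqrt_eq_rpow, ← Real.rpow_mul hM0.le]
      norm_num
    rw [this]
    exact Real.sqrt_le_sqrt hPM
  have hp3 : p ^ 3 ≤ μ ^ 19 := by
    rw [← e4]
    have h0 : 0 ≤ M ^ (19 / 60 : ℝ) := by positivity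
    calc p ^ 3 = p * p * p := by ring
      _ ≤ _ := by gcongr
  have hHn : H / n ≤ D := by
    have : H / n = Real.sqrt (H ^ 2 / N) := by
      rw [Real.sqrt_div (by positivity), Real.sqrt_sq hH.le]
    rw [this, hDdef]
    exact Real.sqrt_le_sqrt (le_max_right _ _)
  rw [hs] at h1
  have h3 : w ^ 2 * N / H ≤ C1 * Λ * (n / p * (C1 * P ^ 2 * H * w)) := by
    refine h1.trans ?_
    gcongr
  have h4 : w * (w * N / H) ≤ w * (C1 ^ 2 * Λ * n * p ^ 3 * H) := by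
    calc w * (w * N / H) = w ^ 2 * N / H := by ring
      _ ≤ _ := h3
      _ = w * (C1 ^ 2 * Λ * n * p ^ 3 * H) := by
        rw [← hp2]; field_simp
  have h5 : w * N / H ≤ C1 ^ 2 * Λ * n * p ^ 3 * H := le_of_mul_le_mul_left h4 hw0
  have h6 : w ≤ C1 ^ 2 * Λ * p ^ 3 * H * (H / n) := by
    rw [div_le_iff₀ hH, ← hn2] at h5
    have h7 : w * n ^ 2 ≤ (C1 ^ 2 * Λ * p ^ 3 * H * (H / n)) * n ^ 2 := by
      calc w * n ^ 2 ≤ C1 ^ 2 * Λ * n * p ^ 3 * H * H := h5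
        _ = (C1 ^ 2 * Λ * p ^ 3 * H * (H / n)) * n ^ 2 := by field_simp
    exact le_of_mul_le_mul_right h7 (by positivity)
  calc w ≤ C1 ^ 2 * Λ * p ^ 3 * H * (H / n) := h6
    _ ≤ C1 ^ 2 * Λ * μ ^ 19 * H * D := by gcongr
    _ = C1 ^ 2 * Λ * D * H * μ ^ 19 := by ring

/-- Row LVD3 (exponents, large `P`; real numbers only). `L = P M^{-11/20}` up to a factor `2`.
`w⁴ N² / H² ≤ C1² Λ² (N/P) S² ≤ C1³ Λ² N w (X + Z)`, `X = (Λ N)^{1/2} (M w)^{1/2} H^{3/2} P² L^{-1/2}`,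
`Z = P w H² (L + Λ)²`. Case `X ≥ Z`: `w^{5/2} ≤ C Λ^{5/2} N^{-1/2} M^{1/2} H^{7/2} M^{3/2 + 11/40}`, so
`w ≤ C Λ (H²/N)^{1/5} H M^{91/100}`. Case `X < Z`: `w² ≤ C Λ² H⁴ N^{-1} P (L + Λ)² ≤ C Λ⁴ H⁴ N^{-1} M^{19/10}`. -/
theorem LV_exp_large (C0 C1 : ℝ) (hC0 : 1 ≤ C0) (hC1 : 1 ≤ C1) : ∃ C : ℝ, 1 ≤ C ∧
    ∀ w N M H Λ P L S : ℝ, 0 ≤ w → 1 ≤ N → 1 ≤ M → 0 < H → 1 ≤ Λ → 1 ≤ P → P ≤ C0 * M → 1 ≤ L →
    L ≤ P * M ^ (-(11 / 20) : ℝ) → P * M ^ (-(11 / 20) : ℝ) ≤ 2 * L → 0 ≤ S →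
    w ^ 2 * N / H ≤ C1 * Λ * (Real.sqrt (N / P) * S) →
    S ^ 2 ≤ C1 * (P * w) * (Real.sqrt (Λ * N) * Real.sqrt (M * w) * Real.sqrt (H ^ 3) *
      (P ^ 2 / Real.sqrt L) + P * w * H ^ 2 * (L + Λ) ^ 2) →
    w ≤ C * Λ ^ 2 * Real.sqrt (max 1 (H ^ 2 / N)) * H * M ^ (19 / 20 : ℝ) := by
  have hK6 : 1 ≤ C1 ^ 6 := one_le_pow₀ hC1
  have hK3 : 1 ≤ C0 ^ 3 := one_le_pow₀ hC0
  have hK13 : 1 ≤ C1 ^ 3 := one_le_pow₀ hC1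
  have hK : 1 ≤ C1 ^ 6 * C0 ^ 3 := one_le_mul_of_one_le_of_one_le hK6 hK3
  refine ⟨8 * (C1 ^ 6 * C0 ^ 3), by linarith, ?_⟩
  intro w N M H Λ P L S hw hN hM hH hΛ hP hPM hL hL1 hL2 hS h1 h2
  obtain ⟨μ, hμ, e1, e2, e3, e4⟩ := LVD3_pow M hM
  obtain ⟨hD1, hD2⟩ := LVD3_D H N hN hH
  set D := Real.sqrt (max 1 (H ^ 2 / N)) with hDdef
  rw [e2]
  rw [e3] at hL1 hL2
  rcases eq_or_lt_of_le hw with hw0 | hw0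
  · rw [← hw0]
    positivity
  have hN0 : 0 < N := by linarith
  have hP0 : 0 < P := by linarith
  have hM0 : 0 < M := by linarith
  have hL0 : 0 < L := by linarith
  have hΛ0 : 0 < Λ := by linarith
  have hμ0 : 0 < μ := by linarith
  have hD0 : 0 < D := by linarith
  have hC00 : 0 < C0 := by linarith
  have hC10 : 0 < C1 := by linarith
  set X := Real.sqrt (Λ * N) * Real.sqrt (M * w) * Real.sqrt (H ^ 3) * (P ^ 2 / Real.sqrt L) with hX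
  set Z := P * w * H ^ 2 * (L + Λ) ^ 2 with hZ
  have hX0 : 0 ≤ X := by positivity
  have hZ0 : 0 ≤ Z := by positivity
  have hX2 : X ^ 2 = Λ * N * (M * w) * H ^ 3 * (P ^ 4 / L) := by
    rw [hX, mul_pow, mul_pow, mul_pow, div_pow, Real.sq_sqrt (by positivity), Real.sq_sqrt (by positivity),
      Real.sq_sqrt (by positivity), Real.sq_sqrt hL0.le]
    ring
  have hl0 : 0 ≤ w ^ 2 * N / H := by positivity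
  have h3 : (w ^ 2 * N / H) ^ 2 ≤ C1 ^ 3 * Λ ^ 2 * N * w * (X + Z) := by
    calc (w ^ 2 * N / H) ^ 2 ≤ (C1 * Λ * (Real.sqrt (N / P) * S)) ^ 2 := by gcongr
      _ = C1 ^ 2 * Λ ^ 2 * (N / P) * S ^ 2 := by
        rw [mul_pow, mul_pow, mul_pow, Real.sq_sqrt (by positivity)]; ring
      _ ≤ C1 ^ 2 * Λ ^ 2 * (N / P) * (C1 * (P * w) * (X + Z)) := by gcongr
      _ = C1 ^ 3 * Λ ^ 2 * N * w * (X + Z) := by field_simp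
  have hPL : P * (μ ^ 11)⁻¹ ≤ 2 * L := hL2
  have hPL' : P ≤ 2 * L * μ ^ 11 := by
    have := mul_le_mul_of_nonneg_right hPL (by positivity : 0 ≤ μ ^ 11)
    rwa [mul_assoc, inv_mul_cancel₀ (by positivity), mul_one] at this
  have hP3 : P ^ 3 ≤ C0 ^ 3 * μ ^ 60 := by
    calc P ^ 3 ≤ (C0 * M) ^ 3 := by gcongr
      _ = C0 ^ 3 * μ ^ 60 := by rw [e1]; ring
  rcases le_total Z X with hc | hc
  · have h4 : (w ^ 2 * N / H) ^ 2 ≤ 2 * C1 ^ 3 * Λ ^ 2 * N * w * X := by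
      refine h3.trans ?_
      have : C1 ^ 3 * Λ ^ 2 * N * w * (X + Z) ≤ C1 ^ 3 * Λ ^ 2 * N * w * (X + X) := by gcongr
      refine this.trans (le_of_eq (by ring))
    have h5 : (w ^ 2 * N / H) ^ 4 ≤ 4 * C1 ^ 6 * Λ ^ 5 * N ^ 3 * w ^ 3 * M * H ^ 3 * (P ^ 4 / L) := by
      calc (w ^ 2 * N / H) ^ 4 = ((w ^ 2 * N / H) ^ 2) ^ 2 := by ring
        _ ≤ (2 * C1 ^ 3 * Λ ^ 2 * N * w * X) ^ 2 := by gcongr
        _ = 4 * C1 ^ 6 * Λ ^ 4 * N ^ 2 * w ^ 2 * X ^ 2 := by ring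
        _ = _ := by rw [hX2]; ring
    have hP4 : P ^ 4 / L ≤ 2 * C0 ^ 3 * μ ^ 71 := by
      rw [div_le_iff₀ hL0]
      calc P ^ 4 = P ^ 3 * P := by ring
        _ ≤ (C0 ^ 3 * μ ^ 60) * (2 * L * μ ^ 11) := by gcongr
        _ = _ := by ring
    have h6 : (w ^ 2 * N / H) ^ 4 ≤ 8 * (C1 ^ 6 * C0 ^ 3) * Λ ^ 5 * N ^ 3 * w ^ 3 * H ^ 3 * μ ^ 91 := by
      refine h5.trans ?_
      calc 4 * C1 ^ 6 * Λ ^ 5 * N ^ 3 * w ^ 3 * M * H ^ 3 * (P ^ 4 / L)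
          ≤ 4 * C1 ^ 6 * Λ ^ 5 * N ^ 3 * w ^ 3 * M * H ^ 3 * (2 * C0 ^ 3 * μ ^ 71) := by gcongr
        _ = _ := by rw [e1]; ring
    have h7 : w ^ 5 ≤ 8 * (C1 ^ 6 * C0 ^ 3) * Λ ^ 5 * H ^ 5 * (H ^ 2 / N) * μ ^ 91 := by
      have h8 : w ^ 5 * (w ^ 3 * N ^ 4 / H ^ 4) ≤
          (8 * (C1 ^ 6 * C0 ^ 3) * Λ ^ 5 * H ^ 5 * (H ^ 2 / N) * μ ^ 91) * (w ^ 3 * N ^ 4 / H ^ 4) := by
        calc w ^ 5 * (w ^ 3 * N ^ 4 / H ^ 4) = (w ^ 2 * N / H) ^ 4 := by ring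
          _ ≤ _ := h6
          _ = _ := by field_simp
      exact le_of_mul_le_mul_right h8 (by positivity)
    have h9 : w ^ 5 ≤ (8 * (C1 ^ 6 * C0 ^ 3) * Λ ^ 2 * D * H * μ ^ 19) ^ 5 := by
      have hk5 : 8 * (C1 ^ 6 * C0 ^ 3) ≤ (8 * (C1 ^ 6 * C0 ^ 3)) ^ 5 :=
        le_self_pow₀ (by linarith) (by norm_num)
      have hD5 : H ^ 2 / N ≤ D ^ 5 := hD2.trans (pow_le_pow_right₀ hD1 (by norm_num))
      have hμ5 : μ ^ 91 ≤ μ ^ 95 := pow_le_pow_right₀ hμ (by norm_num)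
      have hΛ5 : Λ ^ 5 ≤ Λ ^ 10 := pow_le_pow_right₀ hΛ (by norm_num)
      calc w ^ 5 ≤ 8 * (C1 ^ 6 * C0 ^ 3) * Λ ^ 5 * H ^ 5 * (H ^ 2 / N) * μ ^ 91 := h7
        _ ≤ (8 * (C1 ^ 6 * C0 ^ 3)) ^ 5 * Λ ^ 10 * H ^ 5 * D ^ 5 * μ ^ 95 := by gcongr
        _ = _ := by ring
    exact le_of_pow_le_pow_left₀ (by norm_num) (by positivity) h9
  · have h4 : (w ^ 2 * N / H) ^ 2 ≤ 2 * C1 ^ 3 * Λ ^ 2 * N * w * Z := by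
      refine h3.trans ?_
      have : C1 ^ 3 * Λ ^ 2 * N * w * (X + Z) ≤ C1 ^ 3 * Λ ^ 2 * N * w * (Z + Z) := by gcongr
      refine this.trans (le_of_eq (by ring))
    have hLΛ : L + Λ ≤ 2 * (L * Λ) := by nlinarith
    have hPL2 : P * L ^ 2 ≤ C0 ^ 3 * μ ^ 38 := by
      calc P * L ^ 2 ≤ P * (P * (μ ^ 11)⁻¹) ^ 2 := by gcongr
        _ = P ^ 3 * ((μ ^ 22)⁻¹) := by
          rw [mul_pow, inv_pow]; ring
        _ ≤ C0 ^ 3 * μ ^ 60 * (μ ^ 22)⁻¹ := by gcongr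
        _ = C0 ^ 3 * μ ^ 38 := by field_simp
    have h5 : w ^ 2 ≤ 2 * C1 ^ 3 * Λ ^ 2 * (H ^ 2 / N) * H ^ 2 * P * (L + Λ) ^ 2 := by
      have h8 : w ^ 2 * (w ^ 2 * N ^ 2 / H ^ 2) ≤
          (2 * C1 ^ 3 * Λ ^ 2 * (H ^ 2 / N) * H ^ 2 * P * (L + Λ) ^ 2) * (w ^ 2 * N ^ 2 / H ^ 2) := by
        calc w ^ 2 * (w ^ 2 * N ^ 2 / H ^ 2) = (w ^ 2 * N / H) ^ 2 := by ring
          _ ≤ _ := h4
          _ = _ := by rw [hZ]; field_simp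
      exact le_of_mul_le_mul_right h8 (by positivity)
    have h9 : w ^ 2 ≤ (8 * (C1 ^ 6 * C0 ^ 3) * Λ ^ 2 * D * H * μ ^ 19) ^ 2 := by
      have hk : 8 * (C1 ^ 3 * C0 ^ 3) ≤ (8 * (C1 ^ 6 * C0 ^ 3)) ^ 2 := by
        have h36 : C1 ^ 3 ≤ C1 ^ 6 := pow_le_pow_right₀ hC1 (by norm_num)
        calc 8 * (C1 ^ 3 * C0 ^ 3) ≤ 8 * (C1 ^ 6 * C0 ^ 3) := by gcongr
          _ ≤ _ := le_self_pow₀ (by linarith) (by norm_num)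
      calc w ^ 2 ≤ 2 * C1 ^ 3 * Λ ^ 2 * (H ^ 2 / N) * H ^ 2 * P * (L + Λ) ^ 2 := h5
        _ ≤ 2 * C1 ^ 3 * Λ ^ 2 * (H ^ 2 / N) * H ^ 2 * P * (2 * (L * Λ)) ^ 2 := by gcongr
        _ = 8 * C1 ^ 3 * Λ ^ 4 * (H ^ 2 / N) * H ^ 2 * (P * L ^ 2) := by ring
        _ ≤ 8 * C1 ^ 3 * Λ ^ 4 * D ^ 2 * H ^ 2 * (C0 ^ 3 * μ ^ 38) := by gcongr
        _ = 8 * (C1 ^ 3 * C0 ^ 3) * Λ ^ 4 * D ^ 2 * H ^ 2 * μ ^ 38 := by ring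
        _ ≤ (8 * (C1 ^ 6 * C0 ^ 3)) ^ 2 * Λ ^ 4 * D ^ 2 * H ^ 2 * μ ^ 38 := by gcongr
        _ = _ := by ring
    exact le_of_pow_le_pow_left₀ (by norm_num) (by positivity) h9

end Pool.Agent.LibSX15
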