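import Pool.Agent.LibSX15.LVA7
import Pool.Agent.LibSX15.LVA9
import Pool.Agent.LibSX15.LVA10
import Pool.Agent.LibSX15.LVD2
import Pool.Agent.LibSX15.LVD3

set_option autoImplicit false

namespace Pool.Agent.LibSX15

open Finset ComplexConjugate

theorem LVD4_D_le (C0 : ℝ) (d : Dat) (hd : d.Good C0) (Λ : ℝ) (hΛ : 0 ≤ Λ) (a : ℕ → ℂ)
    (ha : ∀ n, ‖a n‖ ≤ Λ * d.ω n) (t : ℤ) : ‖d.D a t‖ ≤ Λ * (C0 * d.N) := by
  have h1 : ‖d.D a t‖ ≤ ∑ n ∈ d.S, Λ := by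
    refine (norm_sum_le _ _).trans (Finset.sum_le_sum fun n _ => ?_)
    rw [norm_mul, norm_ee, mul_one]
    refine (ha n).trans ?_
    calc Λ * d.ω n ≤ Λ * 1 := by
          gcongr
          exact hd.hω1 n
      _ = Λ := mul_one _
  refine h1.trans ?_
  rw [Finset.sum_const, nsmul_eq_mul, mul_comm]
  gcongr
  exact hd.hS

/-- Row LVD4 (final). `LV_count`, `LV_step1`, `LV_dyadic` (with `f p = (N/p)^{1/2} ‖B p‖`, `(N/p)^{1/2} ≤ (N/P)^{1/2}`);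
if `P ≤ M^{19/30}`: `LV_small`, `LV_exp_small`; otherwise `L = ⌊P M^{-11/20}⌋₊ ≥ 1` (as `M^{19/30 - 11/20} ≥ 1`),
`LV_sumB`, `LV_exp_large`. -/
theorem LV_main (C0 : ℝ) (hC0 : 1 ≤ C0) : ∃ (C : ℝ) (k : ℕ), 1 ≤ C ∧ ∀ (d : Dat), d.Good C0 →
    ∀ (Λ Y H : ℝ) (a : ℕ → ℂ) (W : Finset ℤ), 1 ≤ Λ → d.ε ≤ Λ → Real.log d.M + 1 ≤ Λ →
    0 < Y → (∀ n, ‖a n‖ ≤ Λ * d.ω n) →
    (∀ t ∈ W, (0 : ℝ) ≤ t ∧ (t : ℝ) ≤ d.M * d.N) → (∀ t ∈ W, Y ≤ ‖d.D a t‖) →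
    H = Λ ^ 2 * d.N ^ 2 / Y ^ 2 →
    C * H * d.Err ≤ d.N → d.Err ^ 2 ≤ d.N →
    C * Λ ^ k * d.M ^ 6 * H ≤ d.N →
    (W.card : ℝ) ≤ C * Λ ^ k * Real.sqrt (max 1 (H ^ 2 / d.N)) * H * d.M ^ (19 / 20 : ℝ) := by
  obtain ⟨Cc, hCc, count⟩ := LV_count C0 hC0
  obtain ⟨Cs, hCs, step1⟩ := LV_step1 C0 hC0
  obtain ⟨Cd, hCd, dyad⟩ := LV_dyadic C0 hC0
  obtain ⟨C2, hC2, small⟩ := LV_small C0 Cc hC0 hCc
  obtain ⟨C3, hC3, sumB⟩ := LV_sumB C0 Cc hC0 hCc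
  have hC1 : 1 ≤ max (Cs * Cd) (max C2 C3) := le_max_of_le_right (le_max_of_le_left hC2)
  set C1 := max (Cs * Cd) (max C2 C3) with hC1d
  obtain ⟨Ce1, hCe1, exp1⟩ := LV_exp_small C1 hC1
  obtain ⟨Ce2, hCe2, exp2⟩ := LV_exp_large C0 C1 hC0 hC1
  set C := Cc + Cs + Ce1 + Ce2 + C3 * C0 ^ 2 with hC
  have hC02 : 1 ≤ C0 ^ 2 := one_le_pow₀ hC0
  have hC3C : 1 ≤ C3 * C0 ^ 2 := one_le_mul_of_one_le_of_one_le hC3 hC02
  refine ⟨C, 2, by linarith, ?_⟩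
  intro d hd Λ Y H a W hΛ hεΛ hlog hY ha hW hD hH hErr hErr2 hbig
  have hN : 2 ≤ d.N := hd.hN
  have hN0 : 0 < d.N := by linarith
  have hM : 1 ≤ d.M := hd.hM
  have hM0 : 0 < d.M := by linarith
  have hErr1 : 1 ≤ d.Err := hd.hErr
  have hΛ0 : 0 < Λ := by linarith
  have hH0 : 0 < H := by rw [hH]; positivity
  have hLVH : LVH d C0 Λ Y H a W := ⟨hd, hΛ, hY, ha, hW, hD, hH⟩
  obtain ⟨hD1, -⟩ := LVD3_D H d.N (by linarith) hH0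
  set Dl := Real.sqrt (max 1 (H ^ 2 / d.N)) with hDl
  have hm1 : 1 ≤ d.M ^ (19 / 20 : ℝ) := Real.one_le_rpow hM (by norm_num)
  have hC0' : 0 < C := by linarith
  rcases W.eq_empty_or_nonempty with rfl | ⟨t, ht⟩
  · simp only [card_empty, Nat.cast_zero]
    positivity
  have hHlow : 1 ≤ C0 ^ 2 * H := by
    have h1 : Y ≤ Λ * (C0 * d.N) := (hD t ht).trans (LVD4_D_le C0 d hd Λ hΛ0.le a ha t)
    rw [hH, ← mul_div_assoc, le_div_iff₀ (by positivity), one_mul]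
    calc Y ^ 2 ≤ (Λ * (C0 * d.N)) ^ 2 := by gcongr
      _ = _ := by ring
  have hΛ2 : Λ ≤ Λ ^ 2 := le_self_pow₀ hΛ (by norm_num)
  have hΛ21 : 1 ≤ Λ ^ 2 := one_le_pow₀ hΛ
  have hM6 : 1 ≤ d.M ^ 6 := one_le_pow₀ hM
  have hM61 : d.M ≤ d.M ^ 6 := le_self_pow₀ hM (by norm_num)
  have hM65 : d.M ^ 5 ≤ d.M ^ 6 := pow_le_pow_right₀ hM (by norm_num)
  have hbig' : C3 * C0 ^ 2 * Λ ^ 2 * d.M ^ 6 * H ≤ d.N := by
    refine le_trans ?_ hbig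
    gcongr
    linarith
  have hb : C3 * (Λ ^ 2 * d.M ^ 6) ≤ d.N := by
    refine le_trans ?_ hbig'
    calc C3 * (Λ ^ 2 * d.M ^ 6) = C3 * (Λ ^ 2 * d.M ^ 6) * 1 := by ring
      _ ≤ C3 * (Λ ^ 2 * d.M ^ 6) * (C0 ^ 2 * H) := by gcongr
      _ = _ := by ring
  have hc1 : C3 * Λ ≤ d.N := by
    refine le_trans ?_ hb
    gcongr
    nlinarith
  have hc2 : C3 * d.M ≤ d.N := by
    refine le_trans ?_ hb
    gcongr
    nlinarith
  have hc3 : C3 * H * d.M ^ 5 ≤ d.N := by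
    refine le_trans ?_ hbig'
    calc C3 * H * d.M ^ 5 = C3 * 1 * 1 * d.M ^ 5 * H := by ring
      _ ≤ C3 * C0 ^ 2 * Λ ^ 2 * d.M ^ 6 * H := by gcongr
  have hErrc : Cc * H * d.Err ≤ d.N := by
    refine le_trans ?_ hErr
    gcongr
    linarith
  have hErrs : Cs * H * d.Err ≤ d.N := by
    refine le_trans ?_ hErr
    gcongr
    linarith
  have hWin := count d Λ Y H a W hLVH hErrc
  rcases step1 d Λ Y H a W hLVH hErrs with h1 | ⟨c, hc, h1⟩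
  · refine h1.trans ?_
    calc Cs * H = Cs * 1 * 1 * H * 1 := by ring
      _ ≤ C * Λ ^ 2 * Dl * H * d.M ^ (19 / 20 : ℝ) := by
        gcongr
        linarith
  obtain ⟨P, hP1, hPM, h2⟩ := dyad d.M Λ hM hlog (fun p => Real.sqrt (d.N / p) * ‖d.B W c p‖)
    (fun p => by positivity)
  have hP0 : (1 : ℝ) ≤ P := by exact_mod_cast hP1
  set S := ∑ p ∈ Finset.Ico P (2 * P), ‖d.B W c p‖ with hS
  have hS0 : 0 ≤ S := Finset.sum_nonneg fun _ _ => norm_nonneg _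
  have h3 : ∑ p ∈ Finset.Ico P (2 * P), Real.sqrt (d.N / p) * ‖d.B W c p‖ ≤ Real.sqrt (d.N / P) * S := by
    rw [hS, Finset.mul_sum]
    refine Finset.sum_le_sum fun p hp => ?_
    have hPp : (P : ℝ) ≤ p := by exact_mod_cast (Finset.mem_Ico.mp hp).1
    gcongr
  have h4 : (W.card : ℝ) ^ 2 * d.N / H ≤ C1 * Λ * (Real.sqrt (d.N / P) * S) := by
    calc (W.card : ℝ) ^ 2 * d.N / H
        ≤ Cs * ∑ p ∈ Finset.Icc 1 ⌊C0 * d.M⌋₊, Real.sqrt (d.N / p) * ‖d.B W c p‖ := h1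
      _ ≤ Cs * (Cd * Λ * ∑ p ∈ Finset.Ico P (2 * P), Real.sqrt (d.N / p) * ‖d.B W c p‖) := by gcongr
      _ ≤ Cs * (Cd * Λ * (Real.sqrt (d.N / P) * S)) := by gcongr
      _ = (Cs * Cd) * Λ * (Real.sqrt (d.N / P) * S) := by ring
      _ ≤ C1 * Λ * (Real.sqrt (d.N / P) * S) := by
        gcongr
        exact le_max_left _ _
  have hw0 : (0 : ℝ) ≤ W.card := by positivity
  have hN1 : 1 ≤ d.N := by linarith
  rcases le_or_gt (P : ℝ) (d.M ^ (19 / 30 : ℝ)) with hcase | hcase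
  · have h5 : S ≤ C1 * (P : ℝ) ^ 2 * H * W.card := by
      refine (small d H W c P hd hH0.le hWin hc hP1).trans ?_
      gcongr
      exact (le_max_left _ _).trans (le_max_right _ _)
    refine (exp1 W.card d.N d.M H Λ P S hw0 hN1 hM hH0 hΛ hP0 hcase h4 h5).trans ?_
    gcongr
    linarith
  · set x : ℝ := P * d.M ^ (-(11 / 20) : ℝ) with hx
    have hx1 : 1 ≤ x := by
      have h6 : 1 ≤ d.M ^ (19 / 30 : ℝ) * d.M ^ (-(11 / 20) : ℝ) := by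
        rw [← Real.rpow_add hM0]
        exact Real.one_le_rpow hM (by norm_num)
      refine h6.trans ?_
      rw [hx]
      gcongr
    have hL1 : 1 ≤ ⌊x⌋₊ := by
      rw [Nat.one_le_floor_iff]
      exact hx1
    have hL1' : (1 : ℝ) ≤ (⌊x⌋₊ : ℝ) := by exact_mod_cast hL1
    have hLx : (⌊x⌋₊ : ℝ) ≤ x := Nat.floor_le (by linarith)
    have hxL : x ≤ 2 * (⌊x⌋₊ : ℝ) := by
      have := (Nat.lt_floor_add_one x).le
      linarith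
    have hLP : ⌊x⌋₊ ≤ P := by
      have h7 : x ≤ P := by
        rw [hx]
        calc (P : ℝ) * d.M ^ (-(11 / 20) : ℝ) ≤ P * 1 := by
              gcongr
              exact Real.rpow_le_one_of_one_le_of_nonpos hM (by norm_num)
          _ = P := mul_one _
      exact_mod_cast hLx.trans h7
    have h5 := sumB d Λ Y H a W c hLVH hWin hc hεΛ hc1 hc2 hErr2 hc3 P ⌊x⌋₊ hL1 hLP hPM
    have h5' : S ^ 2 ≤ C1 * (P * W.card) * (Real.sqrt (Λ * d.N) * Real.sqrt (d.M * W.card) *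
        Real.sqrt (H ^ 3) * ((P : ℝ) ^ 2 / Real.sqrt (⌊x⌋₊ : ℝ)) +
          P * W.card * H ^ 2 * ((⌊x⌋₊ : ℝ) + Λ) ^ 2) := by
      refine h5.trans ?_
      gcongr
      exact (le_max_right _ _).trans (le_max_right _ _)
    refine (exp2 W.card d.N d.M H Λ P ⌊x⌋₊ S hw0 hN1 hM hH0 hΛ hP0 hPM hL1' hLx hxL hS0 h4 h5').trans ?_
    gcongr
    linarith

end Pool.Agent.LibSX15
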