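import Pool.Agent.LibSX15.Defs

/-! LibSX15, block LV: duality, kernel bound, windows, Halász (helper87). -/

set_option autoImplicit false

namespace Pool.Agent.LibSX15

open Finset
open scoped ComplexConjugate

theorem lvw_ee_norm (x : ℝ) : ‖ee x‖ = 1 := by
  rw [ee, Complex.norm_exp_ofReal_mul_I]

theorem lvw_ee_add (x y : ℝ) : ee (x + y) = ee x * ee y := by
  rw [ee, ee, ee, ← Complex.exp_add]
  congr 1
  push_cast
  ring

theorem lvw_ee_neg (x : ℝ) : ee (-x) = conj (ee x) := by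
  rw [ee, ee, ← Complex.exp_conj]
  congr 1
  simp only [map_mul, Complex.conj_ofReal, Complex.conj_I]
  push_cast
  ring

/-- duality -/
theorem LV_dual (C0 : ℝ) (d : Dat) (hd : d.Good C0) (Λ Y : ℝ) (a : ℕ → ℂ) (W : Finset ℤ)
    (hΛ : 1 ≤ Λ) (hY : 0 < Y) (ha : ∀ n, ‖a n‖ ≤ Λ * d.ω n) (hW : ∀ t ∈ W, Y ≤ ‖d.D a t‖) :
    ∃ c : ℤ → ℂ, (∀ t, ‖c t‖ = 1) ∧
      ((W.card : ℝ) * Y) ^ 2 ≤
        Λ ^ 2 * (C0 * d.N) * ‖∑ t ∈ W, ∑ s ∈ W, c t * conj (c s) * d.k (t - s)‖ := by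
  classical
  obtain ⟨c, hc1, hcD⟩ : ∃ c : ℤ → ℂ, (∀ t, ‖c t‖ = 1) ∧ ∀ t, c t * d.D a t = (‖d.D a t‖ : ℂ) := by
    refine ⟨fun t => if d.D a t = 0 then 1 else conj (d.D a t) / (‖d.D a t‖ : ℂ), ?_, ?_⟩
    · intro t
      by_cases h : d.D a t = 0
      · simp [h]
      · simp only [if_neg h, norm_div, RCLike.norm_conj, Complex.norm_real, norm_norm]
        exact div_self (norm_ne_zero_iff.mpr h)
    · intro t
      by_cases h : d.D a t = 0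
      · simp [h]
      · have hn : (‖d.D a t‖ : ℂ) ≠ 0 := by
          exact_mod_cast norm_ne_zero_iff.mpr h
        simp only [if_neg h]
        rw [div_mul_eq_mul_div, div_eq_iff hn, mul_comm (conj (d.D a t)), Complex.mul_conj,
          Complex.normSq_eq_norm_sq]
        push_cast
        ring
  refine ⟨c, hc1, ?_⟩
  -- the dual sums
  set A : ℕ → ℂ := fun n => ∑ t ∈ W, c t * ee (d.ξ n * t) with hA
  have h1 : ((W.card : ℝ) * Y) ≤ ∑ n ∈ d.S, Λ * (d.ω n * ‖A n‖) := by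
    have e1 : (W.card : ℝ) * Y ≤ ∑ t ∈ W, ‖d.D a t‖ := by
      have := Finset.card_nsmul_le_sum W (fun t => ‖d.D a t‖) Y hW
      simpa [nsmul_eq_mul] using this
    have e2 : ((∑ t ∈ W, ‖d.D a t‖ : ℝ) : ℂ) = ∑ n ∈ d.S, a n * A n := by
      push_cast
      calc ∑ t ∈ W, (‖d.D a t‖ : ℂ) = ∑ t ∈ W, c t * d.D a t :=
            Finset.sum_congr rfl fun t _ => (hcD t).symm
        _ = ∑ t ∈ W, ∑ n ∈ d.S, c t * (a n * ee (d.ξ n * t)) := by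
            refine Finset.sum_congr rfl fun t _ => ?_
            rw [Dat.D, Finset.mul_sum]
        _ = ∑ n ∈ d.S, ∑ t ∈ W, c t * (a n * ee (d.ξ n * t)) := Finset.sum_comm
        _ = ∑ n ∈ d.S, a n * A n := by
            refine Finset.sum_congr rfl fun n _ => ?_
            rw [hA, Finset.mul_sum]
            refine Finset.sum_congr rfl fun t _ => ?_
            ring
    have e3 : (∑ t ∈ W, ‖d.D a t‖) ≤ ‖∑ n ∈ d.S, a n * A n‖ := by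
      rw [← e2, Complex.norm_real]
      exact le_abs_self _
    refine e1.trans (e3.trans ((norm_sum_le _ _).trans (Finset.sum_le_sum fun n _ => ?_)))
    rw [norm_mul, ← mul_assoc]
    exact mul_le_mul_of_nonneg_right (ha n) (norm_nonneg _)
  have h0 : 0 ≤ (W.card : ℝ) * Y := by positivity
  have h2 : (∑ n ∈ d.S, (d.ω n * ‖A n‖)) ^ 2 ≤
      (∑ n ∈ d.S, d.ω n) * ∑ n ∈ d.S, d.ω n * ‖A n‖ ^ 2 := by
    refine Finset.sum_sq_le_sum_mul_sum_of_sq_eq_mul _ (fun n _ => hd.hω0 n)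
      (fun n _ => mul_nonneg (hd.hω0 n) (sq_nonneg _)) (fun n _ => ?_)
    ring
  have h3 : ∑ n ∈ d.S, d.ω n ≤ C0 * d.N := by
    refine le_trans ?_ hd.hS
    calc ∑ n ∈ d.S, d.ω n ≤ ∑ n ∈ d.S, (1 : ℝ) := Finset.sum_le_sum fun n _ => hd.hω1 n
      _ = d.S.card := by simp
  have h4 : ((∑ n ∈ d.S, d.ω n * ‖A n‖ ^ 2 : ℝ) : ℂ) =
      ∑ t ∈ W, ∑ s ∈ W, c t * conj (c s) * d.k (t - s) := by
    push_cast
    have e1 : ∀ n, ((d.ω n : ℂ) * (‖A n‖ : ℂ) ^ 2) =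
        ∑ t ∈ W, ∑ s ∈ W, c t * conj (c s) * ((d.ω n : ℂ) * ee (d.ξ n * ((t - s : ℤ) : ℝ))) := by
      intro n
      have : ((‖A n‖ : ℂ) ^ 2) = A n * conj (A n) := by
        rw [Complex.mul_conj, Complex.normSq_eq_norm_sq]
        push_cast
        ring
      rw [this, hA]
      simp only [map_sum, map_mul]
      rw [Finset.sum_mul_sum, Finset.mul_sum]
      refine Finset.sum_congr rfl fun t _ => ?_
      rw [Finset.mul_sum]
      refine Finset.sum_congr rfl fun s _ => ?_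
      rw [← lvw_ee_neg]
      have : ee (d.ξ n * ((t - s : ℤ) : ℝ)) = ee (d.ξ n * t) * ee (-(d.ξ n * s)) := by
        rw [← lvw_ee_add]
        congr 1
        push_cast
        ring
      rw [this]
      ring
    rw [Finset.sum_congr rfl fun n _ => e1 n, Finset.sum_comm]
    refine Finset.sum_congr rfl fun t _ => ?_
    rw [Finset.sum_comm]
    refine Finset.sum_congr rfl fun s _ => ?_
    rw [Dat.k, Finset.mul_sum]
  have h5 : 0 ≤ ∑ n ∈ d.S, d.ω n * ‖A n‖ ^ 2 :=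
    Finset.sum_nonneg fun n _ => mul_nonneg (hd.hω0 n) (sq_nonneg _)
  have h6 : ‖∑ t ∈ W, ∑ s ∈ W, c t * conj (c s) * d.k (t - s)‖ =
      ∑ n ∈ d.S, d.ω n * ‖A n‖ ^ 2 := by
    rw [← h4, Complex.norm_real, Real.norm_of_nonneg h5]
  rw [h6]
  calc ((W.card : ℝ) * Y) ^ 2 ≤ (∑ n ∈ d.S, Λ * (d.ω n * ‖A n‖)) ^ 2 :=
        pow_le_pow_left₀ h0 h1 2
    _ = Λ ^ 2 * (∑ n ∈ d.S, (d.ω n * ‖A n‖)) ^ 2 := by rw [← Finset.mul_sum]; ring
    _ ≤ Λ ^ 2 * ((∑ n ∈ d.S, d.ω n) * ∑ n ∈ d.S, d.ω n * ‖A n‖ ^ 2) :=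
        mul_le_mul_of_nonneg_left h2 (sq_nonneg _)
    _ ≤ Λ ^ 2 * ((C0 * d.N) * ∑ n ∈ d.S, d.ω n * ‖A n‖ ^ 2) := by gcongr
    _ = Λ ^ 2 * (C0 * d.N) * ∑ n ∈ d.S, d.ω n * ‖A n‖ ^ 2 := by ring

theorem lvw_inv_sq_nat (s : Finset ℕ) (hs : ∀ n ∈ s, 1 ≤ n) :
    ∑ n ∈ s, 1 / (1 + (n : ℝ) ^ 2) ≤ 2 := by
  have key : ∀ K : ℕ, ∑ n ∈ Finset.Icc 1 K, 1 / (1 + (n : ℝ) ^ 2) ≤ 2 - 2 / ((K : ℝ) + 1) := by
    intro K
    induction K with
    | zero => simp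
    | succ K ih =>
      rw [Finset.sum_Icc_succ_top (by omega)]
      refine (add_le_add_left ih _).trans ?_
      have h1 : (0 : ℝ) < (K : ℝ) + 1 := by positivity
      have h2 : (0 : ℝ) < (K : ℝ) + 1 + 1 := by positivity
      push_cast
      have : 1 / (1 + ((K : ℝ) + 1) ^ 2) ≤ 2 / ((K : ℝ) + 1) - 2 / ((K : ℝ) + 1 + 1) := by
        rw [div_sub_div _ _ h1.ne' h2.ne', div_le_div_iff₀ (by positivity) (by positivity)]
        nlinarith [(Nat.cast_nonneg K : (0:ℝ) ≤ K)]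
      linarith
  obtain ⟨K, hK⟩ : ∃ K, s ⊆ Finset.Icc 1 K := by
    refine ⟨s.sup id, fun n hn => ?_⟩
    rw [Finset.mem_Icc]
    exact ⟨hs n hn, Finset.le_sup (f := id) hn⟩
  refine (Finset.sum_le_sum_of_subset_of_nonneg hK fun n _ _ => by positivity).trans ((key K).trans ?_)
  have : 0 ≤ 2 / ((K : ℝ) + 1) := by positivity
  linarith

theorem lvw_inv_sq (s : Finset ℤ) : ∑ z ∈ s, 1 / (1 + (z : ℝ) ^ 2) ≤ 5 := by
  classical
  have h := Finset.sum_filter_add_sum_filter_not s (fun z : ℤ => 0 < z)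
    (fun z => 1 / (1 + (z : ℝ) ^ 2))
  have h' := Finset.sum_filter_add_sum_filter_not (s.filter fun z : ℤ => ¬ 0 < z)
    (fun z : ℤ => z < 0) (fun z => 1 / (1 + (z : ℝ) ^ 2))
  have e1 : ∑ z ∈ s.filter (fun z : ℤ => 0 < z), 1 / (1 + (z : ℝ) ^ 2) ≤ 2 := by
    have hinj : Set.InjOn Int.toNat (s.filter fun z : ℤ => 0 < z : Finset ℤ) := by
      intro x hx y hy hxy
      simp only [Finset.coe_filter, Set.mem_setOf_eq] at hx hy
      omega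
    have := lvw_inv_sq_nat ((s.filter fun z : ℤ => 0 < z).image Int.toNat) (by
      intro n hn
      simp only [Finset.mem_image, Finset.mem_filter] at hn
      obtain ⟨z, ⟨_, hz⟩, rfl⟩ := hn
      omega)
    rw [Finset.sum_image hinj] at this
    refine le_trans (le_of_eq (Finset.sum_congr rfl fun z hz => ?_)) this
    simp only [Finset.mem_filter] at hz
    have : ((z.toNat : ℕ) : ℝ) = (z : ℝ) := by
      have h0 : ((z.toNat : ℕ) : ℤ) = z := Int.toNat_of_nonneg hz.2.le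
      exact_mod_cast congrArg (fun x : ℤ => (x : ℝ)) h0
    rw [this]
  have e2 : ∑ z ∈ (s.filter fun z : ℤ => ¬ 0 < z).filter (fun z : ℤ => z < 0),
      1 / (1 + (z : ℝ) ^ 2) ≤ 2 := by
    have hinj : Set.InjOn (fun z : ℤ => (-z).toNat)
        ((s.filter fun z : ℤ => ¬ 0 < z).filter (fun z : ℤ => z < 0) : Finset ℤ) := by
      intro x hx y hy hxy
      simp only [Finset.coe_filter, Set.mem_setOf_eq, Finset.mem_filter] at hx hy
      simp only at hxy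
      omega
    have := lvw_inv_sq_nat
      (((s.filter fun z : ℤ => ¬ 0 < z).filter (fun z : ℤ => z < 0)).image
        fun z : ℤ => (-z).toNat) (by
      intro n hn
      simp only [Finset.mem_image, Finset.mem_filter] at hn
      obtain ⟨z, ⟨_, hz⟩, rfl⟩ := hn
      omega)
    rw [Finset.sum_image hinj] at this
    refine le_trans (le_of_eq (Finset.sum_congr rfl fun z hz => ?_)) this
    simp only [Finset.mem_filter] at hz
    have : (((-z).toNat : ℕ) : ℝ) = -(z : ℝ) := by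
      have h0 : (((-z).toNat : ℕ) : ℤ) = -z := Int.toNat_of_nonneg (by omega)
      have h0' : ((((-z).toNat : ℕ) : ℤ) : ℝ) = ((-z : ℤ) : ℝ) := by rw [h0]
      rw [Int.cast_natCast] at h0'
      rw [h0', Int.cast_neg]
    rw [this]
    ring
  have e3 : ∑ z ∈ (s.filter fun z : ℤ => ¬ 0 < z).filter (fun z : ℤ => ¬ z < 0),
      1 / (1 + (z : ℝ) ^ 2) ≤ 1 := by
    have hsub : (s.filter fun z : ℤ => ¬ 0 < z).filter (fun z : ℤ => ¬ z < 0) ⊆ {0} := by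
      intro z hz
      simp only [Finset.mem_filter] at hz
      simp only [Finset.mem_singleton]
      omega
    refine (Finset.sum_le_sum_of_subset_of_nonneg hsub fun z _ _ => by positivity).trans ?_
    simp
  linarith

theorem lvw_inv_sq_shift (W : Finset ℤ) (t : ℤ) :
    ∑ s ∈ W, 1 / (1 + ((t - s : ℤ) : ℝ) ^ 2) ≤ 5 := by
  classical
  have hinj : Set.InjOn (fun s : ℤ => t - s) (W : Set ℤ) := by
    intro x _ y _ hxy
    simp only at hxy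
    omega
  have := lvw_inv_sq (W.image fun s : ℤ => t - s)
  rwa [Finset.sum_image hinj] at this

/-- the terms of the kernel that do not vanish -/
theorem lvw_km_ne (C0 : ℝ) (d : Dat) (hd : d.Good C0) (m : ℤ) (hm : m ≠ 0) (τ : ℤ)
    (h : d.km m τ ≠ 0) : 2 * |(τ : ℝ)| ≤ |(m : ℝ)| * (d.b0 * d.N) ∧
      |(m : ℝ)| * (2 * d.N) ≤ C0 * |(τ : ℝ)| := by
  have hN : 0 < d.N := by linarith [hd.hN]
  have hb : 0 < d.b0 := by linarith [hd.hb1]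
  have hC : 0 < C0 := by linarith [hd.hC0]
  have hw : d.w (τ / (2 * m * (d.b0 * d.N))) ≠ 0 := by
    intro h0
    apply h
    rw [Dat.km, h0]
    simp
  have h1 := hd.hw0 _ hw
  have h2 := hd.hw1 _ hw
  have hmR : (m : ℝ) ≠ 0 := by exact_mod_cast hm
  have hbN : 0 < d.b0 * d.N := mul_pos hb hN
  have habs : |(τ : ℝ) / (2 * m * (d.b0 * d.N))| = |(τ : ℝ)| / (2 * |(m : ℝ)| * (d.b0 * d.N)) := by
    rw [abs_div, abs_mul, abs_mul, abs_of_pos hbN, abs_of_pos (by norm_num : (0:ℝ) < 2)]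
  have hpos : 0 < (τ : ℝ) / (2 * m * (d.b0 * d.N)) := lt_of_lt_of_le (by positivity) h1
  rw [abs_of_pos hpos] at habs
  rw [habs] at h1 h2
  have hmpos : 0 < |(m : ℝ)| := abs_pos.mpr hmR
  have hden : 0 < 2 * |(m : ℝ)| * (d.b0 * d.N) := by positivity
  rw [div_le_div_iff₀ hC hden] at h1
  rw [div_le_div_iff₀ hden (by norm_num)] at h2
  refine ⟨by nlinarith, ?_⟩
  have : |(m : ℝ)| * (2 * d.N) ≤ |(m : ℝ)| * (2 * d.N) * d.b0 :=
    le_mul_of_one_le_right (by positivity) hd.hb1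
  nlinarith

theorem lvw_km_norm (C0 : ℝ) (d : Dat) (hd : d.Good C0) (m : ℤ) (hm : m ≠ 0) (τ : ℤ) :
    ‖d.km m τ‖ ≤ C0 ^ 2 * Real.sqrt (d.N / |(m : ℝ)|) := by
  have hC : 0 ≤ C0 := by linarith [hd.hC0]
  rw [Dat.km, norm_mul, norm_mul, norm_mul, lvw_ee_norm, Complex.norm_real, Complex.norm_real,
    Real.norm_of_nonneg (Real.sqrt_nonneg _), mul_one, Real.norm_eq_abs]
  calc ‖d.γ m‖ * Real.sqrt (d.N / |(m : ℝ)|) * |d.w (τ / (2 * m * (d.b0 * d.N)))|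
      ≤ C0 * Real.sqrt (d.N / |(m : ℝ)|) * C0 := by
        gcongr
        · exact hd.hγ m
        · exact hd.hw _
    _ = C0 ^ 2 * Real.sqrt (d.N / |(m : ℝ)|) := by ring

/-- bound for the sum of the chirps -/
theorem lvw_chirps (C0 : ℝ) (d : Dat) (hd : d.Good C0) (τ : ℤ) :
    ∑ m ∈ d.ms C0, ‖d.km m τ‖ ≤ C0 ^ 4 * Real.sqrt |(τ : ℝ)| := by
  classical
  have hN : 0 < d.N := by linarith [hd.hN]
  have hb : 0 < d.b0 := by linarith [hd.hb1]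
  have hC : 0 < C0 := by linarith [hd.hC0]
  rcases eq_or_ne τ 0 with rfl | hτ
  · refine le_of_eq_of_le (Finset.sum_eq_zero fun m hm => ?_) (by positivity)
    have hm0 : m ≠ 0 := (Finset.mem_erase.mp hm).1
    rw [norm_eq_zero]
    by_contra h
    have h' := (lvw_km_ne C0 d hd m hm0 0 h).2
    have : 0 < |(m : ℝ)| := abs_pos.mpr (by exact_mod_cast hm0)
    simp at h'
    nlinarith
  have hτR : 0 < |(τ : ℝ)| := abs_pos.mpr (by exact_mod_cast hτ)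
  set X : ℝ := C0 * |(τ : ℝ)| / (2 * d.N) with hX
  have hX0 : 0 ≤ X := by positivity
  -- reduce to the nonvanishing terms
  have h1 : ∑ m ∈ d.ms C0, ‖d.km m τ‖ ≤
      ∑ m ∈ (Finset.Icc (-⌊X⌋) ⌊X⌋).erase 0, C0 ^ 2 * (Real.sqrt (C0 * d.N ^ 2 / (2 * |(τ : ℝ)|))) := by
    rw [← Finset.sum_filter_ne_zero]
    set K : ℝ := C0 ^ 2 * (Real.sqrt (C0 * d.N ^ 2 / (2 * |(τ : ℝ)|))) with hK
    have hK0 : 0 ≤ K := by positivity
    have e1 : ∑ m ∈ (d.ms C0).filter (fun m => ‖d.km m τ‖ ≠ 0), ‖d.km m τ‖ ≤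
        ∑ m ∈ (d.ms C0).filter (fun m => ‖d.km m τ‖ ≠ 0), K := by
      refine Finset.sum_le_sum fun m hm => ?_
      rw [Finset.mem_filter] at hm
      have hm0 : m ≠ 0 := (Finset.mem_erase.mp hm.1).1
      have hmR : 0 < |(m : ℝ)| := abs_pos.mpr (by exact_mod_cast hm0)
      have h' := (lvw_km_ne C0 d hd m hm0 τ (norm_ne_zero_iff.mp hm.2)).1
      refine (lvw_km_norm C0 d hd m hm0 τ).trans ?_
      refine mul_le_mul_of_nonneg_left (Real.sqrt_le_sqrt ?_) (by positivity)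
      rw [div_le_div_iff₀ hmR (by positivity)]
      have : 2 * |(τ : ℝ)| ≤ |(m : ℝ)| * (C0 * d.N) :=
        h'.trans (mul_le_mul_of_nonneg_left (mul_le_mul_of_nonneg_right hd.hb2 hN.le) hmR.le)
      nlinarith
    have e2 : ∑ m ∈ (d.ms C0).filter (fun m => ‖d.km m τ‖ ≠ 0), K ≤
        ∑ m ∈ (Finset.Icc (-⌊X⌋) ⌊X⌋).erase 0, K := by
      refine Finset.sum_le_sum_of_subset_of_nonneg ?_ fun _ _ _ => hK0
      intro m hm
      rw [Finset.mem_filter] at hm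
      have hm0 : m ≠ 0 := (Finset.mem_erase.mp hm.1).1
      have h' := (lvw_km_ne C0 d hd m hm0 τ (norm_ne_zero_iff.mp hm.2)).2
      rw [Finset.mem_erase, Finset.mem_Icc]
      have h2 : |(m : ℝ)| ≤ X := by
        rw [hX, le_div_iff₀ (by positivity)]
        exact h'
      have h3 : (|m| : ℤ) ≤ ⌊X⌋ := by
        rw [Int.le_floor]
        push_cast
        exact h2
      rw [abs_le] at h3
      exact ⟨hm0, h3⟩
    exact e1.trans e2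
  refine h1.trans ?_
  rw [Finset.sum_const, nsmul_eq_mul]
  have hcard : (((Finset.Icc (-⌊X⌋) ⌊X⌋).erase 0).card : ℝ) ≤ 2 * X := by
    have hfl : 0 ≤ ⌊X⌋ := Int.floor_nonneg.mpr hX0
    have : ((Finset.Icc (-⌊X⌋) ⌊X⌋).erase 0).card = (2 * ⌊X⌋).toNat := by
      rw [Finset.card_erase_of_mem (by rw [Finset.mem_Icc]; constructor <;> omega), Int.card_Icc]
      omega
    rw [this]
    have h2 : (((2 * ⌊X⌋).toNat : ℕ) : ℝ) = 2 * (⌊X⌋ : ℝ) := by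
      have h0 : (((2 * ⌊X⌋).toNat : ℕ) : ℤ) = 2 * ⌊X⌋ := Int.toNat_of_nonneg (by omega)
      have h0' : ((((2 * ⌊X⌋).toNat : ℕ) : ℤ) : ℝ) = ((2 * ⌊X⌋ : ℤ) : ℝ) := by rw [h0]
      rw [Int.cast_natCast] at h0'
      rw [h0', Int.cast_mul, Int.cast_ofNat]
    rw [h2]
    have := Int.floor_le X
    linarith
  refine (mul_le_mul_of_nonneg_right hcard (by positivity)).trans ?_
  -- 2X * C0^2 * sqrt(C0 N^2 / (2|τ|)) = C0^3 |τ| / N * N sqrt(C0/(2|τ|))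
  have hsq : Real.sqrt (C0 * d.N ^ 2 / (2 * |(τ : ℝ)|)) = d.N * Real.sqrt (C0 / 2) / Real.sqrt |(τ : ℝ)| := by
    have : C0 * d.N ^ 2 / (2 * |(τ : ℝ)|) = d.N ^ 2 * (C0 / 2) / |(τ : ℝ)| := by
      field_simp
    rw [this, Real.sqrt_div (by positivity), Real.sqrt_mul (by positivity), Real.sqrt_sq hN.le]
  rw [hsq, hX]
  have hs : Real.sqrt |(τ : ℝ)| * Real.sqrt |(τ : ℝ)| = |(τ : ℝ)| := Real.mul_self_sqrt (abs_nonneg _)
  have hs0 : 0 < Real.sqrt |(τ : ℝ)| := Real.sqrt_pos.mpr hτR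
  have hc2 : Real.sqrt (C0 / 2) ≤ C0 := by
    rw [Real.sqrt_le_left hC.le]
    nlinarith [hd.hC0]
  calc 2 * (C0 * |(τ : ℝ)| / (2 * d.N)) * (C0 ^ 2 * (d.N * Real.sqrt (C0 / 2) / Real.sqrt |(τ : ℝ)|))
      = C0 ^ 3 * Real.sqrt (C0 / 2) * (|(τ : ℝ)| / Real.sqrt |(τ : ℝ)|) := by
        field_simp
    _ = C0 ^ 3 * Real.sqrt (C0 / 2) * Real.sqrt |(τ : ℝ)| := by
        rw [div_eq_of_eq_mul hs0.ne' hs.symm]
    _ ≤ C0 ^ 3 * C0 * Real.sqrt |(τ : ℝ)| := by gcongr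
    _ = C0 ^ 4 * Real.sqrt |(τ : ℝ)| := by ring

/-- kernel bound -/
theorem LV_kb (C0 : ℝ) (d : Dat) (hd : d.Good C0) (τ : ℤ) (hτ : |(τ : ℝ)| ≤ 8 * d.M * d.N) :
    ‖d.k τ‖ ≤ C0 ^ 4 * (d.N / (1 + (τ : ℝ) ^ 2) + d.Err + Real.sqrt |(τ : ℝ)|) := by
  have h1 := hd.hk τ hτ
  have h2 := lvw_chirps C0 d hd τ
  have hC : 1 ≤ C0 := hd.hC0
  have hN : 0 < d.N := by linarith [hd.hN]
  have hE : 0 < d.Err := by linarith [hd.hErr]
  have h3 : ‖d.k τ‖ ≤ ‖d.k τ - ∑ m ∈ d.ms C0, d.km m τ‖ + ‖∑ m ∈ d.ms C0, d.km m τ‖ := by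
    have := norm_add_le (d.k τ - ∑ m ∈ d.ms C0, d.km m τ) (∑ m ∈ d.ms C0, d.km m τ)
    simpa using this
  have h4 : C0 ≤ C0 ^ 4 := by
    calc C0 = C0 ^ 1 := (pow_one _).symm
      _ ≤ C0 ^ 4 := pow_le_pow_right₀ hC (by norm_num)
  have h5 : C0 * (d.N / (1 + (τ : ℝ) ^ 2) + d.Err) ≤ C0 ^ 4 * (d.N / (1 + (τ : ℝ) ^ 2) + d.Err) :=
    mul_le_mul_of_nonneg_right h4 (by positivity)
  calc ‖d.k τ‖ ≤ C0 * (d.N / (1 + (τ : ℝ) ^ 2) + d.Err) + C0 ^ 4 * Real.sqrt |(τ : ℝ)| :=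
        h3.trans (add_le_add h1 ((norm_sum_le _ _).trans h2))
    _ ≤ C0 ^ 4 * (d.N / (1 + (τ : ℝ) ^ 2) + d.Err) + C0 ^ 4 * Real.sqrt |(τ : ℝ)| := by linarith
    _ = _ := by ring

/-- no chirps for small `τ` -/
theorem LV_kb0 (C0 : ℝ) (d : Dat) (hd : d.Good C0) (τ : ℤ) (hτ : C0 * |(τ : ℝ)| < 2 * d.N) :
    ‖d.k τ‖ ≤ C0 * (d.N / (1 + (τ : ℝ) ^ 2) + d.Err) := by
  have hN : 0 < d.N := by linarith [hd.hN]
  have hM : 1 ≤ d.M := hd.hM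
  have hC : 1 ≤ C0 := hd.hC0
  have h8 : |(τ : ℝ)| ≤ 8 * d.M * d.N := by
    have h1 : |(τ : ℝ)| ≤ C0 * |(τ : ℝ)| := le_mul_of_one_le_left (abs_nonneg _) hC
    nlinarith [mul_le_mul_of_nonneg_right hM hN.le]
  have h1 := hd.hk τ h8
  have h0 : ∑ m ∈ d.ms C0, d.km m τ = 0 := by
    refine Finset.sum_eq_zero fun m hm => ?_
    have hm0 : m ≠ 0 := (Finset.mem_erase.mp hm).1
    by_contra h
    have h' := (lvw_km_ne C0 d hd m hm0 τ h).2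
    have hm1 : (1 : ℝ) ≤ |(m : ℝ)| := by
      have : (1 : ℤ) ≤ |m| := Int.one_le_abs hm0
      exact_mod_cast this
    nlinarith [mul_le_mul_of_nonneg_right hm1 (by positivity : 0 ≤ 2 * d.N)]
  rwa [h0, sub_zero] at h1

/-- the double sum with the kernel, from a pointwise bound -/
theorem lvw_double (W : Finset ℤ) (f : ℤ → ℂ) (c : ℤ → ℂ) (hc : ∀ t, ‖c t‖ = 1) (A N B : ℝ)
    (hA : 0 ≤ A) (hN : 0 ≤ N)
    (hf : ∀ t ∈ W, ∀ s ∈ W, ‖f (t - s)‖ ≤ A * (N / (1 + ((t - s : ℤ) : ℝ) ^ 2) + B)) :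
    ‖∑ t ∈ W, ∑ s ∈ W, c t * conj (c s) * f (t - s)‖ ≤
      A * (5 * N * W.card + B * (W.card : ℝ) ^ 2) := by
  calc ‖∑ t ∈ W, ∑ s ∈ W, c t * conj (c s) * f (t - s)‖
      ≤ ∑ t ∈ W, ∑ s ∈ W, A * (N / (1 + ((t - s : ℤ) : ℝ) ^ 2) + B) := by
        refine (norm_sum_le _ _).trans (Finset.sum_le_sum fun t ht => ?_)
        refine (norm_sum_le _ _).trans (Finset.sum_le_sum fun s hs => ?_)
        rw [norm_mul, norm_mul, RCLike.norm_conj, hc, hc, one_mul, one_mul]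
        exact hf t ht s hs
    _ = ∑ t ∈ W, (A * N * ∑ s ∈ W, 1 / (1 + ((t - s : ℤ) : ℝ) ^ 2) + A * B * W.card) := by
        refine Finset.sum_congr rfl fun t _ => ?_
        rw [Finset.mul_sum, ← nsmul_eq_mul' , ← Finset.sum_const, ← Finset.sum_add_distrib]
        refine Finset.sum_congr rfl fun s _ => ?_
        ring
    _ ≤ ∑ t ∈ W, (A * N * 5 + A * B * W.card) := by
        refine Finset.sum_le_sum fun t _ => ?_
        have := mul_le_mul_of_nonneg_left (lvw_inv_sq_shift W t) (mul_nonneg hA hN)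
        linarith
    _ = A * (5 * N * W.card + B * (W.card : ℝ) ^ 2) := by
        rw [Finset.sum_const, nsmul_eq_mul]
        ring

/-- Step 0: windows.  `H = Λ² N² / Y²`. -/
theorem LV_window (C0 : ℝ) (hC0 : 1 ≤ C0) : ∃ C : ℝ, 1 ≤ C ∧ ∀ (d : Dat), d.Good C0 →
    ∀ (Λ Y : ℝ) (a : ℕ → ℂ) (W : Finset ℤ) (t0 : ℤ), 1 ≤ Λ → 0 < Y → (∀ n, ‖a n‖ ≤ Λ * d.ω n) →
    (∀ t ∈ W, (t0 : ℝ) ≤ t ∧ (t : ℝ) ≤ t0 + d.N / C) → (∀ t ∈ W, Y ≤ ‖d.D a t‖) →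
    C * Λ ^ 2 * d.N * d.Err ≤ Y ^ 2 →
    (W.card : ℝ) ≤ C * (Λ ^ 2 * d.N ^ 2 / Y ^ 2) := by
  refine ⟨10 * C0 ^ 2, by nlinarith, ?_⟩
  intro d hd Λ Y a W t0 hΛ hY ha hW0 hW hErr
  obtain ⟨c, hc, hdual⟩ := LV_dual C0 d hd Λ Y a W hΛ hY ha hW
  have hN : 0 < d.N := by linarith [hd.hN]
  have hE : 0 < d.Err := by linarith [hd.hErr]
  have hC0' : 0 < C0 := by linarith
  have hf : ∀ t ∈ W, ∀ s ∈ W,
      ‖d.k (t - s)‖ ≤ C0 * (d.N / (1 + ((t - s : ℤ) : ℝ) ^ 2) + d.Err) := by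
    intro t ht s hs
    refine LV_kb0 C0 d hd (t - s) ?_
    have h1 := hW0 t ht
    have h2 := hW0 s hs
    have h3 : |((t - s : ℤ) : ℝ)| ≤ d.N / (10 * C0 ^ 2) := by
      push_cast
      rw [abs_le]
      constructor <;> linarith
    have h4 : C0 * (d.N / (10 * C0 ^ 2)) < 2 * d.N := by
      have : C0 * (d.N / (10 * C0 ^ 2)) = d.N / (10 * C0) := by
        field_simp
      rw [this, div_lt_iff₀ (by positivity)]
      nlinarith [mul_le_mul_of_nonneg_left hC0 hN.le]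
    exact lt_of_le_of_lt (mul_le_mul_of_nonneg_left h3 hC0'.le) h4
  have hd2 := lvw_double W d.k c hc C0 d.N d.Err hC0'.le hN.le hf
  rcases Nat.eq_zero_or_pos W.card with h0 | hpos
  · rw [h0]
    simp only [Nat.cast_zero]
    positivity
  have hp : (0 : ℝ) < W.card := by exact_mod_cast hpos
  have h5 : ((W.card : ℝ) * Y) ^ 2 ≤
      Λ ^ 2 * (C0 * d.N) * (C0 * (5 * d.N * W.card + d.Err * (W.card : ℝ) ^ 2)) :=
    hdual.trans (mul_le_mul_of_nonneg_left hd2 (by positivity))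
  have h6 : Λ ^ 2 * (C0 * d.N) * (C0 * (d.Err * (W.card : ℝ) ^ 2)) ≤ (W.card : ℝ) ^ 2 * Y ^ 2 / 2 := by
    have : (W.card : ℝ) ^ 2 * (10 * C0 ^ 2 * Λ ^ 2 * d.N * d.Err) ≤ (W.card : ℝ) ^ 2 * Y ^ 2 :=
      mul_le_mul_of_nonneg_left hErr (by positivity)
    have hpos' : 0 ≤ (W.card : ℝ) ^ 2 * (C0 ^ 2 * Λ ^ 2 * d.N * d.Err) := by positivity
    nlinarith
  have h7 : (W.card : ℝ) ^ 2 * Y ^ 2 ≤ 10 * C0 ^ 2 * (Λ ^ 2 * d.N ^ 2) * W.card := by nlinarith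
  have h8 : (W.card : ℝ) * Y ^ 2 ≤ 10 * C0 ^ 2 * (Λ ^ 2 * d.N ^ 2) := by
    have : (W.card : ℝ) * ((W.card : ℝ) * Y ^ 2) ≤ (W.card : ℝ) * (10 * C0 ^ 2 * (Λ ^ 2 * d.N ^ 2)) := by
      nlinarith
    exact le_of_mul_le_mul_left this hp
  rw [← mul_div_assoc, le_div_iff₀ (by positivity)]
  exact h8

/-- Theorem 1' (Halász). -/
theorem LV_halasz (C0 : ℝ) (hC0 : 1 ≤ C0) : ∃ C : ℝ, 1 ≤ C ∧ ∀ (d : Dat), d.Good C0 →
    ∀ (Λ Y H : ℝ) (a : ℕ → ℂ) (W : Finset ℤ), 1 ≤ Λ → 0 < Y → (∀ n, ‖a n‖ ≤ Λ * d.ω n) →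
    (∀ t ∈ W, (0 : ℝ) ≤ t ∧ (t : ℝ) ≤ d.M * d.N) → (∀ t ∈ W, Y ≤ ‖d.D a t‖) →
    H = Λ ^ 2 * d.N ^ 2 / Y ^ 2 →
    C * H * (Real.sqrt (d.N * d.M) + d.Err) ≤ d.N →
    (W.card : ℝ) ≤ C * H := by
  refine ⟨10 * C0 ^ 5, by nlinarith [one_le_pow₀ hC0 (n := 5)], ?_⟩
  intro d hd Λ Y H a W hΛ hY ha hW0 hW hH hcond
  obtain ⟨c, hc, hdual⟩ := LV_dual C0 d hd Λ Y a W hΛ hY ha hW
  have hN : 0 < d.N := by linarith [hd.hN]
  have hM : 1 ≤ d.M := hd.hM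
  have hE : 0 < d.Err := by linarith [hd.hErr]
  have hC0' : 0 < C0 := by linarith
  set B : ℝ := Real.sqrt (d.N * d.M) + d.Err with hB
  have hB0 : 0 < B := by positivity
  have hf : ∀ t ∈ W, ∀ s ∈ W,
      ‖d.k (t - s)‖ ≤ C0 ^ 4 * (d.N / (1 + ((t - s : ℤ) : ℝ) ^ 2) + B) := by
    intro t ht s hs
    have h1 := hW0 t ht
    have h2 := hW0 s hs
    have h3 : |((t - s : ℤ) : ℝ)| ≤ d.N * d.M := by
      push_cast
      rw [abs_le]
      constructor <;> nlinarith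
    have h4 : |((t - s : ℤ) : ℝ)| ≤ 8 * d.M * d.N := by nlinarith
    refine (LV_kb C0 d hd (t - s) h4).trans (mul_le_mul_of_nonneg_left ?_ (by positivity))
    have := Real.sqrt_le_sqrt h3
    rw [hB]
    linarith
  have hd2 := lvw_double W d.k c hc (C0 ^ 4) d.N B (by positivity) hN.le hf
  rcases Nat.eq_zero_or_pos W.card with h0 | hpos
  · rw [h0, hH]
    simp only [Nat.cast_zero]
    positivity
  have hp : (0 : ℝ) < W.card := by exact_mod_cast hpos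
  have h5 : ((W.card : ℝ) * Y) ^ 2 ≤
      Λ ^ 2 * (C0 * d.N) * (C0 ^ 4 * (5 * d.N * W.card + B * (W.card : ℝ) ^ 2)) :=
    hdual.trans (mul_le_mul_of_nonneg_left hd2 (by positivity))
  have hHY : H * Y ^ 2 = Λ ^ 2 * d.N ^ 2 := by
    rw [hH]
    field_simp
  -- 10 C0^5 Λ² N B ≤ Y²
  have hc1 : 10 * C0 ^ 5 * (Λ ^ 2 * d.N * B) ≤ Y ^ 2 := by
    have h : 10 * C0 ^ 5 * H * B * Y ^ 2 ≤ d.N * Y ^ 2 :=
      mul_le_mul_of_nonneg_right hcond (by positivity)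
    have h' : d.N * (10 * C0 ^ 5 * (Λ ^ 2 * d.N * B)) ≤ d.N * Y ^ 2 := by
      calc d.N * (10 * C0 ^ 5 * (Λ ^ 2 * d.N * B)) = 10 * C0 ^ 5 * B * (Λ ^ 2 * d.N ^ 2) := by ring
        _ = 10 * C0 ^ 5 * H * B * Y ^ 2 := by rw [← hHY]; ring
        _ ≤ d.N * Y ^ 2 := h
    exact le_of_mul_le_mul_left h' hN
  have h6 : Λ ^ 2 * (C0 * d.N) * (C0 ^ 4 * (B * (W.card : ℝ) ^ 2)) ≤ (W.card : ℝ) ^ 2 * Y ^ 2 / 2 := by
    have : (W.card : ℝ) ^ 2 * (10 * C0 ^ 5 * (Λ ^ 2 * d.N * B)) ≤ (W.card : ℝ) ^ 2 * Y ^ 2 :=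
      mul_le_mul_of_nonneg_left hc1 (by positivity)
    have hpos' : 0 ≤ (W.card : ℝ) ^ 2 * (C0 ^ 5 * (Λ ^ 2 * d.N * B)) := by positivity
    nlinarith
  have h7 : (W.card : ℝ) ^ 2 * Y ^ 2 ≤ 10 * C0 ^ 5 * (Λ ^ 2 * d.N ^ 2) * W.card := by nlinarith
  have h8 : (W.card : ℝ) * Y ^ 2 ≤ 10 * C0 ^ 5 * H * Y ^ 2 := by
    have : (W.card : ℝ) * ((W.card : ℝ) * Y ^ 2) ≤ (W.card : ℝ) * (10 * C0 ^ 5 * (Λ ^ 2 * d.N ^ 2)) := by
      nlinarith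
    have h9 := le_of_mul_le_mul_left this hp
    rw [mul_assoc (10 * C0 ^ 5), hHY]
    exact h9
  exact le_of_mul_le_mul_right h8 (by positivity)

end Pool.Agent.LibSX15
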