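import Pool.Agent.LibSX15.ZB13

/-!
LibSX15, block ZS: the interface between helper57 (ZSA*) and helper89 (ZSB*).
-/

set_option autoImplicit false

namespace Pool.Agent.LibSX15

open Finset

/-- helper89: Poisson + stationary phase: the off-diagonal part of the local mean. `B` = the bound `X ≤ B T`
(an absolute constant, chosen in part ZSA). -/
theorem ZSB_main (ω W : ℝ → ℝ) (hω : Bump ω) (hW : BumpW W) (B : ℝ) (hB : 1 ≤ B) :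
    ∃ C T0 : ℝ, 1 ≤ C ∧ 3 ≤ T0 ∧ ∀ T : ℝ, T0 ≤ T → ∀ G : ℝ,
    T ^ (1 / 5 : ℝ) ≤ G → G ≤ T ^ (1 / 2 : ℝ) → ∀ X : ℝ, 1 ≤ X → X ≤ B * T →
    ∃ (ι : Finset ℕ) (K : ℕ → ℝ) (c : ℕ → ℕ → ℝ → ℂ),
      (ι.card : ℝ) ≤ C * Real.log T ∧
      (∀ i ∈ ι, 0 < K i ∧ K i ≤ C * T / G ^ 2) ∧
      (∀ i ∈ ι, ∀ n : ℕ, ∀ t ∈ Set.Icc T (2 * T), ‖c i n t‖ ≤ C * n.divisors.card) ∧
      (∀ i ∈ ι, ∀ n : ℕ, ∀ t ∈ Set.Icc T (2 * T), c i n t ≠ 0 → K i / 2000 ≤ n ∧ (n : ℝ) ≤ K i) ∧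
      (∀ i ∈ ι, ∀ n : ℕ, ∀ t ∈ Set.Icc T (2 * T), ∀ t' ∈ Set.Icc T (2 * T),
        ‖c i n t - c i n t'‖ ≤ C * n.divisors.card * |t - t'| / T) ∧
      ∀ t ∈ Set.Icc T (2 * T),
        X⁻¹ * ‖∑ h ∈ Finset.Icc 1 ⌊2 * X⌋₊, ZF ω W G X t h‖ ≤
          C * (1 + ∑ i ∈ ι, (T * K i) ^ (-1 / 4 : ℝ) * ‖∑ n ∈ Finset.Icc 1 ⌊K i⌋₊, c i n t * ee (-zph n t)‖) := by
  exact ZSB_main' ω W hω hW B hB

end Pool.Agent.LibSX15
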