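import Pool.Agent.LibSX15.KN_fin
import Pool.Agent.LibSX15.LVW
import Pool.Agent.LibSX15.LVD4
import Pool.Agent.LibSX15.ZSA9
import Pool.Agent.LibSX15.AS14
import Pool.Agent.LibSX15.AS15
import Pool.Agent.LibSX15.AS16

/-! LibSX15: the final theorem. -/

set_option autoImplicit false

namespace Pool.Agent.LibSX15

open Finset

theorem asf_kernel : ∃ C0, KP C0 := by
  obtain ⟨C0, h1, h2⟩ := KN_kernel
  exact ⟨C0, h1, h2⟩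

theorem asf_halasz (C0 : ℝ) (h : 1 ≤ C0) : ∃ C, HP C0 C := by
  obtain ⟨C, h1, h2⟩ := LV_halasz C0 h
  exact ⟨C, h1, h2⟩

theorem asf_main (C0 : ℝ) (h : 1 ≤ C0) : ∃ C k, MP C0 C k := by
  obtain ⟨C, k, h1, h2⟩ := LV_main C0 h
  exact ⟨C, k, h1, h2⟩

theorem asf_zeta : ∃ C T0, ZP C T0 := by
  obtain ⟨C, T0, h1, h2, h3⟩ := zeta_to_S'
  refine ⟨C, T0, h1, h2, fun T hT G hG1 hG2 => ?_⟩
  obtain ⟨ι, K, c, a1, a2, a3, a4, a5, a6⟩ := h3 T hT G hG1 hG2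
  exact ⟨ι, K, c, a1, a2, fun i hi => ⟨a3 i hi, a4 i hi, a5 i hi⟩, a6⟩

/-- Power savings for all the moments between the fourth and the twelfth. -/
theorem moments (A : ℝ) (hA : 4 < A) (hA2 : A < 12) : ∃ δ T0 : ℝ, 0 < δ ∧ 1 ≤ T0 ∧ ∀ T : ℝ, T0 ≤ T →
    ∫ t in (0:ℝ)..T, ‖riemannZeta (1 / 2 + (t : ℂ) * Complex.I)‖ ^ A ≤ T ^ (1 + (A - 4) / 8 - δ) := by
  obtain ⟨C0, hKP⟩ := asf_kernel
  obtain ⟨C2, hHP⟩ := asf_halasz C0 hKP.1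
  obtain ⟨C3, k, hMP⟩ := asf_main C0 hKP.1
  obtain ⟨C4, T4, hZP⟩ := asf_zeta
  obtain ⟨x, δ, T0, hx, hx1, hδ, hT0, h1⟩ := as14 C0 C2 C3 C4 T4 k hKP hHP hMP hZP A hA hA2
  obtain ⟨T1, hT1, h2⟩ := as14b C4 T4 hZP
  obtain ⟨δ', N0, hδ', h3⟩ := as15 A x δ (max T0 T1) hA hx hx1 hδ
    (fun T hT => h1 T (le_trans (le_max_left _ _) hT)) (fun T hT => h2 T (le_trans (le_max_right _ _) hT))
  exact as16 A δ' N0 hA hδ' h3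

end Pool.Agent.LibSX15
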