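import Pool.Agent.LibSX15.Defs

/-!
LibSX15, assembly block (helper15): definitions.
-/

set_option autoImplicit false

namespace Pool.Agent.LibSX15

open Finset

/-- `t = 2 π u²` -/
noncomputable def tt (u : ℝ) : ℝ := 2 * Real.pi * u ^ 2

/-- the derivative in `u` of the phase `zph n (2 π u²)` -/
noncomputable def zlam (u : ℝ) (n : ℕ) : ℝ := 2 * Real.sqrt n / Real.sqrt (1 + n / (12 * u ^ 2))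

/-- the sum `S` -/
noncomputable def SS (K : ℝ) (c : ℕ → ℝ → ℂ) (t : ℝ) : ℂ :=
  ∑ n ∈ Finset.Icc 1 ⌊K⌋₊, c n t * ee (-zph n t)

/-- the linearised sum -/
noncomputable def SL (K : ℝ) (c : ℕ → ℝ → ℂ) (u0 v : ℝ) : ℂ :=
  ∑ n ∈ Finset.Icc 1 ⌊K⌋₊, c n (tt u0) * ee (-zph n (tt u0)) * ee (-(v * zlam u0 n))

/-- the hypothesis on the coefficients -/
structure CC (C T K : ℝ) (c : ℕ → ℝ → ℂ) : Prop where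
  b : ∀ n : ℕ, ∀ t ∈ Set.Icc T (2 * T), ‖c n t‖ ≤ C * n.divisors.card
  s : ∀ n : ℕ, ∀ t ∈ Set.Icc T (2 * T), c n t ≠ 0 → K / 2000 ≤ n ∧ (n : ℝ) ≤ K
  l : ∀ n : ℕ, ∀ t ∈ Set.Icc T (2 * T), ∀ t' ∈ Set.Icc T (2 * T),
    ‖c n t - c n t'‖ ≤ C * n.divisors.card * |t - t'| / T

/-- the coefficients of the linearised sum, as data for the large values theorem -/
noncomputable def aa (c : ℕ → ℝ → ℂ) (u0 : ℝ) (n : ℕ) : ℂ :=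
  (starRingEnd ℂ) (c n (tt u0) * ee (-zph n (tt u0)))

open scoped Classical in
/-- the truncated second moment of `S` -/
noncomputable def TT (K : ℝ) (c : ℕ → ℝ → ℂ) (T Y : ℝ) : ℝ :=
  ∫ t in T..(2 * T), if Y ≤ ‖SS K c t‖ then ‖SS K c t‖ ^ 2 else 0

open scoped Classical in
/-- the integers `r` in `[T, 2T]` with a large value of zeta at distance `≤ 1/2` -/
noncomputable def RS (T V : ℝ) : Finset ℤ :=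
  (Finset.Icc ⌈T⌉ ⌊2 * T⌋).filter fun r : ℤ => ∃ v ∈ Set.Icc (-1 / 2 : ℝ) (1 / 2),
    V ≤ ‖riemannZeta (1 / 2 + ((r + v : ℝ) : ℂ) * Complex.I)‖

/-- `κ = 1 / (12 √K)` -/
noncomputable def kap (K : ℝ) : ℝ := 1 / (12 * Real.sqrt K)

/-- the kernel theorem (block KN) as a proposition -/
def KP (C0 : ℝ) : Prop :=
  1 ≤ C0 ∧ ∀ (N M u : ℝ), 2 ≤ N → 1 ≤ M → M ≤ N → 1 ≤ u → N ≤ u ^ 2 / 100 →
    ∃ d : Dat, d.Good C0 ∧ d.N = N ∧ d.M = M ∧ d.ε = 3 * N ^ 2 / u ^ 2 ∧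
      d.Err = C0 * (1 + M * (3 * N ^ 2 / u ^ 2)) ^ 2 * (1 + Real.log M) ∧
      (∀ n : ℕ, N / 2000 ≤ n → (n : ℝ) ≤ N → n ∈ d.S ∧ d.ω n = 1) ∧
      (∀ n ∈ d.S, d.ξ n = zxi N u n)

/-- Theorem 1' (Halász) as a proposition -/
def HP (C0 C : ℝ) : Prop :=
  1 ≤ C ∧ ∀ (d : Dat), d.Good C0 →
    ∀ (Λ Y H : ℝ) (a : ℕ → ℂ) (W : Finset ℤ), 1 ≤ Λ → 0 < Y → (∀ n, ‖a n‖ ≤ Λ * d.ω n) →
    (∀ t ∈ W, (0 : ℝ) ≤ t ∧ (t : ℝ) ≤ d.M * d.N) → (∀ t ∈ W, Y ≤ ‖d.D a t‖) →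
    H = Λ ^ 2 * d.N ^ 2 / Y ^ 2 →
    C * H * (Real.sqrt (d.N * d.M) + d.Err) ≤ d.N →
    (W.card : ℝ) ≤ C * H

/-- Theorem 1 (the large values theorem) as a proposition -/
def MP (C0 C : ℝ) (k : ℕ) : Prop :=
  1 ≤ C ∧ ∀ (d : Dat), d.Good C0 →
    ∀ (Λ Y H : ℝ) (a : ℕ → ℂ) (W : Finset ℤ), 1 ≤ Λ → d.ε ≤ Λ → Real.log d.M + 1 ≤ Λ →
    0 < Y → (∀ n, ‖a n‖ ≤ Λ * d.ω n) →
    (∀ t ∈ W, (0 : ℝ) ≤ t ∧ (t : ℝ) ≤ d.M * d.N) → (∀ t ∈ W, Y ≤ ‖d.D a t‖) →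
    H = Λ ^ 2 * d.N ^ 2 / Y ^ 2 →
    C * H * d.Err ≤ d.N → d.Err ^ 2 ≤ d.N →
    C * Λ ^ k * d.M ^ 6 * H ≤ d.N →
    (W.card : ℝ) ≤ C * Λ ^ k * Real.sqrt (max 1 (H ^ 2 / d.N)) * H * d.M ^ (19 / 20 : ℝ)

open scoped Classical in
/-- the theorem `zeta_to_S` (block ZS) as a proposition -/
def ZP (C T0 : ℝ) : Prop :=
  1 ≤ C ∧ 3 ≤ T0 ∧ ∀ T : ℝ, T0 ≤ T → ∀ G : ℝ,
    T ^ (1 / 5 : ℝ) ≤ G → G ≤ T ^ (1 / 2 : ℝ) →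
    ∃ (ι : Finset ℕ) (K : ℕ → ℝ) (c : ℕ → ℕ → ℝ → ℂ),
      (ι.card : ℝ) ≤ C * (Real.log T) ^ 2 ∧
      (∀ i ∈ ι, 0 < K i ∧ K i ≤ C * T / G ^ 2) ∧
      (∀ i ∈ ι, CC C T (K i) (c i)) ∧
      ∀ V : ℝ, 1 ≤ V → ∀ t ∈ Set.Icc T (2 * T),
        V ^ 2 * (((Finset.Icc ⌈t - G / 2⌉ ⌊t + G / 2⌋).filter fun r : ℤ =>
          ∃ v ∈ Set.Icc (-1 / 2 : ℝ) (1 / 2),
            V ≤ ‖riemannZeta (1 / 2 + ((r + v : ℝ) : ℂ) * Complex.I)‖).card : ℝ) ≤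
        C * (Real.log T) ^ 3 * (G + G * ∑ i ∈ ι, (T * K i) ^ (-1 / 4 : ℝ) * ‖SS (K i) (c i) t‖)

end Pool.Agent.LibSX15
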