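import Pool.Agent.LibSX15.LVDefs

set_option autoImplicit false

namespace Pool.Agent.LibSX15

open Finset ComplexConjugate

theorem LVC8_fib (W : Finset ℤ) (L : ℕ) (K : Finset ℤ) :
    ∑ κ ∈ K, mu W L κ = (W.filter (fun t => t / (L : ℤ) ∈ K)).card := by
  classical
  rw [Finset.card_eq_sum_card_fiberwise (s := W.filter (fun t => t / (L : ℤ) ∈ K)) (t := K)
    (f := fun t => t / (L : ℤ)) (fun t ht => (Finset.mem_filter.1 (Finset.mem_coe.1 ht)).2)]
  refine Finset.sum_congr rfl fun κ hκ => ?_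
  unfold mu
  congr 1
  ext t
  simp only [Finset.mem_filter]
  constructor
  · rintro ⟨h1, h2⟩
    exact ⟨⟨h1, by rw [h2]; exact hκ⟩, h2⟩
  · rintro ⟨⟨h1, _⟩, h2⟩
    exact ⟨h1, h2⟩

/-- Row LVC8. All elements of `W` in the clusters of `K` lie in an interval of length `A P N + L ≤ 2 A P N`, so there
are at most `C1 H (1 + 2 A P) ≤ 3 A C1 P H`; `∑ u ≤ ∑ mu`; and `u κ ≠ 0` forces `mu W L κ ≥ 1`. -/
theorem LV_sumu (C1 A : ℝ) (hC1 : 1 ≤ C1) (hA : 1 ≤ A) : ∃ C : ℝ, 1 ≤ C ∧ ∀ (N H : ℝ)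
    (W : Finset ℤ), 1 ≤ N → 0 ≤ H → Win C1 N H W → ∀ (L P : ℕ) (K : Finset ℤ) (u : ℤ → ℝ), 1 ≤ L →
    L ≤ P → (∀ κ ∈ K, 0 ≤ u κ) → (∀ κ ∈ K, u κ ≤ mu W L κ) →
    (∀ κ ∈ K, ∀ κ' ∈ K, |((L * (κ - κ') : ℤ) : ℝ)| ≤ A * P * N) →
    ((∑ κ ∈ K, (mu W L κ : ℝ)) ≤ C * P * H) ∧ ((∑ κ ∈ K, u κ) ≤ C * P * H) ∧
      (((K.filter (fun κ => u κ ≠ 0)).card : ℝ) ≤ C * P * H) := by
  classical
  refine ⟨3 * A * C1, by nlinarith, ?_⟩
  intro N H W hN hH hW L P K u hL hLP hu0 hu hK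
  have hL0 : (1 : ℝ) ≤ L := by exact_mod_cast hL
  have hLP' : (L : ℝ) ≤ P := by exact_mod_cast hLP
  have hP1 : (1 : ℝ) ≤ P := hL0.trans hLP'
  have hmain : (∑ κ ∈ K, (mu W L κ : ℝ)) ≤ 3 * A * C1 * P * H := by
    rcases K.eq_empty_or_nonempty with he | hne
    · rw [he, Finset.sum_empty]
      positivity
    · set κ0 := K.min' hne with hκ0
      have hmem : κ0 ∈ K := Finset.min'_mem _ _
      have h1 : ((∑ κ ∈ K, mu W L κ : ℕ) : ℝ) ≤
          ((W.filter (fun t : ℤ => ((L * κ0 : ℤ) : ℝ) ≤ t ∧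
            (t : ℝ) ≤ ((L * κ0 : ℤ) : ℝ) + (A * P * N + L))).card : ℝ) := by
        rw [LVC8_fib]
        have : (W.filter (fun t => t / (L : ℤ) ∈ K)).card ≤
            (W.filter (fun t : ℤ => ((L * κ0 : ℤ) : ℝ) ≤ t ∧
              (t : ℝ) ≤ ((L * κ0 : ℤ) : ℝ) + (A * P * N + L))).card := by
          refine Finset.card_le_card ?_
          intro t ht
          rw [Finset.mem_filter] at ht ⊢
          obtain ⟨htW, htK⟩ := ht
          have hLZ : (0 : ℤ) < L := by exact_mod_cast hL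
          have h2 : (L : ℤ) * (t / L) ≤ t := Int.mul_ediv_self_le hLZ.ne'
          have h3 : t < (L : ℤ) * (t / L) + L := Int.lt_mul_ediv_self_add hLZ
          have h4 : κ0 ≤ t / (L : ℤ) := Finset.min'_le _ _ htK
          have h5 : (L : ℤ) * κ0 ≤ (L : ℤ) * (t / L) := mul_le_mul_of_nonneg_left h4 hLZ.le
          have h6 := hK _ htK _ hmem
          have h7 := (abs_le.1 h6).2
          refine ⟨htW, ?_, ?_⟩
          · exact_mod_cast h5.trans h2
          · have h8 : (t : ℝ) < (((L : ℤ) * (t / L) + L : ℤ) : ℝ) := by exact_mod_cast h3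
            push_cast at h7 h8 ⊢
            linarith
        exact_mod_cast this
      have h2 := hW ((L * κ0 : ℤ) : ℝ) (A * P * N + L) (by positivity)
      have h3 : 1 + (A * P * N + L) / N ≤ 3 * A * P := by
        have e1 : (A * P * N + L) / N = A * P + L / N := by
          field_simp
        have e2 : (L : ℝ) / N ≤ P := by
          rw [div_le_iff₀ (by linarith)]
          nlinarith
        have e3 : 1 ≤ A * P := by nlinarith
        have e4 : (P : ℝ) ≤ A * P := by nlinarith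
        rw [e1]
        linarith
      push_cast at h1 h2
      calc (∑ κ ∈ K, (mu W L κ : ℝ)) ≤ C1 * H * (1 + (A * P * N + L) / N) := h1.trans h2
        _ ≤ C1 * H * (3 * A * P) := mul_le_mul_of_nonneg_left h3 (by positivity)
        _ = 3 * A * C1 * P * H := by ring
  refine ⟨hmain, (Finset.sum_le_sum hu).trans hmain, ?_⟩
  refine le_trans ?_ hmain
  calc ((K.filter (fun κ => u κ ≠ 0)).card : ℝ)
      = ∑ κ ∈ K.filter (fun κ => u κ ≠ 0), (1 : ℝ) := by
        rw [Finset.sum_const, nsmul_eq_mul, mul_one]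
    _ ≤ ∑ κ ∈ K.filter (fun κ => u κ ≠ 0), (mu W L κ : ℝ) := by
        refine Finset.sum_le_sum fun κ hκ => ?_
        rw [Finset.mem_filter] at hκ
        have h1 : 0 < u κ := lt_of_le_of_ne (hu0 κ hκ.1) (Ne.symm hκ.2)
        have h2 : (0 : ℝ) < mu W L κ := h1.trans_le (hu κ hκ.1)
        have h3 : 0 < mu W L κ := by exact_mod_cast h2
        exact_mod_cast h3
    _ ≤ ∑ κ ∈ K, (mu W L κ : ℝ) :=
        Finset.sum_le_sum_of_subset_of_nonneg (Finset.filter_subset _ _)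
          (fun _ _ _ => Nat.cast_nonneg _)

end Pool.Agent.LibSX15
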