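import Pool.Agent.LibSX15.LVE2b

/-! LibSX15, LVE2c: energy majorant -/

set_option autoImplicit false

namespace Pool.Agent.LibSX15

open Finset

/-- The energy as a sum over `x₁, x₂, x₃` of the local sums at `z = x₁ + x₂ - x₃`. -/
private theorem lve2c_En_eq (P : ℕ) (X : Finset ℤ) (u : ℤ → ℝ) :
    En P X u = ∑ x₁ ∈ X, ∑ x₂ ∈ X, ∑ x₃ ∈ X, u x₁ * u x₂ * u x₃ *
      (∑ x ∈ X, if |x₁ + x₂ - x₃ - x| < (P : ℤ) then u x else 0) := by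
  unfold En Qe
  simp only [Finset.sum_product]
  -- the sums are over `x₁, x₃, x₄, x₂`
  refine Finset.sum_congr rfl fun x₁ _ => ?_
  have h1 : ∀ x₃ ∈ X, (∑ x₄ ∈ X, ∑ x₂ ∈ X,
      if |x₁ - x₃ - (x₄ - x₂)| < (P : ℤ) then u x₁ * u x₃ * (u x₄ * u x₂) else 0) =
      ∑ x₂ ∈ X, u x₁ * u x₂ * u x₃ *
        (∑ x ∈ X, if |x₁ + x₂ - x₃ - x| < (P : ℤ) then u x else 0) := by
    intro x₃ _
    rw [Finset.sum_comm]
    refine Finset.sum_congr rfl fun x₂ _ => ?_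
    rw [Finset.mul_sum]
    refine Finset.sum_congr rfl fun x₄ _ => ?_
    have e : x₁ - x₃ - (x₄ - x₂) = x₁ + x₂ - x₃ - x₄ := by ring
    rw [e]
    split_ifs
    · ring
    · ring
  rw [Finset.sum_congr rfl h1, Finset.sum_comm]

/-- Sum the previous lemma over `z = x₁ - x₃ + x₂` with the weights `u x₁ u x₃ u x₂`. -/
theorem lve2_energy (P L : ℕ) (hL : 1 ≤ L) (hLP : L ≤ P) (X W : Finset ℤ) (u : ℤ → ℝ)
    (hsep : ∀ x ∈ X, ∀ x' ∈ X, x ≠ x' → (L : ℤ) ≤ |x - x'|)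
    (hu0 : ∀ x ∈ X, 0 ≤ u x)
    (hu : ∀ x ∈ X, u x ≤ ((W.filter fun t => x ≤ t ∧ t < x + L).card : ℝ))
    (f : ℤ → ℝ) (hf : ∀ t, 0 ≤ f t) (Y2 : ℝ) (hY : 0 ≤ Y2) (hW : ∀ t ∈ W, Y2 ≤ f t) :
    En P X u * Y2 ≤
      2 * ∑ x₁ ∈ X, ∑ x₂ ∈ X, ∑ x₃ ∈ X, u x₁ * u x₂ * u x₃ * Fm P f (x₁ + x₂ - x₃) := by
  rw [lve2c_En_eq]
  rw [Finset.sum_mul, Finset.mul_sum]
  refine Finset.sum_le_sum fun x₁ h₁ => ?_
  rw [Finset.sum_mul, Finset.mul_sum]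
  refine Finset.sum_le_sum fun x₂ h₂ => ?_
  rw [Finset.sum_mul, Finset.mul_sum]
  refine Finset.sum_le_sum fun x₃ h₃ => ?_
  have h := lve2_local P L hL hLP X W u hsep hu f hf Y2 hY hW (x₁ + x₂ - x₃)
  have hc : 0 ≤ u x₁ * u x₂ * u x₃ := mul_nonneg (mul_nonneg (hu0 _ h₁) (hu0 _ h₂)) (hu0 _ h₃)
  rw [mul_assoc (u x₁ * u x₂ * u x₃)]
  refine le_trans (mul_le_mul_of_nonneg_left h hc) (le_of_eq ?_)
  ring

end Pool.Agent.LibSX15
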