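import Pool.Agent.LibSX15.LVE0

/-! LibSX15, LVE3a: opening the squares with flatness -/

set_option autoImplicit false

namespace Pool.Agent.LibSX15

open Finset

private theorem lve3a_sq {ι : Type*} (I : Finset ι) (c : ι → ℂ) (x : ι → ℝ) :
    ((‖∑ i ∈ I, c i * ee (x i)‖ ^ 2 : ℝ) : ℂ) =
      ∑ i ∈ I, ∑ j ∈ I, c i * (starRingEnd ℂ) (c j) * ee (x i - x j) := by
  have h := Complex.mul_conj' (∑ i ∈ I, c i * ee (x i))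
  rw [map_sum, sum_mul_sum] at h
  push_cast
  rw [← h]
  refine sum_congr rfl fun i _ => sum_congr rfl fun j _ => ?_
  rw [map_mul, ee_sub]
  ring

private theorem lve3a_comm4 {α β : Type*} (A : Finset α) (B : Finset β)
    (f : α → α → β → β → ℂ) :
    ∑ n ∈ A, ∑ m ∈ A, ∑ i ∈ B, ∑ j ∈ B, f n m i j =
      ∑ i ∈ B, ∑ j ∈ B, ∑ n ∈ A, ∑ m ∈ A, f n m i j := by
  calc ∑ n ∈ A, ∑ m ∈ A, ∑ i ∈ B, ∑ j ∈ B, f n m i j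
      = ∑ p ∈ A ×ˢ A, ∑ q ∈ B ×ˢ B, f p.1 p.2 q.1 q.2 := by
        rw [sum_product]
        refine sum_congr rfl fun n _ => sum_congr rfl fun m _ => ?_
        rw [sum_product]
    _ = ∑ q ∈ B ×ˢ B, ∑ p ∈ A ×ˢ A, f p.1 p.2 q.1 q.2 := sum_comm
    _ = _ := by
        rw [sum_product]
        refine sum_congr rfl fun n _ => sum_congr rfl fun m _ => ?_
        rw [sum_product]

private theorem lve3a_Fj (P : ℕ) (θ : ℝ) :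
    ((Fj P θ : ℝ) : ℂ) = (∑ a ∈ range (4 * P), ∑ b ∈ range (4 * P),
      ee (θ * (a : ℝ) - θ * (b : ℝ))) / (4 * P) := by
  have h := lve3a_sq (range (4 * P)) (fun _ => (1 : ℂ)) (fun a => θ * (a : ℝ))
  simp only [one_mul, map_one] at h
  unfold Fj
  rw [Complex.ofReal_div, h]
  push_cast
  rfl

private theorem lve3a_Fm (d : Dat) (a : ℕ → ℂ) (P : ℕ) (z : ℤ) :
    ((Fm P (fun t => ‖d.D a t‖ ^ 2) z : ℝ) : ℂ) =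
      ∑ n ∈ d.S, ∑ m ∈ d.S, a n * (starRingEnd ℂ) (a m) * (Fj P (d.ξ n - d.ξ m) : ℂ) *
        ee ((d.ξ n - d.ξ m) * (z : ℝ)) := by
  have h1 : ∀ r s : ℕ, ((‖d.D a (z + r - s)‖ ^ 2 : ℝ) : ℂ) =
      ∑ n ∈ d.S, ∑ m ∈ d.S, a n * (starRingEnd ℂ) (a m) * ee ((d.ξ n - d.ξ m) * (z : ℝ)) *
        ee ((d.ξ n - d.ξ m) * (r : ℝ) - (d.ξ n - d.ξ m) * (s : ℝ)) := by
    intro r s
    unfold Dat.D
    rw [lve3a_sq d.S a (fun n => d.ξ n * ((z + r - s : ℤ) : ℝ))]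
    refine sum_congr rfl fun n _ => sum_congr rfl fun m _ => ?_
    have e : d.ξ n * ((z + r - s : ℤ) : ℝ) - d.ξ m * ((z + r - s : ℤ) : ℝ) =
        (d.ξ n - d.ξ m) * (z : ℝ) +
          ((d.ξ n - d.ξ m) * (r : ℝ) - (d.ξ n - d.ξ m) * (s : ℝ)) := by
      push_cast
      ring
    rw [e, ee_add]
    ring
  unfold Fm
  rw [Complex.ofReal_div, Complex.ofReal_sum]
  simp only [Complex.ofReal_sum, h1]
  rw [lve3a_comm4, sum_div]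
  refine sum_congr rfl fun n _ => ?_
  rw [sum_div]
  refine sum_congr rfl fun m _ => ?_
  rw [lve3a_Fj]
  simp only [← mul_sum]
  push_cast
  ring

/-- `∑_{x₁,x₂,x₃} u u u Fm(|D|²)(x₁+x₂-x₃) = ∑_{n,n'} a_n conj(a_n') Fj(θ) U(θ)² conj(U(θ))`,
`θ = ξ n - ξ n'`, `U(θ) = ∑ u x ee(θ x)`; then `|a_n| ≤ Λ ω_n` and `Fj ≥ 0`. -/
theorem lve3_open (d : Dat) (Λ : ℝ) (hΛ : 0 ≤ Λ) (a : ℕ → ℂ) (hω : ∀ n, 0 ≤ d.ω n)
    (ha : ∀ n, ‖a n‖ ≤ Λ * d.ω n) (P : ℕ) (hP : 1 ≤ P) (X : Finset ℤ) (u : ℤ → ℝ) :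
    ∑ x₁ ∈ X, ∑ x₂ ∈ X, ∑ x₃ ∈ X, u x₁ * u x₂ * u x₃ *
        Fm P (fun t => ‖d.D a t‖ ^ 2) (x₁ + x₂ - x₃) ≤
      Λ ^ 2 * ∑ n ∈ d.S, ∑ n' ∈ d.S, d.ω n * d.ω n' * Fj P (d.ξ n - d.ξ n') *
        ‖∑ x ∈ X, (u x : ℂ) * ee ((d.ξ n - d.ξ n') * x)‖ ^ 3 := by
  set U : ℝ → ℂ := fun θ => ∑ x ∈ X, (u x : ℂ) * ee (θ * x) with hU
  have hU3 : ∀ θ : ℝ, ∑ x₁ ∈ X, ∑ x₂ ∈ X, ∑ x₃ ∈ X, ((u x₁ * u x₂ * u x₃ : ℝ) : ℂ) *
      ee (θ * ((x₁ + x₂ - x₃ : ℤ) : ℝ)) = U θ * U θ * (starRingEnd ℂ) (U θ) := by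
    intro θ
    simp only [hU]
    rw [map_sum, sum_mul_sum, sum_mul]
    refine sum_congr rfl fun x₁ _ => ?_
    rw [sum_mul]
    refine sum_congr rfl fun x₂ _ => ?_
    rw [mul_sum]
    refine sum_congr rfl fun x₃ _ => ?_
    have e : θ * ((x₁ + x₂ - x₃ : ℤ) : ℝ) = θ * x₁ + θ * x₂ - θ * x₃ := by
      push_cast
      ring
    rw [e, ee_sub, ee_add, map_mul, Complex.conj_ofReal]
    push_cast
    ring
  have hmain : ((∑ x₁ ∈ X, ∑ x₂ ∈ X, ∑ x₃ ∈ X, u x₁ * u x₂ * u x₃ *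
        Fm P (fun t => ‖d.D a t‖ ^ 2) (x₁ + x₂ - x₃) : ℝ) : ℂ) =
      ∑ n ∈ d.S, ∑ m ∈ d.S, a n * (starRingEnd ℂ) (a m) * (Fj P (d.ξ n - d.ξ m) : ℂ) *
        (U (d.ξ n - d.ξ m) * U (d.ξ n - d.ξ m) * (starRingEnd ℂ) (U (d.ξ n - d.ξ m))) := by
    have e1 : ((∑ x₁ ∈ X, ∑ x₂ ∈ X, ∑ x₃ ∈ X, u x₁ * u x₂ * u x₃ *
        Fm P (fun t => ‖d.D a t‖ ^ 2) (x₁ + x₂ - x₃) : ℝ) : ℂ) =
        ∑ x ∈ X ×ˢ X ×ˢ X, ∑ q ∈ d.S ×ˢ d.S, ((u x.1 * u x.2.1 * u x.2.2 : ℝ) : ℂ) *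
          (a q.1 * (starRingEnd ℂ) (a q.2) * (Fj P (d.ξ q.1 - d.ξ q.2) : ℂ) *
          ee ((d.ξ q.1 - d.ξ q.2) * ((x.1 + x.2.1 - x.2.2 : ℤ) : ℝ))) := by
      rw [sum_product, Complex.ofReal_sum]
      refine sum_congr rfl fun x₁ _ => ?_
      rw [sum_product, Complex.ofReal_sum]
      refine sum_congr rfl fun x₂ _ => ?_
      rw [Complex.ofReal_sum]
      refine sum_congr rfl fun x₃ _ => ?_
      rw [Complex.ofReal_mul, lve3a_Fm, sum_product, mul_sum]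
      refine sum_congr rfl fun n _ => ?_
      rw [mul_sum]
    rw [e1, sum_comm, sum_product]
    refine sum_congr rfl fun n _ => sum_congr rfl fun m _ => ?_
    rw [← hU3, sum_product, mul_sum]
    refine sum_congr rfl fun x₁ _ => ?_
    rw [sum_product, mul_sum]
    refine sum_congr rfl fun x₂ _ => ?_
    rw [mul_sum]
    refine sum_congr rfl fun x₃ _ => ?_
    ring
  refine (Complex.ofReal_re _).symm.trans_le ?_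
  refine (Complex.re_le_norm _).trans ?_
  rw [hmain, mul_sum]
  refine (norm_sum_le _ _).trans (sum_le_sum fun n _ => ?_)
  rw [mul_sum]
  refine (norm_sum_le _ _).trans (sum_le_sum fun m _ => ?_)
  have hF : 0 ≤ Fj P (d.ξ n - d.ξ m) := Fj_nonneg _ _
  have hN : ‖a n * (starRingEnd ℂ) (a m) * (Fj P (d.ξ n - d.ξ m) : ℂ) *
        (U (d.ξ n - d.ξ m) * U (d.ξ n - d.ξ m) * (starRingEnd ℂ) (U (d.ξ n - d.ξ m)))‖ =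
      ‖a n‖ * ‖a m‖ * (Fj P (d.ξ n - d.ξ m) * ‖U (d.ξ n - d.ξ m)‖ ^ 3) := by
    rw [norm_mul, norm_mul, norm_mul, norm_mul, norm_mul, RCLike.norm_conj, RCLike.norm_conj,
      Complex.norm_real, Real.norm_of_nonneg hF]
    ring
  rw [hN]
  have h2 : ‖a n‖ * ‖a m‖ ≤ (Λ * d.ω n) * (Λ * d.ω m) :=
    mul_le_mul (ha n) (ha m) (norm_nonneg _) (mul_nonneg hΛ (hω n))
  calc ‖a n‖ * ‖a m‖ * (Fj P (d.ξ n - d.ξ m) * ‖U (d.ξ n - d.ξ m)‖ ^ 3)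
      ≤ (Λ * d.ω n) * (Λ * d.ω m) * (Fj P (d.ξ n - d.ξ m) * ‖U (d.ξ n - d.ξ m)‖ ^ 3) :=
        mul_le_mul_of_nonneg_right h2 (mul_nonneg hF (pow_nonneg (norm_nonneg _) _))
    _ = _ := by
        simp only [hU]
        ring

end Pool.Agent.LibSX15
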