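import Pool.Agent.LibSX15.LVE0

/-! LibSX15, LVE3b: opening the square, exchange of sums -/

set_option autoImplicit false

namespace Pool.Agent.LibSX15

open Finset

private theorem lve3b_sq {ι : Type*} (I : Finset ι) (c : ι → ℂ) (x : ι → ℝ) :
    ((‖∑ i ∈ I, c i * ee (x i)‖ ^ 2 : ℝ) : ℂ) =
      ∑ i ∈ I, ∑ j ∈ I, c i * (starRingEnd ℂ) (c j) * ee (x i - x j) := by
  have h := Complex.mul_conj' (∑ i ∈ I, c i * ee (x i))
  rw [map_sum, sum_mul_sum] at h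
  push_cast
  rw [← h]
  refine sum_congr rfl fun i _ => sum_congr rfl fun j _ => ?_
  rw [map_mul, ee_sub]
  ring

private theorem lve3b_comm4 {α β : Type*} (A : Finset α) (B : Finset β)
    (f : α → α → β → β → ℂ) :
    ∑ n ∈ A, ∑ m ∈ A, ∑ i ∈ B, ∑ j ∈ B, f n m i j =
      ∑ i ∈ B, ∑ j ∈ B, ∑ n ∈ A, ∑ m ∈ A, f n m i j := by
  calc ∑ n ∈ A, ∑ m ∈ A, ∑ i ∈ B, ∑ j ∈ B, f n m i j
      = ∑ p ∈ A ×ˢ A, ∑ q ∈ B ×ˢ B, f p.1 p.2 q.1 q.2 := by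
        rw [sum_product]
        refine sum_congr rfl fun n _ => sum_congr rfl fun m _ => ?_
        rw [sum_product]
    _ = ∑ q ∈ B ×ˢ B, ∑ p ∈ A ×ˢ A, f p.1 p.2 q.1 q.2 := sum_comm
    _ = _ := by
        rw [sum_product]
        refine sum_congr rfl fun n _ => sum_congr rfl fun m _ => ?_
        rw [sum_product]

private theorem lve3b_Fj (P : ℕ) (θ : ℝ) :
    ((Fj P θ : ℝ) : ℂ) = (∑ a ∈ range (4 * P), ∑ b ∈ range (4 * P),
      ee (θ * (a : ℝ) - θ * (b : ℝ))) / (4 * P) := by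
  have h := lve3b_sq (range (4 * P)) (fun _ => (1 : ℂ)) (fun a => θ * (a : ℝ))
  simp only [one_mul, map_one] at h
  unfold Fj
  rw [Complex.ofReal_div, h]
  push_cast
  rfl

private theorem lve3b_Fm (d : Dat) (a : ℕ → ℂ) (P : ℕ) (z : ℤ) :
    ((Fm P (fun t => ‖d.D a t‖ ^ 2) z : ℝ) : ℂ) =
      ∑ n ∈ d.S, ∑ m ∈ d.S, a n * (starRingEnd ℂ) (a m) * (Fj P (d.ξ n - d.ξ m) : ℂ) *
        ee ((d.ξ n - d.ξ m) * (z : ℝ)) := by
  have h1 : ∀ r s : ℕ, ((‖d.D a (z + r - s)‖ ^ 2 : ℝ) : ℂ) =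
      ∑ n ∈ d.S, ∑ m ∈ d.S, a n * (starRingEnd ℂ) (a m) * ee ((d.ξ n - d.ξ m) * (z : ℝ)) *
        ee ((d.ξ n - d.ξ m) * (r : ℝ) - (d.ξ n - d.ξ m) * (s : ℝ)) := by
    intro r s
    unfold Dat.D
    rw [lve3b_sq d.S a (fun n => d.ξ n * ((z + r - s : ℤ) : ℝ))]
    refine sum_congr rfl fun n _ => sum_congr rfl fun m _ => ?_
    have e : d.ξ n * ((z + r - s : ℤ) : ℝ) - d.ξ m * ((z + r - s : ℤ) : ℝ) =
        (d.ξ n - d.ξ m) * (z : ℝ) +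
          ((d.ξ n - d.ξ m) * (r : ℝ) - (d.ξ n - d.ξ m) * (s : ℝ)) := by
      push_cast
      ring
    rw [e, ee_add]
    ring
  unfold Fm
  rw [Complex.ofReal_div, Complex.ofReal_sum]
  simp only [Complex.ofReal_sum, h1]
  rw [lve3b_comm4, sum_div]
  refine sum_congr rfl fun n _ => ?_
  rw [sum_div]
  refine sum_congr rfl fun m _ => ?_
  rw [lve3b_Fj]
  simp only [← mul_sum]
  push_cast
  ring

/-- Opening the square and exchanging the sums. -/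
theorem lve3_square (d : Dat) {ι : Type*} (I : Finset ι) (c : ι → ℝ) (y : ι → ℤ) (P : ℕ)
    (hP : 1 ≤ P) :
    ∑ n ∈ d.S, ∑ n' ∈ d.S, d.ω n * d.ω n' * Fj P (d.ξ n - d.ξ n') *
        ‖∑ i ∈ I, (c i : ℂ) * ee ((d.ξ n - d.ξ n') * y i)‖ ^ 2 =
      ∑ i ∈ I, ∑ j ∈ I, c i * c j * Fm P (fun τ => ‖d.k τ‖ ^ 2) (y i - y j) := by
  have hk : ∀ τ : ℤ, d.k τ = d.D (fun n => (d.ω n : ℂ)) τ := fun τ => rfl
  simp only [hk]
  apply Complex.ofReal_injective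
  simp only [Complex.ofReal_sum]
  have hL : ∀ n m : ℕ, ((d.ω n * d.ω m * Fj P (d.ξ n - d.ξ m) *
      ‖∑ i ∈ I, (c i : ℂ) * ee ((d.ξ n - d.ξ m) * y i)‖ ^ 2 : ℝ) : ℂ) =
      ∑ i ∈ I, ∑ j ∈ I, (c i * c j : ℂ) * ((d.ω n : ℂ) * (starRingEnd ℂ) (d.ω m : ℂ) *
        (Fj P (d.ξ n - d.ξ m) : ℂ) * ee ((d.ξ n - d.ξ m) * ((y i - y j : ℤ) : ℝ))) := by
    intro n m
    rw [Complex.ofReal_mul, lve3b_sq I (fun i => (c i : ℂ)) (fun i => (d.ξ n - d.ξ m) * y i),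
      mul_sum]
    refine sum_congr rfl fun i _ => ?_
    rw [mul_sum]
    refine sum_congr rfl fun j _ => ?_
    have e : (d.ξ n - d.ξ m) * (y i : ℝ) - (d.ξ n - d.ξ m) * (y j : ℝ) =
        (d.ξ n - d.ξ m) * ((y i - y j : ℤ) : ℝ) := by
      push_cast
      ring
    rw [e, Complex.conj_ofReal, Complex.conj_ofReal]
    push_cast
    ring
  simp only [hL]
  rw [lve3b_comm4]
  refine sum_congr rfl fun i _ => sum_congr rfl fun j _ => ?_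
  rw [Complex.ofReal_mul, lve3b_Fm]
  simp only [← mul_sum]
  push_cast
  rfl

end Pool.Agent.LibSX15
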