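import Pool.Agent.LibSX15.LVE0

/-! LibSX15, LVE4a: the peak of the kernel -/

set_option autoImplicit false

namespace Pool.Agent.LibSX15

open Finset

/-- a bounded potential for `1/(1+v²)²` -/
private noncomputable def lve4a_H (v : ℤ) : ℝ := if 1 ≤ v then 5 - 2 / v else 2 / (1 - v)

private theorem lve4a_H_nonneg (v : ℤ) : 0 ≤ lve4a_H v := by
  unfold lve4a_H
  split_ifs with h
  · have hv : (1 : ℝ) ≤ v := by exact_mod_cast h
    have : 2 / (v : ℝ) ≤ 2 := by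
      rw [div_le_iff₀ (by linarith)]
      linarith
    linarith
  · have hv : (v : ℝ) ≤ 0 := by
      have : v ≤ 0 := by omega
      exact_mod_cast this
    apply div_nonneg (by norm_num)
    linarith

private theorem lve4a_H_le (v : ℤ) : lve4a_H v ≤ 5 := by
  unfold lve4a_H
  split_ifs with h
  · have hv : (1 : ℝ) ≤ v := by exact_mod_cast h
    have : 0 ≤ 2 / (v : ℝ) := by positivity
    linarith
  · have hv : (v : ℝ) ≤ 0 := by
      have : v ≤ 0 := by omega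
      exact_mod_cast this
    have : 2 / (1 - (v : ℝ)) ≤ 2 := by
      rw [div_le_iff₀ (by linarith)]
      linarith
    linarith

private theorem lve4a_aux (w : ℝ) (hw : 1 ≤ w) : 1 / (1 + w ^ 2) ^ 2 ≤ 2 / w - 2 / (w + 1) := by
  have h1 : 2 / w - 2 / (w + 1) = 2 / (w * (w + 1)) := by
    field_simp
    ring
  rw [h1, div_le_div_iff₀ (by positivity) (by positivity)]
  nlinarith [sq_nonneg (w ^ 2), sq_nonneg w, mul_nonneg (by linarith : (0:ℝ) ≤ w) (by linarith : (0:ℝ) ≤ w)]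

private theorem lve4a_step (v : ℤ) : 1 / (1 + (v : ℝ) ^ 2) ^ 2 ≤ lve4a_H (v + 1) - lve4a_H v := by
  rcases lt_trichotomy v 0 with h | h | h
  · have h1 : ¬ (1 ≤ v + 1) := by omega
    have h2 : ¬ (1 ≤ v) := by omega
    unfold lve4a_H
    rw [if_neg h1, if_neg h2]
    have hv : (1 : ℝ) ≤ -v := by
      have : 1 ≤ -v := by omega
      exact_mod_cast this
    have h3 := lve4a_aux (-v) hv
    rw [neg_sq] at h3
    refine h3.trans (le_of_eq ?_)
    push_cast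
    congr 1
    · congr 1
      ring
    · congr 1
      ring
  · subst h
    unfold lve4a_H
    norm_num
  · have h1 : 1 ≤ v + 1 := by omega
    have h2 : 1 ≤ v := by omega
    unfold lve4a_H
    rw [if_pos h1, if_pos h2]
    have hv : (1 : ℝ) ≤ v := by exact_mod_cast h2
    have h3 := lve4a_aux v hv
    push_cast
    linarith

private theorem lve4a_sum (z : ℤ) (n : ℕ) :
    ∑ b ∈ range n, 1 / (1 + ((z - b : ℤ) : ℝ) ^ 2) ^ 2 ≤ lve4a_H (z + 1) - lve4a_H (z + 1 - n) := by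
  induction n with
  | zero => simp
  | succ n ih =>
    rw [sum_range_succ]
    have h1 := lve4a_step (z - n)
    have e1 : z - n + 1 = z + 1 - (n : ℤ) := by ring
    have e2 : z + 1 - ((n + 1 : ℕ) : ℤ) = z - n := by push_cast; ring
    rw [e1] at h1
    rw [e2]
    linarith

/-- If `|y| < 8P` the left side is at most `∑_{v ∈ ℤ} 1/(1+v²)² ≤ 4`; if `|y| ≥ 8P` all the terms
have `|y + a - b| ≥ |y|/2`, so it is at most `4P · 16/y⁴ ≤ 1/(y/P)²`. -/
theorem lve4_peak (P : ℕ) (hP : 1 ≤ P) (y : ℤ) :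
    Fm P (fun τ => 1 / (1 + (τ : ℝ) ^ 2) ^ 2) y ≤ 400 * (1 / (1 + ((y : ℝ) / P) ^ 2)) := by
  have hPr : (1 : ℝ) ≤ P := by exact_mod_cast hP
  have hP0 : (0 : ℝ) < P := by linarith
  unfold Fm
  rw [div_le_iff₀ (by positivity)]
  by_cases hy : |(y : ℝ)| < 8 * P
  · have h1 : ∀ a ∈ range (4 * P), ∑ b ∈ range (4 * P),
        1 / (1 + (((y + a - b : ℤ) : ℤ) : ℝ) ^ 2) ^ 2 ≤ 5 := by
      intro a _
      have h2 := lve4a_sum (y + a) (4 * P)
      have h3 := lve4a_H_le (y + a + 1)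
      have h4 := lve4a_H_nonneg (y + a + 1 - ((4 * P : ℕ) : ℤ))
      linarith
    have h2 : (∑ a ∈ range (4 * P), ∑ b ∈ range (4 * P),
        1 / (1 + (((y + a - b : ℤ) : ℤ) : ℝ) ^ 2) ^ 2) ≤ ∑ a ∈ range (4 * P), (5 : ℝ) :=
      sum_le_sum h1
    rw [sum_const, card_range, nsmul_eq_mul] at h2
    push_cast at h2
    have h3 : (1 : ℝ) / 65 ≤ 1 / (1 + ((y : ℝ) / P) ^ 2) := by
      apply one_div_le_one_div_of_le (by positivity)
      have h4 : ((y : ℝ) / P) ^ 2 ≤ 64 := by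
        rw [div_pow, div_le_iff₀ (by positivity), ← sq_abs]
        have h5 := abs_nonneg (y : ℝ)
        nlinarith
      linarith
    have h5 : 4 * (P : ℝ) * 5 ≤ 400 * (1 / (1 + ((y : ℝ) / P) ^ 2)) * (4 * P) := by
      nlinarith
    refine le_trans ?_ h5
    refine le_trans (le_of_eq ?_) h2
    push_cast
    rfl
  · rw [not_lt] at hy
    have hy0 : 0 < |(y : ℝ)| := by linarith
    have hy2 : (0 : ℝ) < (y : ℝ) ^ 2 := by rw [← sq_abs]; positivity
    have hy2' : (1 : ℝ) ≤ (y : ℝ) ^ 2 := by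
      rw [← sq_abs]
      nlinarith
    have h1 : ∀ a ∈ range (4 * P), ∀ b ∈ range (4 * P),
        1 / (1 + (((y + a - b : ℤ) : ℤ) : ℝ) ^ 2) ^ 2 ≤ 16 / ((y : ℝ) ^ 2) ^ 2 := by
      intro a ha b hb
      rw [mem_range] at ha hb
      have ha' : (a : ℝ) < 4 * P := by exact_mod_cast ha
      have hb' : (b : ℝ) < 4 * P := by exact_mod_cast hb
      have ha0 : (0 : ℝ) ≤ a := Nat.cast_nonneg a
      have hb0 : (0 : ℝ) ≤ b := Nat.cast_nonneg b
      have h2 : |(a : ℝ) - b| ≤ |(y : ℝ)| / 2 := by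
        rw [abs_le]
        constructor <;> linarith
      have h3 : |(y : ℝ)| / 2 ≤ |(y : ℝ) + (a - b)| := by
        have h4 := abs_sub_abs_le_abs_sub (y : ℝ) (-((a : ℝ) - b))
        rw [abs_neg, sub_neg_eq_add] at h4
        linarith
      have h4 : (y : ℝ) ^ 2 / 4 ≤ ((y : ℝ) + (a - b)) ^ 2 := by
        rw [← sq_abs (y : ℝ), ← sq_abs ((y : ℝ) + (a - b))]
        nlinarith
      have h5 : ((y : ℝ) ^ 2 / 4) ^ 2 ≤ (1 + ((y : ℝ) + (a - b)) ^ 2) ^ 2 :=
        pow_le_pow_left₀ (by positivity) (by linarith) 2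
      have e : (((y + a - b : ℤ) : ℤ) : ℝ) = (y : ℝ) + (a - b) := by push_cast; ring
      rw [e]
      calc 1 / (1 + ((y : ℝ) + (a - b)) ^ 2) ^ 2 ≤ 1 / ((y : ℝ) ^ 2 / 4) ^ 2 :=
            one_div_le_one_div_of_le (by positivity) h5
        _ = 16 / ((y : ℝ) ^ 2) ^ 2 := by
            field_simp
            norm_num
    have h2 : (∑ a ∈ range (4 * P), ∑ b ∈ range (4 * P),
        1 / (1 + (((y + a - b : ℤ) : ℤ) : ℝ) ^ 2) ^ 2) ≤
        ∑ a ∈ range (4 * P), ∑ b ∈ range (4 * P), 16 / ((y : ℝ) ^ 2) ^ 2 :=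
      sum_le_sum fun a ha => sum_le_sum fun b hb => h1 a ha b hb
    rw [sum_const, sum_const, card_range, nsmul_eq_mul, nsmul_eq_mul] at h2
    push_cast at h2
    have h3 : (P : ℝ) ^ 2 / (2 * (y : ℝ) ^ 2) ≤ 1 / (1 + ((y : ℝ) / P) ^ 2) := by
      rw [div_pow, div_le_div_iff₀ (by positivity) (by positivity)]
      have h4 : (P : ℝ) ^ 2 ≤ (y : ℝ) ^ 2 := by
        rw [← sq_abs (y : ℝ)]
        nlinarith
      have e : (P : ℝ) ^ 2 * (1 + (y : ℝ) ^ 2 / P ^ 2) = P ^ 2 + (y : ℝ) ^ 2 := by field_simp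
      rw [e]
      linarith
    have h5 : 4 * (P : ℝ) * (4 * P * (16 / ((y : ℝ) ^ 2) ^ 2)) ≤
        400 * (1 / (1 + ((y : ℝ) / P) ^ 2)) * (4 * P) := by
      have h6 : 4 * (P : ℝ) * (16 / ((y : ℝ) ^ 2) ^ 2) ≤ 400 * ((P : ℝ) ^ 2 / (2 * (y : ℝ) ^ 2)) := by
        have e1 : 4 * (P : ℝ) * (16 / ((y : ℝ) ^ 2) ^ 2) = 64 * P / ((y : ℝ) ^ 2) ^ 2 := by ring
        have e2 : 400 * ((P : ℝ) ^ 2 / (2 * (y : ℝ) ^ 2)) = 200 * P ^ 2 / (y : ℝ) ^ 2 := by
          field_simp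
          norm_num
        rw [e1, e2, div_le_div_iff₀ (by positivity) hy2]
        have h7 : 64 * (P : ℝ) ≤ 200 * P ^ 2 := by nlinarith
        have h8 : (y : ℝ) ^ 2 ≤ ((y : ℝ) ^ 2) ^ 2 := by nlinarith
        exact mul_le_mul h7 h8 hy2.le (by positivity)
      nlinarith
    refine le_trans ?_ h5
    refine le_trans (le_of_eq ?_) h2
    push_cast
    rfl

end Pool.Agent.LibSX15
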