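import Pool.Agent.LibSX15.LVE1b
import Pool.Agent.LibSX15.LVE4a

/-! LibSX15, LVE4b: the kernel bound inserted in the pair sum -/

set_option autoImplicit false

namespace Pool.Agent.LibSX15

open Finset

private theorem lve4b_pt (A : ℝ) (hA : 1 ≤ A) (k : ℤ → ℂ) (P : ℕ) (hP : 1 ≤ P) (N κ Tm : ℝ)
    (hN : 0 ≤ N) (hκ : 0 ≤ κ)
    (hk : ∀ τ : ℤ, |(τ : ℝ)| ≤ Tm → ‖k τ‖ ≤ A * (N / (1 + (τ : ℝ) ^ 2) + κ)) (z : ℤ)
    (hz : |(z : ℝ)| + 4 * P ≤ Tm) :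
    Fm P (fun τ => ‖k τ‖ ^ 2) z ≤
      2 * A ^ 2 * N ^ 2 * (400 * (1 / (1 + ((z : ℝ) / P) ^ 2))) + 8 * A ^ 2 * κ ^ 2 * P := by
  have hP0 : (0 : ℝ) < P := by exact_mod_cast hP
  have _ := hN
  have _ := hκ
  have hA0 : 0 ≤ A := by linarith
  have hterm : ∀ a ∈ range (4 * P), ∀ b ∈ range (4 * P), ‖k (z + a - b)‖ ^ 2 ≤
      2 * A ^ 2 * N ^ 2 * (1 / (1 + ((z + a - b : ℤ) : ℝ) ^ 2) ^ 2) + 2 * A ^ 2 * κ ^ 2 := by
    intro a ha b hb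
    rw [Finset.mem_range] at ha hb
    have h1 : |((z + a - b : ℤ) : ℝ)| ≤ Tm := by
      refine le_trans ?_ hz
      push_cast
      have h2 : |(a : ℝ) - b| ≤ 4 * P := by
        rw [abs_le]
        have h3 : (a : ℝ) < 4 * P := by exact_mod_cast ha
        have h4 : (b : ℝ) < 4 * P := by exact_mod_cast hb
        have h5 : (0 : ℝ) ≤ a := Nat.cast_nonneg a
        have h6 : (0 : ℝ) ≤ b := Nat.cast_nonneg b
        constructor <;> linarith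
      have h3 : (z : ℝ) + a - b = z + (a - b) := by ring
      rw [h3]
      exact (abs_add_le _ _).trans (by linarith)
    have h2 := hk _ h1
    have h3 : ‖k (z + a - b)‖ ^ 2 ≤ (A * (N / (1 + ((z + a - b : ℤ) : ℝ) ^ 2) + κ)) ^ 2 :=
      pow_le_pow_left₀ (norm_nonneg _) h2 2
    refine h3.trans ?_
    set s : ℝ := 1 + ((z + a - b : ℤ) : ℝ) ^ 2 with hs
    have hs0 : 0 < s := by positivity
    have h4 : N ^ 2 * (1 / s ^ 2) = (N / s) ^ 2 := by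
      rw [div_pow, mul_one_div]
    have h5 : 2 * A ^ 2 * N ^ 2 * (1 / s ^ 2) = 2 * A ^ 2 * (N / s) ^ 2 := by
      rw [← h4]
      ring
    rw [h5]
    nlinarith [mul_nonneg (sq_nonneg A) (sq_nonneg (N / s - κ))]
  have hpeak := lve4_peak P hP z
  unfold Fm at hpeak ⊢
  have h4P : (0 : ℝ) < 4 * P := by linarith
  rw [div_le_iff₀ h4P] at hpeak ⊢
  have hsum : ∑ a ∈ range (4 * P), ∑ b ∈ range (4 * P), ‖k (z + a - b)‖ ^ 2 ≤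
      2 * A ^ 2 * N ^ 2 * (∑ a ∈ range (4 * P), ∑ b ∈ range (4 * P),
        1 / (1 + ((z + a - b : ℤ) : ℝ) ^ 2) ^ 2) + 2 * A ^ 2 * κ ^ 2 * ((4 * P) * (4 * P)) := by
    have h1 : ∑ a ∈ range (4 * P), ∑ b ∈ range (4 * P), ‖k (z + a - b)‖ ^ 2 ≤
        ∑ a ∈ range (4 * P), ∑ b ∈ range (4 * P),
          (2 * A ^ 2 * N ^ 2 * (1 / (1 + ((z + a - b : ℤ) : ℝ) ^ 2) ^ 2) + 2 * A ^ 2 * κ ^ 2) :=
      Finset.sum_le_sum fun a ha => Finset.sum_le_sum fun b hb => hterm a ha b hb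
    refine h1.trans (le_of_eq ?_)
    simp only [Finset.sum_add_distrib, Finset.sum_const, Finset.card_range, nsmul_eq_mul,
      ← Finset.mul_sum]
    push_cast
    ring
  have hc : 0 ≤ 2 * A ^ 2 * N ^ 2 := by positivity
  have h6 := mul_le_mul_of_nonneg_left hpeak hc
  refine hsum.trans ?_
  refine (add_le_add_left h6 _).trans (le_of_eq ?_)
  ring

/-- Kernel bound `|k τ| ≤ A (N/(1+τ²) + κ)` inserted in the pair sum: `(x+y)² ≤ 2x²+2y²`,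
`lve4_peak` and `lve1_decay` for the first part, `Fm P 1 = 4P` for the second. -/
theorem lve4_pairs (A : ℝ) (hA : 1 ≤ A) (k : ℤ → ℂ) {ι : Type*} (I : Finset ι) (c : ι → ℝ)
    (y : ι → ℤ) (P : ℕ) (hP : 1 ≤ P) (hc : ∀ i ∈ I, 0 ≤ c i) (N κ Tm : ℝ) (hN : 0 ≤ N) (hκ : 0 ≤ κ)
    (hk : ∀ τ : ℤ, |(τ : ℝ)| ≤ Tm → ‖k τ‖ ≤ A * (N / (1 + (τ : ℝ) ^ 2) + κ))
    (hT : ∀ i ∈ I, ∀ j ∈ I, |((y i - y j : ℤ) : ℝ)| + 4 * P ≤ Tm) :
    ∑ i ∈ I, ∑ j ∈ I, c i * c j * Fm P (fun τ => ‖k τ‖ ^ 2) (y i - y j) ≤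
      20000 * A ^ 2 * (N ^ 2 * Qe I c y P + κ ^ 2 * P * (∑ i ∈ I, c i) ^ 2) := by
  have hP0 : (0 : ℝ) < P := by exact_mod_cast hP
  have h1 : ∑ i ∈ I, ∑ j ∈ I, c i * c j * Fm P (fun τ => ‖k τ‖ ^ 2) (y i - y j) ≤
      ∑ i ∈ I, ∑ j ∈ I, (800 * A ^ 2 * N ^ 2 *
        (c i * c j * (1 / (1 + (((y i - y j : ℤ) : ℝ) / P) ^ 2))) +
          8 * A ^ 2 * κ ^ 2 * P * (c i * c j)) := by
    refine Finset.sum_le_sum fun i hi => Finset.sum_le_sum fun j hj => ?_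
    have h2 := lve4b_pt A hA k P hP N κ Tm hN hκ hk (y i - y j) (hT i hi j hj)
    have h3 := mul_le_mul_of_nonneg_left h2 (mul_nonneg (hc i hi) (hc j hj))
    refine h3.trans (le_of_eq ?_)
    ring
  refine h1.trans ?_
  simp only [Finset.sum_add_distrib, ← Finset.mul_sum]
  have h4 := lve1_decay I c y P hP hc
  have h5' : ∑ i ∈ I, c i * ∑ j ∈ I, c j = (∑ i ∈ I, c i) ^ 2 := by
    rw [← Finset.sum_mul, sq]
  have hc8 : 0 ≤ 800 * A ^ 2 * N ^ 2 := by positivity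
  have h6 := mul_le_mul_of_nonneg_left h4 hc8
  have h7 : 0 ≤ A ^ 2 * κ ^ 2 * P * (∑ i ∈ I, c i) ^ 2 := by positivity
  rw [h5']
  have h8 : 800 * A ^ 2 * N ^ 2 * (25 * Qe I c y P) = 20000 * A ^ 2 * (N ^ 2 * Qe I c y P) := by ring
  rw [h8] at h6
  have h9 : 20000 * A ^ 2 * (N ^ 2 * Qe I c y P + κ ^ 2 * P * (∑ i ∈ I, c i) ^ 2) =
      20000 * A ^ 2 * (N ^ 2 * Qe I c y P) + 20000 * (A ^ 2 * κ ^ 2 * P * (∑ i ∈ I, c i) ^ 2) := by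
    ring
  rw [h9]
  refine add_le_add h6 ?_
  nlinarith [h7]

end Pool.Agent.LibSX15
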