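import Pool.Agent.LibSX15.LVE0

/-! LibSX15, LVE5a: L-separated positions -/

set_option autoImplicit false

namespace Pool.Agent.LibSX15

open Finset

private theorem lve5a_count (P L : ℕ) (hL : 1 ≤ L) (hLP : L ≤ P) (X : Finset ℤ)
    (hsep : ∀ x ∈ X, ∀ x' ∈ X, x ≠ x' → (L : ℤ) ≤ |x - x'|) (x : ℤ) :
    ((X.filter fun x' => |x - x'| < (P : ℤ)).card : ℝ) ≤ 3 * (P / L) := by
  have hL0 : (0 : ℤ) < L := by exact_mod_cast hL
  have hLr : (0 : ℝ) < L := by exact_mod_cast hL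
  have h1 : (X.filter fun x' => |x - x'| < (P : ℤ)).card ≤
      (Finset.Icc (0 : ℤ) ((2 * P - 1) / L)).card := by
    refine Finset.card_le_card_of_injOn (fun x' => (x' - (x - P)) / L) ?_ ?_
    · intro x' hx'
      have hx2 := hx'
      rw [Finset.mem_coe, Finset.mem_filter] at hx2
      obtain ⟨_, h2⟩ := hx2
      rw [abs_lt] at h2
      rw [Finset.mem_coe, Finset.mem_Icc]
      refine ⟨Int.ediv_nonneg (by linarith) hL0.le, Int.ediv_le_ediv hL0 (by omega)⟩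
    · intro x' hx' x'' hx'' h
      have h2 := (Finset.mem_filter.1 (Finset.mem_coe.1 hx')).1
      have h3 := (Finset.mem_filter.1 (Finset.mem_coe.1 hx'')).1
      by_contra hne
      have h4 := hsep x' h2 x'' h3 hne
      have e1 := Int.mul_ediv_add_emod (x' - (x - P)) L
      have e2 := Int.mul_ediv_add_emod (x'' - (x - P)) L
      have m1 := Int.emod_nonneg (x' - (x - P)) hL0.ne'
      have m2 := Int.emod_lt_of_pos (x' - (x - P)) hL0
      have m3 := Int.emod_nonneg (x'' - (x - P)) hL0.ne'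
      have m4 := Int.emod_lt_of_pos (x'' - (x - P)) hL0
      have h5 : (x' - (x - P)) / L = (x'' - (x - P)) / L := h
      rw [h5] at e1
      have h6 : |x' - x''| < L := by
        rw [abs_lt]
        constructor <;> linarith
      linarith
  have h2 : ((Finset.Icc (0 : ℤ) ((2 * P - 1) / L)).card : ℝ) ≤ 3 * (P / L) := by
    rw [Int.card_Icc]
    have h3 : (0 : ℤ) ≤ (2 * P - 1) / L := Int.ediv_nonneg (by omega) hL0.le
    have h4 : ((((2 * P - 1) / L + 1 - 0 : ℤ).toNat : ℕ) : ℝ) = (((2 * P - 1) / L : ℤ) : ℝ) + 1 := by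
      have h5 : ((((2 * P - 1) / L + 1 - 0 : ℤ).toNat : ℕ) : ℤ) = (2 * P - 1) / L + 1 := by
        rw [Int.toNat_of_nonneg (by omega), sub_zero]
      have h6 : ((((2 * P - 1) / L + 1 - 0 : ℤ).toNat : ℕ) : ℝ) =
          (((((2 * P - 1) / L + 1 - 0 : ℤ).toNat : ℕ) : ℤ) : ℝ) := by push_cast; rfl
      rw [h6, h5]
      push_cast
      ring
    rw [h4]
    have h7 : ((((2 * P - 1) / L : ℤ)) : ℝ) ≤ (2 * P) / L := by
      rw [le_div_iff₀ hLr]
      have h8 : (2 * (P : ℤ) - 1) / L * L ≤ 2 * P - 1 := Int.ediv_mul_le _ hL0.ne'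
      have h9 : ((((2 * P - 1) / L : ℤ)) : ℝ) * L ≤ 2 * P - 1 := by exact_mod_cast h8
      linarith
    have h10 : (1 : ℝ) ≤ P / L := by
      rw [le_div_iff₀ hLr, one_mul]
      exact_mod_cast hLP
    have h11 : (2 * (P : ℝ)) / L = 2 * (P / L) := by ring
    linarith
  have h3 : ((X.filter fun x' => |x - x'| < (P : ℤ)).card : ℝ) ≤
      ((Finset.Icc (0 : ℤ) ((2 * P - 1) / L)).card : ℝ) := by exact_mod_cast h1
  linarith

/-- `L`-separated positions: `∑_{|x-x'|<P} u u' ≤ ∑ u² · #{x' : |x-x'| < P} ≤ 3 (P/L) ∑ u²`. -/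
theorem lve5_diag (P L : ℕ) (hL : 1 ≤ L) (hLP : L ≤ P) (X : Finset ℤ) (u : ℤ → ℝ)
    (hsep : ∀ x ∈ X, ∀ x' ∈ X, x ≠ x' → (L : ℤ) ≤ |x - x'|) :
    Qe X u id P ≤ 3 * (P / L) * ∑ x ∈ X, u x ^ 2 := by
  unfold Qe
  simp only [id]
  have h1 : ∀ x x' : ℤ, (if |x - x'| < (P : ℤ) then u x * u x' else 0) ≤
      (if |x - x'| < (P : ℤ) then u x ^ 2 / 2 else 0) +
        (if |x' - x| < (P : ℤ) then u x' ^ 2 / 2 else 0) := by
    intro x x'
    rw [abs_sub_comm x' x]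
    split_ifs
    · nlinarith [sq_nonneg (u x - u x')]
    · simp
  have h2 : ∑ x ∈ X, ∑ x' ∈ X, (if |x - x'| < (P : ℤ) then u x ^ 2 / 2 else 0) ≤
      3 * ((P : ℝ) / (L : ℝ)) * ∑ x ∈ X, (u x ^ 2 / 2 : ℝ) := by
    rw [Finset.mul_sum]
    refine Finset.sum_le_sum fun x _ => ?_
    rw [← Finset.sum_filter, Finset.sum_const, nsmul_eq_mul]
    exact mul_le_mul_of_nonneg_right (lve5a_count P L hL hLP X hsep x) (by positivity)
  calc ∑ x ∈ X, ∑ x' ∈ X, (if |x - x'| < (P : ℤ) then u x * u x' else 0)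
      ≤ ∑ x ∈ X, ∑ x' ∈ X, ((if |x - x'| < (P : ℤ) then u x ^ 2 / 2 else 0) +
        (if |x' - x| < (P : ℤ) then u x' ^ 2 / 2 else 0)) :=
        Finset.sum_le_sum fun x _ => Finset.sum_le_sum fun x' _ => h1 x x'
    _ = ∑ x ∈ X, ∑ x' ∈ X, (if |x - x'| < (P : ℤ) then u x ^ 2 / 2 else 0) +
        ∑ x' ∈ X, ∑ x ∈ X, (if |x' - x| < (P : ℤ) then u x' ^ 2 / 2 else 0) := by
        simp only [Finset.sum_add_distrib]
        congr 1
        exact Finset.sum_comm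
    _ ≤ 3 * ((P : ℝ) / (L : ℝ)) * ∑ x ∈ X, (u x ^ 2 / 2 : ℝ) +
        3 * ((P : ℝ) / (L : ℝ)) * ∑ x ∈ X, (u x ^ 2 / 2 : ℝ) :=
        add_le_add h2 h2
    _ = 3 * ((P : ℝ) / (L : ℝ)) * ∑ x ∈ X, u x ^ 2 := by
        rw [← Finset.sum_div]
        ring

end Pool.Agent.LibSX15
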