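import Pool.Agent.LibSX15.LVE0

/-! LibSX15, LVE5b: Cauchy-Schwarz -/

set_option autoImplicit false

namespace Pool.Agent.LibSX15

open Finset

/-- Cauchy-Schwarz for the double sum. -/
theorem lve5_cs (d : Dat) (hω : ∀ n, 0 ≤ d.ω n) (P : ℕ) (U : ℝ → ℝ) (hU : ∀ θ, 0 ≤ U θ) :
    (∑ n ∈ d.S, ∑ n' ∈ d.S, d.ω n * d.ω n' * Fj P (d.ξ n - d.ξ n') * U (d.ξ n - d.ξ n') ^ 3) ^ 2 ≤
      (∑ n ∈ d.S, ∑ n' ∈ d.S, d.ω n * d.ω n' * Fj P (d.ξ n - d.ξ n') * U (d.ξ n - d.ξ n') ^ 2) *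
      (∑ n ∈ d.S, ∑ n' ∈ d.S, d.ω n * d.ω n' * Fj P (d.ξ n - d.ξ n') * U (d.ξ n - d.ξ n') ^ 4) := by
  rw [← sum_product', ← sum_product', ← sum_product']
  refine sum_sq_le_sum_mul_sum_of_sq_le_mul _ (fun i _ => ?_) (fun i _ => ?_) (fun i _ => ?_)
  · exact mul_nonneg (mul_nonneg (mul_nonneg (hω _) (hω _)) (Fj_nonneg _ _)) (by positivity)
  · exact mul_nonneg (mul_nonneg (mul_nonneg (hω _) (hω _)) (Fj_nonneg _ _)) (by positivity)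
  · exact le_of_eq (by ring)

end Pool.Agent.LibSX15
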