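import Pool.Agent.LibSX15.LVE0

/-! LibSX15, LVE5c: the real inequality at the end -/

set_option autoImplicit false

namespace Pool.Agent.LibSX15

open Finset

/-- The elementary end of the proof: `E² Y⁴ ≤ K Λ⁴ (N² (P/L) S + N P² s²) (N² E + N P² s⁴)`,
`s² ≤ B S`, `s ≤ B`, `P² B ≤ N` give the bound (two cases: `N P² s⁴ ≤ N² E` or not). -/
theorem lve5_real (K : ℝ) (hK : 1 ≤ K) : ∀ (E Y Λ N P L B S s : ℝ), 0 ≤ E → 0 < Y → 1 ≤ Λ → 1 ≤ N →
    1 ≤ L → L ≤ P → 0 ≤ B → 0 ≤ S → 0 ≤ s → s ^ 2 ≤ B * S → s ≤ B → P ^ 2 * B ≤ N →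
    (E * Y ^ 2) ^ 2 ≤ K * Λ ^ 4 * (N ^ 2 * (P / L) * S + N * P ^ 2 * s ^ 2) *
      (N ^ 2 * E + N * P ^ 2 * s ^ 4) →
    E ≤ (4 * K * (Λ ^ 2 * N ^ 2 / Y ^ 2) ^ 2 * (P / L) + P ^ 2 * B ^ 3 / N) * S := by
  intro E Y Λ N P L B S s hE hY hΛ hN hL hLP hB hS hs hs2 hsB hPB h
  have hN0 : 0 < N := by linarith
  have hL0 : 0 < L := by linarith
  have hP0 : 0 < P := by linarith
  have hΛ0 : 0 < Λ := by linarith
  have hK0 : 0 < K := by linarith
  have hPL : 1 ≤ P / L := by rwa [le_div_iff₀ hL0, one_mul]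
  have hT1 : 0 ≤ 4 * K * (Λ ^ 2 * N ^ 2 / Y ^ 2) ^ 2 * (P / L) * S := by positivity
  have hT2 : 0 ≤ P ^ 2 * B ^ 3 / N * S := by positivity
  have hA : N ^ 2 * (P / L) * S + N * P ^ 2 * s ^ 2 ≤ 2 * (N ^ 2 * (P / L) * S) := by
    have h1 : N * P ^ 2 * s ^ 2 ≤ N * P ^ 2 * (B * S) :=
      mul_le_mul_of_nonneg_left hs2 (by positivity)
    have h2 : N * P ^ 2 * (B * S) = N * S * (P ^ 2 * B) := by ring
    have h3 : N * S * (P ^ 2 * B) ≤ N * S * N := mul_le_mul_of_nonneg_left hPB (by positivity)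
    have h4 : N ^ 2 * S * 1 ≤ N ^ 2 * S * (P / L) := mul_le_mul_of_nonneg_left hPL (by positivity)
    nlinarith
  by_cases hc : N * P ^ 2 * s ^ 4 ≤ N ^ 2 * E
  · rcases hE.eq_or_lt with hE0 | hE0
    · rw [← hE0, add_mul]
      linarith
    · have h1 : (E * Y ^ 2) ^ 2 ≤ K * Λ ^ 4 * (2 * (N ^ 2 * (P / L) * S)) * (2 * (N ^ 2 * E)) := by
        refine h.trans ?_
        have h2 : K * Λ ^ 4 * (N ^ 2 * (P / L) * S + N * P ^ 2 * s ^ 2) ≤
            K * Λ ^ 4 * (2 * (N ^ 2 * (P / L) * S)) := mul_le_mul_of_nonneg_left hA (by positivity)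
        exact mul_le_mul h2 (by linarith) (by positivity) (by positivity)
      have h3 : E * Y ^ 4 ≤ 4 * K * Λ ^ 4 * N ^ 4 * (P / L) * S := by
        have h4 : E * (E * Y ^ 4) ≤ E * (4 * K * Λ ^ 4 * N ^ 4 * (P / L) * S) := by
          have e1 : E * (E * Y ^ 4) = (E * Y ^ 2) ^ 2 := by ring
          have e2 : E * (4 * K * Λ ^ 4 * N ^ 4 * (P / L) * S) =
              K * Λ ^ 4 * (2 * (N ^ 2 * (P / L) * S)) * (2 * (N ^ 2 * E)) := by ring
          rw [e1, e2]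
          exact h1
        exact le_of_mul_le_mul_left h4 hE0
      have h5 : E ≤ 4 * K * (Λ ^ 2 * N ^ 2 / Y ^ 2) ^ 2 * (P / L) * S := by
        have e3 : 4 * K * (Λ ^ 2 * N ^ 2 / Y ^ 2) ^ 2 * (P / L) * S =
            (4 * K * Λ ^ 4 * N ^ 4 * (P / L) * S) / Y ^ 4 := by
          field_simp
        rw [e3, le_div_iff₀ (by positivity)]
        exact h3
      rw [add_mul]
      linarith
  · rw [not_le] at hc
    have h1 : N * E ≤ P ^ 2 * s ^ 4 := by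
      have h2 : N * (N * E) ≤ N * (P ^ 2 * s ^ 4) := by nlinarith
      exact le_of_mul_le_mul_left h2 hN0
    have h3 : s ^ 4 ≤ B ^ 3 * S := by
      have h4 : s ^ 2 ≤ B ^ 2 := pow_le_pow_left₀ hs hsB 2
      calc s ^ 4 = s ^ 2 * s ^ 2 := by ring
        _ ≤ B ^ 2 * (B * S) := mul_le_mul h4 hs2 (by positivity) (by positivity)
        _ = B ^ 3 * S := by ring
    have h5 : E ≤ P ^ 2 * B ^ 3 / N * S := by
      have e3 : P ^ 2 * B ^ 3 / N * S = (P ^ 2 * (B ^ 3 * S)) / N := by ring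
      rw [e3, le_div_iff₀ hN0]
      have h6 : P ^ 2 * s ^ 4 ≤ P ^ 2 * (B ^ 3 * S) := mul_le_mul_of_nonneg_left h3 (by positivity)
      linarith
    rw [add_mul]
    linarith

end Pool.Agent.LibSX15
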