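import Pool.Agent.LibSX15.LVE1b
import Pool.Agent.LibSX15.LVE2c
import Pool.Agent.LibSX15.LVE3a
import Pool.Agent.LibSX15.LVE3b
import Pool.Agent.LibSX15.LVE4b
import Pool.Agent.LibSX15.LVE5a
import Pool.Agent.LibSX15.LVE5b
import Pool.Agent.LibSX15.LVE5c

/-! LibSX15, LVE5: the flat energy bound -/

set_option autoImplicit false

namespace Pool.Agent.LibSX15

open Finset

private theorem lve5_sq (X : Finset ℤ) (u : ℤ → ℝ) (θ : ℝ) :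
    ‖∑ i ∈ X ×ˢ X, ((u i.1 * u i.2 : ℝ) : ℂ) * ee (θ * ((i.1 - i.2 : ℤ) : ℝ))‖ ^ 2 =
      ‖∑ x ∈ X, (u x : ℂ) * ee (θ * x)‖ ^ 4 := by
  have h : ∑ i ∈ X ×ˢ X, ((u i.1 * u i.2 : ℝ) : ℂ) * ee (θ * ((i.1 - i.2 : ℤ) : ℝ)) =
      (∑ x ∈ X, (u x : ℂ) * ee (θ * x)) * (starRingEnd ℂ) (∑ x ∈ X, (u x : ℂ) * ee (θ * x)) := by
    rw [map_sum, Finset.sum_mul_sum, Finset.sum_product]
    refine sum_congr rfl fun x _ => sum_congr rfl fun y _ => ?_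
    simp only [map_mul, Complex.conj_ofReal]
    rw [show θ * ((x - y : ℤ) : ℝ) = θ * (x : ℝ) - θ * (y : ℝ) by push_cast; ring, ee_sub]
    push_cast
    ring
  rw [h, norm_mul, RCLike.norm_conj]
  ring

private theorem lve5_pairsum (X : Finset ℤ) (u : ℤ → ℝ) :
    ∑ i ∈ X ×ˢ X, u i.1 * u i.2 = (∑ x ∈ X, u x) ^ 2 := by
  rw [Finset.sum_product, pow_two, Finset.sum_mul_sum]

private theorem lve5_csB (X : Finset ℤ) (u : ℤ → ℝ) (B : ℝ)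
    (hB2 : ((X.filter fun x => u x ≠ 0).card : ℝ) ≤ B) :
    (∑ x ∈ X, u x) ^ 2 ≤ B * ∑ x ∈ X, u x ^ 2 := by
  have h1 : ∑ x ∈ X, u x = ∑ x ∈ X.filter (fun x => u x ≠ 0), u x :=
    (Finset.sum_filter_ne_zero X).symm
  have h2 : (∑ x ∈ X.filter (fun x => u x ≠ 0), u x) ^ 2 ≤
      ((X.filter fun x => u x ≠ 0).card : ℝ) * ∑ x ∈ X.filter (fun x => u x ≠ 0), u x ^ 2 :=
    sq_sum_le_card_mul_sum_sq
  have h3 : ∑ x ∈ X.filter (fun x => u x ≠ 0), u x ^ 2 ≤ ∑ x ∈ X, u x ^ 2 :=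
    Finset.sum_le_sum_of_subset_of_nonneg (Finset.filter_subset _ _) fun x _ _ => sq_nonneg _
  have h4 : 0 ≤ ∑ x ∈ X, u x ^ 2 := Finset.sum_nonneg fun x _ => sq_nonneg _
  rw [h1]
  refine h2.trans ?_
  refine (mul_le_mul_of_nonneg_left h3 (Nat.cast_nonneg _)).trans ?_
  exact mul_le_mul_of_nonneg_right hB2 h4

/-- **Flat energy.** -/
theorem flat_energy (A : ℝ) (hA : 1 ≤ A) (d : Dat) (hω : ∀ n, 0 ≤ d.ω n) (Λ Y B Tm : ℝ)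
    (a : ℕ → ℂ) (P L : ℕ) (X W : Finset ℤ) (u : ℤ → ℝ) (hN : 1 ≤ d.N) (hΛ : 1 ≤ Λ) (hY : 0 < Y)
    (hL : 1 ≤ L) (hLP : L ≤ P) (ha : ∀ n, ‖a n‖ ≤ Λ * d.ω n)
    (hk : ∀ τ : ℤ, |(τ : ℝ)| ≤ Tm →
      ‖d.k τ‖ ≤ A * (d.N / (1 + (τ : ℝ) ^ 2) + Real.sqrt (d.N * P)))
    (hW : ∀ t ∈ W, Y ≤ ‖d.D a t‖)
    (hsep : ∀ x ∈ X, ∀ x' ∈ X, x ≠ x' → (L : ℤ) ≤ |x - x'|)
    (hu0 : ∀ x ∈ X, 0 ≤ u x)
    (hu : ∀ x ∈ X, u x ≤ ((W.filter fun t => x ≤ t ∧ t < x + L).card : ℝ))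
    (hT : ∀ x ∈ X, ∀ x' ∈ X, 2 * |((x - x' : ℤ) : ℝ)| + 4 * P ≤ Tm)
    (hB1 : ∑ x ∈ X, u x ≤ B) (hB2 : ((X.filter fun x => u x ≠ 0).card : ℝ) ≤ B)
    (hPB : P ^ 2 * B ≤ d.N) :
    En P X u ≤ (10 ^ 12 * A ^ 4 * (Λ ^ 2 * d.N ^ 2 / Y ^ 2) ^ 2 * ((P : ℝ) / L) +
      P ^ 2 * B ^ 3 / d.N) * ∑ x ∈ X, u x ^ 2 := by
  have hP : 1 ≤ P := hL.trans hLP
  have hΛ0 : 0 ≤ Λ := by linarith
  have hA0 : 0 ≤ A := by linarith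
  have hN0 : 0 ≤ d.N := by linarith
  have hP0 : (0 : ℝ) ≤ P := Nat.cast_nonneg _
  have hE0 : 0 ≤ En P X u := En_nonneg P X u hu0
  have hS0 : 0 ≤ ∑ x ∈ X, u x ^ 2 := Finset.sum_nonneg fun x _ => sq_nonneg _
  have hs0 : 0 ≤ ∑ x ∈ X, u x := Finset.sum_nonneg hu0
  -- the energy inequality
  have h1 := lve2_energy P L hL hLP X W u hsep hu0 hu (fun t => ‖d.D a t‖ ^ 2)
    (fun t => sq_nonneg _) (Y ^ 2) (sq_nonneg _)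
    (fun t ht => pow_le_pow_left₀ hY.le (hW t ht) 2)
  have h2 := lve3_open d Λ hΛ0 a hω ha P hP X u
  have h3 := lve5_cs d hω P (fun θ => ‖∑ x ∈ X, (u x : ℂ) * ee (θ * x)‖) (fun θ => norm_nonneg _)
  -- names
  obtain ⟨T, hTdef⟩ : ∃ T : ℝ, T = ∑ x₁ ∈ X, ∑ x₂ ∈ X, ∑ x₃ ∈ X, u x₁ * u x₂ * u x₃ *
        Fm P (fun t => ‖d.D a t‖ ^ 2) (x₁ + x₂ - x₃) := ⟨_, rfl⟩
  obtain ⟨S3, hS3⟩ : ∃ T : ℝ, T = ∑ n ∈ d.S, ∑ n' ∈ d.S, d.ω n * d.ω n' *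
        Fj P (d.ξ n - d.ξ n') *
        ‖∑ x ∈ X, (u x : ℂ) * ee ((d.ξ n - d.ξ n') * x)‖ ^ 3 := ⟨_, rfl⟩
  obtain ⟨S2, hS2⟩ : ∃ T : ℝ, T = ∑ n ∈ d.S, ∑ n' ∈ d.S, d.ω n * d.ω n' *
        Fj P (d.ξ n - d.ξ n') *
        ‖∑ x ∈ X, (u x : ℂ) * ee ((d.ξ n - d.ξ n') * x)‖ ^ 2 := ⟨_, rfl⟩
  obtain ⟨S4, hS4⟩ : ∃ T : ℝ, T = ∑ n ∈ d.S, ∑ n' ∈ d.S, d.ω n * d.ω n' *
        Fj P (d.ξ n - d.ξ n') *
        ‖∑ x ∈ X, (u x : ℂ) * ee ((d.ξ n - d.ξ n') * x)‖ ^ 4 := ⟨_, rfl⟩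
  rw [← hTdef] at h1 h2
  rw [← hS3] at h2
  rw [← hS3, ← hS2, ← hS4] at h3
  have hS30 : 0 ≤ S3 := by
    rw [hS3]
    refine Finset.sum_nonneg fun n _ => Finset.sum_nonneg fun n' _ => ?_
    have := Fj_nonneg P (d.ξ n - d.ξ n')
    have := hω n
    have := hω n'
    positivity
  have hκ2 : Real.sqrt (d.N * P) ^ 2 = d.N * P := Real.sq_sqrt (by positivity)
  -- the second moment
  have hb2 : S2 ≤ 20000 * A ^ 2 * (d.N ^ 2 * Qe X u id P + d.N * P * P * (∑ x ∈ X, u x) ^ 2) := by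
    have e1 := lve3_square d X u id P hP
    have e2 := lve4_pairs A hA d.k X u id P hP hu0 d.N (Real.sqrt (d.N * P)) Tm hN0
      (Real.sqrt_nonneg _) hk (by
        intro i hi j hj
        have := hT i hi j hj
        have h0 : 0 ≤ |((i - j : ℤ) : ℝ)| := abs_nonneg _
        simp only [id]
        linarith)
    rw [hκ2] at e2
    simp only [id] at e1
    rw [hS2, e1]
    simpa only [id] using e2
  -- the fourth moment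
  have hb4 : S4 ≤ 20000 * A ^ 2 * (d.N ^ 2 * En P X u +
      d.N * P * P * ((∑ x ∈ X, u x) ^ 2) ^ 2) := by
    have e1 := lve3_square d (X ×ˢ X) (fun p : ℤ × ℤ => u p.1 * u p.2)
      (fun p : ℤ × ℤ => p.1 - p.2) P hP
    have e2 := lve4_pairs A hA d.k (X ×ˢ X) (fun p : ℤ × ℤ => u p.1 * u p.2)
      (fun p : ℤ × ℤ => p.1 - p.2) P hP (by
        intro p hp
        rw [Finset.mem_product] at hp
        exact mul_nonneg (hu0 _ hp.1) (hu0 _ hp.2)) d.N (Real.sqrt (d.N * P)) Tm hN0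
      (Real.sqrt_nonneg _) hk (by
        intro i hi j hj
        rw [Finset.mem_product] at hi hj
        have t1 := hT i.1 hi.1 i.2 hi.2
        have t2 := hT j.1 hj.1 j.2 hj.2
        have t3 : |((i.1 - i.2 - (j.1 - j.2) : ℤ) : ℝ)| ≤
            |((i.1 - i.2 : ℤ) : ℝ)| + |((j.1 - j.2 : ℤ) : ℝ)| := by
          rw [Int.cast_sub (i.1 - i.2) (j.1 - j.2)]
          exact abs_sub _ _
        linarith)
    rw [hκ2, lve5_pairsum] at e2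
    have e3 : S4 = ∑ n ∈ d.S, ∑ n' ∈ d.S, d.ω n * d.ω n' * Fj P (d.ξ n - d.ξ n') *
        ‖∑ i ∈ X ×ˢ X, ((u i.1 * u i.2 : ℝ) : ℂ) *
          ee ((d.ξ n - d.ξ n') * ((i.1 - i.2 : ℤ) : ℝ))‖ ^ 2 := by
      rw [hS4]
      refine Finset.sum_congr rfl fun n _ => Finset.sum_congr rfl fun n' _ => ?_
      rw [lve5_sq]
    rw [e3, e1]
    exact e2
  have hdiag := lve5_diag P L hL hLP X u hsep
  have hcs := lve5_csB X u B hB2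
  -- abbreviations for the numbers
  obtain ⟨E, hE⟩ : ∃ T : ℝ, T = En P X u := ⟨_, rfl⟩
  obtain ⟨s, hs⟩ : ∃ T : ℝ, T = ∑ x ∈ X, u x := ⟨_, rfl⟩
  obtain ⟨SS, hSS⟩ : ∃ T : ℝ, T = ∑ x ∈ X, u x ^ 2 := ⟨_, rfl⟩
  obtain ⟨Q, hQ⟩ : ∃ T : ℝ, T = Qe X u id P := ⟨_, rfl⟩
  rw [← hE] at hE0 h1 hb4 ⊢
  rw [← hs] at hs0 hb2 hb4 hcs hB1
  rw [← hSS] at hS0 hdiag hcs ⊢
  rw [← hQ] at hb2 hdiag
  have hPL0 : (0 : ℝ) ≤ P / L := by positivity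
  have hQ0 : 0 ≤ Q := hQ ▸ Qe_nonneg X u id P hu0
  have hK1 : 1 ≤ 4800000000 * A ^ 4 := by
    have : 1 ≤ A ^ 4 := one_le_pow₀ hA
    linarith
  have hb2' : S2 ≤ 3 * (20000 * A ^ 2) *
      (d.N ^ 2 * ((P : ℝ) / L) * SS + d.N * P ^ 2 * s ^ 2) := by
    refine hb2.trans ?_
    have q1 : d.N ^ 2 * Q ≤ d.N ^ 2 * (3 * (P / L) * SS) :=
      mul_le_mul_of_nonneg_left hdiag (sq_nonneg _)
    have q2 : 0 ≤ d.N * P ^ 2 * s ^ 2 := by positivity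
    have q3 : d.N ^ 2 * Q + d.N * P * P * s ^ 2 ≤
        3 * (d.N ^ 2 * ((P : ℝ) / L) * SS + d.N * P ^ 2 * s ^ 2) := by nlinarith
    calc 20000 * A ^ 2 * (d.N ^ 2 * Q + d.N * P * P * s ^ 2)
        ≤ 20000 * A ^ 2 * (3 * (d.N ^ 2 * ((P : ℝ) / L) * SS + d.N * P ^ 2 * s ^ 2)) :=
          mul_le_mul_of_nonneg_left q3 (by positivity)
      _ = _ := by ring
  have hb4' : S4 ≤ (20000 * A ^ 2) * (d.N ^ 2 * E + d.N * P ^ 2 * s ^ 4) := by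
    refine hb4.trans (le_of_eq ?_)
    ring
  have hG0 : 0 ≤ d.N ^ 2 * E + d.N * P ^ 2 * s ^ 4 := by positivity
  have hH0 : 0 ≤ d.N ^ 2 * ((P : ℝ) / L) * SS + d.N * P ^ 2 * s ^ 2 := by positivity
  have hS40 : 0 ≤ S4 := by
    rw [hS4]
    refine Finset.sum_nonneg fun n _ => Finset.sum_nonneg fun n' _ => ?_
    have := Fj_nonneg P (d.ξ n - d.ξ n')
    have := hω n
    have := hω n'
    positivity
  have hmain : (E * Y ^ 2) ^ 2 ≤ (4800000000 * A ^ 4) * Λ ^ 4 *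
      (d.N ^ 2 * ((P : ℝ) / L) * SS + d.N * P ^ 2 * s ^ 2) *
      (d.N ^ 2 * E + d.N * P ^ 2 * s ^ 4) := by
    have m1 : E * Y ^ 2 ≤ 2 * (Λ ^ 2 * S3) := h1.trans (by linarith)
    have m2 : (E * Y ^ 2) ^ 2 ≤ (2 * (Λ ^ 2 * S3)) ^ 2 :=
      pow_le_pow_left₀ (by positivity) m1 2
    have m3 : (2 * (Λ ^ 2 * S3)) ^ 2 = 4 * Λ ^ 4 * S3 ^ 2 := by ring
    have m4 : S3 ^ 2 ≤ (3 * (20000 * A ^ 2) *
        (d.N ^ 2 * ((P : ℝ) / L) * SS + d.N * P ^ 2 * s ^ 2)) *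
        ((20000 * A ^ 2) * (d.N ^ 2 * E + d.N * P ^ 2 * s ^ 4)) :=
      h3.trans (mul_le_mul hb2' hb4' hS40 (by positivity))
    rw [m3] at m2
    refine m2.trans ((mul_le_mul_of_nonneg_left m4 (by positivity)).trans (le_of_eq ?_))
    ring
  have hB0 : 0 ≤ B := hs0.trans hB1
  have hfin := lve5_real (4800000000 * A ^ 4) hK1 E Y Λ d.N P L B SS s hE0 hY hΛ hN
    (by exact_mod_cast hL) (by exact_mod_cast hLP) hB0 hS0 hs0 hcs hB1 hPB hmain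
  refine hfin.trans (mul_le_mul_of_nonneg_right ?_ hS0)
  have z1 : 0 ≤ A ^ 4 * (Λ ^ 2 * d.N ^ 2 / Y ^ 2) ^ 2 * ((P : ℝ) / L) := by positivity
  nlinarith

end Pool.Agent.LibSX15
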