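import Pool.Agent.LibSX15.LVW
import Pool.Agent.LibSX15.LVC8
import Pool.Agent.LibSX15.LVE5

set_option autoImplicit false

namespace Pool.Agent.LibSX15

open Finset ComplexConjugate

private theorem lvc9_inj (L : ℕ) (hL : 1 ≤ L) : Function.Injective (fun κ : ℤ => (L : ℤ) * κ) := by
  intro a b h
  have hL0 : (L : ℤ) ≠ 0 := by positivity
  exact mul_left_cancel₀ hL0 h

private theorem lvc9_div (L : ℕ) (hL : 1 ≤ L) (κ : ℤ) : ((L : ℤ) * κ) / (L : ℤ) = κ :=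
  Int.mul_ediv_cancel_left κ (by positivity)

/-- the energy of the clusters is the energy of their left ends -/
private theorem lvc9_En (L P : ℕ) (hL : 1 ≤ L) (K : Finset ℤ) (u : ℤ → ℝ) :
    Ek L P K u = En P (K.image fun κ => (L : ℤ) * κ) (fun x => u (x / (L : ℤ))) := by
  classical
  set f : ℤ → ℤ := fun κ => (L : ℤ) * κ with hf
  have hinj : Function.Injective f := lvc9_inj L hL
  have hprod : (K.image f) ×ˢ (K.image f) = (K ×ˢ K).image (Prod.map f f) := by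
    ext ⟨a, b⟩
    simp only [mem_product, mem_image, Prod.exists, Prod.map_apply, Prod.mk.injEq]
    constructor
    · rintro ⟨⟨c, hc, rfl⟩, ⟨e, he, rfl⟩⟩
      exact ⟨c, e, ⟨hc, he⟩, rfl, rfl⟩
    · rintro ⟨c, e, ⟨hc, he⟩, rfl, rfl⟩
      exact ⟨⟨c, hc, rfl⟩, ⟨e, he, rfl⟩⟩
  have hinj2 : Function.Injective (Prod.map f f) := hinj.prodMap hinj
  unfold Ek En Qe
  rw [hprod, sum_image fun a _ b _ h => hinj2 h]
  refine sum_congr rfl fun p _ => ?_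
  rw [sum_image fun a _ b _ h => hinj2 h]
  refine sum_congr rfl fun q _ => ?_
  simp only [Prod.map_apply', Prod.map_fst, Prod.map_snd, hf, lvc9_div L hL]
  have e1 : (L : ℤ) * p.1 - (L : ℤ) * p.2 - ((L : ℤ) * q.1 - (L : ℤ) * q.2) =
      (L : ℤ) * (p.1 - p.2) - (L : ℤ) * (q.1 - q.2) := by ring
  rw [e1]

private theorem lvc9_mu (W : Finset ℤ) (L : ℕ) (hL : 1 ≤ L) (κ : ℤ) :
    (W.filter fun t => (L : ℤ) * κ ≤ t ∧ t < (L : ℤ) * κ + L).card = mu W L κ := by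
  unfold mu
  congr 1
  refine filter_congr fun t _ => ?_
  have hL0 : (0 : ℤ) < L := by positivity
  constructor
  · rintro ⟨h1, h2⟩
    rw [Int.ediv_eq_iff_of_pos hL0]
    constructor <;> nlinarith
  · intro h
    rw [Int.ediv_eq_iff_of_pos hL0] at h
    constructor <;> nlinarith [h.1, h.2]

/-- Row LVC9 (flat energy bound). -/
theorem LV_energy (C0 C1 A : ℝ) (hC0 : 1 ≤ C0) (hC1 : 1 ≤ C1) (hA : 1 ≤ A) : ∃ C : ℝ, 1 ≤ C ∧
    ∀ (d : Dat) (Λ Y H : ℝ) (a : ℕ → ℂ) (W : Finset ℤ), LVH d C0 Λ Y H a W → Win C1 d.N H W →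
    ∀ (L P : ℕ) (K : Finset ℤ) (u : ℤ → ℝ), 1 ≤ L → L ≤ P → (P : ℝ) ≤ C0 * d.M →
    (∀ κ ∈ K, 0 ≤ u κ) → (∀ κ ∈ K, u κ ≤ mu W L κ) →
    (∀ κ ∈ K, ∀ κ' ∈ K, |((L * (κ - κ') : ℤ) : ℝ)| ≤ A * P * d.N) →
    (∀ κ ∈ K, ∀ κ' ∈ K, 2 * |((L * (κ - κ') : ℤ) : ℝ)| + 4 * P ≤ 8 * d.M * d.N) →
    d.Err ^ 2 ≤ d.N → C * H * d.M ^ 5 ≤ d.N →
    Ek L P K u ≤ C * H ^ 2 * (P / L) * ∑ κ ∈ K, u κ ^ 2 := by
  classical
  obtain ⟨Cs, hCs, hsumu⟩ := LV_sumu C1 A hC1 hA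
  obtain ⟨F, hF⟩ : ∃ F, F = C0 ^ 4 * (2 * A + 6) := ⟨_, rfl⟩
  have hC04 : 1 ≤ C0 ^ 4 := one_le_pow₀ hC0
  have hF1 : 1 ≤ F := by rw [hF]; nlinarith
  have hCs0 : 0 < Cs := by linarith
  have hC00 : 0 < C0 := by linarith
  refine ⟨10 ^ 12 * F ^ 4 + 1 + Cs ^ 3 * C0 ^ 5 + Cs * C0 ^ 3, ?_, ?_⟩
  · have h1 : 0 ≤ 10 ^ 12 * F ^ 4 := by positivity
    have h2 : 0 ≤ Cs ^ 3 * C0 ^ 5 := by positivity
    have h3 : 0 ≤ Cs * C0 ^ 3 := by positivity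
    linarith
  intro d Λ Y H a W hV hwin L P K u hL hLP hPM hu0 hu hd1 hd2 hErr hN5
  have hgood := hV.good
  have hN2 : 2 ≤ d.N := hgood.hN
  have hN0 : 0 < d.N := by linarith
  have hM1 : 1 ≤ d.M := hgood.hM
  have hH0 : 0 ≤ H := by rw [hV.hH]; positivity
  have hP1 : 1 ≤ P := hL.trans hLP
  have hP1' : (1 : ℝ) ≤ P := by exact_mod_cast hP1
  have hL1' : (1 : ℝ) ≤ L := by exact_mod_cast hL
  have hLP' : (L : ℝ) ≤ P := by exact_mod_cast hLP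
  obtain ⟨-, hs2, hs3⟩ := hsumu d.N H W (by linarith) hH0 hwin L P K u hL hLP hu0 hu hd1
  set X : Finset ℤ := K.image fun κ => (L : ℤ) * κ with hX
  set v : ℤ → ℝ := fun x => u (x / (L : ℤ)) with hv
  have hvL : ∀ κ : ℤ, v ((L : ℤ) * κ) = u κ := fun κ => by rw [hv]; simp only [lvc9_div L hL]
  have hinj := lvc9_inj L hL
  have hsq : ∑ x ∈ X, v x ^ 2 = ∑ κ ∈ K, u κ ^ 2 := by
    rw [hX, sum_image fun a _ b _ h => hinj h]
    exact sum_congr rfl fun κ _ => by rw [hvL]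
  have hsum : ∑ x ∈ X, v x = ∑ κ ∈ K, u κ := by
    rw [hX, sum_image fun a _ b _ h => hinj h]
    exact sum_congr rfl fun κ _ => by rw [hvL]
  have hcard : (X.filter fun x => v x ≠ 0).card = (K.filter fun κ => u κ ≠ 0).card := by
    have h1 : (X.filter fun x => v x ≠ 0) = (K.filter fun κ => u κ ≠ 0).image fun κ => (L : ℤ) * κ := by
      ext x
      simp only [hX, mem_filter, mem_image]
      constructor
      · rintro ⟨⟨κ, hκ, rfl⟩, h2⟩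
        rw [hvL] at h2
        exact ⟨κ, ⟨hκ, h2⟩, rfl⟩
      · rintro ⟨κ, ⟨hκ, h2⟩, rfl⟩
        exact ⟨⟨κ, hκ, rfl⟩, by rwa [hvL]⟩
    rw [h1, card_image_of_injective _ hinj]
  set B : ℝ := Cs * P * H with hB
  have hB0 : 0 ≤ B := by positivity
  -- powers of `P` against `N`
  have hP3 : Cs * (P : ℝ) ^ 3 * H ≤ d.N := by
    calc Cs * (P : ℝ) ^ 3 * H ≤ Cs * (C0 * d.M) ^ 3 * H := by gcongr
      _ = (Cs * C0 ^ 3) * H * d.M ^ 3 := by ring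
      _ ≤ (Cs * C0 ^ 3) * H * d.M ^ 5 := by
          have : d.M ^ 3 ≤ d.M ^ 5 := pow_le_pow_right₀ hM1 (by norm_num)
          gcongr
      _ ≤ (10 ^ 12 * F ^ 4 + 1 + Cs ^ 3 * C0 ^ 5 + Cs * C0 ^ 3) * H * d.M ^ 5 := by
          have h1 : 0 ≤ 10 ^ 12 * F ^ 4 := by positivity
          have h2 : 0 ≤ Cs ^ 3 * C0 ^ 5 := by positivity
          gcongr
          linarith
      _ ≤ d.N := hN5
  have hP5 : Cs ^ 3 * (P : ℝ) ^ 5 * H ≤ d.N := by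
    calc Cs ^ 3 * (P : ℝ) ^ 5 * H ≤ Cs ^ 3 * (C0 * d.M) ^ 5 * H := by gcongr
      _ = (Cs ^ 3 * C0 ^ 5) * H * d.M ^ 5 := by ring
      _ ≤ (10 ^ 12 * F ^ 4 + 1 + Cs ^ 3 * C0 ^ 5 + Cs * C0 ^ 3) * H * d.M ^ 5 := by
          have h1 : 0 ≤ 10 ^ 12 * F ^ 4 := by positivity
          have h2 : 0 ≤ Cs * C0 ^ 3 := by positivity
          gcongr
          linarith
      _ ≤ d.N := hN5
  have hfe := flat_energy F hF1 d hgood.hω0 Λ Y B (min (8 * d.M * d.N) (2 * A * P * d.N + 4 * P)) a P L X W v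
    (by linarith) hV.hΛ hV.hY hL hLP hV.ha ?_ hV.hD ?_ ?_ ?_ ?_ (by rw [hsum]; exact hs2)
    (by rw [hcard]; exact hs3) ?_
  · rw [lvc9_En L P hL K u]
    refine hfe.trans ?_
    rw [hsq, ← hV.hH]
    have hS0 : 0 ≤ ∑ κ ∈ K, u κ ^ 2 := sum_nonneg fun _ _ => sq_nonneg _
    refine mul_le_mul_of_nonneg_right ?_ hS0
    have hPL : 1 ≤ (P : ℝ) / L := by rw [one_le_div (by linarith)]; exact hLP'
    have h1 : (P : ℝ) ^ 2 * B ^ 3 / d.N ≤ H ^ 2 * ((P : ℝ) / L) := by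
      have h2 : (P : ℝ) ^ 2 * B ^ 3 / d.N ≤ H ^ 2 := by
        rw [div_le_iff₀ hN0]
        calc (P : ℝ) ^ 2 * B ^ 3 = H ^ 2 * (Cs ^ 3 * (P : ℝ) ^ 5 * H) := by rw [hB]; ring
          _ ≤ H ^ 2 * d.N := by gcongr
      calc (P : ℝ) ^ 2 * B ^ 3 / d.N ≤ H ^ 2 * 1 := by rw [mul_one]; exact h2
        _ ≤ H ^ 2 * ((P : ℝ) / L) := by gcongr
    have h3 : 0 ≤ H ^ 2 * ((P : ℝ) / L) := by positivity
    have h4 : 0 ≤ (Cs ^ 3 * C0 ^ 5 + Cs * C0 ^ 3) * (H ^ 2 * ((P : ℝ) / L)) := by positivity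
    calc 10 ^ 12 * F ^ 4 * H ^ 2 * ((P : ℝ) / L) + (P : ℝ) ^ 2 * B ^ 3 / d.N
        ≤ 10 ^ 12 * F ^ 4 * H ^ 2 * ((P : ℝ) / L) + H ^ 2 * ((P : ℝ) / L) := by linarith
      _ ≤ 10 ^ 12 * F ^ 4 * H ^ 2 * ((P : ℝ) / L) + H ^ 2 * ((P : ℝ) / L) +
            (Cs ^ 3 * C0 ^ 5 + Cs * C0 ^ 3) * (H ^ 2 * ((P : ℝ) / L)) := by linarith
      _ = _ := by ring
  · -- kernel bound
    intro τ hτ
    have hτ1 : |(τ : ℝ)| ≤ 8 * d.M * d.N := hτ.trans (min_le_left _ _)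
    have hτ2 : |(τ : ℝ)| ≤ 2 * A * P * d.N + 4 * P := hτ.trans (min_le_right _ _)
    refine (LV_kb C0 d hgood τ hτ1).trans ?_
    have hNP : 1 ≤ d.N * P := by nlinarith
    have hsq0 : 0 ≤ Real.sqrt (d.N * P) := Real.sqrt_nonneg _
    have hE : d.Err ≤ Real.sqrt (d.N * P) := by
      apply Real.le_sqrt_of_sq_le
      nlinarith
    have hS : Real.sqrt |(τ : ℝ)| ≤ (2 * A + 4) * Real.sqrt (d.N * P) := by
      rw [Real.sqrt_le_left (by positivity), mul_pow, Real.sq_sqrt (by positivity)]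
      have h1 : |(τ : ℝ)| ≤ (2 * A + 4) * (d.N * P) := by
        calc |(τ : ℝ)| ≤ 2 * A * P * d.N + 4 * P := hτ2
          _ ≤ 2 * A * P * d.N + 4 * (d.N * P) := by nlinarith
          _ = _ := by ring
      have h2 : (2 * A + 4) * (d.N * P) ≤ (2 * A + 4) ^ 2 * (d.N * P) := by
        have h3 : (2 * A + 4) ≤ (2 * A + 4) ^ 2 := by nlinarith
        gcongr
      linarith
    have hpk : 0 ≤ d.N / (1 + (τ : ℝ) ^ 2) := by positivity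
    calc C0 ^ 4 * (d.N / (1 + (τ : ℝ) ^ 2) + d.Err + Real.sqrt |(τ : ℝ)|)
        ≤ C0 ^ 4 * (d.N / (1 + (τ : ℝ) ^ 2) + Real.sqrt (d.N * P) + (2 * A + 4) * Real.sqrt (d.N * P)) := by
          gcongr
      _ ≤ C0 ^ 4 * ((2 * A + 6) * (d.N / (1 + (τ : ℝ) ^ 2) + Real.sqrt (d.N * P))) := by
          gcongr
          nlinarith
      _ = F * (d.N / (1 + (τ : ℝ) ^ 2) + Real.sqrt (d.N * P)) := by rw [hF]; ring
  · -- separation
    intro x hx x' hx' hne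
    obtain ⟨κ, hκ, rfl⟩ := mem_image.1 hx
    obtain ⟨κ', hκ', rfl⟩ := mem_image.1 hx'
    have h1 : κ ≠ κ' := fun h => hne (by rw [h])
    have h2 : (1 : ℤ) ≤ |κ - κ'| := Int.one_le_abs (sub_ne_zero.2 h1)
    have h3 : (L : ℤ) * κ - (L : ℤ) * κ' = L * (κ - κ') := by ring
    rw [h3, abs_mul, Nat.abs_cast]
    nlinarith [(Nat.cast_nonneg L : (0:ℤ) ≤ L)]
  · intro x hx
    obtain ⟨κ, hκ, rfl⟩ := mem_image.1 hx
    rw [hvL]
    exact hu0 κ hκ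
  · intro x hx
    obtain ⟨κ, hκ, rfl⟩ := mem_image.1 hx
    rw [hvL, lvc9_mu W L hL κ]
    exact hu κ hκ
  · intro x hx x' hx'
    obtain ⟨κ, hκ, rfl⟩ := mem_image.1 hx
    obtain ⟨κ', hκ', rfl⟩ := mem_image.1 hx'
    have h3 : (L : ℤ) * κ - (L : ℤ) * κ' = L * (κ - κ') := by ring
    rw [h3]
    refine le_min (hd2 κ hκ κ' hκ') ?_
    have := hd1 κ hκ κ' hκ'
    linarith
  · calc (P : ℝ) ^ 2 * B = Cs * (P : ℝ) ^ 3 * H := by rw [hB]; ring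
      _ ≤ d.N := hP3

end Pool.Agent.LibSX15
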