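import Pool.Agent.LibSX15.LVE0

/-! LibSX15, LVT: the Taylor estimate (3'). -/

set_option autoImplicit false

namespace Pool.Agent.LibSX15

open Finset

theorem lvt_ee_sub (a b : ℝ) : ‖ee a - ee b‖ ≤ 2 * Real.pi * |a - b| := by
  have h1 : ee a - ee b = ee b * (ee (a - b) - 1) := by
    rw [mul_sub, mul_one, ← ee_add]
    ring_nf
  rw [h1, norm_mul, norm_ee, one_mul]
  unfold ee
  have h2 := Real.norm_exp_I_mul_ofReal_sub_one_le (x := 2 * Real.pi * (a - b))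
  rw [mul_comm Complex.I] at h2
  refine h2.trans ?_
  rw [Real.norm_eq_abs, abs_mul, abs_of_pos (by positivity : (0:ℝ) < 2 * Real.pi)]

/-- phase expansion -/
theorem lvt_phase (d : Dat) (C0 : ℝ) (hd : d.Good C0) (P L : ℝ) (m : ℤ) (τ0 x y : ℝ)
    (hP : 1 ≤ P) (hm : P ≤ m) (hx0 : 0 ≤ x) (hx : x ≤ L) (hL : L ≤ d.N) (hy0 : 0 ≤ y)
    (hy : y ≤ d.N) :
    |d.ph m (τ0 + (x - y)) - (d.ph m τ0 +
      (τ0 / (2 * m * (d.b0 * d.N)) - d.ε / (2 * (d.b0 * d.N)) * d.q1 (τ0 / (2 * m * (d.b0 * d.N)))) *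
        (x - y) + y ^ 2 / (4 * m * (d.b0 * d.N)))| ≤ L / (2 * P) + C0 * d.ε / (4 * P) := by
  have hN : 0 < d.N := by linarith [hd.hN]
  have hb : 0 < d.b0 := by linarith [hd.hb1]
  have hm0 : (0 : ℝ) < m := by linarith
  have hC0 := hd.hC0
  have hε := hd.hε
  set N' : ℝ := d.b0 * d.N with hN'
  have hN'0 : 0 < N' := by positivity
  have hNN' : d.N ≤ N' := by rw [hN']; nlinarith [hd.hb1]
  set z : ℝ := τ0 / (2 * m * N') with hz
  set h : ℝ := x - y with hh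
  have hhabs : |h| ≤ d.N := by rw [abs_le]; constructor <;> linarith
  have hq := hd.hq3 z ((τ0 + h) / (2 * m * N'))
  have e1 : (τ0 + h) / (2 * m * N') - z = h / (2 * m * N') := by rw [hz]; ring
  rw [e1] at hq
  have e2 : d.ph m (τ0 + h) - (d.ph m τ0 + (z - d.ε / (2 * N') * d.q1 z) * h + y ^ 2 / (4 * m * N')) =
      (h ^ 2 - y ^ 2) / (4 * m * N') -
        m * d.ε * (d.q ((τ0 + h) / (2 * m * N')) - d.q z - d.q1 z * (h / (2 * m * N'))) := by
    have e3 : d.ph m (τ0 + h) = (τ0 + h) ^ 2 / (4 * m * N') - m * d.ε * d.q ((τ0 + h) / (2 * m * N')) := rfl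
    have e4 : d.ph m τ0 = τ0 ^ 2 / (4 * m * N') - m * d.ε * d.q z := rfl
    rw [e3, e4]
    have e5 : z * h = τ0 * h / (2 * m * N') := by rw [hz]; ring
    have e6 : (z - d.ε / (2 * N') * d.q1 z) * h = τ0 * h / (2 * m * N') - d.ε / (2 * N') * d.q1 z * h := by
      rw [sub_mul, e5]
    rw [e6]
    field_simp
    ring
  rw [e2]
  have h1 : |(h ^ 2 - y ^ 2) / (4 * m * N')| ≤ L / (2 * P) := by
    rw [abs_div, abs_of_pos (by positivity : (0:ℝ) < 4 * m * N')]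
    have h2 : |h ^ 2 - y ^ 2| ≤ L * (2 * d.N) := by
      have : h ^ 2 - y ^ 2 = x * (x - 2 * y) := by rw [hh]; ring
      rw [this, abs_mul, abs_of_nonneg hx0]
      refine mul_le_mul hx ?_ (abs_nonneg _) (hx0.trans hx)
      rw [abs_le]; constructor <;> linarith
    rw [div_le_div_iff₀ (by positivity) (by positivity)]
    have hL0 : 0 ≤ L := hx0.trans hx
    calc |h ^ 2 - y ^ 2| * (2 * P) ≤ L * (2 * d.N) * (2 * P) := by gcongr
      _ = L * (4 * P * d.N) := by ring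
      _ ≤ L * (4 * m * N') := by gcongr
  have h3 : |m * d.ε * (d.q ((τ0 + h) / (2 * m * N')) - d.q z - d.q1 z * (h / (2 * m * N')))| ≤
      C0 * d.ε / (4 * P) := by
    rw [abs_mul, abs_of_nonneg (by positivity : (0:ℝ) ≤ m * d.ε)]
    have h4 : C0 * (h / (2 * m * N')) ^ 2 ≤ C0 * (1 / (4 * (m : ℝ) ^ 2)) := by
      have h5 : (h / (2 * m * N')) ^ 2 ≤ 1 / (4 * (m : ℝ) ^ 2) := by
        rw [div_pow, div_le_div_iff₀ (by positivity) (by positivity)]
        have h6 : h ^ 2 ≤ N' ^ 2 := by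
          rw [← sq_abs h]
          have := hhabs.trans hNN'
          gcongr
        nlinarith [sq_nonneg (m : ℝ), h6, mul_le_mul_of_nonneg_left h6 (by positivity : (0:ℝ) ≤ 4 * (m:ℝ)^2)]
      gcongr
    calc (m : ℝ) * d.ε * |d.q ((τ0 + h) / (2 * m * N')) - d.q z - d.q1 z * (h / (2 * m * N'))|
        ≤ m * d.ε * (C0 * (1 / (4 * (m : ℝ) ^ 2))) := by gcongr; exact hq.trans h4
      _ = C0 * d.ε / (4 * m) := by field_simp
      _ ≤ C0 * d.ε / (4 * P) := by gcongr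
  calc _ ≤ |(h ^ 2 - y ^ 2) / (4 * m * N')| +
        |m * d.ε * (d.q ((τ0 + h) / (2 * m * N')) - d.q z - d.q1 z * (h / (2 * m * N')))| := abs_sub _ _
    _ ≤ _ := add_le_add h1 h3

/-- **Taylor estimate (3').** -/
theorem LV_taylor (d : Dat) (C0 : ℝ) (hd : d.Good C0) (P L : ℝ) (m : ℤ) (τ0 x y : ℝ)
    (hP : 1 ≤ P) (hm : P ≤ m) (hx0 : 0 ≤ x) (hx : x ≤ L) (hL : L ≤ d.N) (hy0 : 0 ≤ y)
    (hy : y ≤ d.N) :
    ‖(d.w ((τ0 + (x - y)) / (2 * m * (d.b0 * d.N))) : ℂ) * ee (d.ph m (τ0 + (x - y))) -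
      (d.w (τ0 / (2 * m * (d.b0 * d.N))) : ℂ) * ee (d.ph m τ0) *
        ee ((τ0 / (2 * m * (d.b0 * d.N)) -
          d.ε / (2 * (d.b0 * d.N)) * d.q1 (τ0 / (2 * m * (d.b0 * d.N)))) * (x - y)) *
        ee (y ^ 2 / (4 * m * (d.b0 * d.N)))‖ ≤ 10 * C0 ^ 2 * (L + 1 + d.ε) / P := by
  have hN : 0 < d.N := by linarith [hd.hN]
  have hb : 0 < d.b0 := by linarith [hd.hb1]
  have hm0 : (0 : ℝ) < m := by linarith
  have hC0 := hd.hC0
  have hε := hd.hε
  have hph := lvt_phase d C0 hd P L m τ0 x y hP hm hx0 hx hL hy0 hy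
  set N' : ℝ := d.b0 * d.N with hN'
  have hN'0 : 0 < N' := by positivity
  have hNN' : d.N ≤ N' := by rw [hN']; nlinarith [hd.hb1]
  set z : ℝ := τ0 / (2 * m * N') with hz
  set h : ℝ := x - y with hh
  have hhabs : |h| ≤ d.N := by rw [abs_le]; constructor <;> linarith
  set ν : ℝ := z - d.ε / (2 * N') * d.q1 z with hν
  have e1 : ee (d.ph m τ0) * ee (ν * h) * ee (y ^ 2 / (4 * m * N')) =
      ee (d.ph m τ0 + ν * h + y ^ 2 / (4 * m * N')) := by
    rw [ee_add, ee_add]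
  have e2 : (d.w z : ℂ) * ee (d.ph m τ0) * ee (ν * h) * ee (y ^ 2 / (4 * m * N')) =
      (d.w z : ℂ) * ee (d.ph m τ0 + ν * h + y ^ 2 / (4 * m * N')) := by
    rw [← e1]; ring
  rw [e2]
  have e3 : (d.w ((τ0 + h) / (2 * m * N')) : ℂ) * ee (d.ph m (τ0 + h)) -
      (d.w z : ℂ) * ee (d.ph m τ0 + ν * h + y ^ 2 / (4 * m * N')) =
      ((d.w ((τ0 + h) / (2 * m * N')) - d.w z : ℝ) : ℂ) * ee (d.ph m (τ0 + h)) +
      (d.w z : ℂ) * (ee (d.ph m (τ0 + h)) - ee (d.ph m τ0 + ν * h + y ^ 2 / (4 * m * N'))) := by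
    push_cast; ring
  rw [e3]
  refine (norm_add_le _ _).trans ?_
  rw [norm_mul, norm_mul, norm_ee, mul_one, Complex.norm_real, Complex.norm_real, Real.norm_eq_abs,
    Real.norm_eq_abs]
  have h1 : |d.w ((τ0 + h) / (2 * m * N')) - d.w z| ≤ C0 * (1 / (2 * P)) := by
    refine (hd.hwL _ _).trans ?_
    have e4 : (τ0 + h) / (2 * m * N') - z = h / (2 * m * N') := by rw [hz]; ring
    rw [e4, abs_div, abs_of_pos (by positivity : (0:ℝ) < 2 * m * N')]
    have h5 : |h| / (2 * m * N') ≤ 1 / (2 * P) := by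
      rw [div_le_div_iff₀ (by positivity) (by positivity), one_mul]
      calc |h| * (2 * P) ≤ N' * (2 * m) := by
            gcongr
            exact hhabs.trans hNN'
        _ = 2 * m * N' := by ring
    gcongr
  have h2 : ‖ee (d.ph m (τ0 + h)) - ee (d.ph m τ0 + ν * h + y ^ 2 / (4 * m * N'))‖ ≤
      2 * Real.pi * (L / (2 * P) + C0 * d.ε / (4 * P)) := by
    refine (lvt_ee_sub _ _).trans ?_
    gcongr
  have hpi : Real.pi ≤ 3.15 := by linarith [Real.pi_lt_d2]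
  have hpi0 := Real.pi_pos
  have hL0 : 0 ≤ L := hx0.trans hx
  calc |d.w ((τ0 + h) / (2 * m * N')) - d.w z| +
        |d.w z| * ‖ee (d.ph m (τ0 + h)) - ee (d.ph m τ0 + ν * h + y ^ 2 / (4 * m * N'))‖
      ≤ C0 * (1 / (2 * P)) + C0 * (2 * Real.pi * (L / (2 * P) + C0 * d.ε / (4 * P))) := by
        refine add_le_add h1 (mul_le_mul (hd.hw _) h2 (norm_nonneg _) (by linarith))
    _ ≤ C0 * (1 / (2 * P)) + C0 * (2 * 3.15 * (L / (2 * P) + C0 * d.ε / (4 * P))) := by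
        gcongr
    _ = (C0 * (1 / 2) + C0 * 3.15 * L + C0 ^ 2 * (3.15 / 2) * d.ε) / P := by
        field_simp
        ring
    _ ≤ 10 * C0 ^ 2 * (L + 1 + d.ε) / P := by
        have hC2 : C0 ≤ C0 ^ 2 := by nlinarith
        have hCL : C0 * L ≤ C0 ^ 2 * L := mul_le_mul_of_nonneg_right hC2 hL0
        have hCE : 0 ≤ C0 ^ 2 * d.ε := by positivity
        have hCL0 : 0 ≤ C0 ^ 2 * L := by positivity
        gcongr
        nlinarith

end Pool.Agent.LibSX15
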