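import Pool.Agent.LibSX15.LVDefs
import Pool.Agent.LibSX15.LVT

set_option autoImplicit false

namespace Pool.Agent.LibSX15

open Finset ComplexConjugate

/-- Row LVB1 (Step 3', Taylor), from `LV_taylor`. -/
theorem LV_chirp (C0 : ℝ) (d : Dat) (hd : d.Good C0) (P L p : ℕ) (τ x y : ℝ) (hP : 1 ≤ P)
    (hp : P ≤ p) (hL : (L : ℝ) ≤ d.N) (hx : 0 ≤ x) (hxL : x ≤ L) (hy : 0 ≤ y) (hyN : y ≤ d.N) :
    ‖d.chirp p (τ + x - y) - (d.w (d.zz p τ) : ℂ) * ee (d.ph p τ) * ee (d.nu p τ * (x - y)) *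
      ee (y ^ 2 / (4 * p * (d.b0 * d.N)))‖ ≤ 10 * C0 ^ 2 * (L + 1 + d.ε) / P := by
  have h := LV_taylor d C0 hd P L (p : ℤ) τ x y (by exact_mod_cast hP) (by exact_mod_cast hp) hx hxL
    hL hy hyN
  have e : τ + x - y = τ + (x - y) := by ring
  rw [e]
  simpa only [Dat.chirp, Dat.zz, Dat.nu, Int.cast_natCast] using h

end Pool.Agent.LibSX15
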