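import Pool.Agent.LibSX15.LVA11
import Pool.Agent.LibSX15.LVB1

set_option autoImplicit false

namespace Pool.Agent.LibSX15

open Finset ComplexConjugate

/-- Row LVB3 (Step 3'). Write `t = L κ + x`, `κ = t / L`, `x = t % L ∈ [0, L)`; `τ = L κ - s0`. Group the sum over
`t ∈ W` by `κ ∈ Ks W L`: the second sum is `∑_{t ∈ W} c t w(z) ee(ph p τ) ee(ν (x - y)) ee(y²/(4pN'))` (the `if` in `U`
is harmless because of the factor `w`). Termwise `LV_chirp`; the difference of the terms vanishes unless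
`-N ≤ τ ≤ C0 P N + N` (`LV_vanish` for `τ` and `τ + x - y`), i.e. `t` lies in an interval of length
`≤ (C0 P + 4) N`, so at most `C1 H (C0 P + 5)` elements; times `C (L + 1 + ε) / P`. -/
theorem LV_approx (C0 C1 : ℝ) (hC0 : 1 ≤ C0) (hC1 : 1 ≤ C1) : ∃ C : ℝ, 1 ≤ C ∧
    ∀ (d : Dat) (H : ℝ) (W : Finset ℤ) (c : ℤ → ℂ), d.Good C0 → 0 ≤ H → Win C1 d.N H W →
    (∀ t, ‖c t‖ = 1) → ∀ (P L p n0 : ℕ) (s0 y : ℤ), 1 ≤ P → 1 ≤ L → L ≤ P → (P : ℝ) ≤ d.N →
    P ≤ p → p < 2 * P → (n0 : ℝ) ≤ d.N → 0 ≤ y → y < n0 →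
    ‖∑ t ∈ W, c t * d.chirp p ((t : ℝ) - ((s0 + y : ℤ) : ℝ)) -
      ee ((y : ℝ) ^ 2 / (4 * p * (d.b0 * d.N))) *
        ∑ κ ∈ Ks W L, (d.w (d.zz p ((L * κ - s0 : ℤ) : ℝ)) : ℂ) * ee (d.ph p ((L * κ - s0 : ℤ) : ℝ)) *
          d.U W c L s0 p κ * ee (-(d.nu p ((L * κ - s0 : ℤ) : ℝ) * y))‖ ≤
      C * H * (L + 1 + d.ε) := by
  refine ⟨30 * C0 ^ 3 * C1, ?_, ?_⟩
  · have h1 : 1 ≤ C0 ^ 3 := one_le_pow₀ hC0
    have h2 : 1 ≤ C0 ^ 3 * C1 := by nlinarith
    nlinarith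
  · intro d H W c hd hH hWin hc P L p n0 s0 y hP hL hLP hPN hp1 hp2 hn0 hy0 hyn
    have hP' : (1 : ℝ) ≤ P := by exact_mod_cast hP
    have hL' : (1 : ℝ) ≤ L := by exact_mod_cast hL
    have hLP' : (L : ℝ) ≤ P := by exact_mod_cast hLP
    have hLN : (L : ℝ) ≤ d.N := hLP'.trans hPN
    have hN : 0 < d.N := by have := hd.hN; linarith
    have hCP : 1 ≤ C0 * P := by nlinarith
    have hε := hd.hε
    have hy0' : (0 : ℝ) ≤ (y : ℝ) := by exact_mod_cast hy0
    have hyN' : (y : ℝ) ≤ d.N := by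
      have h1 : (y : ℝ) ≤ (n0 : ℝ) := by exact_mod_cast hyn.le
      exact h1.trans hn0
    have hLz : (0 : ℤ) < (L : ℤ) := by exact_mod_cast hL
    -- the terms
    set τ : ℤ → ℝ := fun t => (((L : ℤ) * (t / (L : ℤ)) - s0 : ℤ) : ℝ) with hτ
    set G : ℤ → ℂ := fun t => c t * ((d.w (d.zz p (τ t)) : ℂ) * ee (d.ph p (τ t)) *
      ee (d.nu p (τ t) * (((t % (L : ℤ) : ℤ) : ℝ) - (y : ℝ))) *
      ee ((y : ℝ) ^ 2 / (4 * p * (d.b0 * d.N)))) with hG
    have hxL : ∀ t : ℤ, (0 : ℝ) ≤ ((t % (L : ℤ) : ℤ) : ℝ) ∧ ((t % (L : ℤ) : ℤ) : ℝ) ≤ (L : ℝ) := by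
      intro t
      constructor
      · exact_mod_cast Int.emod_nonneg t hLz.ne'
      · have := (Int.emod_lt_of_pos t hLz).le
        exact_mod_cast this
    have htτ : ∀ t : ℤ, (t : ℝ) - ((s0 + y : ℤ) : ℝ) = τ t + ((t % (L : ℤ) : ℤ) : ℝ) - (y : ℝ) := by
      intro t
      have h1 : (L : ℤ) * (t / (L : ℤ)) + t % (L : ℤ) = t := Int.mul_ediv_add_emod t (L : ℤ)
      have h2 : (((L : ℤ) * (t / (L : ℤ)) + t % (L : ℤ) : ℤ) : ℝ) = (t : ℝ) := by rw [h1]
      rw [← h2, hτ]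
      push_cast
      ring
    -- regrouping
    have hgroup : ee ((y : ℝ) ^ 2 / (4 * p * (d.b0 * d.N))) *
        ∑ κ ∈ Ks W L, (d.w (d.zz p ((L * κ - s0 : ℤ) : ℝ)) : ℂ) * ee (d.ph p ((L * κ - s0 : ℤ) : ℝ)) *
          d.U W c L s0 p κ * ee (-(d.nu p ((L * κ - s0 : ℤ) : ℝ) * y)) = ∑ t ∈ W, G t := by
      have hmaps : ∀ t ∈ W, t / (L : ℤ) ∈ Ks W L := fun t ht => Finset.mem_image_of_mem _ ht
      rw [← Finset.sum_fiberwise_of_maps_to hmaps, Finset.mul_sum]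
      refine Finset.sum_congr rfl fun κ hκ => ?_
      have h1 : ∀ t ∈ W.filter (fun t => t / (L : ℤ) = κ), G t =
          c t * ((d.w (d.zz p ((L * κ - s0 : ℤ) : ℝ)) : ℂ) * ee (d.ph p ((L * κ - s0 : ℤ) : ℝ)) *
      ee (d.nu p ((L * κ - s0 : ℤ) : ℝ) * (((t % (L : ℤ) : ℤ) : ℝ) - (y : ℝ))) *
      ee ((y : ℝ) ^ 2 / (4 * p * (d.b0 * d.N)))) := by
        intro t ht
        rw [Finset.mem_filter] at ht
        simp only [hG, hτ, ht.2]
      rw [Finset.sum_congr rfl h1]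
      unfold Dat.U
      by_cases hw : d.w (d.zz p ((L * κ - s0 : ℤ) : ℝ)) = 0
      · rw [if_pos hw, hw]
        simp
      · rw [if_neg hw, Finset.mul_sum, Finset.sum_mul, Finset.mul_sum]
        refine Finset.sum_congr rfl fun t ht => ?_
        have h2 : d.nu p ((L * κ - s0 : ℤ) : ℝ) * (((t % (L : ℤ) : ℤ) : ℝ) - (y : ℝ)) =
            d.nu p ((L * κ - s0 : ℤ) : ℝ) * ((t % (L : ℤ) : ℤ) : ℝ) +
              (-(d.nu p ((L * κ - s0 : ℤ) : ℝ) * y)) := by ring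
        rw [h2, ee_add]
        ring
    rw [hgroup, ← Finset.sum_sub_distrib]
    -- termwise
    have hterm : ∀ t ∈ W, ‖c t * d.chirp p ((t : ℝ) - ((s0 + y : ℤ) : ℝ)) - G t‖ ≤
        if (s0 : ℝ) ≤ t ∧ (t : ℝ) ≤ s0 + (C0 * P + 1) * d.N then
          10 * C0 ^ 2 * (L + 1 + d.ε) / P else 0 := by
      intro t ht
      have hx := hxL t
      rw [htτ t, hG]
      simp only
      rw [← mul_sub, norm_mul, hc, one_mul]
      split_ifs with hcond
      · exact LV_chirp C0 d hd P L p (τ t) _ _ hP hp1 hLN hx.1 hx.2 hy0' hyN'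
      · have hzero1 : d.w (d.zz p (τ t + ((t % (L : ℤ) : ℤ) : ℝ) - (y : ℝ))) = 0 := by
          by_contra hne
          have hv := LV_vanish C0 d hd P p _ hP hp1 hp2 hne
          have e := htτ t
          push_cast at e
          apply hcond
          constructor
          · linarith [hv.1]
          · have := hv.2
            nlinarith
        have hzero2 : d.w (d.zz p (τ t)) = 0 := by
          by_contra hne
          have hv := LV_vanish C0 d hd P p _ hP hp1 hp2 hne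
          have e := htτ t
          push_cast at e
          apply hcond
          constructor
          · linarith [hv.1, hx.1]
          · have := hv.2
            nlinarith [hx.2]
        unfold Dat.chirp
        rw [hzero1, hzero2]
        simp
    refine (norm_sum_le _ _).trans ((Finset.sum_le_sum hterm).trans ?_)
    rw [← Finset.sum_filter, Finset.sum_const, nsmul_eq_mul]
    have h2 := hWin (s0 : ℝ) ((C0 * P + 1) * d.N) (by positivity)
    have h3 : (C0 * P + 1) * d.N / d.N = C0 * P + 1 := by field_simp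
    rw [h3] at h2
    have hE : 0 ≤ 10 * C0 ^ 2 * (L + 1 + d.ε) / P := by positivity
    calc _ ≤ (C1 * H * (1 + (C0 * P + 1))) * (10 * C0 ^ 2 * (L + 1 + d.ε) / P) :=
          mul_le_mul_of_nonneg_right h2 hE
      _ ≤ (C1 * H * (3 * (C0 * P))) * (10 * C0 ^ 2 * (L + 1 + d.ε) / P) := by
          apply mul_le_mul_of_nonneg_right _ hE
          apply mul_le_mul_of_nonneg_left _ (by positivity)
          linarith
      _ = 30 * C0 ^ 3 * C1 * H * (L + 1 + d.ε) := by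
          have : (P : ℝ) ≠ 0 := by positivity
          field_simp
          ring

end Pool.Agent.LibSX15
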