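import Pool.Agent.LibSX15.LVDefs

set_option autoImplicit false

namespace Pool.Agent.LibSX15

open Finset ComplexConjugate

/-- Row LVA11. `w (z) ≠ 0` forces `1 / C0 ≤ z ≤ 1 / 4`, `z = τ / (2 p N')`, so `0 < τ ≤ p N' / 2 ≤ P N' ≤ C0 P N`. -/
theorem LV_vanish (C0 : ℝ) (d : Dat) (hd : d.Good C0) (P p : ℕ) (τ : ℝ) (hP : 1 ≤ P) (h1 : P ≤ p)
    (h2 : p < 2 * P) (h : d.w (d.zz p τ) ≠ 0) : 0 < τ ∧ τ ≤ C0 * P * d.N := by
  have hz0 := hd.hw0 _ h
  have hz1 := hd.hw1 _ h
  have hC0 := hd.hC0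
  have hN := hd.hN
  have hb1 := hd.hb1
  have hb2 := hd.hb2
  have hP' : (1 : ℝ) ≤ P := by exact_mod_cast hP
  have h1' : (P : ℝ) ≤ p := by exact_mod_cast h1
  have h2' : (p : ℝ) ≤ 2 * P := by exact_mod_cast h2.le
  have hden : (0 : ℝ) < 2 * p * (d.b0 * d.N) := by
    have : (0 : ℝ) < p := by linarith
    have hb : 0 < d.b0 := by linarith
    have hn : 0 < d.N := by linarith
    positivity
  unfold Dat.zz at hz0 hz1
  constructor
  · have : (0 : ℝ) < 1 / C0 := by positivity
    have h3 : 0 < τ / (2 * p * (d.b0 * d.N)) := lt_of_lt_of_le this hz0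
    rcases lt_trichotomy τ 0 with h4 | h4 | h4
    · exact absurd (div_neg_of_neg_of_pos h4 hden) (not_lt.2 h3.le)
    · rw [h4, zero_div] at h3
      exact absurd h3 (lt_irrefl _)
    · exact h4
  · rw [div_le_iff₀ hden] at hz1
    have hbn : 0 ≤ d.b0 * d.N := by
      have hb : 0 ≤ d.b0 := by linarith
      have hn : 0 ≤ d.N := by linarith
      positivity
    calc τ ≤ 1 / 4 * (2 * p * (d.b0 * d.N)) := hz1
      _ = (p : ℝ) / 2 * (d.b0 * d.N) := by ring
      _ ≤ P * (d.b0 * d.N) := by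
          apply mul_le_mul_of_nonneg_right _ hbn
          linarith
      _ ≤ P * (C0 * d.N) := by
          apply mul_le_mul_of_nonneg_left _ (by linarith)
          apply mul_le_mul_of_nonneg_right hb2 (by linarith)
      _ = C0 * P * d.N := by ring

/-- Row LVA11 (Step 2). `‖B p‖ ≤ ∑_{t ∈ W} ∑_s C0`, `s` in `[t - C0 P N, t]` (`LV_vanish`), at most
`C1 H (1 + C0 P)` values of `s`. -/
theorem LV_small (C0 C1 : ℝ) (hC0 : 1 ≤ C0) (hC1 : 1 ≤ C1) : ∃ C : ℝ, 1 ≤ C ∧
    ∀ (d : Dat) (H : ℝ) (W : Finset ℤ) (c : ℤ → ℂ) (P : ℕ), d.Good C0 → 0 ≤ H →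
    Win C1 d.N H W → (∀ t, ‖c t‖ = 1) → 1 ≤ P →
    ∑ p ∈ Finset.Ico P (2 * P), ‖d.B W c p‖ ≤ C * (P : ℝ) ^ 2 * H * W.card := by
  refine ⟨2 * C0 ^ 2 * C1, ?_, ?_⟩
  · nlinarith [mul_self_nonneg (C0 - 1), mul_nonneg (sub_nonneg.2 hC0) (sub_nonneg.2 hC1),
      sq_nonneg C0, mul_nonneg (sq_nonneg C0) (sub_nonneg.2 hC1)]
  · intro d H W c P hd hH hWin hc hP
    have hP' : (1 : ℝ) ≤ P := by exact_mod_cast hP
    have hN : 0 < d.N := by have := hd.hN; linarith
    have hCP : 1 ≤ C0 * P := by nlinarith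
    have key : ∀ p ∈ Finset.Ico P (2 * P), ‖d.B W c p‖ ≤ W.card * (2 * C0 ^ 2 * C1 * P * H) := by
      intro p hp
      rw [Finset.mem_Ico] at hp
      unfold Dat.B
      refine (norm_sum_le _ _).trans ?_
      rw [← nsmul_eq_mul]
      refine Finset.sum_le_card_nsmul _ _ _ fun t ht => ?_
      have h1 : ‖∑ s ∈ W, c t * conj (c s) * d.chirp p ((t : ℝ) - s)‖ ≤
          ∑ s ∈ W.filter (fun s : ℤ => (t : ℝ) - C0 * P * d.N ≤ s ∧
            (s : ℝ) ≤ (t : ℝ) - C0 * P * d.N + C0 * P * d.N), C0 := by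
        rw [Finset.sum_filter]
        refine (norm_sum_le _ _).trans (Finset.sum_le_sum fun s hs => ?_)
        have hn : ‖c t * conj (c s) * d.chirp p ((t : ℝ) - s)‖ = |d.w (d.zz p ((t : ℝ) - s))| := by
          unfold Dat.chirp
          rw [norm_mul, norm_mul, norm_mul, hc, RCLike.norm_conj, hc, norm_ee, Complex.norm_real,
            Real.norm_eq_abs]
          ring
        rw [hn]
        split_ifs with h
        · exact hd.hw _
        · by_contra hne
          push Not at hne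
          have hw : d.w (d.zz p ((t : ℝ) - s)) ≠ 0 := by
            intro h0
            rw [h0, abs_zero] at hne
            exact lt_irrefl _ hne
          have hv := LV_vanish C0 d hd P p _ hP hp.1 hp.2 hw
          apply h
          constructor
          · linarith [hv.2]
          · linarith [hv.1]
      refine h1.trans ?_
      rw [Finset.sum_const, nsmul_eq_mul]
      have h2 := hWin ((t : ℝ) - C0 * P * d.N) (C0 * P * d.N) (by positivity)
      have h3 : C0 * P * d.N / d.N = C0 * P := by field_simp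
      rw [h3] at h2
      calc _ ≤ (C1 * H * (1 + C0 * P)) * C0 := mul_le_mul_of_nonneg_right h2 (by linarith)
        _ ≤ (C1 * H * (2 * (C0 * P))) * C0 := by
            apply mul_le_mul_of_nonneg_right _ (by linarith)
            apply mul_le_mul_of_nonneg_left _ (by positivity)
            linarith
        _ = 2 * C0 ^ 2 * C1 * P * H := by ring
    calc _ ≤ ∑ p ∈ Finset.Ico P (2 * P), (W.card : ℝ) * (2 * C0 ^ 2 * C1 * P * H) :=
          Finset.sum_le_sum key
      _ = 2 * C0 ^ 2 * C1 * (P : ℝ) ^ 2 * H * W.card := by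
          rw [Finset.sum_const, Nat.card_Ico, nsmul_eq_mul]
          have : 2 * P - P = P := by omega
          rw [this]
          ring

end Pool.Agent.LibSX15
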