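import Pool.Agent.LibSX15.LVE6a
import Pool.Agent.LibSX15.LVA11

set_option autoImplicit false

namespace Pool.Agent.LibSX15

open Finset ComplexConjugate

/-- the norm of the sum over a cluster -/
theorem LVB5_norm (A : Finset ℤ) (c : ℤ → ℂ) (L : ℕ) (κ : ℤ)
    (hA : ∀ t ∈ A, t / (L : ℤ) = κ) (ν : ℝ) :
    ‖∑ t ∈ A, c t * ee (ν * ((t % (L : ℤ) : ℤ) : ℝ))‖ = ‖∑ t ∈ A, c t * ee (ν * (t : ℝ))‖ := by
  have h1 : ∑ t ∈ A, c t * ee (ν * (t : ℝ)) =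
      ee (ν * ((L * κ : ℤ) : ℝ)) * ∑ t ∈ A, c t * ee (ν * ((t % (L : ℤ) : ℤ) : ℝ)) := by
    rw [Finset.mul_sum]
    refine Finset.sum_congr rfl fun t ht => ?_
    have h2 : (t : ℝ) = ((L * κ : ℤ) : ℝ) + ((t % (L : ℤ) : ℤ) : ℝ) := by
      rw [← Int.cast_add, ← hA t ht, Int.mul_ediv_add_emod]
    rw [h2, mul_add, ee_add]
    ring
  rw [h1, norm_mul, norm_ee, one_mul]

/-- separation of the frequencies: the first half -/
theorem LVB5_dz {C0 z z' p p' P : ℝ} (hC0 : 1 ≤ C0) (hP : 1 ≤ P) (hz' : 1 / C0 ≤ z')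
    (hp : P ≤ p) (hp2 : p ≤ 2 * P) (hpp : p + 1 ≤ p') (h : z * p = z' * p') :
    1 / (2 * C0 * P) ≤ z - z' := by
  have hp0 : 0 < p := by linarith
  have hC : 0 < C0 := by linarith
  have hz0 : 0 < z' := lt_of_lt_of_le (by positivity) hz'
  have h1 : z - z' = z' * (p' - p) / p := by
    field_simp
    linarith
  rw [h1, div_le_div_iff₀ (by positivity) hp0]
  rw [div_le_iff₀ hC] at hz'
  have h2 : z' * 1 ≤ z' * (p' - p) := mul_le_mul_of_nonneg_left (by linarith) hz0.le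
  have h3 : 1 * (2 * P) ≤ z' * C0 * (2 * P) := mul_le_mul_of_nonneg_right hz' (by linarith)
  have h4 : z' * 1 * (2 * C0 * P) ≤ z' * (p' - p) * (2 * C0 * P) :=
    mul_le_mul_of_nonneg_right h2 (by positivity)
  linarith

/-- Row LVB5 (Step 6, Bessel). Let `τ = L κ - s0` and `p` with `w (zz p τ) ≠ 0` (otherwise `U = 0`); then `τ > 0`,
`1 / C0 ≤ z_p ≤ 1 / 4`. For `p < p'` in `[P, 2P)`: `z_p - z_p' = z_p' (p' - p) / p ≥ 1 / (2 C0 P)`, and
`|ν_p - ν_p'| ≥ |z_p - z_p'| (1 - ε C0 / (2N')) ≥ 1 / (4 C0 P)` (`hq2`), `|ν_p - ν_p'| ≤ 1/2`. `lve6_bessel` with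
`δ = 1 / (4 C0 P)`, `x = L κ`, `A` = the cluster, `L ≤ P` (`t % L = t - L κ` on the cluster, so
`‖∑ c t ee (ν (t % L))‖ = ‖∑ c t ee (ν t)‖`). -/
theorem LV_bessel (C0 : ℝ) (hC0 : 1 ≤ C0) : ∃ C : ℝ, 1 ≤ C ∧ ∀ (d : Dat) (W : Finset ℤ)
    (c : ℤ → ℂ), d.Good C0 → (∀ t, ‖c t‖ = 1) → C * d.ε ≤ d.N →
    ∀ (P L : ℕ) (s0 κ : ℤ), 1 ≤ P → 1 ≤ L → L ≤ P →
    ∑ p ∈ Finset.Ico P (2 * P), ‖d.U W c L s0 p κ‖ ^ 2 ≤ C * P * mu W L κ := by
  classical
  refine ⟨90 * C0, by linarith, ?_⟩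
  intro d W c hd hc hε P L s0 κ hP hL hLP
  set τ : ℝ := ((L * κ - s0 : ℤ) : ℝ) with hτ
  set A := W.filter (fun t => t / (L : ℤ) = κ) with hA
  set S := (Finset.Ico P (2 * P)).filter (fun p => d.w (d.zz p τ) ≠ 0) with hS
  have hC00 : 0 < C0 := by linarith
  have hP1 : (1 : ℝ) ≤ P := by exact_mod_cast hP
  have hL1 : (1 : ℝ) ≤ L := by exact_mod_cast hL
  have hLP' : (L : ℝ) ≤ P := by exact_mod_cast hLP
  have hN := hd.hN
  have hN' : d.N ≤ d.b0 * d.N := by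
    have := hd.hb1
    nlinarith
  set N' : ℝ := d.b0 * d.N with hN'd
  have hN'0 : 0 < N' := by linarith
  have hε0 := hd.hε
  -- the terms with `w = 0` vanish
  have h1 : ∑ p ∈ Finset.Ico P (2 * P), ‖d.U W c L s0 p κ‖ ^ 2 =
      ∑ p ∈ S, ‖∑ t ∈ A, c t * ee (d.nu p τ * (t : ℝ))‖ ^ 2 := by
    rw [hS, Finset.sum_filter]
    refine Finset.sum_congr rfl fun p _ => ?_
    unfold Dat.U
    rw [← hτ, ← hA]
    by_cases h0 : d.w (d.zz p τ) = 0
    · rw [if_pos h0, if_neg (not_not.2 h0)]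
      simp
    · rw [if_neg h0, if_pos h0, LVB5_norm A c L κ (fun t ht => (Finset.mem_filter.1 ht).2)]
  -- frequencies
  have hz : ∀ p ∈ S, 1 / C0 ≤ d.zz p τ ∧ d.zz p τ ≤ 1 / 4 := fun p hp =>
    ⟨hd.hw0 _ (Finset.mem_filter.1 hp).2, hd.hw1 _ (Finset.mem_filter.1 hp).2⟩
  have hzp : ∀ p ∈ S, d.zz p τ * p = τ / (2 * N') := by
    intro p hp
    have h2 := (Finset.mem_Ico.1 (Finset.mem_filter.1 hp).1).1
    have h3 : (0 : ℝ) < p := by
      have : (P : ℝ) ≤ p := by exact_mod_cast h2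
      linarith
    unfold Dat.zz
    rw [← hN'd]
    field_simp
  have hhalf : d.ε / (2 * N') * C0 ≤ 1 / 2 := by
    rw [div_mul_eq_mul_div, div_le_iff₀ (by positivity)]
    nlinarith
  have hdiff : ∀ p ∈ S, ∀ p' ∈ S,
      |(d.nu p τ - d.nu p' τ) - (d.zz p τ - d.zz p' τ)| ≤ 1 / 2 * |d.zz p τ - d.zz p' τ| := by
    intro p _ p' _
    have h2 : (d.nu p τ - d.nu p' τ) - (d.zz p τ - d.zz p' τ) =
        -(d.ε / (2 * N') * (d.q1 (d.zz p τ) - d.q1 (d.zz p' τ))) := by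
      unfold Dat.nu
      rw [← hN'd]
      ring
    rw [h2, abs_neg, abs_mul, abs_of_nonneg (by positivity : 0 ≤ d.ε / (2 * N'))]
    calc d.ε / (2 * N') * |d.q1 (d.zz p τ) - d.q1 (d.zz p' τ)|
        ≤ d.ε / (2 * N') * (C0 * |d.zz p τ - d.zz p' τ|) :=
          mul_le_mul_of_nonneg_left (hd.hq2 _ _) (by positivity)
      _ = d.ε / (2 * N') * C0 * |d.zz p τ - d.zz p' τ| := by ring
      _ ≤ 1 / 2 * |d.zz p τ - d.zz p' τ| := mul_le_mul_of_nonneg_right hhalf (abs_nonneg _)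
  have hlt : ∀ p ∈ S, ∀ p' ∈ S, p < p' → 1 / (2 * C0 * P) ≤ d.zz p τ - d.zz p' τ := by
    intro p hp p' hp' hpp
    have k1 := Finset.mem_Ico.1 (Finset.mem_filter.1 hp).1
    refine LVB5_dz (p := (p : ℝ)) (p' := (p' : ℝ)) hC0 hP1 (hz p' hp').1 ?_ ?_ ?_ ?_
    · exact_mod_cast k1.1
    · exact_mod_cast k1.2.le
    · exact_mod_cast hpp
    · rw [hzp p hp, hzp p' hp']
  have hsepz : ∀ p ∈ S, ∀ p' ∈ S, p ≠ p' → 1 / (2 * C0 * P) ≤ |d.zz p τ - d.zz p' τ| := by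
    intro p hp p' hp' hpp
    rcases lt_or_gt_of_ne hpp with h2 | h2
    · exact (hlt p hp p' hp' h2).trans (le_abs_self _)
    · rw [abs_sub_comm]
      exact (hlt p' hp' p hp h2).trans (le_abs_self _)
  have hB := lve6_bessel S (fun p => d.nu p τ) (1 / (4 * C0 * P)) (by positivity) L hL
    (fun p hp p' hp' => by
      have h2 := hdiff p hp p' hp'
      have h3 : |d.zz p τ - d.zz p' τ| ≤ 1 / 4 := by
        obtain ⟨a1, a2⟩ := hz p hp
        obtain ⟨b1, b2⟩ := hz p' hp'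
        have h4 : 0 < 1 / C0 := by positivity
        rw [abs_le]
        constructor <;> linarith
      have h4 := abs_le.1 h2
      have h5 := abs_le.1 (le_refl |d.zz p τ - d.zz p' τ|)
      rw [abs_le]
      constructor <;> linarith [h4.1, h4.2, h5.1, h5.2])
    (fun p hp p' hp' hpp => by
      have h2 := hdiff p hp p' hp'
      have h3 := hsepz p hp p' hp' hpp
      have h4 : |d.zz p τ - d.zz p' τ| ≤ |d.nu p τ - d.nu p' τ| +
          |(d.nu p τ - d.nu p' τ) - (d.zz p τ - d.zz p' τ)| := by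
        have h5 := abs_sub_abs_le_abs_sub (d.zz p τ - d.zz p' τ) (d.nu p τ - d.nu p' τ)
        rw [abs_sub_comm (d.zz p τ - d.zz p' τ) (d.nu p τ - d.nu p' τ)] at h5
        linarith
      have h5 : 1 / (4 * C0 * P) = 1 / 2 * (1 / (2 * C0 * P)) := by
        field_simp
        norm_num
      rw [h5]
      linarith)
    (L * κ) A
    (fun t ht => by
      have h2 := (Finset.mem_filter.1 ht).2
      have hLZ : (0 : ℤ) < L := by exact_mod_cast hL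
      have h3 : (L : ℤ) * (t / L) ≤ t := Int.mul_ediv_self_le hLZ.ne'
      have h4 : t < (L : ℤ) * (t / L) + L := Int.lt_mul_ediv_self_add hLZ
      rw [h2] at h3 h4
      exact ⟨h3, h4⟩) c
  rw [h1]
  refine hB.trans ?_
  have h2 : ∑ t ∈ A, ‖c t‖ ^ 2 = (mu W L κ : ℝ) := by
    simp only [hc, one_pow, Finset.sum_const, nsmul_eq_mul, mul_one]
    rfl
  rw [h2]
  have h3 : 1 / (1 / (4 * C0 * (P : ℝ))) = 4 * C0 * P := by
    rw [one_div_one_div]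
  rw [h3]
  have h4 : 18 * ((L : ℝ) + 4 * C0 * P) ≤ 90 * C0 * P := by nlinarith
  exact mul_le_mul_of_nonneg_right h4 (Nat.cast_nonneg _)

end Pool.Agent.LibSX15
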