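import Pool.Agent.LibSX15.LVE6c
import Pool.Agent.LibSX15.LVA11

set_option autoImplicit false

namespace Pool.Agent.LibSX15

open Finset ComplexConjugate

private theorem lvb7_mono {ι : Type*} {I J : Finset ι} (hIJ : I ⊆ J) (c : ι → ℝ) (y : ι → ℤ) (P : ℕ)
    (hc : ∀ i ∈ J, 0 ≤ c i) : Qe I c y P ≤ Qe J c y P := by
  have h0 : ∀ i ∈ J, ∀ j ∈ J, 0 ≤ (if |y i - y j| < (P : ℤ) then c i * c j else 0) := by
    intro i hi j hj
    split_ifs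
    · exact mul_nonneg (hc i hi) (hc j hj)
    · exact le_rfl
  unfold Qe
  calc ∑ i ∈ I, ∑ j ∈ I, (if |y i - y j| < (P : ℤ) then c i * c j else 0)
      ≤ ∑ i ∈ I, ∑ j ∈ J, (if |y i - y j| < (P : ℤ) then c i * c j else 0) :=
        sum_le_sum fun i hi => sum_le_sum_of_subset_of_nonneg hIJ fun j hj _ => h0 i (hIJ hi) j hj
    _ ≤ _ := sum_le_sum_of_subset_of_nonneg hIJ fun i hi _ => sum_nonneg fun j hj => h0 i hi j hj

/-- opening the square -/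
private theorem lvb7_open (K S : Finset ℤ) (β : ℤ → ℂ) (ν : ℤ → ℝ) (A : ℝ) (u : ℤ → ℝ) (hA : 0 ≤ A)
    (hu : ∀ κ ∈ K, 0 ≤ u κ) (hβ : ∀ κ ∈ K, ‖β κ‖ ≤ A * u κ) :
    ∑ y ∈ S, ‖∑ κ ∈ K, β κ * ee (-(ν κ * y))‖ ^ 2 ≤
      A ^ 2 * ∑ x ∈ K ×ˢ K, (u x.1 * u x.2) * ‖∑ y ∈ S, (1 : ℂ) * ee ((ν x.2 - ν x.1) * y)‖ := by
  have h1 : ((∑ y ∈ S, ‖∑ κ ∈ K, β κ * ee (-(ν κ * y))‖ ^ 2 : ℝ) : ℂ) =
      ∑ x ∈ K ×ˢ K, β x.1 * conj (β x.2) * ∑ y ∈ S, (1 : ℂ) * ee ((ν x.2 - ν x.1) * y) := by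
    rw [Complex.ofReal_sum]
    have h2 : ∀ y ∈ S, ((‖∑ κ ∈ K, β κ * ee (-(ν κ * y))‖ ^ 2 : ℝ) : ℂ) =
        ∑ x ∈ K ×ˢ K, β x.1 * conj (β x.2) * ((1 : ℂ) * ee ((ν x.2 - ν x.1) * y)) := by
      intro y _
      have h3 : ((‖∑ κ ∈ K, β κ * ee (-(ν κ * y))‖ ^ 2 : ℝ) : ℂ) =
          (∑ κ ∈ K, β κ * ee (-(ν κ * y))) * conj (∑ κ ∈ K, β κ * ee (-(ν κ * y))) := by
        rw [Complex.mul_conj, Complex.normSq_eq_norm_sq]
      rw [h3, map_sum, sum_mul_sum, ← sum_product']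
      refine sum_congr rfl fun x _ => ?_
      have h4 : (ν x.2 - ν x.1) * (y : ℝ) = -(ν x.1 * y) - -(ν x.2 * y) := by ring
      rw [h4, ee_sub, map_mul]
      ring
    rw [sum_congr rfl h2, sum_comm]
    refine sum_congr rfl fun x _ => ?_
    rw [mul_sum]
  have h0 : 0 ≤ ∑ y ∈ S, ‖∑ κ ∈ K, β κ * ee (-(ν κ * y))‖ ^ 2 := sum_nonneg fun _ _ => sq_nonneg _
  have h5 : ∑ y ∈ S, ‖∑ κ ∈ K, β κ * ee (-(ν κ * y))‖ ^ 2 =
      ‖∑ x ∈ K ×ˢ K, β x.1 * conj (β x.2) * ∑ y ∈ S, (1 : ℂ) * ee ((ν x.2 - ν x.1) * y)‖ := by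
    rw [← h1, Complex.norm_real, Real.norm_eq_abs, abs_of_nonneg h0]
  rw [h5]
  refine (norm_sum_le _ _).trans ?_
  rw [mul_sum]
  refine sum_le_sum fun x hx => ?_
  rw [mem_product] at hx
  rw [norm_mul, norm_mul, RCLike.norm_conj]
  have h6 := hβ x.1 hx.1
  have h7 := hβ x.2 hx.2
  calc ‖β x.1‖ * ‖β x.2‖ * ‖∑ y ∈ S, (1 : ℂ) * ee ((ν x.2 - ν x.1) * y)‖
      ≤ (A * u x.1) * (A * u x.2) * ‖∑ y ∈ S, (1 : ℂ) * ee ((ν x.2 - ν x.1) * y)‖ := by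
        have := hu x.1 hx.1
        gcongr
    _ = _ := by ring

/-- Row LVB7 (Step 4'). -/
theorem LV_cells (C0 : ℝ) (hC0 : 1 ≤ C0) : ∃ C : ℝ, 1 ≤ C ∧ ∀ d : Dat, d.Good C0 →
    ∀ (P L p n0 : ℕ) (s0 : ℤ) (K S : Finset ℤ) (β : ℤ → ℂ) (u : ℤ → ℝ), 1 ≤ P → 1 ≤ L → L ≤ P →
    P ≤ p → p < 2 * P → (n0 : ℝ) ≤ d.N → C * d.ε ≤ d.N → (∀ y ∈ S, 0 ≤ y ∧ y < n0) →
    (∀ κ ∈ K, 0 ≤ u κ) → (∀ κ ∈ K, ‖β κ‖ ≤ C0 * u κ) →
    (∀ κ ∈ K, u κ ≠ 0 → d.w (d.zz p ((L * κ - s0 : ℤ) : ℝ)) ≠ 0) →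
    ∑ y ∈ S, ‖∑ κ ∈ K, β κ * ee (-(d.nu p ((L * κ - s0 : ℤ) : ℝ) * y))‖ ^ 2 ≤
      C * Real.sqrt (Ek L P K u) * Real.sqrt ((1 + d.ε) * d.N * S.card) := by
  classical
  have hC3 : 1 ≤ C0 ^ 3 := one_le_pow₀ hC0
  refine ⟨14 * C0 ^ 3, by linarith, ?_⟩
  intro d hd P L p n0 s0 K S β u hP hL hLP hPp hp2 hn0 hCε hS hu hβ hw
  have hN2 := hd.hN
  have hN : 0 < d.N := by linarith
  have hb1 := hd.hb1
  have hb2 := hd.hb2
  have hε := hd.hε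
  have hN' : 0 < d.b0 * d.N := by positivity
  have hP0 : (0 : ℝ) < P := by exact_mod_cast hP
  have hp0 : (0 : ℝ) < p := by
    have : (P : ℝ) ≤ p := by exact_mod_cast hPp
    linarith
  have hp2' : (p : ℝ) ≤ 2 * P := by exact_mod_cast hp2.le
  -- restrict to the support of `u`
  set K' : Finset ℤ := K.filter fun κ => u κ ≠ 0 with hK'
  have hK'K : K' ⊆ K := filter_subset _ _
  set ν : ℤ → ℝ := fun κ => d.nu p ((L * κ - s0 : ℤ) : ℝ) with hν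
  set z : ℤ → ℝ := fun κ => d.zz p ((L * κ - s0 : ℤ) : ℝ) with hz
  have hβ0 : ∀ κ ∈ K, κ ∉ K' → β κ = 0 := by
    intro κ hκ hκ'
    have h1 : u κ = 0 := by
      by_contra h
      exact hκ' (mem_filter.2 ⟨hκ, h⟩)
    have h2 := hβ κ hκ
    rw [h1, mul_zero] at h2
    exact norm_le_zero_iff.1 h2
  have hrestrict : ∀ y : ℤ, ∑ κ ∈ K, β κ * ee (-(ν κ * y)) = ∑ κ ∈ K', β κ * ee (-(ν κ * y)) := by
    intro y
    symm
    refine sum_subset hK'K fun κ hκ hκ' => ?_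
    rw [hβ0 κ hκ hκ', zero_mul]
  have hstart : ∑ y ∈ S, ‖∑ κ ∈ K, β κ * ee (-(d.nu p ((L * κ - s0 : ℤ) : ℝ) * y))‖ ^ 2 =
      ∑ y ∈ S, ‖∑ κ ∈ K', β κ * ee (-(ν κ * y))‖ ^ 2 :=
    sum_congr rfl fun y _ => by rw [← hrestrict y]
  rw [hstart]
  have hu' : ∀ κ ∈ K', 0 ≤ u κ := fun κ hκ => hu κ (hK'K hκ)
  have hopen := lvb7_open K' S β ν C0 u (by linarith) hu' fun κ hκ => hβ κ (hK'K hκ)
  refine hopen.trans ?_
  -- the points
  have hzr : ∀ κ ∈ K', 1 / C0 ≤ z κ ∧ z κ ≤ 1 / 4 := by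
    intro κ hκ
    have h1 := hw κ (hK'K hκ) (mem_filter.1 hκ).2
    exact ⟨hd.hw0 _ h1, hd.hw1 _ h1⟩
  have hνz : ∀ κ, ν κ = z κ - d.ε / (2 * (d.b0 * d.N)) * d.q1 (z κ) := fun κ => rfl
  have hzz : ∀ κ κ', z κ - z κ' = ((L * (κ - κ') : ℤ) : ℝ) / (2 * p * (d.b0 * d.N)) := by
    intro κ κ'
    simp only [hz, Dat.zz]
    rw [← sub_div]
    congr 1
    push_cast
    ring
  set e : ℝ := d.ε / (2 * (d.b0 * d.N)) with he
  have he0 : 0 ≤ e := by positivity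
  have heC : e * C0 ^ 3 ≤ 1 / 28 := by
    rw [he, div_mul_eq_mul_div, div_le_div_iff₀ (by positivity) (by norm_num)]
    nlinarith
  set N1 : ℕ := ⌊d.N⌋₊ with hN1
  have hN1le : (N1 : ℝ) ≤ d.N := Nat.floor_le hN.le
  have hN1ge : d.N / 2 ≤ N1 := by
    have h1 : d.N < N1 + 1 := Nat.lt_floor_add_one d.N
    linarith
  have hN11 : 1 ≤ N1 := Nat.le_floor (by push_cast; linarith)
  set R : ℕ := ⌈8 * C0 * (1 + d.ε)⌉₊ with hR
  have hRge : 8 * C0 * (1 + d.ε) ≤ R := Nat.le_ceil _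
  have hRle : (R : ℝ) ≤ 8 * C0 * (1 + d.ε) + 1 := (Nat.ceil_lt_add_one (by positivity)).le
  have hn0N1 : n0 ≤ N1 := Nat.le_floor hn0
  have hmain := lve6_main (K' ×ˢ K') (fun x => u x.1 * u x.2) (fun x => ν x.2 - ν x.1)
    (fun x => (L : ℤ) * (x.1 - x.2)) P R N1 hP hN11
    (fun x hx => by
      rw [mem_product] at hx
      exact mul_nonneg (hu' _ hx.1) (hu' _ hx.2))
    (fun x hx => by
      rw [mem_product] at hx
      obtain ⟨h1, h2⟩ := hzr x.1 hx.1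
      obtain ⟨h3, h4⟩ := hzr x.2 hx.2
      have h5 : |z x.2 - z x.1| ≤ 1 / 4 - 1 / C0 := by
        rw [abs_le]; constructor <;> linarith
      have h6 : ν x.2 - ν x.1 = (z x.2 - z x.1) - e * (d.q1 (z x.2) - d.q1 (z x.1)) := by
        rw [hνz, hνz]; ring
      have h7 : |e * (d.q1 (z x.2) - d.q1 (z x.1))| ≤ e * (C0 * (1 / 4)) := by
        rw [abs_mul, abs_of_nonneg he0]
        refine mul_le_mul_of_nonneg_left ((hd.hq2 _ _).trans ?_) he0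
        have h8 : 0 ≤ 1 / C0 := by positivity
        have h9 : |z x.2 - z x.1| ≤ 1 / 4 := by linarith
        gcongr
      have h10 : e * (C0 * (1 / 4)) ≤ 1 / C0 := by
        rw [le_div_iff₀ (by linarith)]
        have h11 : C0 ^ 2 ≤ C0 ^ 3 := pow_le_pow_right₀ hC0 (by norm_num)
        have h12 : e * C0 ^ 2 ≤ e * C0 ^ 3 := by gcongr
        nlinarith
      show |ν x.2 - ν x.1| ≤ 1 / 4
      rw [h6]
      calc |(z x.2 - z x.1) - e * (d.q1 (z x.2) - d.q1 (z x.1))|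
          ≤ |z x.2 - z x.1| + |e * (d.q1 (z x.2) - d.q1 (z x.1))| := abs_sub _ _
        _ ≤ 1 / 4 := by linarith)
    (fun x hx x' hx' hlt => by
      have h6 : ∀ x : ℤ × ℤ, ((L * (x.1 - x.2) : ℤ) : ℝ) =
          2 * p * (d.b0 * d.N) * (-(ν x.2 - ν x.1) - e * (d.q1 (z x.2) - d.q1 (z x.1))) := by
        intro x
        have h7 := hzz x.1 x.2
        have h8 : -(ν x.2 - ν x.1) - e * (d.q1 (z x.2) - d.q1 (z x.1)) = z x.1 - z x.2 := by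
          rw [hνz, hνz]; ring
        rw [h8, h7]
        field_simp
      have h9 : (((L : ℤ) * (x.1 - x.2) - (L : ℤ) * (x'.1 - x'.2) : ℤ) : ℝ) =
          2 * p * (d.b0 * d.N) * (((ν x'.2 - ν x'.1) - (ν x.2 - ν x.1)) +
            e * ((d.q1 (z x'.2) - d.q1 (z x'.1)) - (d.q1 (z x.2) - d.q1 (z x.1)))) := by
        have h10 := h6 x
        have h11 := h6 x'
        rw [Int.cast_sub, h10, h11]
        ring
      have hq : |(d.q1 (z x'.2) - d.q1 (z x'.1)) - (d.q1 (z x.2) - d.q1 (z x.1))| ≤ 4 * C0 := by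
        have a1 := abs_le.1 (hd.hq1 (z x'.2))
        have a2 := abs_le.1 (hd.hq1 (z x'.1))
        have a3 := abs_le.1 (hd.hq1 (z x.2))
        have a4 := abs_le.1 (hd.hq1 (z x.1))
        rw [abs_le]; constructor <;> linarith [a1.1, a1.2, a2.1, a2.2, a3.1, a3.2, a4.1, a4.2]
      have hN1inv : 1 / (N1 : ℝ) ≤ 2 / d.N := by
        rw [div_le_div_iff₀ (by exact_mod_cast hN11) hN]
        linarith
      have h12 : |(((L : ℤ) * (x.1 - x.2) - (L : ℤ) * (x'.1 - x'.2) : ℤ) : ℝ)| ≤ R * P := by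
        rw [h9, abs_mul, abs_of_pos (by positivity : (0:ℝ) < 2 * p * (d.b0 * d.N))]
        have h13 : |((ν x'.2 - ν x'.1) - (ν x.2 - ν x.1)) +
            e * ((d.q1 (z x'.2) - d.q1 (z x'.1)) - (d.q1 (z x.2) - d.q1 (z x.1)))| ≤
            2 / d.N + e * (4 * C0) := by
          refine (abs_add_le _ _).trans (add_le_add ?_ ?_)
          · rw [abs_sub_comm]
            exact (hlt.le).trans hN1inv
          · rw [abs_mul, abs_of_nonneg he0]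
            gcongr
        calc 2 * p * (d.b0 * d.N) * |((ν x'.2 - ν x'.1) - (ν x.2 - ν x.1)) +
              e * ((d.q1 (z x'.2) - d.q1 (z x'.1)) - (d.q1 (z x.2) - d.q1 (z x.1)))|
            ≤ 2 * p * (d.b0 * d.N) * (2 / d.N + e * (4 * C0)) := by gcongr
          _ = 4 * d.b0 * p + 4 * C0 * d.ε * p := by rw [he]; field_simp; ring
          _ ≤ 4 * C0 * (2 * P) + 4 * C0 * d.ε * (2 * P) := by gcongr
          _ = 8 * C0 * (1 + d.ε) * P := by ring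
          _ ≤ R * P := by gcongr
      have h14 : ((|(L : ℤ) * (x.1 - x.2) - (L : ℤ) * (x'.1 - x'.2)| : ℤ) : ℝ) ≤ ((R * P : ℤ) : ℝ) := by
        rw [Int.cast_abs]
        refine h12.trans (le_of_eq ?_)
        push_cast
        ring
      exact_mod_cast h14)
    0 S (fun y hy => ⟨(hS y hy).1, by
      have := (hS y hy).2
      have h1 : (n0 : ℤ) ≤ N1 := by exact_mod_cast hn0N1
      linarith⟩) (fun _ => (1 : ℂ)) (fun _ _ => by simp)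
  set T : ℝ := ∑ x ∈ K' ×ˢ K', (u x.1 * u x.2) * ‖∑ y ∈ S, (1 : ℂ) * ee ((ν x.2 - ν x.1) * y)‖ with hT
  have hT0 : 0 ≤ T := sum_nonneg fun x hx => by
    rw [mem_product] at hx
    exact mul_nonneg (mul_nonneg (hu' _ hx.1) (hu' _ hx.2)) (norm_nonneg _)
  have hE : Qe (K' ×ˢ K') (fun x => u x.1 * u x.2) (fun x => (L : ℤ) * (x.1 - x.2)) P ≤ Ek L P K u := by
    unfold Ek
    refine lvb7_mono (product_subset_product hK'K hK'K) _ _ P fun x hx => ?_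
    rw [mem_product] at hx
    exact mul_nonneg (hu _ hx.1) (hu _ hx.2)
  have hE0 : 0 ≤ Qe (K' ×ˢ K') (fun x => u x.1 * u x.2) (fun x => (L : ℤ) * (x.1 - x.2)) P :=
    Qe_nonneg _ _ _ _ fun x hx => by
      rw [mem_product] at hx
      exact mul_nonneg (hu' _ hx.1) (hu' _ hx.2)
  have hEk0 : 0 ≤ Ek L P K u := hE0.trans hE
  have hTsq : T ^ 2 ≤ (14 * C0) ^ 2 * (Ek L P K u * ((1 + d.ε) * d.N * S.card)) := by
    have h1 : 9 * (2 * (R : ℝ) + 3) ≤ (14 * C0) ^ 2 * (1 + d.ε) := by nlinarith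
    calc T ^ 2 ≤ 9 * (2 * R + 3) * N1 * (S.card : ℝ) *
          Qe (K' ×ˢ K') (fun x => u x.1 * u x.2) (fun x => (L : ℤ) * (x.1 - x.2)) P := hmain
      _ ≤ ((14 * C0) ^ 2 * (1 + d.ε)) * d.N * (S.card : ℝ) * Ek L P K u := by gcongr
      _ = _ := by ring
  have hTle : T ≤ 14 * C0 * (Real.sqrt (Ek L P K u) * Real.sqrt ((1 + d.ε) * d.N * S.card)) := by
    rw [← Real.sqrt_mul hEk0]
    apply le_of_sq_le_sq _ (by positivity)
    rw [mul_pow (14 * C0), Real.sq_sqrt (by positivity)]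
    exact hTsq
  calc C0 ^ 2 * T ≤ C0 ^ 2 * (14 * C0 * (Real.sqrt (Ek L P K u) *
        Real.sqrt ((1 + d.ε) * d.N * S.card))) := by gcongr
    _ = _ := by ring

end Pool.Agent.LibSX15
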