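import Pool.Agent.LibSX15.LVB3
import Pool.Agent.LibSX15.LVB5
import Pool.Agent.LibSX15.LVB7
import Pool.Agent.LibSX15.LVC9

set_option autoImplicit false

namespace Pool.Agent.LibSX15

open Finset ComplexConjugate

theorem lvd_U_le (d : Dat) (W : Finset ℤ) (c : ℤ → ℂ) (hc : ∀ t, ‖c t‖ = 1) (L : ℕ) (s0 : ℤ)
    (p : ℕ) (κ : ℤ) : ‖d.U W c L s0 p κ‖ ≤ mu W L κ := by
  unfold Dat.U
  split_ifs
  · rw [norm_zero]
    positivity
  · refine (norm_sum_le _ _).trans (le_of_eq ?_)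
    rw [mu, Finset.sum_congr rfl fun t _ => by rw [norm_mul, hc, norm_ee, mul_one]]
    simp

theorem lvd_Ks (W : Finset ℤ) (L : ℕ) (hL : 1 ≤ L) (κ : ℤ) (hκ : κ ∈ Ks W L) :
    ∃ t ∈ W, (L : ℤ) * κ ≤ t ∧ t < L * κ + L := by
  rw [Ks, Finset.mem_image] at hκ
  obtain ⟨t, ht, hκ⟩ := hκ
  refine ⟨t, ht, ?_⟩
  have h1 := Int.mul_ediv_add_emod t L
  have hL0 : (0 : ℤ) < L := by exact_mod_cast hL
  have h2 := Int.emod_nonneg t hL0.ne'
  have h3 := Int.emod_lt_of_pos t hL0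
  rw [hκ] at h1
  constructor <;> linarith

theorem lvd_sqrt_sum (s : Finset ℕ) (f : ℕ → ℝ) (hf : ∀ i ∈ s, 0 ≤ f i) :
    ∑ i ∈ s, Real.sqrt (f i) ≤ Real.sqrt (s.card * ∑ i ∈ s, f i) := by
  apply Real.le_sqrt_of_sq_le
  have h := sq_sum_le_card_mul_sum_sq (s := s) (f := fun i => Real.sqrt (f i))
  refine h.trans (le_of_eq ?_)
  congr 1
  exact Finset.sum_congr rfl fun i hi => Real.sq_sqrt (hf i hi)

/-- Row LVD1 (one window, Step 7'). `Ws = {s ∈ W : s0 ≤ s < s0 + n0}`, `s = s0 + y`.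
`K = {κ ∈ Ks W L : 0 < L κ - s0 ≤ C0 P N}`; outside `K` all `U` vanish (`LV_vanish`). `u_p κ = ‖U p κ‖ ≤ mu κ`.
`LV_approx` (error `C H (L + 1 + ε) ≤ C H (L + 2Λ)`), `‖x + y‖² ≤ 2 ‖x‖² + 2 ‖y‖²`, `LV_cells` with
`β κ = w ee(ph) U`; sum over `p`: `∑_p Ek_p^{1/2} ≤ (P ∑_p Ek_p)^{1/2}`, `LV_energy` (`A = C0`; all elements of `Ks W L`
satisfy `-L < L κ ≤ M N`), `∑_p ∑_κ u_p κ² ≤ C P ∑_κ mu κ ≤ C P · C P H` (`LV_bessel`, `LV_sumu`). -/
theorem LV_win (C0 C1 : ℝ) (hC0 : 1 ≤ C0) (hC1 : 1 ≤ C1) : ∃ C : ℝ, 1 ≤ C ∧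
    ∀ (d : Dat) (Λ Y H : ℝ) (a : ℕ → ℂ) (W : Finset ℤ) (c : ℤ → ℂ), LVH d C0 Λ Y H a W →
    Win C1 d.N H W → (∀ t, ‖c t‖ = 1) → d.ε ≤ Λ → C * Λ ≤ d.N → C * d.M ≤ d.N →
    d.Err ^ 2 ≤ d.N → C * H * d.M ^ 5 ≤ d.N →
    ∀ (P L n0 : ℕ) (s0 : ℤ), 1 ≤ L → L ≤ P → (P : ℝ) ≤ C0 * d.M → (n0 : ℝ) ≤ d.N →
    ∑ p ∈ Finset.Ico P (2 * P), ∑ s ∈ W.filter (fun s => s0 ≤ s ∧ s < s0 + n0),
      ‖∑ t ∈ W, c t * d.chirp p ((t : ℝ) - s)‖ ^ 2 ≤
    C * (Real.sqrt (Λ * d.N * (W.filter (fun s => s0 ≤ s ∧ s < s0 + n0)).card) *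
        Real.sqrt (H ^ 3) * ((P : ℝ) ^ 2 / Real.sqrt L) +
      P * (W.filter (fun s => s0 ≤ s ∧ s < s0 + n0)).card * H ^ 2 * (L + Λ) ^ 2) := by
  classical
  obtain ⟨CA, hCA, hA⟩ := LV_approx C0 C1 hC0 hC1
  obtain ⟨CB, hCB, hB⟩ := LV_bessel C0 hC0
  obtain ⟨CC, hCC, hC⟩ := LV_cells C0 hC0
  obtain ⟨CS, hCS, hS⟩ := LV_sumu C1 C0 hC1 hC0
  obtain ⟨CE, hCE, hE⟩ := LV_energy C0 C1 C0 hC0 hC1 hC0
  have hprod : 1 ≤ CE * CB * CS := by
    have h1 : 1 ≤ CE * CB := one_le_mul_of_one_le_of_one_le hCE hCB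
    exact one_le_mul_of_one_le_of_one_le h1 hCS
  have hCCp : 0 ≤ CC * (CE * CB * CS) := by positivity
  refine ⟨C0 + CB + CC + CE + 8 * CA ^ 2 + 4 * (CC * (CE * CB * CS)), by nlinarith [sq_nonneg CA], ?_⟩
  intro d Λ Y H a W c hL hWin hc hεΛ hCΛ hCM hErr hHM P L n0 s0 h1L hLP hPM hn0
  set C : ℝ := C0 + CB + CC + CE + 8 * CA ^ 2 + 4 * (CC * (CE * CB * CS)) with hCdef
  have hA2 : 0 ≤ CA ^ 2 := sq_nonneg _
  have c0C : C0 ≤ C := by linarith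
  have cBC : CB ≤ C := by linarith
  have cCC : CC ≤ C := by linarith
  have cEC : CE ≤ C := by linarith
  have hd := hL.good
  have hN2 : 2 ≤ d.N := hd.hN
  have hN0 : 0 < d.N := by linarith
  have hM1 : 1 ≤ d.M := hd.hM
  have hΛ1 : 1 ≤ Λ := hL.hΛ
  have hε0 : 0 ≤ d.ε := hd.hε
  have hH0 : 0 < H := by
    rw [hL.hH]
    have := hL.hY
    positivity
  have hP1 : 1 ≤ P := h1L.trans hLP
  have hP1R : (1 : ℝ) ≤ P := by exact_mod_cast hP1
  have hL1R : (1 : ℝ) ≤ L := by exact_mod_cast h1L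
  have hLPR : (L : ℝ) ≤ P := by exact_mod_cast hLP
  have hPN : (P : ℝ) ≤ d.N := hPM.trans ((mul_le_mul_of_nonneg_right c0C (by linarith)).trans hCM)
  have hC0N : C0 ≤ d.N := by
    have : C0 * 1 ≤ C * Λ := mul_le_mul c0C hΛ1 (by norm_num) (by linarith)
    linarith
  have hεB : CB * d.ε ≤ d.N := (mul_le_mul cBC hεΛ hε0 (by linarith)).trans hCΛ
  have hεC : CC * d.ε ≤ d.N := (mul_le_mul cCC hεΛ hε0 (by linarith)).trans hCΛ
  have hHM' : CE * H * d.M ^ 5 ≤ d.N :=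
    (mul_le_mul_of_nonneg_right (mul_le_mul_of_nonneg_right cEC hH0.le) (by positivity)).trans hHM
  -- the clusters
  set K : Finset ℤ := (Ks W L).filter (fun κ => 0 < ((L * κ - s0 : ℤ) : ℝ) ∧
    ((L * κ - s0 : ℤ) : ℝ) ≤ C0 * P * d.N) with hK
  set Ws : Finset ℤ := W.filter (fun s => s0 ≤ s ∧ s < s0 + n0) with hWs
  set u : ℕ → ℤ → ℝ := fun p κ => ‖d.U W c L s0 p κ‖ with hu
  have hu0 : ∀ p, ∀ κ ∈ K, 0 ≤ u p κ := fun p κ _ => norm_nonneg _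
  have humu : ∀ p, ∀ κ ∈ K, u p κ ≤ mu W L κ := fun p κ _ => lvd_U_le d W c hc L s0 p κ
  have hKd : ∀ κ ∈ K, ∀ κ' ∈ K, |((L * (κ - κ') : ℤ) : ℝ)| ≤ C0 * P * d.N := by
    intro κ hκ κ' hκ'
    rw [hK, Finset.mem_filter] at hκ hκ'
    have e : ((L * (κ - κ') : ℤ) : ℝ) = ((L * κ - s0 : ℤ) : ℝ) - ((L * κ' - s0 : ℤ) : ℝ) := by
      push_cast
      ring
    rw [e, abs_le]
    constructor <;> linarith [hκ.2.1, hκ.2.2, hκ'.2.1, hκ'.2.2]
  have hKd2 : ∀ κ ∈ K, ∀ κ' ∈ K, 2 * |((L * (κ - κ') : ℤ) : ℝ)| + 4 * P ≤ 8 * d.M * d.N := by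
    intro κ hκ κ' hκ'
    have hb : ∀ κ ∈ K, -(L : ℝ) ≤ (L : ℝ) * κ ∧ (L : ℝ) * κ ≤ d.M * d.N := by
      intro κ hκ
      rw [hK, Finset.mem_filter] at hκ
      obtain ⟨t, ht, h1, h2⟩ := lvd_Ks W L h1L κ hκ.1
      have h3 := hL.hW t ht
      have h1' : (L : ℝ) * κ ≤ t := by exact_mod_cast h1
      have h2' : (t : ℝ) < L * κ + L := by exact_mod_cast h2
      constructor <;> linarith
    have h1 := hb κ hκ
    have h2 := hb κ' hκ'
    have e : ((L * (κ - κ') : ℤ) : ℝ) = (L : ℝ) * κ - (L : ℝ) * κ' := by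
      push_cast
      ring
    have h3 : |((L * (κ - κ') : ℤ) : ℝ)| ≤ d.M * d.N + L := by
      rw [e, abs_le]
      constructor <;> linarith [h1.1, h1.2, h2.1, h2.2]
    have h4 : (P : ℝ) ≤ d.M * d.N := by
      have : C0 * d.M ≤ d.N * d.M := mul_le_mul_of_nonneg_right hC0N (by linarith)
      linarith
    linarith
  -- one `p`
  have hone : ∀ p ∈ Finset.Ico P (2 * P), ∑ s ∈ Ws, ‖∑ t ∈ W, c t * d.chirp p ((t : ℝ) - s)‖ ^ 2 ≤
      2 * ((Ws.card : ℝ) * (CA * H * (L + 1 + d.ε)) ^ 2) +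
        2 * (CC * Real.sqrt (Ek L P K (u p)) * Real.sqrt ((1 + d.ε) * d.N * Ws.card)) := by
    intro p hp
    rw [Finset.mem_Ico] at hp
    set β : ℤ → ℂ := fun κ => (d.w (d.zz p ((L * κ - s0 : ℤ) : ℝ)) : ℂ) *
      ee (d.ph p ((L * κ - s0 : ℤ) : ℝ)) * d.U W c L s0 p κ with hβ
    set g : ℤ → ℂ := fun y => ∑ κ ∈ K, β κ * ee (-(d.nu p ((L * κ - s0 : ℤ) : ℝ) * y)) with hg
    have hKs : ∀ y : ℤ, ∑ κ ∈ Ks W L, (d.w (d.zz p ((L * κ - s0 : ℤ) : ℝ)) : ℂ) *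
        ee (d.ph p ((L * κ - s0 : ℤ) : ℝ)) * d.U W c L s0 p κ *
          ee (-(d.nu p ((L * κ - s0 : ℤ) : ℝ) * y)) = g y := by
      intro y
      rw [hg, hK]
      symm
      refine Finset.sum_subset (Finset.filter_subset _ _) fun κ hκ hκ' => ?_
      have hw0 : d.w (d.zz p ((L * κ - s0 : ℤ) : ℝ)) = 0 := by
        by_contra hne
        apply hκ'
        rw [Finset.mem_filter]
        exact ⟨hκ, LV_vanish C0 d hd P p _ hP1 hp.1 hp.2 hne⟩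
      simp only [hβ]
      rw [hw0]
      simp
    have hpt : ∀ s ∈ Ws, ‖∑ t ∈ W, c t * d.chirp p ((t : ℝ) - s)‖ ^ 2 ≤
        2 * (CA * H * (L + 1 + d.ε)) ^ 2 + 2 * ‖g (s - s0)‖ ^ 2 := by
      intro s hs
      rw [hWs, Finset.mem_filter] at hs
      have h1 := hA d H W c hd hH0.le hWin hc P L p n0 s0 (s - s0) hP1 h1L hLP hPN hp.1 hp.2 hn0
        (by linarith [hs.2.1]) (by linarith [hs.2.2])
      rw [hKs] at h1
      have e : ((s0 + (s - s0) : ℤ) : ℝ) = (s : ℝ) := by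
        push_cast
        ring
      rw [e] at h1
      set x := ∑ t ∈ W, c t * d.chirp p ((t : ℝ) - s) with hx
      have h2 : ‖x‖ ≤ CA * H * (L + 1 + d.ε) + ‖g (s - s0)‖ := by
        have h3 : ‖x‖ ≤ ‖x - ee (((s - s0 : ℤ) : ℝ) ^ 2 / (4 * p * (d.b0 * d.N))) * g (s - s0)‖ +
            ‖ee (((s - s0 : ℤ) : ℝ) ^ 2 / (4 * p * (d.b0 * d.N))) * g (s - s0)‖ := by
          have := norm_add_le (x - ee (((s - s0 : ℤ) : ℝ) ^ 2 / (4 * p * (d.b0 * d.N))) * g (s - s0))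
            (ee (((s - s0 : ℤ) : ℝ) ^ 2 / (4 * p * (d.b0 * d.N))) * g (s - s0))
          rwa [sub_add_cancel] at this
        rw [norm_mul (ee _), norm_ee, one_mul] at h3
        linarith
      have h4 : 0 ≤ CA * H * (L + 1 + d.ε) := by positivity
      nlinarith [norm_nonneg x, norm_nonneg (g (s - s0)),
        sq_nonneg (CA * H * (L + 1 + d.ε) - ‖g (s - s0)‖)]
    refine (Finset.sum_le_sum hpt).trans ?_
    rw [Finset.sum_add_distrib, Finset.sum_const, nsmul_eq_mul]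
    have hre : ∑ s ∈ Ws, 2 * ‖g (s - s0)‖ ^ 2 ≤
        2 * (CC * Real.sqrt (Ek L P K (u p)) * Real.sqrt ((1 + d.ε) * d.N * Ws.card)) := by
      rw [← Finset.mul_sum]
      refine mul_le_mul_of_nonneg_left ?_ (by norm_num)
      set S : Finset ℤ := Ws.image (fun s => s - s0) with hSdef
      have hinj : Set.InjOn (fun s : ℤ => s - s0) (Ws : Set ℤ) := fun x _ y _ h => by
        simpa using h
      have hcard : S.card = Ws.card := Finset.card_image_of_injOn hinj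
      have hsum : ∑ s ∈ Ws, ‖g (s - s0)‖ ^ 2 = ∑ y ∈ S, ‖g y‖ ^ 2 := by
        rw [hSdef, Finset.sum_image hinj]
      rw [hsum, ← hcard]
      refine hC d hd P L p n0 s0 K S β (u p) hP1 h1L hLP hp.1 hp.2 hn0 hεC ?_ (hu0 p) ?_ ?_
      · intro y hy
        rw [hSdef, Finset.mem_image] at hy
        obtain ⟨s, hs, rfl⟩ := hy
        rw [hWs, Finset.mem_filter] at hs
        constructor <;> linarith [hs.2.1, hs.2.2]
      · intro κ _
        simp only [hβ, hu]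
        rw [norm_mul, norm_mul, norm_ee, mul_one, Complex.norm_real, Real.norm_eq_abs]
        exact mul_le_mul_of_nonneg_right (hd.hw _) (norm_nonneg _)
      · intro κ _ hne hw0
        apply hne
        simp only [hu]
        rw [Dat.U, if_pos hw0, norm_zero]
    have e2 : (Ws.card : ℝ) * (2 * (CA * H * (L + 1 + d.ε)) ^ 2) =
        2 * ((Ws.card : ℝ) * (CA * H * (L + 1 + d.ε)) ^ 2) := by ring
    rw [e2]
    linarith
  -- the energies
  have hEk : ∑ p ∈ Finset.Ico P (2 * P), Real.sqrt (Ek L P K (u p)) ≤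
      (CE * CB * CS) * (Real.sqrt (H ^ 3) * ((P : ℝ) ^ 2 / Real.sqrt L)) := by
    have hEk0 : ∀ p ∈ Finset.Ico P (2 * P), 0 ≤ Ek L P K (u p) := by
      intro p _
      refine Qe_nonneg _ _ _ _ fun x hx => ?_
      rw [Finset.mem_product] at hx
      exact mul_nonneg (hu0 p _ hx.1) (hu0 p _ hx.2)
    refine (lvd_sqrt_sum _ _ hEk0).trans ?_
    have hcard : ((Finset.Ico P (2 * P)).card : ℝ) = P := by
      rw [Nat.card_Ico]
      have : 2 * P - P = P := by omega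
      rw [this]
    rw [hcard]
    have hs1 : ∑ p ∈ Finset.Ico P (2 * P), Ek L P K (u p) ≤
        CE * H ^ 2 * (P / L) * (CB * P * (CS * P * H)) := by
      calc ∑ p ∈ Finset.Ico P (2 * P), Ek L P K (u p)
          ≤ ∑ p ∈ Finset.Ico P (2 * P), CE * H ^ 2 * (P / L) * ∑ κ ∈ K, u p κ ^ 2 :=
            Finset.sum_le_sum fun p _ => hE d Λ Y H a W hL hWin L P K (u p) h1L hLP hPM (hu0 p)
              (humu p) hKd hKd2 hErr hHM'
        _ = CE * H ^ 2 * (P / L) * ∑ κ ∈ K, ∑ p ∈ Finset.Ico P (2 * P), u p κ ^ 2 := by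
            rw [← Finset.mul_sum, Finset.sum_comm]
        _ ≤ CE * H ^ 2 * (P / L) * ∑ κ ∈ K, CB * P * mu W L κ := by
            refine mul_le_mul_of_nonneg_left (Finset.sum_le_sum fun κ _ => ?_) (by positivity)
            exact hB d W c hd hc hεB P L s0 κ hP1 h1L hLP
        _ = CE * H ^ 2 * (P / L) * (CB * P * ∑ κ ∈ K, (mu W L κ : ℝ)) := by
            congr 1
            rw [Finset.mul_sum]
        _ ≤ CE * H ^ 2 * (P / L) * (CB * P * (CS * P * H)) := by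
            refine mul_le_mul_of_nonneg_left (mul_le_mul_of_nonneg_left ?_ (by positivity))
              (by positivity)
            exact (hS d.N H W (by linarith) hH0.le hWin L P K (fun κ => (mu W L κ : ℝ)) h1L hLP
              (fun κ _ => by positivity) (fun κ _ => le_rfl) hKd).1
    have hs2 : (P : ℝ) * ∑ p ∈ Finset.Ico P (2 * P), Ek L P K (u p) ≤
        (CE * CB * CS) * (H ^ 3 * ((P : ℝ) ^ 2) ^ 2 / L) := by
      refine (mul_le_mul_of_nonneg_left hs1 (by positivity)).trans (le_of_eq ?_)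
      ring
    refine (Real.sqrt_le_sqrt hs2).trans ?_
    have key : ∀ E : ℝ, 1 ≤ E → Real.sqrt (E * (H ^ 3 * ((P : ℝ) ^ 2) ^ 2 / L)) ≤
        E * (Real.sqrt (H ^ 3) * ((P : ℝ) ^ 2 / Real.sqrt L)) := by
      intro E hE1
      rw [Real.sqrt_mul (by linarith), mul_div_assoc, Real.sqrt_mul (by positivity),
        Real.sqrt_div (by positivity), Real.sqrt_sq (by positivity)]
      refine mul_le_mul_of_nonneg_right ?_ (by positivity)
      rw [Real.sqrt_le_left (by linarith)]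
      nlinarith
    exact key _ hprod
  -- sum over `p`
  refine (Finset.sum_le_sum hone).trans ?_
  rw [Finset.sum_add_distrib, Finset.sum_const, nsmul_eq_mul, Nat.card_Ico]
  have hc2 : ((2 * P - P : ℕ) : ℝ) = P := by
    have : 2 * P - P = P := by omega
    rw [this]
  rw [hc2]
  have hsq : Real.sqrt ((1 + d.ε) * d.N * Ws.card) ≤ 2 * Real.sqrt (Λ * d.N * Ws.card) := by
    have h1 : (1 + d.ε) * d.N * Ws.card ≤ 2 ^ 2 * (Λ * d.N * Ws.card) := by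
      have : (1 + d.ε) ≤ 4 * Λ := by linarith
      have h2 : (1 + d.ε) * (d.N * Ws.card) ≤ 4 * Λ * (d.N * Ws.card) :=
        mul_le_mul_of_nonneg_right this (by positivity)
      nlinarith
    refine (Real.sqrt_le_sqrt h1).trans (le_of_eq ?_)
    rw [Real.sqrt_mul (by norm_num), Real.sqrt_sq (by norm_num)]
  set Q := Real.sqrt (Λ * d.N * Ws.card) with hQ
  set R := Real.sqrt (H ^ 3) * ((P : ℝ) ^ 2 / Real.sqrt L) with hR
  have hQ0 : 0 ≤ Q := Real.sqrt_nonneg _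
  have hR0 : 0 ≤ R := by positivity
  have hpart2 : ∑ p ∈ Finset.Ico P (2 * P), 2 * (CC * Real.sqrt (Ek L P K (u p)) *
      Real.sqrt ((1 + d.ε) * d.N * Ws.card)) ≤ 4 * (CC * (CE * CB * CS)) * (Q * R) := by
    calc ∑ p ∈ Finset.Ico P (2 * P), 2 * (CC * Real.sqrt (Ek L P K (u p)) *
        Real.sqrt ((1 + d.ε) * d.N * Ws.card))
        = 2 * CC * Real.sqrt ((1 + d.ε) * d.N * Ws.card) *
          ∑ p ∈ Finset.Ico P (2 * P), Real.sqrt (Ek L P K (u p)) := by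
          rw [Finset.mul_sum]
          exact Finset.sum_congr rfl fun p _ => by ring
      _ ≤ 2 * CC * (2 * Q) * ((CE * CB * CS) * R) := by
          refine mul_le_mul (mul_le_mul_of_nonneg_left hsq (by positivity)) hEk
            (Finset.sum_nonneg fun p _ => Real.sqrt_nonneg _) (by positivity)
      _ = 4 * (CC * (CE * CB * CS)) * (Q * R) := by ring
  have hpart1 : (P : ℝ) * (2 * ((Ws.card : ℝ) * (CA * H * (L + 1 + d.ε)) ^ 2)) ≤
      8 * CA ^ 2 * (P * Ws.card * H ^ 2 * (L + Λ) ^ 2) := by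
    have h1 : (L : ℝ) + 1 + d.ε ≤ 2 * (L + Λ) := by linarith
    have h2 : (CA * H * (L + 1 + d.ε)) ^ 2 ≤ (CA * H * (2 * (L + Λ))) ^ 2 :=
      pow_le_pow_left₀ (by positivity) (mul_le_mul_of_nonneg_left h1 (by positivity)) 2
    calc (P : ℝ) * (2 * ((Ws.card : ℝ) * (CA * H * (L + 1 + d.ε)) ^ 2))
        ≤ (P : ℝ) * (2 * ((Ws.card : ℝ) * (CA * H * (2 * (L + Λ))) ^ 2)) := by gcongr
      _ = 8 * CA ^ 2 * (P * Ws.card * H ^ 2 * (L + Λ) ^ 2) := by ring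
  have hx1 : 0 ≤ Q * R := mul_nonneg hQ0 hR0
  have hx2 : 0 ≤ (P : ℝ) * Ws.card * H ^ 2 * (L + Λ) ^ 2 := by positivity
  have hQR : Q * Real.sqrt (H ^ 3) * ((P : ℝ) ^ 2 / Real.sqrt L) = Q * R := by
    rw [hR]
    ring
  rw [hQR]
  have hC8 : 8 * CA ^ 2 ≤ C := by linarith
  have hC4 : 4 * (CC * (CE * CB * CS)) ≤ C := by linarith
  have f1 := mul_le_mul_of_nonneg_right hC8 hx2
  have f2 := mul_le_mul_of_nonneg_right hC4 hx1
  linarith

end Pool.Agent.LibSX15
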