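import Pool.Agent.LibSX15.AS0

/-! ROW AS2 (only Mathlib). The averaging lemma (from integrals to well spaced points).
For every `j < J`: `∫ h (x + κ j) dx = ∫ h`. So `J ∫ h = ∫ Σ_{j<J} h (x + κ j) dx`, and the integrand vanishes unless
`x ∈ [a - κ J, b]`, and it is `≤ Q` everywhere: if `x ∈ [a,b]` this is `hQ`; if `x < a`, let `j1` be the first `j < J` with
`x + κ j ≥ a` (if there is none, the sum is 0; if `x + κ j1 > b` all the later terms vanish too); the terms before `j1`
vanish and the rest is `Σ_{j1 ≤ j < J} h ((x + κ j1) + κ (j - j1)) ≤ Q` (a part of the sum at the point `x + κ j1 ∈ [a,b]`).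
Hence `J ∫ h ≤ (b - a + κ J) Q`.  (`Q ≥ 0` follows from `hQ` at `a`.) -/

set_option autoImplicit false

namespace Pool.Agent.LibSX15

open Finset

theorem as2_pt (h : ℝ → ℝ) (a b κ Q : ℝ) (J : ℕ) (hab : a ≤ b) (hκ : 0 < κ)
    (h0 : ∀ u, 0 ≤ h u) (hz : ∀ u, u ∉ Set.Icc a b → h u = 0)
    (hQ : ∀ x ∈ Set.Icc a b, ∑ j ∈ range J, h (x + κ * j) ≤ Q) (x : ℝ) :
    ∑ j ∈ range J, h (x + κ * j) ≤ (Set.Icc (a - κ * J) b).indicator (fun _ => Q) x := by
  have hQ0 : 0 ≤ Q := le_trans (Finset.sum_nonneg fun j _ => h0 _) (hQ a ⟨le_rfl, hab⟩)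
  have hlt : ∀ y, y < a → h y = 0 := fun y hy => hz y fun hm => absurd hm.1 (not_le.2 hy)
  have hgt : ∀ y, b < y → h y = 0 := fun y hy => hz y fun hm => absurd hm.2 (not_le.2 hy)
  by_cases hx : x ∈ Set.Icc (a - κ * J) b
  · rw [Set.indicator_of_mem hx]
    by_cases hex : ∃ j : ℕ, a ≤ x + κ * j
    · obtain ⟨j1, hj1, hmin⟩ : ∃ j1 : ℕ, a ≤ x + κ * j1 ∧ ∀ j < j1, x + κ * j < a := by
        classical
        exact ⟨Nat.find hex, Nat.find_spec hex, fun j hj => not_le.1 (Nat.find_min hex hj)⟩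
      by_cases hJ1 : J ≤ j1
      · rw [Finset.sum_eq_zero]
        · exact hQ0
        · intro j hj
          exact hlt _ (hmin j (lt_of_lt_of_le (Finset.mem_range.1 hj) hJ1))
      · rw [not_le] at hJ1
        obtain ⟨m, rfl⟩ : ∃ m, J = j1 + m := ⟨J - j1, by omega⟩
        rw [Finset.sum_range_add]
        have h1 : ∑ j ∈ range j1, h (x + κ * j) = 0 :=
          Finset.sum_eq_zero fun j hj => hlt _ (hmin j (Finset.mem_range.1 hj))
        rw [h1, zero_add]
        have h2 : ∀ i : ℕ, x + κ * ((j1 + i : ℕ) : ℝ) = (x + κ * j1) + κ * i := by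
          intro i
          push_cast
          ring
        simp only [h2]
        by_cases hb : x + κ * j1 ≤ b
        · refine le_trans ?_ (hQ (x + κ * j1) ⟨hj1, hb⟩)
          refine Finset.sum_le_sum_of_subset_of_nonneg ?_ fun j _ _ => h0 _
          intro i hi
          rw [Finset.mem_range] at hi ⊢
          omega
        · rw [not_le] at hb
          rw [Finset.sum_eq_zero]
          · exact hQ0
          · intro i _
            apply hgt
            have : 0 ≤ κ * (i : ℝ) := by positivity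
            linarith
    · push Not at hex
      rw [Finset.sum_eq_zero]
      · exact hQ0
      · intro j _
        exact hlt _ (hex j)
  · rw [Set.indicator_of_notMem hx]
    refine le_of_eq (Finset.sum_eq_zero fun j hj => ?_)
    have hjJ : (j : ℝ) < J := by exact_mod_cast Finset.mem_range.1 hj
    have hj0 : (0 : ℝ) ≤ j := Nat.cast_nonneg j
    by_cases h1 : x ≤ b
    · have h2 : x < a - κ * J := by
        by_contra h3
        exact hx ⟨not_lt.1 h3, h1⟩
      apply hlt
      nlinarith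
    · rw [not_le] at h1
      apply hgt
      have : 0 ≤ κ * (j : ℝ) := by positivity
      linarith

open MeasureTheory in
theorem as2 (h : ℝ → ℝ) (a b κ Q : ℝ) (J : ℕ) (hab : a ≤ b) (hκ : 0 < κ) (hJ : 1 ≤ J)
    (h0 : ∀ u, 0 ≤ h u) (hz : ∀ u, u ∉ Set.Icc a b → h u = 0) (hi : Integrable h)
    (hQ : ∀ x ∈ Set.Icc a b, ∑ j ∈ range J, h (x + κ * j) ≤ Q) :
    ∫ u, h u ≤ ((b - a) / J + κ) * Q := by
  have hJ0 : (0 : ℝ) < J := by exact_mod_cast hJ
  have hint : ∀ j : ℕ, Integrable (fun x => h (x + κ * j)) := fun j => hi.comp_add_right (κ * j)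
  have h1 : ∫ x, ∑ j ∈ range J, h (x + κ * j) = J * ∫ u, h u := by
    rw [integral_finsetSum _ fun j _ => hint j]
    have h2 : ∀ j ∈ range J, ∫ x, h (x + κ * j) = ∫ u, h u := fun j _ =>
      integral_add_right_eq_self h (κ * j)
    rw [Finset.sum_congr rfl h2, Finset.sum_const, Finset.card_range, nsmul_eq_mul]
  have h3 : ∫ x, ∑ j ∈ range J, h (x + κ * j) ≤
      ∫ x, (Set.Icc (a - κ * J) b).indicator (fun _ => Q) x := by
    refine integral_mono (integrable_finsetSum _ fun j _ => hint j) ?_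
      (fun x => as2_pt h a b κ Q J hab hκ h0 hz hQ x)
    exact (integrable_indicator_iff measurableSet_Icc).2 (integrableOn_const (by
      rw [Real.volume_Icc]
      exact ENNReal.ofReal_ne_top))
  have hle : a - κ * J ≤ b := by
    have : 0 ≤ κ * (J : ℝ) := by positivity
    linarith
  rw [h1, integral_indicator_const _ measurableSet_Icc, Real.volume_real_Icc_of_le hle,
    smul_eq_mul] at h3
  have h4 : ((b - a) / J + κ) * Q = (b - (a - κ * J)) * Q / J := by
    field_simp
    ring
  rw [h4, le_div_iff₀ hJ0]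
  linarith

end Pool.Agent.LibSX15
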