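import Pool.Agent.LibSX15.AS4
import Pool.Agent.LibSX15.AS8

/-! ROW AS9 (uses AS4, AS8 as stated). The case of small `K`: Halász.
Let `M = T^(1 - e/2)/K²`, `Λ = T^(e/100)`, `B = C2 Λ² K²`.  Write `K = T^κ` (`κ = log K/log T ∈ [1/3 - e/20, 1/2 - e]`); every quantity
is then a power of `T` (`Real.rpow_add`, `Real.rpow_mul`), and constants are `≤ T^η` for large `T`, `η` as small as you like.
* `1 ≤ M`: `2κ ≤ 1 - e/2`. `M ≤ K`: `1 - e/2 ≤ 3κ`. `Y ≥ T^((1+κ)/4 - e/100)`; if `Y > 2 Λ K` then `TT = 0` by `as5c` (integrand 0) and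
  the claim is trivial.
* hE: first term exponent `e/100 + 1 - e/2 - 2κ + 3κ/2 - 1/2 = 1/2 - κ/2 - e/2 + e/100`, to be `< (1+κ)/4 - e/100 - (small)`:
  `1/4 - e/2 + e/50 < 3κ/4`, true as `3κ/4 ≥ 1/4 - 3e/80`. Second: `e/100 + 2 - e - 4κ + 7κ/2 - 3/2 = 1/2 - κ/2 - e + e/100`: same.
* hκ: `1 - e/2 - 2κ + κ/2 ≤ 1/2`.
* hLV: `x² ≥ T/(2π)`, so `M * 3 K²/x² ≤ 6π T^(-e/2) ≤ 1` for large `T`, `Err ≤ 4 C0 (1 + log T)`; for `y ≥ Y/2`,
  `H = Λ² K²/y² ≤ 4 T^(e/50 + 2κ - (1+κ)/2 + e/50)`; `√(K M) = T^(1/2 - e/4 - κ/2)`: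
  `H √(KM)`: exponent `e/25 + κ - e/4 < κ`; `H Err`: `e/25 + 3κ/2 - 1/2 + small < κ` as `κ ≤ 1/2 - e`. So `C2 H (√(KM) + Err) ≤ K`, `HP` gives
  `|W| ≤ C2 H = B/y²`.
* conclusion: `96 T/(M K) * C2 Λ² K² * (4 + 6 log(2ΛK/Y)) ≤ T^e K³`: `1 - (1 - e/2) + κ + e/50 + 2κ + small`
  (`Y ≥ 1`, `2ΛK/Y ≤ T²`). -/

set_option autoImplicit false

namespace Pool.Agent.LibSX15

open Finset

theorem as9_zero (K T Y X : ℝ) (c : ℕ → ℝ → ℂ) (hT : 0 ≤ T) (h : ∀ t ∈ Set.Icc T (2 * T), ‖SS K c t‖ ≤ X)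
    (hY : X < Y) : TT K c T Y = 0 := by
  classical
  unfold TT
  have h0 : Set.EqOn (fun t => if Y ≤ ‖SS K c t‖ then ‖SS K c t‖ ^ 2 else 0) (fun _ => (0 : ℝ))
      (Set.uIcc T (2 * T)) := by
    intro t ht
    rw [Set.uIcc_of_le (by linarith)] at ht
    have h1 := h t ht
    have h2 : ¬ (Y ≤ ‖SS K c t‖) := by linarith
    simp [h2]
  have h3 := intervalIntegral.integral_congr (μ := MeasureTheory.volume) h0
  simp only [intervalIntegral.integral_zero] at h3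
  convert h3 using 2

/-- a constant times an exponential -/
theorem as9_exp (A s a b : ℝ) (hA : A ≤ Real.exp s) (h : s + a ≤ b) : A * Real.exp a ≤ Real.exp b := by
  calc A * Real.exp a ≤ Real.exp s * Real.exp a := mul_le_mul_of_nonneg_right hA (Real.exp_pos _).le
    _ = Real.exp (s + a) := (Real.exp_add s a).symm
    _ ≤ Real.exp b := Real.exp_le_exp.mpr h

theorem as9 (C0 C2 C1 e : ℝ) (hKP : KP C0) (hHP : HP C0 C2) (hC1 : 1 ≤ C1) (he : 0 < e) (he1 : e ≤ 1 / 10) :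
    ∃ T0 : ℝ, 3 ≤ T0 ∧ ∀ T : ℝ, T0 ≤ T → ∀ (K : ℝ) (c : ℕ → ℝ → ℂ), CC C1 T K c →
      T ^ (1 / 3 - e / 20) ≤ K → K ≤ T ^ (1 / 2 - e) → ∀ Y : ℝ, (T * K) ^ (1 / 4 : ℝ) * T ^ (-(e / 100)) ≤ Y →
      TT K c T Y ≤ T ^ e * K ^ 3 := by
  have hC0 : 1 ≤ C0 := hKP.1
  have hC2 : 1 ≤ C2 := hHP.1
  have hHP' := hHP.2
  obtain ⟨Ta, hTa, ha⟩ := as4 C1 (e / 100) (by linarith) (by linarith)
  obtain ⟨Tb, hTb, hb⟩ := as4b (10000 * C0 * C2) (e / 10) 1 (by positivity) (by linarith)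
  refine ⟨max (max Ta Tb) (10 ^ 6), le_trans hTa (le_trans (le_max_left _ _) (le_max_left _ _)), ?_⟩
  intro T hT K c hc hK1 hK2 Y hY
  have hTTa : Ta ≤ T := le_trans (le_trans (le_max_left _ _) (le_max_left _ _)) hT
  have hTTb : Tb ≤ T := le_trans (le_trans (le_max_right _ _) (le_max_left _ _)) hT
  have hT6 : (10 : ℝ) ^ 6 ≤ T := le_trans (le_max_right _ _) hT
  have hT0 : 0 < T := lt_of_lt_of_le (by norm_num) hT6
  have hK0 : 0 < K := lt_of_lt_of_le (Real.rpow_pos_of_pos hT0 _) hK1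
  obtain ⟨L, hL⟩ : ∃ L, L = Real.log T := ⟨_, rfl⟩
  obtain ⟨k, hk⟩ : ∃ k, k = Real.log K := ⟨_, rfl⟩
  obtain ⟨E, hE⟩ : ∃ E, E = e * L := ⟨_, rfl⟩
  have hTL : T = Real.exp L := by rw [hL, Real.exp_log hT0]
  have hKk : K = Real.exp k := by rw [hk, Real.exp_log hK0]
  have hL1 : 1 ≤ L := by
    rw [hL, Real.le_log_iff_exp_le hT0]
    exact le_trans (le_trans Real.exp_one_lt_d9.le (by norm_num)) hT6
  have hEpos : 0 < E := by rw [hE]; positivity
  have hEL : E ≤ L / 10 := by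
    rw [hE]
    have := mul_le_mul_of_nonneg_right he1 (by linarith : (0 : ℝ) ≤ L)
    linarith
  have hkl : L / 3 - E / 20 ≤ k := by
    rw [hk, Real.le_log_iff_exp_le hK0]
    refine le_trans (le_of_eq ?_) hK1
    rw [Real.rpow_def_of_pos hT0, ← hL, hE]; congr 1; ring
  have hku : k ≤ L / 2 - E := by
    rw [hk, Real.log_le_iff_le_exp hK0]
    refine le_trans hK2 (le_of_eq ?_)
    rw [Real.rpow_def_of_pos hT0, ← hL, hE]; congr 1; ring
  -- the powers
  have pT : ∀ a : ℝ, T ^ a = Real.exp (a * L) := fun a => by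
    rw [Real.rpow_def_of_pos hT0, ← hL, mul_comm]
  have pK : ∀ a : ℝ, K ^ a = Real.exp (a * k) := fun a => by
    rw [Real.rpow_def_of_pos hK0, ← hk, mul_comm]
  -- the constant
  have hP : 10000 * C0 * C2 * L ≤ Real.exp (E / 10) := by
    have := hb T hTTb
    rw [pow_one, ← hL, pT] at this
    refine le_trans this (le_of_eq ?_)
    rw [hE]; congr 1; ring
  have hCC : 1 ≤ C0 * C2 := one_le_mul_of_one_le_of_one_le hC0 hC2
  have hC2C : C2 ≤ C0 * C2 := le_mul_of_one_le_left (by linarith) hC0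
  have hP2 : 10000 * (C0 * C2) ≤ Real.exp (E / 10) := by
    refine le_trans ?_ hP
    have := le_mul_of_one_le_right (by positivity : 0 ≤ 10000 * C0 * C2) hL1
    linarith
  have hP3 : (10000 : ℝ) ≤ Real.exp (E / 10) := by linarith
  -- the choices
  obtain ⟨Λ, hΛd⟩ : ∃ Λ, Λ = Real.exp (E / 100) := ⟨_, rfl⟩
  obtain ⟨M, hMd⟩ : ∃ M, M = Real.exp (L - E / 2 - 2 * k) := ⟨_, rfl⟩
  have hΛ1 : 1 ≤ Λ := by rw [hΛd]; exact Real.one_le_exp (by linarith)
  have hΛ0 : 0 < Λ := by linarith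
  have hM1 : 1 ≤ M := by rw [hMd]; exact Real.one_le_exp (by linarith)
  have hM0 : 0 < M := by linarith
  have hMK : M ≤ K := by rw [hMd, hKk]; exact Real.exp_le_exp.mpr (by linarith)
  have hK2' : 2 ≤ K := by
    rw [hKk]
    have h1 : (2 : ℝ) ≤ Real.exp (E / 10) := by linarith
    exact le_trans h1 (Real.exp_le_exp.mpr (by linarith))
  have hKT' : K ≤ T / 1000 := by
    have h1 : (1000 : ℝ) * Real.exp k ≤ Real.exp L := as9_exp 1000 (E / 10) k L (by linarith) (by linarith)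
    rw [← hKk, ← hTL] at h1
    linarith
  have hKTle : K ≤ T := by linarith
  have hΛc : ∀ n : ℕ, (n : ℝ) ≤ K → C1 * n.divisors.card ≤ Λ := by
    intro n hn
    have h1 := ha T hTTa n (le_trans hn hKTle)
    rw [pT] at h1
    refine le_trans h1 (le_of_eq ?_)
    rw [hΛd, hE]; congr 1; ring
  have hY0 : Real.exp (L / 4 + k / 4 - E / 100) ≤ Y := by
    refine le_trans (le_of_eq ?_) hY
    rw [Real.mul_rpow hT0.le hK0.le, pT, pK, pT, ← Real.exp_add, ← Real.exp_add, hE]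
    congr 1; ring
  have hYpos : 0 < Y := lt_of_lt_of_le (Real.exp_pos _) hY0
  have hY1 : 1 ≤ Y := le_trans (Real.one_le_exp (by linarith)) hY0
  have hTe : T ^ e * K ^ 3 = Real.exp (E + 3 * k) := by
    rw [pT, hKk, ← Real.exp_nat_mul, ← Real.exp_add, hE]
    norm_num
  have hcc := as5c C1 T K Λ c hc hK0.le hΛc
  by_cases hYX : Y ≤ 2 * (Λ * K)
  swap
  · have h0 : TT K c T Y = 0 := as9_zero K T Y (Λ * K) c hT0.le hcc.1 (by
      have : 0 < Λ * K := by positivity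
      linarith)
    rw [h0]; positivity
  obtain ⟨B, hBd⟩ : ∃ B, B = C2 * (Λ ^ 2 * K ^ 2) := ⟨_, rfl⟩
  have hB0 : 0 ≤ B := by rw [hBd]; positivity
  have h2 : ∀ x : ℝ, Real.exp x ^ 2 = Real.exp (2 * x) := fun x => by
    rw [← Real.exp_nat_mul]; norm_num
  have key := as8 C0 C1 T K M Λ Y B c hKP hc hΛc hΛ1 (by linarith) hK2' hKT' hM1 hMK hYpos hB0 hYX ?_ ?_ ?_
  · -- conclusion
    refine le_trans key ?_
    have hlog : Real.log (2 * (Λ * K) / Y) ≤ 2 * L := by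
      rw [Real.log_le_iff_le_exp (by positivity)]
      rw [div_le_iff₀ hYpos]
      have h3 : 2 * (Λ * K) ≤ Real.exp (2 * L) := by
        have h4 := as9_exp 2 (E / 10) (E / 100 + k) (2 * L) (by linarith) (by linarith)
        rwa [Real.exp_add, ← hΛd, ← hKk] at h4
      exact le_trans h3 (le_mul_of_one_le_right (Real.exp_pos _).le hY1)
    have h5 : 96 * T / (M * K) * B = 96 * C2 * Real.exp (E / 2 + E / 50 + 3 * k) := by
      rw [hBd, hTL, hMd, hKk, hΛd, h2, h2, ← Real.exp_add, ← Real.exp_add]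
      rw [show 96 * Real.exp L / Real.exp (L - E / 2 - 2 * k + k) *
        (C2 * Real.exp (2 * (E / 100) + 2 * k)) = 96 * C2 * (Real.exp L / Real.exp (L - E / 2 - 2 * k + k) *
          Real.exp (2 * (E / 100) + 2 * k)) by ring, ← Real.exp_sub, ← Real.exp_add]
      congr 2; ring
    rw [h5, hTe]
    have h6 : 96 * C2 * (4 + 6 * Real.log (2 * (Λ * K) / Y)) ≤ Real.exp (E / 10) := by
      refine le_trans ?_ hP
      have h7 : 4 + 6 * Real.log (2 * (Λ * K) / Y) ≤ 16 * L := by linarith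
      have h8 : 96 * C2 * (4 + 6 * Real.log (2 * (Λ * K) / Y)) ≤ 96 * C2 * (16 * L) :=
        mul_le_mul_of_nonneg_left h7 (by positivity)
      have h9 : C2 * L ≤ C0 * C2 * L := mul_le_mul_of_nonneg_right hC2C (by linarith)
      have h10 := mul_nonneg (by linarith : (0:ℝ) ≤ C0 * C2) (by linarith : (0:ℝ) ≤ L)
      linarith
    calc 96 * C2 * Real.exp (E / 2 + E / 50 + 3 * k) * (4 + 6 * Real.log (2 * (Λ * K) / Y))
        = (96 * C2 * (4 + 6 * Real.log (2 * (Λ * K) / Y))) * Real.exp (E / 2 + E / 50 + 3 * k) := by ring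
      _ ≤ Real.exp (E + 3 * k) := as9_exp _ (E / 10) _ _ h6 (by linarith)
  · -- hE
    have h3 : Λ * (M * K ^ (3 / 2 : ℝ) / T ^ (1 / 2 : ℝ) + M ^ 2 * K ^ (7 / 2 : ℝ) / T ^ (3 / 2 : ℝ)) =
        Real.exp (L / 2 - E / 2 + E / 100 - k / 2) + Real.exp (L / 2 - E + E / 100 - k / 2) := by
      rw [mul_add, hΛd, hMd, h2, pK, pK, pT, pT, ← Real.exp_add, ← Real.exp_add, ← Real.exp_sub, ← Real.exp_sub,
        ← Real.exp_add, ← Real.exp_add]
      congr 2 <;> ring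
    rw [h3]
    have h4 := as9_exp 4 (E / 10) (L / 2 - E / 2 + E / 100 - k / 2) (L / 4 + k / 4 - E / 100) (by linarith) (by linarith)
    have h5 := as9_exp 4 (E / 10) (L / 2 - E + E / 100 - k / 2) (L / 4 + k / 4 - E / 100) (by linarith) (by linarith)
    linarith
  · -- hκ
    have h3 : M * K ^ (1 / 2 : ℝ) ≤ T ^ (1 / 2 : ℝ) := by
      rw [hMd, pK, pT, ← Real.exp_add]
      exact Real.exp_le_exp.mpr (by linarith)
    have h4 : 0 < T ^ (1 / 2 : ℝ) := Real.rpow_pos_of_pos hT0 _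
    linarith
  · -- hLV
    intro x hx hxT d hd hdN hdM hdε hdE a W y hy ha' hW1 hW2
    have hy0 : 0 < y := by linarith
    have hxx : T ≤ 2 * Real.pi * x ^ 2 := hxT.1
    have h := hHP' d hd Λ y (Λ ^ 2 * d.N ^ 2 / y ^ 2) a W hΛ1 hy0 ha' (by rw [hdN, hdM]; exact hW1) hW2 rfl ?_
    · refine le_trans h (le_of_eq ?_)
      rw [hBd, hdN]; ring
    · rw [hdN, hdM, hdE]
      have hpi : Real.pi ≤ 3.15 := Real.pi_lt_d2.le
      have hx2 : 0 < x ^ 2 := by positivity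
      -- M * 3 K² / x² ≤ 1
      have h3 : M * (3 * K ^ 2 / x ^ 2) ≤ 1 := by
        have h4 : M * (3 * K ^ 2 / x ^ 2) ≤ M * (3 * K ^ 2) * (20 / T) / 3 := by
          have h5 : 1 / x ^ 2 ≤ 20 / T / 3 := by
            rw [div_div, div_le_div_iff₀ hx2 (by positivity)]
            have := mul_le_mul_of_nonneg_right hpi hx2.le
            linarith
          calc M * (3 * K ^ 2 / x ^ 2) = M * (3 * K ^ 2) * (1 / x ^ 2) := by ring
            _ ≤ M * (3 * K ^ 2) * (20 / T / 3) := mul_le_mul_of_nonneg_left h5 (by positivity)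
            _ = _ := by ring
        refine le_trans h4 ?_
        have h6 : M * (3 * K ^ 2) * (20 / T) / 3 = 20 * Real.exp (-(E / 2)) := by
          rw [hMd, hKk, hTL, h2]
          rw [show Real.exp (L - E / 2 - 2 * k) * (3 * Real.exp (2 * k)) * (20 / Real.exp L) / 3 =
            20 * (Real.exp (L - E / 2 - 2 * k) * Real.exp (2 * k) / Real.exp L) by ring,
            ← Real.exp_add, ← Real.exp_sub]
          congr 2; ring
        rw [h6]
        have h7 := as9_exp 20 (E / 10) (-(E / 2)) 0 (by linarith) (by linarith)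
        rwa [Real.exp_zero] at h7
      have h3' : 0 ≤ M * (3 * K ^ 2 / x ^ 2) := by positivity
      have hlogM : 0 ≤ Real.log M := Real.log_nonneg hM1
      have hlogM2 : Real.log M ≤ L := by rw [hMd, Real.log_exp]; linarith
      have hErr : C0 * (1 + M * (3 * K ^ 2 / x ^ 2)) ^ 2 * (1 + Real.log M) ≤ 8 * C0 * L := by
        have h4 : (1 + M * (3 * K ^ 2 / x ^ 2)) ^ 2 ≤ 4 := by
          have := pow_le_pow_left₀ (by linarith : 0 ≤ 1 + M * (3 * K ^ 2 / x ^ 2)) (by linarith : 1 + M * (3 * K ^ 2 / x ^ 2) ≤ 2) 2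
          linarith
        have h5 : 1 + Real.log M ≤ 2 * L := by linarith
        have h6 : C0 * (1 + M * (3 * K ^ 2 / x ^ 2)) ^ 2 ≤ C0 * 4 := mul_le_mul_of_nonneg_left h4 (by linarith)
        calc C0 * (1 + M * (3 * K ^ 2 / x ^ 2)) ^ 2 * (1 + Real.log M) ≤ C0 * 4 * (2 * L) :=
              mul_le_mul h6 h5 (by linarith) (by positivity)
          _ = _ := by ring
      -- H
      have hH : Λ ^ 2 * K ^ 2 / y ^ 2 ≤ 4 * Real.exp (E / 25 - L / 2 + 3 / 2 * k) := by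
        have h4 : Real.exp (L / 4 + k / 4 - E / 100) / 2 ≤ y := by linarith
        have h5 : (Real.exp (L / 4 + k / 4 - E / 100) / 2) ^ 2 ≤ y ^ 2 := by
          apply pow_le_pow_left₀ (by positivity) h4
        have h6 : Λ ^ 2 * K ^ 2 = 4 * Real.exp (E / 25 - L / 2 + 3 / 2 * k) *
            (Real.exp (L / 4 + k / 4 - E / 100) / 2) ^ 2 := by
          rw [div_pow, h2, hΛd, hKk, h2, h2]
          rw [show 4 * Real.exp (E / 25 - L / 2 + 3 / 2 * k) * (Real.exp (2 * (L / 4 + k / 4 - E / 100)) / 2 ^ 2) =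
            Real.exp (E / 25 - L / 2 + 3 / 2 * k) * Real.exp (2 * (L / 4 + k / 4 - E / 100)) by ring,
            ← Real.exp_add, ← Real.exp_add]
          congr 1; ring
        rw [div_le_iff₀ (by positivity), h6]
        exact mul_le_mul_of_nonneg_left h5 (by positivity)
      have hH0 : 0 ≤ Λ ^ 2 * K ^ 2 / y ^ 2 := by positivity
      have hsq : Real.sqrt (K * M) = Real.exp (L / 2 - E / 4 - k / 2) := by
        rw [Real.sqrt_eq_iff_mul_self_eq (by positivity) (by positivity), hKk, hMd, ← Real.exp_add, ← Real.exp_add]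
        congr 1; ring
      rw [hsq]
      have hsum : C2 * (Λ ^ 2 * K ^ 2 / y ^ 2) * (Real.exp (L / 2 - E / 4 - k / 2) +
          C0 * (1 + M * (3 * K ^ 2 / x ^ 2)) ^ 2 * (1 + Real.log M)) ≤
          C2 * (4 * Real.exp (E / 25 - L / 2 + 3 / 2 * k)) * (Real.exp (L / 2 - E / 4 - k / 2) + 8 * C0 * L) := by
        apply mul_le_mul (mul_le_mul_of_nonneg_left hH (by linarith)) (by linarith) (by positivity) (by positivity)
      refine le_trans hsum ?_
      have h7 : C2 * (4 * Real.exp (E / 25 - L / 2 + 3 / 2 * k)) * (Real.exp (L / 2 - E / 4 - k / 2) + 8 * C0 * L) =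
          (4 * C2) * Real.exp (E / 25 - E / 4 + k) + (32 * C0 * C2 * L) * Real.exp (E / 25 - L / 2 + 3 / 2 * k) := by
        rw [mul_add, show C2 * (4 * Real.exp (E / 25 - L / 2 + 3 / 2 * k)) * Real.exp (L / 2 - E / 4 - k / 2) =
          4 * C2 * (Real.exp (E / 25 - L / 2 + 3 / 2 * k) * Real.exp (L / 2 - E / 4 - k / 2)) by ring, ← Real.exp_add]
        congr 1
        · congr 2; ring
        · ring
      rw [h7]
      have hCL : 1 ≤ C0 * C2 * L := one_le_mul_of_one_le_of_one_le hCC hL1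
      have h8 := as9_exp (2 * (4 * C2)) (E / 10) (E / 25 - E / 4 + k) k (by linarith) (by linarith)
      have h9 := as9_exp (2 * (32 * C0 * C2 * L)) (E / 10) (E / 25 - L / 2 + 3 / 2 * k) k (by linarith) (by linarith)
      rw [← hKk] at h8 h9
      linarith

end Pool.Agent.LibSX15
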