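import Mathlib

/-!
LibSX15 (MP_91b7ff_nt): a power saving in the sixth moment of the Riemann zeta function.
Definitions used by all the blocks.  Paper proof: M6_core.md in the store.
-/

set_option autoImplicit false

namespace Pool.Agent.LibSX15

open Finset

/-- `e(x) = exp (2 π i x)` -/
noncomputable def ee (x : ℝ) : ℂ := Complex.exp (((2 * Real.pi * x : ℝ) : ℂ) * Complex.I)

/-- The data of the large values theorem. -/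
structure Dat where
  /-- the set of indices -/
  S : Finset ℕ
  /-- the frequencies -/
  ξ : ℕ → ℝ
  /-- the weights -/
  ω : ℕ → ℝ
  γ : ℤ → ℂ
  w : ℝ → ℝ
  q : ℝ → ℝ
  q1 : ℝ → ℝ
  b0 : ℝ
  N : ℝ
  M : ℝ
  ε : ℝ
  Err : ℝ

namespace Dat

variable (d : Dat)

/-- the kernel -/
noncomputable def k (τ : ℤ) : ℂ := ∑ n ∈ d.S, (d.ω n : ℂ) * ee (d.ξ n * τ)

/-- the phase of the `m`-th chirp -/
noncomputable def ph (m : ℤ) (τ : ℝ) : ℝ :=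
  τ ^ 2 / (4 * m * (d.b0 * d.N)) - m * d.ε * d.q (τ / (2 * m * (d.b0 * d.N)))

/-- the `m`-th chirp -/
noncomputable def km (m : ℤ) (τ : ℤ) : ℂ :=
  d.γ m * (Real.sqrt (d.N / |(m : ℝ)|) : ℂ) * (d.w (τ / (2 * m * (d.b0 * d.N))) : ℂ) * ee (d.ph m τ)

/-- the range of `m` -/
noncomputable def ms (C0 : ℝ) : Finset ℤ := (Finset.Icc (-⌊C0 * d.M⌋) ⌊C0 * d.M⌋).erase 0

/-- the polynomial with the coefficients `a` -/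
noncomputable def D (a : ℕ → ℂ) (t : ℤ) : ℂ := ∑ n ∈ d.S, a n * ee (d.ξ n * t)

/-- The hypothesis on the data; `C0` is an absolute constant. -/
structure Good (C0 : ℝ) : Prop where
  hC0 : 1 ≤ C0
  hN : 2 ≤ d.N
  hM : 1 ≤ d.M
  hb1 : 1 ≤ d.b0
  hb2 : d.b0 ≤ C0
  hε : 0 ≤ d.ε
  hErr : 1 ≤ d.Err
  hS : (d.S.card : ℝ) ≤ C0 * d.N
  hω0 : ∀ n, 0 ≤ d.ω n
  hω1 : ∀ n, d.ω n ≤ 1
  hξ0 : ∀ n ∈ d.S, 0 ≤ d.ξ n
  hξ1 : ∀ n ∈ d.S, d.ξ n ≤ 1 / 4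
  hγ : ∀ m, ‖d.γ m‖ ≤ C0
  hw : ∀ x, |d.w x| ≤ C0
  hwL : ∀ x y, |d.w x - d.w y| ≤ C0 * |x - y|
  hw0 : ∀ x, d.w x ≠ 0 → 1 / C0 ≤ x
  hw1 : ∀ x, d.w x ≠ 0 → x ≤ 1 / 4
  hq1 : ∀ x, |d.q1 x| ≤ C0
  hq2 : ∀ x y, |d.q1 x - d.q1 y| ≤ C0 * |x - y|
  hq3 : ∀ x y, |d.q y - d.q x - d.q1 x * (y - x)| ≤ C0 * (y - x) ^ 2
  hk : ∀ τ : ℤ, |(τ : ℝ)| ≤ 8 * d.M * d.N →
    ‖d.k τ - ∑ m ∈ d.ms C0, d.km m τ‖ ≤ C0 * (d.N / (1 + (τ : ℝ) ^ 2) + d.Err)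

end Dat

/-- the frequencies of the zeta function in a block at `u` -/
noncomputable def zxi (N u : ℝ) (n : ℕ) : ℝ :=
  1 / 6 * Real.sqrt (n / N) / Real.sqrt (1 + n / (12 * u ^ 2))

/-- the phase `2 √(n (t / 2π + n / 12))` -/
noncomputable def zph (n : ℕ) (t : ℝ) : ℝ :=
  2 * Real.sqrt (n * (t / (2 * Real.pi) + n / 12))

end Pool.Agent.LibSX15
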