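import Pool.Agent.LibSX15.Defs

/-!
LibSX15, block KN (helper1): the kernel of the zeta function.  Definitions.

`e = e0 = 3 N / u^2 ∈ [0, 3/100]`, `Qf e x = 36 x^2 / (1 - e x^2)`; for `x ∈ (0, 1)` and `y > 0`: `y = Qf e x` iff
`x = (1/6) √y / √(1 + e y / 36)`; with `y = n / N` this is `zxi N u n`.
-/

set_option autoImplicit false

namespace Pool.Agent.LibSX15

/-- `(2 i A)^(-1/2)` -/
noncomputable def sp (A : ℝ) : ℂ := (1 / (((2 * A : ℝ) : ℂ) * Complex.I)) ^ (1 / 2 : ℂ)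

/-- the cutoff: `1` on `[1/2000, 1]`, `0` outside `(1/4000, 2)` -/
noncomputable def om (y : ℝ) : ℝ := Real.smoothTransition (4000 * y - 1) * Real.smoothTransition (2 - y)

noncomputable def Qf (e x : ℝ) : ℝ := 36 * x ^ 2 / (1 - e * x ^ 2)

/-- derivative of `Qf e` -/
noncomputable def Qf1 (e x : ℝ) : ℝ := 72 * x / (1 - e * x ^ 2) ^ 2

/-- derivative of `Qf1 e` -/
noncomputable def Qf2 (e x : ℝ) : ℝ := 72 * (1 + 3 * e * x ^ 2) / (1 - e * x ^ 2) ^ 3

/-- derivative of `Qf2 e` -/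
noncomputable def Qf3 (e x : ℝ) : ℝ := 864 * e * x * (1 + e * x ^ 2) / (1 - e * x ^ 2) ^ 4

/-- `w = (ω ∘ Q) Q'`, supported in `[1/400, 1/4]` -/
noncomputable def wf (e x : ℝ) : ℝ := if 0 < x then om (Qf e x) * Qf1 e x else 0

/-- `q`, cut off smoothly outside `[-1/2, 1/2]` -/
noncomputable def qf (e x : ℝ) : ℝ :=
  Real.smoothTransition (2 - 4 * x ^ 2) * (36 * x ^ 4 / (1 - e * x ^ 2))

/-- the frequency as a function of a real variable: `zxi N u n = zx N u n` -/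
noncomputable def zx (N u x : ℝ) : ℝ :=
  1 / 6 * Real.sqrt (x / N) / Real.sqrt (1 + x / (12 * u ^ 2))

/-- the `m`-th integral -/
noncomputable def KI (e N : ℝ) (m : ℤ) (τ : ℝ) : ℂ :=
  ∫ x in (1 / 400 : ℝ)..(1 / 4), (wf e x : ℂ) * ee (x * τ - m * N * Qf e x)

/-- the constant factor of the `m`-th chirp -/
noncomputable def gam (m : ℤ) : ℂ := if 0 < m then sp 36 else sp (-36)

/-- the `m`-th chirp -/
noncomputable def chi (e N : ℝ) (m : ℤ) (τ : ℝ) : ℂ :=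
  gam m * (Real.sqrt (N / |(m : ℝ)|) : ℂ) * (wf e (τ / (2 * m * (36 * N))) : ℂ) *
    ee (τ ^ 2 / (4 * m * (36 * N)) - m * (N * e) * qf e (τ / (2 * m * (36 * N))))

end Pool.Agent.LibSX15
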