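import Pool.Agent.LibSX15.Defs

/-!
Row KN_NS (nonstationary phase, two integrations by parts), 60 min. Only Mathlib.
`F0 = g / (2 π i φ1)`, `(ee ∘ φ)' = 2 π i φ1 ee(φ)` (`HasDerivAt` of `ee ∘ φ`), so `∫ g ee(φ) = [F0 ee(φ)] - ∫ F0' ee(φ)`, `F0' = (g1/φ1 - g φ2/φ1²)/(2 π i)`; the boundary term
is `0` (`g a = g b = 0`). Once more with `F0'` in place of `g` (it vanishes at `a`, `b` since `g`, `g1` do): the integrand is
`(g2/φ1² - 3 g1 φ2/φ1³ + g (3 φ2²/φ1⁴ - φ3/φ1³))/(2 π i)²`, of norm `≤ G (1 + 4 B + 3 B²)/(4 π² lam²) ≤ G (1 + B)²/lam²`. Use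
`intervalIntegral.integral_mul_deriv_eq_deriv_mul` (continuity gives the integrability; `φ1` does not vanish) and `intervalIntegral.norm_integral_le_of_norm_le_const`.
-/

set_option autoImplicit false

namespace Pool.Agent.LibSX15

private theorem KN_NS_ee {φ : ℝ → ℝ} {φ' x : ℝ} (h : HasDerivAt φ φ' x) :
    HasDerivAt (fun y => ee (φ y)) (2 * Real.pi * Complex.I * (φ' : ℂ) * ee (φ x)) x := by
  have h1 : HasDerivAt (fun y => (((2 * Real.pi * φ y : ℝ) : ℂ) * Complex.I))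
      (((2 * Real.pi * φ' : ℝ) : ℂ) * Complex.I) x :=
    ((h.const_mul (2 * Real.pi)).ofReal_comp).mul_const Complex.I
  have h2 := h1.cexp
  refine h2.congr_deriv ?_
  unfold ee
  push_cast
  ring

private theorem KN_NS_norm_ee (x : ℝ) : ‖ee x‖ = 1 := by
  unfold ee
  exact Complex.norm_exp_ofReal_mul_I _

/-- the integrand after two integrations by parts -/
private noncomputable def KN_NS_R (g g1 g2 : ℝ → ℂ) (φ1 φ2 φ3 : ℝ → ℝ) (x : ℝ) : ℂ :=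
  (g2 x * (φ1 x : ℂ) ^ 2 - 3 * g1 x * (φ2 x : ℂ) * (φ1 x : ℂ) +
    g x * (3 * (φ2 x : ℂ) ^ 2 - (φ3 x : ℂ) * (φ1 x : ℂ))) /
      ((2 * Real.pi * Complex.I) ^ 2 * (φ1 x : ℂ) ^ 4)

private theorem KN_NS_deriv {g g1 : ℝ → ℂ} {φ φ1 φ2 : ℝ → ℝ} {x : ℝ} {g1x g2x : ℂ}
    {φ1x φ2x φ3x : ℝ} (hg : HasDerivAt g g1x x) (hg1 : HasDerivAt g1 g2x x)
    (hφ : HasDerivAt φ φ1x x) (hφ1 : HasDerivAt φ1 φ2x x) (hφ2 : HasDerivAt φ2 φ3x x)
    (e1 : g1 x = g1x) (e2 : φ1 x = φ1x) (e3 : φ2 x = φ2x) (hne : φ1x ≠ 0) :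
    HasDerivAt (fun y => (g y / (2 * Real.pi * Complex.I * (φ1 y : ℂ)) -
      (g1 y * (φ1 y : ℂ) - g y * (φ2 y : ℂ)) /
        ((2 * Real.pi * Complex.I) ^ 2 * (φ1 y : ℂ) ^ 3)) * ee (φ y))
      (g x * ee (φ x) - (g2x * (φ1x : ℂ) ^ 2 - 3 * g1x * (φ2x : ℂ) * (φ1x : ℂ) +
        g x * (3 * (φ2x : ℂ) ^ 2 - (φ3x : ℂ) * (φ1x : ℂ))) /
        ((2 * Real.pi * Complex.I) ^ 2 * (φ1x : ℂ) ^ 4) * ee (φ x)) x := by
  subst e1 e2 e3
  have hc : (2 * Real.pi * Complex.I : ℂ) ≠ 0 := by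
    simp [Real.pi_ne_zero, Complex.I_ne_zero]
  have hp : (φ1 x : ℂ) ≠ 0 := Complex.ofReal_ne_zero.2 hne
  set c : ℂ := 2 * Real.pi * Complex.I with hcdef
  have hp1 := hφ1.ofReal_comp
  have hp2 := hφ2.ofReal_comp
  have hA := hg.div (hp1.const_mul c) (mul_ne_zero hc hp)
  have hB := ((hg1.mul hp1).sub (hg.mul hp2)).div ((hp1.pow 3).const_mul (c ^ 2))
    (mul_ne_zero (pow_ne_zero 2 hc) (pow_ne_zero 3 hp))
  have hC := (hA.sub hB).mul (KN_NS_ee hφ)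
  refine hC.congr_deriv ?_
  simp only [Pi.sub_apply, Pi.mul_apply, Pi.div_apply, Pi.pow_apply]
  rw [← hcdef]
  field_simp
  ring

theorem KN_NS (a b : ℝ) (g g1 g2 : ℝ → ℂ) (φ φ1 φ2 φ3 : ℝ → ℝ) (G B lam : ℝ)
    (hab : a ≤ b) (hlam : 0 < lam) (hB : 0 ≤ B)
    (hg : ∀ x ∈ Set.Icc a b, HasDerivAt g (g1 x) x)
    (hg1 : ∀ x ∈ Set.Icc a b, HasDerivAt g1 (g2 x) x)
    (hφ : ∀ x ∈ Set.Icc a b, HasDerivAt φ (φ1 x) x)
    (hφ1 : ∀ x ∈ Set.Icc a b, HasDerivAt φ1 (φ2 x) x)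
    (hφ2 : ∀ x ∈ Set.Icc a b, HasDerivAt φ2 (φ3 x) x)
    (hg2c : ContinuousOn g2 (Set.Icc a b)) (hφ3c : ContinuousOn φ3 (Set.Icc a b))
    (ga : g a = 0) (gb : g b = 0) (g1a : g1 a = 0) (g1b : g1 b = 0)
    (bg : ∀ x ∈ Set.Icc a b, ‖g x‖ ≤ G) (bg1 : ∀ x ∈ Set.Icc a b, ‖g1 x‖ ≤ G)
    (bg2 : ∀ x ∈ Set.Icc a b, ‖g2 x‖ ≤ G)
    (bφ1 : ∀ x ∈ Set.Icc a b, lam ≤ |φ1 x|)
    (bφ2 : ∀ x ∈ Set.Icc a b, |φ2 x| ≤ B * lam)
    (bφ3 : ∀ x ∈ Set.Icc a b, |φ3 x| ≤ B * lam) :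
    ‖∫ x in a..b, g x * ee (φ x)‖ ≤ (b - a) * G * (1 + B) ^ 2 / lam ^ 2 := by
  have hne : ∀ x ∈ Set.Icc a b, φ1 x ≠ 0 := fun x hx h => by
    have := bφ1 x hx
    rw [h, abs_zero] at this
    linarith
  have hpc : ∀ x ∈ Set.Icc a b, (φ1 x : ℂ) ≠ 0 := fun x hx =>
    Complex.ofReal_ne_zero.2 (hne x hx)
  have hc : (2 * Real.pi * Complex.I : ℂ) ≠ 0 := by
    simp [Real.pi_ne_zero, Complex.I_ne_zero]
  have hG : 0 ≤ G := (norm_nonneg _).trans (bg a (Set.left_mem_Icc.2 hab))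
  have cg : ContinuousOn g (Set.Icc a b) := fun x hx => (hg x hx).continuousAt.continuousWithinAt
  have cg1 : ContinuousOn g1 (Set.Icc a b) :=
    fun x hx => (hg1 x hx).continuousAt.continuousWithinAt
  have cφ : ContinuousOn φ (Set.Icc a b) := fun x hx => (hφ x hx).continuousAt.continuousWithinAt
  have cφ1 : ContinuousOn φ1 (Set.Icc a b) :=
    fun x hx => (hφ1 x hx).continuousAt.continuousWithinAt
  have cφ2 : ContinuousOn φ2 (Set.Icc a b) :=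
    fun x hx => (hφ2 x hx).continuousAt.continuousWithinAt
  have cee : ContinuousOn (fun x => ee (φ x)) (Set.Icc a b) :=
    fun x hx => (KN_NS_ee (hφ x hx)).continuousAt.continuousWithinAt
  have cp1 : ContinuousOn (fun x => (φ1 x : ℂ)) (Set.Icc a b) :=
    Complex.continuous_ofReal.comp_continuousOn cφ1
  have cp2 : ContinuousOn (fun x => (φ2 x : ℂ)) (Set.Icc a b) :=
    Complex.continuous_ofReal.comp_continuousOn cφ2
  have cp3 : ContinuousOn (fun x => (φ3 x : ℂ)) (Set.Icc a b) :=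
    Complex.continuous_ofReal.comp_continuousOn hφ3c
  have cR : ContinuousOn (KN_NS_R g g1 g2 φ1 φ2 φ3) (Set.Icc a b) := by
    unfold KN_NS_R
    refine ContinuousOn.div ?_ ?_ ?_
    · exact ((hg2c.mul (cp1.pow 2)).sub (((continuousOn_const.mul cg1).mul cp2).mul cp1)).add
        (cg.mul ((continuousOn_const.mul (cp2.pow 2)).sub (cp3.mul cp1)))
    · exact continuousOn_const.mul (cp1.pow 4)
    · intro x hx
      exact mul_ne_zero (pow_ne_zero 2 hc) (pow_ne_zero 4 (hpc x hx))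
  have i1 : IntervalIntegrable (fun x => g x * ee (φ x)) MeasureTheory.volume a b := by
    apply ContinuousOn.intervalIntegrable
    rw [Set.uIcc_of_le hab]
    exact cg.mul cee
  have i2 : IntervalIntegrable (fun x => KN_NS_R g g1 g2 φ1 φ2 φ3 x * ee (φ x))
      MeasureTheory.volume a b := by
    apply ContinuousOn.intervalIntegrable
    rw [Set.uIcc_of_le hab]
    exact cR.mul cee
  have h0 : ∫ x in a..b, (g x * ee (φ x) - KN_NS_R g g1 g2 φ1 φ2 φ3 x * ee (φ x)) = 0 := by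
    rw [intervalIntegral.integral_eq_sub_of_hasDerivAt
      (f := fun y => (g y / (2 * Real.pi * Complex.I * (φ1 y : ℂ)) -
      (g1 y * (φ1 y : ℂ) - g y * (φ2 y : ℂ)) /
        ((2 * Real.pi * Complex.I) ^ 2 * (φ1 y : ℂ) ^ 3)) * ee (φ y)) ?_ (i1.sub i2)]
    · simp only [ga, gb, g1a, g1b, zero_mul, zero_div, sub_zero]
    · intro x hx
      rw [Set.uIcc_of_le hab] at hx
      exact KN_NS_deriv (hg x hx) (hg1 x hx) (hφ x hx) (hφ1 x hx) (hφ2 x hx) rfl rfl rfl (hne x hx)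
  rw [intervalIntegral.integral_sub i1 i2, sub_eq_zero] at h0
  rw [h0]
  have hb : ∀ x ∈ Set.uIoc a b, ‖KN_NS_R g g1 g2 φ1 φ2 φ3 x * ee (φ x)‖ ≤
      G * (1 + B) ^ 2 / lam ^ 2 := by
    intro x hx
    rw [Set.uIoc_of_le hab] at hx
    have hx' : x ∈ Set.Icc a b := ⟨hx.1.le, hx.2⟩
    rw [norm_mul, KN_NS_norm_ee, mul_one]
    unfold KN_NS_R
    set r := |φ1 x| with hr
    have hrl : lam ≤ r := bφ1 x hx'
    have hr0 : 0 < r := hlam.trans_le hrl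
    have n1 : ‖(φ1 x : ℂ)‖ = r := by rw [Complex.norm_real, Real.norm_eq_abs]
    have n2 : ‖(φ2 x : ℂ)‖ ≤ B * lam := by
      rw [Complex.norm_real, Real.norm_eq_abs]; exact bφ2 x hx'
    have n3 : ‖(φ3 x : ℂ)‖ ≤ B * lam := by
      rw [Complex.norm_real, Real.norm_eq_abs]; exact bφ3 x hx'
    have hBl : B * lam ≤ B * r := mul_le_mul_of_nonneg_left hrl hB
    have hBr : 0 ≤ B * r := mul_nonneg hB hr0.le
    have t1 : ‖g2 x * (φ1 x : ℂ) ^ 2‖ ≤ G * r ^ 2 := by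
      rw [norm_mul, norm_pow, n1]
      exact mul_le_mul_of_nonneg_right (bg2 x hx') (by positivity)
    have t2 : ‖3 * g1 x * (φ2 x : ℂ) * (φ1 x : ℂ)‖ ≤ 3 * G * (B * r) * r := by
      rw [norm_mul, norm_mul, norm_mul, n1]
      have h3 : ‖(3 : ℂ)‖ = 3 := by simp
      rw [h3]
      refine mul_le_mul_of_nonneg_right ?_ hr0.le
      refine mul_le_mul ?_ (n2.trans hBl) (norm_nonneg _) (by positivity)
      exact mul_le_mul_of_nonneg_left (bg1 x hx') (by norm_num)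
    have t3 : ‖g x * (3 * (φ2 x : ℂ) ^ 2 - (φ3 x : ℂ) * (φ1 x : ℂ))‖ ≤
        G * (3 * (B * r) ^ 2 + (B * r) * r) := by
      rw [norm_mul]
      refine mul_le_mul (bg x hx') ?_ (norm_nonneg _) hG
      refine (norm_sub_le _ _).trans (add_le_add ?_ ?_)
      · rw [norm_mul, norm_pow]
        have h3 : ‖(3 : ℂ)‖ = 3 := by simp
        rw [h3]
        refine mul_le_mul_of_nonneg_left ?_ (by norm_num)
        exact pow_le_pow_left₀ (norm_nonneg _) (n2.trans hBl) 2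
      · rw [norm_mul, n1]
        exact mul_le_mul_of_nonneg_right (n3.trans hBl) hr0.le
    have hnum : ‖g2 x * (φ1 x : ℂ) ^ 2 - 3 * g1 x * (φ2 x : ℂ) * (φ1 x : ℂ) +
        g x * (3 * (φ2 x : ℂ) ^ 2 - (φ3 x : ℂ) * (φ1 x : ℂ))‖ ≤
        G * r ^ 2 * (3 * (1 + B) ^ 2) := by
      refine (norm_add_le _ _).trans ?_
      have h4 := (norm_sub_le (g2 x * (φ1 x : ℂ) ^ 2)
        (3 * g1 x * (φ2 x : ℂ) * (φ1 x : ℂ))).trans (add_le_add t1 t2)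
      refine (add_le_add h4 t3).trans ?_
      have h5 : 0 ≤ G * r ^ 2 * (2 + 2 * B) := by positivity
      nlinarith [h5]
    have hden : ‖(2 * Real.pi * Complex.I : ℂ) ^ 2 * (φ1 x : ℂ) ^ 4‖ = (2 * Real.pi) ^ 2 * r ^ 4 := by
      rw [norm_mul, norm_pow, norm_pow, n1, norm_mul, norm_mul, Complex.norm_I, mul_one,
        Complex.norm_real, Real.norm_eq_abs, abs_of_pos Real.pi_pos]
      simp
    rw [norm_div, hden, div_le_div_iff₀ (by positivity) (by positivity)]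
    have hpi : (3 : ℝ) ≤ (2 * Real.pi) ^ 2 := by nlinarith [Real.pi_gt_three]
    have hr2 : lam ^ 2 ≤ r ^ 2 := pow_le_pow_left₀ hlam.le hrl 2
    calc _ ≤ G * r ^ 2 * (3 * (1 + B) ^ 2) * lam ^ 2 :=
          mul_le_mul_of_nonneg_right hnum (by positivity)
      _ ≤ G * r ^ 2 * ((2 * Real.pi) ^ 2 * (1 + B) ^ 2) * r ^ 2 := by gcongr
      _ = G * (1 + B) ^ 2 * ((2 * Real.pi) ^ 2 * r ^ 4) := by ring
  refine (intervalIntegral.norm_integral_le_of_norm_le_const hb).trans (le_of_eq ?_)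
  rw [abs_of_nonneg (sub_nonneg.2 hab)]
  ring

end Pool.Agent.LibSX15
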