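import Pool.Agent.LibSX15.KNDefs

/-!
Row KN_Q (the function Q), 40 min. Derivatives: quotient rule, `1 - e x² > 0`. `zx_Qf`: with `e = 3 N / u²`, `y = Qf e x` one has `1 + N y/(12 u²) = 1 + e y/36 = 1/(1 - e x²)`, so
`zx = (1/6) √(36 x²/(1-e x²)) √(1 - e x²) = x`. Bounds for `x ∈ [1/400, 1/4]`: `1 - e x² ∈ [99/100, 1]`.
-/

set_option autoImplicit false

namespace Pool.Agent.LibSX15

theorem Qf_deriv {e x : ℝ} (he : e * x ^ 2 < 1) : HasDerivAt (Qf e) (Qf1 e x) x := by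
  have h0 : 1 - e * x ^ 2 ≠ 0 := by linarith
  have h1 : HasDerivAt (fun x : ℝ => 36 * x ^ 2) (36 * (2 * x)) x := by
    have := (hasDerivAt_pow 2 x).const_mul 36
    simpa using this
  have h2 : HasDerivAt (fun x : ℝ => 1 - e * x ^ 2) (-(e * (2 * x))) x := by
    have := ((hasDerivAt_pow 2 x).const_mul e).const_sub 1
    simpa using this
  have h3 := h1.div h2 h0
  refine (h3.congr_deriv ?_)
  rw [Qf1]
  congr 1
  ring

theorem Qf1_deriv {e x : ℝ} (he : e * x ^ 2 < 1) : HasDerivAt (Qf1 e) (Qf2 e x) x := by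
  have h0 : 1 - e * x ^ 2 ≠ 0 := by linarith
  have h1 : HasDerivAt (fun x : ℝ => 72 * x) 72 x := by
    have := (hasDerivAt_id x).const_mul 72
    simpa using this
  have h2 : HasDerivAt (fun x : ℝ => 1 - e * x ^ 2) (-(e * (2 * x))) x := by
    have := ((hasDerivAt_pow 2 x).const_mul e).const_sub 1
    simpa using this
  have h3 := h1.div (h2.pow 2) (pow_ne_zero 2 h0)
  refine (h3.congr_deriv ?_)
  rw [Qf2, div_eq_div_iff (by simp [h0]) (pow_ne_zero 3 h0)]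
  simp only [Pi.pow_apply, Nat.cast_ofNat, Nat.add_one_sub_one, pow_one]
  ring

theorem Qf2_deriv {e x : ℝ} (he : e * x ^ 2 < 1) : HasDerivAt (Qf2 e) (Qf3 e x) x := by
  have h0 : 1 - e * x ^ 2 ≠ 0 := by linarith
  have h1 : HasDerivAt (fun x : ℝ => 72 * (1 + 3 * e * x ^ 2)) (72 * (3 * e * (2 * x))) x := by
    have := ((((hasDerivAt_pow 2 x).const_mul (3 * e)).const_add 1).const_mul 72)
    simpa using this
  have h2 : HasDerivAt (fun x : ℝ => 1 - e * x ^ 2) (-(e * (2 * x))) x := by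
    have := ((hasDerivAt_pow 2 x).const_mul e).const_sub 1
    simpa using this
  have h3 := h1.div (h2.pow 3) (pow_ne_zero 3 h0)
  refine (h3.congr_deriv ?_)
  rw [Qf3, div_eq_div_iff (by simp [h0]) (pow_ne_zero 4 h0)]
  simp only [Pi.pow_apply, Nat.cast_ofNat, Nat.add_one_sub_one]
  ring

theorem zx_Qf {N u e x : ℝ} (hN : 0 < N) (hu : 0 < u) (he : e = 3 * N / u ^ 2) (hx : 0 ≤ x)
    (h : e * x ^ 2 < 1) : zx N u (N * Qf e x) = x := by
  have h0 : 0 < 1 - e * x ^ 2 := by linarith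
  have hu2 : u ^ 2 ≠ 0 := by positivity
  have h1 : N * Qf e x / N = (6 * x) ^ 2 / (1 - e * x ^ 2) := by
    rw [Qf, mul_div_cancel_left₀ _ hN.ne']
    congr 1
    ring
  have h2 : 1 + N * Qf e x / (12 * u ^ 2) = (1 - e * x ^ 2)⁻¹ := by
    have h3 : N = e * u ^ 2 / 3 := by
      rw [he]
      field_simp
    have h4 : N * Qf e x / (12 * u ^ 2) = e * Qf e x / 36 := by
      rw [div_eq_div_iff (by positivity) (by norm_num)]
      rw [h3]
      ring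
    rw [h4, Qf]
    field_simp
    ring
  rw [zx, h1, h2, Real.sqrt_div (by positivity), Real.sqrt_sq (by linarith), Real.sqrt_inv]
  have h5 : Real.sqrt (1 - e * x ^ 2) ≠ 0 := (Real.sqrt_pos.2 h0).ne'
  generalize Real.sqrt (1 - e * x ^ 2) = r at h5
  field_simp

theorem Qf_low {e x : ℝ} (he : 0 ≤ e) (he' : e ≤ 3 / 100) (hx : 0 ≤ x) (hx' : x ≤ 1 / 400) :
    Qf e x < 1 / 4000 := by
  have h1 : x ^ 2 ≤ (1 / 400) ^ 2 := pow_le_pow_left₀ hx hx' 2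
  have h2 : e * x ^ 2 ≤ 3 / 100 * (1 / 400) ^ 2 :=
    mul_le_mul he' h1 (by positivity) (by norm_num)
  rw [Qf, div_lt_iff₀ (by linarith)]
  linarith

theorem Qf_high {e x : ℝ} (he : 0 ≤ e) (hx : 6 / 25 ≤ x) (h : e * x ^ 2 < 1) :
    2 < Qf e x := by
  have h1 : (6 / 25 : ℝ) ^ 2 ≤ x ^ 2 := pow_le_pow_left₀ (by norm_num) hx 2
  have h2 : 0 ≤ e * x ^ 2 := by positivity
  rw [Qf, lt_div_iff₀ (by linarith)]
  linarith

theorem Qf_bounds {e x : ℝ} (he : 0 ≤ e) (he' : e ≤ 3 / 100) (hx : 1 / 400 ≤ x) (hx' : x ≤ 1 / 4) :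
    9 / 50 ≤ Qf1 e x ∧ Qf1 e x ≤ 20 ∧ |Qf2 e x| ≤ 80 ∧ |Qf3 e x| ≤ 80 := by
  have hx0 : 0 < x := by linarith
  have h1 : x ^ 2 ≤ (1 / 4) ^ 2 := pow_le_pow_left₀ hx0.le hx' 2
  have h2 : e * x ^ 2 ≤ 3 / 100 * (1 / 4) ^ 2 :=
    mul_le_mul he' h1 (by positivity) (by norm_num)
  have h3 : 0 ≤ e * x ^ 2 := by positivity
  have h4 : (99 / 100 : ℝ) ≤ 1 - e * x ^ 2 := by linarith
  have h5 : 1 - e * x ^ 2 ≤ 1 := by linarith
  have h0 : 0 < 1 - e * x ^ 2 := by linarith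
  have p2 : (1 - e * x ^ 2) ^ 2 ≤ 1 := pow_le_one₀ h0.le h5
  have l2 : (99 / 100 : ℝ) ^ 2 ≤ (1 - e * x ^ 2) ^ 2 := pow_le_pow_left₀ (by norm_num) h4 2
  have l3 : (99 / 100 : ℝ) ^ 3 ≤ (1 - e * x ^ 2) ^ 3 := pow_le_pow_left₀ (by norm_num) h4 3
  have l4 : (99 / 100 : ℝ) ^ 4 ≤ (1 - e * x ^ 2) ^ 4 := pow_le_pow_left₀ (by norm_num) h4 4
  refine ⟨?_, ?_, ?_, ?_⟩
  · rw [Qf1, le_div_iff₀ (by positivity)]
    linarith
  · rw [Qf1, div_le_iff₀ (by positivity)]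
    linarith
  · rw [Qf2, abs_of_nonneg (by positivity), div_le_iff₀ (by positivity)]
    have : 3 * e * x ^ 2 = 3 * (e * x ^ 2) := by ring
    rw [this]
    linarith
  · have h6 : 864 * e * x * (1 + e * x ^ 2) ≤ 864 * (3 / 100) * (1 / 4) * 2 := by
      have a1 : e * x ≤ 3 / 100 * (1 / 4) := mul_le_mul he' hx' hx0.le (by norm_num)
      have a2 : e * x * (1 + e * x ^ 2) ≤ 3 / 100 * (1 / 4) * 2 :=
        mul_le_mul a1 (by linarith) (by positivity) (by norm_num)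
      have a3 : 864 * e * x * (1 + e * x ^ 2) = 864 * (e * x * (1 + e * x ^ 2)) := by ring
      rw [a3]
      linarith
    rw [Qf3, abs_of_nonneg (by positivity), div_le_iff₀ (by positivity)]
    linarith

/-- the quadratic part and `qf` -/
theorem Qf_eq {e x : ℝ} (he : 0 ≤ e) (he' : e ≤ 3 / 100) (hx : 0 ≤ x) (hx' : x ≤ 1 / 4) :
    Qf e x = 36 * x ^ 2 + e * qf e x := by
  have h1 : x ^ 2 ≤ (1 / 4) ^ 2 := pow_le_pow_left₀ hx hx' 2
  have h2 : e * x ^ 2 ≤ 3 / 100 * (1 / 4) ^ 2 :=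
    mul_le_mul he' h1 (by positivity) (by norm_num)
  have h0 : 1 - e * x ^ 2 ≠ 0 := by linarith
  have h3 : Real.smoothTransition (2 - 4 * x ^ 2) = 1 :=
    Real.smoothTransition.one_of_one_le (by linarith)
  rw [Qf, qf, h3, one_mul, mul_div_assoc', ← sub_eq_iff_eq_add, ← sub_div, div_eq_iff h0]
  ring

end Pool.Agent.LibSX15
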