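import Pool.Agent.LibSX15.KNDefs

/-!
Row KN_gauss (exact Gaussian integral and its limit), 40 min. Only Mathlib.
`exp(-π z²) ee(-A z²) = cexp(-(π (1 + 2 i A)) z²)`, `integral_gaussian_complex` gives `(π/(π (1+2iA)))^(1/2) = (1/(1+2iA))^(1/2)`. With `a = (1/(1+2iA))^(1/2)`,
`b = sp A = (1/(2iA))^(1/2)`: `a² = 1/(1+2iA)`, `b² = 1/(2iA)` (`Complex.cpow_nat_inv_pow` or `cpow_add`), `re a ≥ 0`, `re b > 0` (arguments in `(-π/2, π/2]`, halves in `[-π/4, π/4]`), `|b| = (2|A|)^(-1/2)`,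
`re b = |b|/√2`, so `‖a + b‖ ≥ re b ≥ (2|A|)^(-1/2)/√2` and `‖a - b‖ = ‖a² - b²‖/‖a + b‖ ≤ (1/(4A²)) · 2 √|A| ≤ 1/|A|`.
-/

set_option autoImplicit false

namespace Pool.Agent.LibSX15

private theorem KN_gauss_half : ((1 / 2 : ℝ) : ℂ) = (1 / 2 : ℂ) := by
  push_cast
  rfl

private theorem KN_gauss_sq (w : ℂ) : (w ^ (1 / 2 : ℂ)) ^ 2 = w := by
  have h := Complex.cpow_nat_inv_pow w (two_ne_zero)
  have h2 : (1 / 2 : ℂ) = ((2 : ℕ) : ℂ)⁻¹ := by norm_num
  rw [h2]
  exact h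

private theorem KN_gauss_re (w : ℂ) : 0 ≤ (w ^ (1 / 2 : ℂ)).re := by
  rw [← KN_gauss_half, Complex.cpow_ofReal_re]
  refine mul_nonneg (Real.rpow_nonneg (norm_nonneg _) _) (Real.cos_nonneg_of_mem_Icc ?_)
  have h1 := Complex.neg_pi_lt_arg w
  have h2 := Complex.arg_le_pi w
  constructor <;> linarith

theorem norm_sp (A : ℝ) : ‖sp A‖ = 1 / Real.sqrt (2 * |A|) := by
  unfold sp
  rw [← KN_gauss_half, Complex.norm_cpow_real, norm_div, norm_one, norm_mul, Complex.norm_I,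
    mul_one, Complex.norm_real, Real.norm_eq_abs, abs_mul, abs_two, Real.sqrt_eq_rpow,
    Real.div_rpow zero_le_one (by positivity), Real.one_rpow]

private theorem KN_gauss_arg (A : ℝ) (hA : A ≠ 0) :
    Real.cos ((1 / (((2 * A : ℝ) : ℂ) * Complex.I)).arg * (1 / 2)) = Real.sqrt 2 / 2 := by
  have hI : (Complex.I : ℂ) ≠ 0 := Complex.I_ne_zero
  rcases lt_or_gt_of_ne hA with h | h
  · have e : (1 / (((2 * A : ℝ) : ℂ) * Complex.I)) = (((1 / (2 * (-A)) : ℝ)) : ℂ) * Complex.I := by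
      have h1 : (A : ℂ) ≠ 0 := by exact_mod_cast hA
      push_cast
      field_simp
      rw [Complex.I_sq]
      ring
    rw [e, Complex.arg_real_mul _ (by
      apply div_pos one_pos
      linarith), Complex.arg_I]
    have h2 : Real.pi / 2 * (1 / 2) = Real.pi / 4 := by ring
    rw [h2, Real.cos_pi_div_four]
  · have e : (1 / (((2 * A : ℝ) : ℂ) * Complex.I)) =
        (((1 / (2 * A) : ℝ)) : ℂ) * (-Complex.I) := by
      have h1 : (A : ℂ) ≠ 0 := by exact_mod_cast hA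
      push_cast
      field_simp
      rw [Complex.I_sq]
      ring
    rw [e, Complex.arg_real_mul _ (by positivity), Complex.arg_neg_I]
    have h2 : -(Real.pi / 2) * (1 / 2) = -(Real.pi / 4) := by ring
    rw [h2, Real.cos_neg, Real.cos_pi_div_four]

private theorem KN_gauss_resp (A : ℝ) (hA : A ≠ 0) :
    (sp A).re = 1 / (2 * Real.sqrt |A|) := by
  have h0 : (sp A).re = ‖sp A‖ * (Real.sqrt 2 / 2) := by
    rw [← KN_gauss_arg A hA]
    unfold sp
    rw [← KN_gauss_half, Complex.cpow_ofReal_re, Complex.norm_cpow_real]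
  have hs : 0 < Real.sqrt |A| := Real.sqrt_pos.2 (abs_pos.2 hA)
  have h2 : 0 < Real.sqrt 2 := Real.sqrt_pos.2 two_pos
  rw [h0, norm_sp, Real.sqrt_mul zero_le_two]
  field_simp

private theorem KN_gauss_int (A : ℝ) :
    (∫ z : ℝ, ((Real.exp (-Real.pi * z ^ 2) : ℝ) : ℂ) * ee (-(A * z ^ 2))) =
      (1 / (1 + ((2 * A : ℝ) : ℂ) * Complex.I)) ^ (1 / 2 : ℂ) := by
  have hb : 0 < ((Real.pi : ℂ) * (1 + ((2 * A : ℝ) : ℂ) * Complex.I)).re := by
    have : ((Real.pi : ℂ) * (1 + ((2 * A : ℝ) : ℂ) * Complex.I)).re = Real.pi := by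
      rw [Complex.re_ofReal_mul, Complex.add_re, Complex.one_re, Complex.re_ofReal_mul,
        Complex.I_re]
      ring
    rw [this]
    exact Real.pi_pos
  have h1 := integral_gaussian_complex hb
  have hne : (1 + ((2 * A : ℝ) : ℂ) * Complex.I) ≠ 0 := by
    intro h
    have h2 := congrArg Complex.re h
    rw [Complex.add_re, Complex.one_re, Complex.re_ofReal_mul, Complex.I_re, Complex.zero_re] at h2
    linarith
  have hpi : (Real.pi : ℂ) ≠ 0 := by exact_mod_cast Real.pi_ne_zero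
  have h3 : (Real.pi : ℂ) / ((Real.pi : ℂ) * (1 + ((2 * A : ℝ) : ℂ) * Complex.I)) =
      1 / (1 + ((2 * A : ℝ) : ℂ) * Complex.I) := by
    field_simp
  rw [h3] at h1
  rw [← h1]
  congr 1
  funext z
  unfold ee
  rw [Complex.ofReal_exp, ← Complex.exp_add]
  congr 1
  push_cast
  ring

theorem KN_gauss (A : ℝ) (hA : 1 ≤ |A|) :
    ‖(∫ z : ℝ, ((Real.exp (-Real.pi * z ^ 2) : ℝ) : ℂ) * ee (-(A * z ^ 2))) - sp A‖ ≤ 1 / |A| := by
  have hA0 : A ≠ 0 := by
    rintro rfl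
    rw [abs_zero] at hA
    linarith
  rw [KN_gauss_int]
  set w1 : ℂ := 1 + ((2 * A : ℝ) : ℂ) * Complex.I with hw1
  set w2 : ℂ := ((2 * A : ℝ) : ℂ) * Complex.I with hw2
  set a : ℂ := (1 / w1) ^ (1 / 2 : ℂ) with ha
  have hspw : sp A = (1 / w2) ^ (1 / 2 : ℂ) := rfl
  have ha2 : a ^ 2 = 1 / w1 := KN_gauss_sq _
  have hb2 : (sp A) ^ 2 = 1 / w2 := by
    rw [hspw]
    exact KN_gauss_sq _
  have hn2 : ‖w2‖ = 2 * |A| := by
    rw [hw2, norm_mul, Complex.norm_I, mul_one, Complex.norm_real, Real.norm_eq_abs, abs_mul,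
      abs_two]
  have hn1 : 2 * |A| ≤ ‖w1‖ := by
    have h1 := Complex.abs_im_le_norm w1
    have h2 : w1.im = 2 * A := by
      rw [hw1, Complex.add_im, Complex.one_im, Complex.im_ofReal_mul, Complex.I_im]
      ring
    rw [h2, abs_mul, abs_two] at h1
    exact h1
  have hApos : 0 < |A| := by linarith
  have hw1ne : w1 ≠ 0 := by
    rw [← norm_pos_iff]
    linarith
  have hw2ne : w2 ≠ 0 := by
    rw [← norm_pos_iff, hn2]
    linarith
  have hdiff : a ^ 2 - (sp A) ^ 2 = -(1 / (w1 * w2)) := by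
    rw [ha2, hb2]
    have h1 : w1 = 1 + w2 := rfl
    rw [h1] at hw1ne ⊢
    field_simp
    ring
  have hprod : ‖a - sp A‖ * ‖a + sp A‖ ≤ 1 / (2 * |A| * (2 * |A|)) := by
    rw [← norm_mul]
    have h1 : (a - sp A) * (a + sp A) = a ^ 2 - (sp A) ^ 2 := by ring
    rw [h1, hdiff, norm_neg, norm_div, norm_one, norm_mul, hn2]
    apply one_div_le_one_div_of_le (by positivity)
    exact mul_le_mul_of_nonneg_right hn1 (by positivity)
  have hsum : 1 / (2 * Real.sqrt |A|) ≤ ‖a + sp A‖ := by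
    have h1 : (a + sp A).re ≤ ‖a + sp A‖ := Complex.re_le_norm _
    rw [Complex.add_re, KN_gauss_resp A hA0] at h1
    have h2 : 0 ≤ a.re := KN_gauss_re _
    linarith
  set s := Real.sqrt |A| with hs
  have hss : s * s = |A| := Real.mul_self_sqrt hApos.le
  have hs1 : 1 ≤ s := by
    rw [hs, Real.one_le_sqrt]
    exact hA
  have hs0 : 0 < s := by linarith
  have h5 : ‖a - sp A‖ * (1 / (2 * s)) ≤ 1 / (2 * |A| * (2 * |A|)) :=
    (mul_le_mul_of_nonneg_left hsum (norm_nonneg _)).trans hprod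
  rw [← hss] at h5 ⊢
  have h6 : ‖a - sp A‖ = ‖a - sp A‖ * (1 / (2 * s)) * (2 * s) := by
    field_simp
  rw [h6]
  calc ‖a - sp A‖ * (1 / (2 * s)) * (2 * s) ≤ 1 / (2 * (s * s) * (2 * (s * s))) * (2 * s) :=
        mul_le_mul_of_nonneg_right h5 (by positivity)
    _ = 1 / (2 * (s * s) * s) := by
        field_simp
    _ ≤ 1 / (s * s) := by
        apply one_div_le_one_div_of_le (by positivity)
        nlinarith [mul_pos hs0 hs0]

theorem sp_mul (c A : ℝ) (hc : 0 < c) : sp (c * A) = ((1 / Real.sqrt c : ℝ) : ℂ) * sp A := by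
  by_cases hA : A = 0
  · subst hA
    unfold sp
    rw [mul_zero, mul_zero, Complex.ofReal_zero, zero_mul, div_zero,
      Complex.zero_cpow (by norm_num), mul_zero]
  · have hAc : (A : ℂ) ≠ 0 := by exact_mod_cast hA
    have hcc : (c : ℂ) ≠ 0 := by exact_mod_cast hc.ne'
    have hI := Complex.I_ne_zero
    unfold sp
    have h1 : (1 / (((2 * (c * A) : ℝ) : ℂ) * Complex.I)) =
        ((1 / c : ℝ) : ℂ) * (1 / (((2 * A : ℝ) : ℂ) * Complex.I)) := by
      push_cast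
      field_simp
    set w : ℂ := 1 / (((2 * A : ℝ) : ℂ) * Complex.I) with hw
    have hw0 : w ≠ 0 := by
      rw [hw]
      apply one_div_ne_zero
      apply mul_ne_zero _ hI
      have : (2 * A : ℝ) ≠ 0 := mul_ne_zero two_ne_zero hA
      exact_mod_cast this
    have hr : 0 < 1 / c := by positivity
    have hrw : ((1 / c : ℝ) : ℂ) * w ≠ 0 := by
      apply mul_ne_zero _ hw0
      exact_mod_cast hr.ne'
    rw [h1, Complex.cpow_def_of_ne_zero hrw, Complex.cpow_def_of_ne_zero hw0,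
      Complex.log_ofReal_mul hr hw0, add_mul, Complex.exp_add]
    congr 1
    have h2 : ((Real.log (1 / c) : ℝ) : ℂ) * (1 / 2) = ((Real.log (1 / c) * (1 / 2) : ℝ) : ℂ) := by
      push_cast
      ring
    rw [h2, ← Complex.ofReal_exp]
    congr 1
    rw [← Real.rpow_def_of_pos hr, ← Real.sqrt_eq_rpow, Real.sqrt_div zero_le_one, Real.sqrt_one]

end Pool.Agent.LibSX15
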