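import Pool.Agent.LibSX15.KN_half
import Pool.Agent.LibSX15.KN_gauss

/-!
Row KN_SP0 (stationary phase with an exactly quadratic phase), 50 min; cite KN_half, KN_gauss.
`h z = g z - g 0 exp(-π z²)`, `h 0 = 0`, `h1 = g1 + 2 π z g 0 exp(-π z²)`, `h2 = g2 + g 0 (2 π - 4 π² z²) exp(-π z²)`; `‖h‖, ‖h1‖, ‖h2‖ ≤ 50 G` everywhere and for `z ≥ 1`:
`‖h z‖, ‖h1 z‖ ≤ Bd z := (if z ≤ R then G else 0) + 50 G exp(-z)` (`exp(-π z²) (1 + 2 π z) ≤ 50 exp(-z)`), `∫_1^∞ Bd ≤ G R + 50 G ≤ 51 G R`. `∫ h ee = ∫_{Ioi 0} + ∫_{Iio 0}`; apply KN_half to `h` and to `z ↦ h(-z)`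
(derivatives `-h1(-z)`, `h2(-z)`; `∫ over Iic 0 = ∫ over Ioi 0 of the reflected function`). Then `∫ g ee = g 0 ∫ exp(-π z²) ee + ∫ h ee`, KN_gauss. `C = 300`.
-/

set_option autoImplicit false

namespace Pool.Agent.LibSX15

open MeasureTheory Set

private theorem KN_SP0_dE (z : ℝ) :
    HasDerivAt (fun z : ℝ => Real.exp (-Real.pi * z ^ 2))
      (-(2 * Real.pi * z * Real.exp (-Real.pi * z ^ 2))) z := by
  have h1 : HasDerivAt (fun z : ℝ => -Real.pi * z ^ 2) (-Real.pi * (2 * z)) z := by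
    have := (hasDerivAt_pow 2 z).const_mul (-Real.pi)
    simpa using this
  have h2 := h1.exp
  convert h2 using 1
  ring

private theorem KN_SP0_dE1 (z : ℝ) :
    HasDerivAt (fun z : ℝ => 2 * Real.pi * z * Real.exp (-Real.pi * z ^ 2))
      ((2 * Real.pi - 4 * Real.pi ^ 2 * z ^ 2) * Real.exp (-Real.pi * z ^ 2)) z := by
  have h1 : HasDerivAt (fun z : ℝ => 2 * Real.pi * z) (2 * Real.pi) z := by
    simpa using (hasDerivAt_id z).const_mul (2 * Real.pi)
  refine (h1.fun_mul (KN_SP0_dE z)).congr_deriv ?_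
  ring

private theorem KN_SP0_exp {z : ℝ} (hz : 1 ≤ z) :
    Real.exp (-Real.pi * z ^ 2) ≤ Real.exp (-z) ∧
    2 * Real.pi * z * Real.exp (-Real.pi * z ^ 2) ≤ 50 * Real.exp (-z) := by
  have hpi := Real.pi_gt_three
  have hpi2 := Real.pi_lt_d2
  have h1 : -Real.pi * z ^ 2 ≤ -z + -(2 * z) := by nlinarith
  have h2 : Real.exp (-Real.pi * z ^ 2) ≤ Real.exp (-z) * Real.exp (-(2 * z)) := by
    rw [← Real.exp_add]
    exact Real.exp_le_exp.2 h1
  have h3 : Real.exp (-(2 * z)) ≤ 1 := by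
    rw [Real.exp_le_one_iff]
    linarith
  have h4 : z * Real.exp (-(2 * z)) ≤ 1 := by
    rw [Real.exp_neg]
    have h5 := Real.add_one_le_exp (2 * z)
    have h6 := Real.exp_pos (2 * z)
    rw [← div_eq_mul_inv, div_le_one h6]
    linarith
  have h7 := Real.exp_pos (-z)
  refine ⟨h2.trans (mul_le_of_le_one_right h7.le h3), ?_⟩
  calc 2 * Real.pi * z * Real.exp (-Real.pi * z ^ 2)
      ≤ 2 * Real.pi * z * (Real.exp (-z) * Real.exp (-(2 * z))) :=
        mul_le_mul_of_nonneg_left h2 (by positivity)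
    _ = 2 * Real.pi * Real.exp (-z) * (z * Real.exp (-(2 * z))) := by ring
    _ ≤ 2 * Real.pi * Real.exp (-z) * 1 :=
        mul_le_mul_of_nonneg_left h4 (by positivity)
    _ ≤ 50 * Real.exp (-z) := by nlinarith

private theorem KN_SP0_le_one (z : ℝ) : Real.exp (-Real.pi * z ^ 2) ≤ 1 := by
  rw [Real.exp_le_one_iff]
  have := Real.pi_pos
  nlinarith [sq_nonneg z]

private theorem KN_SP0_Bd (R G : ℝ) (hR : 1 ≤ R) (hG : 0 ≤ G) :
    IntegrableOn (fun x : ℝ => (if x ≤ R then G else 0) + 50 * G * Real.exp (-x)) (Ioi 1) ∧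
    ∫ x in Ioi (1 : ℝ), ((if x ≤ R then G else 0) + 50 * G * Real.exp (-x)) ≤ 51 * G * R := by
  have hind : (fun x : ℝ => if x ≤ R then G else 0) = indicator (Iic R) (fun _ => G) := by
    funext x
    rw [indicator_apply]
    rfl
  have i1 : IntegrableOn (fun x : ℝ => if x ≤ R then G else 0) (Ioi 1) := by
    rw [hind, IntegrableOn, integrable_indicator_iff measurableSet_Iic]
    refine integrableOn_const (hs := ?_) (hC := enorm_ne_top)
    rw [Measure.restrict_apply measurableSet_Iic, inter_comm, Ioi_inter_Iic, Real.volume_Ioc]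
    exact ENNReal.ofReal_ne_top
  have i2 : IntegrableOn (fun x : ℝ => 50 * G * Real.exp (-x)) (Ioi 1) :=
    (integrableOn_exp_neg_Ioi 1).const_mul _
  refine ⟨i1.add i2, ?_⟩
  rw [integral_add i1 i2, integral_const_mul, integral_exp_neg_Ioi, hind,
    setIntegral_indicator measurableSet_Iic, Ioi_inter_Iic, setIntegral_const, smul_eq_mul,
    Measure.real, Real.volume_Ioc, ENNReal.toReal_ofReal (by linarith)]
  have h1 : Real.exp (-1) ≤ 1 := by
    rw [Real.exp_le_one_iff]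
    norm_num
  have h2 : 50 * G * Real.exp (-1) ≤ 50 * G * R :=
    mul_le_mul_of_nonneg_left (h1.trans hR) (by positivity)
  nlinarith

private theorem KN_SP0_one (g g1 g2 : ℝ → ℂ) (R G A : ℝ) (hR : 1 ≤ R) (hA : A ≠ 0)
    (dg : ∀ x, HasDerivAt g (g1 x) x) (dg1 : ∀ x, HasDerivAt g1 (g2 x) x) (hc : Continuous g2)
    (hs : ∀ x, R < |x| → g x = 0)
    (b0 : ∀ x, ‖g x‖ ≤ G) (b1 : ∀ x, ‖g1 x‖ ≤ G) (b2 : ∀ x, ‖g2 x‖ ≤ G) :
    IntegrableOn (fun z : ℝ => g z - g 0 * ((Real.exp (-Real.pi * z ^ 2) : ℝ) : ℂ)) (Ioi 0) ∧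
    ‖∫ z in Ioi (0 : ℝ), (g z - g 0 * ((Real.exp (-Real.pi * z ^ 2) : ℝ) : ℂ)) *
      ee (-(A * z ^ 2))‖ ≤ (50 * G + 51 * G * R) / |A| := by
  have hG : 0 ≤ G := (norm_nonneg _).trans (b0 0)
  have hpi := Real.pi_gt_three
  have hpi2 := Real.pi_lt_d2
  have hg10 : ∀ x, R < x → g1 x = 0 := by
    intro x hx
    have h1 : g =ᶠ[nhds x] fun _ => 0 := by
      filter_upwards [isOpen_Ioi.mem_nhds hx] with y hy
      apply hs
      exact lt_of_lt_of_le hy (le_abs_self y)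
    have h2 : HasDerivAt g 0 x := (hasDerivAt_const x (0 : ℂ)).congr_of_eventuallyEq h1
    exact (dg x).unique h2
  obtain ⟨iB, jB⟩ := KN_SP0_Bd R G hR hG
  refine KN_half (fun z : ℝ => g z - g 0 * ((Real.exp (-Real.pi * z ^ 2) : ℝ) : ℂ))
    (fun z : ℝ => g1 z + g 0 * ((2 * Real.pi * z * Real.exp (-Real.pi * z ^ 2) : ℝ) : ℂ))
    (fun z : ℝ => g2 z + g 0 *
      (((2 * Real.pi - 4 * Real.pi ^ 2 * z ^ 2) * Real.exp (-Real.pi * z ^ 2) : ℝ) : ℂ))
    (fun x : ℝ => (if x ≤ R then G else 0) + 50 * G * Real.exp (-x)) (50 * G) (51 * G * R) A hA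
    ?_ ?_ ?_ ?_ ?_ ?_ ?_ ?_ iB jB
  · simp
  · intro x
    refine ((dg x).fun_sub ((KN_SP0_dE x).ofReal_comp.const_mul (g 0))).congr_deriv ?_
    push_cast
    ring
  · intro x
    exact (dg1 x).add ((KN_SP0_dE1 x).ofReal_comp.const_mul (g 0))
  · fun_prop
  · intro x hx
    refine (norm_add_le _ _).trans ?_
    rw [norm_mul, Complex.norm_real, Real.norm_eq_abs, abs_of_nonneg (by
      have := hx.1
      have := Real.exp_pos (-Real.pi * x ^ 2)
      positivity)]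
    have h1 : 2 * Real.pi * x * Real.exp (-Real.pi * x ^ 2) ≤ 8 := by
      have h2 := KN_SP0_le_one x
      have h3 := Real.exp_pos (-Real.pi * x ^ 2)
      have h4 : 2 * Real.pi * x ≤ 8 := by nlinarith [hx.1, hx.2]
      have h5 : 0 ≤ 2 * Real.pi * x := by
        have := hx.1
        positivity
      nlinarith
    have h6 := mul_le_mul (b0 0) h1 (by
      have := hx.1
      have := Real.exp_pos (-Real.pi * x ^ 2)
      positivity) hG
    have h7 := b1 x
    linarith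
  · intro x hx
    refine (norm_add_le _ _).trans ?_
    rw [norm_mul, Complex.norm_real, Real.norm_eq_abs, abs_mul,
      abs_of_pos (Real.exp_pos (-Real.pi * x ^ 2))]
    have hx2 : x ^ 2 ≤ 1 := by nlinarith [hx.1, hx.2]
    have hx3 : 0 ≤ x ^ 2 := sq_nonneg x
    have hp2 : Real.pi ^ 2 ≤ 10 := by nlinarith
    have hp3 : 9 ≤ Real.pi ^ 2 := by nlinarith
    have h1 : |2 * Real.pi - 4 * Real.pi ^ 2 * x ^ 2| ≤ 40 := by
      rw [abs_le]
      constructor
      · nlinarith [mul_le_mul hp2 hx2 hx3 (by norm_num : (0 : ℝ) ≤ 10)]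
      · nlinarith [mul_nonneg (sq_nonneg Real.pi) hx3]
    have h2 := KN_SP0_le_one x
    have h3 := Real.exp_pos (-Real.pi * x ^ 2)
    have h4 : |2 * Real.pi - 4 * Real.pi ^ 2 * x ^ 2| * Real.exp (-Real.pi * x ^ 2) ≤ 40 * 1 :=
      mul_le_mul h1 h2 h3.le (by norm_num)
    have h6 := mul_le_mul (b0 0) h4 (by positivity) hG
    have h7 := b2 x
    linarith
  · intro x hx
    refine (norm_sub_le _ _).trans ?_
    rw [norm_mul, Complex.norm_real, Real.norm_eq_abs, abs_of_pos (Real.exp_pos _)]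
    have h1 := (KN_SP0_exp hx).1
    have h2 : ‖g 0‖ * Real.exp (-Real.pi * x ^ 2) ≤ G * Real.exp (-x) :=
      mul_le_mul (b0 0) h1 (Real.exp_pos _).le hG
    have h3 : ‖g x‖ ≤ if x ≤ R then G else 0 := by
      split_ifs with h
      · exact b0 x
      · rw [hs x (lt_of_lt_of_le (not_le.1 h) (le_abs_self x)), norm_zero]
    have h4 := Real.exp_pos (-x)
    have h5 : 0 ≤ G * Real.exp (-x) := by positivity
    linarith
  · intro x hx
    refine (norm_add_le _ _).trans ?_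
    have hx0 : 0 ≤ x := by linarith
    have h0 : 0 ≤ 2 * Real.pi * x * Real.exp (-Real.pi * x ^ 2) := by positivity
    rw [norm_mul, Complex.norm_real, Real.norm_eq_abs, abs_of_nonneg h0]
    have h1 := (KN_SP0_exp hx).2
    have h2 : ‖g 0‖ * (2 * Real.pi * x * Real.exp (-Real.pi * x ^ 2)) ≤
        G * (50 * Real.exp (-x)) := mul_le_mul (b0 0) h1 h0 hG
    have h3 : ‖g1 x‖ ≤ if x ≤ R then G else 0 := by
      split_ifs with h
      · exact b1 x
      · rw [hg10 x (not_le.1 h), norm_zero]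
    linarith

theorem KN_SP0 (g g1 g2 : ℝ → ℂ) (R G A : ℝ) (hR : 1 ≤ R) (hA : 1 ≤ |A|)
    (dg : ∀ x, HasDerivAt g (g1 x) x) (dg1 : ∀ x, HasDerivAt g1 (g2 x) x) (hc : Continuous g2)
    (hs : ∀ x, R < |x| → g x = 0)
    (b0 : ∀ x, ‖g x‖ ≤ G) (b1 : ∀ x, ‖g1 x‖ ≤ G) (b2 : ∀ x, ‖g2 x‖ ≤ G) :
    ‖(∫ x : ℝ, g x * ee (-(A * x ^ 2))) - sp A * g 0‖ ≤ 300 * R * G / |A| := by
  have hG : 0 ≤ G := (norm_nonneg _).trans (b0 0)
  have hAp : 0 < |A| := by linarith
  have hA0 : A ≠ 0 := abs_pos.1 hAp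
  obtain ⟨i1, j1⟩ := KN_SP0_one g g1 g2 R G A hR hA0 dg dg1 hc hs b0 b1 b2
  have hd : ∀ (f f' : ℝ → ℂ), (∀ x, HasDerivAt f (f' x) x) →
      ∀ x, HasDerivAt (fun x => f (-x)) (-f' (-x)) x := by
    intro f f' hf x
    have h1 : HasDerivAt (fun x : ℝ => -x) (-1) x := (hasDerivAt_id x).neg
    exact ((hf (-x)).scomp x h1).congr_deriv (neg_one_smul ℝ _)
  obtain ⟨i2, j2⟩ := KN_SP0_one (fun x => g (-x)) (fun x => -g1 (-x)) (fun x => g2 (-x)) R G A hR
    hA0 (hd g g1 dg) (fun x => by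
      have h1 := (hd g1 g2 dg1 x).neg
      rw [neg_neg] at h1
      exact h1) (hc.comp continuous_neg)
    (fun x hx => hs (-x) (by rwa [abs_neg])) (fun x => b0 (-x))
    (fun x => by rw [norm_neg]; exact b1 (-x)) (fun x => b2 (-x))
  set h : ℝ → ℂ := fun z => g z - g 0 * ((Real.exp (-Real.pi * z ^ 2) : ℝ) : ℂ) with hh
  have e2 : (fun z : ℝ => (fun x => g (-x)) z - (fun x => g (-x)) 0 *
      ((Real.exp (-Real.pi * z ^ 2) : ℝ) : ℂ)) = fun z => h (-z) := by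
    funext z
    simp only [hh, neg_zero, neg_sq]
  simp only [neg_zero] at i2 j2
  have e3 : ∀ z : ℝ, g (-z) - g 0 * ((Real.exp (-Real.pi * z ^ 2) : ℝ) : ℂ) = h (-z) := by
    intro z
    simp only [hh, neg_sq]
  simp only [e3] at i2 j2
  -- integrability on the whole line
  have i3 : IntegrableOn h (Iic 0) := by
    have h0 : IntegrableOn (fun z => h (-z)) (Ioi (-0)) := by
      rw [neg_zero]
      exact i2
    have h1 := h0.comp_neg_Iio
    simp only [neg_neg] at h1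
    exact (integrableOn_Iic_iff_integrableOn_Iio enorm_ne_top).2 h1
  have ih : Integrable h := by
    rw [← integrableOn_univ, ← Iic_union_Ioi (a := (0 : ℝ))]
    exact i3.union i1
  have hee : Continuous fun x : ℝ => ee (-(A * x ^ 2)) := by
    unfold ee
    fun_prop
  have hen : ∀ x : ℝ, ‖ee (-(A * x ^ 2))‖ = 1 := by
    intro x
    unfold ee
    exact Complex.norm_exp_ofReal_mul_I _
  have hmulI : ∀ f : ℝ → ℂ, Integrable f → Integrable fun x => f x * ee (-(A * x ^ 2)) := by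
    intro f hf
    refine hf.mono (hf.aestronglyMeasurable.mul hee.aestronglyMeasurable) ?_
    filter_upwards with x
    rw [norm_mul, hen, mul_one]
  have iE : Integrable fun x : ℝ => ((Real.exp (-Real.pi * x ^ 2) : ℝ) : ℂ) :=
    (integrable_exp_neg_mul_sq Real.pi_pos).ofReal
  have iH := hmulI h ih
  have iEE := hmulI _ iE
  have hsplit : (∫ x : ℝ, g x * ee (-(A * x ^ 2))) = (∫ x : ℝ, h x * ee (-(A * x ^ 2))) +
      g 0 * ∫ x : ℝ, ((Real.exp (-Real.pi * x ^ 2) : ℝ) : ℂ) * ee (-(A * x ^ 2)) := by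
    rw [← integral_const_mul, ← integral_add iH (iEE.const_mul _)]
    congr 1
    funext x
    simp only [hh]
    ring
  have hI : (∫ x : ℝ, h x * ee (-(A * x ^ 2))) =
      (∫ x in Iic (0 : ℝ), h x * ee (-(A * x ^ 2))) + ∫ x in Ioi (0 : ℝ), h x * ee (-(A * x ^ 2)) :=
    (intervalIntegral.integral_Iic_add_Ioi iH.integrableOn iH.integrableOn).symm
  have hneg : (∫ x in Iic (0 : ℝ), h x * ee (-(A * x ^ 2))) =
      ∫ x in Ioi (0 : ℝ), h (-x) * ee (-(A * x ^ 2)) := by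
    have h1 := integral_comp_neg_Ioi (0 : ℝ) fun x => h x * ee (-(A * x ^ 2))
    rw [neg_zero] at h1
    rw [← h1]
    simp only [neg_sq]
  have hgauss := KN_gauss A hA
  rw [hsplit, hI, hneg]
  set I1 := ∫ x in Ioi (0 : ℝ), h (-x) * ee (-(A * x ^ 2)) with hI1
  set I2 := ∫ x in Ioi (0 : ℝ), h x * ee (-(A * x ^ 2)) with hI2
  set I3 := ∫ x : ℝ, ((Real.exp (-Real.pi * x ^ 2) : ℝ) : ℂ) * ee (-(A * x ^ 2)) with hI3
  have e4 : I1 + I2 + g 0 * I3 - sp A * g 0 = I1 + I2 + g 0 * (I3 - sp A) := by ring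
  rw [e4]
  have h5 : ‖g 0 * (I3 - sp A)‖ ≤ G * (1 / |A|) := by
    rw [norm_mul]
    exact mul_le_mul (b0 0) hgauss (norm_nonneg _) hG
  have h6 : ‖I1 + I2 + g 0 * (I3 - sp A)‖ ≤
      (50 * G + 51 * G * R) / |A| + (50 * G + 51 * G * R) / |A| + G * (1 / |A|) :=
    (norm_add_le _ _).trans (add_le_add ((norm_add_le _ _).trans (add_le_add j2 j1)) h5)
  refine h6.trans ?_
  have h7 : (50 * G + 51 * G * R) / |A| + (50 * G + 51 * G * R) / |A| + G * (1 / |A|) =
      (101 * G + 102 * G * R) / |A| := by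
    field_simp
    ring
  rw [h7]
  apply div_le_div_of_nonneg_right _ hAp.le
  nlinarith [mul_le_mul_of_nonneg_left hR hG]

end Pool.Agent.LibSX15
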