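import Pool.Agent.LibSX15.Defs

/-!
Row KN_poi (Poisson summation for `C²` functions of compact support), 40 min. Only Mathlib:
`Real.tsum_eq_tsum_fourier_of_rpow_decay` (`Mathlib/Analysis/Fourier/PoissonSummation.lean`) with `b = 2`. `f = O(|x|^(-2))` trivially (compact support). `𝓕 f (m) = ∫ e(-m x) f(x) dx`
(`Real.fourier_eq'` or `Real.fourierIntegral_real_eq`) ; decay `O(|ξ|^(-2))`: `𝓕 (f'') (ξ) = (2 π i ξ)² 𝓕 f (ξ)` (`Real.fourierIntegral_deriv`/`Real.fourier_deriv`, twice; `f`, `f'`, `f''` continuous with compact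
support, so integrable) and `‖𝓕 (f'')‖ ≤ ∫ ‖f''‖`.
-/

set_option autoImplicit false

namespace Pool.Agent.LibSX15

open scoped FourierTransform

private lemma KN_poi_fourier (f : ℝ → ℂ) (ξ : ℝ) :
    𝓕 f ξ = ∫ x : ℝ, f x * ee (-(ξ * x)) := by
  rw [Real.fourier_real_eq_integral_exp_smul]
  congr 1 with x : 1
  rw [smul_eq_mul, mul_comm, ee]
  congr 2
  push_cast
  ring

private lemma KN_poi_decay (f : ℝ → ℂ) (hf : ContDiff ℝ 2 f) (hs : HasCompactSupport f) (ξ : ℝ)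
    (hξ : ξ ≠ 0) : ‖𝓕 f ξ‖ ≤ (∫ x, ‖deriv (deriv f) x‖) * (ξ ^ 2)⁻¹ := by
  have hf1 : ContDiff ℝ 1 (deriv f) := by
    have : ContDiff ℝ (1 + 1) f := by simpa [one_add_one_eq_two] using hf
    exact (contDiff_succ_iff_deriv.1 this).2.2
  have hf2 : Continuous (deriv (deriv f)) := hf1.continuous_deriv le_rfl
  have hs1 : HasCompactSupport (deriv f) := hs.deriv
  have hs2 : HasCompactSupport (deriv (deriv f)) := hs1.deriv
  have i0 : MeasureTheory.Integrable f := hf.continuous.integrable_of_hasCompactSupport hs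
  have i1 : MeasureTheory.Integrable (deriv f) :=
    hf1.continuous.integrable_of_hasCompactSupport hs1
  have i2 : MeasureTheory.Integrable (deriv (deriv f)) :=
    hf2.integrable_of_hasCompactSupport hs2
  have e1 := Real.fourier_deriv i0 (hf.differentiable (by norm_num)) i1
  have e2 := Real.fourier_deriv i1 (hf1.differentiable (by norm_num)) i2
  have e3 : 𝓕 (deriv (deriv f)) ξ = (2 * Real.pi * Complex.I * ξ) ^ 2 * 𝓕 f ξ := by
    rw [e2, e1]
    simp only [smul_eq_mul]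
    ring
  have e4 : ‖𝓕 (deriv (deriv f)) ξ‖ ≤ ∫ x, ‖deriv (deriv f) x‖ :=
    VectorFourier.norm_fourierIntegral_le_integral_norm _ _ _ _ _
  rw [e3, norm_mul, norm_pow] at e4
  have e5 : ‖(2 * Real.pi * Complex.I * ξ : ℂ)‖ ^ 2 = (2 * Real.pi) ^ 2 * ξ ^ 2 := by
    rw [norm_mul, norm_mul, norm_mul, Complex.norm_I, Complex.norm_real, Complex.norm_real]
    simp only [Complex.norm_ofNat, Real.norm_eq_abs, mul_one]
    rw [mul_pow, mul_pow, sq_abs, sq_abs, mul_pow]
  rw [e5] at e4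
  have h0 : 0 < ξ ^ 2 := by positivity
  have h1 : 1 ≤ (2 * Real.pi) ^ 2 := by nlinarith [Real.pi_gt_three]
  rw [← div_eq_mul_inv, le_div_iff₀ h0]
  calc ‖𝓕 f ξ‖ * ξ ^ 2 = 1 * (ξ ^ 2 * ‖𝓕 f ξ‖) := by ring
    _ ≤ (2 * Real.pi) ^ 2 * (ξ ^ 2 * ‖𝓕 f ξ‖) :=
        mul_le_mul_of_nonneg_right h1 (by positivity)
    _ = (2 * Real.pi) ^ 2 * ξ ^ 2 * ‖𝓕 f ξ‖ := by ring
    _ ≤ _ := e4

theorem KN_poi (f : ℝ → ℂ) (hf : ContDiff ℝ 2 f) (hs : HasCompactSupport f) :
    Summable (fun m : ℤ => ∫ x : ℝ, f x * ee (-(m * x))) ∧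
    ∑' n : ℤ, f n = ∑' m : ℤ, ∫ x : ℝ, f x * ee (-(m * x)) := by
  have hsum : Summable (fun m : ℤ => 𝓕 f (m : ℝ)) := by
    have hz : Summable (fun m : ℤ => (∫ x, ‖deriv (deriv f) x‖) * (((m : ℝ)) ^ 2)⁻¹) := by
      apply Summable.mul_left
      have := Real.summable_one_div_int_pow (p := 2)
      simpa [one_div] using this.2 (by norm_num)
    refine Summable.of_norm_bounded_eventually hz ?_
    have h1 : ∀ᶠ m : ℤ in Filter.cofinite, m ≠ 0 := by
      rw [Filter.eventually_cofinite]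
      simp
    filter_upwards [h1] with m hm
    exact KN_poi_decay f hf hs _ (by exact_mod_cast hm)
  have hO : f =O[Filter.cocompact ℝ] fun x : ℝ => |x| ^ (-(2 : ℝ)) := by
    have h1 : f =ᶠ[Filter.cocompact ℝ] 0 := by
      rw [← Filter.coclosedCompact_eq_cocompact]
      exact hasCompactSupport_iff_eventuallyEq.1 hs
    exact (Asymptotics.isBigO_zero _ _).congr' h1.symm Filter.EventuallyEq.rfl
  have hP := Real.tsum_eq_tsum_fourier_of_rpow_decay_of_summable hf.continuous one_lt_two hO hsum 0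
  refine ⟨?_, ?_⟩
  · exact hsum.congr fun m => (KN_poi_fourier f m)
  · simp only [zero_add] at hP
    rw [hP]
    refine tsum_congr fun m => ?_
    rw [KN_poi_fourier f m]
    simp

end Pool.Agent.LibSX15
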