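import Pool.Agent.LibSX15.KN_w
import Pool.Agent.LibSX15.KN_poi

/-!
Row KN_four (Poisson for the kernel), 60 min; cite KN_poi, KN_om, KN_Q, KN_w. `f x = om (x/N) * ee (zx N u x * τ)`: `C²` on `ℝ` (on `x > 0` composition of smooth functions: `x/N > 0`,
`1 + x/(12u²) > 0`, square roots smooth; near any `x < N/4000` it is `0`), compact support. `∫_ℝ f x ee(-m x) dx = ∫_{N Q(1/400)}^{N Q(1/4)}` (`om_zero` outside: `Q(1/400) < 1/4000`,
`Q(1/4) > 2`) and substitution `x = N Qf e ξ` (`intervalIntegral.integral_comp_mul_deriv'''` or `integral_comp_mul_deriv`): `f(N Q ξ) = om(Q ξ) ee(ξ τ)` by `zx_Qf`, `dx = N Qf1 dξ`, `wf = om(Q) Qf1` for `ξ > 0`.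
-/

set_option autoImplicit false

namespace Pool.Agent.LibSX15

private theorem KN_four_ee (x y : ℝ) : ee x * ee y = ee (x + y) := by
  unfold ee
  rw [← Complex.exp_add]
  congr 1
  push_cast
  ring

private theorem KN_four_eeC : ContDiff ℝ 2 ee := by
  have h1 : ContDiff ℝ 2 (fun x : ℝ => (((2 * Real.pi * x : ℝ) : ℂ) * Complex.I)) :=
    (Complex.ofRealCLM.contDiff.comp (contDiff_const.mul contDiff_id)).mul contDiff_const
  exact h1.cexp

/-- the function to which Poisson summation is applied -/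
private noncomputable def KN_four_f (N u τ x : ℝ) : ℂ := (om (x / N) : ℂ) * ee (zx N u x * τ)

private theorem KN_four_zero {N u τ x : ℝ} (hN : 0 < N) (hx : x ≤ N / 4000 ∨ 2 * N ≤ x) :
    KN_four_f N u τ x = 0 := by
  have h : om (x / N) = 0 := by
    refine om_zero ?_
    rcases hx with h1 | h1
    · left
      rw [div_le_iff₀ hN]
      linarith
    · right
      rw [le_div_iff₀ hN]
      exact h1
  rw [KN_four_f, h, Complex.ofReal_zero, zero_mul]

private theorem KN_four_C2 {N u τ : ℝ} (hN : 0 < N) (hu : 0 < u) : ContDiff ℝ 2 (KN_four_f N u τ) := by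
  rw [contDiff_iff_contDiffAt]
  intro x
  rcases lt_or_ge x (N / 4000) with hx | hx
  · have h1 : KN_four_f N u τ =ᶠ[nhds x] fun _ => 0 := by
      filter_upwards [gt_mem_nhds hx] with y hy
      exact KN_four_zero hN (Or.inl hy.le)
    exact contDiffAt_const.congr_of_eventuallyEq h1
  · have hx0 : 0 < x := lt_of_lt_of_le (by positivity) hx
    have h1 : ContDiffAt ℝ 2 (fun y : ℝ => ((om (y / N) : ℝ) : ℂ)) x := by
      have h2 : ContDiff ℝ 2 (fun y : ℝ => om (y / N)) :=
        (om_contDiff 2).comp (contDiff_id.div_const N)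
      exact (Complex.ofRealCLM.contDiff.comp h2).contDiffAt
    have h3 : ContDiffAt ℝ 2 (fun y : ℝ => zx N u y) x := by
      unfold zx
      have h4 : x / N ≠ 0 := (div_pos hx0 hN).ne'
      have h5 : 0 < 1 + x / (12 * u ^ 2) := by positivity
      refine (contDiffAt_const.mul ((contDiffAt_id.div_const N).sqrt h4)).div
        ((contDiffAt_const.add (contDiffAt_id.div_const _)).sqrt h5.ne') ?_
      exact (Real.sqrt_pos.2 h5).ne'
    have h6 : ContDiffAt ℝ 2 (fun y : ℝ => ee (zx N u y * τ)) x :=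
      KN_four_eeC.contDiffAt.comp x (h3.mul contDiffAt_const)
    exact h1.mul h6

private theorem KN_four_supp {N u τ : ℝ} (hN : 0 < N) : HasCompactSupport (KN_four_f N u τ) := by
  refine HasCompactSupport.intro (isCompact_Icc (a := N / 4000) (b := 2 * N)) fun x hx => ?_
  rw [Set.mem_Icc, not_and_or, not_le, not_le] at hx
  rcases hx with h | h
  · exact KN_four_zero hN (Or.inl h.le)
  · exact KN_four_zero hN (Or.inr h.le)

private theorem KN_four_int (N u e : ℝ) (hN : 0 < N) (hu : 0 < u) (he : e = 3 * N / u ^ 2)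
    (he' : e ≤ 3 / 100) (τ : ℝ) (m : ℤ) :
    ∫ x : ℝ, KN_four_f N u τ x * ee (-(m * x)) = (N : ℂ) * KI e N m τ := by
  have he0 : 0 ≤ e := by
    rw [he]
    positivity
  have hex : ∀ x : ℝ, x ∈ Set.uIcc (1 / 400 : ℝ) (1 / 4) → 0 < x ∧ e * x ^ 2 < 1 := by
    intro x hx
    rw [Set.uIcc_of_le (by norm_num), Set.mem_Icc] at hx
    obtain ⟨h1, h2⟩ := hx
    refine ⟨by linarith, ?_⟩
    have h3 : x ^ 2 ≤ 1 := by nlinarith
    nlinarith [sq_nonneg x]
  set g : ℝ → ℂ := fun x => KN_four_f N u τ x * ee (-(m * x)) with hg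
  have hgc : Continuous g := by
    refine (KN_four_C2 hN hu).continuous.mul (KN_four_eeC.continuous.comp ?_)
    fun_prop
  have hsup : Function.support g ⊆ Set.Ioc (N * Qf e (1 / 400)) (N * Qf e (1 / 4)) := by
    intro x hx
    rw [Function.mem_support] at hx
    by_contra hcon
    apply hx
    have h1 : KN_four_f N u τ x = 0 := by
      refine KN_four_zero hN ?_
      rw [Set.mem_Ioc, not_and_or, not_lt, not_le] at hcon
      rcases hcon with h2 | h2
      · left
        have h3 := Qf_low he0 he' (by norm_num : (0 : ℝ) ≤ 1 / 400) le_rfl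
        nlinarith
      · right
        have h3 := Qf_high he0 (by norm_num : (6 / 25 : ℝ) ≤ 1 / 4) (by nlinarith)
        nlinarith
    change KN_four_f N u τ x * ee (-(m * x)) = 0
    rw [h1, zero_mul]
  rw [← intervalIntegral.integral_eq_integral_of_support_subset hsup]
  have hsub := intervalIntegral.integral_deriv_smul_comp (a := (1 / 400 : ℝ)) (b := 1 / 4)
    (f := fun x => N * Qf e x) (f' := fun x => N * Qf1 e x) (g := g)
    (fun x hx => (Qf_deriv (hex x hx).2).const_mul N)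
    (fun x hx => (((Qf1_deriv (hex x hx).2).const_mul N).continuousAt).continuousWithinAt) hgc
  rw [← hsub, KI, ← intervalIntegral.integral_const_mul]
  refine intervalIntegral.integral_congr fun x hx => ?_
  obtain ⟨hx0, hx1⟩ := hex x hx
  have h1 : zx N u (N * Qf e x) = x := zx_Qf hN hu he hx0.le hx1
  have h2 : N * Qf e x / N = Qf e x := by field_simp
  have h3 : wf e x = om (Qf e x) * Qf1 e x := by
    rw [wf, if_pos hx0]
  change (N * Qf1 e x) • (KN_four_f N u τ (N * Qf e x) * ee (-(m * (N * Qf e x)))) = _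
  rw [KN_four_f, h1, h2, h3, mul_assoc, KN_four_ee, Complex.real_smul]
  have h4 : x * τ + -(m * (N * Qf e x)) = x * τ - m * N * Qf e x := by ring
  rw [h4]
  push_cast
  ring

theorem KN_four (N u e : ℝ) (hN : 0 < N) (hu : 0 < u) (he : e = 3 * N / u ^ 2) (he' : e ≤ 3 / 100)
    (τ : ℝ) :
    Summable (fun m : ℤ => (N : ℂ) * KI e N m τ) ∧
    ∑' n : ℤ, (om (n / N) : ℂ) * ee (zx N u n * τ) = ∑' m : ℤ, (N : ℂ) * KI e N m τ := by
  obtain ⟨h1, h2⟩ := KN_poi (KN_four_f N u τ) (KN_four_C2 hN hu) (KN_four_supp hN)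
  have h3 : (fun m : ℤ => ∫ x : ℝ, KN_four_f N u τ x * ee (-(m * x))) =
      fun m : ℤ => (N : ℂ) * KI e N m τ :=
    funext fun m => KN_four_int N u e hN hu he he' τ m
  rw [h3] at h1
  refine ⟨h1, ?_⟩
  calc ∑' n : ℤ, (om (n / N) : ℂ) * ee (zx N u n * τ) = ∑' n : ℤ, KN_four_f N u τ n := rfl
    _ = ∑' m : ℤ, ∫ x : ℝ, KN_four_f N u τ x * ee (-(m * x)) := h2
    _ = ∑' m : ℤ, (N : ℂ) * KI e N m τ := by rw [h3]

end Pool.Agent.LibSX15
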