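import Pool.Agent.LibSX15.Defs

/-!
Row KN_half (half line by parts), 50 min. Only Mathlib. `h 0 = 0`. `p z = h z / z` for `z > 0`; on `(0, 1]`:
`p' z = (z h1 z - h z)/z²` and `z h1 z - h z = ∫_0^z s h2(s) ds` (derivative of `z h1 - h` is `z h2`, value `0` at `0`), so `‖p' z‖ ≤ H/2`; for `z ≥ 1`: `‖p' z‖ ≤ ‖h1 z‖ + ‖h z‖ ≤ 2 B(z)`. `ee(-A z²)` has the
derivative `-4 π i A z ee(-A z²)`, so on `[δ, L]`: `∫ h ee(-A z²) = -(1/(4 π i A)) ([p ee]_δ^L - ∫ p' ee)`, `p(δ) → h1 0` as `δ → 0` (or use `‖p‖ ≤ H` on `(0,1]`, from `‖h z‖ ≤ H z`), `p(L) → 0`.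
Take `δ → 0`, `L → ∞` (integral over `Ioi 0` as a limit of interval integrals, or bound `∫_0^δ` by `H δ` and the tail by `∫_L^∞ B`).
Total `≤ (1/(4 π |A|)) (H + 0 + H/2 + 2 J) ≤ (H + J)/|A|`.
-/

set_option autoImplicit false

namespace Pool.Agent.LibSX15

open MeasureTheory Set

private theorem KN_half_norm (t : ℝ) : ‖ee t‖ = 1 := by
  unfold ee
  rw [Complex.norm_exp]
  simp

private theorem KN_half_E (A z : ℝ) :
    HasDerivAt (fun z : ℝ => ee (-(A * z ^ 2)))
      ((-(4 * Real.pi * A) * Complex.I * z) * ee (-(A * z ^ 2))) z := by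
  have h1 : HasDerivAt (fun z : ℝ => -(A * z ^ 2)) (-(A * (2 * z))) z := by
    have a := (((hasDerivAt_id z).pow 2).const_mul A).neg
    refine HasDerivAt.congr_deriv (f := fun z : ℝ => -(A * z ^ 2)) a ?_
    simp
  have h2 : HasDerivAt (fun z : ℝ => ((-(A * z ^ 2) : ℝ) : ℂ)) ((-(A * (2 * z)) : ℝ) : ℂ) z :=
    h1.ofReal_comp
  have h3 := (h2.const_mul (2 * Real.pi * Complex.I)).cexp
  have hval : ∀ x : ℝ, ee (-(A * x ^ 2)) =
      Complex.exp (2 * Real.pi * Complex.I * ((-(A * x ^ 2) : ℝ) : ℂ)) := by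
    intro x
    unfold ee
    congr 1
    push_cast
    ring
  have hfun : (fun z : ℝ => ee (-(A * z ^ 2))) =
      fun x : ℝ => Complex.exp (2 * Real.pi * Complex.I * ((-(A * x ^ 2) : ℝ) : ℂ)) := funext hval
  rw [hfun, hval z]
  refine HasDerivAt.congr_deriv h3 ?_
  push_cast
  ring

/-- the primitive of `z ee(-A z²)` -/
private noncomputable def KN_half_V (A z : ℝ) : ℂ :=
  (Complex.I / (4 * Real.pi * A)) * ee (-(A * z ^ 2))

private theorem KN_half_V_deriv {A : ℝ} (hA : A ≠ 0) (z : ℝ) :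
    HasDerivAt (KN_half_V A) (z * ee (-(A * z ^ 2))) z := by
  have h := (KN_half_E A z).const_mul (Complex.I / (4 * Real.pi * A))
  have hA' : (A : ℂ) ≠ 0 := by exact_mod_cast hA
  have hpi : (Real.pi : ℂ) ≠ 0 := by exact_mod_cast Real.pi_ne_zero
  refine HasDerivAt.congr_deriv (f := KN_half_V A) h ?_
  have e1 : Complex.I / (4 * Real.pi * A) * (-(4 * Real.pi * A) * Complex.I * z) =
      -(Complex.I * Complex.I) * z := by
    field_simp
  rw [← mul_assoc, e1, Complex.I_mul_I, neg_neg, one_mul]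

private theorem KN_half_V_norm (A z : ℝ) : ‖KN_half_V A z‖ = 1 / (4 * Real.pi * |A|) := by
  unfold KN_half_V
  rw [norm_mul, KN_half_norm, mul_one, norm_div, Complex.norm_I, norm_mul, norm_mul,
    Complex.norm_real, Complex.norm_real, Real.norm_eq_abs, Real.norm_eq_abs,
    abs_of_pos Real.pi_pos]
  simp

private theorem KN_half_E_cont (A : ℝ) : Continuous fun z : ℝ => ee (-(A * z ^ 2)) :=
  continuous_iff_continuousAt.2 fun z => (KN_half_E A z).continuousAt

theorem KN_half (h h1 h2 : ℝ → ℂ) (Bd : ℝ → ℝ) (H J A : ℝ) (hA : A ≠ 0)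
    (h0 : h 0 = 0)
    (dh : ∀ x, HasDerivAt h (h1 x) x) (dh1 : ∀ x, HasDerivAt h1 (h2 x) x) (hc : Continuous h2)
    (b1 : ∀ x ∈ Set.Icc (0:ℝ) 1, ‖h1 x‖ ≤ H) (b2 : ∀ x ∈ Set.Icc (0:ℝ) 1, ‖h2 x‖ ≤ H)
    (b3 : ∀ x : ℝ, 1 ≤ x → ‖h x‖ ≤ Bd x) (b4 : ∀ x : ℝ, 1 ≤ x → ‖h1 x‖ ≤ Bd x)
    (iB : MeasureTheory.IntegrableOn Bd (Set.Ioi 1)) (jB : ∫ x in Set.Ioi (1:ℝ), Bd x ≤ J) :
    MeasureTheory.IntegrableOn h (Set.Ioi 0) ∧
    ‖∫ z in Set.Ioi (0:ℝ), h z * ee (-(A * z ^ 2))‖ ≤ (H + J) / |A| := by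
  have ch : Continuous h := continuous_iff_continuousAt.2 fun x => (dh x).continuousAt
  have ch1 : Continuous h1 := continuous_iff_continuousAt.2 fun x => (dh1 x).continuousAt
  have hH : 0 ≤ H := (norm_nonneg _).trans (b1 0 ⟨le_rfl, zero_le_one⟩)
  have hAp : 0 < |A| := abs_pos.2 hA
  have hBd0 : ∀ x : ℝ, 1 ≤ x → 0 ≤ Bd x := fun x hx => (norm_nonneg _).trans (b3 x hx)
  have hJ : 0 ≤ J := by
    refine le_trans ?_ jB
    exact setIntegral_nonneg measurableSet_Ioi fun x hx => hBd0 x (le_of_lt hx)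
  have cE := KN_half_E_cont A
  -- integrability
  have i1 : IntegrableOn h (Ioi 1) := by
    refine Integrable.mono' iB ch.aestronglyMeasurable.restrict ?_
    filter_upwards [ae_restrict_mem measurableSet_Ioi] with x hx
    exact b3 x (le_of_lt hx)
  have i2 : IntegrableOn h (Ioi 0) := by
    have h3 : Ioi (0 : ℝ) = Ioc 0 1 ∪ Ioi 1 := (Ioc_union_Ioi_eq_Ioi zero_le_one).symm
    rw [h3]
    exact (ch.integrableOn_Ioc).union i1
  refine ⟨i2, ?_⟩
  have i3 : IntegrableOn (fun z => h z * ee (-(A * z ^ 2))) (Ioi 0) := by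
    refine Integrable.mono' i2.norm ((ch.mul cE).aestronglyMeasurable.restrict) ?_
    refine Filter.Eventually.of_forall fun z => ?_
    rw [norm_mul, KN_half_norm, mul_one]
  -- bounds near zero
  have hz : ∀ z : ℝ, 0 ≤ z → z ≤ 1 → ‖h z‖ ≤ H * z := by
    intro z hz0 hz1
    have e1 : ∫ s in (0:ℝ)..z, h1 s = h z - h 0 :=
      intervalIntegral.integral_eq_sub_of_hasDerivAt (fun x _ => dh x) (ch1.intervalIntegrable _ _)
    rw [h0, sub_zero] at e1
    rw [← e1]
    have e2 := intervalIntegral.norm_integral_le_of_norm_le_const (a := 0) (b := z) (f := h1)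
      (C := H) (by
        intro x hx
        rw [uIoc_of_le hz0] at hx
        exact b1 x ⟨hx.1.le, hx.2.trans hz1⟩)
    rwa [sub_zero, abs_of_nonneg hz0] at e2
  have hg : ∀ z : ℝ, 0 ≤ z → z ≤ 1 → ‖(z : ℂ) * h1 z - h z‖ ≤ H * z ^ 2 / 2 := by
    intro z hz0 hz1
    have d : ∀ x : ℝ, HasDerivAt (fun y : ℝ => (y : ℂ) * h1 y - h y) ((x : ℂ) * h2 x) x := by
      intro x
      have a1 : HasDerivAt (fun y : ℝ => (y : ℂ)) 1 x := by
        simpa using (hasDerivAt_id x).ofReal_comp
      have a2 := (a1.mul (dh1 x)).sub (dh x)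
      refine HasDerivAt.congr_deriv (f := fun y : ℝ => (y : ℂ) * h1 y - h y) a2 ?_
      ring
    have e1 : ∫ s in (0:ℝ)..z, (s : ℂ) * h2 s = ((z : ℂ) * h1 z - h z) -
        (((0 : ℝ) : ℂ) * h1 0 - h 0) :=
      intervalIntegral.integral_eq_sub_of_hasDerivAt (fun x _ => d x)
        ((Complex.continuous_ofReal.mul hc).intervalIntegrable _ _)
    rw [h0, Complex.ofReal_zero, zero_mul, sub_zero, sub_zero] at e1
    rw [← e1]
    have e2 : ‖∫ s in (0:ℝ)..z, (s : ℂ) * h2 s‖ ≤ ∫ s in (0:ℝ)..z, H * s := by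
      refine intervalIntegral.norm_integral_le_of_norm_le hz0 ?_
        ((continuous_const.mul continuous_id).intervalIntegrable _ _)
      refine Filter.Eventually.of_forall fun x hx => ?_
      rw [norm_mul, Complex.norm_real, Real.norm_eq_abs, abs_of_pos hx.1, mul_comm]
      exact mul_le_mul_of_nonneg_right (b2 x ⟨hx.1.le, hx.2.trans hz1⟩) hx.1.le
    refine e2.trans (le_of_eq ?_)
    rw [intervalIntegral.integral_const_mul, integral_id]
    ring
  -- the function `p = h / z`
  have dp : ∀ z : ℝ, 0 < z → HasDerivAt (fun y : ℝ => h y / (y : ℂ))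
      (((z : ℂ) * h1 z - h z) / (z : ℂ) ^ 2) z := by
    intro z hz0
    have a1 : HasDerivAt (fun y : ℝ => (y : ℂ)) 1 z := by
      simpa using (hasDerivAt_id z).ofReal_comp
    have hz' : (z : ℂ) ≠ 0 := by exact_mod_cast hz0.ne'
    have a2 := (dh z).div a1 hz'
    refine HasDerivAt.congr_deriv (f := fun y : ℝ => h y / (y : ℂ)) a2 ?_
    ring
  have hLb : ∀ L : ℝ, 1 ≤ L → ‖h L‖ ≤ H + J := by
    intro L hL
    have e1 : ∫ s in (1:ℝ)..L, h1 s = h L - h 1 :=
      intervalIntegral.integral_eq_sub_of_hasDerivAt (fun x _ => dh x) (ch1.intervalIntegrable _ _)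
    have e2 : ‖∫ s in (1:ℝ)..L, h1 s‖ ≤ ∫ s in (1:ℝ)..L, Bd s := by
      refine intervalIntegral.norm_integral_le_of_norm_le hL ?_ ?_
      · exact Filter.Eventually.of_forall fun x hx => b4 x hx.1.le
      · rw [intervalIntegrable_iff_integrableOn_Ioc_of_le hL]
        exact iB.mono_set Ioc_subset_Ioi_self
    have e3 : ∫ s in (1:ℝ)..L, Bd s ≤ J := by
      rw [intervalIntegral.integral_of_le hL]
      refine le_trans (setIntegral_mono_set iB ?_ Ioc_subset_Ioi_self.eventuallyLE) jB
      filter_upwards [ae_restrict_mem measurableSet_Ioi] with x hx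
      exact hBd0 x (le_of_lt hx)
    have e4 : h L = (∫ s in (1:ℝ)..L, h1 s) + h 1 := by rw [e1]; ring
    have e5 : ‖h 1‖ ≤ H := by
      have := hz 1 zero_le_one le_rfl
      linarith
    rw [e4]
    refine (norm_add_le _ _).trans ?_
    linarith
  set K := 1 / (4 * Real.pi * |A|) with hK
  have hK0 : 0 < K := by
    rw [hK]
    have := Real.pi_pos
    positivity
  -- the main estimate on `[δ, L]`
  have main : ∀ δ L : ℝ, 0 < δ → δ ≤ 1 → 1 ≤ L →
      ‖∫ z in δ..L, h z * ee (-(A * z ^ 2))‖ ≤ K * (3 * H + 3 * J) := by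
    intro δ L hδ hδ1 hL
    have hδL : δ ≤ L := hδ1.trans hL
    set p : ℝ → ℂ := fun y => h y / (y : ℂ) with hp
    set q : ℝ → ℂ := fun z => ((z : ℂ) * h1 z - h z) / (z : ℂ) ^ 2 with hq
    have cq : ∀ a b : ℝ, 0 < a → 0 < b → ContinuousOn q (uIcc a b) := by
      intro a b ha hb
      refine ContinuousOn.div ?_ ?_ ?_
      · exact ((Complex.continuous_ofReal.mul ch1).sub ch).continuousOn
      · exact (Complex.continuous_ofReal.pow 2).continuousOn
      · intro x hx
        have : 0 < x := (lt_min ha hb).trans_le hx.1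
        have : (x : ℂ) ≠ 0 := by exact_mod_cast this.ne'
        exact pow_ne_zero 2 this
    have cV : Continuous (KN_half_V A) := by
      unfold KN_half_V
      exact continuous_const.mul cE
    have parts : ∫ z in δ..L, p z * ((z : ℂ) * ee (-(A * z ^ 2))) =
        p L * KN_half_V A L - p δ * KN_half_V A δ - ∫ z in δ..L, q z * KN_half_V A z := by
      refine intervalIntegral.integral_mul_deriv_eq_deriv_mul ?_ ?_ ?_ ?_
      · intro x hx
        rw [uIcc_of_le hδL] at hx
        exact dp x (hδ.trans_le hx.1)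
      · intro x _
        exact KN_half_V_deriv hA x
      · exact (cq δ L hδ (by linarith)).intervalIntegrable
      · exact ((Complex.continuous_ofReal.mul cE)).intervalIntegrable _ _
    have e1 : ∫ z in δ..L, h z * ee (-(A * z ^ 2)) =
        ∫ z in δ..L, p z * ((z : ℂ) * ee (-(A * z ^ 2))) := by
      refine intervalIntegral.integral_congr fun z hz' => ?_
      rw [uIcc_of_le hδL] at hz'
      have hz0 : 0 < z := hδ.trans_le hz'.1
      have : (z : ℂ) ≠ 0 := by exact_mod_cast hz0.ne'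
      simp only [hp]
      field_simp
    have n1 : ‖p L * KN_half_V A L‖ ≤ K * (H + J) := by
      rw [norm_mul, KN_half_V_norm, ← hK, mul_comm]
      refine mul_le_mul_of_nonneg_left ?_ hK0.le
      rw [hp]
      simp only
      rw [norm_div, Complex.norm_real, Real.norm_eq_abs, abs_of_pos (by linarith : 0 < L)]
      refine (div_le_self (norm_nonneg _) hL).trans (hLb L hL)
    have n2 : ‖p δ * KN_half_V A δ‖ ≤ K * H := by
      rw [norm_mul, KN_half_V_norm, ← hK, mul_comm]
      refine mul_le_mul_of_nonneg_left ?_ hK0.le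
      rw [hp]
      simp only
      rw [norm_div, Complex.norm_real, Real.norm_eq_abs, abs_of_pos hδ, div_le_iff₀ hδ]
      exact hz δ hδ.le hδ1
    have iq : ∀ a b : ℝ, 0 < a → 0 < b →
        IntervalIntegrable (fun z => q z * KN_half_V A z) volume a b := fun a b ha hb =>
      ((cq a b ha hb).mul cV.continuousOn).intervalIntegrable
    have n3 : ‖∫ z in δ..1, q z * KN_half_V A z‖ ≤ K * H := by
      have := intervalIntegral.norm_integral_le_of_norm_le_const (a := δ) (b := 1)
        (f := fun z => q z * KN_half_V A z) (C := K * H) (by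
          intro x hx
          rw [uIoc_of_le hδ1] at hx
          have hx0 : 0 < x := hδ.trans hx.1
          rw [norm_mul, KN_half_V_norm, ← hK, mul_comm]
          refine mul_le_mul_of_nonneg_left ?_ hK0.le
          rw [hq]
          simp only
          rw [norm_div, norm_pow, Complex.norm_real, Real.norm_eq_abs, abs_of_pos hx0,
            div_le_iff₀ (by positivity)]
          have := hg x hx0.le hx.2
          have : 0 ≤ H * x ^ 2 := by positivity
          linarith)
      refine this.trans ?_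
      rw [abs_of_nonneg (by linarith)]
      have : 0 ≤ K * H := by positivity
      nlinarith
    have n4 : ‖∫ z in (1:ℝ)..L, q z * KN_half_V A z‖ ≤ K * (2 * J) := by
      have e2 : ‖∫ z in (1:ℝ)..L, q z * KN_half_V A z‖ ≤ ∫ z in (1:ℝ)..L, K * (2 * Bd z) := by
        refine intervalIntegral.norm_integral_le_of_norm_le hL ?_ ?_
        · refine Filter.Eventually.of_forall fun x hx => ?_
          have hx1 : 1 ≤ x := hx.1.le
          have hx0 : 0 < x := by linarith
          rw [norm_mul, KN_half_V_norm, ← hK, mul_comm]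
          refine mul_le_mul_of_nonneg_left ?_ hK0.le
          rw [hq]
          simp only
          rw [norm_div, norm_pow, Complex.norm_real, Real.norm_eq_abs, abs_of_pos hx0,
            div_le_iff₀ (by positivity)]
          refine (norm_sub_le _ _).trans ?_
          rw [norm_mul, Complex.norm_real, Real.norm_eq_abs, abs_of_pos hx0]
          have c1 := b3 x hx1
          have c2 := b4 x hx1
          have c3 := hBd0 x hx1
          nlinarith [mul_nonneg c3 (by linarith : (0:ℝ) ≤ x - 1), mul_le_mul_of_nonneg_left c2 hx0.le,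
            mul_nonneg (mul_nonneg c3 (by linarith : (0:ℝ) ≤ x - 1)) hx0.le]
        · rw [intervalIntegrable_iff_integrableOn_Ioc_of_le hL]
          exact ((iB.mono_set Ioc_subset_Ioi_self).const_mul 2).const_mul K
      refine e2.trans ?_
      rw [intervalIntegral.integral_const_mul, intervalIntegral.integral_const_mul]
      refine mul_le_mul_of_nonneg_left ?_ hK0.le
      refine mul_le_mul_of_nonneg_left ?_ (by norm_num)
      rw [intervalIntegral.integral_of_le hL]
      refine le_trans (setIntegral_mono_set iB ?_ Ioc_subset_Ioi_self.eventuallyLE) jB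
      filter_upwards [ae_restrict_mem measurableSet_Ioi] with x hx
      exact hBd0 x (le_of_lt hx)
    rw [e1, parts, ← intervalIntegral.integral_add_adjacent_intervals (iq δ 1 hδ one_pos)
      (iq 1 L one_pos (by linarith))]
    refine (norm_sub_le _ _).trans ?_
    have n5 := norm_sub_le (p L * KN_half_V A L) (p δ * KN_half_V A δ)
    have n6 := norm_add_le (∫ z in δ..1, q z * KN_half_V A z) (∫ z in (1:ℝ)..L, q z * KN_half_V A z)
    nlinarith
  -- `δ → 0`
  have main0 : ∀ L : ℝ, 1 ≤ L →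
      ‖∫ z in (0:ℝ)..L, h z * ee (-(A * z ^ 2))‖ ≤ K * (3 * H + 3 * J) := by
    intro L hL
    refine le_of_forall_pos_le_add fun ε hε => ?_
    set δ := min 1 (ε / (H + 1)) with hδ
    have hδ0 : 0 < δ := lt_min one_pos (div_pos hε (by linarith))
    have hδ1 : δ ≤ 1 := min_le_left _ _
    have hδε : H * δ ≤ ε := by
      have h3 : δ ≤ ε / (H + 1) := min_le_right _ _
      rw [le_div_iff₀ (by linarith)] at h3
      nlinarith
    have cc : Continuous fun z : ℝ => h z * ee (-(A * z ^ 2)) := ch.mul cE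
    have e1 := intervalIntegral.integral_add_adjacent_intervals
      (cc.intervalIntegrable (μ := volume) 0 δ) (cc.intervalIntegrable δ L)
    rw [← e1]
    refine (norm_add_le _ _).trans ?_
    have e2 : ‖∫ z in (0:ℝ)..δ, h z * ee (-(A * z ^ 2))‖ ≤ H * δ := by
      have := intervalIntegral.norm_integral_le_of_norm_le_const (a := 0) (b := δ)
        (f := fun z => h z * ee (-(A * z ^ 2))) (C := H) (by
          intro x hx
          rw [uIoc_of_le hδ0.le] at hx
          rw [norm_mul, KN_half_norm, mul_one]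
          have h4 := hz x hx.1.le (hx.2.trans hδ1)
          have h5 : x ≤ 1 := hx.2.trans hδ1
          nlinarith [hx.1])
      rwa [sub_zero, abs_of_pos hδ0] at this
    have e3 := main δ L hδ0 hδ1 hL
    linarith
  -- `L → ∞`
  have t := intervalIntegral_tendsto_integral_Ioi (0 : ℝ) i3 Filter.tendsto_id
  have t' := t.norm
  have hfin : K * (3 * H + 3 * J) ≤ (H + J) / |A| := by
    rw [hK, div_mul_eq_mul_div, one_mul, div_le_div_iff₀ (by have := Real.pi_pos; positivity) hAp]
    have h3 : 3 < Real.pi := Real.pi_gt_three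
    have h4 : 0 ≤ (H + J) * |A| := by positivity
    nlinarith
  refine le_trans (le_of_tendsto t' ?_) hfin
  filter_upwards [Filter.eventually_ge_atTop 1] with L hL
  exact main0 L hL

end Pool.Agent.LibSX15
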