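import Pool.Agent.LibSX15.KNDefs

/-!
Row KN_q (the function q), 60 min. `ch x = smoothTransition (2 - 4 x²)` is `1` for `|x| ≤ 1/2` and `0` for `x² ≥ 1/2`, `C^∞`. `qf e x = ch x * r(e, x)`, `r = 36 x⁴/(1 - e x²)`; for `x² < 1`: `1 - e x² ≥ 97/100` and
`r` is smooth; for `x² > 1/2` `qf e = 0`; two open sets cover `ℝ`. Bounds uniform in `e`: `r, r', r''` are bounded on `|x| ≤ 1` (explicit formulas), `ch, ch', ch''` are bounded (compact support).
-/

set_option autoImplicit false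

namespace Pool.Agent.LibSX15

/-- the cutoff in `qf` -/
noncomputable def KN_q_ch (x : ℝ) : ℝ := Real.smoothTransition (2 - 4 * x ^ 2)

theorem KN_q_ch_cd : ContDiff ℝ 2 KN_q_ch :=
  Real.smoothTransition.contDiff.comp
    (contDiff_const.sub (contDiff_const.mul (contDiff_id.pow 2)))

theorem KN_q_ch_zero {x : ℝ} (hx : 1 / 2 ≤ x ^ 2) : KN_q_ch x = 0 :=
  Real.smoothTransition.zero_of_nonpos (by linarith)

theorem KN_q_ch_supp : HasCompactSupport KN_q_ch := by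
  refine HasCompactSupport.intro (isCompact_Icc (a := (-1 : ℝ)) (b := 1)) fun x hx => ?_
  apply KN_q_ch_zero
  rw [Set.mem_Icc, not_and_or, not_le, not_le] at hx
  rcases hx with h | h <;> nlinarith

theorem KN_q_ch1_cd : ContDiff ℝ 1 (deriv KN_q_ch) := by
  have h := ContDiff.iterate_deriv' 1 1 (f := KN_q_ch) (by exact_mod_cast KN_q_ch_cd)
  exact_mod_cast h

theorem KN_q_ch_bound : ∃ B : ℝ, 0 ≤ B ∧ ∀ x, |KN_q_ch x| ≤ B ∧ |deriv KN_q_ch x| ≤ B ∧
    |deriv (deriv KN_q_ch) x| ≤ B := by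
  obtain ⟨B0, h0⟩ := KN_q_ch_cd.continuous.bounded_above_of_compact_support KN_q_ch_supp
  obtain ⟨B1, h1⟩ := KN_q_ch1_cd.continuous.bounded_above_of_compact_support KN_q_ch_supp.deriv
  obtain ⟨B2, h2⟩ := (KN_q_ch1_cd.continuous_deriv le_rfl).bounded_above_of_compact_support
    KN_q_ch_supp.deriv.deriv
  have e0 := (norm_nonneg _).trans (h0 0)
  have e1 := (norm_nonneg _).trans (h1 0)
  have e2 := (norm_nonneg _).trans (h2 0)
  refine ⟨B0 + B1 + B2, by linarith, fun x => ⟨?_, ?_, ?_⟩⟩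
  · have := h0 x
    rw [Real.norm_eq_abs] at this
    linarith
  · have := h1 x
    rw [Real.norm_eq_abs] at this
    linarith
  · have := h2 x
    rw [Real.norm_eq_abs] at this
    linarith

theorem KN_q_r {e x : ℝ} (h : 1 - e * x ^ 2 ≠ 0) :
    HasDerivAt (fun x => 36 * x ^ 4 / (1 - e * x ^ 2))
      ((144 * x ^ 3 - 72 * e * x ^ 5) / (1 - e * x ^ 2) ^ 2) x := by
  have h1 : HasDerivAt (fun x : ℝ => 36 * x ^ 4) (36 * (4 * x ^ 3)) x := by
    simpa using (hasDerivAt_pow 4 x).const_mul 36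
  have h2 : HasDerivAt (fun x : ℝ => 1 - e * x ^ 2) (-(e * (2 * x))) x := by
    simpa using ((hasDerivAt_pow 2 x).const_mul e).const_sub 1
  refine (h1.div h2 h).congr_deriv ?_
  field_simp
  ring

theorem KN_q_r1 {e x : ℝ} (h : 1 - e * x ^ 2 ≠ 0) :
    HasDerivAt (fun x => (144 * x ^ 3 - 72 * e * x ^ 5) / (1 - e * x ^ 2) ^ 2)
      (((432 * x ^ 2 - 360 * e * x ^ 4) * (1 - e * x ^ 2) +
        4 * e * x * (144 * x ^ 3 - 72 * e * x ^ 5)) / (1 - e * x ^ 2) ^ 3) x := by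
  have h1 : HasDerivAt (fun x : ℝ => 144 * x ^ 3 - 72 * e * x ^ 5)
      (144 * (3 * x ^ 2) - 72 * e * (5 * x ^ 4)) x := by
    simpa using ((hasDerivAt_pow 3 x).const_mul 144).fun_sub
      ((hasDerivAt_pow 5 x).const_mul (72 * e))
  have h2 : HasDerivAt (fun x : ℝ => 1 - e * x ^ 2) (-(e * (2 * x))) x := by
    simpa using ((hasDerivAt_pow 2 x).const_mul e).const_sub 1
  have h3 : HasDerivAt (fun x : ℝ => (1 - e * x ^ 2) ^ 2)
      (2 * (1 - e * x ^ 2) * (-(e * (2 * x)))) x := by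
    simpa using h2.fun_pow 2
  refine (h1.div h3 (pow_ne_zero 2 h)).congr_deriv ?_
  field_simp
  ring

theorem KN_q_den {e x : ℝ} (he : 0 ≤ e) (he' : e ≤ 3 / 100) (hx : x ^ 2 ≤ 1) :
    97 / 100 ≤ 1 - e * x ^ 2 := by
  nlinarith [sq_nonneg x]

/-- first derivative of `qf e` for `x² < 1` -/
theorem KN_q_d1 {e x : ℝ} (he : 0 ≤ e) (he' : e ≤ 3 / 100) (hx : x ^ 2 < 1) :
    HasDerivAt (qf e) (deriv KN_q_ch x * (36 * x ^ 4 / (1 - e * x ^ 2)) +
      KN_q_ch x * ((144 * x ^ 3 - 72 * e * x ^ 5) / (1 - e * x ^ 2) ^ 2)) x := by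
  have h1 : 1 - e * x ^ 2 ≠ 0 := by
    have := KN_q_den he he' hx.le
    intro h
    linarith
  have h2 : HasDerivAt KN_q_ch (deriv KN_q_ch x) x :=
    (KN_q_ch_cd.differentiable (by norm_num) x).hasDerivAt
  exact h2.mul (KN_q_r h1)

/-- second derivative of `qf e` for `x² < 1` -/
theorem KN_q_d2 {e x : ℝ} (he : 0 ≤ e) (he' : e ≤ 3 / 100) (hx : x ^ 2 < 1) :
    HasDerivAt (deriv (qf e)) ((deriv (deriv KN_q_ch) x * (36 * x ^ 4 / (1 - e * x ^ 2)) +
      deriv KN_q_ch x * ((144 * x ^ 3 - 72 * e * x ^ 5) / (1 - e * x ^ 2) ^ 2)) +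
      (deriv KN_q_ch x * ((144 * x ^ 3 - 72 * e * x ^ 5) / (1 - e * x ^ 2) ^ 2) +
      KN_q_ch x * (((432 * x ^ 2 - 360 * e * x ^ 4) * (1 - e * x ^ 2) +
        4 * e * x * (144 * x ^ 3 - 72 * e * x ^ 5)) / (1 - e * x ^ 2) ^ 3))) x := by
  have h1 : 1 - e * x ^ 2 ≠ 0 := by
    have := KN_q_den he he' hx.le
    intro h
    linarith
  have h2 : HasDerivAt KN_q_ch (deriv KN_q_ch x) x :=
    (KN_q_ch_cd.differentiable (by norm_num) x).hasDerivAt
  have h3 : HasDerivAt (deriv KN_q_ch) (deriv (deriv KN_q_ch) x) x :=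
    (KN_q_ch1_cd.differentiable (by norm_num) x).hasDerivAt
  have h4 : deriv (qf e) =ᶠ[nhds x] fun x => deriv KN_q_ch x * (36 * x ^ 4 / (1 - e * x ^ 2)) +
      KN_q_ch x * ((144 * x ^ 3 - 72 * e * x ^ 5) / (1 - e * x ^ 2) ^ 2) := by
    have hopen : IsOpen {y : ℝ | y ^ 2 < 1} := isOpen_lt (by fun_prop) continuous_const
    filter_upwards [hopen.mem_nhds hx] with y hy
    exact (KN_q_d1 he he' hy).deriv
  refine HasDerivAt.congr_of_eventuallyEq ?_ h4
  exact (h3.mul (KN_q_r h1)).add (h2.mul (KN_q_r1 h1))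

/-- `qf e` vanishes near `x` for `x² > 1/2` -/
theorem KN_q_ev {e x : ℝ} (hx : 1 / 2 < x ^ 2) : qf e =ᶠ[nhds x] fun _ => 0 := by
  have hopen : IsOpen {y : ℝ | 1 / 2 < y ^ 2} := isOpen_lt continuous_const (by fun_prop)
  filter_upwards [hopen.mem_nhds hx] with y hy
  have h1 : KN_q_ch y = 0 := KN_q_ch_zero (le_of_lt hy)
  show KN_q_ch y * _ = 0
  rw [h1, zero_mul]

theorem qf_contDiff {e : ℝ} (he : 0 ≤ e) (he' : e ≤ 3 / 100) : ContDiff ℝ 2 (qf e) := by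
  rw [contDiff_iff_contDiffAt]
  intro x
  rcases lt_or_ge (x ^ 2) 1 with hx | hx
  · have h1 : 1 - e * x ^ 2 ≠ 0 := by
      have := KN_q_den he he' hx.le
      intro h
      linarith
    refine (KN_q_ch_cd.contDiffAt).mul (ContDiffAt.div ?_ ?_ h1)
    · fun_prop
    · fun_prop
  · exact contDiffAt_const.congr_of_eventuallyEq (KN_q_ev (by linarith))

theorem KN_q_quot {D K n : ℝ} (hD : 97 / 100 ≤ D) (hD1 : D ≤ 1) (hn : |n| ≤ K) :
    |n / D| ≤ 2 * K ∧ |n / D ^ 2| ≤ 2 * K ∧ |n / D ^ 3| ≤ 2 * K := by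
  have hK : 0 ≤ K := (abs_nonneg _).trans hn
  have h2 : 1 / 2 ≤ D ^ 2 := by nlinarith
  have h3 : 1 / 2 ≤ D ^ 3 := by nlinarith [mul_le_mul h2 hD (by norm_num) (by positivity)]
  refine ⟨?_, ?_, ?_⟩
  · rw [abs_div, abs_of_pos (by linarith : 0 < D), div_le_iff₀ (by linarith)]
    nlinarith
  · rw [abs_div, abs_of_pos (by linarith : 0 < D ^ 2), div_le_iff₀ (by linarith)]
    nlinarith
  · rw [abs_div, abs_of_pos (by linarith : 0 < D ^ 3), div_le_iff₀ (by linarith)]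
    nlinarith

theorem qf_bound : ∃ C : ℝ, 1 ≤ C ∧ ∀ e : ℝ, 0 ≤ e → e ≤ 3 / 100 → ∀ x,
    |qf e x| ≤ C ∧ |deriv (qf e) x| ≤ C ∧ |deriv (deriv (qf e)) x| ≤ C := by
  obtain ⟨B, hB, hb⟩ := KN_q_ch_bound
  refine ⟨10000 * B + 1, by linarith, fun e he he' x => ?_⟩
  rcases lt_or_ge (x ^ 2) 1 with hx | hx
  · obtain ⟨b0, b1, b2⟩ := hb x
    have hD := KN_q_den he he' hx.le
    have hD1 : 1 - e * x ^ 2 ≤ 1 := by
      have : 0 ≤ e * x ^ 2 := by positivity
      linarith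
    have hxa : |x| ≤ 1 := by
      rw [abs_le]
      constructor <;> nlinarith
    have hp : ∀ n : ℕ, |x| ^ n ≤ 1 := fun n => pow_le_one₀ (abs_nonneg _) hxa
    have hp0 : ∀ n : ℕ, 0 ≤ |x| ^ n := fun n => pow_nonneg (abs_nonneg _) _
    have n0 : |36 * x ^ 4| ≤ 36 := by
      rw [abs_mul, abs_pow, abs_of_pos (by norm_num : (0 : ℝ) < 36)]
      linarith [hp 4]
    have n1 : |144 * x ^ 3 - 72 * e * x ^ 5| ≤ 150 := by
      refine (abs_sub _ _).trans ?_
      rw [abs_mul, abs_mul (72 * e), abs_pow, abs_pow, abs_of_pos (by norm_num : (0 : ℝ) < 144),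
        abs_of_nonneg (by positivity : 0 ≤ 72 * e)]
      nlinarith [hp 3, hp 5, hp0 5, mul_nonneg he (hp0 5)]
    have n2 : |(432 * x ^ 2 - 360 * e * x ^ 4) * (1 - e * x ^ 2) +
        4 * e * x * (144 * x ^ 3 - 72 * e * x ^ 5)| ≤ 1000 := by
      have m1 : |432 * x ^ 2 - 360 * e * x ^ 4| ≤ 450 := by
        refine (abs_sub _ _).trans ?_
        rw [abs_mul, abs_mul (360 * e), abs_pow, abs_pow,
          abs_of_pos (by norm_num : (0 : ℝ) < 432), abs_of_nonneg (by positivity : 0 ≤ 360 * e)]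
        nlinarith [hp 2, hp 4, hp0 4, mul_nonneg he (hp0 4)]
      have m2 : |4 * e * x| ≤ 1 := by
        rw [abs_mul, abs_of_nonneg (by positivity : 0 ≤ 4 * e)]
        nlinarith [abs_nonneg x]
      refine (abs_add_le _ _).trans ?_
      rw [abs_mul, abs_mul (4 * e * x), abs_of_pos (by linarith : 0 < 1 - e * x ^ 2)]
      have q1 : |432 * x ^ 2 - 360 * e * x ^ 4| * (1 - e * x ^ 2) ≤ 450 * 1 :=
        mul_le_mul m1 hD1 (by linarith) (by norm_num)
      have q2 : |4 * e * x| * |144 * x ^ 3 - 72 * e * x ^ 5| ≤ 1 * 150 :=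
        mul_le_mul m2 n1 (abs_nonneg _) (by norm_num)
      linarith
    have r0 := (KN_q_quot hD hD1 n0).1
    have r1 := (KN_q_quot hD hD1 n1).2.1
    have r2 := (KN_q_quot hD hD1 n2).2.2
    have P : ∀ u v K : ℝ, |u| ≤ B → |v| ≤ 2 * K → |u * v| ≤ B * (2 * K) := by
      intro u v K hu hv
      rw [abs_mul]
      exact mul_le_mul hu hv (abs_nonneg _) hB
    refine ⟨?_, ?_, ?_⟩
    · have := P _ _ _ b0 r0
      show |KN_q_ch x * (36 * x ^ 4 / (1 - e * x ^ 2))| ≤ _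
      nlinarith
    · rw [(KN_q_d1 he he' hx).deriv]
      have p1 := P _ _ _ b1 r0
      have p2 := P _ _ _ b0 r1
      refine (abs_add_le _ _).trans ?_
      nlinarith
    · rw [(KN_q_d2 he he' hx).deriv]
      have p1 := P _ _ _ b2 r0
      have p2 := P _ _ _ b1 r1
      have p3 := P _ _ _ b0 r2
      refine (abs_add_le _ _).trans ?_
      refine (add_le_add (abs_add_le _ _) (abs_add_le _ _)).trans ?_
      nlinarith
  · have h1 : qf e =ᶠ[nhds x] fun _ => 0 := KN_q_ev (by linarith)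
    have h2 : deriv (qf e) =ᶠ[nhds x] fun _ => 0 := by
      have := h1.deriv
      simpa using this
    have h3 : deriv (deriv (qf e)) x = 0 := by
      have := h2.deriv_eq
      simpa using this
    rw [h1.eq_of_nhds, h2.eq_of_nhds, h3, abs_zero]
    refine ⟨?_, ?_, ?_⟩ <;> linarith [hB]

end Pool.Agent.LibSX15
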