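import Pool.Agent.LibSX15.KN_w
import Pool.Agent.LibSX15.KN_q

/-!
Row KN_wm (the twisted weight), 40 min; cite KN_w, KN_q. `wm e s x = wf e x * ee(-(s * qf e x))`, derivatives by the product and chain rule (`ee' = 2 π i ee`, `‖ee‖ = 1`):
`wm' = (w' - 2 π i s q' w) ee`, `wm'' = (w'' - 4 π i s q' w' - 2 π i s q'' w - 4 π² s² q'² w) ee`; all `≤ C (1 + |s|)²`.
-/

set_option autoImplicit false

namespace Pool.Agent.LibSX15

private theorem KN_wm_c2 {f : ℝ → ℝ} (h : ContDiff ℝ 2 f) :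
    (∀ x, HasDerivAt f (deriv f x) x) ∧ (∀ x, HasDerivAt (deriv f) (deriv (deriv f) x) x) ∧
      Continuous (deriv (deriv f)) := by
  have h1 : ContDiff ℝ (1 + 1) f := by
    rw [one_add_one_eq_two]
    exact h
  have h2 := contDiff_succ_iff_deriv.1 h1
  exact ⟨fun x => h2.1.differentiableAt.hasDerivAt,
    fun x => (h2.2.2.differentiable (by norm_num)).differentiableAt.hasDerivAt,
    h2.2.2.continuous_deriv le_rfl⟩

private theorem KN_wm_ee {g : ℝ → ℝ} {g' x : ℝ} (h : HasDerivAt g g' x) :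
    HasDerivAt (fun y => ee (g y)) (ee (g x) * (((2 * Real.pi * g' : ℝ) : ℂ) * Complex.I)) x := by
  unfold ee
  have h1 : HasDerivAt (fun y => 2 * Real.pi * g y) (2 * Real.pi * g') x := h.const_mul _
  have h2 : HasDerivAt (fun y => ((2 * Real.pi * g y : ℝ) : ℂ)) ((2 * Real.pi * g' : ℝ) : ℂ) x :=
    h1.ofReal_comp
  exact (h2.mul_const Complex.I).cexp

private theorem KN_wm_norm (x : ℝ) : ‖ee x‖ = 1 := by
  unfold ee
  exact Complex.norm_exp_ofReal_mul_I _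

theorem KN_wm : ∃ C : ℝ, 1 ≤ C ∧ ∀ e s : ℝ, 0 ≤ e → e ≤ 3 / 100 → ∃ g1 g2 : ℝ → ℂ,
    (∀ x, HasDerivAt (fun x => (wf e x : ℂ) * ee (-(s * qf e x))) (g1 x) x) ∧
    (∀ x, HasDerivAt g1 (g2 x) x) ∧ Continuous g2 ∧
    (∀ x, x ≤ 1 / 400 → g1 x = 0) ∧ (∀ x, 6 / 25 ≤ x → g1 x = 0) ∧
    (∀ x, ‖(wf e x : ℂ) * ee (-(s * qf e x))‖ ≤ C * (1 + |s|) ^ 2) ∧
    (∀ x, ‖g1 x‖ ≤ C * (1 + |s|) ^ 2) ∧ (∀ x, ‖g2 x‖ ≤ C * (1 + |s|) ^ 2) := by
  obtain ⟨Cw, hCw1, hCw⟩ := wf_bound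
  obtain ⟨Cq, hCq1, hCq⟩ := qf_bound
  obtain ⟨A, hA⟩ : ∃ A : ℝ, A = 2 * Real.pi * Cq := ⟨_, rfl⟩
  have hA1 : 1 ≤ A := by
    rw [hA]
    nlinarith [Real.pi_gt_three]
  have hA2 : 1 ≤ A ^ 2 := one_le_pow₀ hA1
  have hCA : 1 ≤ 3 * Cw * A ^ 2 := by nlinarith
  refine ⟨3 * Cw * A ^ 2, hCA, fun e s he he' => ?_⟩
  obtain ⟨w1, w2, w3⟩ := KN_wm_c2 (wf_contDiff he he')
  obtain ⟨q1, q2, q3⟩ := KN_wm_c2 (qf_contDiff he he')
  obtain ⟨E, hE⟩ : ∃ E : ℝ → ℂ, E = fun x => ee (-(s * qf e x)) := ⟨_, rfl⟩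
  obtain ⟨c1, hc1⟩ : ∃ c1 : ℝ → ℂ, c1 = fun x =>
    ((2 * Real.pi * (-(s * deriv (qf e) x)) : ℝ) : ℂ) * Complex.I := ⟨_, rfl⟩
  obtain ⟨c2, hc2⟩ : ∃ c2 : ℝ → ℂ, c2 = fun x =>
    ((2 * Real.pi * (-(s * deriv (deriv (qf e)) x)) : ℝ) : ℂ) * Complex.I := ⟨_, rfl⟩
  have dE : ∀ x, HasDerivAt E (E x * c1 x) x := by
    intro x
    rw [hE, hc1]
    exact KN_wm_ee ((q1 x).const_mul s).neg
  have dc : ∀ x, HasDerivAt c1 (c2 x) x := by
    intro x
    rw [hc1, hc2]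
    have h1 : HasDerivAt (fun y => 2 * Real.pi * (-(s * deriv (qf e) y)))
        (2 * Real.pi * (-(s * deriv (deriv (qf e)) x))) x := (((q2 x).const_mul s).neg).const_mul _
    exact h1.ofReal_comp.mul_const Complex.I
  have dw : ∀ x, HasDerivAt (fun y => ((wf e y : ℝ) : ℂ)) ((deriv (wf e) x : ℝ) : ℂ) x :=
    fun x => (w1 x).ofReal_comp
  have dw' : ∀ x, HasDerivAt (fun y => ((deriv (wf e) y : ℝ) : ℂ))
      ((deriv (deriv (wf e)) x : ℝ) : ℂ) x := fun x => (w2 x).ofReal_comp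
  have hEn : ∀ x, ‖E x‖ = 1 := by
    intro x
    rw [hE]
    exact KN_wm_norm _
  have hs : 0 ≤ |s| := abs_nonneg s
  have hcn : ∀ {y B : ℝ}, |y| ≤ B →
      ‖((2 * Real.pi * (-(s * y)) : ℝ) : ℂ) * Complex.I‖ ≤ 2 * Real.pi * B * |s| := by
    intro y B hy
    rw [norm_mul, Complex.norm_I, mul_one, Complex.norm_real, Real.norm_eq_abs, abs_mul,
      abs_of_pos Real.two_pi_pos, abs_neg, abs_mul]
    calc 2 * Real.pi * (|s| * |y|) ≤ 2 * Real.pi * (|s| * B) :=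
          mul_le_mul_of_nonneg_left (mul_le_mul_of_nonneg_left hy hs) Real.two_pi_pos.le
      _ = 2 * Real.pi * B * |s| := by ring
  have hc1n : ∀ x, ‖c1 x‖ ≤ A * |s| := by
    intro x
    rw [hc1, hA]
    exact hcn (hCq e he he' x).2.1
  have hc2n : ∀ x, ‖c2 x‖ ≤ A * |s| := by
    intro x
    rw [hc2, hA]
    exact hcn (hCq e he he' x).2.2
  have hwn : ∀ x, ‖((wf e x : ℝ) : ℂ)‖ ≤ Cw := fun x => by
    rw [Complex.norm_real, Real.norm_eq_abs]
    exact (hCw e he he' x).1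
  have hw1n : ∀ x, ‖((deriv (wf e) x : ℝ) : ℂ)‖ ≤ Cw := fun x => by
    rw [Complex.norm_real, Real.norm_eq_abs]
    exact (hCw e he he' x).2.1
  have hw2n : ∀ x, ‖((deriv (deriv (wf e)) x : ℝ) : ℂ)‖ ≤ Cw := fun x => by
    rw [Complex.norm_real, Real.norm_eq_abs]
    exact (hCw e he he' x).2.2
  have hCw0 : 0 ≤ Cw := by linarith
  have hAs : 0 ≤ A * |s| := by positivity
  have hfin : ∀ {X : ℝ}, X ≤ Cw * (1 + 3 * (A * |s|) + (A * |s|) ^ 2) →
      X ≤ 3 * Cw * A ^ 2 * (1 + |s|) ^ 2 := by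
    intro X hX
    refine hX.trans ?_
    have h1 : 1 + 3 * (A * |s|) + (A * |s|) ^ 2 ≤ 3 * A ^ 2 * (1 + |s|) ^ 2 := by
      have k1 : A ≤ A ^ 2 := by nlinarith
      have k2 : 1 ≤ A ^ 2 := by nlinarith
      have k3 : A * |s| ≤ A ^ 2 * |s| := mul_le_mul_of_nonneg_right k1 hs
      nlinarith [mul_nonneg (sq_nonneg A) hs, mul_nonneg (sq_nonneg A) (sq_nonneg |s|)]
    calc Cw * (1 + 3 * (A * |s|) + (A * |s|) ^ 2) ≤ Cw * (3 * A ^ 2 * (1 + |s|) ^ 2) :=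
          mul_le_mul_of_nonneg_left h1 hCw0
      _ = 3 * Cw * A ^ 2 * (1 + |s|) ^ 2 := by ring
  have hzero : ∀ x, wf e x = 0 → deriv (wf e) x = 0 →
      ((deriv (wf e) x : ℝ) : ℂ) * E x + ((wf e x : ℝ) : ℂ) * (E x * c1 x) = 0 := by
    intro x h1 h2
    rw [h1, h2]
    simp
  refine ⟨fun x => ((deriv (wf e) x : ℝ) : ℂ) * E x + ((wf e x : ℝ) : ℂ) * (E x * c1 x),
    fun x => (((deriv (deriv (wf e)) x : ℝ) : ℂ) * E x + ((deriv (wf e) x : ℝ) : ℂ) * (E x * c1 x)) +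
      (((deriv (wf e) x : ℝ) : ℂ) * (E x * c1 x) +
        ((wf e x : ℝ) : ℂ) * (E x * c1 x * c1 x + E x * c2 x)), ?_, ?_, ?_, ?_, ?_, ?_, ?_, ?_⟩
  · intro x
    have h1 := (dw x).mul (dE x)
    rw [hE] at h1 ⊢
    exact h1
  · intro x
    exact ((dw' x).mul (dE x)).add ((dw x).mul ((dE x).mul (dc x)))
  · have cE : Continuous E := continuous_iff_continuousAt.2 fun x => (dE x).continuousAt
    have cc : Continuous c1 := continuous_iff_continuousAt.2 fun x => (dc x).continuousAt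
    have cc2 : Continuous c2 := by
      rw [hc2]
      exact (Complex.continuous_ofReal.comp (((continuous_const.mul q3).neg).const_mul _)).mul
        continuous_const
    have cw : Continuous (fun x => ((wf e x : ℝ) : ℂ)) :=
      continuous_iff_continuousAt.2 fun x => (dw x).continuousAt
    have cw1 : Continuous (fun x => ((deriv (wf e) x : ℝ) : ℂ)) :=
      continuous_iff_continuousAt.2 fun x => (dw' x).continuousAt
    have cw2 : Continuous (fun x => ((deriv (deriv (wf e)) x : ℝ) : ℂ)) :=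
      Complex.continuous_ofReal.comp w3
    exact ((cw2.mul cE).add (cw1.mul (cE.mul cc))).add
      ((cw1.mul (cE.mul cc)).add (cw.mul (((cE.mul cc).mul cc).add (cE.mul cc2))))
  · intro x hx
    refine hzero x (wf_zero_low he he' hx) ?_
    have h1 : HasDerivWithinAt (wf e) (deriv (wf e) x) (Set.Iic x) x := (w1 x).hasDerivWithinAt
    have h2 : HasDerivWithinAt (wf e) 0 (Set.Iic x) x :=
      (hasDerivWithinAt_const x (Set.Iic x) (0 : ℝ)).congr
        (fun y hy => wf_zero_low he he' (le_trans hy hx)) (wf_zero_low he he' hx)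
    exact (uniqueDiffWithinAt_Iic x).eq_deriv _ h1 h2
  · intro x hx
    refine hzero x (wf_zero_high he hx) ?_
    have h1 : HasDerivWithinAt (wf e) (deriv (wf e) x) (Set.Ici x) x := (w1 x).hasDerivWithinAt
    have h2 : HasDerivWithinAt (wf e) 0 (Set.Ici x) x :=
      (hasDerivWithinAt_const x (Set.Ici x) (0 : ℝ)).congr
        (fun y hy => wf_zero_high he (le_trans hx hy)) (wf_zero_high he hx)
    exact (uniqueDiffWithinAt_Ici x).eq_deriv _ h1 h2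
  · intro x
    refine hfin ?_
    rw [norm_mul, KN_wm_norm, mul_one]
    refine (hwn x).trans ?_
    nlinarith [mul_nonneg hCw0 hAs, mul_nonneg hCw0 (sq_nonneg (A * |s|))]
  · intro x
    refine hfin ?_
    have k1 : ‖((deriv (wf e) x : ℝ) : ℂ) * E x‖ ≤ Cw := by
      rw [norm_mul, hEn, mul_one]
      exact hw1n x
    have k2 : ‖((wf e x : ℝ) : ℂ) * (E x * c1 x)‖ ≤ Cw * (A * |s|) := by
      rw [norm_mul, norm_mul, hEn, one_mul]
      exact mul_le_mul (hwn x) (hc1n x) (norm_nonneg _) hCw0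
    refine (norm_add_le _ _).trans ((add_le_add k1 k2).trans ?_)
    nlinarith [mul_nonneg hCw0 hAs, mul_nonneg hCw0 (sq_nonneg (A * |s|))]
  · intro x
    refine hfin ?_
    have k1 : ‖((deriv (deriv (wf e)) x : ℝ) : ℂ) * E x‖ ≤ Cw := by
      rw [norm_mul, hEn, mul_one]
      exact hw2n x
    have k2 : ‖((deriv (wf e) x : ℝ) : ℂ) * (E x * c1 x)‖ ≤ Cw * (A * |s|) := by
      rw [norm_mul, norm_mul, hEn, one_mul]
      exact mul_le_mul (hw1n x) (hc1n x) (norm_nonneg _) hCw0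
    have k3 : ‖((wf e x : ℝ) : ℂ) * (E x * c1 x * c1 x + E x * c2 x)‖ ≤
        Cw * ((A * |s|) ^ 2 + A * |s|) := by
      rw [norm_mul]
      refine mul_le_mul (hwn x) ?_ (norm_nonneg _) hCw0
      refine (norm_add_le _ _).trans (add_le_add ?_ ?_)
      · rw [norm_mul, norm_mul, hEn, one_mul, pow_two]
        exact mul_le_mul (hc1n x) (hc1n x) (norm_nonneg _) hAs
      · rw [norm_mul, hEn, one_mul]
        exact hc2n x
    refine (norm_add_le _ _).trans ((add_le_add ((norm_add_le _ _).trans (add_le_add k1 k2))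
      ((norm_add_le _ _).trans (add_le_add k2 k3))).trans ?_)
    nlinarith [mul_nonneg hCw0 hAs, mul_nonneg hCw0 (sq_nonneg (A * |s|))]

end Pool.Agent.LibSX15
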