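import Pool.Agent.LibSX15.KN_NS
import Pool.Agent.LibSX15.KN_wm

/-!
Row KN_large (large m), 40 min; cite KN_NS, KN_wm (`s = 0`), KN_Q. `φ x = x τ - m N Qf e x`, `φ1 = τ - m N Qf1`, `φ2 = -m N Qf2`, `φ3 = -m N Qf3` on `[1/400, 1/4]`.
`|φ1| ≥ |m| N 9/50 - 8 M N ≥ |m| N/10 =: lam` as `100 M ≤ |m|`; `|φ2|, |φ3| ≤ 80 |m| N = 800 lam`, `B = 800`.
-/

set_option autoImplicit false

namespace Pool.Agent.LibSX15

private theorem KN_large_ee : ee 0 = 1 := by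
  unfold ee
  simp

private theorem KN_large_lt {e x : ℝ} (he : 0 ≤ e) (he' : e ≤ 3 / 100)
    (hx : x ∈ Set.Icc (1 / 400 : ℝ) (1 / 4)) : e * x ^ 2 < 1 := by
  obtain ⟨h1, h2⟩ := hx
  have h3 : x ^ 2 ≤ 1 := by nlinarith
  have h4 : 0 ≤ x ^ 2 := sq_nonneg x
  nlinarith

private theorem KN_large_cont (e : ℝ) (he : 0 ≤ e) (he' : e ≤ 3 / 100) :
    ContinuousOn (Qf3 e) (Set.Icc (1 / 400 : ℝ) (1 / 4)) := by
  intro x hx
  have h := KN_large_lt he he' hx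
  have h1 : (1 - e * x ^ 2) ^ 4 ≠ 0 := pow_ne_zero _ (by linarith)
  refine ContinuousAt.continuousWithinAt ?_
  unfold Qf3
  refine ContinuousAt.div ?_ ?_ h1
  · fun_prop
  · fun_prop

theorem KN_large : ∃ C : ℝ, 1 ≤ C ∧ ∀ (e N M : ℝ) (m : ℤ) (τ : ℝ), 0 ≤ e → e ≤ 3 / 100 → 0 < N → 1 ≤ M →
    |τ| ≤ 8 * M * N → 100 * M ≤ |(m : ℝ)| → ‖KI e N m τ‖ ≤ C / (|(m : ℝ)| * N) ^ 2 := by
  obtain ⟨C, hC, hwm⟩ := KN_wm
  refine ⟨C * 801 ^ 2 * 100, by nlinarith, ?_⟩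
  intro e N M m τ he he' hN hM hτ hm
  obtain ⟨g1, g2, hg, hg1, hg2c, hlow, hhigh, bg, bg1, bg2⟩ := hwm e 0 he he'
  have hm0 : 0 < |(m : ℝ)| := by linarith
  set lam : ℝ := |(m : ℝ)| * N / 10 with hlam
  have hlam0 : 0 < lam := by positivity
  have hC1 : C * (1 + |(0 : ℝ)|) ^ 2 = C := by
    rw [abs_zero]
    ring
  rw [hC1] at bg bg1 bg2
  have hMN : 8 * M * N ≤ 8 / 100 * (|(m : ℝ)| * N) := by nlinarith
  have habs : ∀ y : ℝ, |(m : ℝ) * N * y| = |(m : ℝ)| * N * |y| := by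
    intro y
    rw [abs_mul, abs_mul, abs_of_pos hN]
  have h := KN_NS (1 / 400) (1 / 4) (fun x => (wf e x : ℂ) * ee (-(0 * qf e x))) g1 g2
    (fun x => x * τ - m * N * Qf e x) (fun x => τ - m * N * Qf1 e x)
    (fun x => -(m * N * Qf2 e x)) (fun x => -(m * N * Qf3 e x)) C 800 lam (by norm_num) hlam0
    (by norm_num) (fun x _ => hg x) (fun x _ => hg1 x) ?_ ?_ ?_ hg2c.continuousOn ?_ ?_ ?_ ?_ ?_
    (fun x _ => bg x) (fun x _ => bg1 x) (fun x _ => bg2 x) ?_ ?_ ?_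
  · have e1 : (fun x => (wf e x : ℂ) * ee (-(0 * qf e x)) * ee (x * τ - m * N * Qf e x)) =
        fun x => (wf e x : ℂ) * ee (x * τ - m * N * Qf e x) := by
      funext x
      rw [zero_mul, neg_zero, KN_large_ee, mul_one]
    have e2 : KI e N m τ = ∫ x in (1 / 400 : ℝ)..(1 / 4),
        (wf e x : ℂ) * ee (-(0 * qf e x)) * ee (x * τ - m * N * Qf e x) := by
      unfold KI
      rw [e1]
    rw [e2]
    refine h.trans ?_
    have e3 : (|(m : ℝ)| * N) ^ 2 = 100 * lam ^ 2 := by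
      rw [hlam]
      ring
    rw [e3]
    have e4 : C * 801 ^ 2 * 100 / (100 * lam ^ 2) = C * 801 ^ 2 / lam ^ 2 := by
      field_simp
    rw [e4]
    refine div_le_div_of_nonneg_right ?_ (by positivity)
    have hC0 : 0 ≤ C := by linarith
    nlinarith
  · intro x hx
    have h1 := Qf_deriv (KN_large_lt he he' hx)
    have h2 := ((hasDerivAt_id x).mul_const τ).sub (h1.const_mul ((m : ℝ) * N))
    exact h2.congr_deriv (by simp)
  · intro x hx
    have h1 := Qf1_deriv (KN_large_lt he he' hx)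
    have h2 := (hasDerivAt_const x τ).sub (h1.const_mul ((m : ℝ) * N))
    exact h2.congr_deriv (by simp)
  · intro x hx
    have h1 := Qf2_deriv (KN_large_lt he he' hx)
    exact (h1.const_mul ((m : ℝ) * N)).neg
  · exact ((KN_large_cont e he he').const_smul ((m : ℝ) * N)).neg
  · change ((wf e (1 / 400) : ℝ) : ℂ) * _ = 0
    rw [wf_zero_low he he' le_rfl, Complex.ofReal_zero, zero_mul]
  · change ((wf e (1 / 4) : ℝ) : ℂ) * _ = 0
    rw [wf_zero_high he (by norm_num), Complex.ofReal_zero, zero_mul]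
  · exact hlow _ le_rfl
  · exact hhigh _ (by norm_num)
  · intro x hx
    obtain ⟨b1, b2, -, -⟩ := Qf_bounds he he' hx.1 hx.2
    have h1 : |(m : ℝ) * N * Qf1 e x| = |(m : ℝ)| * N * Qf1 e x := by
      rw [habs, abs_of_pos (show (0 : ℝ) < Qf1 e x by linarith)]
    have h2 : |(m : ℝ)| * N * (9 / 50) ≤ |(m : ℝ)| * N * Qf1 e x :=
      mul_le_mul_of_nonneg_left b1 (by positivity)
    have h3 := abs_sub_abs_le_abs_sub ((m : ℝ) * N * Qf1 e x) τ
    rw [abs_sub_comm] at h3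
    change lam ≤ |τ - (m : ℝ) * N * Qf1 e x|
    rw [h1] at h3
    rw [hlam]
    linarith
  · intro x hx
    obtain ⟨-, -, b3, -⟩ := Qf_bounds he he' hx.1 hx.2
    change |-((m : ℝ) * N * Qf2 e x)| ≤ 800 * lam
    rw [abs_neg, habs, hlam]
    have h2 : |(m : ℝ)| * N * |Qf2 e x| ≤ |(m : ℝ)| * N * 80 :=
      mul_le_mul_of_nonneg_left b3 (by positivity)
    linarith
  · intro x hx
    obtain ⟨-, -, -, b4⟩ := Qf_bounds he he' hx.1 hx.2
    change |-((m : ℝ) * N * Qf3 e x)| ≤ 800 * lam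
    rw [abs_neg, habs, hlam]
    have h2 : |(m : ℝ)| * N * |Qf3 e x| ≤ |(m : ℝ)| * N * 80 :=
      mul_le_mul_of_nonneg_left b4 (by positivity)
    linarith

/-- there the chirp vanishes -/
theorem chi_large (e N M : ℝ) (m : ℤ) (τ : ℝ) (he : 0 ≤ e) (he' : e ≤ 3 / 100) (hN : 0 < N) (hM : 1 ≤ M)
    (hτ : |τ| ≤ 8 * M * N) (hm : 100 * M ≤ |(m : ℝ)|) : chi e N m τ = 0 := by
  have hm0 : 0 < |(m : ℝ)| := by linarith
  have h1 : τ / (2 * m * (36 * N)) ≤ 1 / 400 := by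
    refine (le_abs_self _).trans ?_
    rw [abs_div, abs_mul, abs_mul, abs_of_pos (show (0 : ℝ) < 36 * N by linarith),
      abs_of_pos (show (0 : ℝ) < 2 by norm_num), div_le_iff₀ (by positivity)]
    have hMN : 8 * M * N ≤ 8 / 100 * (|(m : ℝ)| * N) := by nlinarith
    have : 0 < |(m : ℝ)| * N := by positivity
    nlinarith
  unfold chi
  rw [wf_zero_low he he' h1]
  simp

end Pool.Agent.LibSX15
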