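import Pool.Agent.LibSX15.KN_NS
import Pool.Agent.LibSX15.KN_SP0
import Pool.Agent.LibSX15.KN_wm

/-!
Row KN_mid (one chirp), 60 min; cite KN_SP0, KN_NS, KN_wm, KN_Q, KN_gauss. `A = 36 m N` (`|A| ≥ 72`), `x0 = τ/(2A)`. For `x ∈ [1/400, 1/4]`, by `Qf_eq`:
`x τ - m N Qf e x = τ²/(4A) - A (x - x0)² - m (N e) qf e x`. As `wf` vanishes outside `[1/400, 1/4]`: `KI = ee(τ²/(4A)) ∫_ℝ wm(x0 + z) ee(-A z²) dz`, `wm` of KN_wm with `s = m N e`.
(a) `|x0| ≤ 2`: KN_SP0 with `R = 3`: `‖KI - ee(τ²/4A) sp A wm(x0)‖ ≤ 900 C (1+|s|)²/|A|`; `N sp(36 m N) = gam m √(N/|m|)` by `sp_mul` (`c = |m| N`), so `N ee(τ²/4A) sp A wm(x0) = chi e N m τ`.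
(b) `|x0| > 2`: `wf(x0) = 0`, so `chi = 0`; KN_NS with `φ x = -A (x - x0)²` on `[1/400, 1/4]`, `lam = |A| |x0|`, `|φ2| = 2|A| ≤ lam`, `φ3 = 0`, `B = 1`: `‖KI‖ ≤ 4 C (1+|s|)²/(A² x0²)`.
-/

set_option autoImplicit false

namespace Pool.Agent.LibSX15

private theorem KN_mid_ee_add (x y : ℝ) : ee (x + y) = ee x * ee y := by
  unfold ee
  rw [← Complex.exp_add]
  congr 1
  push_cast
  ring

private theorem KN_mid_norm_ee (x : ℝ) : ‖ee x‖ = 1 := by
  unfold ee
  exact Complex.norm_exp_ofReal_mul_I _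

private theorem KN_mid_KI (e N : ℝ) (m : ℤ) (τ : ℝ) (he : 0 ≤ e) (he' : e ≤ 3 / 100) :
    KI e N m τ = ∫ x in (1 / 400 : ℝ)..(1 / 4),
      ((wf e x : ℂ) * ee (-(m * (N * e) * qf e x))) * ee (x * τ - (m * (36 * N)) * x ^ 2) := by
  unfold KI
  refine intervalIntegral.integral_congr fun x hx => ?_
  rw [Set.uIcc_of_le (by norm_num)] at hx
  have hx0 : (0 : ℝ) ≤ x := by linarith [hx.1]
  change (wf e x : ℂ) * ee (x * τ - m * N * Qf e x) = _
  rw [mul_assoc (wf e x : ℂ), ← KN_mid_ee_add, Qf_eq he he' hx0 hx.2]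
  congr 2
  ring

/-- the constant factor -/
private theorem KN_mid_const (N : ℝ) (m : ℤ) (hN : 2 ≤ N) (hm : m ≠ 0) :
    (N : ℂ) * sp (m * (36 * N)) = gam m * (Real.sqrt (N / |(m : ℝ)|) : ℂ) := by
  have hm' : (0 : ℝ) < |(m : ℝ)| := abs_pos.2 (by exact_mod_cast hm)
  have hN0 : (0 : ℝ) < N := by linarith
  have hc : 0 < |(m : ℝ)| * N := mul_pos hm' hN0
  have h1 : (N : ℝ) * (1 / Real.sqrt (|(m : ℝ)| * N)) = Real.sqrt (N / |(m : ℝ)|) := by
    rw [Real.sqrt_div hN0.le, Real.sqrt_mul hm'.le]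
    have h2 : Real.sqrt N ≠ 0 := (Real.sqrt_pos.2 hN0).ne'
    have h3 : Real.sqrt |(m : ℝ)| ≠ 0 := (Real.sqrt_pos.2 hm').ne'
    have h4 : Real.sqrt N * Real.sqrt N = N := Real.mul_self_sqrt hN0.le
    field_simp
    rw [sq, h4]
  have h5 : sp (m * (36 * N)) = ((1 / Real.sqrt (|(m : ℝ)| * N) : ℝ) : ℂ) * gam m := by
    unfold gam
    split_ifs with h
    · rw [← sp_mul _ _ hc]
      congr 1
      have : |(m : ℝ)| = m := abs_of_pos (by exact_mod_cast h)
      rw [this]
      ring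
    · rw [← sp_mul _ _ hc]
      congr 1
      have h' : (m : ℝ) < 0 := by
        have : m < 0 := by omega
        exact_mod_cast this
      rw [abs_of_neg h']
      ring
  rw [h5, ← mul_assoc, ← Complex.ofReal_mul, h1, mul_comm]

theorem KN_mid : ∃ C : ℝ, 1 ≤ C ∧ ∀ (e N : ℝ) (m : ℤ) (τ : ℝ), 0 ≤ e → e ≤ 3 / 100 → 2 ≤ N → m ≠ 0 →
    ‖(N : ℂ) * KI e N m τ - chi e N m τ‖ ≤ C * (1 + |(m : ℝ)| * (N * e)) ^ 2 / |(m : ℝ)| := by
  obtain ⟨C, hC, hwm⟩ := KN_wm
  refine ⟨25 * C, by linarith, ?_⟩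
  intro e N m τ he he' hN hm
  obtain ⟨g1, g2, dg, dg1, hc2, z1, z2, b0, b1, b2⟩ := hwm e (m * (N * e)) he he'
  have hm' : (0 : ℝ) < |(m : ℝ)| := abs_pos.2 (by exact_mod_cast hm)
  have hm1 : (1 : ℝ) ≤ |(m : ℝ)| := by
    have : (1 : ℤ) ≤ |m| := Int.one_le_abs hm
    exact_mod_cast this
  have hN0 : (0 : ℝ) < N := by linarith
  have hs : |(m : ℝ) * (N * e)| = |(m : ℝ)| * (N * e) := by
    rw [abs_mul, abs_of_nonneg (mul_nonneg hN0.le he)]
  rw [hs] at b0 b1 b2
  set D : ℝ := C * (1 + |(m : ℝ)| * (N * e)) ^ 2 with hD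
  have hD0 : 0 ≤ D := by positivity
  set A : ℝ := m * (36 * N) with hA
  have hAabs : |A| = |(m : ℝ)| * (36 * N) := by
    rw [hA, abs_mul, abs_of_pos (by positivity : (0 : ℝ) < 36 * N)]
  have hA72 : 72 ≤ |A| := by
    rw [hAabs]
    nlinarith
  have hA0 : A ≠ 0 := by
    intro h
    rw [h, abs_zero] at hA72
    linarith
  have hApos : 0 < |A| := by linarith
  set x0 : ℝ := τ / (2 * A) with hx0
  have hτ : τ = 2 * A * x0 := by
    rw [hx0]
    field_simp
  have hx0' : τ / (2 * m * (36 * N)) = x0 := by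
    rw [hx0, hA]
    congr 1
    ring
  have hchi : chi e N m τ = (N : ℂ) * sp A * ((wf e x0 : ℂ) *
      ee (-(m * (N * e) * qf e x0)) * ee (τ ^ 2 / (4 * A))) := by
    unfold chi
    rw [hx0', ← KN_mid_const N m hN hm]
    have h1 : τ ^ 2 / (4 * m * (36 * N)) - m * (N * e) * qf e x0 =
        -(m * (N * e) * qf e x0) + τ ^ 2 / (4 * A) := by
      rw [hA]
      have : (4 : ℝ) * m * (36 * N) = 4 * (m * (36 * N)) := by ring
      rw [this]
      ring
    rw [h1, KN_mid_ee_add]
    ring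
  have hfin : N * (900 * D / |A|) ≤ 25 * C * (1 + |(m : ℝ)| * (N * e)) ^ 2 / |(m : ℝ)| := by
    rw [hAabs]
    have : N * (900 * D / (|(m : ℝ)| * (36 * N))) = 25 * D / |(m : ℝ)| := by
      field_simp
      ring
    rw [this, hD]
    apply le_of_eq
    ring
  rw [KN_mid_KI e N m τ he he']
  rcases le_or_gt |x0| 2 with hle | hgt
  · -- stationary phase
    have hsupp : Function.support (fun x : ℝ => ((wf e x : ℂ) * ee (-(m * (N * e) * qf e x))) *
        ee (x * τ - A * x ^ 2)) ⊆ Set.Ioc (1 / 400) (1 / 4) := by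
      intro x hx
      by_contra hx'
      apply hx
      have hw : wf e x = 0 := by
        rw [Set.mem_Ioc, not_and_or] at hx'
        rcases hx' with h | h
        · exact wf_zero_low he he' (not_lt.1 h)
        · exact wf_zero_high he (by linarith [not_le.1 h])
      change ((wf e x : ℂ) * ee (-(m * (N * e) * qf e x))) * ee (x * τ - A * x ^ 2) = 0
      rw [hw]
      simp
    rw [intervalIntegral.integral_eq_integral_of_support_subset hsupp,
      ← MeasureTheory.integral_add_left_eq_self _ x0]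
    have hint : (∫ z : ℝ, ((wf e (x0 + z) : ℂ) * ee (-(m * (N * e) * qf e (x0 + z)))) *
        ee ((x0 + z) * τ - A * (x0 + z) ^ 2)) = ee (τ ^ 2 / (4 * A)) *
        ∫ z : ℝ, ((wf e (x0 + z) : ℂ) * ee (-(m * (N * e) * qf e (x0 + z)))) *
          ee (-(A * z ^ 2)) := by
      rw [← MeasureTheory.integral_const_mul]
      congr 1
      funext z
      have h1 : (x0 + z) * τ - A * (x0 + z) ^ 2 = τ ^ 2 / (4 * A) + -(A * z ^ 2) := by
        rw [hτ]
        field_simp
        ring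
      rw [h1, KN_mid_ee_add]
      ring
    rw [hint]
    have hSP := KN_SP0 (fun z => (wf e (x0 + z) : ℂ) * ee (-(m * (N * e) * qf e (x0 + z))))
      (fun z => g1 (x0 + z)) (fun z => g2 (x0 + z)) 3 D A (by norm_num) (by linarith)
      (fun z => (dg (x0 + z)).comp_const_add x0 z)
      (fun z => (dg1 (x0 + z)).comp_const_add x0 z)
      (hc2.comp (continuous_const.add continuous_id))
      (fun z hz => by
        have hw : wf e (x0 + z) = 0 := by
          rcases le_or_gt 0 z with h | h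
          · rw [abs_of_nonneg h] at hz
            refine wf_zero_high he ?_
            have := (abs_le.1 hle).1
            linarith
          · rw [abs_of_neg h] at hz
            refine wf_zero_low he he' ?_
            have := (abs_le.1 hle).2
            linarith
        change (wf e (x0 + z) : ℂ) * ee (-(m * (N * e) * qf e (x0 + z))) = 0
        rw [hw]
        simp)
      (fun z => b0 (x0 + z)) (fun z => b1 (x0 + z)) (fun z => b2 (x0 + z))
    rw [add_zero] at hSP
    have hdiff : (N : ℂ) * (ee (τ ^ 2 / (4 * A)) *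
        ∫ z : ℝ, ((wf e (x0 + z) : ℂ) * ee (-(m * (N * e) * qf e (x0 + z)))) *
          ee (-(A * z ^ 2))) - chi e N m τ = (N : ℂ) * ee (τ ^ 2 / (4 * A)) *
        ((∫ z : ℝ, ((wf e (x0 + z) : ℂ) * ee (-(m * (N * e) * qf e (x0 + z)))) *
          ee (-(A * z ^ 2))) - sp A * ((wf e x0 : ℂ) * ee (-(m * (N * e) * qf e x0)))) := by
      rw [hchi]
      ring
    rw [hdiff, norm_mul, norm_mul, KN_mid_norm_ee, mul_one, Complex.norm_real, Real.norm_eq_abs,
      abs_of_pos hN0]
    refine (mul_le_mul_of_nonneg_left hSP hN0.le).trans ?_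
    refine le_trans (le_of_eq ?_) hfin
    ring
  · -- no stationary point
    have hchi0 : chi e N m τ = 0 := by
      rw [hchi]
      have hw : wf e x0 = 0 := by
        rcases le_or_gt 0 x0 with h | h
        · rw [abs_of_nonneg h] at hgt
          exact wf_zero_high he (by linarith)
        · exact wf_zero_low he he' (by linarith)
      rw [hw]
      simp
    rw [hchi0, sub_zero]
    have hwlow : wf e (1 / 400) = 0 := wf_zero_low he he' le_rfl
    have hwhigh : wf e (1 / 4) = 0 := wf_zero_high he (by norm_num)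
    have hx0pos : 0 < |x0| := by linarith
    have hNS := KN_NS (1 / 400) (1 / 4)
      (fun x => (wf e x : ℂ) * ee (-(m * (N * e) * qf e x))) g1 g2
      (fun x => x * τ - A * x ^ 2) (fun x => τ - 2 * A * x) (fun _ => -(2 * A)) (fun _ => 0)
      D 1 (|A| * |x0|) (by norm_num) (mul_pos hApos hx0pos) zero_le_one
      (fun x _ => dg x) (fun x _ => dg1 x)
      (fun x _ => by
        have h1 : HasDerivAt (fun x : ℝ => x * τ - A * x ^ 2) (1 * τ - A * ((2 : ℕ) * x ^ (2 - 1) * 1)) x :=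
          ((hasDerivAt_id x).mul_const τ).sub (((hasDerivAt_id x).pow 2).const_mul A)
        convert h1 using 1
        norm_num
        ring)
      (fun x _ => by
        have h1 : HasDerivAt (fun x : ℝ => τ - 2 * A * x) (0 - 2 * A * 1) x :=
          (hasDerivAt_const x τ).sub ((hasDerivAt_id x).const_mul (2 * A))
        convert h1 using 1
        ring)
      (fun x _ => hasDerivAt_const x _)
      hc2.continuousOn continuousOn_const
      (by rw [hwlow]; simp) (by rw [hwhigh]; simp)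
      (z1 _ le_rfl) (z2 _ (by norm_num))
      (fun x _ => b0 x) (fun x _ => b1 x) (fun x _ => b2 x)
      (fun x hx => by
        have h1 : τ - 2 * A * x = 2 * A * (x0 - x) := by rw [hτ]; ring
        have h4 : |2 * A * (x0 - x)| = 2 * |A| * |x0 - x| := by
          rw [abs_mul, abs_mul, abs_two]
        rw [h1, h4]
        have h2 : |x| ≤ 1 / 4 := by
          rw [abs_of_nonneg (by linarith [hx.1])]
          exact hx.2
        have h3 : |x0| - |x| ≤ |x0 - x| := abs_sub_abs_le_abs_sub x0 x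
        nlinarith)
      (fun x _ => by
        rw [abs_neg, abs_mul, abs_two, one_mul]
        nlinarith)
      (fun x _ => by
        rw [abs_zero]
        positivity)
    rw [norm_mul, Complex.norm_real, Real.norm_eq_abs, abs_of_pos hN0]
    refine (mul_le_mul_of_nonneg_left hNS hN0.le).trans (le_trans ?_ hfin)
    refine mul_le_mul_of_nonneg_left ?_ hN0.le
    rw [div_le_div_iff₀ (by positivity) hApos]
    have h1 : (1 / 4 - 1 / 400 : ℝ) * D * (1 + 1) ^ 2 ≤ D := by nlinarith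
    have h2 : |A| ≤ (|A| * |x0|) ^ 2 := by
      have : |A| ≤ |A| * |x0| := by nlinarith
      have h3 : 1 ≤ |A| * |x0| := by nlinarith
      nlinarith
    calc (1 / 4 - 1 / 400) * D * (1 + 1) ^ 2 * |A| ≤ D * |A| :=
          mul_le_mul_of_nonneg_right h1 hApos.le
      _ ≤ D * (|A| * |x0|) ^ 2 := mul_le_mul_of_nonneg_left h2 hD0
      _ ≤ 900 * D * (|A| * |x0|) ^ 2 := by
          have : 0 ≤ D * (|A| * |x0|) ^ 2 := by positivity
          nlinarith

end Pool.Agent.LibSX15
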