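import Pool.Agent.LibSX15.KNDefs

/-!
Row KN_om (the cutoff), 25 min. `Real.smoothTransition` API (`zero_of_nonpos`, `one_of_one_le`, `nonneg`, `le_one`, `contDiff`). The derivatives of `om` are continuous with compact
support (`om = 0` outside `[1/4000, 2]`), so bounded (`HasCompactSupport.deriv`, `Continuous.bounded_above_of_compact_support`).
-/

set_option autoImplicit false

namespace Pool.Agent.LibSX15

theorem om_contDiff (n : ℕ∞) : ContDiff ℝ n om := by
  unfold om
  have h1 : ContDiff ℝ n (fun y : ℝ => 4000 * y - 1) := by fun_prop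
  have h2 : ContDiff ℝ n (fun y : ℝ => 2 - y) := by fun_prop
  exact (Real.smoothTransition.contDiff.comp h1).mul (Real.smoothTransition.contDiff.comp h2)

theorem om_nonneg (y : ℝ) : 0 ≤ om y :=
  mul_nonneg (Real.smoothTransition.nonneg _) (Real.smoothTransition.nonneg _)

theorem om_le_one (y : ℝ) : om y ≤ 1 :=
  mul_le_one₀ (Real.smoothTransition.le_one _) (Real.smoothTransition.nonneg _)
    (Real.smoothTransition.le_one _)

theorem om_one {y : ℝ} (h1 : 1 / 2000 ≤ y) (h2 : y ≤ 1) : om y = 1 := by
  unfold om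
  rw [Real.smoothTransition.one_of_one_le (by linarith),
    Real.smoothTransition.one_of_one_le (by linarith), one_mul]

theorem om_zero {y : ℝ} (h : y ≤ 1 / 4000 ∨ 2 ≤ y) : om y = 0 := by
  unfold om
  rcases h with h | h
  · rw [Real.smoothTransition.zero_of_nonpos (by linarith), zero_mul]
  · rw [Real.smoothTransition.zero_of_nonpos (x := 2 - y) (by linarith), mul_zero]

theorem om_bound : ∃ C : ℝ, 1 ≤ C ∧ ∀ y, |deriv om y| ≤ C ∧ |deriv (deriv om) y| ≤ C := by
  have hs : HasCompactSupport om := by
    refine HasCompactSupport.intro (isCompact_Icc (a := (1 / 4000 : ℝ)) (b := 2)) fun x hx => ?_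
    apply om_zero
    by_contra hc
    push Not at hc
    exact hx ⟨hc.1.le, hc.2.le⟩
  have h2 : ContDiff ℝ (1 + 1) om := by
    have := om_contDiff 2
    rw [one_add_one_eq_two]
    exact_mod_cast this
  have h1 : ContDiff ℝ 1 (deriv om) := (contDiff_succ_iff_deriv.1 h2).2.2
  have h0 : Continuous (deriv (deriv om)) := h1.continuous_deriv le_rfl
  obtain ⟨C1, hC1⟩ := h1.continuous.bounded_above_of_compact_support hs.deriv
  obtain ⟨C2, hC2⟩ := h0.bounded_above_of_compact_support hs.deriv.deriv
  refine ⟨max 1 (max C1 C2), le_max_left _ _, fun y => ⟨?_, ?_⟩⟩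
  · exact (hC1 y).trans ((le_max_left _ _).trans (le_max_right _ _))
  · exact (hC2 y).trans ((le_max_right _ _).trans (le_max_right _ _))

end Pool.Agent.LibSX15
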