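import Pool.Agent.LibSX15.KN_NS
import Pool.Agent.LibSX15.KN_wm

/-!
Row KN_zero (m = 0), 25 min; cite KN_NS, KN_wm (`s = 0`) or KN_w. `τ = 0`: bound by the sup. `|τ| ≥ 1`: KN_NS with `φ x = x τ`, `φ1 = τ`, `φ2 = φ3 = 0`, `B = 0`, `lam = |τ|`; `wf` vanishes near `1/400` and
`1/4` (`wf_zero_low` at `1/400`: derivative `0` there too, given in KN_wm).
-/

set_option autoImplicit false

namespace Pool.Agent.LibSX15

theorem KN_zero_ee0 : ee 0 = 1 := by
  unfold ee
  simp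

theorem KN_zero_norm_ee (x : ℝ) : ‖ee x‖ = 1 := by
  unfold ee
  rw [Complex.norm_exp_ofReal_mul_I]

theorem KN_zero : ∃ C : ℝ, 1 ≤ C ∧ ∀ (e N : ℝ) (τ : ℤ), 0 ≤ e → e ≤ 3 / 100 →
    ‖KI e N 0 τ‖ ≤ C / (1 + (τ : ℝ) ^ 2) := by
  obtain ⟨C, hC1, hC⟩ := KN_wm
  refine ⟨2 * C, by linarith, fun e N τ he he' => ?_⟩
  obtain ⟨g1, g2, h1, h2, h3, h4, h5, h6, h7, h8⟩ := hC e 0 he he'
  have hfun : (fun x => (wf e x : ℂ) * ee (-(0 * qf e x))) = fun x => (wf e x : ℂ) := by
    funext x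
    rw [zero_mul, neg_zero, KN_zero_ee0, mul_one]
  rw [hfun] at h1
  have h6' : ∀ x, ‖(wf e x : ℂ)‖ ≤ C := by
    intro x
    have := h6 x
    rw [zero_mul, neg_zero, KN_zero_ee0, mul_one, abs_zero, add_zero, one_pow, mul_one] at this
    exact this
  have h7' : ∀ x, ‖g1 x‖ ≤ C := by
    intro x
    have := h7 x
    rwa [abs_zero, add_zero, one_pow, mul_one] at this
  have h8' : ∀ x, ‖g2 x‖ ≤ C := by
    intro x
    have := h8 x
    rwa [abs_zero, add_zero, one_pow, mul_one] at this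
  have hKI : KI e N 0 τ = ∫ x in (1 / 400 : ℝ)..(1 / 4), (wf e x : ℂ) * ee (x * τ) := by
    unfold KI
    refine intervalIntegral.integral_congr fun x _ => ?_
    simp
  rw [hKI]
  rcases eq_or_ne τ 0 with rfl | hτ
  · have h9 := intervalIntegral.norm_integral_le_of_norm_le_const (a := (1 / 400 : ℝ))
      (b := 1 / 4) (C := C) (f := fun x => (wf e x : ℂ) * ee (x * ((0 : ℤ) : ℝ))) (fun x _ => by
        rw [norm_mul, KN_zero_norm_ee, mul_one]
        exact h6' x)
    refine h9.trans ?_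
    have h10 : |(1 / 4 : ℝ) - 1 / 400| ≤ 1 := by
      rw [abs_of_nonneg (by norm_num)]
      norm_num
    have h11 : 2 * C / (1 + (((0 : ℤ) : ℝ)) ^ 2) = 2 * C := by simp
    rw [h11]
    nlinarith
  · have hτ1 : (1 : ℝ) ≤ (τ : ℝ) ^ 2 := by
      have h12 : (1 : ℤ) ≤ τ ^ 2 := by
        have := sq_nonneg τ
        have h13 : τ ^ 2 ≠ 0 := pow_ne_zero 2 hτ
        omega
      exact_mod_cast h12
    have hτ0 : (0 : ℝ) < |(τ : ℝ)| := abs_pos.2 (by exact_mod_cast hτ)
    have h9 := KN_NS (1 / 400) (1 / 4) (fun x => (wf e x : ℂ)) g1 g2 (fun x => x * τ)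
      (fun _ => (τ : ℝ)) (fun _ => 0) (fun _ => 0) C 0 |(τ : ℝ)| (by norm_num) hτ0 le_rfl
      (fun x _ => h1 x) (fun x _ => h2 x)
      (fun x _ => by simpa using (hasDerivAt_id x).mul_const (τ : ℝ))
      (fun x _ => hasDerivAt_const _ _) (fun x _ => hasDerivAt_const _ _)
      h3.continuousOn continuousOn_const
      (by
        show (wf e (1 / 400) : ℂ) = 0
        rw [wf_zero_low he he' le_rfl, Complex.ofReal_zero])
      (by
        show (wf e (1 / 4) : ℂ) = 0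
        rw [wf_zero_high he (by norm_num), Complex.ofReal_zero])
      (h4 _ le_rfl) (h5 _ (by norm_num))
      (fun x _ => h6' x) (fun x _ => h7' x) (fun x _ => h8' x)
      (fun x _ => le_rfl) (fun x _ => by simp) (fun x _ => by simp)
    refine h9.trans ?_
    rw [sq_abs, add_zero, one_pow, mul_one, div_le_div_iff₀ (by linarith) (by positivity)]
    nlinarith

end Pool.Agent.LibSX15
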