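import Pool.Agent.LibSX15.KN_four
import Pool.Agent.LibSX15.KN_zero
import Pool.Agent.LibSX15.KN_large
import Pool.Agent.LibSX15.KN_mid

/-!
Row KN_sum (sum over m), 60 min; cite KN_four, KN_zero, KN_large, KN_mid. `∑' m N KI_m - ∑_{m ∈ F} chi_m = N KI_0 + ∑_{0<|m|<100M} (N KI_m - chi_m) + ∑_{|m| ≥ 100 M} N KI_m`
(`F` any finite set of nonzero integers containing all `0 < |m| < 100 M`; for `|m| ≥ 100 M` `chi = 0`). Bounds: `N KI_0`: KN_zero; the middle sum:
`∑_{1 ≤ m < 100 M} (1 + m ε)²/m ≤ (1 + 100 M ε)² (1 + log (100 M))` (`harmonic_le_one_add_log`; twice for the signs); the tail: `N C ∑_{|m| ≥ 1} 1/(m N)² ≤ 4 C/N`.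
-/

set_option autoImplicit false

namespace Pool.Agent.LibSX15

private theorem KN_sum_harm (L : ℕ) (hL : 1 ≤ L) :
    ∑ m ∈ (Finset.Icc (-(L : ℤ)) L).erase 0, 1 / |(m : ℝ)| ≤ 2 * (1 + Real.log L) := by
  classical
  have hT : (Finset.Icc (-(L : ℤ)) L).erase 0 =
      (Finset.range L).image (fun n : ℕ => (n : ℤ) + 1) ∪
        (Finset.range L).image (fun n : ℕ => -((n : ℤ) + 1)) := by
    ext m
    simp only [Finset.mem_erase, Finset.mem_Icc, Finset.mem_union, Finset.mem_image,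
      Finset.mem_range]
    constructor
    · rintro ⟨h0, h1, h2⟩
      rcases lt_or_gt_of_ne h0 with h | h
      · right
        exact ⟨(-m - 1).toNat, by omega, by omega⟩
      · left
        exact ⟨(m - 1).toNat, by omega, by omega⟩
    · rintro (⟨n, hn, rfl⟩ | ⟨n, hn, rfl⟩)
      · omega
      · omega
  have hdisj : Disjoint ((Finset.range L).image (fun n : ℕ => (n : ℤ) + 1))
      ((Finset.range L).image (fun n : ℕ => -((n : ℤ) + 1))) := by
    rw [Finset.disjoint_left]
    intro m hm hm'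
    obtain ⟨n, -, hn⟩ := Finset.mem_image.1 hm
    obtain ⟨n', -, hn'⟩ := Finset.mem_image.1 hm'
    omega
  have hharm : ∑ n ∈ Finset.range L, 1 / ((n : ℝ) + 1) ≤ 1 + Real.log L := by
    have h := harmonic_le_one_add_log L
    have h2 : ((harmonic L : ℚ) : ℝ) = ∑ n ∈ Finset.range L, 1 / ((n : ℝ) + 1) := by
      unfold harmonic
      push_cast
      refine Finset.sum_congr rfl fun n _ => ?_
      rw [one_div]
    rw [← h2]
    exact h
  rw [hT, Finset.sum_union hdisj, Finset.sum_image (fun a _ b _ h => by simpa using h),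
    Finset.sum_image (fun a _ b _ h => by simpa using h)]
  have h1 : ∑ n ∈ Finset.range L, 1 / |(((n : ℤ) + 1 : ℤ) : ℝ)| =
      ∑ n ∈ Finset.range L, 1 / ((n : ℝ) + 1) := by
    refine Finset.sum_congr rfl fun n _ => ?_
    push_cast
    rw [abs_of_nonneg (by positivity)]
  have h2 : ∑ n ∈ Finset.range L, 1 / |((-((n : ℤ) + 1) : ℤ) : ℝ)| =
      ∑ n ∈ Finset.range L, 1 / ((n : ℝ) + 1) := by
    refine Finset.sum_congr rfl fun n _ => ?_
    push_cast
    rw [abs_neg, abs_of_nonneg (by positivity)]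
  rw [h1, h2]
  linarith

theorem KN_sum : ∃ C : ℝ, 1 ≤ C ∧ ∀ (N u e M : ℝ) (τ : ℤ) (F : Finset ℤ), 2 ≤ N → 0 < u → 1 ≤ M →
    e = 3 * N / u ^ 2 → e ≤ 3 / 100 → |(τ : ℝ)| ≤ 8 * M * N → (0 : ℤ) ∉ F →
    (∀ m : ℤ, m ≠ 0 → |(m : ℝ)| < 100 * M → m ∈ F) →
    ‖∑' n : ℤ, (om (n / N) : ℂ) * ee (zx N u n * τ) - ∑ m ∈ F, chi e N m τ‖ ≤
      C * (N / (1 + (τ : ℝ) ^ 2) + (1 + M * (N * e)) ^ 2 * (1 + Real.log M)) := by
  classical
  obtain ⟨Cz, hCz, hz⟩ := KN_zero
  obtain ⟨Cl, hCl, hl⟩ := KN_large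
  obtain ⟨Cm, hCm, hm⟩ := KN_mid
  set Z : ℝ := ∑' m : ℤ, 1 / (m : ℝ) ^ 2 with hZ
  have hZs : Summable (fun m : ℤ => 1 / (m : ℝ) ^ 2) :=
    Real.summable_one_div_int_pow.2 (by norm_num)
  have hZ0 : 0 ≤ Z := tsum_nonneg fun m => by positivity
  refine ⟨Cz + Cm * (101 ^ 2 * 14) + Cl * Z, ?_, ?_⟩
  · have h1 : 0 ≤ Cm * (101 ^ 2 * 14) := by positivity
    have h2 : 0 ≤ Cl * Z := by positivity
    linarith
  intro N u e M τ F hN hu hM heq he' hτ h0F hF
  have hN0 : 0 < N := by linarith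
  have hM0 : 0 < M := by linarith
  have he : 0 ≤ e := by rw [heq]; positivity
  obtain ⟨hsum, htsum⟩ := KN_four N u e hN0 hu heq he' (τ : ℝ)
  rw [htsum]
  -- the difference as a series
  set a : ℤ → ℂ := fun m => (N : ℂ) * KI e N m τ with ha
  set ch : ℤ → ℂ := fun m => if m ∈ F then chi e N m τ else 0 with hch
  have hchs : HasSum ch (∑ m ∈ F, chi e N m τ) := by
    have h1 : HasSum ch (∑ m ∈ F, ch m) := hasSum_sum_of_ne_finset_zero (fun m hm => by
      rw [hch]
      exact if_neg hm)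
    have h2 : ∑ m ∈ F, ch m = ∑ m ∈ F, chi e N m τ :=
      Finset.sum_congr rfl fun m hm => by
        rw [hch]
        exact if_pos hm
    rwa [h2] at h1
  have hdiff : HasSum (fun m => a m - ch m) ((∑' m, a m) - ∑ m ∈ F, chi e N m τ) :=
    hsum.hasSum.sub hchs
  have hdiff' : (∑' m : ℤ, (N : ℂ) * KI e N m τ) - ∑ m ∈ F, chi e N m τ =
      ∑' m, (a m - ch m) := hdiff.tsum_eq.symm
  rw [hdiff']
  -- the bounds
  set L : ℕ := ⌈100 * M⌉₊ with hL
  have hL1 : 100 * M ≤ L := Nat.le_ceil _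
  have hL2 : (L : ℝ) ≤ 101 * M := by
    have := Nat.ceil_lt_add_one (show (0 : ℝ) ≤ 100 * M by positivity)
    linarith
  have hL3 : 1 ≤ L := by
    have : (1 : ℝ) ≤ L := by linarith
    exact_mod_cast this
  set T : Finset ℤ := (Finset.Icc (-(L : ℤ)) L).erase 0 with hT
  set X : ℝ := 1 + M * (N * e) with hX
  have hX1 : 1 ≤ X := by
    have : 0 ≤ M * (N * e) := by positivity
    linarith
  have hlogM : 0 ≤ Real.log M := Real.log_nonneg hM
  set b0 : ℤ → ℝ := fun m => if m = 0 then Cz * (N / (1 + (τ : ℝ) ^ 2)) else 0 with hb0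
  set b1 : ℤ → ℝ := fun m => if m ∈ T then Cm * (101 * X) ^ 2 * (1 / |(m : ℝ)|) else 0 with hb1
  set b2 : ℤ → ℝ := fun m => Cl * (1 / (m : ℝ) ^ 2) with hb2
  have hs0 : HasSum b0 (Cz * (N / (1 + (τ : ℝ) ^ 2))) := by
    have h := hasSum_ite_eq (0 : ℤ) (Cz * (N / (1 + (τ : ℝ) ^ 2)))
    exact h
  have hs1 : HasSum b1 (∑ m ∈ T, Cm * (101 * X) ^ 2 * (1 / |(m : ℝ)|)) := by
    have h1 : HasSum b1 (∑ m ∈ T, b1 m) := hasSum_sum_of_ne_finset_zero (fun m hm => by
      rw [hb1]
      exact if_neg hm)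
    have h2 : ∑ m ∈ T, b1 m = ∑ m ∈ T, Cm * (101 * X) ^ 2 * (1 / |(m : ℝ)|) :=
      Finset.sum_congr rfl fun m hm => by
        rw [hb1]
        exact if_pos hm
    rwa [h2] at h1
  have hs2 : HasSum b2 (Cl * Z) := hZs.hasSum.mul_left Cl
  have hb1n : ∀ m, 0 ≤ b1 m := by
    intro m
    rw [hb1]
    dsimp only
    split_ifs
    · positivity
    · exact le_rfl
  have hb2n : ∀ m, 0 ≤ b2 m := by
    intro m
    rw [hb2]
    dsimp only
    positivity
  have hbound : ∀ m : ℤ, ‖a m - ch m‖ ≤ b0 m + b1 m + b2 m := by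
    intro m
    by_cases hm0 : m = 0
    · subst hm0
      have h1 : ch 0 = 0 := by
        rw [hch]
        exact if_neg h0F
      have h2 : b0 0 = Cz * (N / (1 + (τ : ℝ) ^ 2)) := by
        rw [hb0]
        exact if_pos rfl
      rw [h1, sub_zero, h2]
      have h3 := hz e N τ he he'
      have h4 : ‖a 0‖ ≤ Cz * (N / (1 + (τ : ℝ) ^ 2)) := by
        rw [ha]
        dsimp only
        rw [norm_mul, Complex.norm_real, Real.norm_eq_abs, abs_of_pos hN0]
        calc N * ‖KI e N 0 τ‖ ≤ N * (Cz / (1 + (τ : ℝ) ^ 2)) :=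
              mul_le_mul_of_nonneg_left h3 hN0.le
          _ = Cz * (N / (1 + (τ : ℝ) ^ 2)) := by ring
      have h5 := hb1n 0
      have h6 := hb2n 0
      linarith
    · have h2 : b0 m = 0 := by
        rw [hb0]
        exact if_neg hm0
      have hmpos : (0 : ℝ) < |(m : ℝ)| := abs_pos.2 (by exact_mod_cast hm0)
      rcases lt_or_ge |(m : ℝ)| (100 * M) with hlt | hge
      · have hmF := hF m hm0 hlt
        have h1 : ch m = chi e N m τ := by
          rw [hch]
          exact if_pos hmF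
        have hmT : m ∈ T := by
          rw [hT, Finset.mem_erase, Finset.mem_Icc]
          have h3 : |(m : ℝ)| ≤ L := by linarith
          have h4 := abs_le.1 h3
          refine ⟨hm0, ?_, ?_⟩
          · have : (-(L : ℝ)) ≤ m := h4.1
            exact_mod_cast this
          · have : (m : ℝ) ≤ L := h4.2
            exact_mod_cast this
        have h5 : b1 m = Cm * (101 * X) ^ 2 * (1 / |(m : ℝ)|) := by
          rw [hb1]
          exact if_pos hmT
        have h6 := hm e N m τ he he' hN hm0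
        have h7 : 1 + |(m : ℝ)| * (N * e) ≤ 101 * X := by
          have h8 : |(m : ℝ)| * (N * e) ≤ 100 * M * (N * e) :=
            mul_le_mul_of_nonneg_right hlt.le (by positivity)
          have h9 : 0 ≤ M * (N * e) := by positivity
          rw [hX]
          linarith
        have h10 : (1 + |(m : ℝ)| * (N * e)) ^ 2 ≤ (101 * X) ^ 2 := by
          have : 0 ≤ 1 + |(m : ℝ)| * (N * e) := by positivity
          exact pow_le_pow_left₀ this h7 2
        have h11 : ‖a m - ch m‖ ≤ b1 m := by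
          rw [h1, h5]
          refine h6.trans ?_
          rw [div_eq_mul_one_div]
          refine mul_le_mul_of_nonneg_right ?_ (by positivity)
          exact mul_le_mul_of_nonneg_left h10 (by linarith)
        have h12 := hb2n m
        linarith
      · have h1 : ch m = 0 := by
          rw [hch]
          dsimp only
          split_ifs
          · exact chi_large e N M m τ he he' hN0 hM hτ hge
          · rfl
        rw [h1, sub_zero, h2]
        have h3 := hl e N M m τ he he' hN0 hM hτ hge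
        have h4 : ‖a m‖ ≤ b2 m := by
          rw [ha, hb2]
          dsimp only
          rw [norm_mul, Complex.norm_real, Real.norm_eq_abs, abs_of_pos hN0]
          calc N * ‖KI e N m τ‖ ≤ N * (Cl / (|(m : ℝ)| * N) ^ 2) :=
                mul_le_mul_of_nonneg_left h3 hN0.le
            _ = Cl * (1 / (m : ℝ) ^ 2) * (1 / N) := by
                rw [mul_pow, sq_abs]
                field_simp
            _ ≤ Cl * (1 / (m : ℝ) ^ 2) * 1 := by
                refine mul_le_mul_of_nonneg_left ?_ (by positivity)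
                rw [div_le_one hN0]
                linarith
            _ = Cl * (1 / (m : ℝ) ^ 2) := mul_one _
        have h5 := hb1n m
        linarith
  have hmain := tsum_of_norm_bounded ((hs0.add hs1).add hs2) hbound
  refine hmain.trans ?_
  -- the constants
  have hT1 : ∑ m ∈ T, Cm * (101 * X) ^ 2 * (1 / |(m : ℝ)|) ≤
      Cm * (101 ^ 2 * 14) * (X ^ 2 * (1 + Real.log M)) := by
    rw [← Finset.mul_sum]
    have h1 := KN_sum_harm L hL3
    have h2 : Real.log L ≤ 6 + Real.log M := by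
      have h3 : Real.log L ≤ Real.log (101 * M) :=
        Real.log_le_log (by exact_mod_cast hL3) hL2
      rw [Real.log_mul (by norm_num) hM0.ne'] at h3
      have h4 : Real.log 101 ≤ 6 := by
        rw [Real.log_le_iff_le_exp (by norm_num)]
        have h5 : (101 : ℝ) ≤ (2.7 : ℝ) ^ 6 := by norm_num
        have h6 : (2.7 : ℝ) ^ 6 ≤ Real.exp 1 ^ 6 :=
          pow_le_pow_left₀ (by norm_num) (by linarith [Real.exp_one_gt_d9]) 6
        have h7 : Real.exp 1 ^ 6 = Real.exp 6 := by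
          rw [← Real.exp_nat_mul]
          norm_num
        linarith
      linarith
    calc Cm * (101 * X) ^ 2 * ∑ m ∈ T, 1 / |(m : ℝ)|
        ≤ Cm * (101 * X) ^ 2 * (14 * (1 + Real.log M)) := by
          refine mul_le_mul_of_nonneg_left ?_ (by positivity)
          linarith
      _ = Cm * (101 ^ 2 * 14) * (X ^ 2 * (1 + Real.log M)) := by ring
  have hY : 1 ≤ X ^ 2 * (1 + Real.log M) := by
    have h1 : 1 ≤ X ^ 2 := one_le_pow₀ hX1
    nlinarith
  have hP : 0 ≤ N / (1 + (τ : ℝ) ^ 2) := by positivity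
  have h1 : 0 ≤ Cm * (101 ^ 2 * 14) := by positivity
  have h2 : 0 ≤ Cl * Z := by positivity
  have h3 : Cl * Z ≤ Cl * Z * (X ^ 2 * (1 + Real.log M)) := le_mul_of_one_le_right h2 hY
  have h4 : 0 ≤ Cz * (X ^ 2 * (1 + Real.log M)) := by positivity
  have h5 : 0 ≤ (Cm * (101 ^ 2 * 14) + Cl * Z) * (N / (1 + (τ : ℝ) ^ 2)) := by positivity
  have h6 : (Cz + Cm * (101 ^ 2 * 14) + Cl * Z) *
      (N / (1 + (τ : ℝ) ^ 2) + X ^ 2 * (1 + Real.log M)) =
      Cz * (N / (1 + (τ : ℝ) ^ 2)) + Cm * (101 ^ 2 * 14) * (X ^ 2 * (1 + Real.log M)) +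
      Cl * Z * (X ^ 2 * (1 + Real.log M)) + Cz * (X ^ 2 * (1 + Real.log M)) +
      (Cm * (101 ^ 2 * 14) + Cl * Z) * (N / (1 + (τ : ℝ) ^ 2)) := by ring
  rw [h6]
  linarith

end Pool.Agent.LibSX15
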