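import Pool.Agent.LibSX15.KN_om
import Pool.Agent.LibSX15.KN_Q

/-!
Row KN_w (the weight w), 60 min; cite KN_om, KN_Q. `wf e = 0` on `(-∞, 1/400]` (`Qf_low`, or `x ≤ 0`) and on `[6/25, ∞)`: if `e x² < 1` then `Qf_high` and `om_zero`; if `e x² = 1` then
`Qf = 36 x²/0 = 0`; if `e x² > 1` then `Qf < 0`. On the open interval `(0, 1)` (`e x² < 1`) it is `om (Qf e x) * Qf1 e x`, a product of differentiable functions. Three open
sets cover `ℝ`: `(-∞, 1/400)`, `(0, 1)`, `(6/25, ∞)`. `w' = om'(Q) Q1² + om(Q) Q2`, `w'' = om''(Q) Q1³ + 3 om'(Q) Q1 Q2 + om(Q) Q3` on `[1/400, 1/4]`, bounded by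
`om_bound`, `Qf_bounds`; `0` outside.
-/

set_option autoImplicit false

namespace Pool.Agent.LibSX15

private theorem KN_w_om' (y : ℝ) : HasDerivAt om (deriv om y) y :=
  ((om_contDiff ⊤).differentiable (by simp)).differentiableAt.hasDerivAt

private theorem KN_w_om'' (y : ℝ) : HasDerivAt (deriv om) (deriv (deriv om) y) y := by
  have h := om_contDiff ⊤
  have h2 : ContDiff ℝ (⊤ : ℕ∞) (deriv om) := (contDiff_infty_iff_deriv.1 h).2
  exact (h2.differentiable (by simp)).differentiableAt.hasDerivAt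

private theorem KN_w_e {e x : ℝ} (he' : e ≤ 3 / 100) (hx : 0 < x) (hx' : x < 1) :
    e * x ^ 2 < 1 := by
  nlinarith [mul_pos hx hx]

theorem wf_zero_low {e x : ℝ} (he : 0 ≤ e) (he' : e ≤ 3 / 100) (hx : x ≤ 1 / 400) : wf e x = 0 := by
  unfold wf
  split_ifs with h
  · rw [om_zero (Or.inl (Qf_low he he' h.le hx).le), zero_mul]
  · rfl

theorem wf_zero_high {e x : ℝ} (he : 0 ≤ e) (hx : 6 / 25 ≤ x) : wf e x = 0 := by
  have hx0 : 0 < x := by linarith
  have hx2 : 0 < x ^ 2 := by positivity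
  unfold wf
  rw [if_pos hx0]
  have h : om (Qf e x) = 0 := by
    rcases lt_trichotomy (e * x ^ 2) 1 with h1 | h1 | h1
    · exact om_zero (Or.inr (Qf_high he hx h1).le)
    · refine om_zero (Or.inl ?_)
      unfold Qf
      rw [h1, sub_self, div_zero]
      norm_num
    · refine om_zero (Or.inl ?_)
      unfold Qf
      have h2 : 36 * x ^ 2 / (1 - e * x ^ 2) ≤ 0 :=
        div_nonpos_of_nonneg_of_nonpos (by positivity) (by linarith)
      linarith
  rw [h, zero_mul]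

private theorem KN_w_eq {e x : ℝ} (hx : 0 < x) : wf e =ᶠ[nhds x] fun y => om (Qf e y) * Qf1 e y := by
  filter_upwards [lt_mem_nhds hx] with y hy
  unfold wf
  rw [if_pos hy]

private theorem KN_w_low {e x : ℝ} (he : 0 ≤ e) (he' : e ≤ 3 / 100) (hx : x < 1 / 400) :
    wf e =ᶠ[nhds x] fun _ => (0 : ℝ) := by
  filter_upwards [gt_mem_nhds hx] with y hy
  exact wf_zero_low he he' (le_of_lt hy)

private theorem KN_w_high {e x : ℝ} (he : 0 ≤ e) (hx : 6 / 25 < x) :
    wf e =ᶠ[nhds x] fun _ => (0 : ℝ) := by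
  filter_upwards [lt_mem_nhds hx] with y hy
  exact wf_zero_high he (le_of_lt hy)

/-- the first derivative on `(0, 1)` -/
private noncomputable def KN_w_g (e x : ℝ) : ℝ :=
  deriv om (Qf e x) * Qf1 e x * Qf1 e x + om (Qf e x) * Qf2 e x

private theorem KN_w_d1 {e x : ℝ} (he' : e ≤ 3 / 100) (hx : 0 < x) (hx' : x < 1) :
    HasDerivAt (wf e) (KN_w_g e x) x := by
  have h0 := KN_w_e he' hx hx'
  have h1 : HasDerivAt (fun y => om (Qf e y)) (deriv om (Qf e x) * Qf1 e x) x :=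
    (KN_w_om' (Qf e x)).comp x (Qf_deriv h0)
  have h2 := h1.mul (Qf1_deriv h0)
  exact h2.congr_of_eventuallyEq (KN_w_eq hx)

private theorem KN_w_d2 {e x : ℝ} (he' : e ≤ 3 / 100) (hx : 0 < x) (hx' : x < 1) :
    HasDerivAt (KN_w_g e) ((deriv (deriv om) (Qf e x) * Qf1 e x * Qf1 e x +
      deriv om (Qf e x) * Qf2 e x) * Qf1 e x + deriv om (Qf e x) * Qf1 e x * Qf2 e x +
      (deriv om (Qf e x) * Qf1 e x * Qf2 e x + om (Qf e x) * Qf3 e x)) x := by
  have h0 := KN_w_e he' hx hx'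
  have h1 : HasDerivAt (fun y => om (Qf e y)) (deriv om (Qf e x) * Qf1 e x) x :=
    (KN_w_om' (Qf e x)).comp x (Qf_deriv h0)
  have h2 : HasDerivAt (fun y => deriv om (Qf e y)) (deriv (deriv om) (Qf e x) * Qf1 e x) x :=
    (KN_w_om'' (Qf e x)).comp x (Qf_deriv h0)
  exact ((h2.mul (Qf1_deriv h0)).mul (Qf1_deriv h0)).add (h1.mul (Qf2_deriv h0))

theorem wf_contDiff {e : ℝ} (he : 0 ≤ e) (he' : e ≤ 3 / 100) : ContDiff ℝ 2 (wf e) := by
  rw [contDiff_iff_contDiffAt]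
  intro x
  rcases lt_or_ge x (1 / 400) with h | h
  · exact (contDiffAt_const (c := (0 : ℝ))).congr_of_eventuallyEq (KN_w_low he he' h)
  rcases lt_or_ge (6 / 25) x with h' | h'
  · exact (contDiffAt_const (c := (0 : ℝ))).congr_of_eventuallyEq (KN_w_high he h')
  have hx : 0 < x := by linarith
  have hx' : x < 1 := by linarith
  have h0 := KN_w_e he' hx hx'
  have hne : 1 - e * x ^ 2 ≠ 0 := by linarith
  refine ContDiffAt.congr_of_eventuallyEq ?_ (KN_w_eq hx)
  have hd : ContDiffAt ℝ 2 (fun y : ℝ => 1 - e * y ^ 2) x := by fun_prop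
  have hQ : ContDiffAt ℝ 2 (Qf e) x := by
    unfold Qf
    exact ContDiffAt.div (by fun_prop) hd hne
  have hQ1 : ContDiffAt ℝ 2 (Qf1 e) x := by
    unfold Qf1
    exact ContDiffAt.div (by fun_prop) (hd.pow 2) (pow_ne_zero 2 hne)
  have hom : ContDiffAt ℝ 2 om (Qf e x) := (om_contDiff 2).contDiffAt
  exact (hom.comp x hQ).mul hQ1

theorem wf_bound : ∃ C : ℝ, 1 ≤ C ∧ ∀ e : ℝ, 0 ≤ e → e ≤ 3 / 100 → ∀ x,
    |wf e x| ≤ C ∧ |deriv (wf e) x| ≤ C ∧ |deriv (deriv (wf e)) x| ≤ C := by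
  obtain ⟨C, hC1, hC⟩ := om_bound
  refine ⟨20000 * C, by linarith, fun e he he' x => ?_⟩
  have hC0 : 0 ≤ 20000 * C := by linarith
  have hzero : wf e =ᶠ[nhds x] (fun _ => (0 : ℝ)) → |wf e x| ≤ 20000 * C ∧
      |deriv (wf e) x| ≤ 20000 * C ∧ |deriv (deriv (wf e)) x| ≤ 20000 * C := by
    intro h
    have h1 : wf e x = 0 := h.eq_of_nhds
    have h2 : deriv (wf e) =ᶠ[nhds x] deriv (fun _ => (0 : ℝ)) := h.deriv
    have h3 : deriv (wf e) x = 0 := by
      rw [h2.eq_of_nhds, deriv_const]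
    have h4 : deriv (deriv (wf e)) x = 0 := by
      rw [h2.deriv_eq]
      have h5 : deriv (fun _ : ℝ => (0 : ℝ)) = fun _ => 0 := by
        funext y
        exact deriv_const _ _
      rw [h5, deriv_const]
    rw [h1, h3, h4, abs_zero]
    exact ⟨hC0, hC0, hC0⟩
  rcases lt_or_ge x (1 / 400) with h | h
  · exact hzero (KN_w_low he he' h)
  rcases lt_or_ge (6 / 25) x with h' | h'
  · exact hzero (KN_w_high he h')
  have hx : 0 < x := by linarith
  have hx' : x < 1 := by linarith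
  obtain ⟨b1, b2, b3, b4⟩ := Qf_bounds he he' h (by linarith)
  have hq1 : |Qf1 e x| ≤ 20 := abs_le.2 ⟨by linarith, b2⟩
  have ho : |om (Qf e x)| ≤ 1 := abs_le.2 ⟨by linarith [om_nonneg (Qf e x)], om_le_one _⟩
  obtain ⟨c1, c2⟩ := hC (Qf e x)
  have hmul : ∀ {a b A B : ℝ}, |a| ≤ A → |b| ≤ B → 0 ≤ A → |a * b| ≤ A * B := by
    intro a b A B ha hb hA
    rw [abs_mul]
    exact mul_le_mul ha hb (abs_nonneg _) hA
  have hCp : 0 ≤ C := by linarith
  have e0 : |wf e x| ≤ 20 := by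
    unfold wf
    rw [if_pos hx]
    have := hmul ho hq1 zero_le_one
    linarith
  have e1 : |KN_w_g e x| ≤ C * 20 * 20 + 80 := by
    unfold KN_w_g
    have k1 := hmul (hmul c1 hq1 hCp) hq1 (by positivity)
    have k2 := hmul ho b3 zero_le_one
    exact (abs_add_le _ _).trans (by linarith)
  have e2 : |deriv (wf e) x| ≤ C * 20 * 20 + 80 := by
    rw [(KN_w_d1 he' hx hx').deriv]
    exact e1
  have e3 : deriv (deriv (wf e)) x = (deriv (deriv om) (Qf e x) * Qf1 e x * Qf1 e x +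
      deriv om (Qf e x) * Qf2 e x) * Qf1 e x + deriv om (Qf e x) * Qf1 e x * Qf2 e x +
      (deriv om (Qf e x) * Qf1 e x * Qf2 e x + om (Qf e x) * Qf3 e x) := by
    have k1 : deriv (wf e) =ᶠ[nhds x] KN_w_g e := by
      filter_upwards [lt_mem_nhds hx, gt_mem_nhds hx'] with y hy hy'
      exact (KN_w_d1 he' hy hy').deriv
    rw [k1.deriv_eq]
    exact (KN_w_d2 he' hx hx').deriv
  have e4 : |deriv (deriv (wf e)) x| ≤ (C * 20 * 20 + C * 80) * 20 + C * 20 * 80 +
      (C * 20 * 80 + 1 * 80) := by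
    rw [e3]
    have k1 := hmul (hmul c2 hq1 hCp) hq1 (by positivity)
    have k2 := hmul c1 b3 hCp
    have k3 : |deriv (deriv om) (Qf e x) * Qf1 e x * Qf1 e x + deriv om (Qf e x) * Qf2 e x| ≤
        C * 20 * 20 + C * 80 := (abs_add_le _ _).trans (add_le_add k1 k2)
    have k4 := hmul k3 hq1 (by positivity)
    have k5 := hmul (hmul c1 hq1 hCp) b3 (by positivity)
    have k6 := hmul ho b4 zero_le_one
    exact (abs_add_le _ _).trans (add_le_add ((abs_add_le _ _).trans (add_le_add k4 k5))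
      ((abs_add_le _ _).trans (add_le_add k5 k6)))
  refine ⟨by linarith, by linarith, by linarith⟩

end Pool.Agent.LibSX15
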