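import Pool.Agent.LibSX15.LVDefs
import Pool.Agent.LibSX15.LVW

set_option autoImplicit false

namespace Pool.Agent.LibSX15

open Finset ComplexConjugate

/-- Row LVA7. `Cw` = constant of `LV_window` (`Cw H Err ≤ N` is the same as `Cw Λ² N Err ≤ Y²`). Group the elements of
`W` in `[x, x + l]` by `⌊(t - x) Cw / N⌋`: at most `Cw l / N + 1` classes; each class lies in `[t0, t0 + N / Cw]` with
`t0` = its smallest element, so it has at most `Cw H` elements. Total `≤ Cw H (Cw l / N + 1) ≤ Cw² H (1 + l / N)`. -/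
theorem LV_count (C0 : ℝ) (hC0 : 1 ≤ C0) : ∃ C : ℝ, 1 ≤ C ∧ ∀ (d : Dat) (Λ Y H : ℝ) (a : ℕ → ℂ)
    (W : Finset ℤ), LVH d C0 Λ Y H a W → C * H * d.Err ≤ d.N → Win C d.N H W := by
  classical
  obtain ⟨Cw, hCw, hwin⟩ := LV_window C0 hC0
  refine ⟨Cw ^ 2, by nlinarith, ?_⟩
  intro d Λ Y H a W h hErr x l hl
  have hN : 0 < d.N := by linarith [h.good.hN]
  have hY := h.hY
  have hH0 : 0 ≤ H := by
    rw [h.hH]
    positivity
  have hE : 0 ≤ d.Err := by linarith [h.good.hErr]
  have hCw0 : 0 < Cw := by linarith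
  have h1 : Cw * Λ ^ 2 * d.N * d.Err ≤ Y ^ 2 := by
    have e1 : Cw * H * d.Err ≤ d.N := by
      refine le_trans ?_ hErr
      have : Cw ≤ Cw ^ 2 := by nlinarith
      gcongr
    rw [h.hH] at e1
    have hY2 : 0 < Y ^ 2 := by positivity
    have e2 : Cw * (Λ ^ 2 * d.N ^ 2 / Y ^ 2) * d.Err =
        (Cw * Λ ^ 2 * d.N * d.Err) * d.N / Y ^ 2 := by ring
    rw [e2, div_le_iff₀ hY2, mul_comm d.N] at e1
    exact le_of_mul_le_mul_right e1 hN
  set A := W.filter (fun t : ℤ => x ≤ t ∧ (t : ℝ) ≤ x + l) with hA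
  set κ : ℤ → ℕ := fun t => ⌊((t : ℝ) - x) * Cw / d.N⌋₊ with hκ
  set m := ⌊l * Cw / d.N⌋₊ with hm
  have hmaps : ∀ t ∈ A, κ t ∈ Finset.range (m + 1) := by
    intro t ht
    have h2 := (Finset.mem_filter.1 ht).2
    rw [Finset.mem_range]
    have : κ t ≤ m := by
      apply Nat.floor_le_floor
      have h3 : (t : ℝ) - x ≤ l := by linarith
      gcongr
    omega
  have hcls : ∀ k ∈ Finset.range (m + 1), ((A.filter fun t => κ t = k).card : ℝ) ≤ Cw * H := by
    intro k _
    rcases (A.filter fun t => κ t = k).eq_empty_or_nonempty with h2 | h2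
    · rw [h2]
      simpa using mul_nonneg hCw0.le hH0
    · set B := A.filter fun t => κ t = k with hB
      set t0 := B.min' h2 with ht0
      have hBW : ∀ t ∈ B, t ∈ W := fun t ht =>
        (Finset.mem_filter.1 (Finset.mem_filter.1 ht).1).1
      have hfl : ∀ t ∈ B, (k : ℝ) ≤ ((t : ℝ) - x) * Cw / d.N ∧
          ((t : ℝ) - x) * Cw / d.N < k + 1 := by
        intro t ht
        have h3 := (Finset.mem_filter.1 ht).2
        have h4 := (Finset.mem_filter.1 (Finset.mem_filter.1 ht).1).2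
        have h5 : 0 ≤ ((t : ℝ) - x) * Cw / d.N := by
          have : 0 ≤ (t : ℝ) - x := by linarith [h4.1]
          positivity
        rw [← h3]
        exact ⟨Nat.floor_le h5, Nat.lt_floor_add_one _⟩
      have hk1 := hwin d h.good Λ Y a B t0 h.hΛ hY h.ha ?_ (fun t ht => h.hD t (hBW t ht)) h1
      · rw [h.hH]
        exact hk1
      · intro t ht
        have h6 : t0 ≤ t := Finset.min'_le _ _ ht
        refine ⟨by exact_mod_cast h6, ?_⟩
        have h7 := (hfl t ht).2
        have h8 := (hfl t0 (Finset.min'_mem _ _)).1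
        have h9 : ((t : ℝ) - t0) * Cw / d.N < 1 := by
          have : ((t : ℝ) - t0) * Cw / d.N =
              ((t : ℝ) - x) * Cw / d.N - ((t0 : ℝ) - x) * Cw / d.N := by ring
          rw [this]
          linarith
        rw [div_lt_one hN] at h9
        have h10 : (t : ℝ) - t0 ≤ d.N / Cw := by
          rw [le_div_iff₀ hCw0]
          exact h9.le
        linarith
  have hcard : (A.card : ℝ) = ∑ k ∈ Finset.range (m + 1), ((A.filter fun t => κ t = k).card : ℝ) := by
    rw [Finset.card_eq_sum_card_fiberwise (f := κ) (t := Finset.range (m + 1)) hmaps]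
    push_cast
    rfl
  rw [hcard]
  have hmle : (m : ℝ) ≤ l * Cw / d.N := Nat.floor_le (by positivity)
  calc ∑ k ∈ Finset.range (m + 1), ((A.filter fun t => κ t = k).card : ℝ)
      ≤ ∑ k ∈ Finset.range (m + 1), Cw * H := Finset.sum_le_sum hcls
    _ = ((m : ℝ) + 1) * (Cw * H) := by simp
    _ ≤ (l * Cw / d.N + 1) * (Cw * H) := by gcongr
    _ ≤ (Cw * (l / d.N) + Cw) * (Cw * H) := by
        gcongr
        exact le_of_eq (by ring)
    _ = Cw ^ 2 * H * (1 + l / d.N) := by ring

end Pool.Agent.LibSX15
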