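import Pool.Agent.LibSX15.LVE0

/-!
LibSX15, block LV (large values): definitions.  Paper proof: M6_core.md part 1 and M6_LV_v2.md (store).

Dictionary: `P` = the dyadic number `M'` (`P ≤ p < 2P`), `L` = length of the clusters, `1 ≤ L ≤ P`,
cluster `κ` = `{t : t / L = κ}` (floor division in `ℤ`), window = `{s : s0 ≤ s < s0 + n0}`, `n0 ≤ N`,
`N' = b0 N`, `z = τ / (2 p N')`.
-/

set_option autoImplicit false

namespace Pool.Agent.LibSX15

open Finset ComplexConjugate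

namespace Dat

variable (d : Dat)

/-- `z = τ / (2 p N')` -/
noncomputable def zz (p : ℕ) (τ : ℝ) : ℝ := τ / (2 * p * (d.b0 * d.N))

/-- the frequency of the chirp `p` at `τ` -/
noncomputable def nu (p : ℕ) (τ : ℝ) : ℝ :=
  d.zz p τ - d.ε / (2 * (d.b0 * d.N)) * d.q1 (d.zz p τ)

/-- the chirp `p` (without the constant) -/
noncomputable def chirp (p : ℕ) (τ : ℝ) : ℂ := (d.w (d.zz p τ) : ℂ) * ee (d.ph p τ)

/-- the quadratic form of the chirp `p` -/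
noncomputable def B (W : Finset ℤ) (c : ℤ → ℂ) (p : ℕ) : ℂ :=
  ∑ t ∈ W, ∑ s ∈ W, c t * conj (c s) * d.chirp p ((t : ℝ) - s)

/-- the sum over the cluster `κ` seen from the window at `s0` -/
noncomputable def U (W : Finset ℤ) (c : ℤ → ℂ) (L : ℕ) (s0 : ℤ) (p : ℕ) (κ : ℤ) : ℂ :=
  if d.w (d.zz p ((L * κ - s0 : ℤ) : ℝ)) = 0 then 0 else
    ∑ t ∈ W.filter (fun t => t / (L : ℤ) = κ),
      c t * ee (d.nu p ((L * κ - s0 : ℤ) : ℝ) * ((t % (L : ℤ) : ℤ) : ℝ))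

end Dat

/-- number of elements of `W` in the cluster `κ` -/
def mu (W : Finset ℤ) (L : ℕ) (κ : ℤ) : ℕ := (W.filter (fun t => t / (L : ℤ) = κ)).card

/-- the clusters which meet `W` -/
def Ks (W : Finset ℤ) (L : ℕ) : Finset ℤ := W.image (fun t => t / (L : ℤ))

/-- the energy of the weight `u` on the clusters `K`, tolerance `P` (`L κ` = left end of the cluster `κ`) -/
noncomputable def Ek (L P : ℕ) (K : Finset ℤ) (u : ℤ → ℝ) : ℝ :=
  Qe (K ×ˢ K) (fun x => u x.1 * u x.2) (fun x => (L : ℤ) * (x.1 - x.2)) P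

/-- the hypotheses of the large values theorem -/
structure LVH (d : Dat) (C0 Λ Y H : ℝ) (a : ℕ → ℂ) (W : Finset ℤ) : Prop where
  good : d.Good C0
  hΛ : 1 ≤ Λ
  hY : 0 < Y
  ha : ∀ n, ‖a n‖ ≤ Λ * d.ω n
  hW : ∀ t ∈ W, (0 : ℝ) ≤ t ∧ (t : ℝ) ≤ d.M * d.N
  hD : ∀ t ∈ W, Y ≤ ‖d.D a t‖
  hH : H = Λ ^ 2 * d.N ^ 2 / Y ^ 2

/-- the window bound: at most `C H (1 + l / N)` elements in an interval of length `l` -/
def Win (C N H : ℝ) (W : Finset ℤ) : Prop :=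
  ∀ x l : ℝ, 0 ≤ l → ((W.filter (fun t : ℤ => x ≤ t ∧ (t : ℝ) ≤ x + l)).card : ℝ) ≤
    C * H * (1 + l / N)

end Pool.Agent.LibSX15
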