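import Pool.Agent.LibSX15.Defs

/-!
LibSX15, block LV, part E (helper39): definitions for the flat energy bound.
-/

set_option autoImplicit false

namespace Pool.Agent.LibSX15

open Finset

/-- Weighted number of pairs with `|y i - y j| < P`. -/
noncomputable def Qe {ι : Type*} (I : Finset ι) (c : ι → ℝ) (y : ι → ℤ) (P : ℕ) : ℝ :=
  ∑ i ∈ I, ∑ j ∈ I, if |y i - y j| < (P : ℤ) then c i * c j else 0

/-- The energy of the weight `u` on the finite set `X` of integers with tolerance `P`: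
the sum of `u x₁ u x₃ u x₄ u x₂` over `|(x₁ - x₃) - (x₄ - x₂)| < P`. -/
noncomputable def En (P : ℕ) (X : Finset ℤ) (u : ℤ → ℝ) : ℝ :=
  Qe (X ×ˢ X) (fun p => u p.1 * u p.2) (fun p => p.1 - p.2) P

/-- The Fejér weight `(1 / 4P) |∑_{a < 4P} e(a θ)|² = ∑_v (1 - |v|/4P)₊ e(v θ)`. -/
noncomputable def Fj (P : ℕ) (θ : ℝ) : ℝ :=
  ‖∑ a ∈ range (4 * P), ee (θ * (a : ℝ))‖ ^ 2 / (4 * P)

/-- The Fejér mean `∑_v (1 - |v|/4P)₊ f(z + v)`. -/
noncomputable def Fm (P : ℕ) (f : ℤ → ℝ) (z : ℤ) : ℝ :=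
  (∑ a ∈ range (4 * P), ∑ b ∈ range (4 * P), f (z + a - b)) / (4 * P)

theorem ee_add (x y : ℝ) : ee (x + y) = ee x * ee y := by
  unfold ee
  rw [← Complex.exp_add]
  congr 1
  push_cast
  ring

@[simp] theorem ee_zero : ee 0 = 1 := by simp [ee]

@[simp] theorem norm_ee (x : ℝ) : ‖ee x‖ = 1 := by
  unfold ee
  rw [Complex.norm_exp_ofReal_mul_I]

theorem ee_neg (x : ℝ) : ee (-x) = (starRingEnd ℂ) (ee x) := by
  have h : ee x * ee (-x) = 1 := by rw [← ee_add]; simp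
  have h2 : ee x * (starRingEnd ℂ) (ee x) = 1 := by
    rw [Complex.mul_conj, Complex.normSq_eq_norm_sq]; simp
  have h0 : ee x ≠ 0 := by
    intro h0
    rw [h0, zero_mul] at h
    exact zero_ne_one h
  exact mul_left_cancel₀ h0 (h.trans h2.symm)

theorem ee_sub (x y : ℝ) : ee (x - y) = ee x * (starRingEnd ℂ) (ee y) := by
  rw [sub_eq_add_neg, ee_add, ee_neg]

@[simp] theorem ee_int (n : ℤ) : ee (n : ℝ) = 1 := by
  unfold ee
  rw [Complex.exp_eq_one_iff]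
  exact ⟨n, by push_cast; ring⟩

theorem Qe_nonneg {ι : Type*} (I : Finset ι) (c : ι → ℝ) (y : ι → ℤ) (P : ℕ)
    (hc : ∀ i ∈ I, 0 ≤ c i) : 0 ≤ Qe I c y P := by
  unfold Qe
  refine sum_nonneg fun i hi => sum_nonneg fun j hj => ?_
  split_ifs
  · exact mul_nonneg (hc i hi) (hc j hj)
  · exact le_rfl

theorem En_nonneg (P : ℕ) (X : Finset ℤ) (u : ℤ → ℝ) (hu : ∀ x ∈ X, 0 ≤ u x) :
    0 ≤ En P X u :=
  Qe_nonneg _ _ _ _ fun p hp => by
    rw [mem_product] at hp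
    exact mul_nonneg (hu _ hp.1) (hu _ hp.2)

theorem Fj_nonneg (P : ℕ) (θ : ℝ) : 0 ≤ Fj P θ := by
  unfold Fj; positivity

end Pool.Agent.LibSX15
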