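import Pool.Agent.LibSX15.LVE0

/-! LibSX15, LVE1a: block sums and widening -/

set_option autoImplicit false

namespace Pool.Agent.LibSX15

open Finset

theorem lve1a_fib {ι : Type*} (I : Finset ι) (b : ι → ℤ) (F : ℤ → ι → ℝ) :
    ∑ k ∈ I.image b, ∑ i ∈ I with b i = k, F k i = ∑ i ∈ I, F (b i) i := by
  classical
  have h1 : ∀ k ∈ I.image b, ∑ i ∈ I with b i = k, F k i = ∑ i ∈ I with b i = k, F (b i) i := by
    intro k _
    refine sum_congr rfl fun i hi => ?_
    rw [(mem_filter.1 hi).2]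
  rw [sum_congr rfl h1]
  exact sum_fiberwise_of_maps_to (fun i hi => mem_image_of_mem b hi) fun i => F (b i) i

/-- Blocks `k` of length `P`: the squares of the block sums are at most `Qe`
(two indices in the same block satisfy `|y i - y j| < P`; expand the square). -/
theorem lve1_blocks {ι : Type*} [DecidableEq ι] (I : Finset ι) (c : ι → ℝ) (y : ι → ℤ) (P : ℕ) (hP : 1 ≤ P)
    (hc : ∀ i ∈ I, 0 ≤ c i) :
    ∑ k ∈ I.image (fun i => y i / (P : ℤ)), (∑ i ∈ I with y i / (P : ℤ) = k, c i) ^ 2 ≤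
      Qe I c y P := by
  have hP' : (0 : ℤ) < P := by exact_mod_cast hP
  have h1 : ∀ k ∈ I.image (fun i => y i / (P : ℤ)), (∑ i ∈ I with y i / (P : ℤ) = k, c i) ^ 2 =
      ∑ i ∈ I with y i / (P : ℤ) = k, (fun (k : ℤ) (i : ι) =>
        c i * ∑ j ∈ I with y j / (P : ℤ) = k, c j) k i := by
    intro k _
    rw [sq, sum_mul]
  rw [sum_congr rfl h1, lve1a_fib I (fun i => y i / (P : ℤ))]
  unfold Qe
  refine sum_le_sum fun i hi => ?_
  rw [mul_sum, sum_filter]
  refine sum_le_sum fun j hj => ?_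
  split_ifs with h2 h3 h3
  · exact le_rfl
  · exfalso
    apply h3
    have e1 := Int.mul_ediv_add_emod (y i) P
    have e2 := Int.mul_ediv_add_emod (y j) P
    have b1 := Int.emod_nonneg (y i) hP'.ne'
    have b2 := Int.emod_nonneg (y j) hP'.ne'
    have b3 := Int.emod_lt_of_pos (y i) hP'
    have b4 := Int.emod_lt_of_pos (y j) hP'
    rw [h2] at e2
    rw [abs_lt]
    constructor <;> linarith
  · exact mul_nonneg (hc i hi) (hc j hj)
  · exact le_rfl

theorem lve1a_card (K : Finset ℤ) (R : ℕ) (k : ℤ) :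
    ((#(K.filter fun l => |k - l| ≤ (R : ℤ)) : ℕ) : ℝ) ≤ 2 * R + 1 := by
  have h1 : K.filter (fun l => |k - l| ≤ (R : ℤ)) ⊆ Icc (k - R) (k + R) := by
    intro l hl
    have h2 := abs_le.1 (mem_filter.1 hl).2
    rw [mem_Icc]
    constructor <;> linarith
  have h2 := card_le_card h1
  rw [Int.card_Icc] at h2
  have h3 : (k + R + 1 - (k - R)).toNat = 2 * R + 1 := by
    have : k + R + 1 - (k - R) = ((2 * R + 1 : ℕ) : ℤ) := by push_cast; ring
    rw [this, Int.toNat_natCast]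
  rw [h3] at h2
  exact_mod_cast h2

theorem lve1a_schur (K : Finset ℤ) (s : ℤ → ℝ) (R : ℕ) :
    ∑ k ∈ K, ∑ l ∈ K, (if |k - l| ≤ (R : ℤ) then s k * s l else 0) ≤
      (2 * R + 1) * ∑ k ∈ K, s k ^ 2 := by
  have h1 : ∑ k ∈ K, ∑ l ∈ K, (if |k - l| ≤ (R : ℤ) then s k ^ 2 else 0) ≤
      (2 * R + 1) * ∑ k ∈ K, s k ^ 2 := by
    rw [mul_sum]
    refine sum_le_sum fun k _ => ?_
    rw [← sum_filter, sum_const, nsmul_eq_mul]
    exact mul_le_mul_of_nonneg_right (lve1a_card K R k) (sq_nonneg _)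
  have h2 : ∑ k ∈ K, ∑ l ∈ K, (if |k - l| ≤ (R : ℤ) then s l ^ 2 else 0) =
      ∑ k ∈ K, ∑ l ∈ K, (if |k - l| ≤ (R : ℤ) then s k ^ 2 else 0) := by
    rw [sum_comm]
    refine sum_congr rfl fun k _ => sum_congr rfl fun l _ => ?_
    rw [abs_sub_comm]
  have h3 : ∑ k ∈ K, ∑ l ∈ K, (if |k - l| ≤ (R : ℤ) then s k * s l else 0) ≤
      ∑ k ∈ K, ∑ l ∈ K, ((if |k - l| ≤ (R : ℤ) then s k ^ 2 else 0) / 2 +
        (if |k - l| ≤ (R : ℤ) then s l ^ 2 else 0) / 2) := by
    refine sum_le_sum fun k _ => sum_le_sum fun l _ => ?_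
    split_ifs
    · nlinarith [sq_nonneg (s k - s l)]
    · norm_num
  refine h3.trans ?_
  have h4 : ∑ k ∈ K, ∑ l ∈ K, ((if |k - l| ≤ (R : ℤ) then s k ^ 2 else 0) / 2 +
        (if |k - l| ≤ (R : ℤ) then s l ^ 2 else 0) / 2) =
      (∑ k ∈ K, ∑ l ∈ K, (if |k - l| ≤ (R : ℤ) then s k ^ 2 else 0)) / 2 +
      (∑ k ∈ K, ∑ l ∈ K, (if |k - l| ≤ (R : ℤ) then s l ^ 2 else 0)) / 2 := by
    rw [sum_div, sum_div, ← sum_add_distrib]
    refine sum_congr rfl fun k _ => ?_
    rw [sum_div, sum_div, ← sum_add_distrib]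
  rw [h4, h2]
  linarith

theorem lve1a_sum2 {ι : Type*} (I : Finset ι) (c : ι → ℝ) (b : ι → ℤ) (R : ℕ) :
    ∑ i ∈ I, ∑ j ∈ I, (if |b i - b j| ≤ (R : ℤ) then c i * c j else 0) =
      ∑ k ∈ I.image b, ∑ l ∈ I.image b, (if |k - l| ≤ (R : ℤ) then
        (∑ i ∈ I with b i = k, c i) * (∑ j ∈ I with b j = l, c j) else 0) := by
  classical
  have h1 := lve1a_fib I b fun k i => ∑ j ∈ I, if |k - b j| ≤ (R : ℤ) then c i * c j else 0
  rw [← h1]
  refine sum_congr rfl fun k _ => ?_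
  rw [sum_comm]
  have h2 := lve1a_fib I b fun l j => ∑ i ∈ I with b i = k,
    if |k - l| ≤ (R : ℤ) then c i * c j else 0
  rw [← h2]
  refine sum_congr rfl fun l _ => ?_
  split_ifs
  · rw [sum_comm, sum_mul_sum]
  · simp

/-- Widening: tolerance `R P` against tolerance `P`
(from `lve1_decay`: `1 ≤ (1 + R^2) / (1 + ((y i - y j)/P)^2)` if `|y i - y j| < R P`; or directly with
blocks, which gives the factor `2 R + 1`). -/
theorem lve1_widen {ι : Type*} (I : Finset ι) (c : ι → ℝ) (y : ι → ℤ) (P R : ℕ) (hP : 1 ≤ P)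
    (hR : 1 ≤ R) (hc : ∀ i ∈ I, 0 ≤ c i) :
    Qe I c y (R * P) ≤ 3 * R * Qe I c y P := by
  classical
  have hP' : (0 : ℤ) < P := by exact_mod_cast hP
  have h1 : Qe I c y (R * P) ≤ ∑ i ∈ I, ∑ j ∈ I,
      (if |y i / (P : ℤ) - y j / (P : ℤ)| ≤ (R : ℤ) then c i * c j else 0) := by
    unfold Qe
    refine sum_le_sum fun i hi => sum_le_sum fun j hj => ?_
    split_ifs with h2 h3 h3
    · exact le_rfl
    · exfalso
      apply h3
      have e1 := Int.mul_ediv_add_emod (y i) P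
      have e2 := Int.mul_ediv_add_emod (y j) P
      have b1 := Int.emod_nonneg (y i) hP'.ne'
      have b2 := Int.emod_nonneg (y j) hP'.ne'
      have b3 := Int.emod_lt_of_pos (y i) hP'
      have b4 := Int.emod_lt_of_pos (y j) hP'
      rw [abs_lt] at h2
      push_cast at h2
      rw [abs_le]
      constructor
      · have h5 : (P : ℤ) * (-(R : ℤ) - 1) < P * (y i / (P : ℤ) - y j / (P : ℤ)) := by
          nlinarith
        have h6 := lt_of_mul_lt_mul_left h5 hP'.le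
        linarith
      · have h5 : (P : ℤ) * (y i / (P : ℤ) - y j / (P : ℤ)) < P * ((R : ℤ) + 1) := by
          nlinarith
        have h6 := lt_of_mul_lt_mul_left h5 hP'.le
        linarith
    · exact mul_nonneg (hc i hi) (hc j hj)
    · exact le_rfl
  rw [lve1a_sum2 I c (fun i => y i / (P : ℤ)) R] at h1
  have h2 := lve1a_schur (I.image fun i => y i / (P : ℤ))
    (fun k => ∑ i ∈ I with y i / (P : ℤ) = k, c i) R
  have h3 := lve1_blocks I c y P hP hc
  have h4 := Qe_nonneg I c y P hc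
  have hR' : (1 : ℝ) ≤ R := by exact_mod_cast hR
  refine h1.trans (h2.trans ((mul_le_mul_of_nonneg_left h3 (by positivity)).trans ?_))
  exact mul_le_mul_of_nonneg_right (by linarith) h4

end Pool.Agent.LibSX15
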