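import Pool.Agent.LibSX15.LVE1a

/-! LibSX15, LVE1b: decaying weight of the differences -/

set_option autoImplicit false

namespace Pool.Agent.LibSX15

open Finset

private theorem lve1b_icc (M : ℕ) :
    ∑ h ∈ Finset.Icc (-(M : ℤ)) M, (1 : ℝ) / (1 + (h : ℝ) ^ 2) ≤ 5 - 4 / ((M : ℝ) + 1) := by
  induction M with
  | zero => norm_num
  | succ M ih =>
    have h1 : Finset.Icc (-((M + 1 : ℕ) : ℤ)) ((M + 1 : ℕ) : ℤ) =
        insert ((M : ℤ) + 1) (insert (-((M : ℤ) + 1)) (Finset.Icc (-(M : ℤ)) M)) := by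
      ext x
      simp only [Finset.mem_Icc, Finset.mem_insert]
      push_cast
      constructor
      · rintro ⟨ha, hb⟩
        by_cases h2 : x = (M : ℤ) + 1
        · left; exact h2
        · by_cases h3 : x = -((M : ℤ) + 1)
          · right; left; exact h3
          · right; right; constructor <;> omega
      · rintro (h | h | ⟨ha, hb⟩) <;> constructor <;> omega
    rw [h1, Finset.sum_insert, Finset.sum_insert]
    · have hM : (0 : ℝ) ≤ M := Nat.cast_nonneg M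
      have h2 : (1 : ℝ) / (1 + (((M : ℤ) + 1 : ℤ) : ℝ) ^ 2) + 1 / (1 + ((-((M : ℤ) + 1) : ℤ) : ℝ) ^ 2)
          ≤ 4 / ((M : ℝ) + 1) - 4 / (((M + 1 : ℕ) : ℝ) + 1) := by
        push_cast
        have h3 : (4 : ℝ) / ((M : ℝ) + 1) - 4 / ((M : ℝ) + 1 + 1) =
            4 / (((M : ℝ) + 1) * ((M : ℝ) + 2)) := by
          field_simp
          ring
        have h4 : (1 : ℝ) / (1 + ((M : ℝ) + 1) ^ 2) + 1 / (1 + (-((M : ℝ) + 1)) ^ 2) =
            2 / (1 + ((M : ℝ) + 1) ^ 2) := by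
          rw [neg_sq]
          ring
        rw [h3, h4, div_le_div_iff₀ (by positivity) (by positivity)]
        nlinarith
      linarith
    · simp only [Finset.mem_Icc]
      intro h; omega
    · simp only [Finset.mem_insert, Finset.mem_Icc]
      intro h; omega

private theorem lve1b_fin (T : Finset ℤ) : ∑ h ∈ T, (1 : ℝ) / (1 + (h : ℝ) ^ 2) ≤ 5 := by
  obtain ⟨M, hM⟩ : ∃ M : ℕ, ∀ h ∈ T, h.natAbs ≤ M :=
    ⟨T.sup Int.natAbs, fun h hh => Finset.le_sup (f := Int.natAbs) hh⟩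
  have hsub : T ⊆ Finset.Icc (-(M : ℤ)) M := by
    intro h hh
    have := hM h hh
    rw [Finset.mem_Icc]
    omega
  have h1 := Finset.sum_le_sum_of_subset_of_nonneg (f := fun h : ℤ => (1 : ℝ) / (1 + (h : ℝ) ^ 2))
    hsub (fun h _ _ => by positivity)
  have h2 := lve1b_icc M
  have h3 : (0 : ℝ) ≤ 4 / ((M : ℝ) + 1) := by positivity
  linarith

private theorem lve1b_row (K : Finset ℤ) (k : ℤ) :
    ∑ l ∈ K, (3 : ℝ) / (1 + ((k - l : ℤ) : ℝ) ^ 2) ≤ 15 := by
  have h1 : ∑ l ∈ K, (3 : ℝ) / (1 + ((k - l : ℤ) : ℝ) ^ 2) =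
      3 * ∑ h ∈ K.image (fun l => k - l), (1 : ℝ) / (1 + (h : ℝ) ^ 2) := by
    rw [Finset.sum_image (fun a _ b _ hab => by
      have h2 : k - a = k - b := hab
      linarith), Finset.mul_sum]
    refine Finset.sum_congr rfl fun l _ => ?_
    ring
  rw [h1]
  have := lve1b_fin (K.image (fun l => k - l))
  linarith

/-- A decaying weight of the differences.  Proof: let `s k` be the block sums of `lve1_blocks`.
If `y i` is in the block `k` and `y j` in the block `l`, then `|y i - y j| ≥ (|k - l| - 1) P`, so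
`1 / (1 + ((y i - y j) / P)^2) ≤ 5 / (1 + (k - l)^2)`; and
`∑_{k,l} s k s l 5/(1+(k-l)^2) ≤ ∑_{k,l} (s k ^2 + s l^2)/2 · 5/(1+(k-l)^2) ≤ 5 (∑_h 1/(1+h^2)) ∑ s k ^2`
with `∑_{h ∈ ℤ} 1/(1+h^2) ≤ 5`.  -/
theorem lve1_decay {ι : Type*} (I : Finset ι) (c : ι → ℝ) (y : ι → ℤ) (P : ℕ) (hP : 1 ≤ P)
    (hc : ∀ i ∈ I, 0 ≤ c i) :
    ∑ i ∈ I, ∑ j ∈ I, c i * c j * (1 / (1 + (((y i - y j : ℤ) : ℝ) / P) ^ 2)) ≤
      25 * Qe I c y P := by
  classical
  have hP0 : (0 : ℝ) < P := by exact_mod_cast hP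
  have hPz : (0 : ℤ) < P := by exact_mod_cast hP
  let κ : ι → ℤ := fun i => y i / (P : ℤ)
  let K : Finset ℤ := I.image κ
  let s : ℤ → ℝ := fun k => ∑ i ∈ I with κ i = k, c i
  let F : ℤ → ℤ → ℝ := fun k l => 3 / (1 + ((k - l : ℤ) : ℝ) ^ 2)
  have hF0 : ∀ k l, 0 ≤ F k l := fun k l => by positivity
  have hFs : ∀ k l, F k l = F l k := by
    intro k l
    show 3 / (1 + ((k - l : ℤ) : ℝ) ^ 2) = 3 / (1 + ((l - k : ℤ) : ℝ) ^ 2)
    push_cast
    congr 2
    ring
  -- the pointwise bound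
  have hpt : ∀ i j, (1 : ℝ) / (1 + (((y i - y j : ℤ) : ℝ) / P) ^ 2) ≤ F (κ i) (κ j) := by
    intro i j
    show _ ≤ 3 / (1 + ((κ i - κ j : ℤ) : ℝ) ^ 2)
    have e1 := Int.mul_ediv_add_emod (y i) P
    have e2 := Int.mul_ediv_add_emod (y j) P
    have r1 := Int.emod_nonneg (y i) hPz.ne'
    have r2 := Int.emod_nonneg (y j) hPz.ne'
    have r3 := Int.emod_lt_of_pos (y i) hPz
    have r4 := Int.emod_lt_of_pos (y j) hPz
    have q1 : (P : ℤ) * (κ i - κ j) - P < y i - y j := by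
      have : (P : ℤ) * (κ i - κ j) = P * (y i / P) - P * (y j / P) := by
        show (P : ℤ) * (y i / P - y j / P) = _
        ring
      rw [this]
      linarith
    have q2 : y i - y j < (P : ℤ) * (κ i - κ j) + P := by
      have : (P : ℤ) * (κ i - κ j) = P * (y i / P) - P * (y j / P) := by
        show (P : ℤ) * (y i / P - y j / P) = _
        ring
      rw [this]
      linarith
    set x : ℝ := ((y i - y j : ℤ) : ℝ) / P with hx
    set h : ℝ := ((κ i - κ j : ℤ) : ℝ) with hh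
    have q1' : (P : ℝ) * h - P < ((y i - y j : ℤ) : ℝ) := by
      rw [hh]; exact_mod_cast q1
    have q2' : ((y i - y j : ℤ) : ℝ) < (P : ℝ) * h + P := by
      rw [hh]; exact_mod_cast q2
    have hxP : ((y i - y j : ℤ) : ℝ) = x * P := by
      rw [hx]; field_simp
    rw [hxP] at q1' q2'
    have q3 : h - x < 1 := by nlinarith
    have q4 : -1 < h - x := by nlinarith
    have q5 : (h - x) ^ 2 ≤ 1 := by nlinarith
    rw [div_le_div_iff₀ (by positivity) (by positivity)]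
    nlinarith [sq_nonneg (h - 2 * x)]
  have hsn : ∀ k, 0 ≤ s k := fun k =>
    Finset.sum_nonneg fun i hi => hc i (Finset.mem_filter.1 hi).1
  have hfib : ∀ f : ℤ → ℝ, ∑ j ∈ I, c j * f (κ j) = ∑ l ∈ K, s l * f l := by
    intro f
    rw [← Finset.sum_fiberwise_of_maps_to (t := K) (g := κ)
      (fun j hj => Finset.mem_image_of_mem κ hj)]
    refine Finset.sum_congr rfl fun l _ => ?_
    rw [Finset.sum_mul]
    refine Finset.sum_congr rfl fun j hj => ?_
    rw [(Finset.mem_filter.1 hj).2]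
  have hblk : ∑ k ∈ K, s k ^ 2 ≤ Qe I c y P := lve1_blocks I c y P hP hc
  have hrow : ∀ k, ∑ l ∈ K, F k l ≤ 15 := fun k => lve1b_row K k
  calc ∑ i ∈ I, ∑ j ∈ I, c i * c j * (1 / (1 + (((y i - y j : ℤ) : ℝ) / P) ^ 2))
      ≤ ∑ i ∈ I, ∑ j ∈ I, c i * c j * F (κ i) (κ j) := by
        refine Finset.sum_le_sum fun i hi => Finset.sum_le_sum fun j hj => ?_
        exact mul_le_mul_of_nonneg_left (hpt i j) (mul_nonneg (hc i hi) (hc j hj))
    _ = ∑ i ∈ I, c i * (∑ l ∈ K, s l * F (κ i) l) := by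
        refine Finset.sum_congr rfl fun i _ => ?_
        rw [← hfib (fun l => F (κ i) l), Finset.mul_sum]
        refine Finset.sum_congr rfl fun j _ => ?_
        ring
    _ = ∑ k ∈ K, s k * (∑ l ∈ K, s l * F k l) := hfib (fun k => ∑ l ∈ K, s l * F k l)
    _ ≤ ∑ k ∈ K, ∑ l ∈ K, (s k ^ 2 * F k l / 2 + s l ^ 2 * F k l / 2) := by
        refine Finset.sum_le_sum fun k _ => ?_
        rw [Finset.mul_sum]
        refine Finset.sum_le_sum fun l _ => ?_
        have h1 : s k * s l ≤ (s k ^ 2 + s l ^ 2) / 2 := by nlinarith [sq_nonneg (s k - s l)]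
        have h2 := mul_le_mul_of_nonneg_right h1 (hF0 k l)
        calc s k * (s l * F k l) = s k * s l * F k l := by ring
          _ ≤ (s k ^ 2 + s l ^ 2) / 2 * F k l := h2
          _ = _ := by ring
    _ = ∑ k ∈ K, s k ^ 2 * ∑ l ∈ K, F k l := by
        have h1 : ∑ k ∈ K, ∑ l ∈ K, s l ^ 2 * F k l / 2 = ∑ k ∈ K, ∑ l ∈ K, s k ^ 2 * F k l / 2 := by
          rw [Finset.sum_comm]
          refine Finset.sum_congr rfl fun k _ => Finset.sum_congr rfl fun l _ => ?_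
          rw [hFs l k]
        have h2 : ∑ k ∈ K, ∑ l ∈ K, (s k ^ 2 * F k l / 2 + s l ^ 2 * F k l / 2) =
            ∑ k ∈ K, ∑ l ∈ K, s k ^ 2 * F k l / 2 + ∑ k ∈ K, ∑ l ∈ K, s l ^ 2 * F k l / 2 := by
          simp only [Finset.sum_add_distrib]
        rw [h2, h1, ← Finset.sum_add_distrib]
        refine Finset.sum_congr rfl fun k _ => ?_
        rw [← Finset.sum_add_distrib, Finset.mul_sum]
        refine Finset.sum_congr rfl fun l _ => ?_
        ring
    _ ≤ ∑ k ∈ K, s k ^ 2 * 15 := by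
        refine Finset.sum_le_sum fun k _ => ?_
        exact mul_le_mul_of_nonneg_left (hrow k) (sq_nonneg _)
    _ = 15 * ∑ k ∈ K, s k ^ 2 := by rw [← Finset.sum_mul]; ring
    _ ≤ 25 * Qe I c y P := by
        have h0 : 0 ≤ ∑ k ∈ K, s k ^ 2 := Finset.sum_nonneg fun k _ => sq_nonneg _
        linarith

end Pool.Agent.LibSX15
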