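import Pool.Agent.LibSX15.LVE0

/-! LibSX15, LVE2a: Fejer majorant -/

set_option autoImplicit false

namespace Pool.Agent.LibSX15

open Finset

/-- For `|v| ≤ 2P` the number of `(a,b)` with `a, b < 4P`, `a - b = v` is `4P - |v| ≥ 2P`. -/
theorem lve2_fejer (P : ℕ) (hP : 1 ≤ P) (f : ℤ → ℝ) (hf : ∀ t, 0 ≤ f t) (z : ℤ) :
    ∑ t ∈ Finset.Icc (z - 2 * P) (z + 2 * P), f t ≤ 2 * Fm P f z := by
  have hPR : (0 : ℝ) < P := by exact_mod_cast hP
  set φ : ℤ × ℕ → ℕ × ℕ := fun τ => (τ.2 + (τ.1 - z).toNat, τ.2 + (z - τ.1).toNat) with hφ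
  set S : Finset (ℤ × ℕ) := Finset.Icc (z - 2 * P) (z + 2 * P) ×ˢ range (2 * P) with hS
  have hmem : ∀ τ ∈ S, (z - 2 * P ≤ τ.1 ∧ τ.1 ≤ z + 2 * P) ∧ τ.2 < 2 * P := by
    intro τ hτ
    rw [hS, mem_product, mem_Icc, mem_range] at hτ
    exact hτ
  have hinj : Set.InjOn φ (S : Set (ℤ × ℕ)) := by
    rintro ⟨t, i⟩ _ ⟨t', i'⟩ _ h
    simp only [hφ, Prod.mk.injEq] at h
    have h1 : t = t' := by omega
    subst h1
    have h2 : i = i' := by omega
    rw [h2]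
  have himg : S.image φ ⊆ range (4 * P) ×ˢ range (4 * P) := by
    intro ρ hρ
    obtain ⟨τ, hτ, rfl⟩ := mem_image.1 hρ
    obtain ⟨⟨h1, h2⟩, h3⟩ := hmem τ hτ
    rw [mem_product, mem_range, mem_range]
    simp only [hφ]
    constructor <;> omega
  have hsum : ∑ τ ∈ S, f τ.1 ≤ ∑ a ∈ range (4 * P), ∑ b ∈ range (4 * P), f (z + a - b) := by
    rw [← sum_product' (f := fun a b : ℕ => f (z + a - b))]
    calc ∑ τ ∈ S, f τ.1 = ∑ τ ∈ S, f (z + (φ τ).1 - (φ τ).2) := by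
          refine sum_congr rfl fun τ _ => ?_
          congr 1
          simp only [hφ]
          push_cast
          omega
      _ = ∑ ρ ∈ S.image φ, f (z + ρ.1 - ρ.2) :=
          (sum_image (f := fun ρ : ℕ × ℕ => f (z + ρ.1 - ρ.2)) hinj).symm
      _ ≤ _ := sum_le_sum_of_subset_of_nonneg himg fun _ _ _ => hf _
  have hleft : ∑ τ ∈ S, f τ.1 = 2 * P * ∑ t ∈ Finset.Icc (z - 2 * P) (z + 2 * P), f t := by
    rw [hS, sum_product]
    simp only [sum_const, card_range, nsmul_eq_mul]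
    rw [← mul_sum]
    push_cast
    ring
  rw [hleft] at hsum
  unfold Fm
  rw [mul_div_assoc', le_div_iff₀ (by positivity)]
  linarith

end Pool.Agent.LibSX15
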