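import Pool.Agent.LibSX15.LVE2a

/-! LibSX15, LVE2b: local majorant over the clusters -/

set_option autoImplicit false

namespace Pool.Agent.LibSX15

open Finset

/-- The clusters `[x, x+L)`, `x ∈ X`, are disjoint; `u x ≤ #(W ∩ [x,x+L))`, `f ≥ Y²` on `W`;
if `|z - x| < P` then the cluster of `x` is in `[z - 2P, z + 2P]` as `L ≤ P`.  Then `lve2_fejer`. -/
theorem lve2_local (P L : ℕ) (hL : 1 ≤ L) (hLP : L ≤ P) (X W : Finset ℤ) (u : ℤ → ℝ)
    (hsep : ∀ x ∈ X, ∀ x' ∈ X, x ≠ x' → (L : ℤ) ≤ |x - x'|)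
    (hu : ∀ x ∈ X, u x ≤ ((W.filter fun t => x ≤ t ∧ t < x + L).card : ℝ))
    (f : ℤ → ℝ) (hf : ∀ t, 0 ≤ f t) (Y2 : ℝ) (hY : 0 ≤ Y2) (hW : ∀ t ∈ W, Y2 ≤ f t) (z : ℤ) :
    (∑ x ∈ X, if |z - x| < (P : ℤ) then u x else 0) * Y2 ≤ 2 * Fm P f z := by
  refine le_trans ?_ (lve2_fejer P (hL.trans hLP) f hf z)
  rw [← sum_filter, sum_mul]
  have h1 : ∀ x ∈ X.filter (fun x => |z - x| < (P : ℤ)), u x * Y2 ≤
      ∑ t ∈ W.filter (fun t => x ≤ t ∧ t < x + L), f t := by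
    intro x hx
    calc u x * Y2 ≤ ((W.filter fun t => x ≤ t ∧ t < x + L).card : ℝ) * Y2 :=
          mul_le_mul_of_nonneg_right (hu x (mem_filter.1 hx).1) hY
      _ = ∑ t ∈ W.filter (fun t => x ≤ t ∧ t < x + L), Y2 := by
          rw [sum_const, nsmul_eq_mul]
      _ ≤ _ := sum_le_sum fun t ht => hW t (mem_filter.1 ht).1
  refine (sum_le_sum h1).trans ?_
  have hdis : ∀ x ∈ X.filter (fun x => |z - x| < (P : ℤ)), ∀ x' ∈ X.filter
      (fun x => |z - x| < (P : ℤ)), x ≠ x' → Disjoint (W.filter fun t => x ≤ t ∧ t < x + L)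
        (W.filter fun t => x' ≤ t ∧ t < x' + L) := by
    intro x hx x' hx' hne
    rw [disjoint_left]
    intro t ht ht'
    have h2 := hsep x (mem_filter.1 hx).1 x' (mem_filter.1 hx').1 hne
    have h3 := (mem_filter.1 ht).2
    have h4 := (mem_filter.1 ht').2
    rcases abs_cases (x - x') with h5 | h5 <;> omega
  rw [← sum_biUnion hdis]
  refine sum_le_sum_of_subset_of_nonneg ?_ fun _ _ _ => hf _
  intro t ht
  obtain ⟨x, hx, ht2⟩ := mem_biUnion.1 ht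
  have h3 := (mem_filter.1 ht2).2
  have h4 := (mem_filter.1 hx).2
  rw [abs_lt] at h4
  rw [mem_Icc]
  constructor <;> omega

end Pool.Agent.LibSX15
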