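import Pool.Agent.LibSX15.LVE0
import Pool.Agent.LibLargeSieve.Basic

/-! LibSX15, LVE6a: Bessel / large sieve for real points -/

set_option autoImplicit false

namespace Pool.Agent.LibSX15

open Finset

private theorem lve6a_e (ν : ℝ) (t : ℤ) : LSieve.e (t • (ν : UnitAddCircle)) = ee (ν * t) := by
  have h1 : t • (ν : UnitAddCircle) = ((t * ν : ℝ) : UnitAddCircle) := by
    rw [← AddCircle.coe_zsmul, zsmul_eq_mul]
  rw [h1, LSieve.e, AddCircle.toCircle_apply_mk, Circle.coe_exp, ee]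
  congr 1
  push_cast
  ring

/-- Bessel / large sieve for real points in an interval of length `≤ 1/2` which are `δ`-separated
(`LSieve.large_sieve` with `H = L + ⌈1/δ⌉`, `R = 1`; on the circle `‖x‖ = |x|` for `|x| ≤ 1/2`). -/
theorem lve6_bessel {ι : Type*} (S : Finset ι) (ν : ι → ℝ) (δ : ℝ) (hδ : 0 < δ) (L : ℕ) (hL : 1 ≤ L)
    (hν : ∀ i ∈ S, ∀ j ∈ S, |ν i - ν j| ≤ 1 / 2)
    (hsep : ∀ i ∈ S, ∀ j ∈ S, i ≠ j → δ ≤ |ν i - ν j|)
    (x : ℤ) (A : Finset ℤ) (hA : ∀ t ∈ A, x ≤ t ∧ t < x + L) (c : ℤ → ℂ) :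
    ∑ i ∈ S, ‖∑ t ∈ A, c t * ee (ν i * t)‖ ^ 2 ≤ 18 * (L + 1 / δ) * ∑ t ∈ A, ‖c t‖ ^ 2 := by
  classical
  set H : ℕ := L + ⌈1 / δ⌉₊ with hH
  have hH0 : 0 < H := by omega
  have hHr : (H : ℝ) = L + ⌈1 / δ⌉₊ := by
    rw [hH]
    push_cast
    ring
  have hL1 : (1 : ℝ) ≤ L := by exact_mod_cast hL
  have hceil : 1 / δ ≤ (⌈1 / δ⌉₊ : ℝ) := Nat.le_ceil _
  have hδ1 : 0 < 1 / δ := by positivity
  have hceil2 : (⌈1 / δ⌉₊ : ℝ) < 1 / δ + 1 := Nat.ceil_lt_add_one hδ1.le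
  have hHδ : 1 / (H : ℝ) ≤ δ := by
    rw [div_le_iff₀ (by positivity)]
    have h2 : 1 / δ ≤ (H : ℝ) := by linarith
    rw [div_le_iff₀ hδ] at h2
    linarith
  have hR : ∀ i ∈ S, #{j ∈ S | ‖((ν j : ℝ) : UnitAddCircle) - ((ν i : ℝ) : UnitAddCircle)‖ <
      1 / (H : ℝ)} ≤ 1 := by
    intro i hi
    rw [Finset.card_le_one]
    have key : ∀ j ∈ S, ‖((ν j : ℝ) : UnitAddCircle) - ((ν i : ℝ) : UnitAddCircle)‖ <
        1 / (H : ℝ) → j = i := by
      intro j hj hlt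
      by_contra hne
      have h1 : ‖((ν j : ℝ) : UnitAddCircle) - ((ν i : ℝ) : UnitAddCircle)‖ = |ν j - ν i| := by
        rw [← AddCircle.coe_sub]
        refine (AddCircle.norm_coe_eq_abs_iff (1 : ℝ) one_ne_zero).2 ?_
        rw [abs_one]
        exact hν j hj i hi
      rw [h1] at hlt
      have h2 := hsep j hj i hi hne
      linarith
    intro a ha b hb
    rw [Finset.mem_filter] at ha hb
    rw [key a ha.1 ha.2, key b hb.1 hb.2]
  have hs : A ⊆ Ico x (x + H) := by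
    intro t ht
    have h1 := hA t ht
    rw [Finset.mem_Ico]
    refine ⟨h1.1, ?_⟩
    rw [hH]
    push_cast
    have : (0 : ℤ) ≤ (⌈1 / δ⌉₊ : ℤ) := Int.natCast_nonneg _
    linarith [h1.2]
  have h := LSieve.large_sieve S (fun i => ((ν i : ℝ) : UnitAddCircle)) H 1 hH0 hR x A hs c
  have h1 : ∀ i, LSieve.expSum A c ((ν i : ℝ) : UnitAddCircle) = ∑ t ∈ A, c t * ee (ν i * t) := by
    intro i
    unfold LSieve.expSum
    refine Finset.sum_congr rfl fun t _ => ?_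
    rw [lve6a_e]
  simp only [h1] at h
  refine h.trans (mul_le_mul_of_nonneg_right ?_ (Finset.sum_nonneg fun t _ => by positivity))
  push_cast
  rw [hHr]
  linarith

end Pool.Agent.LibSX15
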