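import Pool.Agent.LibSX15.LVE0
import Pool.Agent.LibLargeSieve.Basic

/-! LibSX15, LVE6b: weighted large sieve over blocks -/

set_option autoImplicit false

namespace Pool.Agent.LibSX15

open Finset

private theorem lve6b_norm {x : ℝ} (hx : |x| ≤ 1 / 2) : ‖(x : UnitAddCircle)‖ = |x| := by
  rw [AddCircle.norm_coe_eq_abs_iff (p := (1 : ℝ)) one_ne_zero]
  simpa using hx

private theorem lve6b_e (n : ℤ) (t : ℝ) : LSieve.e (n • (t : UnitAddCircle)) = ee (t * n) := by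
  have h : (n • (t : UnitAddCircle)) = (((n : ℝ) * t : ℝ) : UnitAddCircle) := by
    rw [← AddCircle.coe_zsmul, zsmul_eq_mul]
  rw [h, LSieve.e_coe]
  unfold ee
  congr 1
  push_cast
  ring

/-- Weighted large sieve over blocks.  `b i` = block of `i`; two indices with
`|lam i - lam j| < 1/N` have `|b i - b j| ≤ R`.  In each block take an index with maximal `|R(lam)|`,
Cauchy-Schwarz over the blocks, and `LSieve.large_sieve` with `H = N` and multiplicity `2R+1`. -/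
theorem lve6_blocks {ι : Type*} [DecidableEq ι] (I : Finset ι) (a : ι → ℝ) (lam : ι → ℝ) (b : ι → ℤ)
    (R N : ℕ) (hN : 1 ≤ N) (ha : ∀ i ∈ I, 0 ≤ a i) (hlam : ∀ i ∈ I, |lam i| ≤ 1 / 4)
    (hb : ∀ i ∈ I, ∀ j ∈ I, |lam i - lam j| < 1 / (N : ℝ) → |b i - b j| ≤ R)
    (x : ℤ) (A : Finset ℤ) (hA : ∀ s ∈ A, x ≤ s ∧ s < x + N) (c : ℤ → ℂ)
    (hc : ∀ s ∈ A, ‖c s‖ ≤ 1) :
    (∑ i ∈ I, a i * ‖∑ s ∈ A, c s * ee (lam i * s)‖) ^ 2 ≤
      9 * (2 * R + 1) * N * (A.card : ℝ) *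
        ∑ i ∈ I, ∑ j ∈ I, if b i = b j then a i * a j else 0 := by
  classical
  set F : ι → ℝ := fun i => ‖∑ s ∈ A, c s * ee (lam i * s)‖ with hF
  have hF0 : ∀ i, 0 ≤ F i := fun i => norm_nonneg _
  set Bk : Finset ℤ := I.image b with hBk
  have hmaps : ∀ i ∈ I, b i ∈ Bk := fun i hi => mem_image_of_mem b hi
  -- representatives
  have hex : ∀ β ∈ Bk, ∃ i ∈ I, b i = β ∧ ∀ j ∈ I, b j = β → F j ≤ F i := by
    intro β hβ
    obtain ⟨i₀, hi₀, hbi₀⟩ := mem_image.1 hβ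
    obtain ⟨i, hi, hmax⟩ := exists_max_image (I.filter fun i => b i = β) F
      ⟨i₀, mem_filter.2 ⟨hi₀, hbi₀⟩⟩
    rw [mem_filter] at hi
    exact ⟨i, hi.1, hi.2, fun j hj hbj => hmax j (mem_filter.2 ⟨hj, hbj⟩)⟩
  have hne : I.Nonempty ∨ I = ∅ := (eq_empty_or_nonempty I).symm
  rcases hne with hne | hne
  swap
  · subst hne
    simp
  obtain ⟨i₀, hi₀⟩ := hne
  have hex' : ∀ β : ℤ, ∃ i ∈ I, β ∈ Bk → (b i = β ∧ ∀ j ∈ I, b j = β → F j ≤ F i) := by
    intro β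
    by_cases hβ : β ∈ Bk
    · obtain ⟨i, hi, h⟩ := hex β hβ
      exact ⟨i, hi, fun _ => h⟩
    · exact ⟨i₀, hi₀, fun h => absurd h hβ⟩
  choose rep hrepI hrepP using hex'
  set α : ℤ → ℝ := fun β => ∑ i ∈ I.filter (fun i => b i = β), a i with hα
  have hα0 : ∀ β, 0 ≤ α β := fun β => sum_nonneg fun i hi => ha i (mem_filter.1 hi).1
  have h1 : ∑ i ∈ I, a i * F i ≤ ∑ β ∈ Bk, α β * F (rep β) := by
    rw [← sum_fiberwise_of_maps_to hmaps]
    refine sum_le_sum fun β hβ => ?_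
    rw [hα]
    simp only
    rw [sum_mul]
    refine sum_le_sum fun i hi => ?_
    rw [mem_filter] at hi
    exact mul_le_mul_of_nonneg_left ((hrepP β hβ).2 i hi.1 hi.2) (ha i hi.1)
  have h10 : 0 ≤ ∑ i ∈ I, a i * F i := sum_nonneg fun i hi => mul_nonneg (ha i hi) (hF0 i)
  have h2 : (∑ β ∈ Bk, α β * F (rep β)) ^ 2 ≤
      (∑ β ∈ Bk, α β ^ 2) * ∑ β ∈ Bk, F (rep β) ^ 2 := sum_mul_sq_le_sq_mul_sq _ _ _
  have h3 : ∑ β ∈ Bk, α β ^ 2 = ∑ i ∈ I, ∑ j ∈ I, if b i = b j then a i * a j else 0 := by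
    rw [← sum_fiberwise_of_maps_to hmaps (fun i => ∑ j ∈ I, if b i = b j then a i * a j else 0)]
    refine sum_congr rfl fun β _ => ?_
    rw [hα]
    simp only
    rw [sq, sum_mul_sum]
    refine sum_congr rfl fun i hi => ?_
    rw [mem_filter] at hi
    rw [sum_filter]
    refine sum_congr rfl fun j _ => ?_
    by_cases h : b j = β
    · rw [if_pos h, if_pos (hi.2.trans h.symm)]
    · rw [if_neg h, if_neg (fun h' => h (h'.symm.trans hi.2))]
  have hN0 : (0 : ℝ) < N := by exact_mod_cast hN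
  have h4 : ∑ β ∈ Bk, F (rep β) ^ 2 ≤ 9 * ((2 * R + 1 : ℕ) : ℝ) * N * ∑ s ∈ A, ‖c s‖ ^ 2 := by
    have h5 := LSieve.large_sieve Bk (fun β => ((lam (rep β) : ℝ) : UnitAddCircle)) N (2 * R + 1)
      hN (fun β hβ => ?_) x A (fun s hs => mem_Ico.2 (hA s hs)) c
    · refine le_trans (le_of_eq ?_) h5
      refine sum_congr rfl fun β _ => ?_
      simp only [hF, LSieve.expSum]
      congr 2
      refine sum_congr rfl fun s _ => ?_
      rw [lve6b_e]
    · have hsub : Bk.filter (fun γ => ‖((lam (rep γ) : ℝ) : UnitAddCircle) -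
          ((lam (rep β) : ℝ) : UnitAddCircle)‖ < 1 / (N : ℝ)) ⊆ Icc (β - R) (β + R) := by
        intro γ hγ
        rw [mem_filter] at hγ
        obtain ⟨hγ, hlt⟩ := hγ
        have hab : |lam (rep γ) - lam (rep β)| ≤ 1 / 2 := by
          have e1 := abs_le.1 (hlam _ (hrepI γ))
          have e2 := abs_le.1 (hlam _ (hrepI β))
          rw [abs_le]
          constructor <;> linarith [e1.1, e1.2, e2.1, e2.2]
        rw [← AddCircle.coe_sub, lve6b_norm hab] at hlt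
        have h6 := hb _ (hrepI γ) _ (hrepI β) hlt
        rw [(hrepP γ hγ).1, (hrepP β hβ).1, abs_le] at h6
        rw [mem_Icc]
        constructor <;> linarith [h6.1, h6.2]
      refine (card_le_card hsub).trans ?_
      rw [Int.card_Icc]
      omega
  have h7 : ∑ s ∈ A, ‖c s‖ ^ 2 ≤ (A.card : ℝ) := by
    calc ∑ s ∈ A, ‖c s‖ ^ 2 ≤ ∑ s ∈ A, (1 : ℝ) := by
          refine sum_le_sum fun s hs => ?_
          have := hc s hs
          have h0 := norm_nonneg (c s)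
          nlinarith
      _ = (A.card : ℝ) := by simp
  have h8 : 0 ≤ ∑ i ∈ I, ∑ j ∈ I, if b i = b j then a i * a j else 0 := by
    rw [← h3]
    exact sum_nonneg fun β _ => sq_nonneg _
  calc (∑ i ∈ I, a i * F i) ^ 2 ≤ (∑ β ∈ Bk, α β * F (rep β)) ^ 2 := by
        exact pow_le_pow_left₀ h10 h1 2
    _ ≤ (∑ β ∈ Bk, α β ^ 2) * ∑ β ∈ Bk, F (rep β) ^ 2 := h2
    _ ≤ (∑ i ∈ I, ∑ j ∈ I, if b i = b j then a i * a j else 0) *
        (9 * ((2 * R + 1 : ℕ) : ℝ) * N * (A.card : ℝ)) := by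
        rw [h3]
        refine mul_le_mul_of_nonneg_left (h4.trans ?_) h8
        refine mul_le_mul_of_nonneg_left h7 (by positivity)
    _ = 9 * (2 * R + 1) * N * (A.card : ℝ) *
        ∑ i ∈ I, ∑ j ∈ I, if b i = b j then a i * a j else 0 := by
        push_cast
        ring

end Pool.Agent.LibSX15
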