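import Pool.Agent.LibSX15.LVE6b

/-! LibSX15, LVE6c: the form used in (4) -/

set_option autoImplicit false

namespace Pool.Agent.LibSX15

open Finset

/-- The form used in (4'): `y i` integers (differences of clusters), tolerance `P`:
if `|lam i - lam j| < 1/N` implies `|y i - y j| ≤ R P` then the sum is bounded by the pair count. -/
theorem lve6_main {ι : Type*} [DecidableEq ι] (I : Finset ι) (a : ι → ℝ) (lam : ι → ℝ) (y : ι → ℤ)
    (P R N : ℕ) (hP : 1 ≤ P) (hN : 1 ≤ N) (ha : ∀ i ∈ I, 0 ≤ a i) (hlam : ∀ i ∈ I, |lam i| ≤ 1 / 4)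
    (hy : ∀ i ∈ I, ∀ j ∈ I, |lam i - lam j| < 1 / (N : ℝ) → |y i - y j| ≤ R * P)
    (x : ℤ) (A : Finset ℤ) (hA : ∀ s ∈ A, x ≤ s ∧ s < x + N) (c : ℤ → ℂ)
    (hc : ∀ s ∈ A, ‖c s‖ ≤ 1) :
    (∑ i ∈ I, a i * ‖∑ s ∈ A, c s * ee (lam i * s)‖) ^ 2 ≤
      9 * (2 * R + 3) * N * (A.card : ℝ) * Qe I a y P := by
  have hP0 : (0 : ℤ) < (P : ℤ) := by exact_mod_cast hP
  have hb : ∀ i ∈ I, ∀ j ∈ I, |lam i - lam j| < 1 / (N : ℝ) → |y i / (P : ℤ) - y j / (P : ℤ)| ≤ R := by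
    intro i hi j hj h
    have h1 := abs_le.1 (hy i hi j hj h)
    have h2 : y i / (P : ℤ) ≤ y j / (P : ℤ) + R := by
      rw [← Int.add_mul_ediv_right _ _ (ne_of_gt hP0)]
      apply Int.ediv_le_ediv hP0
      linarith [h1.2]
    have h3 : y j / (P : ℤ) ≤ y i / (P : ℤ) + R := by
      rw [← Int.add_mul_ediv_right _ _ (ne_of_gt hP0)]
      apply Int.ediv_le_ediv hP0
      linarith [h1.1]
    rw [abs_le]
    constructor <;> linarith
  refine (lve6_blocks I a lam (fun i => y i / (P : ℤ)) R N hN ha hlam hb x A hA c hc).trans ?_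
  have hQ : (∑ i ∈ I, ∑ j ∈ I, if y i / (P : ℤ) = y j / (P : ℤ) then a i * a j else 0) ≤ Qe I a y P := by
    unfold Qe
    refine sum_le_sum fun i hi => sum_le_sum fun j hj => ?_
    have h0 : 0 ≤ a i * a j := mul_nonneg (ha i hi) (ha j hj)
    by_cases h : y i / (P : ℤ) = y j / (P : ℤ)
    · have h4 : |y i - y j| < (P : ℤ) := by
        have e1 := Int.emod_add_mul_ediv (y i) P
        have e2 := Int.emod_add_mul_ediv (y j) P
        have l1 := Int.emod_nonneg (y i) (ne_of_gt hP0)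
        have l2 := Int.emod_lt_of_pos (y i) hP0
        have l3 := Int.emod_nonneg (y j) (ne_of_gt hP0)
        have l4 := Int.emod_lt_of_pos (y j) hP0
        rw [h] at e1
        rw [abs_lt]
        constructor <;> linarith
      rw [if_pos h, if_pos h4]
    · rw [if_neg h]
      split_ifs
      · exact h0
      · exact le_rfl
  have hQ0 : 0 ≤ Qe I a y P := Qe_nonneg I a y P ha
  have hN0 : (0 : ℝ) ≤ N := Nat.cast_nonneg _
  have hR0 : (0 : ℝ) ≤ R := Nat.cast_nonneg _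
  have hA0 : (0 : ℝ) ≤ (A.card : ℝ) := Nat.cast_nonneg _
  have hc1 : 9 * (2 * (R : ℝ) + 1) * N * (A.card : ℝ) ≤ 9 * (2 * R + 3) * N * (A.card : ℝ) := by
    have : 0 ≤ (N : ℝ) * (A.card : ℝ) := mul_nonneg hN0 hA0
    nlinarith
  calc 9 * (2 * (R : ℝ) + 1) * N * (A.card : ℝ) *
        ∑ i ∈ I, ∑ j ∈ I, (if y i / (P : ℤ) = y j / (P : ℤ) then a i * a j else 0)
      ≤ 9 * (2 * (R : ℝ) + 1) * N * (A.card : ℝ) * Qe I a y P :=
        mul_le_mul_of_nonneg_left hQ (by positivity)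
    _ ≤ _ := mul_le_mul_of_nonneg_right hc1 hQ0

end Pool.Agent.LibSX15
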