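import Pool.Agent.LibSX15.TW3

/-! ROW TE2 (uses TW3 (`tw3`)). The difference of the phases, and the generic sum in one variable.
te2a: `D y = 2√(y(τ + y/12)) - 2√(yτ)`, `y > 0`: `D' = √(τ/y) ((1+2ε)/√(1+ε) - 1)`, `ε = y/(12τ)`, so `0 ≤ D' ≤ 2ε√(τ/y) = √(y/τ)/6`; mean value inequality on
`[y, y']` (continuity at 0), or directly: `D y = (y²/6)/(√(yτ+y²/12) + √(yτ))`.
te2: `tw3` with `s = 1/2`, `X = -(2√(mτ))`, `θ = m/2`, weights `g n * ee (-(D (m n)))`: `X n^(1/2) = -(2√(mnτ))`, `ee (m n/2) = (-1)^(m n)`, so the summand is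
the one of the claim. `‖g b ee‖ ≤ 1`; variation `≤ V + ∑ 2π |D(m(n+1)) - D(mn)| ≤ V + 2π (b-a) m √(m b/τ)/6 ≤ V + C (m P)^(3/2) τ^(-1/2)`
(`|g (n+1) u - g n v| ≤ |g (n+1) - g n| + |g n| |u - v|`, `|ee x - ee y| ≤ 2π|x - y|`).
Conditions of `tw3`: `|X| P^(1/2) = 2√(mτP)`. -/

set_option autoImplicit false

namespace Pool.Agent.LibSX15

open Finset

/-- `D y`, with `y = τ q²` -/
private theorem te2_form (τ y : ℝ) (hτ : 0 < τ) (hy : 0 ≤ y) :
    2 * Real.sqrt (y * (τ + y / 12)) - 2 * Real.sqrt (y * τ) =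
      2 * τ * (Real.sqrt (y / τ) * (Real.sqrt (1 + Real.sqrt (y / τ) ^ 2 / 12) - 1)) := by
  set q := Real.sqrt (y / τ) with hq
  have hq0 : 0 ≤ q := Real.sqrt_nonneg _
  have hy2 : y = τ * q ^ 2 := by
    rw [hq, Real.sq_sqrt (div_nonneg hy hτ.le)]
    field_simp
  have e1 : Real.sqrt (y * τ) = τ * q := by
    have : y * τ = (τ * q) ^ 2 := by rw [hy2]; ring
    rw [this, Real.sqrt_sq (by positivity)]
  have e2 : Real.sqrt (y * (τ + y / 12)) = τ * q * Real.sqrt (1 + q ^ 2 / 12) := by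
    have : y * (τ + y / 12) = (τ * q) ^ 2 * (1 + q ^ 2 / 12) := by rw [hy2]; ring
    rw [this, Real.sqrt_mul (by positivity), Real.sqrt_sq (by positivity)]
  rw [e1, e2]
  ring

theorem te2a (τ y y' : ℝ) (hτ : 0 < τ) (hy : 0 ≤ y) (hyy : y ≤ y') :
    |(2 * Real.sqrt (y' * (τ + y' / 12)) - 2 * Real.sqrt (y' * τ)) -
      (2 * Real.sqrt (y * (τ + y / 12)) - 2 * Real.sqrt (y * τ))| ≤ (y' - y) * Real.sqrt (y' / τ) := by
  rw [te2_form τ y' hτ (hy.trans hyy), te2_form τ y hτ hy]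
  set q := Real.sqrt (y / τ) with hq
  set r := Real.sqrt (y' / τ) with hr
  have hq0 : 0 ≤ q := Real.sqrt_nonneg _
  have hqr : q ≤ r := Real.sqrt_le_sqrt (div_le_div_of_nonneg_right hyy hτ.le)
  have hr0 : 0 ≤ r := hq0.trans hqr
  have hy2 : y = τ * q ^ 2 := by
    rw [hq, Real.sq_sqrt (div_nonneg hy hτ.le)]
    field_simp
  have hy2' : y' = τ * r ^ 2 := by
    rw [hr, Real.sq_sqrt (div_nonneg (hy.trans hyy) hτ.le)]
    field_simp
  set u := Real.sqrt (1 + q ^ 2 / 12) with hu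
  set w := Real.sqrt (1 + r ^ 2 / 12) with hw
  have hu2 : u ^ 2 = 1 + q ^ 2 / 12 := Real.sq_sqrt (by positivity)
  have hw2 : w ^ 2 = 1 + r ^ 2 / 12 := Real.sq_sqrt (by positivity)
  have hu1 : 1 ≤ u := by
    rw [hu, Real.one_le_sqrt]
    have : 0 ≤ q ^ 2 := sq_nonneg q
    linarith
  have huw : u ≤ w := Real.sqrt_le_sqrt (by nlinarith)
  have h1 : w - 1 ≤ r ^ 2 / 24 := by nlinarith
  have h2 : w - u ≤ (r ^ 2 - q ^ 2) / 24 := by nlinarith
  have h3 : r * (w - 1) - q * (u - 1) = (r - q) * (w - 1) + q * (w - u) := by ring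
  have h4 : 0 ≤ r * (w - 1) - q * (u - 1) := by
    rw [h3]
    have e1 := mul_nonneg (sub_nonneg.2 hqr) (by linarith : (0 : ℝ) ≤ w - 1)
    have e2 := mul_nonneg hq0 (sub_nonneg.2 huw)
    linarith
  have h5 : r * (w - 1) - q * (u - 1) ≤ (r - q) * (r ^ 2 / 24) + q * ((r ^ 2 - q ^ 2) / 24) := by
    rw [h3]
    exact add_le_add (mul_le_mul_of_nonneg_left h1 (sub_nonneg.2 hqr))
      (mul_le_mul_of_nonneg_left h2 hq0)
  have h6 : (r - q) * (r ^ 2 / 24) + q * ((r ^ 2 - q ^ 2) / 24) ≤ (r ^ 2 - q ^ 2) * r / 2 := by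
    have e1 : (r ^ 2 - q ^ 2) * r / 2 - ((r - q) * (r ^ 2 / 24) + q * ((r ^ 2 - q ^ 2) / 24)) =
        (r - q) * ((r + q) * r / 2 - r ^ 2 / 24 - q * (r + q) / 24) := by ring
    have e2 : 0 ≤ (r + q) * r / 2 - r ^ 2 / 24 - q * (r + q) / 24 := by nlinarith
    have e3 := mul_nonneg (sub_nonneg.2 hqr) e2
    linarith
  have h7 : 2 * τ * (r * (w - 1)) - 2 * τ * (q * (u - 1)) =
      2 * τ * (r * (w - 1) - q * (u - 1)) := by ring
  rw [h7, abs_of_nonneg (by positivity)]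
  calc 2 * τ * (r * (w - 1) - q * (u - 1)) ≤ 2 * τ * ((r ^ 2 - q ^ 2) * r / 2) :=
        mul_le_mul_of_nonneg_left (h5.trans h6) (by positivity)
    _ = (y' - y) * r := by
        rw [hy2, hy2']
        ring

private theorem te2_norm (x : ℝ) : ‖ee x‖ = 1 := by
  rw [ee, Complex.norm_exp_ofReal_mul_I]

private theorem te2_add (x y : ℝ) : ee (x + y) = ee x * ee y := by
  rw [ee, ee, ee, ← Complex.exp_add]
  congr 1
  push_cast
  ring

private theorem te2_lip (x y : ℝ) : ‖ee x - ee y‖ ≤ 2 * Real.pi * |x - y| := by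
  have h1 : ee x - ee y = ee y * (ee (x - y) - 1) := by
    rw [mul_sub, mul_one, ← te2_add]
    congr 2
    ring
  have h2 : ee (x - y) = Complex.exp (Complex.I * ((2 * Real.pi * (x - y) : ℝ) : ℂ)) := by
    rw [ee, mul_comm]
  rw [h1, norm_mul, te2_norm, one_mul, h2]
  refine Real.norm_exp_I_mul_ofReal_sub_one_le.trans (le_of_eq ?_)
  rw [Real.norm_eq_abs, abs_mul, abs_of_pos (by positivity)]

private theorem te2_half (k : ℕ) : ee ((k : ℝ) / 2) = (-1) ^ k := by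
  have h : ee ((k : ℝ) / 2) = Complex.exp (k * (Real.pi * Complex.I)) := by
    rw [ee]
    congr 1
    push_cast
    ring
  rw [h, Complex.exp_nat_mul, Complex.exp_pi_mul_I]

theorem te2 (A R : ℝ) (hA : 1 ≤ A) (hR : 1 ≤ R) : ∃ c C : ℝ, 0 < c ∧ c ≤ 1 ∧ 1 ≤ C ∧
    ∀ (a b m : ℕ) (P τ V : ℝ) (g : ℕ → ℂ), 1 ≤ P → P ≤ a → a ≤ b → (b : ℝ) ≤ R * P → 1 ≤ m → 0 < τ →
    P ≤ 2 * Real.sqrt (m * τ * P) → 2 * Real.sqrt (m * τ * P) ≤ P ^ A →
    (∀ n, a ≤ n → n ≤ b → ‖g n‖ ≤ 1) → ∑ n ∈ Ioo a b, ‖g (n + 1) - g n‖ ≤ V →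
    ‖∑ n ∈ Ioc a b, g n * (-1) ^ (m * n) * ee (-(2 * Real.sqrt (((m * n : ℕ) : ℝ) * (τ + ((m * n : ℕ) : ℝ) / 12))))‖ ≤
      C * P ^ (1 - c) * (1 + V + (m * P) ^ (3 / 2 : ℝ) / τ ^ (1 / 2 : ℝ)) := by
  obtain ⟨c, C, hc0, hc1, hC, htw⟩ := tw3 (1 / 2) (by
    intro n hn
    have h1 : ((2 * n : ℕ) : ℝ) = ((1 : ℕ) : ℝ) := by
      push_cast
      linarith
    have h2 : 2 * n = 1 := by exact_mod_cast h1
    omega) A R hA hR
  refine ⟨c, C * (8 * R ^ 2) + 1, hc0, hc1, by nlinarith [mul_pos hC (by positivity : (0:ℝ) < 8 * R ^ 2)], ?_⟩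
  intro a b m P τ V g hP hPa hab hb hm hτ hX1 hX2 hg hV
  have hP0 : 0 < P := by linarith
  have hmR : (1 : ℝ) ≤ m := by exact_mod_cast hm
  have hm0 : (0 : ℝ) < m := by linarith
  set D : ℝ → ℝ := fun y => 2 * Real.sqrt (y * (τ + y / 12)) - 2 * Real.sqrt (y * τ) with hD
  set X : ℝ := -(2 * Real.sqrt (m * τ)) with hX
  have hXabs : |X| * P ^ (1 / 2 : ℝ) = 2 * Real.sqrt (m * τ * P) := by
    rw [hX, abs_neg, abs_of_nonneg (by positivity), ← Real.sqrt_eq_rpow,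
      Real.sqrt_mul (by positivity) P]
    ring
  set G : ℕ → ℂ := fun n => g n * ee (-(D ((m * n : ℕ) : ℝ))) with hG
  have hterm : ∀ n : ℕ, g n * (-1) ^ (m * n) *
      ee (-(2 * Real.sqrt (((m * n : ℕ) : ℝ) * (τ + ((m * n : ℕ) : ℝ) / 12)))) =
      ee (X * (n : ℝ) ^ (1 / 2 : ℝ) + (m : ℝ) / 2 * n) * G n := by
    intro n
    have h1 : X * (n : ℝ) ^ (1 / 2 : ℝ) = -(2 * Real.sqrt (((m * n : ℕ) : ℝ) * τ)) := by
      rw [hX, ← Real.sqrt_eq_rpow]
      have h2 : ((m * n : ℕ) : ℝ) * τ = m * τ * n := by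
        push_cast
        ring
      rw [h2, Real.sqrt_mul (by positivity) (n : ℝ)]
      ring
    have h2 : (m : ℝ) / 2 * n = ((m * n : ℕ) : ℝ) / 2 := by
      push_cast
      ring
    rw [te2_add, h1, h2, te2_half, hG]
    have h3 : -(2 * Real.sqrt (((m * n : ℕ) : ℝ) * (τ + ((m * n : ℕ) : ℝ) / 12))) =
        -(2 * Real.sqrt (((m * n : ℕ) : ℝ) * τ)) + -(D ((m * n : ℕ) : ℝ)) := by
      simp only [hD]
      ring
    rw [h3, te2_add]
    ring
  set Y : ℝ := (m * P) ^ (3 / 2 : ℝ) / τ ^ (1 / 2 : ℝ) with hY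
  have hmP : 0 < m * P := by positivity
  have hY2 : Y = m * P * Real.sqrt (m * P / τ) := by
    rw [hY, Real.sqrt_div hmP.le, Real.sqrt_eq_rpow, Real.sqrt_eq_rpow, mul_div_assoc']
    congr 1
    have h1 : (3 / 2 : ℝ) = 1 + 1 / 2 := by norm_num
    rw [h1, Real.rpow_add hmP, Real.rpow_one]
  have hY0 : 0 ≤ Y := by
    rw [hY2]
    positivity
  have hV0 : 0 ≤ V := (Finset.sum_nonneg fun n _ => norm_nonneg _).trans hV
  -- the variation
  have hvar : ∑ i ∈ Ioo a b, ‖G (i + 1) - G i‖ ≤ V + 8 * R ^ 2 * Y := by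
    have h1 : ∀ i ∈ Ioo a b, ‖G (i + 1) - G i‖ ≤ ‖g (i + 1) - g i‖ +
        2 * Real.pi * (m * Real.sqrt (m * (R * P) / τ)) := by
      intro i hi
      rw [Finset.mem_Ioo] at hi
      have e1 : G (i + 1) - G i = (g (i + 1) - g i) * ee (-(D ((m * (i + 1) : ℕ) : ℝ))) +
          g i * (ee (-(D ((m * (i + 1) : ℕ) : ℝ))) - ee (-(D ((m * i : ℕ) : ℝ)))) := by
        simp only [hG]
        ring
      rw [e1]
      refine (norm_add_le _ _).trans (add_le_add ?_ ?_)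
      · rw [norm_mul, te2_norm, mul_one]
      · rw [norm_mul]
        have e2 : ‖g i‖ ≤ 1 := hg i hi.1.le hi.2.le
        have e3 := te2_lip (-(D ((m * (i + 1) : ℕ) : ℝ))) (-(D ((m * i : ℕ) : ℝ)))
        have e4 : |-(D ((m * (i + 1) : ℕ) : ℝ)) - -(D ((m * i : ℕ) : ℝ))| ≤
            m * Real.sqrt (m * (R * P) / τ) := by
          have e5 : -(D ((m * (i + 1) : ℕ) : ℝ)) - -(D ((m * i : ℕ) : ℝ)) =
              -(D ((m * (i + 1) : ℕ) : ℝ) - D ((m * i : ℕ) : ℝ)) := by ring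
          rw [e5, abs_neg]
          have e6 : ((m * i : ℕ) : ℝ) ≤ ((m * (i + 1) : ℕ) : ℝ) := by
            exact_mod_cast Nat.mul_le_mul_left m (Nat.le_succ i)
          have e7 := te2a τ ((m * i : ℕ) : ℝ) ((m * (i + 1) : ℕ) : ℝ) hτ (by positivity) e6
          refine le_trans e7 ?_
          have e8 : ((m * (i + 1) : ℕ) : ℝ) - ((m * i : ℕ) : ℝ) = m := by
            push_cast
            ring
          rw [e8]
          refine mul_le_mul_of_nonneg_left (Real.sqrt_le_sqrt ?_) hm0.le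
          refine div_le_div_of_nonneg_right ?_ hτ.le
          push_cast
          refine mul_le_mul_of_nonneg_left ?_ hm0.le
          have e9 : ((i + 1 : ℕ) : ℝ) ≤ b := by exact_mod_cast hi.2
          push_cast at e9
          linarith
        calc ‖g i‖ * ‖ee (-(D ((m * (i + 1) : ℕ) : ℝ))) - ee (-(D ((m * i : ℕ) : ℝ)))‖
            ≤ 1 * (2 * Real.pi * (m * Real.sqrt (m * (R * P) / τ))) :=
              mul_le_mul e2 (e3.trans (mul_le_mul_of_nonneg_left e4 (by positivity)))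
                (norm_nonneg _) zero_le_one
          _ = _ := one_mul _
    refine (Finset.sum_le_sum h1).trans ?_
    rw [Finset.sum_add_distrib, Finset.sum_const, nsmul_eq_mul]
    refine add_le_add hV ?_
    have h2 : ((Ioo a b).card : ℝ) ≤ R * P := by
      have : (Ioo a b).card ≤ b := by
        rw [Nat.card_Ioo]
        omega
      exact le_trans (by exact_mod_cast this) hb
    have h3 : Real.sqrt (m * (R * P) / τ) ≤ R * Real.sqrt (m * P / τ) := by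
      have e1 : m * (R * P) / τ = R * (m * P / τ) := by ring
      rw [e1, Real.sqrt_mul (by linarith)]
      refine mul_le_mul_of_nonneg_right ?_ (Real.sqrt_nonneg _)
      rw [Real.sqrt_le_left (by linarith)]
      nlinarith
    have h4 : 2 * Real.pi ≤ 8 := by
      have := Real.pi_lt_d2
      linarith
    have h5 : 0 ≤ (m : ℝ) * Real.sqrt (m * (R * P) / τ) := by positivity
    calc ((Ioo a b).card : ℝ) * (2 * Real.pi * (m * Real.sqrt (m * (R * P) / τ)))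
        ≤ (R * P) * (8 * (m * (R * Real.sqrt (m * P / τ)))) := by
          refine mul_le_mul h2 ?_ (by positivity) (by positivity)
          exact mul_le_mul h4 (mul_le_mul_of_nonneg_left h3 hm0.le) h5 (by norm_num)
      _ = 8 * R ^ 2 * Y := by
          rw [hY2]
          ring
  have hGb : ‖G b‖ ≤ 1 := by
    simp only [hG]
    rw [norm_mul, te2_norm, mul_one]
    exact hg b hab le_rfl
  have hmain := htw a b P X ((m : ℝ) / 2) 1 (V + 8 * R ^ 2 * Y) G hP hPa hab hb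
    (by rw [hXabs]; exact hX1) (by rw [hXabs]; exact hX2) hGb hvar
  rw [Finset.sum_congr rfl fun n _ => hterm n]
  refine hmain.trans ?_
  have hPc : 0 < P ^ (1 - c) := Real.rpow_pos_of_pos hP0 _
  have h8 : 1 ≤ 8 * R ^ 2 := by nlinarith
  have h9 : 1 + (V + 8 * R ^ 2 * Y) ≤ 8 * R ^ 2 * (1 + V + Y) := by nlinarith
  calc C * P ^ (1 - c) * (1 + (V + 8 * R ^ 2 * Y))
      ≤ C * P ^ (1 - c) * (8 * R ^ 2 * (1 + V + Y)) :=
        mul_le_mul_of_nonneg_left h9 (by positivity)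
    _ = (C * (8 * R ^ 2)) * P ^ (1 - c) * (1 + V + Y) := by ring
    _ ≤ (C * (8 * R ^ 2) + 1) * P ^ (1 - c) * (1 + V + Y) := by
        have : 0 ≤ P ^ (1 - c) * (1 + V + Y) := by positivity
        nlinarith

end Pool.Agent.LibSX15
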