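import Pool.Agent.LibSX15.AS0
import Pool.Agent.LibMR57.V05b

/-!
LibSX15, block TW (helper99): the twelfth moment.  Definitions.
-/

set_option autoImplicit false

namespace Pool.Agent.LibSX15

open Finset

/-- additional properties of the data of the kernel theorem -/
structure Dat.Extra (d : Dat) (C0 : ℝ) : Prop where
  g1 : ∀ m : ℤ, 1 ≤ m → d.γ m = d.γ 1
  g2 : ∀ m : ℤ, m ≤ -1 → d.γ m = d.γ (-1)
  q0 : ∀ x, |d.q x| ≤ C0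

/-- the kernel theorem with the additional properties -/
def KPX (C0 : ℝ) : Prop :=
  1 ≤ C0 ∧ ∀ (N M u : ℝ), 2 ≤ N → 1 ≤ M → M ≤ N → 1 ≤ u → N ≤ u ^ 2 / 100 →
    ∃ d : Dat, d.Good C0 ∧ d.Extra C0 ∧ d.N = N ∧ d.M = M ∧ d.ε = 3 * N ^ 2 / u ^ 2 ∧
      d.Err = C0 * (1 + M * (3 * N ^ 2 / u ^ 2)) ^ 2 * (1 + Real.log M) ∧
      (∀ n : ℕ, N / 2000 ≤ n → (n : ℝ) ≤ N → n ∈ d.S ∧ d.ω n = 1) ∧
      (∀ n ∈ d.S, d.ξ n = zxi N u n)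

/-- Halász with the van der Corput bound for the sum of the chirps, as a proposition:
`μ` = lower bound for the exponent of `M0`, `c` = the saving -/
def HPX (C0 μ c C : ℝ) : Prop :=
  0 < c ∧ 1 ≤ C ∧ ∀ (d : Dat), d.Good C0 → d.Extra C0 → d.M ≤ d.N →
    ∀ (Λ Y H M0 : ℝ) (a : ℕ → ℂ) (W : Finset ℤ), 1 ≤ Λ → 0 < Y → (∀ n, ‖a n‖ ≤ Λ * d.ω n) →
    (∀ t ∈ W, (0 : ℝ) ≤ t ∧ (t : ℝ) ≤ d.M * d.N) → (∀ t ∈ W, Y ≤ ‖d.D a t‖) →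
    H = Λ ^ 2 * d.N ^ 2 / Y ^ 2 → d.N ^ μ ≤ M0 → M0 ≤ d.M →
    C * H * (Real.sqrt (d.N * M0) + (1 + d.ε * d.M) * Real.sqrt (d.N * d.M) * M0 ^ (-c) + d.Err) ≤ d.N →
    (W.card : ℝ) ≤ C * H

end Pool.Agent.LibSX15
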