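import Pool.Agent.LibMR57.V05b

/-! ROW TW1 (only Mathlib and `MR57.Dk`). Derivatives of `x ↦ X x^s + θ x`.
tw1a: induction on `k` (generalizing `c`, `s`): the derivative of `c * x^s` on `S ⊆ (0,∞)` is `(c*s) * x^(s-1)`
(`Real.hasDerivAt_rpow_const`), and `(∏_{i<k+1} (s - i)) = s * ∏_{i<k} (s - 1 - i)` (`Finset.prod_range_succ'`),
`s - (k+1) = (s - 1) - k`.
tw1b: `k ≥ 2`: first derivative `X s x^(s-1) + θ`, second `X s (s-1) x^(s-2)`, then tw1a with `k - 2`. -/

set_option autoImplicit false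

namespace Pool.Agent.LibSX15

open Finset

private theorem tw1_prod (k : ℕ) (s : ℝ) :
    ∏ i ∈ range (k + 1), (s - i) = s * ∏ i ∈ range k, (s - 1 - i) := by
  rw [prod_range_succ', Nat.cast_zero, sub_zero, mul_comm]
  congr 1
  refine prod_congr rfl fun i _ => ?_
  push_cast
  ring

theorem tw1a (S : Set ℝ) (hS : ∀ x ∈ S, 0 < x) (lo hi : ℝ) : ∀ (k : ℕ) (c s : ℝ),
    (∀ x ∈ S, lo ≤ c * (∏ i ∈ range k, (s - i)) * x ^ (s - k) ∧
      c * (∏ i ∈ range k, (s - i)) * x ^ (s - k) ≤ hi) →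
    MR57.Dk k lo hi (fun x => c * x ^ s) S := by
  intro k
  induction k with
  | zero =>
    intro c s h x hx
    have := h x hx
    simpa using this
  | succ k ih =>
    intro c s h
    refine ⟨fun x => (c * s) * x ^ (s - 1), ?_, ih (c * s) (s - 1) ?_⟩
    · intro x hx
      have h1 := (Real.hasDerivAt_rpow_const (p := s) (Or.inl (hS x hx).ne')).const_mul c
      refine (h1.hasDerivWithinAt).congr_deriv ?_
      ring
    · intro x hx
      have key : c * s * (∏ i ∈ range k, (s - 1 - i)) * x ^ (s - 1 - k) =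
          c * (∏ i ∈ range (k + 1), (s - i)) * x ^ (s - ((k + 1 : ℕ) : ℝ)) := by
        rw [tw1_prod]
        have h2 : s - ((k + 1 : ℕ) : ℝ) = s - 1 - k := by
          push_cast
          ring
        rw [h2]
        ring
      rw [key]
      exact h x hx

theorem tw1b (S : Set ℝ) (hS : ∀ x ∈ S, 0 < x) (lo hi : ℝ) (k : ℕ) (hk : 2 ≤ k) (c s θ : ℝ)
    (h : ∀ x ∈ S, lo ≤ c * (∏ i ∈ range k, (s - i)) * x ^ (s - k) ∧
      c * (∏ i ∈ range k, (s - i)) * x ^ (s - k) ≤ hi) :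
    MR57.Dk k lo hi (fun x => c * x ^ s + θ * x) S := by
  obtain ⟨m, rfl⟩ : ∃ m, k = m + 2 := ⟨k - 2, by omega⟩
  refine ⟨fun x => (c * s) * x ^ (s - 1) + θ, ?_, fun x => (c * s * (s - 1)) * x ^ (s - 1 - 1),
    ?_, tw1a S hS lo hi m (c * s * (s - 1)) (s - 1 - 1) ?_⟩
  · intro x hx
    have h1 := (Real.hasDerivAt_rpow_const (p := s) (Or.inl (hS x hx).ne')).const_mul c
    have h2 := (hasDerivAt_id x).const_mul θ
    refine ((h1.add h2).hasDerivWithinAt).congr_deriv ?_
    ring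
  · intro x hx
    have h1 := (Real.hasDerivAt_rpow_const (p := s - 1)
      (Or.inl (hS x hx).ne')).const_mul (c * s)
    refine ((h1.add_const θ).hasDerivWithinAt).congr_deriv ?_
    ring
  · intro x hx
    have key : c * s * (s - 1) * (∏ i ∈ range m, (s - 1 - 1 - i)) * x ^ (s - 1 - 1 - m) =
        c * (∏ i ∈ range (m + 2), (s - i)) * x ^ (s - ((m + 2 : ℕ) : ℝ)) := by
      rw [tw1_prod, tw1_prod]
      have h2 : s - ((m + 2 : ℕ) : ℝ) = s - 1 - 1 - m := by
        push_cast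
        ring
      rw [h2]
      ring
    rw [key]
    exact h x hx

end Pool.Agent.LibSX15
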