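import Pool.Agent.LibSX15.TW1
import Pool.Agent.LibMR57.V04

/-! ROW TW2 (uses TW1 and `MR57.vdc_k`; model: `MR57.v05b_one` and `MR57.weyl` in LibMR57/V05b.lean, copy their proofs).
The power saving for `∑ e(X n^s + θ n)`, `s` not a natural number.
tw2a (one value of `k ≥ 2`): `vdc_k k _ (1/4) A`, with `P = |∏_{i<k} (s - i)| > 0`, `lam = D |X| N^(s-k)`, where `D = P * min(1, 3^(s-k))` and `A = max/min`
of `x^(s-k)/N^(s-k)` on `N ≤ x ≤ 3N`; the sign of `X ∏ (s - i)` is changed by `MR57.v05b_norm` (conjugation).  `D N^(-3/2) ≤ lam ≤ D N^(-1/2)`, and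
`N^(-2 + 1/4) ≤ lam ≤ N^(-1/4)` for `N ≥ N₀`; `N < N₀` trivial bound.
tw2 (all `k`): as in `weyl`: `|X| N^s = N^α`, `1/2 ≤ α ≤ A`, `k = ⌊α + 1/2⌋₊ + 1`. -/

set_option autoImplicit false

namespace Pool.Agent.LibSX15

open Finset

private theorem tw2_trivial (N a b : ℕ) (hb : b ≤ a + N) (f : ℕ → ℝ) :
    ‖∑ n ∈ Ioc a b, MR57.e1 (f n)‖ ≤ N := by
  calc _ ≤ ∑ n ∈ Ioc a b, ‖MR57.e1 (f n)‖ := norm_sum_le _ _
    _ = ∑ n ∈ Ioc a b, (1 : ℝ) := Finset.sum_congr rfl fun n _ => MR57.v01_norm_e1 _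
    _ = ((b - a : ℕ) : ℝ) := by simp
    _ ≤ N := by
        have : b - a ≤ N := by omega
        exact_mod_cast this

private theorem tw2_rpow {y q : ℝ} (h1 : 1 ≤ y) (h2 : y ≤ 2) :
    min 1 ((2 : ℝ) ^ q) ≤ y ^ q ∧ y ^ q ≤ max 1 ((2 : ℝ) ^ q) := by
  have hy0 : 0 < y := by linarith
  rcases le_total 0 q with hq | hq
  · constructor
    · exact (min_le_left _ _).trans (Real.one_le_rpow h1 hq)
    · exact (Real.rpow_le_rpow hy0.le h2 hq).trans (le_max_right _ _)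
  · constructor
    · exact (min_le_right _ _).trans (Real.rpow_le_rpow_of_nonpos hy0 h2 hq)
    · refine le_trans ?_ (le_max_left _ _)
      have := Real.rpow_le_rpow_of_nonpos one_pos h1 hq
      simpa using this

theorem tw2a (s : ℝ) (hs : ∀ n : ℕ, s ≠ n) (k : ℕ) (hk : 2 ≤ k) : ∃ c C : ℝ, 0 < c ∧ c ≤ 1 ∧ 0 < C ∧
    ∀ (N a b : ℕ) (X θ : ℝ), 1 ≤ N → N ≤ a → a ≤ b → b ≤ 2 * N →
    (N : ℝ) ^ ((k : ℝ) - 3 / 2) ≤ |X| * (N : ℝ) ^ s → |X| * (N : ℝ) ^ s ≤ (N : ℝ) ^ ((k : ℝ) - 1 / 2) →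
    ‖∑ n ∈ Ioc a b, MR57.e1 (X * (n : ℝ) ^ s + θ * n)‖ ≤ C * (N : ℝ) ^ (1 - c) := by
  set q : ℝ := s - k with hq
  set m : ℝ := min 1 ((2 : ℝ) ^ q) with hm
  set Mx : ℝ := max 1 ((2 : ℝ) ^ q) with hMx
  have hm0 : 0 < m := lt_min one_pos (Real.rpow_pos_of_pos (by norm_num) _)
  have hm1 : m ≤ 1 := min_le_left _ _
  have hM1 : 1 ≤ Mx := le_max_left _ _
  set P0 : ℝ := ∏ i ∈ range k, (s - i) with hP0
  have hP0ne : P0 ≠ 0 := Finset.prod_ne_zero_iff.2 fun i _ => sub_ne_zero.2 (hs i)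
  have hP : 0 < |P0| := abs_pos.2 hP0ne
  have hA : 1 ≤ Mx / m := by
    rw [le_div_iff₀ hm0]
    linarith
  obtain ⟨c, C, hc, hC, h⟩ := MR57.vdc_k k hk (1 / 4) (Mx / m) (by norm_num) (by norm_num) hA
  set D : ℝ := |P0| * m with hD
  have hDpos : 0 < D := mul_pos hP hm0
  obtain ⟨N₀, hN₀⟩ : ∃ N₀ : ℕ, 1 ≤ N₀ ∧ ∀ N : ℕ, N₀ ≤ N → 1 / D ≤ (N : ℝ) ^ (1 / 4 : ℝ) ∧
      D ≤ (N : ℝ) ^ (1 / 4 : ℝ) := by
    have ht : Filter.Tendsto (fun N : ℕ => (N : ℝ) ^ (1 / 4 : ℝ)) Filter.atTop Filter.atTop :=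
      (tendsto_rpow_atTop (by norm_num)).comp tendsto_natCast_atTop_atTop
    obtain ⟨N₁, hN₁⟩ := Filter.eventually_atTop.1
      ((ht.eventually_ge_atTop (1 / D)).and (ht.eventually_ge_atTop D))
    exact ⟨max N₁ 1, le_max_right _ _, fun N hN => hN₁ N (le_trans (le_max_left _ _) hN)⟩
  refine ⟨min c 1, C + N₀, lt_min hc one_pos, min_le_right _ _, by positivity, ?_⟩
  intro N a b X θ hN hNa hab hb hu1 hu2
  have hNR : (1 : ℝ) ≤ N := by exact_mod_cast hN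
  have hN0 : (0 : ℝ) < N := by linarith
  have hmono : (N : ℝ) ^ (1 - c) ≤ (N : ℝ) ^ (1 - min c 1) :=
    Real.rpow_le_rpow_of_exponent_le hNR (by have := min_le_left c 1; linarith)
  have hone : (1 : ℝ) ≤ (N : ℝ) ^ (1 - min c 1) :=
    Real.one_le_rpow hNR (by have := min_le_right c 1; linarith)
  by_cases hNN : N₀ ≤ N
  · obtain ⟨hn1, hn2⟩ := hN₀.2 N hNN
    have hq4 : 0 < (N : ℝ) ^ (1 / 4 : ℝ) := by positivity
    -- the size of `|X| N^q`
    have hXq : |X| * (N : ℝ) ^ q = |X| * (N : ℝ) ^ s * (N : ℝ) ^ (-(k : ℝ)) := by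
      rw [hq, mul_assoc, ← Real.rpow_add hN0]
      congr 2
    have hXq1 : (N : ℝ) ^ (-(3 / 2) : ℝ) ≤ |X| * (N : ℝ) ^ q := by
      rw [hXq]
      have h1 : (N : ℝ) ^ (-(3 / 2) : ℝ) = (N : ℝ) ^ ((k : ℝ) - 3 / 2) * (N : ℝ) ^ (-(k : ℝ)) := by
        rw [← Real.rpow_add hN0]
        congr 1
        ring
      rw [h1]
      exact mul_le_mul_of_nonneg_right hu1 (by positivity)
    have hXq2 : |X| * (N : ℝ) ^ q ≤ (N : ℝ) ^ (-(1 / 2) : ℝ) := by
      rw [hXq]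
      have h1 : (N : ℝ) ^ (-(1 / 2) : ℝ) = (N : ℝ) ^ ((k : ℝ) - 1 / 2) * (N : ℝ) ^ (-(k : ℝ)) := by
        rw [← Real.rpow_add hN0]
        congr 1
        ring
      rw [h1]
      exact mul_le_mul_of_nonneg_right hu2 (by positivity)
    set lam : ℝ := D * (|X| * (N : ℝ) ^ q) with hlam
    have hlam1 : (N : ℝ) ^ (-2 + 1 / 4 : ℝ) ≤ lam := by
      have e1' : (N : ℝ) ^ (-2 + 1 / 4 : ℝ) =
          ((N : ℝ) ^ (1 / 4 : ℝ))⁻¹ * (N : ℝ) ^ (-(3 / 2) : ℝ) := by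
        rw [← Real.rpow_neg hN0.le, ← Real.rpow_add hN0]
        congr 1
        ring
      rw [e1', hlam]
      have h1 : ((N : ℝ) ^ (1 / 4 : ℝ))⁻¹ ≤ D := by
        rw [inv_le_comm₀ hq4 hDpos]
        simpa using hn1
      exact mul_le_mul h1 hXq1 (by positivity) hDpos.le
    have hlam2 : lam ≤ (N : ℝ) ^ (-(1 / 4) : ℝ) := by
      have e1' : (N : ℝ) ^ (-(1 / 4) : ℝ) = (N : ℝ) ^ (1 / 4 : ℝ) * (N : ℝ) ^ (-(1 / 2) : ℝ) := by
        rw [← Real.rpow_add hN0]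
        congr 1
        ring
      rw [e1', hlam]
      exact mul_le_mul hn2 hXq2 (by positivity) hq4.le
    -- the derivative bounds
    have hset : ∀ x ∈ Set.Icc (a : ℝ) b, 0 < x := by
      intro x hx
      have : (N : ℝ) ≤ a := by exact_mod_cast hNa
      have := hx.1
      linarith
    have hbd : ∀ x ∈ Set.Icc (a : ℝ) b, lam ≤ |X| * |P0| * x ^ q ∧
        |X| * |P0| * x ^ q ≤ Mx / m * lam := by
      intro x hx
      have hx0 := hset x hx
      have hx1 : 1 ≤ x / N := by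
        rw [le_div_iff₀ hN0]
        have : (N : ℝ) ≤ a := by exact_mod_cast hNa
        have := hx.1
        linarith
      have hx2 : x / N ≤ 2 := by
        rw [div_le_iff₀ hN0]
        have : (b : ℝ) ≤ 2 * N := by exact_mod_cast hb
        have := hx.2
        linarith
      obtain ⟨r1, r2⟩ := tw2_rpow (q := q) hx1 hx2
      have e2 : x ^ q = (N : ℝ) ^ q * (x / N) ^ q := by
        rw [← Real.mul_rpow hN0.le (by positivity)]
        congr 1
        field_simp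
      rw [e2]
      have e3 : |X| * |P0| * ((N : ℝ) ^ q * (x / N) ^ q) =
          |P0| * (|X| * (N : ℝ) ^ q) * (x / N) ^ q := by ring
      rw [e3]
      have e4 : 0 ≤ |P0| * (|X| * (N : ℝ) ^ q) := by positivity
      constructor
      · calc lam = |P0| * (|X| * (N : ℝ) ^ q) * m := by rw [hlam, hD]; ring
          _ ≤ _ := mul_le_mul_of_nonneg_left r1 e4
      · calc |P0| * (|X| * (N : ℝ) ^ q) * (x / N) ^ q ≤ |P0| * (|X| * (N : ℝ) ^ q) * Mx :=
              mul_le_mul_of_nonneg_left r2 e4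
          _ = Mx / m * lam := by
              rw [hlam, hD]
              field_simp
    have hmain : ∀ ε : ℝ, (ε = 1 ∨ ε = -1) → ε * (X * P0) = |X| * |P0| →
        ‖∑ n ∈ Ioc a b, MR57.e1 (X * (n : ℝ) ^ s + θ * n)‖ ≤ C * (N : ℝ) ^ (1 - c) := by
      intro ε hε1 hε
      have hDk := tw1b (Set.Icc (a : ℝ) b) hset lam (Mx / m * lam) k hk (ε * X) s (ε * θ) (by
        intro x hx
        have e5 : ε * X * (∏ i ∈ range k, (s - i)) * x ^ (s - k) = |X| * |P0| * x ^ q := by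
          rw [← hε, ← hP0, ← hq]
          ring
        rw [e5]
        exact hbd x hx)
      have h2 := h N a b _ lam hN hab (by omega) (by simpa using hlam1) (by simpa using hlam2) hDk
      rcases hε1 with rfl | rfl
      · simpa using h2
      · rw [← MR57.v05b_norm a b (fun n : ℕ => X * (n : ℝ) ^ s + θ * n)]
        refine le_trans (le_of_eq ?_) h2
        congr 1
        refine Finset.sum_congr rfl fun n _ => ?_
        congr 1
        ring
    have hES : ‖∑ n ∈ Ioc a b, MR57.e1 (X * (n : ℝ) ^ s + θ * n)‖ ≤ C * (N : ℝ) ^ (1 - c) := by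
      rcases le_total 0 (X * P0) with hu | hu
      · exact hmain 1 (Or.inl rfl) (by rw [one_mul, ← abs_mul, abs_of_nonneg hu])
      · exact hmain (-1) (Or.inr rfl) (by rw [← abs_mul, abs_of_nonpos hu]; ring)
    calc _ ≤ C * (N : ℝ) ^ (1 - c) := hES
      _ ≤ C * (N : ℝ) ^ (1 - min c 1) := mul_le_mul_of_nonneg_left hmono hC.le
      _ ≤ (C + N₀) * (N : ℝ) ^ (1 - min c 1) := by
          apply mul_le_mul_of_nonneg_right _ (by positivity)
          have : (0 : ℝ) ≤ N₀ := by positivity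
          linarith
  · have h1 := tw2_trivial N a b (by omega) (fun n : ℕ => X * (n : ℝ) ^ s + θ * n)
    have h2 : (N : ℝ) ≤ N₀ := by
      have : N ≤ N₀ := by omega
      exact_mod_cast this
    calc _ ≤ (N : ℝ) := h1
      _ ≤ N₀ * 1 := by linarith
      _ ≤ (C + N₀) * (N : ℝ) ^ (1 - min c 1) := by
          apply mul_le_mul (by linarith) hone zero_le_one (by positivity)

theorem tw2 (s : ℝ) (hs : ∀ n : ℕ, s ≠ n) (A : ℝ) (hA : 1 ≤ A) : ∃ c C : ℝ, 0 < c ∧ c ≤ 1 ∧ 0 < C ∧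
    ∀ (N a b : ℕ) (X θ : ℝ), 1 ≤ N → N ≤ a → a ≤ b → b ≤ 2 * N →
    (N : ℝ) ^ (1 / 2 : ℝ) ≤ |X| * (N : ℝ) ^ s → |X| * (N : ℝ) ^ s ≤ (N : ℝ) ^ A →
    ‖∑ n ∈ Ioc a b, MR57.e1 (X * (n : ℝ) ^ s + θ * n)‖ ≤ C * (N : ℝ) ^ (1 - c) := by
  choose c C hc hc1 hC h using tw2a s hs
  -- a finite family of values of k
  have hfam : ∀ K : ℕ, ∃ c' C' : ℝ, 0 < c' ∧ c' ≤ 1 ∧ 0 < C' ∧ ∀ k (hk : 2 ≤ k), k ≤ K →
      c' ≤ c k hk ∧ C k hk ≤ C' := by
    intro K
    induction K with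
    | zero => exact ⟨1, 1, one_pos, le_rfl, one_pos, fun k hk hk2 => absurd hk2 (by omega)⟩
    | succ K ih =>
      obtain ⟨c', C', h1, h1', h2, h3⟩ := ih
      by_cases hK : 2 ≤ K + 1
      · refine ⟨min c' (c (K + 1) hK), max C' (C (K + 1) hK),
          lt_min h1 (hc _ _), (min_le_left _ _).trans h1', lt_max_of_lt_left h2, ?_⟩
        intro k hk hk2
        rcases Nat.lt_or_ge K k with h4 | h4
        · obtain rfl : k = K + 1 := by omega
          exact ⟨min_le_right _ _, le_max_right _ _⟩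
        · exact ⟨le_trans (min_le_left _ _) (h3 k hk h4).1,
            le_trans (h3 k hk h4).2 (le_max_left _ _)⟩
      · exact ⟨c', C', h1, h1', h2, fun k hk hk2 => absurd hk2 (by omega)⟩
  obtain ⟨c', C', h1, h1', h2, h3⟩ := hfam (⌊A + 1 / 2⌋₊ + 1)
  refine ⟨c', C' + 1, h1, h1', by linarith, ?_⟩
  intro N a b X θ hN hNa hab hb hu1 hu2
  have hNR : (1 : ℝ) ≤ N := by exact_mod_cast hN
  have hN0 : (0 : ℝ) < N := by linarith
  rcases hN.eq_or_lt with hN1 | hN1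
  · subst hN1
    have := tw2_trivial 1 a b (by omega) (fun n : ℕ => X * (n : ℝ) ^ s + θ * n)
    simp only [Nat.cast_one, Real.one_rpow, mul_one] at this ⊢
    linarith
  have hN1R : (1 : ℝ) < N := by exact_mod_cast hN1
  have hlogN : 0 < Real.log N := Real.log_pos hN1R
  set U : ℝ := |X| * (N : ℝ) ^ s with hU
  have hupos : 0 < U := lt_of_lt_of_le (by positivity) hu1
  -- the exponent
  set α : ℝ := Real.log U / Real.log N with hα
  have huα : U = (N : ℝ) ^ α := by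
    rw [Real.rpow_def_of_pos hN0, hα]
    rw [mul_div_cancel₀ _ hlogN.ne', Real.exp_log hupos]
  have hα1 : 1 / 2 ≤ α := by
    rw [huα] at hu1
    exact (Real.rpow_le_rpow_left_iff hN1R).1 hu1
  have hα2 : α ≤ A := by
    rw [huα] at hu2
    exact (Real.rpow_le_rpow_left_iff hN1R).1 hu2
  set k : ℕ := ⌊α + 1 / 2⌋₊ + 1 with hk
  have hk1 : 2 ≤ k := by
    have : 1 ≤ ⌊α + 1 / 2⌋₊ := by
      apply Nat.le_floor; push_cast; linarith
    omega
  have hk2 : k ≤ ⌊A + 1 / 2⌋₊ + 1 := by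
    have : ⌊α + 1 / 2⌋₊ ≤ ⌊A + 1 / 2⌋₊ := Nat.floor_mono (by linarith)
    omega
  have hk3 : (k : ℝ) ≤ α + 1 / 2 + 1 := by
    have := Nat.floor_le (show 0 ≤ α + 1 / 2 by linarith)
    rw [hk]
    push_cast
    linarith
  have hk4 : α + 1 / 2 < k := by
    have := Nat.lt_floor_add_one (α + 1 / 2)
    rw [hk]
    push_cast
    linarith
  obtain ⟨h5, h6⟩ := h3 k hk1 hk2
  have h7 := h k hk1 N a b X θ hN hNa hab hb
    (by rw [← hU, huα]; exact Real.rpow_le_rpow_of_exponent_le hNR (by linarith))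
    (by rw [← hU, huα]; exact Real.rpow_le_rpow_of_exponent_le hNR (by linarith))
  calc _ ≤ C k hk1 * (N : ℝ) ^ (1 - c k hk1) := h7
    _ ≤ (C' + 1) * (N : ℝ) ^ (1 - c') := by
        apply mul_le_mul (by linarith) _ (by positivity) (by linarith)
        exact Real.rpow_le_rpow_of_exponent_le hNR (by linarith)

end Pool.Agent.LibSX15
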