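import Pool.Agent.LibSX15.TW2
import Pool.Agent.LibSX15.Defs

/-! ROW TW3 (uses TW2 as stated). Partial summation, and intervals `P ≤ a ≤ b ≤ R P`.
tw3a (Abel): `∑_{Ioc a b} f i g i = F b g b - ∑_{i ∈ Ioc a (b-1)} F i (g (i+1) - g i)`, `F i = ∑_{j ∈ Ioc a i} f j`; induction on `b`.
tw3b: cover `Ioc a b` by the dyadic pieces `Ioc (max a N) (min b (2 N))`, `N = 2^j ⌈P⌉₊`, `j ≤ log₂ R + 1` (a bounded number of pieces);
in each piece `P ≤ N ≤ R P * 2`, and `|X| N^s` is `≥ c_R |X| P^s ≥ c_R P ≥ N^(1/2)` and `≤ C_R P^A ≤ N^(A+1)` once `P ≥ P₀` (for `P < P₀` trivial bound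
`‖∑‖ ≤ R P ≤ C P^(1-c)`). -/

set_option autoImplicit false

namespace Pool.Agent.LibSX15

open Finset

private theorem tw3_abel (a : ℕ) (f g : ℕ → ℂ) : ∀ b : ℕ, a ≤ b →
    ∑ i ∈ Ioc a b, f i * g i =
      (∑ i ∈ Ioc a b, f i) * g b - ∑ i ∈ Ioo a b, (∑ j ∈ Ioc a i, f j) * (g (i + 1) - g i) := by
  intro b hb
  induction b, hb using Nat.le_induction with
  | base => simp
  | succ n hn ih =>
    rw [← Finset.insert_Ioc_right_eq_Ioc_add_one hn, Finset.sum_insert (by simp),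
      Finset.sum_insert (by simp), ih]
    rcases hn.lt_or_eq with h | h
    · have h1 : Ioo a (n + 1) = insert n (Ioo a n) := by
        ext x
        simp only [Finset.mem_Ioo, Finset.mem_insert]
        omega
      rw [h1, Finset.sum_insert (by simp)]
      ring
    · subst h
      have h1 : Ioo a (a + 1) = ∅ := by
        ext x
        simp only [Finset.mem_Ioo, Finset.notMem_empty, iff_false]
        omega
      rw [h1]
      simp

theorem tw3a (a b : ℕ) (f g : ℕ → ℂ) (B G V : ℝ) (hab : a ≤ b) (hB : ∀ n, a ≤ n → n ≤ b → ‖∑ i ∈ Ioc a n, f i‖ ≤ B)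
    (hG : ‖g b‖ ≤ G) (hV : ∑ i ∈ Ioo a b, ‖g (i + 1) - g i‖ ≤ V) :
    ‖∑ i ∈ Ioc a b, f i * g i‖ ≤ B * (G + V) := by
  have hB0 : 0 ≤ B := by
    have := hB a le_rfl hab
    exact (norm_nonneg _).trans this
  rw [tw3_abel a f g b hab]
  refine (norm_sub_le _ _).trans ?_
  rw [mul_add]
  refine add_le_add ?_ ?_
  · rw [norm_mul]
    exact mul_le_mul (hB b hab le_rfl) hG (norm_nonneg _) hB0
  · refine (norm_sum_le _ _).trans ?_
    refine le_trans ?_ (mul_le_mul_of_nonneg_left hV hB0)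
    rw [Finset.mul_sum]
    refine Finset.sum_le_sum fun i hi => ?_
    rw [Finset.mem_Ioo] at hi
    rw [norm_mul]
    exact mul_le_mul_of_nonneg_right (hB i hi.1.le hi.2.le) (norm_nonneg _)

/-- powers of a bounded ratio -/
private theorem tw3_ratio (s : ℝ) {r R' : ℝ} (hr : 1 ≤ r) (hR : r ≤ R') :
    (R' ^ |s|)⁻¹ ≤ r ^ s ∧ r ^ s ≤ R' ^ |s| := by
  have h0 : 0 < r := by linarith
  have h1 : r ^ |s| ≤ R' ^ |s| := Real.rpow_le_rpow h0.le hR (abs_nonneg _)
  constructor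
  · calc (R' ^ |s|)⁻¹ ≤ (r ^ |s|)⁻¹ := inv_anti₀ (Real.rpow_pos_of_pos h0 _) h1
      _ = r ^ (-|s|) := (Real.rpow_neg h0.le _).symm
      _ ≤ r ^ s := Real.rpow_le_rpow_of_exponent_le hr (neg_abs_le s)
  · exact (Real.rpow_le_rpow_of_exponent_le hr (le_abs_self s)).trans h1

theorem tw3b (s : ℝ) (hs : ∀ n : ℕ, s ≠ n) (A R : ℝ) (hA : 1 ≤ A) (hR : 1 ≤ R) : ∃ c C : ℝ, 0 < c ∧ c ≤ 1 ∧ 0 < C ∧
    ∀ (a b : ℕ) (P X θ : ℝ), 1 ≤ P → P ≤ a → a ≤ b → (b : ℝ) ≤ R * P →
    P ≤ |X| * P ^ s → |X| * P ^ s ≤ P ^ A →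
    ‖∑ n ∈ Ioc a b, MR57.e1 (X * (n : ℝ) ^ s + θ * n)‖ ≤ C * P ^ (1 - c) := by
  obtain ⟨c, C, hc0, hc1, hC, htw⟩ := tw2 s hs (A + 1) (by linarith)
  set J := ⌈R⌉₊ with hJ
  set R' : ℝ := 2 ^ (J + 1) with hR'
  set m : ℝ := R' ^ |s| with hm
  have hR'1 : 1 ≤ R' := one_le_pow₀ (by norm_num)
  have hm1 : 1 ≤ m := Real.one_le_rpow hR'1 (abs_nonneg _)
  set P1 : ℝ := (m * R') ^ 2 with hP1
  have hmR : 1 ≤ m * R' := by nlinarith
  have hP11 : 1 ≤ P1 := one_le_pow₀ hmR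
  refine ⟨c, J * (C * R') + R * P1, hc0, hc1, by positivity, ?_⟩
  intro a b P X θ hP hPa hab hb hX1 hX2
  have hP0 : 0 < P := by linarith
  have hPc : 0 < P ^ (1 - c) := Real.rpow_pos_of_pos hP0 _
  rcases lt_or_ge P P1 with hsmall | hbig
  · -- trivial bound
    have h1 : ‖∑ n ∈ Ioc a b, MR57.e1 (X * (n : ℝ) ^ s + θ * n)‖ ≤ b := by
      refine (norm_sum_le _ _).trans ?_
      refine (Finset.sum_le_sum fun n _ => (MR57.v01_norm_e1 _).le).trans ?_
      rw [Finset.sum_const, nsmul_eq_mul, mul_one, Nat.card_Ioc]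
      exact_mod_cast Nat.sub_le b a
    have h2 : P ≤ P1 * P ^ (1 - c) := by
      have h3 : P = P ^ c * P ^ (1 - c) := by
        rw [← Real.rpow_add hP0, add_sub_cancel, Real.rpow_one]
      have h4 : P ^ c ≤ P1 := by
        calc P ^ c ≤ P ^ (1 : ℝ) := Real.rpow_le_rpow_of_exponent_le hP hc1
          _ = P := Real.rpow_one P
          _ ≤ P1 := hsmall.le
      calc P = P ^ c * P ^ (1 - c) := h3
        _ ≤ P1 * P ^ (1 - c) := mul_le_mul_of_nonneg_right h4 hPc.le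
    have h5 : 0 ≤ (J : ℝ) * (C * R') := by positivity
    calc ‖∑ n ∈ Ioc a b, MR57.e1 (X * (n : ℝ) ^ s + θ * n)‖ ≤ b := h1
      _ ≤ R * P := hb
      _ ≤ R * (P1 * P ^ (1 - c)) := mul_le_mul_of_nonneg_left h2 (by linarith)
      _ ≤ (J * (C * R') + R * P1) * P ^ (1 - c) := by nlinarith
  · set N0 := ⌈P⌉₊ with hN0
    have hN0P : P ≤ N0 := Nat.le_ceil P
    have hN0P2 : (N0 : ℝ) ≤ 2 * P := by
      have := (Nat.ceil_lt_add_one hP0.le).le
      linarith
    have hN0a : N0 ≤ a := Nat.ceil_le.2 hPa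
    set E := C * R' * P ^ (1 - c) with hE
    have hE0 : 0 ≤ E := by positivity
    -- one piece
    have piece : ∀ j < J, ∀ a' b' : ℕ, 2 ^ j * N0 ≤ a' → a' ≤ b' → b' ≤ 2 * (2 ^ j * N0) →
        ‖∑ n ∈ Ioc a' b', MR57.e1 (X * (n : ℝ) ^ s + θ * n)‖ ≤ E := by
      intro j hj a' b' h1 h2 h3
      set N := 2 ^ j * N0 with hN
      have hNP : P ≤ N := by
        rw [hN]
        push_cast
        have : (1 : ℝ) ≤ 2 ^ j := one_le_pow₀ (by norm_num)
        nlinarith
      have hNR : (N : ℝ) ≤ R' * P := by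
        rw [hN, hR']
        push_cast
        have e1 : (2 : ℝ) ^ j ≤ 2 ^ J := pow_le_pow_right₀ (by norm_num) hj.le
        calc (2 : ℝ) ^ j * N0 ≤ 2 ^ J * (2 * P) := mul_le_mul e1 hN0P2 (by positivity) (by positivity)
          _ = 2 ^ (J + 1) * P := by rw [pow_succ]; ring
      have hN0' : (0 : ℝ) < N := by linarith
      have hN1 : (1 : ℝ) ≤ N := by linarith
      have hr1 : 1 ≤ (N : ℝ) / P := by rwa [le_div_iff₀ hP0, one_mul]
      have hr2 : (N : ℝ) / P ≤ R' := by rwa [div_le_iff₀ hP0]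
      obtain ⟨r1, r2⟩ := tw3_ratio s hr1 hr2
      rw [← hm] at r1 r2
      have hNs : (N : ℝ) ^ s = P ^ s * ((N : ℝ) / P) ^ s := by
        rw [← Real.mul_rpow hP0.le (by positivity)]
        congr 1
        field_simp
      have hm0 : 0 < m := by linarith
      have hXP : 0 ≤ |X| * P ^ s := by linarith
      have c1 : (N : ℝ) ^ (1 / 2 : ℝ) ≤ |X| * (N : ℝ) ^ s := by
        have d1 : (N : ℝ) / (m * R') ≤ |X| * (N : ℝ) ^ s := by
          rw [hNs, ← mul_assoc]
          have d2 : P * m⁻¹ ≤ |X| * P ^ s * ((N : ℝ) / P) ^ s :=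
            mul_le_mul hX1 r1 (inv_nonneg.2 hm0.le) hXP
          refine le_trans ?_ d2
          rw [div_le_iff₀ (by positivity)]
          have d3 : P * m⁻¹ * (m * R') = R' * P := by field_simp
          rw [d3]
          exact hNR
        have d4 : m * R' ≤ (N : ℝ) ^ (1 / 2 : ℝ) := by
          have d5 : (m * R') = P1 ^ (1 / 2 : ℝ) := by
            rw [hP1, ← Real.sqrt_eq_rpow, Real.sqrt_sq (by positivity)]
          rw [d5]
          exact Real.rpow_le_rpow (by linarith) (hbig.trans hNP) (by norm_num)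
        have d6 : (N : ℝ) ^ (1 / 2 : ℝ) * (N : ℝ) ^ (1 / 2 : ℝ) = N := by
          rw [← Real.rpow_add hN0']
          norm_num
        refine le_trans ?_ d1
        rw [le_div_iff₀ (by positivity)]
        calc (N : ℝ) ^ (1 / 2 : ℝ) * (m * R') ≤ (N : ℝ) ^ (1 / 2 : ℝ) * (N : ℝ) ^ (1 / 2 : ℝ) :=
              mul_le_mul_of_nonneg_left d4 (by positivity)
          _ = N := d6
      have c2 : |X| * (N : ℝ) ^ s ≤ (N : ℝ) ^ (A + 1) := by
        rw [hNs, ← mul_assoc]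
        have d1 : |X| * P ^ s * ((N : ℝ) / P) ^ s ≤ P ^ A * m :=
          mul_le_mul hX2 r2 (by positivity) (by positivity)
        refine d1.trans ?_
        rw [Real.rpow_add hN0', Real.rpow_one]
        have d2 : P ^ A ≤ (N : ℝ) ^ A := Real.rpow_le_rpow hP0.le hNP (by linarith)
        have d3 : m ≤ N := by
          have e1 : m ≤ P1 := by
            rw [hP1]
            nlinarith
          linarith
        exact mul_le_mul d2 d3 hm0.le (by positivity)
      have h4 := htw N a' b' X θ (by exact_mod_cast hN1) h1 h2 h3 c1 c2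
      refine h4.trans ?_
      rw [hE, mul_assoc]
      refine mul_le_mul_of_nonneg_left ?_ hC.le
      calc (N : ℝ) ^ (1 - c) ≤ (R' * P) ^ (1 - c) :=
            Real.rpow_le_rpow hN0'.le hNR (by linarith)
        _ = R' ^ (1 - c) * P ^ (1 - c) := Real.mul_rpow (by linarith) hP0.le
        _ ≤ R' * P ^ (1 - c) := by
            refine mul_le_mul_of_nonneg_right ?_ hPc.le
            calc R' ^ (1 - c) ≤ R' ^ (1 : ℝ) :=
                  Real.rpow_le_rpow_of_exponent_le hR'1 (by linarith)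
              _ = R' := Real.rpow_one R'
    -- induction over the pieces
    have ind : ∀ j ≤ J, ∀ b' : ℕ, a ≤ b' → b' ≤ 2 ^ j * N0 →
        ‖∑ n ∈ Ioc a b', MR57.e1 (X * (n : ℝ) ^ s + θ * n)‖ ≤ j * E := by
      intro j
      induction j with
      | zero =>
        intro _ b' h1 h2
        have : b' = a := by
          rw [pow_zero, one_mul] at h2
          omega
        subst this
        simp
      | succ j ih =>
        intro hj b' h1 h2
        have hjJ : j < J := by omega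
        have h2' : b' ≤ 2 * (2 ^ j * N0) := by
          rw [pow_succ] at h2
          calc b' ≤ 2 ^ j * 2 * N0 := h2
            _ = 2 * (2 ^ j * N0) := by ring
        push_cast
        rcases le_or_gt b' (2 ^ j * N0) with h3 | h3
        · have := ih hjJ.le b' h1 h3
          nlinarith
        · rcases le_or_gt a (2 ^ j * N0) with h4 | h4
          · have h5 := ih hjJ.le (2 ^ j * N0) h4 le_rfl
            have h6 := piece j hjJ (2 ^ j * N0) b' le_rfl h3.le h2'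
            rw [← Finset.sum_Ioc_consecutive _ h4 h3.le]
            refine (norm_add_le _ _).trans ?_
            linarith
          · have h6 := piece j hjJ a b' h4.le h1 h2'
            have : (0 : ℝ) ≤ j * E := by positivity
            linarith
    have hbJ : b ≤ 2 ^ J * N0 := by
      have h1 : (b : ℝ) ≤ ((2 ^ J * N0 : ℕ) : ℝ) := by
        push_cast
        have h2 : R ≤ 2 ^ J := by
          have h3 : R ≤ J := Nat.le_ceil R
          have h4 : (J : ℝ) ≤ 2 ^ J := by exact_mod_cast (Nat.lt_two_pow_self (n := J)).le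
          linarith
        exact hb.trans (mul_le_mul h2 hN0P hP0.le (by positivity))
      exact_mod_cast h1
    have hfin := ind J le_rfl b hab hbJ
    refine hfin.trans ?_
    rw [hE]
    have : 0 ≤ R * P1 * P ^ (1 - c) := by positivity
    nlinarith

private theorem tw3_ee (x : ℝ) : ee x = MR57.e1 x := rfl

/-- with weights of bounded variation -/
theorem tw3 (s : ℝ) (hs : ∀ n : ℕ, s ≠ n) (A R : ℝ) (hA : 1 ≤ A) (hR : 1 ≤ R) : ∃ c C : ℝ, 0 < c ∧ c ≤ 1 ∧ 0 < C ∧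
    ∀ (a b : ℕ) (P X θ G V : ℝ) (g : ℕ → ℂ), 1 ≤ P → P ≤ a → a ≤ b → (b : ℝ) ≤ R * P →
    P ≤ |X| * P ^ s → |X| * P ^ s ≤ P ^ A → ‖g b‖ ≤ G → ∑ i ∈ Ioo a b, ‖g (i + 1) - g i‖ ≤ V →
    ‖∑ n ∈ Ioc a b, ee (X * (n : ℝ) ^ s + θ * n) * g n‖ ≤ C * P ^ (1 - c) * (G + V) := by
  obtain ⟨c, C, hc0, hc1, hC, h⟩ := tw3b s hs A R hA hR
  refine ⟨c, C, hc0, hc1, hC, ?_⟩
  intro a b P X θ G V g hP hPa hab hb hX1 hX2 hG hV
  refine tw3a a b (fun n => ee (X * (n : ℝ) ^ s + θ * n)) g _ G V hab ?_ hG hV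
  intro n han hnb
  have h1 : (n : ℝ) ≤ R * P := le_trans (by exact_mod_cast hnb) hb
  have h2 := h a n P X θ hP hPa han h1 hX1 hX2
  simp only [tw3_ee]
  exact h2

end Pool.Agent.LibSX15
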