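import Pool.Agent.LibSX15.TW0
import Pool.Agent.LibSX15.TW3
import Pool.Agent.LibSX15.LVW

/-! ROW TW4 (uses TW3 (`tw3`), `lvw_km_ne`, `lvw_ee_norm`, `lvw_ee_neg` ..., as stated). The sum of the chirps at one `τ`, by van der Corput.
Let `τ > 0` (for `τ < 0` only `m < 0` count and `d.ph m τ = -(d.ph (-m) (-τ))`, `w` and the square root are the same: conjugate the sum over `-m` and
`γ (-1)` in place of `γ 1`; do the case of a sign `σ = ±1` at once if you like). `P0 = τ/N ≥ N^μ`, `N' = b0 N`. Only `m` with `2 τ ≤ m N'` and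
`2 m N ≤ C0 τ` count (`lvw_km_ne`): `m ∈ Ioc a b`, `a = ⌈2τ/N'⌉ - 1 ≥ P` with `P = P0/C0` (`2 τ/N' - 1 ≥ 2 P0/C0 - 1 ≥ P`, if `P ≥ 1`; if `P < 1` use the trivial bound
`lvw_chirps`, `P0 ≤ C0`), `b = min (⌊C0 τ/(2N)⌋, ⌊C0 M⌋) ≤ R P`, `R = C0^2` (if `b < a` the sum is empty).
The sum is `∑_{m ∈ Ioc a b} ee (X m^(-1)) g m`, `X = τ²/(4N')`, `g m = γ 1 √(N/m) w(x_m) ee(-m ε q(x_m))`, `x_m = τ/(2 m N') ∈ [0, 1/4 + ..]`:
* `‖g m‖ ≤ C0² √(N/m) ≤ C0² √(N/P)`;
* variation: `|x_m - x_{m+1}| = x_m/(m+1) ≤ 1/m` (`x_m ≤ τ/(2 a N') ≤ 1`), `|w(x_m) - w(x_{m+1})| ≤ C0/m`, `√(N/m)` is decreasing (telescopes),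
  `|m q(x_m) - (m+1) q(x_{m+1})| ≤ |q(x_{m+1})| + m |q(x_m) - q(x_{m+1})| ≤ C0 + 2 C0` (hq1, hq3, Extra.q0), `|ee x - ee y| ≤ 2π|x - y|`; sum over the
  `≤ R P` values of `m`: `V ≤ C √(N/P) (1 + ε P)`, and `P ≤ P0`.
* `tw3` with `s = -1`, `θ = 0`: `X P^(-1) = τ²/(4 N' P) = (P0²/P) N/(4 b0)` is `≥ P` (for `N` large in terms of `C0`: `N ≥ 8 C0^4`; for small `N` all is
  bounded: then `τ ≤ 8N²` is bounded, trivial bound `lvw_chirps`) and `≤ C0 P0 N ≤ P^A`, where `A = 2 + 2/μ` (`N ≤ P0^(1/μ)`, `P0 ≤ C0 P`, `P` large; bounded `P` trivial).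
Result: `C P^(1-c) √(N/P) (1 + ε P) ≤ C' (1 + ε P0) √(N P0) P0^(-c)`, `√(N P0) = √τ`. -/

set_option autoImplicit false

namespace Pool.Agent.LibSX15

open Finset

private theorem tw4_ee (x y : ℝ) : ‖ee x - ee y‖ ≤ 2 * Real.pi * |x - y| := by
  have h1 : ee x = ee (x - y) * ee y := by rw [← lvw_ee_add, sub_add_cancel]
  have h2 : ee x - ee y = (ee (x - y) - 1) * ee y := by rw [h1]; ring
  rw [h2, norm_mul, lvw_ee_norm, mul_one]
  have h3 : ee (x - y) = Complex.exp (Complex.I * ((2 * Real.pi * (x - y) : ℝ) : ℂ)) := by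
    rw [ee, mul_comm]
  rw [h3]
  refine (Real.norm_exp_I_mul_ofReal_sub_one_le).trans (le_of_eq ?_)
  rw [Real.norm_eq_abs, abs_mul, abs_of_pos (by positivity : (0 : ℝ) < 2 * Real.pi)]

/-- the weight of the `n`-th chirp -/
private noncomputable def tw4_g (d : Dat) (σ : ℤ) (T : ℝ) (n : ℕ) : ℂ :=
  d.γ σ * (Real.sqrt (d.N / n) : ℂ) * (d.w (T / (2 * n * (d.b0 * d.N))) : ℂ) *
    ee (-(σ * (n * d.ε * d.q (T / (2 * n * (d.b0 * d.N))))))

private theorem tw4_km (d : Dat) {C0 : ℝ} (hd : d.Good C0) (hx : d.Extra C0) {σ τ : ℤ} {T : ℝ}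
    (hσ : σ = 1 ∨ σ = -1) (hτ : (τ : ℝ) = σ * T) (n : ℕ) (hn : 1 ≤ n) :
    d.km (σ * n) τ = ee (σ * (T ^ 2 / (4 * (d.b0 * d.N))) * (n : ℝ) ^ (-1 : ℝ) + 0 * n) *
      tw4_g d σ T n := by
  have hN : 0 < d.N := by linarith [hd.hN]
  have hb : 0 < d.b0 := by linarith [hd.hb1]
  have hn0 : (0 : ℝ) < n := by exact_mod_cast hn
  have hσ2 : (σ : ℝ) * σ = 1 := by
    rcases hσ with h | h <;> rw [h] <;> norm_num
  have hσ0 : (σ : ℝ) ≠ 0 := by
    intro h
    rw [h] at hσ2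
    norm_num at hσ2
  have hγ : d.γ (σ * n) = d.γ σ := by
    rcases hσ with h | h
    · rw [h, one_mul]
      exact hx.g1 _ (by exact_mod_cast hn)
    · rw [h]
      refine hx.g2 _ ?_
      have : (1 : ℤ) ≤ n := by exact_mod_cast hn
      omega
  have habs : |(((σ * n : ℤ)) : ℝ)| = n := by
    push_cast
    rw [abs_mul, abs_of_pos hn0]
    rcases hσ with h | h <;> rw [h] <;> norm_num
  have hxx : (τ : ℝ) / (2 * ((σ * n : ℤ) : ℝ) * (d.b0 * d.N)) =
      T / (2 * n * (d.b0 * d.N)) := by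
    rw [hτ]
    push_cast
    field_simp
  have hph : d.ph (σ * n) τ = (σ * (T ^ 2 / (4 * (d.b0 * d.N))) * (n : ℝ) ^ (-1 : ℝ) + 0 * n) +
      -(σ * (n * d.ε * d.q (T / (2 * n * (d.b0 * d.N))))) := by
    unfold Dat.ph
    rw [hxx, Real.rpow_neg_one]
    have h1 : (τ : ℝ) ^ 2 / (4 * ((σ * n : ℤ) : ℝ) * (d.b0 * d.N)) =
        σ * (T ^ 2 / (4 * (d.b0 * d.N))) * (n : ℝ)⁻¹ := by
      rw [hτ]
      push_cast
      have h2 : ((σ : ℝ) * T) ^ 2 = T ^ 2 := by
        have : ((σ : ℝ) * T) ^ 2 = (σ * σ : ℝ) * T ^ 2 := by ring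
        rw [this, hσ2, one_mul]
      rw [h2]
      field_simp
      have : (σ : ℝ) ^ 2 = 1 := by rw [sq]; exact hσ2
      rw [this, mul_one]
    rw [h1]
    push_cast
    ring
  unfold Dat.km tw4_g
  rw [hγ, habs, hxx, hph, lvw_ee_add]
  ring

private theorem tw4_sum (d : Dat) {C0 : ℝ} (hd : d.Good C0) {σ τ : ℤ} {T : ℝ}
    (hσ : σ = 1 ∨ σ = -1) (hT : 0 < T) (hτ : (τ : ℝ) = σ * T) :
    ∑ m ∈ d.ms C0, d.km m τ =
      ∑ n ∈ Ioc (⌈2 * T / (d.b0 * d.N)⌉₊ - 1) (min ⌊C0 * T / (2 * d.N)⌋₊ ⌊C0 * d.M⌋₊),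
        d.km (σ * n) τ := by
  classical
  have hN : 0 < d.N := by linarith [hd.hN]
  have hb : 0 < d.b0 := by linarith [hd.hb1]
  have hC : 0 < C0 := by linarith [hd.hC0]
  have hM : 0 < d.M := by linarith [hd.hM]
  have hσ2 : σ * σ = 1 := by
    rcases hσ with h | h <;> rw [h] <;> norm_num
  have hceil : 1 ≤ ⌈2 * T / (d.b0 * d.N)⌉₊ := Nat.one_le_iff_ne_zero.2 (by
    rw [Ne, Nat.ceil_eq_zero, not_le]
    positivity)
  have habsτ : |(τ : ℝ)| = T := by
    rw [hτ, abs_mul, abs_of_pos hT]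
    rcases hσ with h | h <;> rw [h] <;> norm_num
  set I := Ioc (⌈2 * T / (d.b0 * d.N)⌉₊ - 1) (min ⌊C0 * T / (2 * d.N)⌋₊ ⌊C0 * d.M⌋₊) with hI
  have himg : ∑ n ∈ I, d.km (σ * n) τ = ∑ m ∈ I.image (fun n : ℕ => σ * (n : ℤ)), d.km m τ := by
    rw [Finset.sum_image]
    intro x _ y _ hxy
    have h1 : σ * (σ * (x : ℤ)) = σ * (σ * (y : ℤ)) := congrArg _ hxy
    rw [← mul_assoc, ← mul_assoc, hσ2, one_mul, one_mul] at h1
    exact_mod_cast h1
  rw [himg]
  symm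
  apply Finset.sum_subset
  · intro m hm
    obtain ⟨n, hn, rfl⟩ := Finset.mem_image.1 hm
    rw [hI, Finset.mem_Ioc] at hn
    have h1 : n ≤ ⌊C0 * d.M⌋₊ := hn.2.trans (min_le_right _ _)
    have h2 : 1 ≤ n := by omega
    have h3 : (n : ℤ) ≤ ⌊C0 * d.M⌋ := by
      rw [Int.le_floor]
      have h4 := (Nat.le_floor_iff (by positivity)).1 h1
      exact_mod_cast h4
    unfold Dat.ms
    rw [Finset.mem_erase, Finset.mem_Icc]
    rcases hσ with h | h
    · rw [h]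
      refine ⟨by omega, by omega, by omega⟩
    · rw [h]
      refine ⟨by omega, by omega, by omega⟩
  · intro m hm hm'
    by_contra hne
    apply hm'
    unfold Dat.ms at hm
    rw [Finset.mem_erase, Finset.mem_Icc] at hm
    obtain ⟨hm0, hm1, hm2⟩ := hm
    obtain ⟨h1, h2⟩ := lvw_km_ne C0 d hd m hm0 τ hne
    rw [habsτ] at h1 h2
    have hw : d.w (τ / (2 * m * (d.b0 * d.N))) ≠ 0 := by
      intro h0
      apply hne
      rw [Dat.km, h0]
      simp
    have hpos : 0 < (τ : ℝ) / (2 * m * (d.b0 * d.N)) :=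
      lt_of_lt_of_le (by positivity) (hd.hw0 _ hw)
    have hsign : m = σ * (m.natAbs : ℤ) := by
      rcases hσ with h | h
      · rw [h, one_mul]
        rcases lt_or_gt_of_ne hm0 with h3 | h3
        · exfalso
          have h4 : (m : ℝ) < 0 := by exact_mod_cast h3
          rw [hτ, h] at hpos
          have h5 : ((1 : ℤ) : ℝ) * T / (2 * m * (d.b0 * d.N)) ≤ 0 := by
            apply div_nonpos_of_nonneg_of_nonpos
            · push_cast
              linarith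
            · have : 0 < d.b0 * d.N := mul_pos hb hN
              nlinarith
          linarith
        · omega
      · rw [h]
        rcases lt_or_gt_of_ne hm0 with h3 | h3
        · omega
        · exfalso
          have h4 : (0 : ℝ) < m := by exact_mod_cast h3
          rw [hτ, h] at hpos
          have h5 : ((-1 : ℤ) : ℝ) * T / (2 * m * (d.b0 * d.N)) ≤ 0 := by
            apply div_nonpos_of_nonpos_of_nonneg
            · push_cast
              linarith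
            · positivity
          linarith
    have habs : |(m : ℝ)| = (m.natAbs : ℝ) := by
      rw [← Int.cast_abs, Nat.cast_natAbs]
    rw [habs] at h1 h2
    rw [Finset.mem_image]
    refine ⟨m.natAbs, ?_, hsign.symm⟩
    rw [hI, Finset.mem_Ioc]
    constructor
    · have h3 : ⌈2 * T / (d.b0 * d.N)⌉₊ ≤ m.natAbs := by
        rw [Nat.ceil_le, div_le_iff₀ (by positivity)]
        exact h1
      omega
    · refine le_min ?_ ?_
      · rw [Nat.le_floor_iff (by positivity), le_div_iff₀ (by positivity)]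
        exact h2
      · rw [Nat.le_floor_iff (by positivity)]
        have h3 : (|m| : ℤ) ≤ ⌊C0 * d.M⌋ := abs_le.2 ⟨by omega, hm2⟩
        rw [Int.le_floor] at h3
        rw [← habs]
        push_cast at h3
        exact h3

private theorem tw4_gnorm (d : Dat) {C0 : ℝ} (hd : d.Good C0) (σ : ℤ) (T : ℝ) (n : ℕ) :
    ‖tw4_g d σ T n‖ ≤ C0 ^ 2 * Real.sqrt (d.N / n) := by
  have hC : 0 ≤ C0 := by linarith [hd.hC0]
  unfold tw4_g
  rw [norm_mul, norm_mul, norm_mul, lvw_ee_norm, Complex.norm_real, Complex.norm_real,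
    Real.norm_of_nonneg (Real.sqrt_nonneg _), mul_one, Real.norm_eq_abs]
  calc ‖d.γ σ‖ * Real.sqrt (d.N / n) * |d.w (T / (2 * n * (d.b0 * d.N)))|
      ≤ C0 * Real.sqrt (d.N / n) * C0 := by
        gcongr
        · exact hd.hγ σ
        · exact hd.hw _
    _ = C0 ^ 2 * Real.sqrt (d.N / n) := by ring

/-- one step of the variation -/
private theorem tw4_step (d : Dat) {C0 : ℝ} (hd : d.Good C0) (hx : d.Extra C0) {σ : ℤ} {T P : ℝ}
    (hσ : σ = 1 ∨ σ = -1) (hT : 0 < T) (hP : 1 ≤ P) (i : ℕ) (hi : P ≤ i)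
    (hi2 : 2 * T / (d.b0 * d.N) ≤ i) :
    ‖tw4_g d σ T (i + 1) - tw4_g d σ T i‖ ≤
      C0 ^ 2 * ((Real.sqrt (d.N / i) - Real.sqrt (d.N / ((i + 1 : ℕ) : ℝ))) +
        Real.sqrt (d.N / P) * (1 / P + 13 * C0 * d.ε)) := by
  have hN : 0 < d.N := by linarith [hd.hN]
  have hb : 0 < d.b0 := by linarith [hd.hb1]
  have hC1 : 1 ≤ C0 := hd.hC0
  have hC : 0 < C0 := by linarith
  have hε := hd.hε
  have hi0 : (0 : ℝ) < i := by linarith
  have hi1 : (0 : ℝ) < ((i + 1 : ℕ) : ℝ) := by positivity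
  set N' := d.b0 * d.N with hN'
  have hN'0 : 0 < N' := mul_pos hb hN
  set x := T / (2 * i * N') with hxd
  set y := T / (2 * ((i + 1 : ℕ) : ℝ) * N') with hyd
  set s := Real.sqrt (d.N / i) with hs
  set s' := Real.sqrt (d.N / ((i + 1 : ℕ) : ℝ)) with hs'
  set E := -((σ : ℝ) * (i * d.ε * d.q x)) with hE
  set E' := -((σ : ℝ) * (((i + 1 : ℕ) : ℝ) * d.ε * d.q y)) with hE'
  have hs0 : 0 ≤ s := Real.sqrt_nonneg _
  have hs'0 : 0 ≤ s' := Real.sqrt_nonneg _
  have hss : s' ≤ s := by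
    apply Real.sqrt_le_sqrt
    apply div_le_div_of_nonneg_left hN.le hi0
    push_cast
    linarith
  have hsP : s ≤ Real.sqrt (d.N / P) := by
    apply Real.sqrt_le_sqrt
    exact div_le_div_of_nonneg_left hN.le (by linarith) hi
  have hx14 : x ≤ 1 / 4 := by
    rw [hxd, div_le_div_iff₀ (by positivity) (by norm_num)]
    rw [div_le_iff₀ hN'0] at hi2
    linarith
  have hxy : x - y = x / ((i + 1 : ℕ) : ℝ) := by
    rw [hxd, hyd]
    push_cast
    field_simp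
    ring
  have hx0 : 0 < x := by positivity
  have hxy0 : 0 ≤ x - y := by rw [hxy]; positivity
  have hixy : i * (x - y) ≤ 1 / 4 := by
    rw [hxy]
    have h1 : i * (x / ((i + 1 : ℕ) : ℝ)) = x * (i / ((i + 1 : ℕ) : ℝ)) := by ring
    rw [h1]
    have h2 : (i : ℝ) / ((i + 1 : ℕ) : ℝ) ≤ 1 := by
      rw [div_le_one hi1]
      push_cast
      linarith
    calc x * (i / ((i + 1 : ℕ) : ℝ)) ≤ x * 1 := mul_le_mul_of_nonneg_left h2 hx0.le
      _ ≤ 1 / 4 := by linarith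
  have hxyP : x - y ≤ 1 / P := by
    have h1 : P * (x - y) ≤ 1 := by
      have := mul_le_mul_of_nonneg_right hi hxy0
      linarith
    rw [le_div_iff₀ (by linarith)]
    linarith
  have hxy1 : x - y ≤ 1 := by
    have h1 : 1 * (x - y) ≤ i * (x - y) := mul_le_mul_of_nonneg_right (by linarith) hxy0
    linarith
  -- the three differences
  have hdw : |d.w y - d.w x| ≤ C0 * (1 / P) := by
    refine (hd.hwL y x).trans ?_
    refine mul_le_mul_of_nonneg_left ?_ hC.le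
    rw [abs_sub_comm, abs_of_nonneg hxy0]
    exact hxyP
  have hdq : |d.q y - d.q x| ≤ 2 * C0 * (x - y) := by
    have h1 := hd.hq3 x y
    have h2 := hd.hq1 x
    have h3 : |d.q1 x * (y - x)| ≤ C0 * (x - y) := by
      rw [abs_mul, abs_sub_comm, abs_of_nonneg hxy0]
      exact mul_le_mul_of_nonneg_right h2 hxy0
    have h4 : C0 * (y - x) ^ 2 ≤ C0 * (x - y) := by
      refine mul_le_mul_of_nonneg_left ?_ hC.le
      nlinarith
    have h5 : d.q y - d.q x = (d.q y - d.q x - d.q1 x * (y - x)) + d.q1 x * (y - x) := by ring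
    rw [h5]
    refine (abs_add_le _ _).trans ?_
    linarith
  have hdE : |E' - E| ≤ 2 * C0 * d.ε := by
    have h1 : E' - E = -((σ : ℝ) * d.ε * (d.q y + i * (d.q y - d.q x))) := by
      rw [hE, hE']
      push_cast
      ring
    have h2 : |(σ : ℝ)| = 1 := by
      rcases hσ with h | h <;> rw [h] <;> norm_num
    rw [h1, abs_neg, abs_mul, abs_mul, h2, one_mul, abs_of_nonneg hε]
    have h3 : |d.q y + i * (d.q y - d.q x)| ≤ 2 * C0 := by
      refine (abs_add_le _ _).trans ?_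
      rw [abs_mul, abs_of_pos hi0]
      have h4 := hx.q0 y
      have h5 : (i : ℝ) * |d.q y - d.q x| ≤ i * (2 * C0 * (x - y)) :=
        mul_le_mul_of_nonneg_left hdq hi0.le
      have h6 : (i : ℝ) * (2 * C0 * (x - y)) = 2 * C0 * (i * (x - y)) := by ring
      rw [h6] at h5
      have h7 : 2 * C0 * (i * (x - y)) ≤ 2 * C0 * (1 / 4) :=
        mul_le_mul_of_nonneg_left hixy (by linarith)
      linarith
    calc d.ε * |d.q y + i * (d.q y - d.q x)| ≤ d.ε * (2 * C0) :=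
          mul_le_mul_of_nonneg_left h3 hε
      _ = 2 * C0 * d.ε := by ring
  have hee : ‖ee E' - ee E‖ ≤ 13 * C0 * d.ε := by
    refine (tw4_ee E' E).trans ?_
    have h1 : 2 * Real.pi * |E' - E| ≤ 2 * Real.pi * (2 * C0 * d.ε) :=
      mul_le_mul_of_nonneg_left hdE (by positivity)
    have h2 := Real.pi_lt_d2
    have h3 : 0 ≤ C0 * d.ε := by positivity
    nlinarith
  have hdec : tw4_g d σ T (i + 1) - tw4_g d σ T i =
      d.γ σ * (((s' - s : ℝ) : ℂ) * (d.w y : ℂ) * ee E' +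
        (s : ℂ) * ((d.w y - d.w x : ℝ) : ℂ) * ee E' + (s : ℂ) * (d.w x : ℂ) * (ee E' - ee E)) := by
    unfold tw4_g
    rw [← hN', ← hs, ← hs', ← hxd, ← hyd, ← hE, ← hE']
    push_cast
    ring
  rw [hdec, norm_mul]
  have n1 : ‖((s' - s : ℝ) : ℂ) * (d.w y : ℂ) * ee E'‖ ≤ (s - s') * C0 := by
    rw [norm_mul, norm_mul, lvw_ee_norm, mul_one, Complex.norm_real, Complex.norm_real,
      Real.norm_eq_abs, Real.norm_eq_abs, abs_sub_comm, abs_of_nonneg (by linarith : 0 ≤ s - s')]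
    exact mul_le_mul_of_nonneg_left (hd.hw _) (by linarith)
  have n2 : ‖(s : ℂ) * ((d.w y - d.w x : ℝ) : ℂ) * ee E'‖ ≤
      Real.sqrt (d.N / P) * (C0 * (1 / P)) := by
    rw [norm_mul, norm_mul, lvw_ee_norm, mul_one, Complex.norm_real, Complex.norm_real,
      Real.norm_eq_abs, Real.norm_eq_abs, abs_of_nonneg hs0]
    exact mul_le_mul hsP hdw (abs_nonneg _) (Real.sqrt_nonneg _)
  have n3 : ‖(s : ℂ) * (d.w x : ℂ) * (ee E' - ee E)‖ ≤
      Real.sqrt (d.N / P) * C0 * (13 * C0 * d.ε) := by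
    rw [norm_mul, norm_mul, Complex.norm_real, Complex.norm_real,
      Real.norm_eq_abs, Real.norm_eq_abs, abs_of_nonneg hs0]
    refine mul_le_mul (mul_le_mul hsP (hd.hw _) (abs_nonneg _) (Real.sqrt_nonneg _)) hee
      (norm_nonneg _) (by positivity)
  have n4 : ‖((s' - s : ℝ) : ℂ) * (d.w y : ℂ) * ee E' +
        (s : ℂ) * ((d.w y - d.w x : ℝ) : ℂ) * ee E' + (s : ℂ) * (d.w x : ℂ) * (ee E' - ee E)‖ ≤
      (s - s') * C0 + Real.sqrt (d.N / P) * (C0 * (1 / P)) +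
        Real.sqrt (d.N / P) * C0 * (13 * C0 * d.ε) :=
    (norm_add₃_le).trans (by linarith)
  calc ‖d.γ σ‖ * _ ≤ C0 * ((s - s') * C0 + Real.sqrt (d.N / P) * (C0 * (1 / P)) +
        Real.sqrt (d.N / P) * C0 * (13 * C0 * d.ε)) :=
        mul_le_mul (hd.hγ σ) n4 (norm_nonneg _) hC.le
    _ = C0 ^ 2 * ((s - s') + Real.sqrt (d.N / P) * (1 / P + 13 * C0 * d.ε)) := by ring

/-- the variation -/
private theorem tw4_var (d : Dat) {C0 : ℝ} (hd : d.Good C0) (hx : d.Extra C0) {σ : ℤ} {T P R : ℝ}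
    (hσ : σ = 1 ∨ σ = -1) (hT : 0 < T) (hP : 1 ≤ P) (a b : ℕ) (ha : P ≤ a)
    (ha2 : 2 * T / (d.b0 * d.N) ≤ a + 1) (hb : (b : ℝ) ≤ R * P) :
    ∑ i ∈ Ioo a b, ‖tw4_g d σ T (i + 1) - tw4_g d σ T i‖ ≤
      C0 ^ 2 * Real.sqrt (d.N / P) * (1 + R + 13 * C0 * R * (d.ε * P)) := by
  have hN : 0 < d.N := by linarith [hd.hN]
  have hC1 : 1 ≤ C0 := hd.hC0
  have hε := hd.hε
  have hP0 : 0 < P := by linarith
  have h1 : ∑ i ∈ Ioo a b, ‖tw4_g d σ T (i + 1) - tw4_g d σ T i‖ ≤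
      ∑ i ∈ Ioo a b, C0 ^ 2 * ((Real.sqrt (d.N / i) - Real.sqrt (d.N / ((i + 1 : ℕ) : ℝ))) +
        Real.sqrt (d.N / P) * (1 / P + 13 * C0 * d.ε)) := by
    refine Finset.sum_le_sum fun i hi => ?_
    rw [Finset.mem_Ioo] at hi
    have h2 : (a : ℝ) + 1 ≤ i := by exact_mod_cast hi.1
    exact tw4_step d hd hx hσ hT hP i (by linarith) (by linarith)
  refine h1.trans ?_
  rw [← Finset.mul_sum, Finset.sum_add_distrib, Finset.sum_const, nsmul_eq_mul]
  have h3 : ∑ i ∈ Ioo a b, (Real.sqrt (d.N / i) - Real.sqrt (d.N / ((i + 1 : ℕ) : ℝ))) ≤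
      Real.sqrt (d.N / P) := by
    rcases lt_or_ge a b with hab | hab
    · have h4 : Ioo a b = Ico (a + 1) b := by
        ext i
        rw [Finset.mem_Ioo, Finset.mem_Ico]
        omega
      have h5 := Finset.sum_Ico_sub (fun i : ℕ => -Real.sqrt (d.N / (i : ℝ)))
        (show a + 1 ≤ b from hab)
      have h6 : ∀ i : ℕ, -Real.sqrt (d.N / ((i + 1 : ℕ) : ℝ)) - -Real.sqrt (d.N / (i : ℝ)) =
          Real.sqrt (d.N / i) - Real.sqrt (d.N / ((i + 1 : ℕ) : ℝ)) := fun i => by ring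
      rw [Finset.sum_congr rfl fun i _ => h6 i] at h5
      rw [h4, h5]
      have h7 : Real.sqrt (d.N / ((a + 1 : ℕ) : ℝ)) ≤ Real.sqrt (d.N / P) := by
        apply Real.sqrt_le_sqrt
        apply div_le_div_of_nonneg_left hN.le hP0
        push_cast
        linarith
      have h8 := Real.sqrt_nonneg (d.N / (b : ℝ))
      linarith
    · rw [Finset.Ioo_eq_empty (by omega), Finset.sum_empty]
      exact Real.sqrt_nonneg _
  have h9 : (((Ioo a b).card : ℕ) : ℝ) ≤ R * P := by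
    refine le_trans ?_ hb
    rw [Nat.card_Ioo]
    exact_mod_cast (by omega : b - a - 1 ≤ b)
  have h10 : ((Ioo a b).card : ℝ) * (Real.sqrt (d.N / P) * (1 / P + 13 * C0 * d.ε)) ≤
      (R * P) * (Real.sqrt (d.N / P) * (1 / P + 13 * C0 * d.ε)) :=
    mul_le_mul_of_nonneg_right h9 (by positivity)
  have h11 : (R * P) * (Real.sqrt (d.N / P) * (1 / P + 13 * C0 * d.ε)) =
      Real.sqrt (d.N / P) * (R + 13 * C0 * R * (d.ε * P)) := by
    field_simp
  rw [h11] at h10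
  calc C0 ^ 2 * (∑ i ∈ Ioo a b, (Real.sqrt (d.N / i) - Real.sqrt (d.N / ((i + 1 : ℕ) : ℝ))) +
        ((Ioo a b).card : ℝ) * (Real.sqrt (d.N / P) * (1 / P + 13 * C0 * d.ε)))
      ≤ C0 ^ 2 * (Real.sqrt (d.N / P) + Real.sqrt (d.N / P) * (R + 13 * C0 * R * (d.ε * P))) :=
        mul_le_mul_of_nonneg_left (add_le_add h3 h10) (by positivity)
    _ = C0 ^ 2 * Real.sqrt (d.N / P) * (1 + R + 13 * C0 * R * (d.ε * P)) := by ring

theorem tw4 (C0 μ : ℝ) (hC0 : 1 ≤ C0) (hμ : 0 < μ) : ∃ c C : ℝ, 0 < c ∧ 1 ≤ C ∧ ∀ (d : Dat), d.Good C0 → d.Extra C0 →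
    ∀ τ : ℤ, d.N * d.N ^ μ ≤ |(τ : ℝ)| → |(τ : ℝ)| ≤ d.N ^ 2 →
    ‖∑ m ∈ d.ms C0, d.km m τ‖ ≤
      C * (1 + d.ε * (|(τ : ℝ)| / d.N)) * Real.sqrt |(τ : ℝ)| * (|(τ : ℝ)| / d.N) ^ (-c) := by
  have hC0p : 0 < C0 := by linarith
  set A : ℝ := 3 + 2 / μ with hA
  have hA1 : 1 ≤ A := by
    have : 0 < 2 / μ := by positivity
    linarith
  set R : ℝ := C0 ^ 2 with hR
  have hR1 : 1 ≤ R := one_le_pow₀ hC0
  obtain ⟨c, Ct, hc0, hc1, hCt, htw⟩ := tw3 (-1) (fun n => by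
    have : (0 : ℝ) ≤ n := Nat.cast_nonneg n
    linarith) A R hA1 hR1
  set K0 : ℝ := 4 * C0 ^ 2 with hK0
  have hK01 : 1 ≤ K0 := by nlinarith [one_le_pow₀ hC0 (n := 2)]
  set C1 : ℝ := C0 ^ 2 * (2 + R + 13 * C0 * R) with hC1
  have hC10 : 0 < C1 := by positivity
  refine ⟨c, C0 ^ 4 * K0 + Ct * C1 * C0, hc0, ?_, ?_⟩
  · have h1 : 1 ≤ C0 ^ 4 := one_le_pow₀ hC0
    have h2 : 1 ≤ C0 ^ 4 * K0 := by nlinarith
    have h3 : 0 < Ct * C1 * C0 := by positivity
    linarith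
  intro d hd hx τ hτ1 hτ2
  have hN : 0 < d.N := by linarith [hd.hN]
  have hN2 := hd.hN
  have hb : 0 < d.b0 := by linarith [hd.hb1]
  have hε := hd.hε
  have hNμ : 1 ≤ d.N ^ μ := Real.one_le_rpow (by linarith) hμ.le
  have hT : 0 < |(τ : ℝ)| := lt_of_lt_of_le (by positivity) hτ1
  set T : ℝ := |(τ : ℝ)| with hTd
  set P0 : ℝ := T / d.N with hP0d
  have hP0μ : d.N ^ μ ≤ P0 := by
    rw [hP0d, le_div_iff₀ hN]
    linarith
  have hP01 : 1 ≤ P0 := hNμ.trans hP0μ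
  have hP00 : 0 < P0 := by linarith
  have hP0N : P0 ≤ d.N := by
    rw [hP0d, div_le_iff₀ hN]
    nlinarith
  have hTP : T = P0 * d.N := by
    rw [hP0d, div_mul_cancel₀ _ hN.ne']
  have hεP : 0 ≤ d.ε * P0 := by positivity
  have hPc : 0 < P0 ^ (-c) := Real.rpow_pos_of_pos hP00 _
  have hsT : 0 ≤ Real.sqrt T := Real.sqrt_nonneg _
  rcases lt_or_ge P0 K0 with hsmall | hlarge
  · -- trivial bound
    have h1 : ‖∑ m ∈ d.ms C0, d.km m τ‖ ≤ C0 ^ 4 * Real.sqrt T :=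
      (norm_sum_le _ _).trans (lvw_chirps C0 d hd τ)
    have h2 : 1 ≤ K0 * P0 ^ (-c) := by
      have h3 : K0 ^ (-c) ≤ P0 ^ (-c) :=
        Real.rpow_le_rpow_of_nonpos hP00 hsmall.le (by linarith)
      have h4 : K0 ^ (-(1 : ℝ)) ≤ K0 ^ (-c) :=
        Real.rpow_le_rpow_of_exponent_le hK01 (by linarith)
      have h5 : K0 * K0 ^ (-(1 : ℝ)) = 1 := by
        rw [Real.rpow_neg_one, mul_inv_cancel₀ (by linarith)]
      have h6 : K0 * K0 ^ (-(1 : ℝ)) ≤ K0 * P0 ^ (-c) :=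
        mul_le_mul_of_nonneg_left (h4.trans h3) (by linarith)
      linarith
    refine h1.trans ?_
    calc C0 ^ 4 * Real.sqrt T ≤ (C0 ^ 4 * Real.sqrt T) * (K0 * P0 ^ (-c)) :=
          le_mul_of_one_le_right (by positivity) h2
      _ = (C0 ^ 4 * K0) * 1 * Real.sqrt T * P0 ^ (-c) := by ring
      _ ≤ (C0 ^ 4 * K0 + Ct * C1 * C0) * (1 + d.ε * P0) * Real.sqrt T * P0 ^ (-c) := by
          have h3 : 0 < Ct * C1 * C0 := by positivity
          gcongr
          · linarith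
          · linarith
  · -- the main case
    obtain ⟨σ, hσ, hτσ⟩ : ∃ σ : ℤ, (σ = 1 ∨ σ = -1) ∧ (τ : ℝ) = σ * T := by
      rcases le_total 0 (τ : ℝ) with h | h
      · refine ⟨1, Or.inl rfl, ?_⟩
        rw [hTd, abs_of_nonneg h]
        push_cast
        ring
      · refine ⟨-1, Or.inr rfl, ?_⟩
        rw [hTd, abs_of_nonpos h]
        push_cast
        ring
    rw [tw4_sum d hd hσ hT hτσ]
    set a : ℕ := ⌈2 * T / (d.b0 * d.N)⌉₊ - 1 with ha
    set b : ℕ := min ⌊C0 * T / (2 * d.N)⌋₊ ⌊C0 * d.M⌋₊ with hbd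
    set P : ℝ := P0 / C0 with hP
    have hPC : C0 * P = P0 := by
      rw [hP]
      field_simp
    have hPge : 4 * C0 ≤ P := by
      rw [hP, le_div_iff₀ hC0p]
      nlinarith
    have hP1 : 1 ≤ P := by linarith
    have hPp : 0 < P := by linarith
    have hPP0 : P ≤ P0 := by
      rw [hP]
      exact div_le_self hP00.le hC0
    have hceil : 1 ≤ ⌈2 * T / (d.b0 * d.N)⌉₊ := Nat.one_le_iff_ne_zero.2 (by
      rw [Ne, Nat.ceil_eq_zero, not_le]
      positivity)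
    have haR : (a : ℝ) + 1 = (⌈2 * T / (d.b0 * d.N)⌉₊ : ℝ) := by
      have : a + 1 = ⌈2 * T / (d.b0 * d.N)⌉₊ := by omega
      exact_mod_cast congrArg (fun n : ℕ => (n : ℝ)) this
    have ha2 : 2 * T / (d.b0 * d.N) ≤ a + 1 := by
      rw [haR]
      exact Nat.le_ceil _
    have h2P : 2 * P ≤ 2 * T / (d.b0 * d.N) := by
      rw [le_div_iff₀ (by positivity), hTP]
      have h1 : P * d.b0 ≤ P0 := by
        rw [← hPC]
        nlinarith [hd.hb2]
      nlinarith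
    have haP : P ≤ a := by linarith
    have hTN : T / d.N = P0 := hP0d.symm
    have hbP : (b : ℝ) ≤ R * P := by
      have h1 : b ≤ ⌊C0 * T / (2 * d.N)⌋₊ := min_le_left _ _
      have h2 : ((⌊C0 * T / (2 * d.N)⌋₊ : ℕ) : ℝ) ≤ C0 * T / (2 * d.N) :=
        Nat.floor_le (by positivity)
      have h3 : (b : ℝ) ≤ (⌊C0 * T / (2 * d.N)⌋₊ : ℕ) := by exact_mod_cast h1
      refine h3.trans (h2.trans ?_)
      have h4 : C0 * T / (2 * d.N) = C0 * P0 / 2 := by
        rw [hTP]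
        field_simp
      rw [h4, hR, ← hPC]
      have h5 : 0 < C0 * (C0 * P) := by positivity
      nlinarith
    rcases lt_or_ge b a with hba | hab
    · rw [Finset.Ioc_eq_empty (by omega), Finset.sum_empty, norm_zero]
      positivity
    set X : ℝ := σ * (T ^ 2 / (4 * (d.b0 * d.N))) with hX
    have hXabs : |X| = T ^ 2 / (4 * (d.b0 * d.N)) := by
      rw [hX, abs_mul, abs_of_nonneg (by positivity : (0 : ℝ) ≤ T ^ 2 / (4 * (d.b0 * d.N)))]
      rcases hσ with h | h <;> rw [h] <;> norm_num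
    have hXP : |X| * P ^ (-1 : ℝ) = C0 * T / (4 * d.b0) := by
      rw [hXabs, Real.rpow_neg_one, hP, hTP]
      field_simp
    have hXlow : P ≤ |X| * P ^ (-1 : ℝ) := by
      rw [hXP, le_div_iff₀ (by positivity), hTP]
      have h1 : 4 ≤ d.N := by nlinarith [one_le_pow₀ hC0 (n := 2)]
      have h2 : P * (4 * d.b0) ≤ P * (4 * C0) :=
        mul_le_mul_of_nonneg_left (by linarith [hd.hb2]) hPp.le
      have h3 : P * (4 * C0) = 4 * P0 := by rw [← hPC]; ring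
      have h4 : 4 * P0 ≤ C0 * (P0 * d.N) := by
        have h5 : 4 * P0 ≤ P0 * d.N := by nlinarith
        have h6 : P0 * d.N ≤ C0 * (P0 * d.N) := le_mul_of_one_le_left (by positivity) hC0
        linarith
      linarith
    have hXup : |X| * P ^ (-1 : ℝ) ≤ P ^ A := by
      rw [hXP]
      have h1 : C0 * T / (4 * d.b0) ≤ C0 * T := by
        apply div_le_self (by positivity)
        linarith [hd.hb1]
      have h2 : d.N ≤ P0 ^ (1 / μ) := by
        calc d.N = (d.N ^ μ) ^ (1 / μ) := by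
              rw [← Real.rpow_mul hN.le, mul_one_div_cancel hμ.ne', Real.rpow_one]
          _ ≤ P0 ^ (1 / μ) := Real.rpow_le_rpow (by positivity) hP0μ (by positivity)
      have h3 : P0 ≤ P ^ (2 : ℝ) := by
        rw [Real.rpow_two, ← hPC]
        nlinarith
      have h4 : P0 ^ (1 / μ) ≤ P ^ (2 / μ) := by
        calc P0 ^ (1 / μ) ≤ (P ^ (2 : ℝ)) ^ (1 / μ) :=
              Real.rpow_le_rpow hP00.le h3 (by positivity)
          _ = P ^ (2 / μ) := by
              rw [← Real.rpow_mul hPp.le]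
              congr 1
              ring
      have h5 : C0 ≤ P := by linarith
      calc C0 * T / (4 * d.b0) ≤ C0 * T := h1
        _ = C0 * (P0 * d.N) := by rw [hTP]
        _ ≤ P * (P ^ (2 : ℝ) * P ^ (2 / μ)) := by
            refine mul_le_mul h5 ?_ (by positivity) hPp.le
            exact mul_le_mul h3 (h2.trans h4) hN.le (by positivity)
        _ = P ^ A := by
            rw [hA, Real.rpow_add hPp]
            have h6 : P ^ (3 : ℝ) = P ^ (3 : ℕ) := by exact_mod_cast Real.rpow_natCast P 3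
            rw [h6, Real.rpow_two]
            ring
    have hkm : ∑ n ∈ Ioc a b, d.km (σ * n) τ =
        ∑ n ∈ Ioc a b, ee (X * (n : ℝ) ^ (-1 : ℝ) + 0 * n) * tw4_g d σ T n := by
      refine Finset.sum_congr rfl fun n hn => ?_
      rw [Finset.mem_Ioc] at hn
      exact tw4_km d hd hx hσ hτσ n (by omega)
    rw [hkm]
    have hG : ‖tw4_g d σ T b‖ ≤ C0 ^ 2 * Real.sqrt (d.N / P) := by
      refine (tw4_gnorm d hd σ T b).trans ?_
      refine mul_le_mul_of_nonneg_left (Real.sqrt_le_sqrt ?_) (by positivity)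
      apply div_le_div_of_nonneg_left hN.le hPp
      have : (a : ℝ) ≤ b := by exact_mod_cast hab
      linarith
    have hV := tw4_var d hd hx (R := R) hσ hT hP1 a b haP ha2 hbP
    have hmain := htw a b P X 0 _ _ (tw4_g d σ T) hP1 haP hab hbP hXlow hXup hG hV
    refine hmain.trans ?_
    have hGV : C0 ^ 2 * Real.sqrt (d.N / P) +
        C0 ^ 2 * Real.sqrt (d.N / P) * (1 + R + 13 * C0 * R * (d.ε * P)) ≤
        C1 * (1 + d.ε * P0) * Real.sqrt (d.N / P) := by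
      have h1 : C0 ^ 2 * Real.sqrt (d.N / P) +
          C0 ^ 2 * Real.sqrt (d.N / P) * (1 + R + 13 * C0 * R * (d.ε * P)) =
          C0 ^ 2 * (2 + R + 13 * C0 * R * (d.ε * P)) * Real.sqrt (d.N / P) := by ring
      rw [h1]
      refine mul_le_mul_of_nonneg_right ?_ (Real.sqrt_nonneg _)
      rw [hC1, mul_assoc (C0 ^ 2)]
      refine mul_le_mul_of_nonneg_left ?_ (by positivity)
      have h2 : d.ε * P ≤ d.ε * P0 := mul_le_mul_of_nonneg_left hPP0 hε
      have h3 : 13 * C0 * R * (d.ε * P) ≤ 13 * C0 * R * (d.ε * P0) :=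
        mul_le_mul_of_nonneg_left h2 (by positivity)
      have h4 : 0 ≤ (2 + R) * (d.ε * P0) := by positivity
      have h5 : 0 ≤ 13 * C0 * R := by positivity
      nlinarith
    have hfin : P ^ (1 - c) * Real.sqrt (d.N / P) ≤ C0 * Real.sqrt T * P0 ^ (-c) := by
      have h1 : P ^ (1 - c) * Real.sqrt (d.N / P) = Real.sqrt (d.N * P) * P ^ (-c) := by
        have h2 : d.N * P = P ^ 2 * (d.N / P) := by
          field_simp
        rw [h2, Real.sqrt_mul (by positivity), Real.sqrt_sq hPp.le]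
        have h3 : P ^ (1 - c) = P * P ^ (-c) := by
          rw [sub_eq_add_neg, Real.rpow_add hPp, Real.rpow_one]
        rw [h3]
        ring
      rw [h1]
      have h4 : Real.sqrt (d.N * P) ≤ Real.sqrt T := by
        apply Real.sqrt_le_sqrt
        rw [hTP]
        nlinarith
      have h5 : P ^ (-c) ≤ C0 * P0 ^ (-c) := by
        have h6 : P0 ^ (-c) = C0 ^ (-c) * P ^ (-c) := by
          rw [← hPC, Real.mul_rpow hC0p.le hPp.le]
        rw [h6, ← mul_assoc]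
        have h7 : 1 ≤ C0 * C0 ^ (-c) := by
          have h8 : C0 ^ (-(1 : ℝ)) ≤ C0 ^ (-c) :=
            Real.rpow_le_rpow_of_exponent_le hC0 (by linarith)
          have h9 : C0 * C0 ^ (-(1 : ℝ)) = 1 := by
            rw [Real.rpow_neg_one, mul_inv_cancel₀ hC0p.ne']
          have h10 : C0 * C0 ^ (-(1 : ℝ)) ≤ C0 * C0 ^ (-c) :=
            mul_le_mul_of_nonneg_left h8 hC0p.le
          linarith
        exact le_mul_of_one_le_left (by positivity) h7
      calc Real.sqrt (d.N * P) * P ^ (-c) ≤ Real.sqrt T * (C0 * P0 ^ (-c)) :=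
            mul_le_mul h4 h5 (by positivity) (by positivity)
        _ = C0 * Real.sqrt T * P0 ^ (-c) := by ring
    calc Ct * P ^ (1 - c) * (C0 ^ 2 * Real.sqrt (d.N / P) +
          C0 ^ 2 * Real.sqrt (d.N / P) * (1 + R + 13 * C0 * R * (d.ε * P)))
        ≤ Ct * P ^ (1 - c) * (C1 * (1 + d.ε * P0) * Real.sqrt (d.N / P)) :=
          mul_le_mul_of_nonneg_left hGV (by positivity)
      _ = Ct * C1 * (1 + d.ε * P0) * (P ^ (1 - c) * Real.sqrt (d.N / P)) := by ring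
      _ ≤ Ct * C1 * (1 + d.ε * P0) * (C0 * Real.sqrt T * P0 ^ (-c)) :=
          mul_le_mul_of_nonneg_left hfin (by positivity)
      _ = (Ct * C1 * C0) * (1 + d.ε * P0) * Real.sqrt T * P0 ^ (-c) := by ring
      _ ≤ (C0 ^ 4 * K0 + Ct * C1 * C0) * (1 + d.ε * P0) * Real.sqrt T * P0 ^ (-c) := by
          have h3 : 0 < C0 ^ 4 * K0 := by positivity
          gcongr
          linarith

end Pool.Agent.LibSX15
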