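import Pool.Agent.LibSX15.LVW

/-! LibSX15, block TW (helper99): Halász with an arbitrary bound for the sum of the chirps. -/

set_option autoImplicit false

namespace Pool.Agent.LibSX15

open Finset
open scoped ComplexConjugate

theorem tw5 (C0 : ℝ) (hC0 : 1 ≤ C0) : ∃ C : ℝ, 1 ≤ C ∧ ∀ (d : Dat), d.Good C0 →
    ∀ (Λ Y H P : ℝ) (a : ℕ → ℂ) (W : Finset ℤ), 1 ≤ Λ → 0 < Y → (∀ n, ‖a n‖ ≤ Λ * d.ω n) →
    (∀ t ∈ W, (0 : ℝ) ≤ t ∧ (t : ℝ) ≤ d.M * d.N) → (∀ t ∈ W, Y ≤ ‖d.D a t‖) →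
    (∀ τ : ℤ, |(τ : ℝ)| ≤ d.M * d.N → ‖∑ m ∈ d.ms C0, d.km m τ‖ ≤ P) →
    H = Λ ^ 2 * d.N ^ 2 / Y ^ 2 →
    C * H * (P + d.Err) ≤ d.N →
    (W.card : ℝ) ≤ C * H := by
  refine ⟨10 * C0 ^ 5, by nlinarith [one_le_pow₀ hC0 (n := 5)], ?_⟩
  intro d hd Λ Y H P a W hΛ hY ha hW0 hW hP hH hcond
  obtain ⟨c, hc, hdual⟩ := LV_dual C0 d hd Λ Y a W hΛ hY ha hW
  have hN : 0 < d.N := by linarith [hd.hN]
  have hM : 1 ≤ d.M := hd.hM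
  have hE : 0 < d.Err := by linarith [hd.hErr]
  have hC0' : 0 < C0 := by linarith
  have hP0 : 0 ≤ P := (norm_nonneg _).trans (hP 0 (by simp; positivity))
  set B : ℝ := P + d.Err with hB
  have hB0 : 0 < B := by positivity
  have hC4 : C0 ≤ C0 ^ 4 := by
    calc C0 = C0 ^ 1 := (pow_one _).symm
      _ ≤ C0 ^ 4 := pow_le_pow_right₀ hC0 (by norm_num)
  have hf : ∀ t ∈ W, ∀ s ∈ W,
      ‖d.k (t - s)‖ ≤ C0 ^ 4 * (d.N / (1 + ((t - s : ℤ) : ℝ) ^ 2) + B) := by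
    intro t ht s hs
    have h1 := hW0 t ht
    have h2 := hW0 s hs
    have h3 : |((t - s : ℤ) : ℝ)| ≤ d.M * d.N := by
      push_cast
      rw [abs_le]
      constructor <;> nlinarith
    have h4 : |((t - s : ℤ) : ℝ)| ≤ 8 * d.M * d.N := by nlinarith
    have e1 := hd.hk (t - s) h4
    have e2 := hP (t - s) h3
    have e3 : ‖d.k (t - s)‖ ≤ ‖d.k (t - s) - ∑ m ∈ d.ms C0, d.km m (t - s)‖ +
        ‖∑ m ∈ d.ms C0, d.km m (t - s)‖ := by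
      have := norm_add_le (d.k (t - s) - ∑ m ∈ d.ms C0, d.km m (t - s))
        (∑ m ∈ d.ms C0, d.km m (t - s))
      simpa using this
    have e4 : C0 * (d.N / (1 + ((t - s : ℤ) : ℝ) ^ 2) + d.Err) ≤
        C0 ^ 4 * (d.N / (1 + ((t - s : ℤ) : ℝ) ^ 2) + d.Err) :=
      mul_le_mul_of_nonneg_right hC4 (by positivity)
    have e5 : P ≤ C0 ^ 4 * P := le_mul_of_one_le_left hP0 (one_le_pow₀ hC0)
    calc ‖d.k (t - s)‖ ≤ C0 * (d.N / (1 + ((t - s : ℤ) : ℝ) ^ 2) + d.Err) + P := e3.trans (add_le_add e1 e2)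
      _ ≤ C0 ^ 4 * (d.N / (1 + ((t - s : ℤ) : ℝ) ^ 2) + d.Err) + C0 ^ 4 * P := add_le_add e4 e5
      _ = _ := by rw [hB]; ring
  have hd2 := lvw_double W d.k c hc (C0 ^ 4) d.N B (by positivity) hN.le hf
  rcases Nat.eq_zero_or_pos W.card with h0 | hpos
  · rw [h0, hH]
    simp only [Nat.cast_zero]
    positivity
  have hp : (0 : ℝ) < W.card := by exact_mod_cast hpos
  have h5 : ((W.card : ℝ) * Y) ^ 2 ≤
      Λ ^ 2 * (C0 * d.N) * (C0 ^ 4 * (5 * d.N * W.card + B * (W.card : ℝ) ^ 2)) :=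
    hdual.trans (mul_le_mul_of_nonneg_left hd2 (by positivity))
  have hHY : H * Y ^ 2 = Λ ^ 2 * d.N ^ 2 := by
    rw [hH]
    field_simp
  have hc1 : 10 * C0 ^ 5 * (Λ ^ 2 * d.N * B) ≤ Y ^ 2 := by
    have h : 10 * C0 ^ 5 * H * B * Y ^ 2 ≤ d.N * Y ^ 2 :=
      mul_le_mul_of_nonneg_right hcond (by positivity)
    have h' : d.N * (10 * C0 ^ 5 * (Λ ^ 2 * d.N * B)) ≤ d.N * Y ^ 2 := by
      calc d.N * (10 * C0 ^ 5 * (Λ ^ 2 * d.N * B)) = 10 * C0 ^ 5 * B * (Λ ^ 2 * d.N ^ 2) := by ring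
        _ = 10 * C0 ^ 5 * H * B * Y ^ 2 := by rw [← hHY]; ring
        _ ≤ d.N * Y ^ 2 := h
    exact le_of_mul_le_mul_left h' hN
  have h6 : Λ ^ 2 * (C0 * d.N) * (C0 ^ 4 * (B * (W.card : ℝ) ^ 2)) ≤ (W.card : ℝ) ^ 2 * Y ^ 2 / 2 := by
    have : (W.card : ℝ) ^ 2 * (10 * C0 ^ 5 * (Λ ^ 2 * d.N * B)) ≤ (W.card : ℝ) ^ 2 * Y ^ 2 :=
      mul_le_mul_of_nonneg_left hc1 (by positivity)
    have hpos' : 0 ≤ (W.card : ℝ) ^ 2 * (C0 ^ 5 * (Λ ^ 2 * d.N * B)) := by positivity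
    nlinarith
  have h7 : (W.card : ℝ) ^ 2 * Y ^ 2 ≤ 10 * C0 ^ 5 * (Λ ^ 2 * d.N ^ 2) * W.card := by nlinarith
  have h8 : (W.card : ℝ) * Y ^ 2 ≤ 10 * C0 ^ 5 * H * Y ^ 2 := by
    have : (W.card : ℝ) * ((W.card : ℝ) * Y ^ 2) ≤ (W.card : ℝ) * (10 * C0 ^ 5 * (Λ ^ 2 * d.N ^ 2)) := by
      nlinarith
    have h9 := le_of_mul_le_mul_left this hp
    rw [mul_assoc (10 * C0 ^ 5), hHY]
    exact h9
  exact le_of_mul_le_mul_right h8 (by positivity)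

end Pool.Agent.LibSX15
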