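import Pool.Agent.LibSX15.TW4
import Pool.Agent.LibSX15.TW5

/-! ROW TW6 (uses `tw4`, `tw5`, `lvw_chirps` as stated). Halász with the van der Corput bound: the proposition `HPX`.
`c` from `tw4` with the exponent `μ`, `C = max` of the constants times `C0^4` etc. `P = C0^4 √(N M0) + C4 (1 + ε M) √(N M) M0^(-c)`:
for `|τ| ≤ M0 N`: `lvw_chirps` (`‖∑‖ ≤ ∑ ‖·‖ ≤ C0^4 √|τ|`); for `M0 N ≤ |τ| ≤ M N` (`≤ N²` as `M ≤ N`, and `N N^μ ≤ N M0 ≤ |τ|`): `tw4`, with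
`|τ|/N ≤ M`, `√|τ| ≤ √(N M)`, `(|τ|/N)^(-c) ≤ M0^(-c)` (`M0 ≥ N^μ > 0`, `Real.rpow_le_rpow_of_nonpos`). -/

set_option autoImplicit false

namespace Pool.Agent.LibSX15

open Finset

theorem tw6 (C0 μ : ℝ) (hC0 : 1 ≤ C0) (hμ : 0 < μ) : ∃ c C : ℝ, HPX C0 μ c C := by
  obtain ⟨c, C4, hc, hC4, h4⟩ := tw4 C0 μ hC0 hμ
  obtain ⟨C5, hC5, h5⟩ := tw5 C0 hC0
  have hC04 : 1 ≤ C0 ^ 4 := one_le_pow₀ hC0
  have hK : 1 ≤ C0 ^ 4 * C4 := by nlinarith
  refine ⟨c, C5 * (C0 ^ 4 * C4), hc, by nlinarith, ?_⟩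
  intro d hd he hMN Λ Y H M0 a W hΛ hY ha hW0 hW hH hM0 hM0M hcond
  have hN : 0 < d.N := by linarith [hd.hN]
  have hM : 1 ≤ d.M := hd.hM
  have hE : 0 < d.Err := by linarith [hd.hErr]
  have hε : 0 ≤ d.ε := hd.hε
  have hM00 : 0 < M0 := lt_of_lt_of_le (Real.rpow_pos_of_pos hN μ) hM0
  have hH0 : 0 ≤ H := by rw [hH]; positivity
  set A : ℝ := Real.sqrt (d.N * M0) with hA
  set B : ℝ := (1 + d.ε * d.M) * Real.sqrt (d.N * d.M) * M0 ^ (-c) with hB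
  have hA0 : 0 ≤ A := Real.sqrt_nonneg _
  have hB0 : 0 ≤ B := by positivity
  have hP : ∀ τ : ℤ, |(τ : ℝ)| ≤ d.M * d.N → ‖∑ m ∈ d.ms C0, d.km m τ‖ ≤ C0 ^ 4 * A + C4 * B := by
    intro τ hτ
    rcases le_or_gt |(τ : ℝ)| (d.N * M0) with h1 | h1
    · have h2 := lvw_chirps C0 d hd τ
      have h3 : C0 ^ 4 * Real.sqrt |(τ : ℝ)| ≤ C0 ^ 4 * A :=
        mul_le_mul_of_nonneg_left (Real.sqrt_le_sqrt h1) (by positivity)
      have h4' : 0 ≤ C4 * B := by positivity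
      have h5' := norm_sum_le (d.ms C0) (fun m => d.km m τ)
      linarith
    · have h2 : d.N * d.N ^ μ ≤ |(τ : ℝ)| :=
        (mul_le_mul_of_nonneg_left hM0 hN.le).trans h1.le
      have h3 : |(τ : ℝ)| ≤ d.N ^ 2 := by nlinarith
      have h6 := h4 d hd he τ h2 h3
      have h7 : |(τ : ℝ)| / d.N ≤ d.M := by
        rw [div_le_iff₀ hN]
        exact hτ
      have h8 : M0 ≤ |(τ : ℝ)| / d.N := by
        rw [le_div_iff₀ hN]
        linarith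
      have h9 : (|(τ : ℝ)| / d.N) ^ (-c) ≤ M0 ^ (-c) :=
        Real.rpow_le_rpow_of_nonpos hM00 h8 (by linarith)
      have h10 : Real.sqrt |(τ : ℝ)| ≤ Real.sqrt (d.N * d.M) :=
        Real.sqrt_le_sqrt (by linarith)
      have h11 : 1 + d.ε * (|(τ : ℝ)| / d.N) ≤ 1 + d.ε * d.M := by
        have := mul_le_mul_of_nonneg_left h7 hε
        linarith
      have h12 : 0 ≤ (|(τ : ℝ)| / d.N) ^ (-c) := by positivity
      have h13 : (1 + d.ε * (|(τ : ℝ)| / d.N)) * Real.sqrt |(τ : ℝ)| *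
          (|(τ : ℝ)| / d.N) ^ (-c) ≤ B := by
        rw [hB]
        refine mul_le_mul (mul_le_mul h11 h10 (Real.sqrt_nonneg _) ?_) h9 h12 ?_
        · positivity
        · positivity
      have h14 : C4 * (1 + d.ε * (|(τ : ℝ)| / d.N)) * Real.sqrt |(τ : ℝ)| *
          (|(τ : ℝ)| / d.N) ^ (-c) ≤ C4 * B := by
        calc _ = C4 * ((1 + d.ε * (|(τ : ℝ)| / d.N)) * Real.sqrt |(τ : ℝ)| *
          (|(τ : ℝ)| / d.N) ^ (-c)) := by ring
          _ ≤ _ := mul_le_mul_of_nonneg_left h13 (by linarith)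
      have h15 : 0 ≤ C0 ^ 4 * A := by positivity
      linarith
  have hle : C0 ^ 4 * A + C4 * B + d.Err ≤ C0 ^ 4 * C4 * (A + B + d.Err) := by
    have e1 : C0 ^ 4 * A ≤ C0 ^ 4 * C4 * A :=
      mul_le_mul_of_nonneg_right (le_mul_of_one_le_right (by positivity) hC4) hA0
    have e2 : C4 * B ≤ C0 ^ 4 * C4 * B :=
      mul_le_mul_of_nonneg_right (le_mul_of_one_le_left (by linarith) hC04) hB0
    have e3 : d.Err ≤ C0 ^ 4 * C4 * d.Err := le_mul_of_one_le_left hE.le hK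
    linarith
  have hfin := h5 d hd Λ Y H (C0 ^ 4 * A + C4 * B) a W hΛ hY ha hW0 hW hP hH (by
    refine le_trans ?_ hcond
    calc C5 * H * (C0 ^ 4 * A + C4 * B + d.Err)
        ≤ C5 * H * (C0 ^ 4 * C4 * (A + B + d.Err)) :=
          mul_le_mul_of_nonneg_left hle (by positivity)
      _ = C5 * (C0 ^ 4 * C4) * H * (A + B + d.Err) := by ring)
  refine hfin.trans ?_
  calc C5 * H ≤ (C5 * H) * (C0 ^ 4 * C4) := le_mul_of_one_le_right (by positivity) hK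
    _ = C5 * (C0 ^ 4 * C4) * H := by ring

end Pool.Agent.LibSX15
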