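import Pool.Agent.LibSX15.AS6
import Pool.Agent.LibSX15.AS7
import Pool.Agent.LibSX15.TW0

/-! LibSX15, block TW (helper99): AS8 for the data with the additional properties (proof = helper30, row AS8). -/

set_option autoImplicit false

namespace Pool.Agent.LibSX15

open Finset

private theorem tw7_err (K M Λ T s r x v U : ℝ) (hs : 0 < s) (hr : 0 < r) (hKs : K = s ^ 2)
    (hTr : T = r ^ 2) (hM : 1 ≤ M) (hΛ : 1 ≤ Λ) (hx : 0 < x) (hv0 : 0 ≤ v) (hv : v ≤ M * s / 12)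
    (hU : U = x + v) (h1 : T ≤ tt x) (h2 : tt U ≤ 2 * T) :
    Λ * K * ((tt U - tt x) / T + K * s * v ^ 2 / x ^ 3) ≤
      Λ * (M * s ^ 3 / r + M ^ 2 * s ^ 7 / r ^ 3) := by
  unfold tt at h1 h2 ⊢
  have hpi3 : (3.1 : ℝ) < Real.pi := by
    have := Real.pi_gt_d2
    linarith
  have hpi4 : Real.pi < 3.15 := Real.pi_lt_d2
  have hU0 : 0 < U := by rw [hU]; linarith
  -- U ≤ 0.57 r, in the form 3.1 U^2 ≤ r^2
  have hUr : U ^ 2 * 3.1 ≤ r ^ 2 := by nlinarith [sq_nonneg U]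
  have hUr2 : U ≤ r * (0.57 : ℝ) := by
    by_contra hcon
    push Not at hcon
    have : (r * 0.57) ^ 2 < U ^ 2 := pow_lt_pow_left₀ hcon (by positivity) (by norm_num)
    nlinarith [pow_pos hr 2]
  have hxr : r ^ 2 ≤ 6.3 * x ^ 2 := by nlinarith [sq_nonneg x]
  have hxr2 : r ≤ 2.6 * x := by
    by_contra hcon
    push Not at hcon
    have : (2.6 * x) ^ 2 < r ^ 2 := pow_lt_pow_left₀ hcon (by positivity) (by norm_num)
    nlinarith [pow_pos hx 2]
  -- first part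
  have hA : (2 * Real.pi * U ^ 2 - 2 * Real.pi * x ^ 2) / T ≤ M * s / r := by
    have e1 : 2 * Real.pi * U ^ 2 - 2 * Real.pi * x ^ 2 = 2 * Real.pi * (v * (U + x)) := by
      rw [hU]; ring
    rw [e1, hTr, div_le_div_iff₀ (by positivity) hr]
    have e2 : v * (U + x) ≤ (M * s / 12) * (r * 0.57 + r * 0.57) := by
      refine mul_le_mul hv ?_ (by linarith) (by positivity)
      have : x ≤ U := by rw [hU]; linarith
      linarith
    have e3 : 0 ≤ v * (U + x) := by positivity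
    have e4 : 2 * Real.pi * (v * (U + x)) ≤ 6.3 * ((M * s / 12) * (r * 0.57 + r * 0.57)) := by
      refine mul_le_mul (by linarith) e2 e3 (by norm_num)
    have e5 : 6.3 * ((M * s / 12) * (r * 0.57 + r * 0.57)) ≤ M * s * r := by
      have : 0 < M * s * r := by positivity
      nlinarith
    calc 2 * Real.pi * (v * (U + x)) * r ≤ (M * s * r) * r :=
          mul_le_mul_of_nonneg_right (e4.trans e5) hr.le
      _ = M * s * r ^ 2 := by ring
  -- second part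
  have hB : K * s * v ^ 2 / x ^ 3 ≤ M ^ 2 * s ^ 5 / r ^ 3 := by
    rw [hKs, div_le_div_iff₀ (by positivity) (by positivity)]
    have f1 : v ^ 2 ≤ (M * s / 12) ^ 2 := pow_le_pow_left₀ hv0 hv 2
    have f2 : r ^ 3 ≤ (2.6 * x) ^ 3 := pow_le_pow_left₀ hr.le hxr2 3
    have f3 : v ^ 2 * r ^ 3 ≤ (M * s / 12) ^ 2 * (2.6 * x) ^ 3 :=
      mul_le_mul f1 f2 (by positivity) (by positivity)
    have f4 : (M * s / 12) ^ 2 * (2.6 * x) ^ 3 ≤ M ^ 2 * s ^ 2 * x ^ 3 := by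
      have : 0 < M ^ 2 * s ^ 2 * x ^ 3 := by positivity
      nlinarith
    calc s ^ 2 * s * v ^ 2 * r ^ 3 = s ^ 3 * (v ^ 2 * r ^ 3) := by ring
      _ ≤ s ^ 3 * (M ^ 2 * s ^ 2 * x ^ 3) :=
          mul_le_mul_of_nonneg_left (f3.trans f4) (by positivity)
      _ = M ^ 2 * s ^ 5 * x ^ 3 := by ring
  have hK0 : 0 ≤ Λ * K := by rw [hKs]; positivity
  calc Λ * K * ((2 * Real.pi * U ^ 2 - 2 * Real.pi * x ^ 2) / T + K * s * v ^ 2 / x ^ 3)
      ≤ Λ * K * (M * s / r + M ^ 2 * s ^ 5 / r ^ 3) :=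
        mul_le_mul_of_nonneg_left (add_le_add hA hB) hK0
    _ = Λ * (M * s ^ 3 / r + M ^ 2 * s ^ 7 / r ^ 3) := by rw [hKs]; ring

theorem tw7 (C0 C T K M Λ Y B : ℝ) (c : ℕ → ℝ → ℂ) (hKP : KPX C0) (hc : CC C T K c)
    (hΛ : ∀ n : ℕ, (n : ℝ) ≤ K → C * n.divisors.card ≤ Λ) (hΛ1 : 1 ≤ Λ)
    (hT : 1000 ≤ T) (hK2 : 2 ≤ K) (hKT : K ≤ T / 1000) (hM1 : 1 ≤ M) (hMK : M ≤ K) (hY : 0 < Y) (hB : 0 ≤ B)
    (hYX : Y ≤ 2 * (Λ * K))
    (hE : Λ * (M * K ^ (3 / 2 : ℝ) / T ^ (1 / 2 : ℝ) + M ^ 2 * K ^ (7 / 2 : ℝ) / T ^ (3 / 2 : ℝ)) ≤ Y / 2)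
    (hκ : M * K ^ (1 / 2 : ℝ) ≤ 12 * T ^ (1 / 2 : ℝ))
    (hLV : ∀ x : ℝ, 0 < x → tt x ∈ Set.Icc T (2 * T) → ∀ d : Dat, d.Good C0 → d.Extra C0 → d.N = K → d.M = M →
      d.ε = 3 * K ^ 2 / x ^ 2 → d.Err = C0 * (1 + M * (3 * K ^ 2 / x ^ 2)) ^ 2 * (1 + Real.log M) →
      ∀ (a : ℕ → ℂ) (W : Finset ℤ) (y : ℝ), Y / 2 ≤ y → (∀ n, ‖a n‖ ≤ Λ * d.ω n) →
      (∀ t ∈ W, (0 : ℝ) ≤ t ∧ (t : ℝ) ≤ M * K) → (∀ t ∈ W, y ≤ ‖d.D a t‖) →
      (W.card : ℝ) ≤ B / y ^ 2) :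
    TT K c T Y ≤ 96 * T / (M * K) * B * (4 + 6 * Real.log (2 * (Λ * K) / Y)) := by
  have hK0 : 0 < K := by linarith
  have hT0 : 0 < T := by linarith
  have hM0 : 0 < M := by linarith
  have hΛ0 : 0 ≤ Λ := by linarith
  obtain ⟨s, hsdef⟩ : ∃ s : ℝ, s = Real.sqrt K := ⟨_, rfl⟩
  obtain ⟨r, hrdef⟩ : ∃ r : ℝ, r = Real.sqrt T := ⟨_, rfl⟩
  have hs : 0 < s := hsdef ▸ Real.sqrt_pos.mpr hK0
  have hr : 0 < r := hrdef ▸ Real.sqrt_pos.mpr hT0
  have hKs : K = s ^ 2 := by rw [hsdef, Real.sq_sqrt hK0.le]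
  have hTr : T = r ^ 2 := by rw [hrdef, Real.sq_sqrt hT0.le]
  -- the real powers
  have rp : ∀ z w : ℝ, 0 < w → z = w ^ 2 → ∀ k : ℕ, z ^ ((k : ℝ) / 2) = w ^ k := by
    intro z w hw hz k
    rw [hz, ← Real.rpow_natCast w 2, ← Real.rpow_mul hw.le, ← Real.rpow_natCast w k]
    congr 1
    push_cast
    ring
  have p1 : K ^ (3 / 2 : ℝ) = s ^ 3 := by
    have := rp K s hs hKs 3
    norm_num at this ⊢
    exact this
  have p2 : K ^ (7 / 2 : ℝ) = s ^ 7 := by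
    have := rp K s hs hKs 7
    norm_num at this ⊢
    exact this
  have p3 : K ^ (1 / 2 : ℝ) = s := by
    rw [hsdef, Real.sqrt_eq_rpow]
  have p4 : T ^ (1 / 2 : ℝ) = r := by
    rw [hrdef, Real.sqrt_eq_rpow]
  have p5 : T ^ (3 / 2 : ℝ) = r ^ 3 := by
    have := rp T r hr hTr 3
    norm_num at this ⊢
    exact this
  rw [p1, p2, p4, p5] at hE
  rw [p3, p4] at hκ
  -- the number of points
  obtain ⟨J, hJdef⟩ : ∃ J : ℕ, J = ⌊M * K⌋₊ := ⟨_, rfl⟩
  have hMK2 : 2 ≤ M * K := by nlinarith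
  have hJ1 : (J : ℝ) ≤ M * K := hJdef ▸ Nat.floor_le (by positivity)
  have hJ2 : M * K < J + 1 := hJdef ▸ Nat.lt_floor_add_one _
  have hJ3 : M * K / 2 ≤ J := by linarith
  have hJ4 : 1 ≤ J := by
    have : (1 : ℝ) ≤ J := by linarith
    exact_mod_cast this
  have hkap : kap K = 1 / (12 * s) := by rw [kap, hsdef]
  have hkap0 : 0 < kap K := by rw [hkap]; positivity
  have hkapJ : ∀ j : ℝ, j ≤ M * K → kap K * j ≤ M * s / 12 := by
    intro j hj
    rw [hkap, div_mul_eq_mul_div, one_mul, div_le_div_iff₀ (by positivity) (by norm_num)]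
    have : j ≤ M * s ^ 2 := hKs ▸ hj
    nlinarith
  have hκJ : kap K * J ≤ Real.sqrt T := by
    refine (hkapJ J hJ1).trans ?_
    rw [← hrdef]
    linarith
  have hX := (as5c C T K Λ c hc hK0.le hΛ).2
  have hmain := as7 C T K Y (Λ * K) B (kap K) J c hc (by linarith) hJ4 hY hkap0 hκJ hB hYX
    (fun x v hx => hX x v hx) ?_ ?_
  · -- conclusion
    refine hmain.trans ?_
    have hlog : 0 ≤ Real.log (2 * (Λ * K) / Y) := by
      refine Real.log_nonneg ?_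
      rw [le_div_iff₀ hY]
      linarith
    have hJ0 : (0 : ℝ) < J := by linarith
    have h1 : 48 * T / J ≤ 96 * T / (M * K) := by
      rw [div_le_div_iff₀ hJ0 (by positivity)]
      nlinarith
    exact mul_le_mul_of_nonneg_right (mul_le_mul_of_nonneg_right h1 hB) (by linarith)
  · -- the error of the linearisation
    intro x hx j hj h1 h2
    have hj0 : (0 : ℝ) ≤ j := Nat.cast_nonneg _
    have hjJ : (j : ℝ) ≤ M * K := by
      have : (j : ℝ) < J := by exact_mod_cast hj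
      linarith
    have hv0 : 0 ≤ kap K * j := mul_nonneg hkap0.le hj0
    have h5 := as5 C T K Λ c hc hT0 hK0.le hΛ x (x + kap K * j) hx (by linarith) h1 h2
    rw [add_sub_cancel_left] at h5
    refine h5.trans (le_trans ?_ hE)
    rw [← hsdef]
    exact tw7_err K M Λ T s r x (kap K * j) (x + kap K * j) hs hr hKs hTr hM1 hΛ1 hx hv0
      (hkapJ j hjJ) rfl h1 h2
  · -- the count
    intro x hx hxT y hy
    have hpi4 : Real.pi < 3.15 := Real.pi_lt_d2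
    have hx2 : T ≤ 6.3 * x ^ 2 := by
      have := hxT.1
      unfold tt at this
      nlinarith [sq_nonneg x]
    have hx1 : 1 ≤ x := by
      by_contra hcon
      push Not at hcon
      have : x ^ 2 < 1 := by nlinarith
      linarith
    obtain ⟨d, hd, hdX, hdN, hdM, hdε, hdErr, hS, hξ⟩ := hKP.2 K M x hK2 hM1 hMK hx1 (by linarith)
    obtain ⟨ha, hD⟩ := as6 d C T K Λ x c hc hK0 hΛ0 hd.hω0 hΛ hS hξ hxT
    have hcount := hLV x hx hxT d hd hdX hdN hdM hdε hdErr (aa c x)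
      (((range J).filter (fun j : ℕ => y ≤ ‖SL K c x (kap K * j)‖)).image (fun j : ℕ => (j : ℤ)))
      y hy ha ?_ ?_
    · rw [Finset.card_image_of_injective _ (fun a b h => by exact_mod_cast h)] at hcount
      exact hcount
    · intro t ht
      obtain ⟨j, hj, rfl⟩ := Finset.mem_image.mp ht
      have hj' := Finset.mem_range.mp (Finset.mem_filter.mp hj).1
      have : (j : ℝ) < J := by exact_mod_cast hj'
      rw [Int.cast_natCast]
      exact ⟨Nat.cast_nonneg _, by linarith⟩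
    · intro t ht
      obtain ⟨j, hj, rfl⟩ := Finset.mem_image.mp ht
      rw [hD, Int.cast_natCast]
      exact (Finset.mem_filter.mp hj).2

end Pool.Agent.LibSX15
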