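import Pool.Agent.LibSX15.AS4
import Pool.Agent.LibSX15.TW6
import Pool.Agent.LibSX15.TW7

/-! ROW TW8 (uses AS4, `as5c`, TW6 (`tw6`), TW7 (`tw7`) as stated; model: the proof of AS9 in the store, SX_AS9.lean). Middle `K`: Halász with the
van der Corput bound, a POWER SAVING against AS9.
`obtain ⟨c, C2, hHP⟩ := tw6 C0 e hKP.1 he` (so `HPX C0 e c C2`). Put `c' = min c 1`, `r = min (min (e/32) (e c'/8)) (min (1/64) (y/16))`, `Λ = T^r`,
`M0 = T^(1 - e/2)/K²`, `M = T^(1 + 4r)/K²`, `B = C2 Λ² K²`, `K = T^κ`, `κ = log K/log T ∈ [1/3 + y, 1/2 - e]`. Everything is a power of `T`; constants and logarithms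
are `≤ T^(r/100)` for large `T`.
* `C1 d(n) ≤ T^r = Λ` (as4). `2 ≤ K ≤ T/1000`. If `Y > 2 Λ K` then `TT = 0` (`as5c`, the integrand is 0), trivial.
* `1 ≤ M`: `1 + 4r - 2κ ≥ 0`. `M ≤ K`: `1 + 4r ≤ 3κ` as `4r ≤ 3y`. `K^e ≤ M0`: `eκ ≤ e/2 ≤ 3e/2 ≤ 1 - e/2 - 2κ`. `M0 ≤ M`.
* hE: first term exponent `r + (1 + 4r - 2κ) + 3κ/2 - 1/2 = 1/2 + 5r - κ/2` against `(1+κ)/4 - r`: `6r + 1/4 < 3κ/4` as `3κ/4 ≥ 1/4 + 3y/4`, `6r ≤ 3y/8`.
  second: `r + 2(1 + 4r - 2κ) + 7κ/2 - 3/2 = 1/2 + 9r - κ/2`: `10 r ≤ 5y/8 < 3y/4`.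
* hκ: `1 + 4r - 2κ + κ/2 ≤ 1/2`: `4r + 1/2 ≤ 3κ/2`.
* hLV: `x² ≥ T/(2π)`, `d.ε = 3K²/x² ≤ 6π K²/T`, `d.ε M ≤ 6π T^(4r)`, `Err ≤ C0 (20 T^(4r))² (1 + log T) ≤ T^(8r + small)`; for `y' ≥ Y/2`,
  `H = Λ²K²/y'² ≤ 4 T^(4r) K^(3/2) T^(-1/2)` (exponent `4r + 3κ/2 - 1/2`).
  `H √(K M0)`: `4r + κ - e/4 < κ`;  `H (1 + εM) √(KM) M0^(-c)`: `M0^(-c) ≤ M0^(-c')` (`M0 ≥ 1`) `≤ T^(-3 e c'/2)`:
  `(4r + 3κ/2 - 1/2) + 4r + (1/2 + 2r - κ/2) - 3 e c'/2 = κ + 10 r - 3 e c'/2 < κ`;  `H Err`: `12 r + small + 3κ/2 - 1/2 < κ` since `κ/2 ≤ 1/4` and `12 r ≤ 3/16`.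
  So `HPX` gives `|W| ≤ C2 H = B/y'²`.
* conclusion: `96 T/(M K) * C2 Λ² K² * (4 + 6 log (2ΛK/Y))`: exponent `1 - (1 + 4r - 2κ) - κ + 2r + 2κ = 3κ - 2r`, `≤ T^(-r) K³`. -/

set_option autoImplicit false

namespace Pool.Agent.LibSX15

open Finset

theorem tw8_zero (K T Y X : ℝ) (c : ℕ → ℝ → ℂ) (hT : 0 ≤ T) (h : ∀ t ∈ Set.Icc T (2 * T), ‖SS K c t‖ ≤ X)
    (hY : X < Y) : TT K c T Y = 0 := by
  classical
  unfold TT
  have h0 : Set.EqOn (fun t => if Y ≤ ‖SS K c t‖ then ‖SS K c t‖ ^ 2 else 0) (fun _ => (0 : ℝ))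
      (Set.uIcc T (2 * T)) := by
    intro t ht
    rw [Set.uIcc_of_le (by linarith)] at ht
    have h1 := h t ht
    have h2 : ¬ (Y ≤ ‖SS K c t‖) := by linarith
    simp [h2]
  have h3 := intervalIntegral.integral_congr (μ := MeasureTheory.volume) h0
  simp only [intervalIntegral.integral_zero] at h3
  convert h3 using 2

/-- a constant times an exponential -/
theorem tw8_exp (A s a b : ℝ) (hA : A ≤ Real.exp s) (h : s + a ≤ b) : A * Real.exp a ≤ Real.exp b := by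
  calc A * Real.exp a ≤ Real.exp s * Real.exp a := mul_le_mul_of_nonneg_right hA (Real.exp_pos _).le
    _ = Real.exp (s + a) := (Real.exp_add s a).symm
    _ ≤ Real.exp b := Real.exp_le_exp.mpr h

theorem tw8 (C0 C1 e y : ℝ) (hKP : KPX C0) (hC1 : 1 ≤ C1) (he : 0 < e) (he1 : e ≤ 1 / 10) (hy : 0 < y) (hy1 : y ≤ 1 / 10) :
    ∃ r T0 : ℝ, 0 < r ∧ 3 ≤ T0 ∧ ∀ T : ℝ, T0 ≤ T → ∀ (K : ℝ) (c : ℕ → ℝ → ℂ), CC C1 T K c →
      T ^ (1 / 3 + y) ≤ K → K ≤ T ^ (1 / 2 - e) → ∀ Y : ℝ, (T * K) ^ (1 / 4 : ℝ) * T ^ (-r) ≤ Y →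
      TT K c T Y ≤ T ^ (-r) * K ^ 3 := by
  have hC0 : 1 ≤ C0 := hKP.1
  obtain ⟨c0, C2, hHP⟩ := tw6 C0 e hC0 he
  have hc0 : 0 < c0 := hHP.1
  have hC2 : 1 ≤ C2 := hHP.2.1
  have hHP' := hHP.2.2
  obtain ⟨c', hc'⟩ : ∃ c', c' = min c0 1 := ⟨_, rfl⟩
  have hc'0 : 0 < c' := by rw [hc']; exact lt_min hc0 one_pos
  have hc'1 : c' ≤ c0 := by rw [hc']; exact min_le_left _ _
  obtain ⟨r, hr⟩ : ∃ r, r = min (min (e / 32) (e * c' / 8)) (min (1 / 64) (y / 16)) := ⟨_, rfl⟩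
  have hr1 : r ≤ e / 32 := by rw [hr]; exact (min_le_left _ _).trans (min_le_left _ _)
  have hr2 : r ≤ e * c' / 8 := by rw [hr]; exact (min_le_left _ _).trans (min_le_right _ _)
  have hr3 : r ≤ 1 / 64 := by rw [hr]; exact (min_le_right _ _).trans (min_le_left _ _)
  have hr4 : r ≤ y / 16 := by rw [hr]; exact (min_le_right _ _).trans (min_le_right _ _)
  have hr0 : 0 < r := by
    rw [hr]
    exact lt_min (lt_min (by positivity) (by positivity)) (lt_min (by norm_num) (by positivity))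
  obtain ⟨Ta, hTa, ha⟩ := as4 C1 r (by linarith) hr0
  obtain ⟨Tb, hTb, hb⟩ := as4b (100000 * C0 * C2) (r / 100) 1 (by positivity) (by linarith)
  refine ⟨r, max (max Ta Tb) (10 ^ 6), hr0, le_trans hTa (le_trans (le_max_left _ _) (le_max_left _ _)), ?_⟩
  intro T hT K c hc hK1 hK2 Y hY
  have hTTa : Ta ≤ T := le_trans (le_trans (le_max_left _ _) (le_max_left _ _)) hT
  have hTTb : Tb ≤ T := le_trans (le_trans (le_max_right _ _) (le_max_left _ _)) hT
  have hT6 : (10 : ℝ) ^ 6 ≤ T := le_trans (le_max_right _ _) hT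
  have hT0 : 0 < T := lt_of_lt_of_le (by norm_num) hT6
  have hK0 : 0 < K := lt_of_lt_of_le (Real.rpow_pos_of_pos hT0 _) hK1
  obtain ⟨L, hL⟩ : ∃ L, L = Real.log T := ⟨_, rfl⟩
  obtain ⟨k, hk⟩ : ∃ k, k = Real.log K := ⟨_, rfl⟩
  obtain ⟨E, hE⟩ : ∃ E, E = e * L := ⟨_, rfl⟩
  obtain ⟨R, hR⟩ : ∃ R, R = r * L := ⟨_, rfl⟩
  obtain ⟨Z, hZ⟩ : ∃ Z, Z = y * L := ⟨_, rfl⟩
  obtain ⟨G, hG⟩ : ∃ G, G = c' * E := ⟨_, rfl⟩
  have hTL : T = Real.exp L := by rw [hL, Real.exp_log hT0]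
  have hKk : K = Real.exp k := by rw [hk, Real.exp_log hK0]
  have hL1 : 1 ≤ L := by
    rw [hL, Real.le_log_iff_exp_le hT0]
    exact le_trans (le_trans Real.exp_one_lt_d9.le (by norm_num)) hT6
  have hL0 : 0 ≤ L := by linarith
  have hEpos : 0 < E := by rw [hE]; positivity
  have hRpos : 0 < R := by rw [hR]; positivity
  have hZpos : 0 < Z := by rw [hZ]; positivity
  have hRE : R ≤ E / 32 := by
    rw [hE, hR]
    have := mul_le_mul_of_nonneg_right hr1 hL0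
    linarith
  have hRG : R ≤ G / 8 := by
    rw [hG, hE, hR]
    have := mul_le_mul_of_nonneg_right hr2 hL0
    linarith
  have hRL : R ≤ L / 64 := by
    rw [hR]
    have := mul_le_mul_of_nonneg_right hr3 hL0
    linarith
  have hRZ : R ≤ Z / 16 := by
    rw [hZ, hR]
    have := mul_le_mul_of_nonneg_right hr4 hL0
    linarith
  have hEL : E ≤ L / 10 := by
    rw [hE]
    have := mul_le_mul_of_nonneg_right he1 hL0
    linarith
  have hkl : L / 3 + Z ≤ k := by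
    rw [hk, Real.le_log_iff_exp_le hK0]
    refine le_trans (le_of_eq ?_) hK1
    rw [Real.rpow_def_of_pos hT0, ← hL, hZ]; congr 1; ring
  have hku : k ≤ L / 2 - E := by
    rw [hk, Real.log_le_iff_le_exp hK0]
    refine le_trans hK2 (le_of_eq ?_)
    rw [Real.rpow_def_of_pos hT0, ← hL, hE]; congr 1; ring
  -- the powers
  have pT : ∀ a : ℝ, T ^ a = Real.exp (a * L) := fun a => by
    rw [Real.rpow_def_of_pos hT0, ← hL, mul_comm]
  have pK : ∀ a : ℝ, K ^ a = Real.exp (a * k) := fun a => by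
    rw [Real.rpow_def_of_pos hK0, ← hk, mul_comm]
  -- the constant
  have hP : 100000 * C0 * C2 * L ≤ Real.exp (R / 100) := by
    have := hb T hTTb
    rw [pow_one, ← hL, pT] at this
    refine le_trans this (le_of_eq ?_)
    rw [hR]; congr 1; ring
  have hCC : 1 ≤ C0 * C2 := one_le_mul_of_one_le_of_one_le hC0 hC2
  have hC2C : C2 ≤ C0 * C2 := le_mul_of_one_le_left (by linarith) hC0
  have hP2 : 100000 * (C0 * C2) ≤ Real.exp (R / 100) := by
    refine le_trans ?_ hP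
    have := le_mul_of_one_le_right (by positivity : 0 ≤ 100000 * C0 * C2) hL1
    linarith
  have hP3 : (100000 : ℝ) ≤ Real.exp (R / 100) := by linarith
  -- the choices
  obtain ⟨Λ, hΛd⟩ : ∃ Λ, Λ = Real.exp R := ⟨_, rfl⟩
  obtain ⟨M, hMd⟩ : ∃ M, M = Real.exp (L + 4 * R - 2 * k) := ⟨_, rfl⟩
  obtain ⟨M0, hM0d⟩ : ∃ M0, M0 = Real.exp (L - E / 2 - 2 * k) := ⟨_, rfl⟩
  have hΛ1 : 1 ≤ Λ := by rw [hΛd]; exact Real.one_le_exp (by linarith)
  have hΛ0 : 0 < Λ := by linarith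
  have hM1 : 1 ≤ M := by rw [hMd]; exact Real.one_le_exp (by linarith)
  have hM0 : 0 < M := by linarith
  have hM01 : 1 ≤ M0 := by rw [hM0d]; exact Real.one_le_exp (by linarith)
  have hM00 : 0 < M0 := by linarith
  have hMK : M ≤ K := by rw [hMd, hKk]; exact Real.exp_le_exp.mpr (by linarith)
  have hM0M : M0 ≤ M := by rw [hM0d, hMd]; exact Real.exp_le_exp.mpr (by linarith)
  have hKM0 : K ^ e ≤ M0 := by
    rw [pK, hM0d]
    refine Real.exp_le_exp.mpr ?_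
    have h1 : e * k ≤ E / 2 := by
      rw [hE]
      have := mul_le_mul_of_nonneg_left (by linarith : k ≤ L / 2) he.le
      linarith
    linarith
  have hK2' : 2 ≤ K := by
    rw [hKk]
    have h1 : (2 : ℝ) ≤ Real.exp (R / 100) := by linarith
    exact le_trans h1 (Real.exp_le_exp.mpr (by linarith))
  have hKT' : K ≤ T / 1000 := by
    have h1 : (1000 : ℝ) * Real.exp k ≤ Real.exp L := tw8_exp 1000 (R / 100) k L (by linarith) (by linarith)
    rw [← hKk, ← hTL] at h1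
    linarith
  have hKTle : K ≤ T := by linarith
  have hΛc : ∀ n : ℕ, (n : ℝ) ≤ K → C1 * n.divisors.card ≤ Λ := by
    intro n hn
    have h1 := ha T hTTa n (le_trans hn hKTle)
    rw [pT] at h1
    refine le_trans h1 (le_of_eq ?_)
    rw [hΛd, hR]
  have hY0 : Real.exp (L / 4 + k / 4 - R) ≤ Y := by
    refine le_trans (le_of_eq ?_) hY
    rw [Real.mul_rpow hT0.le hK0.le, pT, pK, pT, ← Real.exp_add, ← Real.exp_add, hR]
    congr 1; ring
  have hYpos : 0 < Y := lt_of_lt_of_le (Real.exp_pos _) hY0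
  have hY1 : 1 ≤ Y := le_trans (Real.one_le_exp (by linarith)) hY0
  have hTe : T ^ (-r) * K ^ 3 = Real.exp (3 * k - R) := by
    rw [pT, hKk, ← Real.exp_nat_mul, ← Real.exp_add, hR]
    congr 1; push_cast; ring
  have hcc := as5c C1 T K Λ c hc hK0.le hΛc
  by_cases hYX : Y ≤ 2 * (Λ * K)
  swap
  · have h0 : TT K c T Y = 0 := tw8_zero K T Y (Λ * K) c hT0.le hcc.1 (by
      have : 0 < Λ * K := by positivity
      linarith)
    rw [h0]; positivity
  obtain ⟨B, hBd⟩ : ∃ B, B = C2 * (Λ ^ 2 * K ^ 2) := ⟨_, rfl⟩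
  have hB0 : 0 ≤ B := by rw [hBd]; positivity
  have h2 : ∀ x : ℝ, Real.exp x ^ 2 = Real.exp (2 * x) := fun x => by
    rw [← Real.exp_nat_mul]; norm_num
  have key := tw7 C0 C1 T K M Λ Y B c hKP hc hΛc hΛ1 (by linarith) hK2' hKT' hM1 hMK hYpos hB0 hYX ?_ ?_ ?_
  · -- conclusion
    refine le_trans key ?_
    have hlog : Real.log (2 * (Λ * K) / Y) ≤ 2 * L := by
      rw [Real.log_le_iff_le_exp (by positivity)]
      rw [div_le_iff₀ hYpos]
      have h3 : 2 * (Λ * K) ≤ Real.exp (2 * L) := by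
        have h4 := tw8_exp 2 (R / 100) (R + k) (2 * L) (by linarith) (by linarith)
        rwa [Real.exp_add, ← hΛd, ← hKk] at h4
      exact le_trans h3 (le_mul_of_one_le_right (Real.exp_pos _).le hY1)
    have h5 : 96 * T / (M * K) * B = 96 * C2 * Real.exp (3 * k - 2 * R) := by
      rw [hBd, hTL, hMd, hKk, hΛd, h2, h2, ← Real.exp_add, ← Real.exp_add]
      rw [show 96 * Real.exp L / Real.exp (L + 4 * R - 2 * k + k) *
        (C2 * Real.exp (2 * R + 2 * k)) = 96 * C2 * (Real.exp L / Real.exp (L + 4 * R - 2 * k + k) *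
          Real.exp (2 * R + 2 * k)) by ring, ← Real.exp_sub, ← Real.exp_add]
      congr 2; ring
    rw [h5, hTe]
    have h6 : 96 * C2 * (4 + 6 * Real.log (2 * (Λ * K) / Y)) ≤ Real.exp (R / 100) := by
      refine le_trans ?_ hP
      have h7 : 4 + 6 * Real.log (2 * (Λ * K) / Y) ≤ 16 * L := by linarith
      have h8 : 96 * C2 * (4 + 6 * Real.log (2 * (Λ * K) / Y)) ≤ 96 * C2 * (16 * L) :=
        mul_le_mul_of_nonneg_left h7 (by positivity)
      have h9 : C2 * L ≤ C0 * C2 * L := mul_le_mul_of_nonneg_right hC2C (by linarith)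
      have h10 := mul_nonneg (by linarith : (0:ℝ) ≤ C0 * C2) (by linarith : (0:ℝ) ≤ L)
      linarith
    calc 96 * C2 * Real.exp (3 * k - 2 * R) * (4 + 6 * Real.log (2 * (Λ * K) / Y))
        = (96 * C2 * (4 + 6 * Real.log (2 * (Λ * K) / Y))) * Real.exp (3 * k - 2 * R) := by ring
      _ ≤ Real.exp (3 * k - R) := tw8_exp _ (R / 100) _ _ h6 (by linarith)
  · -- hE
    have h3 : Λ * (M * K ^ (3 / 2 : ℝ) / T ^ (1 / 2 : ℝ) + M ^ 2 * K ^ (7 / 2 : ℝ) / T ^ (3 / 2 : ℝ)) =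
        Real.exp (L / 2 + 5 * R - k / 2) + Real.exp (L / 2 + 9 * R - k / 2) := by
      rw [mul_add, hΛd, hMd, h2, pK, pK, pT, pT, ← Real.exp_add, ← Real.exp_add, ← Real.exp_sub, ← Real.exp_sub,
        ← Real.exp_add, ← Real.exp_add]
      congr 2 <;> ring
    rw [h3]
    have h4 := tw8_exp 4 (R / 100) (L / 2 + 5 * R - k / 2) (L / 4 + k / 4 - R) (by linarith) (by linarith)
    have h5 := tw8_exp 4 (R / 100) (L / 2 + 9 * R - k / 2) (L / 4 + k / 4 - R) (by linarith) (by linarith)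
    linarith
  · -- hκ
    have h3 : M * K ^ (1 / 2 : ℝ) ≤ T ^ (1 / 2 : ℝ) := by
      rw [hMd, pK, pT, ← Real.exp_add]
      exact Real.exp_le_exp.mpr (by linarith)
    have h4 : 0 < T ^ (1 / 2 : ℝ) := Real.rpow_pos_of_pos hT0 _
    linarith
  · -- hLV
    intro x hx hxT d hd hdX hdN hdM hdε hdE a W y hy ha' hW1 hW2
    have hy0 : 0 < y := by linarith
    have hxx : T ≤ 2 * Real.pi * x ^ 2 := hxT.1
    have h := hHP' d hd hdX (by rw [hdN, hdM]; exact hMK) Λ y (Λ ^ 2 * d.N ^ 2 / y ^ 2) M0 a W hΛ1 hy0 ha'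
      (by rw [hdN, hdM]; exact hW1) hW2 rfl (by rw [hdN]; exact hKM0) (by rw [hdM]; exact hM0M) ?_
    · refine le_trans h (le_of_eq ?_)
      rw [hBd, hdN]; ring
    · rw [hdN, hdM, hdE, hdε]
      have hpi : Real.pi ≤ 3.15 := Real.pi_lt_d2.le
      have hx2 : 0 < x ^ 2 := by positivity
      -- M * 3 K² / x² ≤ 20 T^(4r)
      have h3 : M * (3 * K ^ 2 / x ^ 2) ≤ 20 * Real.exp (4 * R) := by
        have h4 : M * (3 * K ^ 2 / x ^ 2) ≤ M * (3 * K ^ 2) * (20 / T) / 3 := by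
          have h5 : 1 / x ^ 2 ≤ 20 / T / 3 := by
            rw [div_div, div_le_div_iff₀ hx2 (by positivity)]
            have := mul_le_mul_of_nonneg_right hpi hx2.le
            linarith
          calc M * (3 * K ^ 2 / x ^ 2) = M * (3 * K ^ 2) * (1 / x ^ 2) := by ring
            _ ≤ M * (3 * K ^ 2) * (20 / T / 3) := mul_le_mul_of_nonneg_left h5 (by positivity)
            _ = _ := by ring
        refine le_trans h4 (le_of_eq ?_)
        rw [hMd, hKk, hTL, h2]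
        rw [show Real.exp (L + 4 * R - 2 * k) * (3 * Real.exp (2 * k)) * (20 / Real.exp L) / 3 =
            20 * (Real.exp (L + 4 * R - 2 * k) * Real.exp (2 * k) / Real.exp L) by ring,
            ← Real.exp_add, ← Real.exp_sub]
        congr 2; ring
      have h3' : 0 ≤ M * (3 * K ^ 2 / x ^ 2) := by positivity
      have h4R : 1 ≤ Real.exp (4 * R) := Real.one_le_exp (by linarith)
      have h31 : 1 + M * (3 * K ^ 2 / x ^ 2) ≤ 21 * Real.exp (4 * R) := by linarith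
      have hlogM : 0 ≤ Real.log M := Real.log_nonneg hM1
      have hlogM2 : Real.log M ≤ 2 * L := by rw [hMd, Real.log_exp]; linarith
      have hErr : C0 * (1 + M * (3 * K ^ 2 / x ^ 2)) ^ 2 * (1 + Real.log M) ≤
          1323 * C0 * L * Real.exp (8 * R) := by
        have h4 : (1 + M * (3 * K ^ 2 / x ^ 2)) ^ 2 ≤ 441 * Real.exp (8 * R) := by
          have := pow_le_pow_left₀ (by linarith : 0 ≤ 1 + M * (3 * K ^ 2 / x ^ 2)) h31 2
          refine le_trans this (le_of_eq ?_)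
          rw [mul_pow, h2, show 2 * (4 * R) = 8 * R by ring]
          norm_num
        have h5 : 1 + Real.log M ≤ 3 * L := by linarith
        have h6 : C0 * (1 + M * (3 * K ^ 2 / x ^ 2)) ^ 2 ≤ C0 * (441 * Real.exp (8 * R)) :=
          mul_le_mul_of_nonneg_left h4 (by linarith)
        calc C0 * (1 + M * (3 * K ^ 2 / x ^ 2)) ^ 2 * (1 + Real.log M) ≤ C0 * (441 * Real.exp (8 * R)) * (3 * L) :=
              mul_le_mul h6 h5 (by linarith) (by positivity)
          _ = _ := by ring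
      -- H
      have hH : Λ ^ 2 * K ^ 2 / y ^ 2 ≤ 4 * Real.exp (4 * R - L / 2 + 3 / 2 * k) := by
        have h4 : Real.exp (L / 4 + k / 4 - R) / 2 ≤ y := by linarith
        have h5 : (Real.exp (L / 4 + k / 4 - R) / 2) ^ 2 ≤ y ^ 2 := by
          apply pow_le_pow_left₀ (by positivity) h4
        have h6 : Λ ^ 2 * K ^ 2 = 4 * Real.exp (4 * R - L / 2 + 3 / 2 * k) *
            (Real.exp (L / 4 + k / 4 - R) / 2) ^ 2 := by
          rw [div_pow, h2, hΛd, hKk, h2, h2]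
          rw [show 4 * Real.exp (4 * R - L / 2 + 3 / 2 * k) * (Real.exp (2 * (L / 4 + k / 4 - R)) / 2 ^ 2) =
            Real.exp (4 * R - L / 2 + 3 / 2 * k) * Real.exp (2 * (L / 4 + k / 4 - R)) by ring,
            ← Real.exp_add, ← Real.exp_add]
          congr 1; ring
        rw [div_le_iff₀ (by positivity), h6]
        exact mul_le_mul_of_nonneg_left h5 (by positivity)
      have hH0 : 0 ≤ Λ ^ 2 * K ^ 2 / y ^ 2 := by positivity
      have hsq : Real.sqrt (K * M) = Real.exp (L / 2 + 2 * R - k / 2) := by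
        rw [Real.sqrt_eq_iff_mul_self_eq (by positivity) (by positivity), hKk, hMd, ← Real.exp_add, ← Real.exp_add]
        congr 1; ring
      have hsq0 : Real.sqrt (K * M0) = Real.exp (L / 2 - E / 4 - k / 2) := by
        rw [Real.sqrt_eq_iff_mul_self_eq (by positivity) (by positivity), hKk, hM0d, ← Real.exp_add, ← Real.exp_add]
        congr 1; ring
      have hMc : M0 ^ (-c0) ≤ Real.exp (-(3 / 2 * G)) := by
        have h4 : M0 ^ (-c0) ≤ M0 ^ (-c') := Real.rpow_le_rpow_of_exponent_le hM01 (by linarith)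
        refine le_trans h4 ?_
        rw [hM0d, ← Real.exp_mul]
        refine Real.exp_le_exp.mpr ?_
        have h5 : 3 / 2 * E ≤ L - E / 2 - 2 * k := by linarith
        have h6 := mul_le_mul_of_nonneg_left h5 hc'0.le
        rw [hG]
        linarith
      have hMc0 : 0 ≤ M0 ^ (-c0) := Real.rpow_nonneg hM00.le _
      rw [hsq, hsq0]
      have hmid : (1 + 3 * K ^ 2 / x ^ 2 * M) * Real.exp (L / 2 + 2 * R - k / 2) * M0 ^ (-c0) ≤
          21 * Real.exp (L / 2 + 6 * R - k / 2 - 3 / 2 * G) := by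
        have h4 : (1 + 3 * K ^ 2 / x ^ 2 * M) * Real.exp (L / 2 + 2 * R - k / 2) ≤
            21 * Real.exp (4 * R) * Real.exp (L / 2 + 2 * R - k / 2) := by
          refine mul_le_mul_of_nonneg_right ?_ (Real.exp_pos _).le
          rw [mul_comm (3 * K ^ 2 / x ^ 2) M]
          exact h31
        calc (1 + 3 * K ^ 2 / x ^ 2 * M) * Real.exp (L / 2 + 2 * R - k / 2) * M0 ^ (-c0) ≤
            21 * Real.exp (4 * R) * Real.exp (L / 2 + 2 * R - k / 2) * Real.exp (-(3 / 2 * G)) :=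
              mul_le_mul h4 hMc hMc0 (by positivity)
          _ = 21 * (Real.exp (4 * R) * Real.exp (L / 2 + 2 * R - k / 2) * Real.exp (-(3 / 2 * G))) := by ring
          _ = _ := by
            rw [← Real.exp_add, ← Real.exp_add]
            congr 2; ring
      have hmid0 : 0 ≤ (1 + 3 * K ^ 2 / x ^ 2 * M) * Real.exp (L / 2 + 2 * R - k / 2) * M0 ^ (-c0) := by
        positivity
      have hErr0 : 0 ≤ C0 * (1 + M * (3 * K ^ 2 / x ^ 2)) ^ 2 * (1 + Real.log M) := by positivity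
      have hsum : C2 * (Λ ^ 2 * K ^ 2 / y ^ 2) * (Real.exp (L / 2 - E / 4 - k / 2) +
          (1 + 3 * K ^ 2 / x ^ 2 * M) * Real.exp (L / 2 + 2 * R - k / 2) * M0 ^ (-c0) +
          C0 * (1 + M * (3 * K ^ 2 / x ^ 2)) ^ 2 * (1 + Real.log M)) ≤
          C2 * (4 * Real.exp (4 * R - L / 2 + 3 / 2 * k)) * (Real.exp (L / 2 - E / 4 - k / 2) +
          21 * Real.exp (L / 2 + 6 * R - k / 2 - 3 / 2 * G) + 1323 * C0 * L * Real.exp (8 * R)) := by
        apply mul_le_mul (mul_le_mul_of_nonneg_left hH (by linarith)) (by linarith) ?_ (by positivity)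
        have := (Real.exp_pos (L / 2 - E / 4 - k / 2)).le
        linarith
      refine le_trans hsum ?_
      have h7 : C2 * (4 * Real.exp (4 * R - L / 2 + 3 / 2 * k)) * (Real.exp (L / 2 - E / 4 - k / 2) +
          21 * Real.exp (L / 2 + 6 * R - k / 2 - 3 / 2 * G) + 1323 * C0 * L * Real.exp (8 * R)) =
          (4 * C2) * Real.exp (4 * R - E / 4 + k) + (84 * C2) * Real.exp (10 * R + k - 3 / 2 * G) +
          (5292 * C0 * C2 * L) * Real.exp (12 * R - L / 2 + 3 / 2 * k) := by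
        rw [mul_add, mul_add, show C2 * (4 * Real.exp (4 * R - L / 2 + 3 / 2 * k)) * Real.exp (L / 2 - E / 4 - k / 2) =
          4 * C2 * (Real.exp (4 * R - L / 2 + 3 / 2 * k) * Real.exp (L / 2 - E / 4 - k / 2)) by ring,
          show C2 * (4 * Real.exp (4 * R - L / 2 + 3 / 2 * k)) * (21 * Real.exp (L / 2 + 6 * R - k / 2 - 3 / 2 * G)) =
          84 * C2 * (Real.exp (4 * R - L / 2 + 3 / 2 * k) * Real.exp (L / 2 + 6 * R - k / 2 - 3 / 2 * G)) by ring,
          show C2 * (4 * Real.exp (4 * R - L / 2 + 3 / 2 * k)) * (1323 * C0 * L * Real.exp (8 * R)) =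
          5292 * C0 * C2 * L * (Real.exp (4 * R - L / 2 + 3 / 2 * k) * Real.exp (8 * R)) by ring,
          ← Real.exp_add, ← Real.exp_add, ← Real.exp_add]
        congr 1
        · congr 1
          · congr 2; ring
          · congr 2; ring
        · congr 2; ring
      rw [h7]
      have hCL : 1 ≤ C0 * C2 * L := one_le_mul_of_one_le_of_one_le hCC hL1
      have h8 := tw8_exp (3 * (4 * C2)) (R / 100) (4 * R - E / 4 + k) k (by linarith) (by linarith)
      have h9 := tw8_exp (3 * (84 * C2)) (R / 100) (10 * R + k - 3 / 2 * G) k (by linarith) (by linarith)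
      have h10 := tw8_exp (3 * (5292 * C0 * C2 * L)) (R / 100) (12 * R - L / 2 + 3 / 2 * k) k (by linarith) (by linarith)
      rw [← hKk] at h8 h9 h10
      linarith

end Pool.Agent.LibSX15
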