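import Pool.Agent.LibSX15.AS0
import Pool.Agent.LibSX15.TW0

/-! LibSX15, block TW (helper78): `ZP` with the sub-Weyl bound. -/

set_option autoImplicit false

namespace Pool.Agent.LibSX15

open Finset

open scoped Classical in
/-- `ZP` with the additional bound for the sums with `T^(1/3 - y) ≤ K ≤ T^(1/3 + y)` -/
def ZPX (C T0 y η : ℝ) : Prop :=
  1 ≤ C ∧ 3 ≤ T0 ∧ ∀ T : ℝ, T0 ≤ T → ∀ G : ℝ,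
    T ^ (1 / 5 : ℝ) ≤ G → G ≤ T ^ (1 / 2 : ℝ) →
    ∃ (ι : Finset ℕ) (K : ℕ → ℝ) (c : ℕ → ℕ → ℝ → ℂ),
      (ι.card : ℝ) ≤ C * (Real.log T) ^ 2 ∧
      (∀ i ∈ ι, 0 < K i ∧ K i ≤ C * T / G ^ 2) ∧
      (∀ i ∈ ι, CC C T (K i) (c i)) ∧
      (∀ i ∈ ι, T ^ (1 / 3 - y) ≤ K i → K i ≤ T ^ (1 / 3 + y) → ∀ t ∈ Set.Icc T (2 * T),
        ‖SS (K i) (c i) t‖ ≤ (T * K i) ^ (1 / 4 : ℝ) * T ^ (-η)) ∧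
      ∀ V : ℝ, 1 ≤ V → ∀ t ∈ Set.Icc T (2 * T),
        V ^ 2 * (((Finset.Icc ⌈t - G / 2⌉ ⌊t + G / 2⌋).filter fun r : ℤ =>
          ∃ v ∈ Set.Icc (-1 / 2 : ℝ) (1 / 2),
            V ≤ ‖riemannZeta (1 / 2 + ((r + v : ℝ) : ℂ) * Complex.I)‖).card : ℝ) ≤
        C * (Real.log T) ^ 3 * (G + G * ∑ i ∈ ι, (T * K i) ^ (-1 / 4 : ℝ) * ‖SS (K i) (c i) t‖)

theorem ZPX.zp {C T0 y η : ℝ} (h : ZPX C T0 y η) : ZP C T0 := by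
  obtain ⟨h1, h2, h3⟩ := h
  refine ⟨h1, h2, fun T hT G hG1 hG2 => ?_⟩
  obtain ⟨ι, K, c, a1, a2, a3, _, a5⟩ := h3 T hT G hG1 hG2
  exact ⟨ι, K, c, a1, a2, a3, a5⟩

theorem KPX.kp {C0 : ℝ} (h : KPX C0) : KP C0 := by
  obtain ⟨h1, h2⟩ := h
  refine ⟨h1, fun N M u a1 a2 a3 a4 a5 => ?_⟩
  obtain ⟨d, b1, _, b3, b4, b5, b6, b7, b8⟩ := h2 N M u a1 a2 a3 a4 a5
  exact ⟨d, b1, b3, b4, b5, b6, b7, b8⟩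

end Pool.Agent.LibSX15
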