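import Pool.Agent.LibSX15.AS4
import Pool.Agent.LibSX15.AS5
import Pool.Agent.LibSX15.AS12
import Pool.Agent.LibSX15.TWX0

/-! TWE1 (helper78): AS13 with the additional clause (copy of the proof of AS13, row SX_AS13). -/

set_option autoImplicit false

namespace Pool.Agent.LibSX15

open Finset

open scoped Classical in
/-- the truncated square is integrable -/
private theorem twe1_int (C T K Y : ℝ) (c : ℕ → ℝ → ℂ) (hc : CC C T K c) (hT : 0 < T) :
    IntervalIntegrable (fun t => if Y ≤ ‖SS K c t‖ then ‖SS K c t‖ ^ 2 else 0)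
      MeasureTheory.volume T (2 * T) := by
  have hcont := as5b C T K c hc hT
  have hT2 : T ≤ 2 * T := by linarith
  rw [intervalIntegrable_iff_integrableOn_Icc_of_le hT2]
  have hcl : IsClosed (Set.Icc T (2 * T) ∩ (fun t => ‖SS K c t‖) ⁻¹' Set.Ici Y) :=
    hcont.norm.preimage_isClosed_of_isClosed isClosed_Icc isClosed_Ici
  have h1 : MeasureTheory.IntegrableOn (fun t => ‖SS K c t‖ ^ 2) (Set.Icc T (2 * T)) :=
    (hcont.norm.pow 2).integrableOn_Icc
  have h2 := h1.indicator hcl.measurableSet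
  refine h2.congr_fun (fun t ht => ?_) measurableSet_Icc
  by_cases h : Y ≤ ‖SS K c t‖
  · rw [if_pos h, Set.indicator_of_mem]
    exact ⟨ht, h⟩
  · rw [if_neg h, Set.indicator_of_notMem]
    intro h3
    exact h h3.2

private theorem twe1_cnt (T V G : ℝ) : IntervalIntegrable
    (fun t => (((RS T V).filter fun r : ℤ => |(r : ℝ) - t| ≤ G / 2).card : ℝ))
      MeasureTheory.volume T (2 * T) := by
  have e : (fun t : ℝ => (((RS T V).filter fun r : ℤ => |(r : ℝ) - t| ≤ G / 2).card : ℝ)) =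
      fun t => ∑ r ∈ RS T V,
        (Set.Icc ((r : ℝ) - G / 2) (r + G / 2)).indicator (fun _ => (1 : ℝ)) t := by
    funext t
    rw [Finset.card_filter, Nat.cast_sum]
    refine Finset.sum_congr rfl fun r _ => ?_
    by_cases h : |(r : ℝ) - t| ≤ G / 2
    · rw [if_pos h, Set.indicator_of_mem, Nat.cast_one]
      rw [abs_le] at h
      constructor <;> linarith [h.1, h.2]
    · rw [if_neg h, Set.indicator_of_notMem, Nat.cast_zero]
      intro h1
      apply h
      rw [abs_le]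
      constructor <;> linarith [h1.1, h1.2]
  rw [e]
  refine MeasureTheory.Integrable.intervalIntegrable ?_
  refine MeasureTheory.integrable_finsetSum _ fun r _ => ?_
  refine (MeasureTheory.integrable_indicator_iff measurableSet_Icc).2 ?_
  exact MeasureTheory.integrableOn_const (by simp)

theorem twe1 (C T0 y η : ℝ) (hZP : ZPX C T0 y η) : ∃ C1 T1 : ℝ, 1 ≤ C1 ∧ 3 ≤ T1 ∧ ∀ T : ℝ, T1 ≤ T →
    ∀ V : ℝ, T ^ (1 / 9 : ℝ) ≤ V → V ≤ T ^ (1 / 5 : ℝ) →
    ∃ (ι : Finset ℕ) (K : ℕ → ℝ) (c : ℕ → ℕ → ℝ → ℂ), (ι.card : ℝ) ≤ C1 * (Real.log T) ^ 2 ∧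
      (∀ i ∈ ι, 0 < K i ∧ K i ≤ C1 * (Real.log T) ^ 6 * T / V ^ 4) ∧
      (∀ i ∈ ι, CC C1 T (K i) (c i)) ∧
      (∀ i ∈ ι, T ^ (1 / 3 - y) ≤ K i → K i ≤ T ^ (1 / 3 + y) → ∀ t ∈ Set.Icc T (2 * T),
        ‖SS (K i) (c i) t‖ ≤ (T * K i) ^ (1 / 4 : ℝ) * T ^ (-η)) ∧
      ((RS T V).card : ℝ) ≤ C1 * (Real.log T) ^ 7 / V ^ 2 * ∑ i ∈ ι, (T * K i) ^ (-1 / 2 : ℝ) *
        TT (K i) (c i) T ((T * K i) ^ (1 / 4 : ℝ) / (C1 * (Real.log T) ^ 2)) := by
  classical
  obtain ⟨hC, hT0, hZ⟩ := hZP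
  obtain ⟨T2, hT2, hlog⟩ := as4b (2 * C) (1 / 45) 3 (by linarith) (by norm_num)
  have hC3 : C ≤ 4 * C ^ 3 := by
    have h1 : 1 ≤ C ^ 2 := one_le_pow₀ hC
    have h2 : C ^ 3 = C * C ^ 2 := by ring
    rw [h2]
    nlinarith
  refine ⟨4 * C ^ 3, max T0 T2, by linarith, le_trans hT0 (le_max_left _ _), ?_⟩
  intro T hT V hV1 hV2
  have hTT0 : T0 ≤ T := (le_max_left _ _).trans hT
  have hTT2 : T2 ≤ T := (le_max_right _ _).trans hT
  have hT3 : 3 ≤ T := hT0.trans hTT0
  have hTpos : 0 < T := by linarith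
  have hT1 : 1 ≤ T := by linarith
  set L := Real.log T with hL
  have hL1 : 1 ≤ L := by
    rw [hL, Real.le_log_iff_exp_le hTpos]
    exact (Real.exp_one_lt_d9.le.trans (by norm_num)).trans hT3
  have hLpos : 0 < L := by linarith
  have hCpos : 0 < C := by linarith
  have hVpos : 0 < V := (Real.rpow_pos_of_pos hTpos _).trans_le hV1
  have hV0 : 1 ≤ V := (Real.one_le_rpow hT1 (by norm_num)).trans hV1
  have hD : 0 < 2 * C * L ^ 3 := by positivity
  have hD1 : 1 ≤ 2 * C * L ^ 3 := by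
    have : 1 ≤ L ^ 3 := one_le_pow₀ hL1
    nlinarith
  set G := V ^ 2 / (2 * C * L ^ 3) with hG
  have hGpos : 0 < G := by positivity
  have hV2a : T ^ (2 / 9 : ℝ) ≤ V ^ 2 := by
    have h1 : (T ^ (1 / 9 : ℝ)) ^ 2 = T ^ (2 / 9 : ℝ) := by
      rw [← Real.rpow_natCast, ← Real.rpow_mul hTpos.le]
      norm_num
    rw [← h1]
    exact pow_le_pow_left₀ (Real.rpow_nonneg hTpos.le _) hV1 2
  have hV2b : V ^ 2 ≤ T ^ (2 / 5 : ℝ) := by
    have h1 : (T ^ (1 / 5 : ℝ)) ^ 2 = T ^ (2 / 5 : ℝ) := by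
      rw [← Real.rpow_natCast, ← Real.rpow_mul hTpos.le]
      norm_num
    rw [← h1]
    exact pow_le_pow_left₀ hVpos.le hV2 2
  have hG1 : T ^ (1 / 5 : ℝ) ≤ G := by
    rw [hG, le_div_iff₀ hD]
    have h1 := hlog T hTT2
    have h2 : T ^ (1 / 5 : ℝ) * T ^ (1 / 45 : ℝ) = T ^ (2 / 9 : ℝ) := by
      rw [← Real.rpow_add hTpos]
      norm_num
    calc T ^ (1 / 5 : ℝ) * (2 * C * L ^ 3) ≤ T ^ (1 / 5 : ℝ) * T ^ (1 / 45 : ℝ) :=
          mul_le_mul_of_nonneg_left h1 (Real.rpow_nonneg hTpos.le _)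
      _ = T ^ (2 / 9 : ℝ) := h2
      _ ≤ V ^ 2 := hV2a
  have hG2' : G ≤ T ^ (2 / 5 : ℝ) := by
    rw [hG, div_le_iff₀ hD]
    have h1 : 0 ≤ T ^ (2 / 5 : ℝ) := Real.rpow_nonneg hTpos.le _
    nlinarith
  have hG2 : G ≤ T ^ (1 / 2 : ℝ) :=
    hG2'.trans (Real.rpow_le_rpow_of_exponent_le hT1 (by norm_num))
  have hGT : G ≤ T := by
    refine hG2.trans ?_
    calc T ^ (1 / 2 : ℝ) ≤ T ^ (1 : ℝ) := Real.rpow_le_rpow_of_exponent_le hT1 (by norm_num)
      _ = T := Real.rpow_one T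
  obtain ⟨ι, K, c, a1, a2, a3, a3x, a4⟩ := hZ T hTT0 G hG1 hG2
  have hKG : C * T / G ^ 2 = 4 * C ^ 3 * L ^ 6 * T / V ^ 4 := by
    rw [hG]
    field_simp
    ring
  have hι1 : (ι.card : ℝ) ≤ 4 * C ^ 3 * L ^ 2 :=
    a1.trans (mul_le_mul_of_nonneg_right hC3 (sq_nonneg _))
  refine ⟨ι, K, c, hι1, fun i hi => ?_, fun i hi => ?_, a3x, ?_⟩
  · refine ⟨(a2 i hi).1, ?_⟩
    rw [← hKG]
    exact (a2 i hi).2
  · obtain ⟨b1, b2, b3⟩ := a3 i hi
    refine ⟨fun n t ht => ?_, b2, fun n t ht t' ht' => ?_⟩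
    · exact (b1 n t ht).trans (mul_le_mul_of_nonneg_right hC3 (Nat.cast_nonneg _))
    · refine (b3 n t ht t' ht').trans ?_
      apply div_le_div_of_nonneg_right _ hTpos.le
      refine mul_le_mul_of_nonneg_right ?_ (abs_nonneg _)
      exact mul_le_mul_of_nonneg_right hC3 (Nat.cast_nonneg _)
  · set Y : ℕ → ℝ := fun i => (T * K i) ^ (1 / 4 : ℝ) / (4 * C ^ 3 * L ^ 2) with hY
    set g : ℕ → ℝ → ℝ := fun i t => if Y i ≤ ‖SS (K i) (c i) t‖ then ‖SS (K i) (c i) t‖ ^ 2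
      else 0 with hg
    set m : ℝ := (ι.card : ℝ) with hm
    have hg0 : ∀ i t, 0 ≤ g i t := by
      intro i t
      simp only [hg]
      split_ifs
      · exact sq_nonneg _
      · exact le_rfl
    have hpt : ∀ t ∈ Set.Icc T (2 * T),
        (((RS T V).filter fun r : ℤ => |(r : ℝ) - t| ≤ G / 2).card : ℝ) ≤
        m ^ 2 * ∑ i ∈ ι, (T * K i) ^ (-1 / 2 : ℝ) * g i t := by
      intro t ht
      have hR0 : 0 ≤ m ^ 2 * ∑ i ∈ ι, (T * K i) ^ (-1 / 2 : ℝ) * g i t :=
        mul_nonneg (sq_nonneg _) (Finset.sum_nonneg fun i hi =>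
          mul_nonneg (Real.rpow_nonneg (mul_pos hTpos (a2 i hi).1).le _) (hg0 i t))
      rcases Nat.eq_zero_or_pos
        (((RS T V).filter fun r : ℤ => |(r : ℝ) - t| ≤ G / 2).card) with h0 | h0
      · rw [h0, Nat.cast_zero]
        exact hR0
      · have hn1 : (1 : ℝ) ≤
            (((RS T V).filter fun r : ℤ => |(r : ℝ) - t| ≤ G / 2).card : ℝ) := by
          exact_mod_cast h0
        set p : ℕ → ℝ := fun i => (T * K i) ^ (-1 / 4 : ℝ) * ‖SS (K i) (c i) t‖ with hp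
        have hp0 : ∀ i ∈ ι, 0 ≤ p i := fun i hi =>
          mul_nonneg (Real.rpow_nonneg (mul_pos hTpos (a2 i hi).1).le _) (norm_nonneg _)
        have hz := a4 V hV0 t ht
        have hsub : ((RS T V).filter fun r : ℤ => |(r : ℝ) - t| ≤ G / 2).card ≤
            ((Finset.Icc ⌈t - G / 2⌉ ⌊t + G / 2⌋).filter fun r : ℤ =>
              ∃ v ∈ Set.Icc (-1 / 2 : ℝ) (1 / 2),
              V ≤ ‖riemannZeta (1 / 2 + ((r + v : ℝ) : ℂ) * Complex.I)‖).card := by
          refine Finset.card_le_card fun r hr => ?_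
          have hr1 := Finset.mem_filter.1 hr
          have hr2 := (Finset.mem_filter.1 (show r ∈ Finset.filter _ _ from hr1.1)).2
          have hr3 := abs_le.1 hr1.2
          refine Finset.mem_filter.2 ⟨Finset.mem_Icc.2 ⟨Int.ceil_le.2 ?_, Int.le_floor.2 ?_⟩, hr2⟩
          · linarith [hr3.1]
          · linarith [hr3.2]
        have hsub' : (((RS T V).filter fun r : ℤ => |(r : ℝ) - t| ≤ G / 2).card : ℝ) ≤
            (((Finset.Icc ⌈t - G / 2⌉ ⌊t + G / 2⌋).filter fun r : ℤ =>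
              ∃ v ∈ Set.Icc (-1 / 2 : ℝ) (1 / 2),
              V ≤ ‖riemannZeta (1 / 2 + ((r + v : ℝ) : ℂ) * Complex.I)‖).card : ℝ) := by
          exact_mod_cast hsub
        have hz2 : V ^ 2 * (((RS T V).filter fun r : ℤ => |(r : ℝ) - t| ≤ G / 2).card : ℝ) ≤
            V ^ 2 / 2 * (1 + ∑ i ∈ ι, p i) := by
          refine (mul_le_mul_of_nonneg_left hsub' (sq_nonneg V)).trans (hz.trans (le_of_eq ?_))
          have e1 : G + G * ∑ i ∈ ι, (T * K i) ^ (-1 / 4 : ℝ) * ‖SS (K i) (c i) t‖ =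
              G * (1 + ∑ i ∈ ι, p i) := by
            simp only [hp]
            ring
          rw [e1, ← mul_assoc]
          congr 1
          rw [hG]
          field_simp
          rw [hL]
        have hn2 : (((RS T V).filter fun r : ℤ => |(r : ℝ) - t| ≤ G / 2).card : ℝ) ≤
            ∑ i ∈ ι, p i := by
          have hV2' : 0 < V ^ 2 := by positivity
          have h3 : V ^ 2 * (((RS T V).filter fun r : ℤ => |(r : ℝ) - t| ≤ G / 2).card : ℝ) ≤
              V ^ 2 * ((1 + ∑ i ∈ ι, p i) / 2) := by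
            refine hz2.trans (le_of_eq ?_)
            ring
          have h4 := le_of_mul_le_mul_left h3 hV2'
          linarith
        refine (as12b ι p _ hp0 hn1 hn2).trans ?_
        refine mul_le_mul_of_nonneg_left ?_ (sq_nonneg _)
        refine Finset.sum_le_sum fun i hi => ?_
        have hTK : 0 < T * K i := mul_pos hTpos (a2 i hi).1
        have hR : 0 ≤ (T * K i) ^ (-1 / 2 : ℝ) * g i t :=
          mul_nonneg (Real.rpow_nonneg hTK.le _) (hg0 i t)
        split_ifs with hif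
        · have hcp : (0 : ℝ) < ι.card := by
            have : 0 < ι.card := Finset.card_pos.2 ⟨i, hi⟩
            exact_mod_cast this
          have hq : (T * K i) ^ (1 / 4 : ℝ) * (T * K i) ^ (-1 / 4 : ℝ) = 1 := by
            rw [← Real.rpow_add hTK]
            norm_num
          have hS : ‖SS (K i) (c i) t‖ = (T * K i) ^ (1 / 4 : ℝ) * p i := by
            simp only [hp]
            rw [← mul_assoc, hq, one_mul]
          have hYi : Y i ≤ ‖SS (K i) (c i) t‖ := by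
            rw [hS]
            simp only [hY]
            rw [div_eq_mul_one_div]
            refine mul_le_mul_of_nonneg_left ?_ (Real.rpow_nonneg hTK.le _)
            exact (one_div_le_one_div_of_le hcp hι1).trans hif
          have hgi : g i t = ‖SS (K i) (c i) t‖ ^ 2 := if_pos hYi
          rw [hgi]
          simp only [hp]
          rw [mul_pow]
          have h5 : ((T * K i) ^ (-1 / 4 : ℝ)) ^ 2 = (T * K i) ^ (-1 / 2 : ℝ) := by
            rw [← Real.rpow_natCast, ← Real.rpow_mul hTK.le]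
            norm_num
          rw [h5]
        · exact hR
    have hT2 : T ≤ 2 * T := by linarith
    have hgint : ∀ i ∈ ι, IntervalIntegrable (g i) MeasureTheory.volume T (2 * T) :=
      fun i hi => twe1_int C T (K i) (Y i) (c i) (a3 i hi) hTpos
    have hint : IntervalIntegrable (fun t => m ^ 2 * ∑ i ∈ ι, (T * K i) ^ (-1 / 2 : ℝ) * g i t)
        MeasureTheory.volume T (2 * T) := by
      refine IntervalIntegrable.const_mul ?_ _
      have e : (fun t => ∑ i ∈ ι, (T * K i) ^ (-1 / 2 : ℝ) * g i t) =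
          ∑ i ∈ ι, fun t => (T * K i) ^ (-1 / 2 : ℝ) * g i t := by
        funext t
        rw [Finset.sum_apply]
      rw [e]
      exact IntervalIntegrable.sum _ fun i hi => (hgint i hi).const_mul _
    have hmono := intervalIntegral.integral_mono_on hT2 (twe1_cnt T V G) hint hpt
    have hTTi : ∀ i, TT (K i) (c i) T (Y i) = ∫ t in T..(2 * T), g i t := fun i => rfl
    have hI : ∫ t in T..(2 * T), m ^ 2 * ∑ i ∈ ι, (T * K i) ^ (-1 / 2 : ℝ) * g i t =
        m ^ 2 * ∑ i ∈ ι, (T * K i) ^ (-1 / 2 : ℝ) * TT (K i) (c i) T (Y i) := by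
      rw [intervalIntegral.integral_const_mul, intervalIntegral.integral_finsetSum
        fun i hi => (hgint i hi).const_mul _]
      congr 1
      refine Finset.sum_congr rfl fun i _ => ?_
      rw [intervalIntegral.integral_const_mul, hTTi]
    rw [hI] at hmono
    have hfin := (as12a T V G hGpos hGT).trans hmono
    have hSnn : 0 ≤ ∑ i ∈ ι, (T * K i) ^ (-1 / 2 : ℝ) * TT (K i) (c i) T (Y i) := by
      refine Finset.sum_nonneg fun i hi => ?_
      refine mul_nonneg (Real.rpow_nonneg (mul_pos hTpos (a2 i hi).1).le _) ?_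
      rw [hTTi]
      exact intervalIntegral.integral_nonneg hT2 fun t _ => hg0 i t
    have hm2 : m ^ 2 ≤ (C * L ^ 2) ^ 2 := pow_le_pow_left₀ (Nat.cast_nonneg _) a1 2
    have hfin2 : G / 2 * ((RS T V).card : ℝ) ≤
        (C * L ^ 2) ^ 2 * ∑ i ∈ ι, (T * K i) ^ (-1 / 2 : ℝ) * TT (K i) (c i) T (Y i) :=
      hfin.trans (mul_le_mul_of_nonneg_right hm2 hSnn)
    have hG2pos : 0 < G / 2 := by positivity
    refine le_of_mul_le_mul_left (hfin2.trans (le_of_eq ?_)) hG2pos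
    rw [hG]
    generalize ∑ i ∈ ι, (T * K i) ^ (-1 / 2 : ℝ) * TT (K i) (c i) T (Y i) = Z
    field_simp
    ring

end Pool.Agent.LibSX15
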