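import Pool.Agent.LibSX15.AS10
import Pool.Agent.LibSX15.AS11
import Pool.Agent.LibSX15.TW8
import Pool.Agent.LibSX15.TWE1

/-! ROW TWE2 (strong; uses AS4 (as4b), AS10, AS11, TW8, TWE1 as stated; model: the proof of AS14 in the store, SX_AS14.lean). The number of large values, for all
`4 < A < 12 + c1`.
`C1` from `twe1`; `x = 1/(29120 (11 k + 60))`; `tw8` with `e = 4 x`, `y` (both `≤ 1/10`) gives `r`. `c1 = min r 1`, `δ = min (r/8) (1/10000)`. `V ∈ [T^(1/8 - x), T^(9/50)]`, `L = log T`,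
`twe1` gives `ι, K, c`, `K i ≤ C1 L⁶ T/V⁴`. Claim: `V^(A-2) (T K i)^(-1/2) TT_i ≤ T^(1 + (A-4)/8 - 2δ)` for every `i`
(then `V^A #RS ≤ C1 L⁷ (C1 L²) T^(... - 2δ) ≤ T^(... - δ)`).
Threshold: `Y = (T K i)^(1/4)/(C1 L²) ≥ (T K i)^(1/4) T^(-ρ)` for every `ρ > 0`, `T` large.  `K = K i`:
(0) `K ≤ T^(1/3 - y)`: as11 with `e = y`: `TT = 0`.
(1) `T^(1/3 - y) ≤ K ≤ T^(1/3 + y)`: `‖SS K c t‖ ≤ (TK)^(1/4) T^(-η) < Y`: the integrand of `TT` is 0 on `[T, 2T]`, `TT = 0`.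
(2) `T^(1/3 + y) ≤ K ≤ T^(1/2 - 4x)`: tw8: `V^(A-2) (TK)^(-1/2) TT ≤ V^(A-2) T^(-1/2 - r) K^(5/2)`.
   If `V ≥ T^(1/8 + x)`: `K^(5/2) ≤ (C1 L⁶)^(5/2) T^(5/2) V^(-10)`: `≤ (C1 L⁶)^(5/2) V^(A-12) T^(2 - r)`. If `A ≤ 12`: `V^(A-12) ≤ T^((A-12)/8)`, total `≤ T^(1 + (A-4)/8 - r + small)`
   (`2 + (A-12)/8 = 1 + (A-4)/8`). If `A > 12`: `V⁴ ≤ C1 L⁶ T/K ≤ T^(2/3)`, `V ≤ T^(1/6)`, `V^(A-12) ≤ T^((A-12)/8 + (A-12)/24)`, `(A-12)/24 ≤ r/24`.
   If `V ≤ T^(1/8 + x)`: `V^(A-2) T^(-1/2 - r) K^(5/2) ≤ T^((A-2)(1/8 + x) - 1/2 - r + 5/4 - 10x) = T^(1 + (A-4)/8 + (A-12) x - r)`, `(A-12) x ≤ r/100`.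
(3) `K > T^(1/2 - 4x)`: `V⁴ ≤ C1 L⁶ T/K ≤ C1 L⁶ T^(1/2 + 4x)`, so `V ≤ T^(1/8 + 1.1x)`, and `K ≤ C1 L⁶ T^(1/2 + 4x) ≤ T^(1/2 + 5x)` (from `V ≥ T^(1/8 - x)`); as10 (`KPX.kp`):
   `V^(A-2) (TK)^(1/2) T^(-1/1040) ≤ T^((A-2)/8 + 13x + 3/4 + 5x/2 - 1/1040)`, `(A-2)/8 + 3/4 = 1 + (A-4)/8`, `16 x - 1/1040 ≤ -1/2080`. -/

set_option autoImplicit false

namespace Pool.Agent.LibSX15

open Finset

theorem twe2_thr {T Q P η : ℝ} (hT : 0 < T) (hQ : 0 ≤ Q) (hP : 0 < P) (h : P ≤ T ^ η) :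
    Q * T ^ (-η) ≤ Q / P := by
  rw [Real.rpow_neg hT.le, div_eq_mul_inv]
  exact mul_le_mul_of_nonneg_left (inv_anti₀ hP h) hQ

theorem twe2_zero {K T Y : ℝ} {c : ℕ → ℝ → ℂ} (hT : 0 < T)
    (h : ∀ t ∈ Set.Icc T (2 * T), ‖SS K c t‖ < Y) : TT K c T Y = 0 := by
  unfold TT
  refine (intervalIntegral.integral_congr (g := fun _ => (0 : ℝ)) fun t ht => ?_).trans
    intervalIntegral.integral_zero
  rw [Set.uIcc_of_le (by linarith)] at ht
  exact if_neg (not_le.2 (h t ht))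

theorem twe2_claim (C0 C3 C1 : ℝ) (k : ℕ) (hKP : KP C0) (hMP : MP C0 C3 k)
    (hC1 : 1 ≤ C1) (A x e y η r Tb : ℝ) (hA : 4 < A) (hA2 : A < 12 + min r 1) (hx : 0 < x)
    (hx1 : x ≤ 1 / (1040 * (11 * k + 60))) (hx2 : 20 * x ≤ 1 / 1040) (he0 : 0 < e)
    (her : 100 * e ≤ r) (hex : e ≤ x) (hey : e ≤ y) (heη : e ≤ η) (hy : 0 < y) (hy1 : y ≤ 1 / 30)
    (hb : ∀ T : ℝ, Tb ≤ T → ∀ (K : ℝ) (c : ℕ → ℝ → ℂ), CC C1 T K c →
      T ^ (1 / 3 + y) ≤ K → K ≤ T ^ (1 / 2 - 4 * x) → ∀ Y : ℝ,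
      (T * K) ^ (1 / 4 : ℝ) * T ^ (-r) ≤ Y → TT K c T Y ≤ T ^ (-r) * K ^ 3) :
    ∃ T0 : ℝ, 3 ≤ T0 ∧ ∀ T : ℝ, T0 ≤ T → ∀ V : ℝ, T ^ (1 / 8 - x) ≤ V →
      ∀ (K : ℝ) (c : ℕ → ℝ → ℂ), CC C1 T K c → 0 < K → K ≤ C1 * (Real.log T) ^ 6 * T / V ^ 4 →
      (T ^ (1 / 3 - y) ≤ K → K ≤ T ^ (1 / 3 + y) → ∀ t ∈ Set.Icc T (2 * T),
        ‖SS K c t‖ ≤ (T * K) ^ (1 / 4 : ℝ) * T ^ (-η)) →
      V ^ (A - 2) * ((T * K) ^ (-1 / 2 : ℝ) *
        TT K c T ((T * K) ^ (1 / 4 : ℝ) / (C1 * (Real.log T) ^ 2))) ≤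
        T ^ (1 + (A - 4) / 8 - 2 * e) := by
  have hr : 0 < r := by linarith
  have hAr : A < 12 + r := lt_of_lt_of_le hA2 (by linarith [min_le_left r 1])
  have hA1 : A < 13 := lt_of_lt_of_le hA2 (by linarith [min_le_right r 1])
  obtain ⟨Ta, hTa, ha⟩ := as11 C1 y hC1 hy (by linarith)
  obtain ⟨Tc, hTc, hc⟩ := as10 C0 C3 C1 k hKP hMP hC1 x hx hx1
  obtain ⟨Td, hTd, hd⟩ := as4b C1 (e / 100) 2 (by linarith) (by positivity)
  obtain ⟨Te, hTe, hE⟩ := as4b C1 (2 * e / 5) 6 (by linarith) (by positivity)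
  refine ⟨max Ta (max Tb (max Tc (max Td Te))), hTa.trans (le_max_left _ _),
    fun T hT V hV K c hcc hK hK2 hsub => ?_⟩
  simp only [max_le_iff] at hT
  obtain ⟨hT1, hT2, hT3, hT4, hT5⟩ := hT
  have hT0 : 0 < T := by linarith
  have hT' : 1 ≤ T := by linarith
  have hT'' : 1 < T := by linarith
  have hlog : 0 < Real.log T := Real.log_pos (by linarith)
  have hC0' : 0 < C1 := by linarith
  have hP2 : 0 < C1 * Real.log T ^ 2 := by positivity
  have hd' := hd T hT4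
  have hE' := hE T hT5
  have hV0 : 0 < V := lt_of_lt_of_le (Real.rpow_pos_of_pos hT0 _) hV
  have hTK : 0 < T * K := mul_pos hT0 hK
  have hq0 : 0 < (T * K) ^ (1 / 4 : ℝ) := Real.rpow_pos_of_pos hTK _
  have hq : 0 ≤ (T * K) ^ (1 / 4 : ℝ) := hq0.le
  have thr : ∀ η : ℝ, e / 100 ≤ η → (T * K) ^ (1 / 4 : ℝ) * T ^ (-η) ≤
      (T * K) ^ (1 / 4 : ℝ) / (C1 * Real.log T ^ 2) := fun η hη =>
    twe2_thr hT0 hq hP2 (hd'.trans (Real.rpow_le_rpow_of_exponent_le hT' hη))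
  have hKT : K * V ^ 4 ≤ T ^ (1 + 2 * e / 5) := by
    rw [le_div_iff₀ (by positivity)] at hK2
    refine hK2.trans ?_
    rw [Real.rpow_add hT0, Real.rpow_one, mul_comm T]
    exact mul_le_mul_of_nonneg_right hE' hT0.le
  rcases le_or_gt K (T ^ (1 / 3 - y)) with h0 | h0
  · rw [ha T hT1 K c hcc hK h0 _ (thr _ (by linarith)), mul_zero, mul_zero]
    positivity
  rcases le_or_gt K (T ^ (1 / 3 + y)) with h1 | h1
  · rw [twe2_zero hT0 fun t ht => ?_, mul_zero, mul_zero]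
    · positivity
    · refine lt_of_le_of_lt (hsub h0.le h1 t ht) (lt_of_lt_of_le ?_ (thr (η / 2) (by linarith)))
      refine mul_lt_mul_of_pos_left ?_ hq0
      exact Real.rpow_lt_rpow_of_exponent_lt hT'' (by linarith)
  rcases le_or_gt K (T ^ (1 / 2 - 4 * x)) with h3 | h3
  · have hTT := hb T hT2 K c hcc h1.le h3 _ (thr r (by linarith))
    have hstep : V ^ (A - 2) * ((T * K) ^ (-1 / 2 : ℝ) *
        TT K c T ((T * K) ^ (1 / 4 : ℝ) / (C1 * (Real.log T) ^ 2))) ≤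
        V ^ (A - 2) * (T ^ (-r - 1 / 2) * K ^ (5 / 2 : ℝ)) := by
      refine mul_le_mul_of_nonneg_left ?_ (by positivity)
      refine (mul_le_mul_of_nonneg_left hTT (by positivity)).trans (le_of_eq ?_)
      rw [Real.mul_rpow hT0.le hK.le]
      have e1 : T ^ (-r - 1 / 2) = T ^ (-1 / 2 : ℝ) * T ^ (-r) := by
        rw [← Real.rpow_add hT0]
        congr 1
        ring
      have e2 : K ^ (5 / 2 : ℝ) = K ^ (-1 / 2 : ℝ) * K ^ 3 := by
        rw [← Real.rpow_natCast K 3, ← Real.rpow_add hK]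
        congr 1
        norm_num
      rw [e1, e2]
      ring
    refine hstep.trans ?_
    rcases le_or_gt (T ^ (1 / 8 + x)) V with h4 | h4
    · have hK5 : K ^ (5 / 2 : ℝ) ≤ T ^ (5 / 2 + e) * V ^ (-10 : ℝ) := by
        have h5 : K ≤ T ^ (1 + 2 * e / 5) * V ^ (-4 : ℝ) := by
          rw [Real.rpow_neg hV0.le, ← div_eq_mul_inv, le_div_iff₀ (Real.rpow_pos_of_pos hV0 _)]
          have h6 : V ^ (4 : ℝ) = V ^ 4 := by exact_mod_cast Real.rpow_natCast V 4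
          rw [h6]
          exact hKT
        refine (Real.rpow_le_rpow hK.le h5 (by norm_num : (0 : ℝ) ≤ 5 / 2)).trans (le_of_eq ?_)
        rw [Real.mul_rpow (by positivity) (by positivity), ← Real.rpow_mul hT0.le,
          ← Real.rpow_mul hV0.le]
        have h7 : (1 + 2 * e / 5) * (5 / 2) = 5 / 2 + e := by ring
        have h8 : (-4 : ℝ) * (5 / 2) = -10 := by norm_num
        rw [h7, h8]
      have e3 : T ^ (2 + e - r) = T ^ (-r - 1 / 2) * T ^ (5 / 2 + e) := by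
        rw [← Real.rpow_add hT0]
        congr 1
        ring
      have e4 : V ^ (A - 12) = V ^ (A - 2) * V ^ (-10 : ℝ) := by
        rw [← Real.rpow_add hV0]
        congr 1
        ring
      have e5 : V ^ (A - 12) ≤ T ^ ((A - 12) / 8 + r / 24 + e / 10) := by
        rcases le_or_gt A 12 with hA12 | hA12
        · calc V ^ (A - 12) ≤ (T ^ (1 / 8 + x)) ^ (A - 12) :=
              Real.rpow_le_rpow_of_nonpos (by positivity) h4 (by linarith)
            _ = T ^ ((1 / 8 + x) * (A - 12)) := by rw [← Real.rpow_mul hT0.le]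
            _ ≤ T ^ ((A - 12) / 8 + r / 24 + e / 10) := by
              refine Real.rpow_le_rpow_of_exponent_le hT' ?_
              have h5 : x * (A - 12) ≤ 0 := mul_nonpos_of_nonneg_of_nonpos hx.le (by linarith)
              linarith
        · have hV6 : V ≤ T ^ (1 / 6 + e / 10) := by
            have h5 : V ^ 4 ≤ (T ^ (1 / 6 + e / 10)) ^ 4 := by
              have h6 : (T ^ (1 / 6 + e / 10)) ^ 4 = T ^ (1 + 2 * e / 5) / T ^ (1 / 3 : ℝ) := by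
                rw [← Real.rpow_natCast, ← Real.rpow_mul hT0.le, ← Real.rpow_sub hT0]
                congr 1
                push_cast
                ring
              rw [h6, le_div_iff₀ (by positivity)]
              have h7 : T ^ (1 / 3 : ℝ) ≤ K :=
                (Real.rpow_le_rpow_of_exponent_le hT' (by linarith)).trans h1.le
              calc V ^ 4 * T ^ (1 / 3 : ℝ) ≤ V ^ 4 * K := by gcongr
                _ = K * V ^ 4 := mul_comm _ _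
                _ ≤ _ := hKT
            exact le_of_pow_le_pow_left₀ (by norm_num) (by positivity) h5
          calc V ^ (A - 12) ≤ (T ^ (1 / 6 + e / 10)) ^ (A - 12) :=
              Real.rpow_le_rpow hV0.le hV6 (by linarith)
            _ = T ^ ((1 / 6 + e / 10) * (A - 12)) := by rw [← Real.rpow_mul hT0.le]
            _ ≤ T ^ ((A - 12) / 8 + r / 24 + e / 10) := by
              refine Real.rpow_le_rpow_of_exponent_le hT' ?_
              have h5 : e * (A - 12) ≤ e * 1 := mul_le_mul_of_nonneg_left (by linarith) he0.le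
              linarith
      calc V ^ (A - 2) * (T ^ (-r - 1 / 2) * K ^ (5 / 2 : ℝ))
          ≤ V ^ (A - 2) * (T ^ (-r - 1 / 2) * (T ^ (5 / 2 + e) * V ^ (-10 : ℝ))) := by gcongr
        _ = T ^ (2 + e - r) * V ^ (A - 12) := by
          rw [e3, e4]
          ring
        _ ≤ T ^ (2 + e - r) * T ^ ((A - 12) / 8 + r / 24 + e / 10) :=
          mul_le_mul_of_nonneg_left e5 (by positivity)
        _ = T ^ (2 + e - r + ((A - 12) / 8 + r / 24 + e / 10)) := by rw [← Real.rpow_add hT0]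
        _ ≤ T ^ (1 + (A - 4) / 8 - 2 * e) :=
          Real.rpow_le_rpow_of_exponent_le hT' (by linarith)
    · have h5 : V ^ (A - 2) ≤ T ^ ((1 / 8 + x) * (A - 2)) := by
        rw [Real.rpow_mul hT0.le]
        exact Real.rpow_le_rpow hV0.le h4.le (by linarith)
      have h6 : K ^ (5 / 2 : ℝ) ≤ T ^ ((1 / 2 - 4 * x) * (5 / 2)) := by
        rw [Real.rpow_mul hT0.le]
        exact Real.rpow_le_rpow hK.le h3 (by norm_num)
      have h7 : x * (A - 12) ≤ r / 100 := by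
        have h8 : x * (A - 12) ≤ x * r := mul_le_mul_of_nonneg_left (by linarith) hx.le
        have h9 : x * r ≤ 1 / 100 * r := mul_le_mul_of_nonneg_right (by linarith) hr.le
        linarith
      calc V ^ (A - 2) * (T ^ (-r - 1 / 2) * K ^ (5 / 2 : ℝ))
          ≤ T ^ ((1 / 8 + x) * (A - 2)) *
            (T ^ (-r - 1 / 2) * T ^ ((1 / 2 - 4 * x) * (5 / 2))) := by gcongr
        _ = T ^ ((1 / 8 + x) * (A - 2) + ((-r - 1 / 2) + (1 / 2 - 4 * x) * (5 / 2))) := by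
          rw [Real.rpow_add hT0, Real.rpow_add hT0 (-r - 1 / 2)]
        _ ≤ T ^ (1 + (A - 4) / 8 - 2 * e) :=
          Real.rpow_le_rpow_of_exponent_le hT' (by linarith)
  · have hK3 : K ≤ T ^ (1 / 2 + 5 * x) := by
      have hV4 : T ^ (1 / 2 - 4 * x) ≤ V ^ 4 := by
        have h5 := pow_le_pow_left₀ (by positivity) hV 4
        refine le_trans (le_of_eq ?_) h5
        rw [← Real.rpow_natCast, ← Real.rpow_mul hT0.le]
        congr 1
        push_cast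
        ring
      have h5 : K * T ^ (1 / 2 - 4 * x) ≤ T ^ (1 + 2 * e / 5) :=
        (mul_le_mul_of_nonneg_left hV4 hK.le).trans hKT
      have h6 : K ≤ T ^ (1 + 2 * e / 5) / T ^ (1 / 2 - 4 * x) := by
        rwa [le_div_iff₀ (by positivity)]
      refine h6.trans ?_
      rw [← Real.rpow_sub hT0]
      exact Real.rpow_le_rpow_of_exponent_le hT' (by linarith)
    have hV5 : V ≤ T ^ (1 / 8 + x + e / 10) := by
      have h5 : V ^ 4 ≤ (T ^ (1 / 8 + x + e / 10)) ^ 4 := by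
        have h6 : (T ^ (1 / 8 + x + e / 10)) ^ 4 = T ^ (1 + 2 * e / 5) / T ^ (1 / 2 - 4 * x) := by
          rw [← Real.rpow_natCast, ← Real.rpow_mul hT0.le, ← Real.rpow_sub hT0]
          congr 1
          push_cast
          ring
        rw [h6, le_div_iff₀ (by positivity)]
        calc V ^ 4 * T ^ (1 / 2 - 4 * x) ≤ V ^ 4 * K := by gcongr
          _ = K * V ^ 4 := mul_comm _ _
          _ ≤ _ := hKT
      exact le_of_pow_le_pow_left₀ (by norm_num) (by positivity) h5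
    have hTT := hc T hT3 K c hcc h3.le hK3 _ (thr x (by linarith))
    have h7 : (T * K) ^ (1 / 2 : ℝ) = (T * K) ^ (-1 / 2 : ℝ) * (T * K) := by
      have h8 : (T * K) ^ (1 / 2 : ℝ) = (T * K) ^ (-1 / 2 : ℝ) * (T * K) ^ (1 : ℝ) := by
        rw [← Real.rpow_add hTK]
        norm_num
      rw [h8, Real.rpow_one]
    have h9 : V ^ (A - 2) ≤ T ^ ((1 / 8 + x + e / 10) * (A - 2)) := by
      rw [Real.rpow_mul hT0.le]
      exact Real.rpow_le_rpow hV0.le hV5 (by linarith)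
    have h10 : (T * K) ^ (1 / 2 : ℝ) ≤ T ^ ((3 / 2 + 5 * x) * (1 / 2)) := by
      rw [Real.rpow_mul hT0.le]
      refine Real.rpow_le_rpow hTK.le ?_ (by norm_num)
      have h11 : T ^ (3 / 2 + 5 * x) = T * T ^ (1 / 2 + 5 * x) := by
        have h12 : T ^ (3 / 2 + 5 * x) = T ^ (1 : ℝ) * T ^ (1 / 2 + 5 * x) := by
          rw [← Real.rpow_add hT0]
          congr 1
          ring
        rw [h12, Real.rpow_one]
      rw [h11]
      exact mul_le_mul_of_nonneg_left hK3 hT0.le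
    have h13 : (x + e / 10) * (A - 2) ≤ 13 * x := by
      have h14 : x + e / 10 ≤ 11 / 10 * x := by linarith
      have h15 : 0 ≤ A - 2 := by linarith
      calc (x + e / 10) * (A - 2) ≤ 11 / 10 * x * (A - 2) := mul_le_mul_of_nonneg_right h14 h15
        _ ≤ 11 / 10 * x * 11 := mul_le_mul_of_nonneg_left (by linarith) (by positivity)
        _ ≤ 13 * x := by linarith
    calc V ^ (A - 2) * ((T * K) ^ (-1 / 2 : ℝ) *
          TT K c T ((T * K) ^ (1 / 4 : ℝ) / (C1 * (Real.log T) ^ 2)))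
        ≤ V ^ (A - 2) * ((T * K) ^ (-1 / 2 : ℝ) * (T * K * T ^ (-(1 / 1040) : ℝ))) := by gcongr
      _ = V ^ (A - 2) * ((T * K) ^ (1 / 2 : ℝ) * T ^ (-(1 / 1040) : ℝ)) := by
        rw [h7]
        ring
      _ ≤ T ^ ((1 / 8 + x + e / 10) * (A - 2)) *
          (T ^ ((3 / 2 + 5 * x) * (1 / 2)) * T ^ (-(1 / 1040) : ℝ)) := by gcongr
      _ = T ^ ((1 / 8 + x + e / 10) * (A - 2) + ((3 / 2 + 5 * x) * (1 / 2) + (-(1 / 1040) : ℝ))) := by
        rw [Real.rpow_add hT0, Real.rpow_add hT0 ((3 / 2 + 5 * x) * (1 / 2))]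
      _ ≤ T ^ (1 + (A - 4) / 8 - 2 * e) :=
        Real.rpow_le_rpow_of_exponent_le hT' (by linarith)

theorem twe2 (C0 C3 C4 T4 y η : ℝ) (k : ℕ) (hKPX : KPX C0) (hMP : MP C0 C3 k) (hZP : ZPX C4 T4 y η)
    (hy : 0 < y) (hy1 : y ≤ 1 / 30) (hη : 0 < η) : ∃ c1 : ℝ, 0 < c1 ∧ ∀ A : ℝ, 4 < A → A < 12 + c1 →
      ∃ x δ T0 : ℝ, 0 < x ∧ x ≤ 1 / 100 ∧ 0 < δ ∧ 3 ≤ T0 ∧ ∀ T : ℝ, T0 ≤ T →
      ∀ V : ℝ, T ^ (1 / 8 - x) ≤ V → V ≤ T ^ (9 / 50 : ℝ) →
        V ^ A * ((RS T V).card : ℝ) ≤ T ^ (1 + (A - 4) / 8 - δ) := by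
  obtain ⟨C1, T1, hC1, hT1, h13⟩ := twe1 C4 T4 y η hZP
  have hk : (0 : ℝ) ≤ k := Nat.cast_nonneg k
  obtain ⟨x, hxdef⟩ : ∃ x : ℝ, x = 1 / (29120 * (11 * k + 60)) := ⟨_, rfl⟩
  have hx : 0 < x := by rw [hxdef]; positivity
  have hx1 : x ≤ 1 / (1040 * (11 * k + 60)) := by
    rw [hxdef]
    apply one_div_le_one_div_of_le (by positivity)
    nlinarith
  have hx3 : x ≤ 1 / (29120 * 60) := by
    rw [hxdef]
    apply one_div_le_one_div_of_le (by positivity)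
    nlinarith
  have hx2 : 20 * x ≤ 1 / 1040 := by
    have : (20 : ℝ) * (1 / (29120 * 60)) ≤ 1 / 1040 := by norm_num
    linarith
  have hx4 : x ≤ 1 / 100 := by linarith
  obtain ⟨r, Tb, hr, hTb, hb⟩ := tw8 C0 C1 (4 * x) y hKPX hC1 (by linarith) (by linarith) hy
    (by linarith)
  refine ⟨min r 1, lt_min hr one_pos, fun A hA hA2 => ?_⟩
  obtain ⟨e, he⟩ : ∃ e : ℝ, e = min (r / 100) (min x (min y η)) := ⟨_, rfl⟩
  have he0 : 0 < e := by
    rw [he]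
    exact lt_min (by positivity) (lt_min hx (lt_min hy hη))
  have her : 100 * e ≤ r := by
    have h1 : e ≤ r / 100 := by rw [he]; exact min_le_left _ _
    linarith
  have hex : e ≤ x := by rw [he]; exact (min_le_right _ _).trans (min_le_left _ _)
  have hey : e ≤ y := by
    rw [he]
    exact (min_le_right _ _).trans ((min_le_right _ _).trans (min_le_left _ _))
  have heη : e ≤ η := by
    rw [he]
    exact (min_le_right _ _).trans ((min_le_right _ _).trans (min_le_right _ _))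
  obtain ⟨T2, hT2, hcl⟩ := twe2_claim C0 C3 C1 k hKPX.kp hMP hC1 A x e y η r Tb hA hA2 hx hx1 hx2
    he0 her hex hey heη hy hy1 hb
  obtain ⟨T3, hT3, hL⟩ := as4b (C1 ^ 2) e 9 (by positivity) he0
  refine ⟨x, e, max T1 (max T2 T3), hx, hx4, he0, hT1.trans (le_max_left _ _),
    fun T hT V hV hV2 => ?_⟩
  simp only [max_le_iff] at hT
  obtain ⟨hTa, hTb, hTc⟩ := hT
  have hT0 : 0 < T := by linarith
  have hT' : 1 ≤ T := by linarith
  have hlog : 0 < Real.log T := Real.log_pos (by linarith)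
  have hC0' : 0 < C1 := by linarith
  have hV0 : 0 < V := lt_of_lt_of_le (Real.rpow_pos_of_pos hT0 _) hV
  obtain ⟨ι, K, c, hι, hK, hc, hsub, hRS⟩ := h13 T hTa V
    ((Real.rpow_le_rpow_of_exponent_le hT' (by linarith)).trans hV)
    (hV2.trans (Real.rpow_le_rpow_of_exponent_le hT' (by norm_num)))
  have hVA : V ^ A = V ^ (A - 2) * V ^ 2 := by
    rw [← Real.rpow_natCast V 2, ← Real.rpow_add hV0]
    congr 1
    push_cast
    ring
  have hsum : ∑ i ∈ ι, V ^ (A - 2) * ((T * K i) ^ (-1 / 2 : ℝ) *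
      TT (K i) (c i) T ((T * K i) ^ (1 / 4 : ℝ) / (C1 * (Real.log T) ^ 2))) ≤
      C1 * (Real.log T) ^ 2 * T ^ (1 + (A - 4) / 8 - 2 * e) := by
    refine (Finset.sum_le_card_nsmul ι _ _ fun i hi =>
      hcl T hTb V hV (K i) (c i) (hc i hi) (hK i hi).1 (hK i hi).2 (hsub i hi)).trans ?_
    rw [nsmul_eq_mul]
    exact mul_le_mul_of_nonneg_right hι (by positivity)
  calc V ^ A * ((RS T V).card : ℝ)
      ≤ V ^ A * (C1 * (Real.log T) ^ 7 / V ^ 2 * ∑ i ∈ ι, (T * K i) ^ (-1 / 2 : ℝ) *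
        TT (K i) (c i) T ((T * K i) ^ (1 / 4 : ℝ) / (C1 * (Real.log T) ^ 2))) :=
        mul_le_mul_of_nonneg_left hRS (by positivity)
    _ = C1 * (Real.log T) ^ 7 * ∑ i ∈ ι, V ^ (A - 2) * ((T * K i) ^ (-1 / 2 : ℝ) *
        TT (K i) (c i) T ((T * K i) ^ (1 / 4 : ℝ) / (C1 * (Real.log T) ^ 2))) := by
        rw [← Finset.mul_sum, hVA]
        field_simp
    _ ≤ C1 * (Real.log T) ^ 7 * (C1 * (Real.log T) ^ 2 * T ^ (1 + (A - 4) / 8 - 2 * e)) :=
        mul_le_mul_of_nonneg_left hsum (by positivity)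
    _ = (C1 ^ 2 * (Real.log T) ^ 9) * T ^ (1 + (A - 4) / 8 - 2 * e) := by ring
    _ ≤ T ^ e * T ^ (1 + (A - 4) / 8 - 2 * e) :=
        mul_le_mul_of_nonneg_right (hL T hTc) (by positivity)
    _ = T ^ (1 + (A - 4) / 8 - e) := by
        rw [← Real.rpow_add hT0]
        congr 1
        ring

end Pool.Agent.LibSX15
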