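import Pool.Agent.LibSX15.KN_sum
import Pool.Agent.LibSX15.TW0

/-! LibSX15, block TW (helper99): the kernel theorem with the additional properties (proof = helper88, row KN_fin). -/

set_option autoImplicit false

namespace Pool.Agent.LibSX15

private theorem twk_sp (A : ℝ) (hA : 1 ≤ |A|) : ‖sp A‖ ≤ 1 := by
  unfold sp
  have h0 : (1 / (((2 * A : ℝ) : ℂ) * Complex.I)) ≠ 0 := by
    have : A ≠ 0 := by
      intro h; rw [h] at hA; norm_num at hA
    simp [this]
  rw [Complex.norm_cpow_of_ne_zero h0]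
  have h1 : ((1 / 2 : ℂ)).im = 0 := by norm_num
  have h2 : ((1 / 2 : ℂ)).re = 1 / 2 := by norm_num
  rw [h1, h2]
  simp only [mul_zero, Real.exp_zero, div_one]
  apply Real.rpow_le_one (norm_nonneg _) _ (by norm_num)
  rw [norm_div, norm_mul, Complex.norm_I, Complex.norm_real, norm_one, mul_one, Real.norm_eq_abs,
    abs_mul, abs_two]
  rw [div_le_one (by linarith)]
  linarith

private theorem twk_gam (m : ℤ) : ‖gam m‖ ≤ 1 := by
  unfold gam
  split_ifs
  · apply twk_sp; norm_num
  · apply twk_sp; norm_num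

private theorem twk_lip {f : ℝ → ℝ} {C : ℝ} (hf : Differentiable ℝ f)
    (hC : ∀ x, |deriv f x| ≤ C) (x y : ℝ) : |f x - f y| ≤ C * |x - y| := by
  have := Convex.norm_image_sub_le_of_norm_deriv_le (𝕜 := ℝ) (f := f) (s := Set.univ) (x := y)
    (y := x) (C := C) (fun z _ => hf z) (fun z _ => by simpa using hC z) convex_univ
    (Set.mem_univ _) (Set.mem_univ _)
  simpa using this

private theorem twk_taylor {f : ℝ → ℝ} {C : ℝ} (hf : Differentiable ℝ f)
    (hf' : Differentiable ℝ (deriv f)) (hC : ∀ x, |deriv (deriv f) x| ≤ C) (x y : ℝ) :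
    |f y - f x - deriv f x * (y - x)| ≤ C * (y - x) ^ 2 := by
  have hlip := twk_lip hf' hC
  set g : ℝ → ℝ := fun z => f z - deriv f x * z with hg
  have hgd : ∀ z, HasDerivAt g (deriv f z - deriv f x) z := by
    intro z
    have h1 : HasDerivAt f (deriv f z) z := (hf z).hasDerivAt
    have h2 : HasDerivAt (fun z => deriv f x * z) (deriv f x * 1) z :=
      (hasDerivAt_id z).const_mul _
    have := h1.sub h2
    rw [mul_one] at this
    exact this
  have hC0 : 0 ≤ C := le_trans (abs_nonneg _) (hC 0)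
  have := Convex.norm_image_sub_le_of_norm_hasDerivWithin_le (𝕜 := ℝ) (f := g)
    (f' := fun z => deriv f z - deriv f x) (s := Set.uIcc x y) (x := x)
    (y := y) (C := C * |y - x|) (fun z _ => (hgd z).hasDerivWithinAt)
    (fun z hz => by
      rw [Real.norm_eq_abs]
      refine (hlip z x).trans ?_
      apply mul_le_mul_of_nonneg_left _ hC0
      rcases le_total x y with h | h
      · rw [Set.uIcc_of_le h] at hz
        rw [abs_of_nonneg (by linarith [hz.1]), abs_of_nonneg (by linarith)]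
        linarith [hz.2]
      · rw [Set.uIcc_of_ge h] at hz
        rw [abs_of_nonpos (by linarith [hz.2]), abs_of_nonpos (by linarith)]
        linarith [hz.1]) (convex_uIcc x y)
    Set.left_mem_uIcc Set.right_mem_uIcc
  rw [Real.norm_eq_abs, Real.norm_eq_abs] at this
  have e1 : g y - g x = f y - f x - deriv f x * (y - x) := by simp only [hg]; ring
  rw [e1] at this
  calc _ ≤ _ := this
    _ = C * (|y - x| * |y - x|) := by ring
    _ = C * (y - x) ^ 2 := by rw [abs_mul_abs_self]; ring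

private theorem twk_tsum (N u : ℝ) (hN : 2 ≤ N) (τ : ℤ) :
    ∑' n : ℤ, (om (n / N) : ℂ) * ee (zx N u n * τ) =
      ∑ n ∈ Finset.Icc 1 ⌊2 * N⌋₊, ((om ((n : ℝ) / N) : ℝ) : ℂ) * ee (zxi N u n * τ) := by
  have hN0 : 0 < N := by linarith
  rw [tsum_eq_sum (s := (Finset.Icc 1 ⌊2 * N⌋₊).image (fun n : ℕ => (n : ℤ)))]
  · rw [Finset.sum_image (by intro a _ b _ h; exact Int.ofNat.inj h)]
    apply Finset.sum_congr rfl
    intro n _
    simp [zx, zxi]
  · intro n hn
    have : om ((n : ℝ) / N) = 0 := by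
      apply om_zero
      rcases le_or_gt n 0 with h | h
      · left
        have : (n : ℝ) ≤ 0 := by exact_mod_cast h
        have := div_nonpos_of_nonpos_of_nonneg this hN0.le
        linarith
      · right
        by_contra hlt
        push Not at hlt
        apply hn
        rw [Finset.mem_image]
        refine ⟨n.toNat, ?_, by omega⟩
        rw [Finset.mem_Icc]
        refine ⟨by omega, ?_⟩
        apply Nat.le_floor
        rw [div_lt_iff₀ hN0] at hlt
        have h3 : ((n.toNat : ℕ) : ℝ) = (n : ℝ) := by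
          have : ((n.toNat : ℕ) : ℤ) = n := by omega
          exact_mod_cast this
        rw [h3]; exact hlt.le
    rw [this]; simp

private theorem twk_zxi {N u : ℝ} {n : ℕ} (hN : 2 ≤ N) (h : (n : ℝ) ≤ 2 * N) :
    0 ≤ zxi N u n ∧ zxi N u n ≤ 1 / 4 := by
  have hN0 : 0 < N := by linarith
  have h1 : 0 ≤ Real.sqrt ((n : ℝ) / N) := Real.sqrt_nonneg _
  have h2 : Real.sqrt ((n : ℝ) / N) ≤ 3 / 2 := by
    rw [Real.sqrt_le_left (by norm_num), div_le_iff₀ hN0]
    nlinarith
  have h3 : (1 : ℝ) ≤ Real.sqrt (1 + (n : ℝ) / (12 * u ^ 2)) := by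
    rw [Real.one_le_sqrt]
    have : (0 : ℝ) ≤ (n : ℝ) / (12 * u ^ 2) := by positivity
    linarith
  unfold zxi
  refine ⟨by positivity, ?_⟩
  rw [div_le_iff₀ (by linarith)]
  nlinarith

private noncomputable def twk_d (N M u C0 : ℝ) : Dat where
  S := Finset.Icc 1 ⌊2 * N⌋₊
  ξ := zxi N u
  ω := fun n => om ((n : ℝ) / N)
  γ := gam
  w := wf (3 * N / u ^ 2)
  q := qf (3 * N / u ^ 2)
  q1 := deriv (qf (3 * N / u ^ 2))
  b0 := 36
  N := N
  M := M
  ε := 3 * N ^ 2 / u ^ 2
  Err := C0 * (1 + M * (3 * N ^ 2 / u ^ 2)) ^ 2 * (1 + Real.log M)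

theorem twk : ∃ C0 : ℝ, KPX C0 := by
  obtain ⟨C1, hC1, H1⟩ := KN_sum
  obtain ⟨C2, hC2, H2⟩ := wf_bound
  obtain ⟨C3, hC3, H3⟩ := qf_bound
  obtain ⟨C0, h400, h1, h2, h3⟩ : ∃ C0 : ℝ, 400 ≤ C0 ∧ C1 ≤ C0 ∧ C2 ≤ C0 ∧ C3 ≤ C0 := by
    refine ⟨400 + C1 + C2 + C3, ?_, ?_, ?_, ?_⟩ <;> linarith
  have hC01 : 1 ≤ C0 := by linarith
  refine ⟨C0, hC01, ?_⟩
  intro N M u hN hM hMN hu hNu
  have hu2 : 0 < u ^ 2 := by positivity
  have hN0 : 0 < N := by linarith
  set e : ℝ := 3 * N / u ^ 2 with he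
  have he0 : 0 ≤ e := by positivity
  have he1 : e ≤ 3 / 100 := by
    rw [he, div_le_iff₀ hu2]; nlinarith
  have hNe : N * e = 3 * N ^ 2 / u ^ 2 := by
    rw [he]; ring
  have hlog : 0 ≤ Real.log M := Real.log_nonneg hM
  have hE0 : 0 ≤ M * (3 * N ^ 2 / u ^ 2) := by positivity
  have hE1 : 1 ≤ (1 + M * (3 * N ^ 2 / u ^ 2)) ^ 2 * (1 + Real.log M) := by
    have h5 : (1 : ℝ) ≤ (1 + M * (3 * N ^ 2 / u ^ 2)) ^ 2 := by nlinarith
    nlinarith
  have hwd : ContDiff ℝ 2 (wf e) := wf_contDiff he0 he1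
  have hqd : ContDiff ℝ 2 (qf e) := qf_contDiff he0 he1
  have hqd' : Differentiable ℝ (deriv (qf e)) := by
    have : ContDiff ℝ 1 (deriv (qf e)) := by
      have h6 : ContDiff ℝ (1 + 1) (qf e) := by
        have : (1 + 1 : WithTop ℕ∞) = 2 := by norm_num
        rw [this]; exact hqd
      exact (contDiff_succ_iff_deriv.1 h6).2.2
    exact this.differentiable (by norm_num)
  refine ⟨twk_d N M u C0, ?_, ⟨?_, ?_, ?_⟩, rfl, rfl, rfl, rfl, ?_, ?_⟩
  · constructor
    · exact hC01
    · exact hN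
    · exact hM
    · show (1 : ℝ) ≤ 36
      norm_num
    · show (36 : ℝ) ≤ C0
      linarith
    · show 0 ≤ 3 * N ^ 2 / u ^ 2
      positivity
    · show 1 ≤ C0 * (1 + M * (3 * N ^ 2 / u ^ 2)) ^ 2 * (1 + Real.log M)
      rw [mul_assoc]
      nlinarith
    · show ((Finset.Icc 1 ⌊2 * N⌋₊).card : ℝ) ≤ C0 * N
      rw [Nat.card_Icc, Nat.add_sub_cancel]
      have := Nat.floor_le (show 0 ≤ 2 * N by linarith)
      nlinarith
    · intro n; exact om_nonneg _
    · intro n; exact om_le_one _
    · intro n hn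
      have hn2 : (n : ℝ) ≤ 2 * N := by
        have := (Finset.mem_Icc.1 hn).2
        exact (Nat.le_floor_iff (by linarith)).1 this
      exact (twk_zxi hN hn2).1
    · intro n hn
      have hn2 : (n : ℝ) ≤ 2 * N := by
        have := (Finset.mem_Icc.1 hn).2
        exact (Nat.le_floor_iff (by linarith)).1 this
      exact (twk_zxi hN hn2).2
    · intro m; exact (twk_gam m).trans hC01
    · intro x; exact ((H2 e he0 he1 x).1).trans h2
    · intro x y
      exact twk_lip (hwd.differentiable (by norm_num))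
        (fun z => ((H2 e he0 he1 z).2.1).trans h2) x y
    · intro x hx
      show 1 / C0 ≤ x
      by_contra hlt
      push Not at hlt
      apply hx
      apply wf_zero_low he0 he1
      refine hlt.le.trans ?_
      exact one_div_le_one_div_of_le (by norm_num) h400
    · intro x hx
      show x ≤ 1 / 4
      by_contra hlt
      push Not at hlt
      apply hx
      apply wf_zero_high he0
      linarith
    · intro x; exact ((H3 e he0 he1 x).2.1).trans h3
    · intro x y
      exact twk_lip hqd' (fun z => ((H3 e he0 he1 z).2.2).trans h3) x y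
    · intro x y
      exact twk_taylor (hqd.differentiable (by norm_num)) hqd'
        (fun z => ((H3 e he0 he1 z).2.2).trans h3) x y
    · intro τ hτ
      have hτ' : |(τ : ℝ)| ≤ 8 * M * N := hτ
      have key := H1 N u e M τ ((Finset.Icc (-⌊C0 * M⌋) ⌊C0 * M⌋).erase 0) hN (by linarith) hM he he1
        hτ' (Finset.notMem_erase _ _) (by
          intro m hm0 hm
          rw [Finset.mem_erase, Finset.mem_Icc]
          refine ⟨hm0, ?_⟩
          have hm1 : |(m : ℝ)| ≤ C0 * M := by nlinarith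
          have hm2 : |m| ≤ ⌊C0 * M⌋ := by
            apply Int.le_floor.2
            rw [Int.cast_abs]; exact hm1
          exact abs_le.1 hm2)
      have e1 : (∑ m ∈ (Finset.Icc (-⌊C0 * M⌋) ⌊C0 * M⌋).erase 0, chi e N m τ) =
          ∑ m ∈ (twk_d N M u C0).ms C0, (twk_d N M u C0).km m τ := by
        apply Finset.sum_congr rfl
        intro m _
        unfold chi Dat.km Dat.ph
        simp only [hNe]
        rfl
      rw [e1, twk_tsum N u hN τ] at key
      refine le_trans key ?_
      rw [hNe]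
      show C1 * (N / (1 + (τ : ℝ) ^ 2) + (1 + M * (3 * N ^ 2 / u ^ 2)) ^ 2 * (1 + Real.log M)) ≤
        C0 * (N / (1 + (τ : ℝ) ^ 2) + C0 * (1 + M * (3 * N ^ 2 / u ^ 2)) ^ 2 * (1 + Real.log M))
      have hA : 0 ≤ N / (1 + (τ : ℝ) ^ 2) := by positivity
      have hB : (1 + M * (3 * N ^ 2 / u ^ 2)) ^ 2 * (1 + Real.log M) ≤
          C0 * (1 + M * (3 * N ^ 2 / u ^ 2)) ^ 2 * (1 + Real.log M) := by
        rw [mul_assoc]; nlinarith
      apply mul_le_mul h1 _ _ (by linarith)
      · linarith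
      · linarith
  · intro m hm
    show gam m = gam 1
    unfold gam
    rw [if_pos (by omega), if_pos (by omega)]
  · intro m hm
    show gam m = gam (-1)
    unfold gam
    rw [if_neg (by omega), if_neg (by omega)]
  · intro x
    exact ((H3 e he0 he1 x).1).trans h3
  · intro n hn1 hn2
    refine ⟨?_, ?_⟩
    · show n ∈ Finset.Icc 1 ⌊2 * N⌋₊
      rw [Finset.mem_Icc]
      constructor
      · have : (0 : ℝ) < n := by
          refine lt_of_lt_of_le ?_ hn1
          positivity
        exact_mod_cast this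
      · apply Nat.le_floor
        linarith
    · show om ((n : ℝ) / N) = 1
      apply om_one
      · rw [le_div_iff₀ hN0]; linarith
      · rw [div_le_one hN0]; exact hn2
  · intro n _; rfl

end Pool.Agent.LibSX15
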