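import Pool.Agent.LibSX15.TWS2

/-! LibSX15, block TW (helper99): `ZPX` from `zeta_to_S_str` and `str_top`. -/

set_option autoImplicit false

namespace Pool.Agent.LibSX15

open Finset

theorem twzpx : ∃ C T0 y η : ℝ, 0 < y ∧ y ≤ 1 / 30 ∧ 0 < η ∧ ZPX C T0 y η := by
  obtain ⟨y0, η0, hy0, hy1, hη0, hS⟩ := str_top
  obtain ⟨C, T0, h1, h2, h3⟩ := zeta_to_S_str
  obtain ⟨T1, hT1, h4⟩ := hS C y0 η0 h1 hy0 le_rfl hη0 le_rfl
  refine ⟨C, max T0 T1, y0, η0, hy0, hy1, hη0, h1, h2.trans (le_max_left _ _), fun T hT G hG1 hG2 => ?_⟩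
  obtain ⟨ι, K, c, a1, a2, a3, a4, a5, a6, a7⟩ := h3 T ((le_max_left _ _).trans hT) G hG1 hG2
  exact ⟨ι, K, c, a1, a2, fun i hi => ⟨a3 i hi, a4 i hi, a5 i hi⟩,
    fun i hi hK1 hK2 t ht => h4 T ((le_max_right _ _).trans hT) (K i) (c i) (a6 i hi) hK1 hK2 t ht, a7⟩

end Pool.Agent.LibSX15
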