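import Pool.Agent.LibSX15.LVD4
import Pool.Agent.LibSX15.AS14
import Pool.Agent.LibSX15.AS15
import Pool.Agent.LibSX15.AS16
import Pool.Agent.LibSX15.TWK
import Pool.Agent.LibSX15.TWS3
import Pool.Agent.LibSX15.TWE2

/-! LibSX15, block TW (helper78): the final theorem, for all `4 < A < 12 + c`. -/

set_option autoImplicit false

namespace Pool.Agent.LibSX15

open Finset

theorem moments12 : ∃ c : ℝ, 0 < c ∧ ∀ A : ℝ, 4 < A → A < 12 + c → ∃ δ T0 : ℝ, 0 < δ ∧ 1 ≤ T0 ∧ ∀ T : ℝ, T0 ≤ T →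
    ∫ t in (0:ℝ)..T, ‖riemannZeta (1 / 2 + (t : ℂ) * Complex.I)‖ ^ A ≤ T ^ (1 + (A - 4) / 8 - δ) := by
  obtain ⟨C0, hKPX⟩ := twk
  obtain ⟨C3, k, hC3, hLV⟩ := LV_main C0 hKPX.1
  have hMP : MP C0 C3 k := ⟨hC3, hLV⟩
  obtain ⟨C4, T4, y, η, hy, hy1, hη, hZPX⟩ := twzpx
  obtain ⟨c1, hc1, hE⟩ := twe2 C0 C3 C4 T4 y η k hKPX hMP hZPX hy hy1 hη
  refine ⟨c1, hc1, fun A hA hA2 => ?_⟩
  obtain ⟨x, δ, T0, hx, hx1, hδ, hT0, h1⟩ := hE A hA hA2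
  obtain ⟨T1, hT1, h2⟩ := as14b C4 T4 hZPX.zp
  obtain ⟨δ', N0, hδ', h3⟩ := as15 A x δ (max T0 T1) hA hx hx1 hδ
    (fun T hT => h1 T (le_trans (le_max_left _ _) hT)) (fun T hT => h2 T (le_trans (le_max_right _ _) hT))
  exact as16 A δ' N0 hA hδ' h3

end Pool.Agent.LibSX15
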