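import Pool.Agent.LibSX15.ZSA8

/-!
LibSX15, ZSA9Q (helper57): the final theorem of block ZS, carrying an arbitrary predicate of `(K i, c i)`.
-/

set_option autoImplicit false

namespace Pool.Agent.LibSX15

open Finset

/-- the statement of `ZSB_main` with a predicate of `(K i, c i)` -/
def ZSBprop (Q : ℝ → ℝ → ℝ → (ℕ → ℝ → ℂ) → Prop) : Prop :=
    ∀ (ω W : ℝ → ℝ), Bump ω → BumpW W → ∀ B : ℝ, 1 ≤ B →
    ∃ C T0 : ℝ, 1 ≤ C ∧ 3 ≤ T0 ∧ ∀ T : ℝ, T0 ≤ T → ∀ G : ℝ,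
    T ^ (1 / 5 : ℝ) ≤ G → G ≤ T ^ (1 / 2 : ℝ) → ∀ X : ℝ, 1 ≤ X → X ≤ B * T →
    ∃ (ι : Finset ℕ) (K : ℕ → ℝ) (c : ℕ → ℕ → ℝ → ℂ),
      (ι.card : ℝ) ≤ C * Real.log T ∧
      (∀ i ∈ ι, 0 < K i ∧ K i ≤ C * T / G ^ 2) ∧
      (∀ i ∈ ι, ∀ n : ℕ, ∀ t ∈ Set.Icc T (2 * T), ‖c i n t‖ ≤ C * n.divisors.card) ∧
      (∀ i ∈ ι, ∀ n : ℕ, ∀ t ∈ Set.Icc T (2 * T), c i n t ≠ 0 → K i / 2000 ≤ n ∧ (n : ℝ) ≤ K i) ∧
      (∀ i ∈ ι, ∀ n : ℕ, ∀ t ∈ Set.Icc T (2 * T), ∀ t' ∈ Set.Icc T (2 * T),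
        ‖c i n t - c i n t'‖ ≤ C * n.divisors.card * |t - t'| / T) ∧
      (∀ i ∈ ι, Q C T (K i) (c i)) ∧
      ∀ t ∈ Set.Icc T (2 * T),
        X⁻¹ * ‖∑ h ∈ Finset.Icc 1 ⌊2 * X⌋₊, ZF ω W G X t h‖ ≤
          C * (1 + ∑ i ∈ ι, (T * K i) ^ (-1 / 4 : ℝ) * ‖∑ n ∈ Finset.Icc 1 ⌊K i⌋₊, c i n t * ee (-zph n t)‖)

private def Pk (Q : ℝ → ℝ → ℝ → (ℕ → ℝ → ℂ) → Prop) (C T G : ℝ) (ι : Finset ℕ) (K : ℕ → ℝ) (c : ℕ → ℕ → ℝ → ℂ) : Prop :=
  (∀ i ∈ ι, 0 < K i ∧ K i ≤ C * T / G ^ 2) ∧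
  (∀ i ∈ ι, ∀ n : ℕ, ∀ t ∈ Set.Icc T (2 * T), ‖c i n t‖ ≤ C * n.divisors.card) ∧
  (∀ i ∈ ι, ∀ n : ℕ, ∀ t ∈ Set.Icc T (2 * T), c i n t ≠ 0 → K i / 2000 ≤ n ∧ (n : ℝ) ≤ K i) ∧
  (∀ i ∈ ι, ∀ n : ℕ, ∀ t ∈ Set.Icc T (2 * T), ∀ t' ∈ Set.Icc T (2 * T),
    ‖c i n t - c i n t'‖ ≤ C * n.divisors.card * |t - t'| / T) ∧
  (∀ i ∈ ι, Q C T (K i) (c i))

private noncomputable def Sm (T : ℝ) (ι : Finset ℕ) (K : ℕ → ℝ) (c : ℕ → ℕ → ℝ → ℂ) (t : ℝ) : ℝ :=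
  ∑ i ∈ ι, (T * K i) ^ (-1 / 4 : ℝ) * ‖∑ n ∈ Finset.Icc 1 ⌊K i⌋₊, c i n t * ee (-zph n t)‖

private theorem Pk_mono {Q : ℝ → ℝ → ℝ → (ℕ → ℝ → ℂ) → Prop}
    (hQ : ∀ C C' T K c, C ≤ C' → Q C T K c → Q C' T K c) {C C' T G : ℝ} (hT : 0 < T) (h : C ≤ C') {ι : Finset ℕ} {K : ℕ → ℝ}
    {c : ℕ → ℕ → ℝ → ℂ} (hp : Pk Q C T G ι K c) : Pk Q C' T G ι K c := by
  obtain ⟨h1, h2, h3, h4, h5⟩ := hp
  refine ⟨fun i hi => ⟨(h1 i hi).1, (h1 i hi).2.trans ?_⟩, fun i hi n t ht => (h2 i hi n t ht).trans ?_, h3,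
    fun i hi n t ht t' ht' => (h4 i hi n t ht t' ht').trans ?_,
    fun i hi => hQ _ _ _ _ _ h (h5 i hi)⟩
  · exact div_le_div_of_nonneg_right (mul_le_mul_of_nonneg_right h hT.le) (sq_nonneg _)
  · exact mul_le_mul_of_nonneg_right h (by positivity)
  · refine div_le_div_of_nonneg_right ?_ hT.le
    exact mul_le_mul_of_nonneg_right (mul_le_mul_of_nonneg_right h (by positivity)) (abs_nonneg _)

private theorem combine (Q : ℝ → ℝ → ℝ → (ℕ → ℝ → ℂ) → Prop) (C T G : ℝ) (m : ℕ) (ι : ℕ → Finset ℕ) (K : ℕ → ℕ → ℝ) (c : ℕ → ℕ → ℕ → ℝ → ℂ)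
    (h : ∀ p ∈ range m, Pk Q C T G (ι p) (K p) (c p)) :
    ∃ (ι' : Finset ℕ) (K' : ℕ → ℝ) (c' : ℕ → ℕ → ℝ → ℂ), Pk Q C T G ι' K' c' ∧
      ι'.card ≤ ∑ p ∈ range m, (ι p).card ∧
      ∀ t, ∑ p ∈ range m, Sm T (ι p) (K p) (c p) t = Sm T ι' K' c' t := by
  classical
  refine ⟨(range m).biUnion fun p => (ι p).image (Nat.pair p), fun n => K n.unpair.1 n.unpair.2,
    fun n => c n.unpair.1 n.unpair.2, ?_, ?_, ?_⟩
  · have key : ∀ i ∈ (range m).biUnion fun p => (ι p).image (Nat.pair p),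
        i.unpair.1 ∈ range m ∧ i.unpair.2 ∈ ι i.unpair.1 := by
      intro i hi
      rw [Finset.mem_biUnion] at hi
      obtain ⟨p, hp, hi⟩ := hi
      rw [Finset.mem_image] at hi
      obtain ⟨a, ha, rfl⟩ := hi
      rw [Nat.unpair_pair]
      exact ⟨hp, ha⟩
    refine ⟨fun i hi => ?_, fun i hi => ?_, fun i hi => ?_, fun i hi => ?_, fun i hi => ?_⟩
    · obtain ⟨k1, k2⟩ := key i hi
      exact (h _ k1).1 _ k2
    · obtain ⟨k1, k2⟩ := key i hi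
      exact (h _ k1).2.1 _ k2
    · obtain ⟨k1, k2⟩ := key i hi
      exact (h _ k1).2.2.1 _ k2
    · obtain ⟨k1, k2⟩ := key i hi
      exact (h _ k1).2.2.2.1 _ k2
    · obtain ⟨k1, k2⟩ := key i hi
      exact (h _ k1).2.2.2.2 _ k2
  · refine Finset.card_biUnion_le.trans (Finset.sum_le_sum fun p _ => Finset.card_image_le)
  · intro t
    unfold Sm
    rw [Finset.sum_biUnion]
    · refine Finset.sum_congr rfl fun p _ => ?_
      rw [Finset.sum_image]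
      · refine Finset.sum_congr rfl fun i _ => ?_
        simp only [Nat.unpair_pair]
      · intro a _ b _ hab
        exact (Nat.pair_eq_pair.mp hab).2
    · intro p _ q _ hpq
      rw [Function.onFun, Finset.disjoint_left]
      intro x hx hx'
      rw [Finset.mem_image] at hx hx'
      obtain ⟨a, _, rfl⟩ := hx
      obtain ⟨b, _, hb⟩ := hx'
      exact hpq (Nat.pair_eq_pair.mp hb).1.symm

private noncomputable def omp (p : ℕ) : ℝ → ℝ := if p % 2 = 0 then omg else omgl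

private theorem sum_omp (f : (ℝ → ℝ) → ℕ → ℝ) (L : ℕ) :
    ∑ p ∈ range (2 * L), f (omp p) (p / 2) = ∑ j ∈ range L, (f omg j + f omgl j) := by
  induction L with
  | zero => simp
  | succ L ih =>
    rw [show 2 * (L + 1) = 2 * L + 1 + 1 by ring, Finset.sum_range_succ, Finset.sum_range_succ, ih,
      Finset.sum_range_succ]
    have h1 : omp (2 * L) = omg := by unfold omp; rw [if_pos (by omega)]
    have h2 : omp (2 * L + 1) = omgl := by unfold omp; rw [if_neg (by omega)]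
    have h3 : 2 * L / 2 = L := by omega
    have h4 : (2 * L + 1) / 2 = L := by omega
    rw [h1, h2, h3, h4]
    ring

/-- `ZSB_main` and `ZSA_mean` for both bumps -/
private theorem both (Q : ℝ → ℝ → ℝ → (ℕ → ℝ → ℂ) → Prop)
    (hQ : ∀ C C' T K c, C ≤ C' → Q C T K c → Q C' T K c) (hB : ZSBprop Q) (w W : ℝ → ℝ) (hW : Wt w W) : ∃ C T0 : ℝ, 1 ≤ C ∧ 3 ≤ T0 ∧ ∀ T : ℝ, T0 ≤ T → ∀ G : ℝ,
    T ^ (1 / 5 : ℝ) ≤ G → G ≤ T ^ (1 / 2 : ℝ) → ∀ X : ℝ, 1 ≤ X → X ≤ 2 * T → ∀ p : ℕ,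
    ∃ (ι : Finset ℕ) (K : ℕ → ℝ) (c : ℕ → ℕ → ℝ → ℂ),
      (ι.card : ℝ) ≤ C * Real.log T ∧ Pk Q C T G ι K c ∧
      ∀ t ∈ Set.Icc T (2 * T), ZMn (omp p) w G X t ≤ C * G + C * G * Sm T ι K c t := by
  have one : ∀ ω : ℝ → ℝ, Bump ω → ∃ C T0 : ℝ, 1 ≤ C ∧ 3 ≤ T0 ∧ ∀ T : ℝ, T0 ≤ T → ∀ G : ℝ,
      T ^ (1 / 5 : ℝ) ≤ G → G ≤ T ^ (1 / 2 : ℝ) → ∀ X : ℝ, 1 ≤ X → X ≤ 2 * T →
      ∃ (ι : Finset ℕ) (K : ℕ → ℝ) (c : ℕ → ℕ → ℝ → ℂ),
        (ι.card : ℝ) ≤ C * Real.log T ∧ Pk Q C T G ι K c ∧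
        ∀ t ∈ Set.Icc T (2 * T), ZMn ω w G X t ≤ C * G + C * G * Sm T ι K c t := by
    intro ω hω
    obtain ⟨C1, T1, hC1, hT1, h1⟩ := hB ω W hω hW.bump 2 (by norm_num)
    obtain ⟨C2, hC2, h2⟩ := ZSA_mean ω w W hω hW
    refine ⟨2 * C1 + C2, T1, by linarith, hT1, fun T hT G hG1 hG2 X hX1 hX2 => ?_⟩
    obtain ⟨ι, K, c, p1, p2, p3, p4, p5, p7, p6⟩ := h1 T hT G hG1 hG2 X hX1 hX2
    have hT0 : 0 < T := by linarith
    have hlog : 0 ≤ Real.log T := Real.log_nonneg (by linarith)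
    have hG0 : 1 ≤ G := by
      refine le_trans ?_ hG1
      exact Real.one_le_rpow (by linarith) (by norm_num)
    refine ⟨ι, K, c, p1.trans (mul_le_mul_of_nonneg_right (by linarith) hlog), Pk_mono hQ hT0 (by linarith) ⟨p2, p3, p4, p5, p7⟩, ?_⟩
    intro t ht
    have h3 := h2 G X t hG0 hX1
    have h4 := p6 t ht
    have hS : 0 ≤ Sm T ι K c t := Finset.sum_nonneg fun i hi => by
      have := (p2 i hi).1
      positivity
    have h4' : X⁻¹ * ‖∑ h ∈ Finset.Icc 1 ⌊2 * X⌋₊, ZF ω W G X t h‖ ≤ C1 * (1 + Sm T ι K c t) := h4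
    calc ZMn ω w G X t ≤ C2 * G + 2 * G * (X⁻¹ * ‖∑ h ∈ Finset.Icc 1 ⌊2 * X⌋₊, ZF ω W G X t h‖) := h3
      _ ≤ C2 * G + 2 * G * (C1 * (1 + Sm T ι K c t)) := by
          have : 0 ≤ 2 * G := by linarith
          nlinarith [mul_le_mul_of_nonneg_left h4' this]
      _ ≤ (2 * C1 + C2) * G + (2 * C1 + C2) * G * Sm T ι K c t := by
          have h5 : 0 ≤ C2 * G * Sm T ι K c t := by positivity
          nlinarith
  obtain ⟨C1, T1, hC1, hT1, h1⟩ := one omg bump_omg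
  obtain ⟨C2, T2, hC2, hT2, h2⟩ := one omgl bump_omgl
  refine ⟨C1 + C2, max T1 T2, by linarith, le_trans hT1 (le_max_left _ _), fun T hT G hG1 hG2 X hX1 hX2 p => ?_⟩
  have hTa : T1 ≤ T := (le_max_left _ _).trans hT
  have hTb : T2 ≤ T := (le_max_right _ _).trans hT
  have hT0 : 0 < T := by linarith
  have hlog : 0 ≤ Real.log T := Real.log_nonneg (by linarith)
  have hG0 : 1 ≤ G := le_trans (Real.one_le_rpow (by linarith) (by norm_num)) hG1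
  by_cases hp : p % 2 = 0
  · obtain ⟨ι, K, c, p1, p2, p3⟩ := h1 T hTa G hG1 hG2 X hX1 hX2
    refine ⟨ι, K, c, p1.trans (mul_le_mul_of_nonneg_right (by linarith) hlog), Pk_mono hQ hT0 (by linarith) p2, ?_⟩
    intro t ht
    have hS : 0 ≤ Sm T ι K c t := Finset.sum_nonneg fun i hi => by
      have := (p2.1 i hi).1
      positivity
    have h3 := p3 t ht
    unfold omp
    rw [if_pos hp]
    have h5 : 0 ≤ C2 * G * Sm T ι K c t := by positivity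
    nlinarith
  · obtain ⟨ι, K, c, p1, p2, p3⟩ := h2 T hTb G hG1 hG2 X hX1 hX2
    refine ⟨ι, K, c, p1.trans (mul_le_mul_of_nonneg_right (by linarith) hlog), Pk_mono hQ hT0 (by linarith) p2, ?_⟩
    intro t ht
    have hS : 0 ≤ Sm T ι K c t := Finset.sum_nonneg fun i hi => by
      have := (p2.1 i hi).1
      positivity
    have h3 := p3 t ht
    unfold omp
    rw [if_neg hp]
    have h5 : 0 ≤ C1 * G * Sm T ι K c t := by positivity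
    nlinarith

open scoped Classical in
theorem zeta_to_S_Q (Q : ℝ → ℝ → ℝ → (ℕ → ℝ → ℂ) → Prop)
    (hQ : ∀ C C' T K c, C ≤ C' → Q C T K c → Q C' T K c) (hB : ZSBprop Q) : ∃ C T0 : ℝ, 1 ≤ C ∧ 3 ≤ T0 ∧ ∀ T : ℝ, T0 ≤ T → ∀ G : ℝ,
    T ^ (1 / 5 : ℝ) ≤ G → G ≤ T ^ (1 / 2 : ℝ) →
    ∃ (ι : Finset ℕ) (K : ℕ → ℝ) (c : ℕ → ℕ → ℝ → ℂ),
      (ι.card : ℝ) ≤ C * (Real.log T) ^ 2 ∧
      (∀ i ∈ ι, 0 < K i ∧ K i ≤ C * T / G ^ 2) ∧
      (∀ i ∈ ι, ∀ n : ℕ, ∀ t ∈ Set.Icc T (2 * T), ‖c i n t‖ ≤ C * n.divisors.card) ∧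
      (∀ i ∈ ι, ∀ n : ℕ, ∀ t ∈ Set.Icc T (2 * T), c i n t ≠ 0 → K i / 2000 ≤ n ∧ (n : ℝ) ≤ K i) ∧
      (∀ i ∈ ι, ∀ n : ℕ, ∀ t ∈ Set.Icc T (2 * T), ∀ t' ∈ Set.Icc T (2 * T),
        ‖c i n t - c i n t'‖ ≤ C * n.divisors.card * |t - t'| / T) ∧
      (∀ i ∈ ι, Q C T (K i) (c i)) ∧
      ∀ V : ℝ, 1 ≤ V → ∀ t ∈ Set.Icc T (2 * T),
        V ^ 2 * (((Finset.Icc ⌈t - G / 2⌉ ⌊t + G / 2⌋).filter fun r : ℤ =>
          ∃ v ∈ Set.Icc (-1 / 2 : ℝ) (1 / 2),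
            V ≤ ‖riemannZeta (1 / 2 + ((r + v : ℝ) : ℂ) * Complex.I)‖).card : ℝ) ≤
        C * (Real.log T) ^ 3 * (G + G * ∑ i ∈ ι, (T * K i) ^ (-1 / 4 : ℝ) *
          ‖∑ n ∈ Finset.Icc 1 ⌊K i⌋₊, c i n t * ee (-zph n t)‖) := by
  obtain ⟨w, W, hW⟩ := ZSA_weight
  obtain ⟨C1, T1, hC1, hT1, h1⟩ := both Q hQ hB w W hW
  obtain ⟨C2, T2, hC2, hT2, h2⟩ := ZSA_count w W hW
  refine ⟨8 * C1 + C2 * (1 + 9 * C1), max (max T1 T2) 16, by nlinarith, by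
    exact le_trans hT1 ((le_max_left _ _).trans (le_max_left _ _)), fun T hT G hG1 hG2 => ?_⟩
  have hTa : T1 ≤ T := ((le_max_left _ _).trans (le_max_left _ _)).trans hT
  have hTb : T2 ≤ T := ((le_max_right _ _).trans (le_max_left _ _)).trans hT
  have hT16 : 16 ≤ T := (le_max_right _ _).trans hT
  have hT0 : 0 < T := by linarith
  have hlog1 : 1 ≤ Real.log T := by
    rw [Real.le_log_iff_exp_le hT0]
    have := Real.exp_one_lt_d9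
    linarith
  have hG0 : 1 ≤ G := le_trans (Real.one_le_rpow (by linarith) (by norm_num)) hG1
  have hG4 : G ≤ T / 4 := by
    refine hG2.trans ?_
    rw [← Real.sqrt_eq_rpow, Real.sqrt_le_left (by linarith)]
    nlinarith
  set L := Nat.log 2 ⌊2 * T⌋₊ + 1 with hL
  have hLlog : (L : ℝ) ≤ 4 * Real.log T := by
    have h3 : ((Nat.log 2 ⌊2 * T⌋₊ : ℕ) : ℝ) * Real.log 2 ≤ Real.log (2 * T) := by
      have h4 : ((2 : ℝ) ^ (Nat.log 2 ⌊2 * T⌋₊)) ≤ 2 * T := by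
        have h5 : 2 ^ (Nat.log 2 ⌊2 * T⌋₊) ≤ ⌊2 * T⌋₊ := by
          refine Nat.pow_log_le_self 2 ?_
          have : 1 ≤ ⌊2 * T⌋₊ := Nat.le_floor (by push_cast; linarith)
          omega
        have h6 : ((2 : ℝ) ^ (Nat.log 2 ⌊2 * T⌋₊)) ≤ (⌊2 * T⌋₊ : ℝ) := by exact_mod_cast h5
        exact h6.trans (Nat.floor_le (by linarith))
      have h5 := Real.log_le_log (by positivity) h4
      rwa [Real.log_pow] at h5
    have h6 : Real.log (2 * T) ≤ 2 * Real.log T := by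
      rw [Real.log_mul (by norm_num) hT0.ne']
      have := Real.log_le_log (by norm_num : (0:ℝ) < 2) (by linarith : (2 : ℝ) ≤ T)
      linarith
    have h7 : (0.69 : ℝ) < Real.log 2 := by linarith [Real.log_two_gt_d9]
    rw [hL]
    push_cast
    have h8 : (0 : ℝ) ≤ (Nat.log 2 ⌊2 * T⌋₊ : ℕ) := by positivity
    nlinarith
  have hpX : ∀ p ∈ range (2 * L), (1 : ℝ) ≤ 2 ^ (p / 2) ∧ (2 : ℝ) ^ (p / 2) ≤ 2 * T := by
    intro p hp
    rw [Finset.mem_range, hL] at hp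
    refine ⟨one_le_pow₀ (by norm_num), ?_⟩
    have h5 : 2 ^ (p / 2) ≤ ⌊2 * T⌋₊ := by
      refine (Nat.pow_le_pow_right (by norm_num) (show p / 2 ≤ Nat.log 2 ⌊2 * T⌋₊ by omega)).trans
        (Nat.pow_log_le_self 2 ?_)
      have : 1 ≤ ⌊2 * T⌋₊ := Nat.le_floor (by push_cast; linarith)
      omega
    have h6 : ((2 : ℝ) ^ (p / 2)) ≤ (⌊2 * T⌋₊ : ℝ) := by exact_mod_cast h5
    exact h6.trans (Nat.floor_le (by linarith))
  have hex : ∀ p : ℕ, ∃ (ι : Finset ℕ) (K : ℕ → ℝ) (c : ℕ → ℕ → ℝ → ℂ), p ∈ range (2 * L) →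
      ((ι.card : ℝ) ≤ C1 * Real.log T ∧ Pk Q C1 T G ι K c ∧
      ∀ t ∈ Set.Icc T (2 * T), ZMn (omp p) w G (2 ^ (p / 2)) t ≤ C1 * G + C1 * G * Sm T ι K c t) := by
    intro p
    by_cases hp : p ∈ range (2 * L)
    · obtain ⟨ι, K, c, p1⟩ := h1 T hTa G hG1 hG2 (2 ^ (p / 2)) (hpX p hp).1 (hpX p hp).2 p
      exact ⟨ι, K, c, fun _ => p1⟩
    · exact ⟨∅, fun _ => 0, fun _ _ _ => 0, fun h => absurd h hp⟩
  choose ι K c hι using hex
  obtain ⟨ι', K', c', q1, q2, q3⟩ := combine Q C1 T G (2 * L) ι K c (fun p hp => (hι p hp).2.1)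
  have q1' : Pk Q (8 * C1 + C2 * (1 + 9 * C1)) T G ι' K' c' := Pk_mono hQ hT0 (by nlinarith) q1
  refine ⟨ι', K', c', ?_, q1'.1, q1'.2.1, q1'.2.2.1, q1'.2.2.2.1, q1'.2.2.2.2, ?_⟩
  · calc (ι'.card : ℝ) ≤ ((∑ p ∈ range (2 * L), (ι p).card : ℕ) : ℝ) := by exact_mod_cast q2
      _ = ∑ p ∈ range (2 * L), ((ι p).card : ℝ) := by push_cast; rfl
      _ ≤ ∑ p ∈ range (2 * L), C1 * Real.log T := Finset.sum_le_sum fun p hp => (hι p hp).1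
      _ = 2 * L * (C1 * Real.log T) := by rw [Finset.sum_const, Finset.card_range, nsmul_eq_mul]; push_cast; ring
      _ ≤ 2 * (4 * Real.log T) * (C1 * Real.log T) := by
          refine mul_le_mul_of_nonneg_right ?_ (by positivity)
          linarith
      _ = 8 * C1 * (Real.log T) ^ 2 := by ring
      _ ≤ (8 * C1 + C2 * (1 + 9 * C1)) * (Real.log T) ^ 2 := by
          refine mul_le_mul_of_nonneg_right ?_ (by positivity)
          nlinarith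
  · intro V hV t ht
    have h3 := h2 T hTb G hG0 hG4 V hV t ht
    have h4 : ∑ j ∈ range L, (ZMn omg w G (2 ^ j) t + ZMn omgl w G (2 ^ j) t) ≤
        8 * Real.log T * (C1 * G) + C1 * G * Sm T ι' K' c' t := by
      calc ∑ j ∈ range L, (ZMn omg w G (2 ^ j) t + ZMn omgl w G (2 ^ j) t)
          = ∑ p ∈ range (2 * L), ZMn (omp p) w G (2 ^ (p / 2)) t :=
            (sum_omp (fun ω j => ZMn ω w G (2 ^ j) t) L).symm
        _ ≤ ∑ p ∈ range (2 * L), (C1 * G + C1 * G * Sm T (ι p) (K p) (c p) t) :=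
            Finset.sum_le_sum fun p hp => (hι p hp).2.2 t ht
        _ = 2 * L * (C1 * G) + C1 * G * Sm T ι' K' c' t := by
            rw [Finset.sum_add_distrib, Finset.sum_const, Finset.card_range, nsmul_eq_mul, ← Finset.mul_sum, q3]
            push_cast; ring
        _ ≤ _ := by
            have h5 : 0 ≤ C1 * G := by positivity
            nlinarith
    have hS : 0 ≤ Sm T ι' K' c' t := Finset.sum_nonneg fun i hi => by
      have := (q1.1 i hi).1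
      positivity
    have hgoal : C2 * (Real.log T) ^ 2 * (G + ∑ j ∈ range L, (ZMn omg w G (2 ^ j) t + ZMn omgl w G (2 ^ j) t)) ≤
        (8 * C1 + C2 * (1 + 9 * C1)) * (Real.log T) ^ 3 * (G + G * Sm T ι' K' c' t) := by
      set S := Sm T ι' K' c' t with hSdef
      set l := Real.log T with hl
      calc C2 * l ^ 2 * (G + ∑ j ∈ range L, (ZMn omg w G (2 ^ j) t + ZMn omgl w G (2 ^ j) t))
          ≤ C2 * l ^ 2 * (G + (8 * l * (C1 * G) + C1 * G * S)) := by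
            refine mul_le_mul_of_nonneg_left (by linarith) (by positivity)
        _ ≤ C2 * l ^ 2 * (l * (1 + 9 * C1) * (G + G * S)) := by
            refine mul_le_mul_of_nonneg_left ?_ (by positivity)
            have e1 : G ≤ l * G := by nlinarith
            have e2 : C1 * G * S ≤ l * (C1 * G * S) := by
              have : 0 ≤ C1 * G * S := by positivity
              nlinarith
            have e3 : 0 ≤ l * (G * S) := by positivity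
            have e4 : 0 ≤ l * (C1 * G) := by positivity
            have e5 : 0 ≤ l * (C1 * (G * S)) := by positivity
            nlinarith
        _ = (C2 * (1 + 9 * C1)) * l ^ 3 * (G + G * S) := by ring
        _ ≤ (8 * C1 + C2 * (1 + 9 * C1)) * l ^ 3 * (G + G * S) := by
            refine mul_le_mul_of_nonneg_right (mul_le_mul_of_nonneg_right (by linarith) (by positivity)) (by positivity)
    exact h3.trans hgoal

end Pool.Agent.LibSX15
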