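import Pool.Agent.LibSX15.ZB10
import Pool.Agent.LibSX15.KN_gauss

/-!
Row ZX1. The coefficient `cf` is Lipschitz in `Z` (compare row ZB10, `cf_lip`: the same proof in the variable `τ`).

PLAN. If both values vanish there is nothing to do; by symmetry let `cf … Z ≠ 0`, so `ατ/7 ≤ Z ≤ 5ατ` (`cf_supp`).
(a) `Z' < ατ/14` or `Z' > 10ατ`: `cf … Z' = 0` (`cf_supp`), `|Z - Z'| ≥ ατ/14`, `cf_size` for `Z`.
(b) `ατ/14 ≤ Z' ≤ 10ατ`: `cf = sp Z * ampA (et α τ Z) α (G α) (α⁴ Z)`. `‖sp Z‖ = (2Z)^(-1/2)` (`norm_sp`), `sp Z' = sp ((Z'/Z) Z) = 1/√(Z'/Z) * sp Z` (`sp_mul`), so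
`‖sp Z - sp Z'‖ ≤ C (ατ)^(-1/2) |Z-Z'|/(ατ)`. `et² = Z/(α(τ+αZ/12))`, both values of `et` lie in `[1/10, 10]` and `|et - et'| ≤ C |Z-Z'|/(ατ)` (`|√a-√b| ≤ |a-b|/√a`);
`|γ - γ'| = α⁴|Z-Z'| = α⁵τ |Z-Z'|/(ατ) ≤ 10⁵ |Z-Z'|/(ατ)`. `joint_lip` for `ampA` on `[1/10,10]×[0,1/100]×[0,7]×[0,10⁷]` (`ampA_smooth`; the norm on the product is the maximum).
-/

set_option autoImplicit false

namespace Pool.Agent.LibSX15

private theorem ZX1_R {s : ℝ} (hs : 0 < s) : s ^ (-1 / 2 : ℝ) = 1 / Real.sqrt s := by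
  rw [show (-1 / 2 : ℝ) = -(1 / 2) by norm_num, Real.rpow_neg hs.le, ← Real.sqrt_eq_rpow, one_div]

/-- the size of `sp` -/
private theorem ZX1_sp {s Z : ℝ} (hs : 0 < s) (hZ : s / 14 ≤ Z) :
    ‖sp Z‖ ≤ 3 * s ^ (-1 / 2 : ℝ) := by
  have hZ0 : 0 < Z := by linarith
  rw [norm_sp, abs_of_pos hZ0, ZX1_R hs, mul_one_div, div_le_div_iff₀
    (Real.sqrt_pos.2 (by linarith)) (Real.sqrt_pos.2 hs), one_mul]
  have h1 : Real.sqrt s ≤ Real.sqrt (9 * (2 * Z)) := Real.sqrt_le_sqrt (by linarith)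
  rw [Real.sqrt_mul (by norm_num), show (9 : ℝ) = 3 ^ 2 by norm_num,
    Real.sqrt_sq (by norm_num)] at h1
  exact h1

private theorem ZX1_sp_lip {s Z Z' : ℝ} (hs : 0 < s) (hZ : s / 14 ≤ Z) (hZ' : s / 14 ≤ Z') :
    ‖sp Z - sp Z'‖ ≤ 42 * s ^ (-1 / 2 : ℝ) * (|Z - Z'| / s) := by
  have hZ0 : 0 < Z := by linarith
  have hZ0' : 0 < Z' := by linarith
  set u := Z' / Z with hu
  have hu0 : 0 < u := div_pos hZ0' hZ0
  have e1 : Z' = u * Z := by rw [hu, div_mul_cancel₀ _ hZ0.ne']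
  have h1 : sp Z' = ((1 / Real.sqrt u : ℝ) : ℂ) * sp Z := by
    conv_lhs => rw [e1]
    exact sp_mul u Z hu0
  have h2 : sp Z - sp Z' = ((1 - 1 / Real.sqrt u : ℝ) : ℂ) * sp Z := by
    rw [h1]
    push_cast
    ring
  have hsq : 0 < Real.sqrt u := Real.sqrt_pos.2 hu0
  have h3 : |1 - 1 / Real.sqrt u| ≤ 14 * (|Z - Z'| / s) := by
    have e2 : 1 - 1 / Real.sqrt u = (Real.sqrt u - 1) / Real.sqrt u := by
      field_simp
    rw [e2, abs_div, abs_of_pos hsq]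
    have h4 : |Real.sqrt u - 1| ≤ |u - 1| := by
      have e3 : u - 1 = (Real.sqrt u - 1) * (Real.sqrt u + 1) := by
        have := Real.mul_self_sqrt hu0.le
        linear_combination -this
      rw [e3, abs_mul]
      have h5 : 1 ≤ |Real.sqrt u + 1| := by
        rw [abs_of_pos (by linarith)]
        linarith
      exact le_mul_of_one_le_right (abs_nonneg _) h5
    have e4 : u - 1 = (Z' - Z) / Z := by
      rw [hu]
      field_simp
    have h6 : |u - 1| = |Z - Z'| / Z := by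
      rw [e4, abs_div, abs_of_pos hZ0, abs_sub_comm]
    have h7 : s / 14 ≤ Z * Real.sqrt u := by
      have h8 : (s / 14) ^ 2 ≤ (Z * Real.sqrt u) ^ 2 := by
        rw [mul_pow, Real.sq_sqrt hu0.le, hu]
        have e5 : Z ^ 2 * (Z' / Z) = Z * Z' := by field_simp
        rw [e5, sq]
        exact mul_le_mul hZ hZ' (by positivity) hZ0.le
      exact (abs_le_of_sq_le_sq' h8 (by positivity)).2
    calc |Real.sqrt u - 1| / Real.sqrt u ≤ |u - 1| / Real.sqrt u := by gcongr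
      _ = |Z - Z'| / (Z * Real.sqrt u) := by rw [h6, div_div]
      _ ≤ |Z - Z'| / (s / 14) := by gcongr
      _ = 14 * (|Z - Z'| / s) := by field_simp
  rw [h2, norm_mul, Complex.norm_real, Real.norm_eq_abs]
  calc |1 - 1 / Real.sqrt u| * ‖sp Z‖ ≤ (14 * (|Z - Z'| / s)) * (3 * s ^ (-1 / 2 : ℝ)) :=
        mul_le_mul h3 (ZX1_sp hs hZ) (norm_nonneg _) (by positivity)
    _ = 42 * s ^ (-1 / 2 : ℝ) * (|Z - Z'| / s) := by ring

private theorem ZX1_E {α τ Z Z' : ℝ} (hα : 0 < α) (hα2 : α ≤ 1 / 100) (hτ : 0 < τ)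
    (hZ : α * τ / 14 ≤ Z) (hZ1 : Z ≤ 10 * (α * τ)) (hZ' : α * τ / 14 ≤ Z')
    (hZ1' : Z' ≤ 10 * (α * τ)) :
    1 / 10 ≤ et α τ Z ∧ et α τ Z ≤ 10 ∧ |et α τ Z - et α τ Z'| ≤ 5 * (|Z - Z'| / (α * τ)) := by
  have hs : 0 < α * τ := mul_pos hα hτ
  have key : ∀ z : ℝ, α * τ / 14 ≤ z → z ≤ 10 * (α * τ) →
      α * τ ≤ α * (τ + α * z / 12) ∧ α * (τ + α * z / 12) ≤ 2 * (α * τ) := by
    intro z h1 h2
    have hz : 0 < z := by linarith
    constructor
    · have : 0 ≤ α * (α * z / 12) := by positivity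
      nlinarith
    · have h3 : α * α * z ≤ 1 / 100 * (1 / 100) * (10 * (α * τ)) := by
        have h4 : α * α ≤ 1 / 100 * (1 / 100) := mul_le_mul hα2 hα2 hα.le (by norm_num)
        exact mul_le_mul h4 h2 hz.le (by norm_num)
      nlinarith
  have lower : ∀ z : ℝ, α * τ / 14 ≤ z → z ≤ 10 * (α * τ) → 1 / 10 ≤ et α τ z := by
    intro z h1 h2
    obtain ⟨h3, h4⟩ := key z h1 h2
    unfold et
    apply Real.le_sqrt_of_sq_le
    rw [le_div_iff₀ (by linarith)]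
    nlinarith
  have upper : ∀ z : ℝ, α * τ / 14 ≤ z → z ≤ 10 * (α * τ) → et α τ z ≤ 10 := by
    intro z h1 h2
    obtain ⟨h3, h4⟩ := key z h1 h2
    unfold et
    rw [Real.sqrt_le_left (by norm_num), div_le_iff₀ (by linarith)]
    nlinarith
  refine ⟨lower Z hZ hZ1, upper Z hZ hZ1, ?_⟩
  obtain ⟨a1, a2⟩ := key Z hZ hZ1
  obtain ⟨b1, b2⟩ := key Z' hZ' hZ1'
  have l1 := lower Z hZ hZ1
  have l2 := lower Z' hZ' hZ1'
  have hZ0 : 0 < Z := by linarith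
  have hZ0' : 0 < Z' := by linarith
  set D := α * (τ + α * Z / 12) with hD
  set D' := α * (τ + α * Z' / 12) with hD'
  have hD0 : 0 < D := by linarith
  have hD0' : 0 < D' := by linarith
  have e1 : (et α τ Z - et α τ Z') * (et α τ Z + et α τ Z') = α * τ * (Z - Z') / (D * D') := by
    have f1 : et α τ Z * et α τ Z = Z / D := by
      unfold et
      exact Real.mul_self_sqrt (by positivity)
    have f2 : et α τ Z' * et α τ Z' = Z' / D' := by
      unfold et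
      exact Real.mul_self_sqrt (by positivity)
    have f3 : Z / D - Z' / D' = α * τ * (Z - Z') / (D * D') := by
      rw [div_sub_div _ _ hD0.ne' hD0'.ne']
      congr 1
      rw [hD, hD']
      ring
    rw [← f3, ← f1, ← f2]
    ring
  have h5 : |et α τ Z - et α τ Z'| * (1 / 5) ≤ |Z - Z'| / (α * τ) := by
    calc |et α τ Z - et α τ Z'| * (1 / 5) ≤
          |et α τ Z - et α τ Z'| * (et α τ Z + et α τ Z') := by
          apply mul_le_mul_of_nonneg_left _ (abs_nonneg _)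
          linarith
      _ = |α * τ * (Z - Z') / (D * D')| := by
          rw [← e1, abs_mul, abs_of_nonneg (show (0 : ℝ) ≤ et α τ Z + et α τ Z' by linarith)]
      _ = α * τ * |Z - Z'| / (D * D') := by
          rw [abs_div, abs_mul, abs_of_pos hs, abs_of_pos (mul_pos hD0 hD0')]
      _ ≤ α * τ * |Z - Z'| / (α * τ * (α * τ)) := by gcongr
      _ = |Z - Z'| / (α * τ) := by
          field_simp
  linarith

theorem cf_lipZ (ω W : ℝ → ℝ) (hω : Bump ω) (hW : BumpW W) : ∃ C : ℝ, 1 ≤ C ∧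
    ∀ G α τ Z Z' : ℝ, 0 < α → α ≤ 1 / 100 → 0 ≤ G → G * α ≤ 7 → 0 < τ → α ^ 5 * τ ≤ 100000 → 0 < Z → 0 < Z' →
    ‖cf ω W G α τ Z - cf ω W G α τ Z'‖ ≤ C * (α * τ) ^ (-1 / 2 : ℝ) * (|Z - Z'| / (α * τ)) := by
  obtain ⟨C1, hC1, hsize⟩ := cf_size ω W hω hW
  set K : Set (ℝ × ℝ × ℝ × ℝ) := Set.Icc (1 / 10 : ℝ) 10 ×ˢ Set.Icc (0 : ℝ) (1 / 100) ×ˢ
    Set.Icc (0 : ℝ) 7 ×ˢ Set.Icc (0 : ℝ) (10 ^ 7) with hK
  have hKc : IsCompact K := isCompact_Icc.prod (isCompact_Icc.prod (isCompact_Icc.prod isCompact_Icc))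
  have hKv : Convex ℝ K := (convex_Icc _ _).prod ((convex_Icc _ _).prod
    ((convex_Icc _ _).prod (convex_Icc _ _)))
  have hopen : IsOpen {p : ℝ × ℝ × ℝ × ℝ | |p.2.1| < 1 / 50} :=
    isOpen_lt (by fun_prop) continuous_const
  have hKU : K ⊆ {p : ℝ × ℝ × ℝ × ℝ | |p.2.1| < 1 / 50} := by
    rintro ⟨x, a, b, c⟩ hp
    have h1 : a ∈ Set.Icc (0 : ℝ) (1 / 100) := hp.2.1
    show |a| < 1 / 50
    rw [abs_of_nonneg h1.1]
    have := h1.2
    linarith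
  obtain ⟨Gc, hGc, hb, hl⟩ := joint_lip _ _ hopen (ampA_smooth ω W hω hW) K hKc hKv hKU
  have one : ∀ G α τ Z Z' : ℝ, 0 < α → α ≤ 1 / 100 → 0 ≤ G → G * α ≤ 7 → 0 < τ →
      α ^ 5 * τ ≤ 100000 → 0 < Z → 0 < Z' → cf ω W G α τ Z ≠ 0 →
      ‖cf ω W G α τ Z - cf ω W G α τ Z'‖ ≤
        (14 * C1 + 1000000 * Gc) * (α * τ) ^ (-1 / 2 : ℝ) * (|Z - Z'| / (α * τ)) := by
    intro G α τ Z Z' hα hα2 hG hGα hτ hατ hZ hZ' hne
    have hs : 0 < α * τ := mul_pos hα hτ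
    set s := α * τ with hsdef
    have hR : 0 ≤ s ^ (-1 / 2 : ℝ) := Real.rpow_nonneg hs.le _
    set R := s ^ (-1 / 2 : ℝ) with hRdef
    have hδ : 0 ≤ |Z - Z'| / s := by positivity
    obtain ⟨z1, z2⟩ := cf_supp ω W hω G α τ Z hα hα2 hτ hZ hne
    by_cases hc : s / 14 ≤ Z' ∧ Z' ≤ 10 * s
    · obtain ⟨c1, c2⟩ := hc
      have z3 : s / 14 ≤ Z := by linarith
      have z4 : Z ≤ 10 * s := by linarith
      obtain ⟨p1, p2, p3⟩ := ZX1_E hα hα2 hτ z3 z4 c1 c2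
      obtain ⟨q1, q2, -⟩ := ZX1_E hα hα2 hτ c1 c2 z3 z4
      have hγ : ∀ z : ℝ, 0 < z → z ≤ 10 * s → α ^ 4 * z ∈ Set.Icc (0 : ℝ) (10 ^ 7) := by
        intro z h1 h2
        refine ⟨by positivity, ?_⟩
        calc α ^ 4 * z ≤ α ^ 4 * (10 * s) := by gcongr
          _ = 10 * (α ^ 5 * τ) := by rw [hsdef]; ring
          _ ≤ 10 * 100000 := by gcongr
          _ ≤ 10 ^ 7 := by norm_num
      have m1 : ((et α τ Z, α, G * α, α ^ 4 * Z) : ℝ × ℝ × ℝ × ℝ) ∈ K :=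
        ⟨⟨p1, p2⟩, ⟨hα.le, hα2⟩, ⟨by positivity, hGα⟩, hγ Z hZ z4⟩
      have m2 : ((et α τ Z', α, G * α, α ^ 4 * Z') : ℝ × ℝ × ℝ × ℝ) ∈ K :=
        ⟨⟨q1, q2⟩, ⟨hα.le, hα2⟩, ⟨by positivity, hGα⟩, hγ Z' hZ' c2⟩
      have n1 : ‖ampA ω W (et α τ Z) α (G * α) (α ^ 4 * Z)‖ ≤ Gc := hb _ m1
      have n2 : ‖ampA ω W (et α τ Z) α (G * α) (α ^ 4 * Z) -
          ampA ω W (et α τ Z') α (G * α) (α ^ 4 * Z')‖ ≤ Gc * (100000 * (|Z - Z'| / s)) := by
        refine (hl _ m1 _ m2).trans ?_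
        refine mul_le_mul_of_nonneg_left ?_ (by linarith)
        rw [Prod.mk_sub_mk, Prod.mk_sub_mk, Prod.mk_sub_mk, Prod.norm_mk, Prod.norm_mk,
          Prod.norm_mk, sub_self, sub_self, norm_zero]
        refine max_le ?_ (max_le (by positivity) (max_le (by positivity) ?_))
        · rw [Real.norm_eq_abs]
          refine p3.trans ?_
          rw [← hsdef]
          linarith
        · rw [Real.norm_eq_abs, ← mul_sub, abs_mul, abs_of_pos (by positivity)]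
          have e1 : α ^ 4 * |Z - Z'| = (α ^ 5 * τ) * (|Z - Z'| / s) := by
            rw [hsdef]
            field_simp
          rw [e1]
          gcongr
      have n3 : cf ω W G α τ Z - cf ω W G α τ Z' =
          (sp Z - sp Z') * ampA ω W (et α τ Z) α (G * α) (α ^ 4 * Z) +
          sp Z' * (ampA ω W (et α τ Z) α (G * α) (α ^ 4 * Z) -
            ampA ω W (et α τ Z') α (G * α) (α ^ 4 * Z')) := by
        unfold cf
        ring
      rw [n3]
      refine (norm_add_le _ _).trans ?_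
      rw [norm_mul, norm_mul]
      have n4 := mul_le_mul (ZX1_sp_lip hs z3 c1) n1 (norm_nonneg _) (by positivity)
      have n5 := mul_le_mul (ZX1_sp hs c1) n2 (norm_nonneg _) (by positivity)
      refine (add_le_add n4 n5).trans ?_
      rw [← hRdef]
      have e2 : (14 * C1 + 1000000 * Gc) * R * (|Z - Z'| / s) -
          (42 * R * (|Z - Z'| / s) * Gc + 3 * R * (Gc * (100000 * (|Z - Z'| / s)))) =
          (14 * C1 + 699958 * Gc) * (R * (|Z - Z'| / s)) := by ring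
      have e3 : 0 ≤ (14 * C1 + 699958 * Gc) * (R * (|Z - Z'| / s)) := by positivity
      linarith
    · have hz : cf ω W G α τ Z' = 0 := by
        by_contra h
        obtain ⟨y1, y2⟩ := cf_supp ω W hω G α τ Z' hα hα2 hτ hZ' h
        exact hc ⟨by linarith, by linarith⟩
      have hd : s / 14 ≤ |Z - Z'| := by
        by_contra hlt
        push Not at hlt
        rw [abs_lt] at hlt
        exact hc ⟨by linarith [hlt.1, hlt.2], by linarith [hlt.1, hlt.2]⟩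
      have hd' : 1 ≤ 14 * (|Z - Z'| / s) := by
        rw [mul_div_assoc', le_div_iff₀ hs]
        linarith
      rw [hz, sub_zero]
      have h1 := hsize G α τ Z hα hα2 hG hGα hτ hατ hZ
      rw [← hsdef, ← hRdef] at h1
      have h2 : C1 * R ≤ C1 * R * (14 * (|Z - Z'| / s)) :=
        le_mul_of_one_le_right (by positivity) hd'
      have h3 : 0 ≤ 1000000 * Gc * R * (|Z - Z'| / s) := by positivity
      calc ‖cf ω W G α τ Z‖ ≤ C1 * R := h1
        _ ≤ C1 * R * (14 * (|Z - Z'| / s)) := h2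
        _ ≤ C1 * R * (14 * (|Z - Z'| / s)) + 1000000 * Gc * R * (|Z - Z'| / s) := by linarith
        _ = (14 * C1 + 1000000 * Gc) * R * (|Z - Z'| / s) := by ring
  refine ⟨14 * C1 + 1000000 * Gc, by linarith, ?_⟩
  intro G α τ Z Z' hα hα2 hG hGα hτ hατ hZ hZ'
  by_cases h1 : cf ω W G α τ Z = 0
  · by_cases h2 : cf ω W G α τ Z' = 0
    · rw [h1, h2, sub_zero, norm_zero]
      have hs : 0 < α * τ := mul_pos hα hτ
      have hR : 0 ≤ (α * τ) ^ (-1 / 2 : ℝ) := Real.rpow_nonneg hs.le _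
      have : 0 ≤ 14 * C1 + 1000000 * Gc := by linarith
      positivity
    · rw [norm_sub_rev, abs_sub_comm]
      exact one G α τ Z' Z hα hα2 hG hGα hτ hατ hZ' hZ h2
  · exact one G α τ Z Z' hα hα2 hG hGα hτ hατ hZ hZ' h1

end Pool.Agent.LibSX15
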