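import Pool.Agent.LibSX15.ZB10
import Pool.Agent.LibSX15.KN_gauss

/-!
Row ZX2. The coefficient `cf` is Lipschitz in `α` (compare row ZB10, `cf_lip`: the same proof in the variable `τ`).

PLAN. If both values vanish there is nothing to do; by symmetry let `cf … α ≠ 0`, so `ατ/7 ≤ Z ≤ 5ατ` (`cf_supp`), hence `α0 τ/7 ≤ Z ≤ 10 α0 τ`.
`cf = sp Z * ampA (et α τ Z) α (G α) (α⁴ Z)`, the factor `sp Z` is the same, `‖sp Z‖ = (2Z)^(-1/2) ≤ C (α0τ)^(-1/2)` (`norm_sp`). `et² = Z/(α(τ+αZ/12))`, both values of `et` lie in `[1/10, 10]`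
and `|et - et'| ≤ C |α-α'|/α0` (`|√a-√b| ≤ |a-b|/√a`, `a = Z/(α(τ+αZ/12))`, `α, α' ∈ [α0, 2α0]`, `Z ≤ 10 α0 τ`); `|Gα - Gα'| ≤ 7|α-α'|/α0` (`G α0 ≤ 7`);
`|α⁴Z - α'⁴Z| ≤ 4 (2α0)³ Z |α-α'| ≤ 320 α0⁵τ |α-α'|/α0`. `joint_lip` for `ampA` on `[1/10,10]×[0,1/100]×[0,7]×[0,10⁸]` (`ampA_smooth`; the norm on the product is the maximum).
-/

set_option autoImplicit false

namespace Pool.Agent.LibSX15

/-- The radicand `Z / (β (τ + β Z / 12))`: bounds. -/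
private theorem ZX2_r (α0 β τ Z : ℝ) (h0 : 0 < α0) (h1 : α0 ≤ β) (h2 : β ≤ 2 * α0) (h3 : β ≤ 1 / 100)
    (hτ : 0 < τ) (hZ1 : α0 * τ / 7 ≤ Z) (hZ2 : Z ≤ 10 * (α0 * τ)) :
    α0 * τ ≤ β * (τ + β * Z / 12) ∧ 1 / 100 ≤ Z / (β * (τ + β * Z / 12)) ∧
      Z / (β * (τ + β * Z / 12)) ≤ 100 := by
  have hβ : 0 < β := lt_of_lt_of_le h0 h1
  have h0τ : 0 < α0 * τ := mul_pos h0 hτ
  have hZ : 0 < Z := lt_of_lt_of_le (by positivity) hZ1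
  have hβZ : 0 < β * Z := mul_pos hβ hZ
  have hlow : α0 * τ ≤ β * (τ + β * Z / 12) := by
    have e1 : α0 * τ ≤ β * τ := mul_le_mul_of_nonneg_right h1 hτ.le
    have e2 : 0 ≤ β * (β * Z / 12) := by positivity
    calc α0 * τ ≤ β * τ := e1
      _ ≤ β * τ + β * (β * Z / 12) := by linarith
      _ = β * (τ + β * Z / 12) := by ring
  have hden : 0 < β * (τ + β * Z / 12) := lt_of_lt_of_le h0τ hlow
  have hup : β * (τ + β * Z / 12) ≤ 3 * (α0 * τ) := by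
    have e1 : β * Z ≤ 1 / 100 * (10 * (α0 * τ)) :=
      mul_le_mul h3 hZ2 hZ.le (by norm_num)
    have e2 : α0 * τ ≤ 1 / 100 * τ := mul_le_mul_of_nonneg_right (h1.trans h3) hτ.le
    have e3 : τ + β * Z / 12 ≤ 3 / 2 * τ := by linarith
    calc β * (τ + β * Z / 12) ≤ (2 * α0) * (3 / 2 * τ) :=
          mul_le_mul h2 e3 (by positivity) (by positivity)
      _ = 3 * (α0 * τ) := by ring
  refine ⟨hlow, ?_, ?_⟩
  · rw [le_div_iff₀ hden]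
    linarith
  · rw [div_le_iff₀ hden]
    linarith

private theorem ZX2_rd (α0 α α' τ Z : ℝ) (h0 : 0 < α0) (h1 : α0 ≤ α) (h2 : α ≤ 2 * α0)
    (h1' : α0 ≤ α') (h2' : α' ≤ 2 * α0) (h3 : α ≤ 1 / 100) (h3' : α' ≤ 1 / 100)
    (hτ : 0 < τ) (hZ1 : α0 * τ / 7 ≤ Z) (hZ2 : Z ≤ 10 * (α0 * τ)) :
    |Z / (α * (τ + α * Z / 12)) - Z / (α' * (τ + α' * Z / 12))| ≤ 20 * (|α - α'| / α0) := by
  have h0τ : 0 < α0 * τ := mul_pos h0 hτ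
  have hZ : 0 < Z := lt_of_lt_of_le (by positivity) hZ1
  obtain ⟨l1, _, _⟩ := ZX2_r α0 α τ Z h0 h1 h2 h3 hτ hZ1 hZ2
  obtain ⟨l2, _, _⟩ := ZX2_r α0 α' τ Z h0 h1' h2' h3' hτ hZ1 hZ2
  set d := α * (τ + α * Z / 12) with hd
  set d' := α' * (τ + α' * Z / 12) with hd'
  have hd0 : 0 < d := lt_of_lt_of_le h0τ l1
  have hd0' : 0 < d' := lt_of_lt_of_le h0τ l2
  have e1 : Z / d - Z / d' = (α' - α) * (Z * (τ + (α + α') * Z / 12)) / (d * d') := by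
    rw [div_sub_div _ _ hd0.ne' hd0'.ne']
    congr 1
    rw [hd, hd']
    ring
  have e2 : Z * (τ + (α + α') * Z / 12) ≤ (10 * (α0 * τ)) * (2 * τ) := by
    refine mul_le_mul hZ2 ?_ ?_ (by positivity)
    · have f1 : (α + α') * Z ≤ 1 / 50 * (10 * (α0 * τ)) :=
        mul_le_mul (by linarith) hZ2 hZ.le (by norm_num)
      have f2 : α0 * τ ≤ 1 / 100 * τ := mul_le_mul_of_nonneg_right (h1.trans h3) hτ.le
      linarith
    · have f3 : 0 ≤ (α + α') * Z := mul_nonneg (by linarith) hZ.le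
      linarith
  have e2' : 0 ≤ Z * (τ + (α + α') * Z / 12) := by
    have f3 : 0 ≤ (α + α') * Z := mul_nonneg (by linarith) hZ.le
    exact mul_nonneg hZ.le (by linarith)
  have e3 : (α0 * τ) * (α0 * τ) ≤ d * d' := mul_le_mul l1 l2 h0τ.le hd0.le
  rw [e1, abs_div, abs_mul, abs_of_pos (mul_pos hd0 hd0'), abs_of_nonneg e2', abs_sub_comm α' α,
    div_le_iff₀ (mul_pos hd0 hd0')]
  calc |α - α'| * (Z * (τ + (α + α') * Z / 12)) ≤ |α - α'| * ((10 * (α0 * τ)) * (2 * τ)) :=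
        mul_le_mul_of_nonneg_left e2 (abs_nonneg _)
    _ = 20 * (|α - α'| / α0) * ((α0 * τ) * (α0 * τ)) := by
        field_simp
        ring
    _ ≤ 20 * (|α - α'| / α0) * (d * d') :=
        mul_le_mul_of_nonneg_left e3 (by positivity)

private theorem ZX2_et (α0 α α' τ Z : ℝ) (h0 : 0 < α0) (h1 : α0 ≤ α) (h2 : α ≤ 2 * α0)
    (h1' : α0 ≤ α') (h2' : α' ≤ 2 * α0) (h3 : α ≤ 1 / 100) (h3' : α' ≤ 1 / 100)
    (hτ : 0 < τ) (hZ1 : α0 * τ / 7 ≤ Z) (hZ2 : Z ≤ 10 * (α0 * τ)) :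
    |et α τ Z - et α' τ Z| ≤ 100 * (|α - α'| / α0) := by
  obtain ⟨_, b1, _⟩ := ZX2_r α0 α τ Z h0 h1 h2 h3 hτ hZ1 hZ2
  obtain ⟨_, b2, _⟩ := ZX2_r α0 α' τ Z h0 h1' h2' h3' hτ hZ1 hZ2
  have hd := ZX2_rd α0 α α' τ Z h0 h1 h2 h1' h2' h3 h3' hτ hZ1 hZ2
  unfold et
  set a := Z / (α * (τ + α * Z / 12)) with ha
  set b := Z / (α' * (τ + α' * Z / 12)) with hb
  have sa : (1 / 10 : ℝ) ≤ Real.sqrt a := by
    apply Real.le_sqrt_of_sq_le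
    norm_num at b1 ⊢
    exact b1
  have sb : (1 / 10 : ℝ) ≤ Real.sqrt b := by
    apply Real.le_sqrt_of_sq_le
    norm_num at b2 ⊢
    exact b2
  have e1 : a - b = (Real.sqrt a - Real.sqrt b) * (Real.sqrt a + Real.sqrt b) := by
    have f1 := Real.mul_self_sqrt (show (0 : ℝ) ≤ a by linarith)
    have f2 := Real.mul_self_sqrt (show (0 : ℝ) ≤ b by linarith)
    nlinarith
  have e2 : |a - b| = |Real.sqrt a - Real.sqrt b| * (Real.sqrt a + Real.sqrt b) := by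
    rw [e1, abs_mul, abs_of_pos (show 0 < Real.sqrt a + Real.sqrt b by linarith)]
  have e3 : |Real.sqrt a - Real.sqrt b| * (1 / 5) ≤ |a - b| := by
    rw [e2]
    exact mul_le_mul_of_nonneg_left (by linarith) (abs_nonneg _)
  linarith

private theorem ZX2_etr (α0 α τ Z : ℝ) (h0 : 0 < α0) (h1 : α0 ≤ α) (h2 : α ≤ 2 * α0)
    (h3 : α ≤ 1 / 100) (hτ : 0 < τ) (hZ1 : α0 * τ / 7 ≤ Z) (hZ2 : Z ≤ 10 * (α0 * τ)) :
    et α τ Z ∈ Set.Icc (1 / 10 : ℝ) 10 := by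
  obtain ⟨_, b1, b2⟩ := ZX2_r α0 α τ Z h0 h1 h2 h3 hτ hZ1 hZ2
  unfold et
  constructor
  · apply Real.le_sqrt_of_sq_le
    norm_num at b1 ⊢
    exact b1
  · rw [Real.sqrt_le_left (by norm_num)]
    norm_num at b2 ⊢
    exact b2

private theorem ZX2_p4 (α0 α α' τ Z : ℝ) (h0 : 0 < α0) (h1 : α0 ≤ α) (h2 : α ≤ 2 * α0)
    (h1' : α0 ≤ α') (h2' : α' ≤ 2 * α0) (hτ : 0 < τ) (h5 : α0 ^ 5 * τ ≤ 100000)
    (hZ0 : 0 < Z) (hZ2 : Z ≤ 10 * (α0 * τ)) :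
    |α ^ 4 * Z - α' ^ 4 * Z| ≤ 32000000 * (|α - α'| / α0) := by
  have hα : 0 < α := by linarith
  have hα' : 0 < α' := by linarith
  have e1 : α ^ 4 * Z - α' ^ 4 * Z = (α - α') * ((α + α') * (α ^ 2 + α' ^ 2) * Z) := by ring
  have e2 : (α + α') * (α ^ 2 + α' ^ 2) * Z ≤ (4 * α0) * (8 * α0 ^ 2) * (10 * (α0 * τ)) := by
    have f1 : α ^ 2 ≤ (2 * α0) ^ 2 := pow_le_pow_left₀ hα.le h2 2
    have f2 : α' ^ 2 ≤ (2 * α0) ^ 2 := pow_le_pow_left₀ hα'.le h2' 2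
    refine mul_le_mul (mul_le_mul (by linarith) (by nlinarith) (by positivity) (by positivity)) hZ2
      hZ0.le (by positivity)
  have e3 : 0 ≤ (α + α') * (α ^ 2 + α' ^ 2) * Z := by positivity
  rw [e1, abs_mul, abs_of_nonneg e3]
  calc |α - α'| * ((α + α') * (α ^ 2 + α' ^ 2) * Z) ≤
        |α - α'| * ((4 * α0) * (8 * α0 ^ 2) * (10 * (α0 * τ))) :=
        mul_le_mul_of_nonneg_left e2 (abs_nonneg _)
    _ = 320 * (α0 ^ 5 * τ) * (|α - α'| / α0) := by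
        field_simp
        ring
    _ ≤ 320 * 100000 * (|α - α'| / α0) :=
        mul_le_mul_of_nonneg_right (mul_le_mul_of_nonneg_left h5 (by norm_num)) (by positivity)
    _ = 32000000 * (|α - α'| / α0) := by norm_num

private theorem ZX2_p4r (α0 α τ Z : ℝ) (h0 : 0 < α0) (h1 : α0 ≤ α) (h2 : α ≤ 2 * α0)
    (hτ : 0 < τ) (h5 : α0 ^ 5 * τ ≤ 100000) (hZ0 : 0 < Z) (hZ2 : Z ≤ 10 * (α0 * τ)) :
    α ^ 4 * Z ∈ Set.Icc (0 : ℝ) 100000000 := by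
  have hα : 0 < α := by linarith
  refine ⟨by positivity, ?_⟩
  calc α ^ 4 * Z ≤ (2 * α0) ^ 4 * (10 * (α0 * τ)) :=
        mul_le_mul (pow_le_pow_left₀ hα.le h2 4) hZ2 hZ0.le (by positivity)
    _ = 160 * (α0 ^ 5 * τ) := by ring
    _ ≤ 160 * 100000 := mul_le_mul_of_nonneg_left h5 (by norm_num)
    _ ≤ 100000000 := by norm_num

private theorem ZX2_sp (α0 τ Z : ℝ) (h0 : 0 < α0) (hτ : 0 < τ) (hZ1 : α0 * τ / 7 ≤ Z) :
    ‖sp Z‖ ≤ 2 * (α0 * τ) ^ (-1 / 2 : ℝ) := by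
  have h0τ : 0 < α0 * τ := mul_pos h0 hτ
  have hZ : 0 < Z := lt_of_lt_of_le (by positivity) hZ1
  have e1 : (α0 * τ) ^ (-1 / 2 : ℝ) = 1 / Real.sqrt (α0 * τ) := by
    rw [show (-1 / 2 : ℝ) = -(1 / 2) by norm_num, Real.rpow_neg h0τ.le, ← Real.sqrt_eq_rpow,
      one_div]
  have hs : 0 < Real.sqrt (α0 * τ) := Real.sqrt_pos.2 h0τ
  rw [norm_sp, abs_of_pos hZ, e1]
  have e2 : Real.sqrt (α0 * τ) / 2 ≤ Real.sqrt (2 * Z) := by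
    apply Real.le_sqrt_of_sq_le
    rw [div_pow, Real.sq_sqrt h0τ.le]
    linarith
  calc 1 / Real.sqrt (2 * Z) ≤ 1 / (Real.sqrt (α0 * τ) / 2) :=
        one_div_le_one_div_of_le (by positivity) e2
    _ = 2 * (1 / Real.sqrt (α0 * τ)) := by
        field_simp

theorem cf_lipA (ω W : ℝ → ℝ) (hω : Bump ω) (hW : BumpW W) : ∃ C : ℝ, 1 ≤ C ∧
    ∀ G α0 α α' τ Z : ℝ, 0 < α0 → α0 ≤ α → α ≤ 2 * α0 → α0 ≤ α' → α' ≤ 2 * α0 → α ≤ 1 / 100 → α' ≤ 1 / 100 →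
    0 ≤ G → G * α ≤ 7 → G * α' ≤ 7 → 0 < τ → α0 ^ 5 * τ ≤ 100000 → 0 < Z →
    ‖cf ω W G α τ Z - cf ω W G α' τ Z‖ ≤ C * (α0 * τ) ^ (-1 / 2 : ℝ) * (|α - α'| / α0) := by
  obtain ⟨Gc, hGc, _, hl⟩ := joint_lip
    (fun p : ℝ × ℝ × ℝ × ℝ => ampA ω W p.1 p.2.1 p.2.2.1 p.2.2.2) {p | |p.2.1| < 1 / 50}
    (isOpen_lt (by fun_prop) continuous_const) (ampA_smooth ω W hω hW)
    (Set.Icc (1 / 10 : ℝ) 10 ×ˢ (Set.Icc (0 : ℝ) (1 / 100) ×ˢ (Set.Icc (0 : ℝ) 7 ×ˢ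
      Set.Icc (0 : ℝ) 100000000)))
    (isCompact_Icc.prod (isCompact_Icc.prod (isCompact_Icc.prod isCompact_Icc)))
    ((convex_Icc _ _).prod ((convex_Icc _ _).prod ((convex_Icc _ _).prod (convex_Icc _ _))))
    (by
      rintro ⟨p1, p2, p3, p4⟩ ⟨_, h2, _, _⟩
      have h3 : 0 ≤ p2 := h2.1
      have h4 : p2 ≤ 1 / 100 := h2.2
      change |p2| < 1 / 50
      rw [abs_of_nonneg h3]
      linarith)
  refine ⟨80000000 * Gc, by linarith, ?_⟩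
  intro G α0 α α' τ Z h0 h1 h2 h1' h2' h3 h3' hG hGα hGα' hτ h5 hZ
  have h0τ : 0 < α0 * τ := mul_pos h0 hτ
  have hα : 0 < α := by linarith
  have hα' : 0 < α' := by linarith
  have hD : 0 ≤ |α - α'| / α0 := by positivity
  have hR : 0 ≤ 80000000 * Gc * (α0 * τ) ^ (-1 / 2 : ℝ) * (|α - α'| / α0) := by
    have := Real.rpow_nonneg h0τ.le (-1 / 2 : ℝ)
    positivity
  -- the range of `Z`
  have hrange : (cf ω W G α τ Z ≠ 0 ∨ cf ω W G α' τ Z ≠ 0) →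
      α0 * τ / 7 ≤ Z ∧ Z ≤ 10 * (α0 * τ) := by
    rintro (h | h)
    · obtain ⟨a1, a2⟩ := cf_supp ω W hω G α τ Z hα h3 hτ hZ h
      have b1 : α0 * τ ≤ α * τ := mul_le_mul_of_nonneg_right h1 hτ.le
      have b2 : α * τ ≤ 2 * α0 * τ := mul_le_mul_of_nonneg_right h2 hτ.le
      constructor <;> linarith
    · obtain ⟨a1, a2⟩ := cf_supp ω W hω G α' τ Z hα' h3' hτ hZ h
      have b1 : α0 * τ ≤ α' * τ := mul_le_mul_of_nonneg_right h1' hτ.le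
      have b2 : α' * τ ≤ 2 * α0 * τ := mul_le_mul_of_nonneg_right h2' hτ.le
      constructor <;> linarith
  by_cases hc : cf ω W G α τ Z ≠ 0 ∨ cf ω W G α' τ Z ≠ 0
  swap
  · push_neg at hc
    rw [hc.1, hc.2, sub_zero, norm_zero]
    exact hR
  obtain ⟨hZ1, hZ2⟩ := hrange hc
  have m1 : ((et α τ Z, α, G * α, α ^ 4 * Z) : ℝ × ℝ × ℝ × ℝ) ∈
      (Set.Icc (1 / 10 : ℝ) 10 ×ˢ (Set.Icc (0 : ℝ) (1 / 100) ×ˢ (Set.Icc (0 : ℝ) 7 ×ˢ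
      Set.Icc (0 : ℝ) 100000000))) :=
    ⟨ZX2_etr α0 α τ Z h0 h1 h2 h3 hτ hZ1 hZ2, ⟨hα.le, h3⟩, ⟨by positivity, hGα⟩,
      ZX2_p4r α0 α τ Z h0 h1 h2 hτ h5 hZ hZ2⟩
  have m2 : ((et α' τ Z, α', G * α', α' ^ 4 * Z) : ℝ × ℝ × ℝ × ℝ) ∈
      (Set.Icc (1 / 10 : ℝ) 10 ×ˢ (Set.Icc (0 : ℝ) (1 / 100) ×ˢ (Set.Icc (0 : ℝ) 7 ×ˢ
      Set.Icc (0 : ℝ) 100000000))) :=
    ⟨ZX2_etr α0 α' τ Z h0 h1' h2' h3' hτ hZ1 hZ2, ⟨hα'.le, h3'⟩, ⟨by positivity, hGα'⟩,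
      ZX2_p4r α0 α' τ Z h0 h1' h2' hτ h5 hZ hZ2⟩
  have hlip := hl _ m1 _ m2
  have hn : ‖((et α τ Z, α, G * α, α ^ 4 * Z) : ℝ × ℝ × ℝ × ℝ) -
      (et α' τ Z, α', G * α', α' ^ 4 * Z)‖ ≤ 40000000 * (|α - α'| / α0) := by
    simp only [Prod.mk_sub_mk, Prod.norm_mk, Real.norm_eq_abs]
    refine max_le ?_ (max_le ?_ (max_le ?_ ?_))
    · have := ZX2_et α0 α α' τ Z h0 h1 h2 h1' h2' h3 h3' hτ hZ1 hZ2
      linarith
    · have e1 : |α - α'| ≤ |α - α'| / α0 := by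
        rw [le_div_iff₀ h0]
        have := abs_nonneg (α - α')
        nlinarith
      linarith
    · have e1 : G * α - G * α' = G * (α - α') := by ring
      rw [e1, abs_mul, abs_of_nonneg hG]
      have e2 : G * α0 ≤ 7 := (mul_le_mul_of_nonneg_left h1 hG).trans hGα
      have e3 : G * |α - α'| = (G * α0) * (|α - α'| / α0) := by
        field_simp
      rw [e3]
      exact mul_le_mul_of_nonneg_right (by linarith) hD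
    · have := ZX2_p4 α0 α α' τ Z h0 h1 h2 h1' h2' hτ h5 hZ hZ2
      linarith
  have hsp := ZX2_sp α0 τ Z h0 hτ hZ1
  have hx := Real.rpow_nonneg h0τ.le (-1 / 2 : ℝ)
  unfold cf
  rw [← mul_sub, norm_mul]
  calc ‖sp Z‖ * ‖ampA ω W (et α τ Z) α (G * α) (α ^ 4 * Z) -
        ampA ω W (et α' τ Z) α' (G * α') (α' ^ 4 * Z)‖
      ≤ (2 * (α0 * τ) ^ (-1 / 2 : ℝ)) * (Gc * (40000000 * (|α - α'| / α0))) :=
        mul_le_mul hsp (hlip.trans (mul_le_mul_of_nonneg_left hn (by linarith))) (norm_nonneg _)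
          (by positivity)
    _ = 80000000 * Gc * (α0 * τ) ^ (-1 / 2 : ℝ) * (|α - α'| / α0) := by ring

end Pool.Agent.LibSX15
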