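import Mathlib

/-!
LibSX15, ZX3 (helper1): bounded variation of cut off smooth functions.
-/

set_option autoImplicit false

namespace Pool.Agent.LibSX15

open Finset

/-- the variation of a Lipschitz function with support in `[a, b]` along a monotone sequence -/
theorem var_clip (F : ℝ → ℂ) (L a b : ℝ) (ha : 0 < a) (hab : a ≤ b) (hL : 0 ≤ L)
    (hF : ∀ x y, 0 < x → 0 < y → ‖F x - F y‖ ≤ L * |x - y|)
    (hs : ∀ x, 0 < x → F x ≠ 0 → a ≤ x ∧ x ≤ b) (h00 : F 0 = 0)
    (x : ℕ → ℝ) (hx : Monotone x) (hx0 : ∀ k, 0 ≤ x k) (J : ℕ) :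
    ∑ k ∈ range J, ‖F (x (k + 1)) - F (x k)‖ ≤ L * (2 * b) := by
  have hb : 0 < b := lt_of_lt_of_le ha hab
  set c : ℝ → ℝ := fun t => max (a / 2) (min t (2 * b)) with hc
  have hc0 : ∀ t, 0 < c t := fun t => lt_of_lt_of_le (by linarith) (le_max_left _ _)
  have hc2 : ∀ t, c t ≤ 2 * b := fun t => max_le (by linarith) (min_le_right _ _)
  have hcm : Monotone c := fun s t hst => max_le_max le_rfl (min_le_min hst le_rfl)
  have hz : ∀ t, 0 < t → (t < a ∨ b < t) → F t = 0 := by
    intro t ht h
    by_contra hne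
    obtain ⟨h1, h2⟩ := hs t ht hne
    rcases h with h | h <;> linarith
  have hFc : ∀ t, 0 ≤ t → F t = F (c t) := by
    intro t ht
    rcases lt_or_ge t (a / 2) with h1 | h1
    · have e1 : c t = a / 2 := by
        simp only [hc]
        rw [min_eq_left (by linarith), max_eq_left h1.le]
      rw [e1, hz (a / 2) (by linarith) (Or.inl (by linarith))]
      rcases eq_or_lt_of_le ht with h2 | h2
      · rw [← h2, h00]
      · exact hz t h2 (Or.inl (by linarith))
    · rcases lt_or_ge (2 * b) t with h2 | h2
      · have e1 : c t = 2 * b := by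
          simp only [hc]
          rw [min_eq_right h2.le, max_eq_right (by linarith)]
        rw [e1, hz (2 * b) (by linarith) (Or.inr (by linarith)), hz t (by linarith) (Or.inr (by linarith))]
      · have e1 : c t = t := by
          simp only [hc]
          rw [min_eq_left h2, max_eq_right h1]
        rw [e1]
  calc ∑ k ∈ range J, ‖F (x (k + 1)) - F (x k)‖
      ≤ ∑ k ∈ range J, L * (c (x (k + 1)) - c (x k)) := by
        refine sum_le_sum fun k _ => ?_
        rw [hFc _ (hx0 (k + 1)), hFc _ (hx0 k)]
        refine (hF _ _ (hc0 _) (hc0 _)).trans (le_of_eq ?_)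
        rw [abs_of_nonneg (sub_nonneg.2 (hcm (hx (Nat.le_succ k))))]
    _ = L * (c (x J) - c (x 0)) := by
        rw [← mul_sum, Finset.sum_range_sub (fun k => c (x k))]
    _ ≤ L * (2 * b) := by
        refine mul_le_mul_of_nonneg_left ?_ hL
        linarith [hc2 (x J), hc0 (x 0)]

/-- the variation of a sequence supported in the interval `[p, q]` -/
theorem var_block (b : ℕ → ℂ) (p q : ℕ) (S L : ℝ) (hS : 0 ≤ S) (hL : 0 ≤ L)
    (hz : ∀ h, b h ≠ 0 → p ≤ h ∧ h ≤ q) (hb : ∀ h, ‖b h‖ ≤ S)
    (hl : ∀ h, p ≤ h → h + 1 ≤ q → ‖b (h + 1) - b h‖ ≤ L) (J : ℕ) :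
    ∑ h ∈ range J, ‖b (h + 1) - b h‖ ≤ 2 * S + ((q - p : ℕ) : ℝ) * L := by
  have hz' : ∀ h, (h < p ∨ q < h) → b h = 0 := by
    intro h hh
    by_contra hne
    obtain ⟨h1, h2⟩ := hz h hne
    rcases hh with hh | hh <;> omega
  have h1 : ∀ h ∈ range J, ‖b (h + 1) - b h‖ ≤ (if h + 1 = p then S else 0) +
      (if h = q then S else 0) + (if p ≤ h ∧ h < q then L else 0) := by
    intro h _
    by_cases c1 : h + 1 < p
    · rw [hz' (h + 1) (Or.inl c1), hz' h (Or.inl (by omega)), sub_zero, norm_zero]
      positivity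
    · by_cases c2 : h + 1 = p
      · rw [hz' h (Or.inl (by omega)), sub_zero, if_pos c2]
        have : 0 ≤ (if h = q then S else 0) + (if p ≤ h ∧ h < q then L else 0) := by positivity
        linarith [hb (h + 1)]
      · have c3 : p ≤ h := by omega
        rw [if_neg c2]
        by_cases c4 : h < q
        · rw [if_pos (⟨c3, c4⟩ : p ≤ h ∧ h < q)]
          have : 0 ≤ (if h = q then S else 0) := by positivity
          linarith [hl h c3 c4]
        · by_cases c5 : h = q
          · rw [hz' (h + 1) (Or.inr (by omega)), zero_sub, norm_neg, if_pos c5,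
              if_neg (fun hh : p ≤ h ∧ h < q => c4 hh.2)]
            linarith [hb h]
          · rw [hz' (h + 1) (Or.inr (by omega)), hz' h (Or.inr (by omega)), sub_zero, norm_zero]
            positivity
  refine (sum_le_sum h1).trans ?_
  rw [sum_add_distrib, sum_add_distrib]
  have s1 : ∑ h ∈ range J, (if h + 1 = p then S else 0) ≤ S := by
    rw [← sum_filter, sum_const, nsmul_eq_mul]
    have hcard : ((range J).filter fun h => h + 1 = p).card ≤ 1 := by
      rw [card_le_one]
      intro x hx y hy
      have e1 := (mem_filter.1 hx).2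
      have e2 := (mem_filter.1 hy).2
      omega
    have : (((range J).filter fun h => h + 1 = p).card : ℝ) ≤ 1 := by exact_mod_cast hcard
    nlinarith
  have s2 : ∑ h ∈ range J, (if h = q then S else 0) ≤ S := by
    rw [← sum_filter, sum_const, nsmul_eq_mul]
    have hcard : ((range J).filter fun h => h = q).card ≤ 1 := by
      rw [card_le_one]
      intro x hx y hy
      have e1 := (mem_filter.1 hx).2
      have e2 := (mem_filter.1 hy).2
      omega
    have : (((range J).filter fun h => h = q).card : ℝ) ≤ 1 := by exact_mod_cast hcard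
    nlinarith
  have s3 : ∑ h ∈ range J, (if p ≤ h ∧ h < q then L else 0) ≤ ((q - p : ℕ) : ℝ) * L := by
    rw [← sum_filter, sum_const, nsmul_eq_mul]
    refine mul_le_mul_of_nonneg_right ?_ hL
    have hcard : ((range J).filter fun h => p ≤ h ∧ h < q).card ≤ (Ico p q).card := by
      refine card_le_card fun h hh => ?_
      rw [mem_Ico]
      exact (mem_filter.1 hh).2
    rw [Nat.card_Ico] at hcard
    exact_mod_cast hcard
  linarith

end Pool.Agent.LibSX15
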