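import Pool.Agent.LibSX15.ZB11
import Pool.Agent.LibSX15.ZX1
import Pool.Agent.LibSX15.ZX2
import Pool.Agent.LibSX15.ZX3

/-!
LibSX15, ZX4 (helper1): the structured form of the coefficients.
-/

set_option autoImplicit false

namespace Pool.Agent.LibSX15

open Finset

/-- the coefficients are convolutions of a function of two variables of bounded variation in each of them -/
def Str (C T K : ℝ) (c : ℕ → ℝ → ℂ) : Prop :=
  ∃ b : ℕ → ℕ → ℝ → ℂ,
    (∀ n t, c n t = (-1) ^ n * ∑ h ∈ n.divisors, b h (n / h) t) ∧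
    ∀ t ∈ Set.Icc T (2 * T),
      (∀ h k, ‖b h k t‖ ≤ C) ∧
      (∀ h k, b h k t ≠ 0 → K / 2000 ≤ (h : ℝ) * k ∧ (h : ℝ) * k ≤ K) ∧
      (∀ h J, ∑ k ∈ range J, ‖b h (k + 1) t - b h k t‖ ≤ C) ∧
      (∀ k J, ∑ h ∈ range J, ‖b (h + 1) k t - b h k t‖ ≤ C)

theorem Str.mono {C C' T K : ℝ} {c : ℕ → ℝ → ℂ} (h : Str C T K c) (hC : C ≤ C') : Str C' T K c := by
  obtain ⟨b, h1, h2⟩ := h
  refine ⟨b, h1, fun t ht => ?_⟩
  obtain ⟨a1, a2, a3, a4⟩ := h2 t ht
  exact ⟨fun h k => (a1 h k).trans hC, a2, fun h J => (a3 h J).trans hC,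
    fun k J => (a4 k J).trans hC⟩

/-- the functions `b` -/
noncomputable def bB (ω W : ℝ → ℝ) (T G X : ℝ) (i h k : ℕ) (t : ℝ) : ℂ :=
  if 2 ^ i ≤ h ∧ h < 2 ^ (i + 1) ∧ (h : ℝ) ≤ 7 * X / G then
    (((T * KB T X i) ^ (1 / 4 : ℝ) : ℝ) : ℂ) * cf ω W G (h / X) (t / (2 * Real.pi)) ((k : ℝ) * X)
  else 0

private theorem ZX4_cB (ω W : ℝ → ℝ) (T G X : ℝ) (i n : ℕ) (t : ℝ) :
    cB ω W T G X i n t = (-1) ^ n * ∑ h ∈ n.divisors, bB ω W T G X i h (n / h) t := by
  unfold cB bB
  rw [sum_filter, ← mul_assoc, mul_comm _ ((-1 : ℂ) ^ n), mul_assoc, mul_sum]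
  congr 1
  refine sum_congr rfl fun h _ => ?_
  split_ifs <;> simp

private theorem ZX4_P {T a x : ℝ} (hT : 0 < T) (ha : 0 < a) (hx : a * T / (2 * Real.pi) ≤ x) :
    (T * (7 * T * a ^ 2)) ^ (1 / 4 : ℝ) * x ^ (-1 / 2 : ℝ) ≤ 6 := by
  have hy : 0 < a * T := by positivity
  have h1 : (T * (7 * T * a ^ 2)) ^ (1 / 4 : ℝ) ≤ 2 * (a * T) ^ (1 / 2 : ℝ) := by
    have e1 : T * (7 * T * a ^ 2) ≤ (2 : ℝ) ^ (4 : ℝ) * ((a * T) ^ (2 : ℝ)) := by
      rw [show (2 : ℝ) ^ (4 : ℝ) = 16 by norm_num, Real.rpow_two]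
      nlinarith [sq_nonneg (a * T)]
    refine (Real.rpow_le_rpow (by positivity) e1 (by norm_num)).trans (le_of_eq ?_)
    rw [Real.mul_rpow (by positivity) (by positivity), ← Real.rpow_mul (by norm_num),
      ← Real.rpow_mul hy.le]
    norm_num
  have h2 : a * T / 9 ≤ x := by
    refine le_trans ?_ hx
    apply div_le_div_of_nonneg_left hy.le (by positivity)
    have := Real.pi_le_four
    linarith
  have h3 : x ^ (-1 / 2 : ℝ) ≤ 3 * (a * T) ^ (-1 / 2 : ℝ) := by
    have e1 : x ^ (-1 / 2 : ℝ) ≤ (a * T / 9) ^ (-1 / 2 : ℝ) :=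
      Real.rpow_le_rpow_of_nonpos (by positivity) h2 (by norm_num)
    refine e1.trans (le_of_eq ?_)
    rw [Real.div_rpow hy.le (by norm_num), show (9 : ℝ) = 3 ^ (2 : ℝ) by norm_num,
      ← Real.rpow_mul (by norm_num)]
    norm_num
    ring
  calc (T * (7 * T * a ^ 2)) ^ (1 / 4 : ℝ) * x ^ (-1 / 2 : ℝ)
      ≤ (2 * (a * T) ^ (1 / 2 : ℝ)) * (3 * (a * T) ^ (-1 / 2 : ℝ)) :=
        mul_le_mul h1 h3 (Real.rpow_nonneg (le_trans (by positivity) h2) _) (by positivity)
    _ = 6 * ((a * T) ^ (1 / 2 : ℝ) * (a * T) ^ (-1 / 2 : ℝ)) := by ring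
    _ = 6 := by
        rw [← Real.rpow_add hy]
        norm_num

/-- the data of a block: `α = h/X` -/
private theorem ZX4_data {T G X t : ℝ} {h i : ℕ} (hT : 3 ≤ T) (hG : 700 ≤ G)
    (hG5 : T ^ (1 / 5 : ℝ) ≤ G) (hX : 1 ≤ X) (ht : t ∈ Set.Icc T (2 * T)) (h1 : 2 ^ i ≤ h)
    (h3 : (h : ℝ) ≤ 7 * X / G) :
    0 < (2 : ℝ) ^ i / X ∧ (2 : ℝ) ^ i / X ≤ h / X ∧ (h : ℝ) / X ≤ 1 / 100 ∧ G * (h / X) ≤ 7 ∧
      0 < t / (2 * Real.pi) ∧ ((h : ℝ) / X) ^ 5 * (t / (2 * Real.pi)) ≤ 100000 ∧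
      (2 : ℝ) ^ i / X * T / (2 * Real.pi) ≤ 2 ^ i / X * (t / (2 * Real.pi)) ∧
      t / (2 * Real.pi) ≤ T / Real.pi := by
  have hX0 : 0 < X := by linarith
  have hG0 : 0 < G := by linarith
  have hT0 : 0 < T := by linarith
  have hpi := Real.pi_pos
  have hpi3 := Real.pi_gt_three
  have h1' : (2 : ℝ) ^ i ≤ h := by exact_mod_cast h1
  have ha : (h : ℝ) / X ≤ 7 / G := by
    rw [div_le_div_iff₀ hX0 hG0]
    rw [le_div_iff₀ hG0] at h3
    linarith
  have hh0 : (0 : ℝ) ≤ h / X := by positivity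
  have hG1 : T ≤ G ^ 5 := by
    have e1 : (T ^ (1 / 5 : ℝ)) ^ (5 : ℕ) ≤ G ^ 5 := pow_le_pow_left₀ (by positivity) hG5 5
    have e2 : (T ^ (1 / 5 : ℝ)) ^ (5 : ℕ) = T := by
      rw [← Real.rpow_natCast, ← Real.rpow_mul hT0.le]
      norm_num
    linarith
  have htu : t / (2 * Real.pi) ≤ T / Real.pi := by
    rw [div_le_div_iff₀ (by positivity) hpi]
    nlinarith [ht.2]
  refine ⟨by positivity, div_le_div_of_nonneg_right h1' hX0.le, ?_, ?_, ?_, ?_, ?_, htu⟩
  · refine ha.trans ?_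
    rw [div_le_div_iff₀ hG0 (by norm_num)]
    linarith
  · calc G * (h / X) ≤ G * (7 / G) := mul_le_mul_of_nonneg_left ha hG0.le
      _ = 7 := by field_simp
  · have : 0 < t := lt_of_lt_of_le hT0 ht.1
    positivity
  · have e1 : ((h : ℝ) / X) ^ 5 ≤ (7 / G) ^ 5 := pow_le_pow_left₀ hh0 ha 5
    have e2 : (7 / G) ^ 5 ≤ 16807 / T := by
      rw [div_pow, div_le_div_iff₀ (by positivity) hT0]
      nlinarith
    have e3 : t / (2 * Real.pi) ≤ T / 3 := by
      refine htu.trans ?_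
      exact div_le_div_of_nonneg_left hT0.le (by norm_num) hpi3.le
    have e4 : 0 ≤ t / (2 * Real.pi) := by
      have : 0 < t := lt_of_lt_of_le hT0 ht.1
      positivity
    calc ((h : ℝ) / X) ^ 5 * (t / (2 * Real.pi)) ≤ 16807 / T * (T / 3) :=
          mul_le_mul (e1.trans e2) e3 e4 (by positivity)
      _ = 16807 / 3 := by field_simp
      _ ≤ 100000 := by norm_num
  · rw [mul_div_assoc]
    refine mul_le_mul_of_nonneg_left ?_ (by positivity)
    exact div_le_div_of_nonneg_right ht.1 (by positivity)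

private theorem ZX4_cf0 (ω W : ℝ → ℝ) (G α τ : ℝ) : cf ω W G α τ 0 = 0 := by
  unfold cf sp
  rw [mul_zero, Complex.ofReal_zero, zero_mul, div_zero, Complex.zero_cpow (by norm_num), zero_mul]

theorem cB_str (ω W : ℝ → ℝ) (hω : Bump ω) (hW : BumpW W) : ∃ C : ℝ, 1 ≤ C ∧ ∀ T G X : ℝ, 3 ≤ T → 700 ≤ G →
    T ^ (1 / 5 : ℝ) ≤ G → 1 ≤ X → ∀ i ∈ iB G X, Str C T (KB T X i) (fun n t => cB ω W T G X i n t) := by
  obtain ⟨C1, hC1, H1⟩ := cf_size ω W hω hW
  obtain ⟨C2, hC2, H2⟩ := cf_lipZ ω W hω hW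
  obtain ⟨C3, hC3, H3⟩ := cf_lipA ω W hω hW
  refine ⟨12 * C1 + 60 * C2 + 6 * C3, by linarith, fun T G X hT hG hG5 hX i hi => ?_⟩
  have hT0 : 0 < T := by linarith
  have hX0 : 0 < X := by linarith
  have hG0 : 0 < G := by linarith
  have hpi := Real.pi_pos
  have hpi3 := Real.pi_gt_three
  refine ⟨bB ω W T G X i, fun n t => ZX4_cB ω W T G X i n t, fun t ht => ?_⟩
  set P : ℝ := (T * KB T X i) ^ (1 / 4 : ℝ) with hP
  have hKB : 0 < KB T X i := by unfold KB; positivity
  have hP0 : 0 ≤ P := Real.rpow_nonneg (by positivity) _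
  set a : ℝ := 2 ^ i / X with ha
  have ha0 : 0 < a := by positivity
  have hPx : ∀ x : ℝ, a * (t / (2 * Real.pi)) ≤ x → P * x ^ (-1 / 2 : ℝ) ≤ 6 := by
    intro x hx
    refine ZX4_P hT0 ha0 (le_trans ?_ hx)
    rw [mul_div_assoc]
    refine mul_le_mul_of_nonneg_left ?_ ha0.le
    exact div_le_div_of_nonneg_right ht.1 (by positivity)
  have hnP : ∀ z : ℂ, ‖((P : ℝ) : ℂ) * z‖ = P * ‖z‖ := by
    intro z
    rw [norm_mul, Complex.norm_real, Real.norm_of_nonneg hP0]
  -- size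
  have hsize : ∀ h k, ‖bB ω W T G X i h k t‖ ≤ 6 * C1 := by
    intro h k
    unfold bB
    split_ifs with hc
    · obtain ⟨d1, d2, d3, d4, d5, d6, d7, d8⟩ := ZX4_data hT hG hG5 hX ht hc.1 hc.2.2
      rcases Nat.eq_zero_or_pos k with hk | hk
      · rw [hk, Nat.cast_zero, zero_mul, ZX4_cf0, mul_zero, norm_zero]
        linarith
      · have hk' : (0 : ℝ) < k := by exact_mod_cast hk
        rw [← hP, hnP]
        have e1 := H1 G (h / X) (t / (2 * Real.pi)) (k * X) (lt_of_lt_of_le d1 d2) d3 hG0.le d4 d5 d6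
          (by positivity)
        have e2 := hPx ((h : ℝ) / X * (t / (2 * Real.pi))) (mul_le_mul_of_nonneg_right d2 d5.le)
        calc P * ‖cf ω W G (h / X) (t / (2 * Real.pi)) (k * X)‖
            ≤ P * (C1 * ((h : ℝ) / X * (t / (2 * Real.pi))) ^ (-1 / 2 : ℝ)) :=
              mul_le_mul_of_nonneg_left e1 hP0
          _ = C1 * (P * ((h : ℝ) / X * (t / (2 * Real.pi))) ^ (-1 / 2 : ℝ)) := by ring
          _ ≤ C1 * 6 := mul_le_mul_of_nonneg_left e2 (by linarith)
          _ = 6 * C1 := by ring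
    · rw [norm_zero]
      linarith
  refine ⟨fun h k => (hsize h k).trans (by linarith), ?_, ?_, ?_⟩
  · -- support
    intro h k hne
    unfold bB at hne
    split_ifs at hne with hc
    · obtain ⟨d1, d2, d3, d4, d5, d6, d7, d8⟩ := ZX4_data hT hG hG5 hX ht hc.1 hc.2.2
      have hcf : cf ω W G (h / X) (t / (2 * Real.pi)) (k * X) ≠ 0 := right_ne_zero_of_mul hne
      have hk : 0 < k := by
        rcases Nat.eq_zero_or_pos k with hk | hk
        · exfalso
          apply hcf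
          rw [hk, Nat.cast_zero, zero_mul, ZX4_cf0]
        · exact hk
      have hk' : (0 : ℝ) < k := by exact_mod_cast hk
      have hα : 0 < (h : ℝ) / X := lt_of_lt_of_le d1 d2
      obtain ⟨s1, s2⟩ := cf_supp ω W hω G (h / X) (t / (2 * Real.pi)) (k * X) hα d3 d5
        (by positivity) hcf
      have hhk : (h : ℝ) * k = h / X * (k * X) := by field_simp
      have hα2 : (h : ℝ) / X ≤ 2 * a := by
        have : (h : ℝ) ≤ 2 * 2 ^ i := by
          have := hc.2.1.le
          rw [pow_succ] at this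
          have h4 : (h : ℝ) ≤ 2 ^ i * 2 := by exact_mod_cast this
          linarith
        calc (h : ℝ) / X ≤ (2 * 2 ^ i) / X := div_le_div_of_nonneg_right this hX0.le
          _ = 2 * a := by rw [ha]; ring
      have hKBe : KB T X i = 7 * T * a ^ 2 := rfl
      have htl : T / 7 ≤ t / (2 * Real.pi) := by
        rw [div_le_div_iff₀ (by norm_num) (by positivity)]
        have := Real.pi_lt_d2
        nlinarith [ht.1]
      constructor
      · rw [hhk, hKBe]
        have e1 : a * (a * (T / 7) / 7) ≤ h / X * (k * X) := by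
          refine mul_le_mul d2 (le_trans ?_ s1) (by positivity) hα.le
          refine div_le_div_of_nonneg_right ?_ (by norm_num)
          exact mul_le_mul d2 htl (by positivity) hα.le
        have e2 : 0 ≤ T * a ^ 2 := by positivity
        nlinarith
      · rw [hhk, hKBe]
        have e0 : t / (2 * Real.pi) ≤ T / 3 := by
          refine d8.trans ?_
          exact div_le_div_of_nonneg_left hT0.le (by norm_num) hpi3.le
        have e1 : h / X * (k * X) ≤ (2 * a) * (5 * ((2 * a) * (T / 3))) := by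
          refine mul_le_mul hα2 (s2.trans ?_) (by positivity) (by positivity)
          refine mul_le_mul_of_nonneg_left ?_ (by norm_num)
          exact mul_le_mul hα2 e0 d5.le (by positivity)
        have e2 : 0 ≤ T * a ^ 2 := by positivity
        nlinarith
    · exact absurd rfl hne
  · -- variation in k
    intro h J
    by_cases hc : 2 ^ i ≤ h ∧ h < 2 ^ (i + 1) ∧ (h : ℝ) ≤ 7 * X / G
    · obtain ⟨d1, d2, d3, d4, d5, d6, d7, d8⟩ := ZX4_data hT hG hG5 hX ht hc.1 hc.2.2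
      have hα : 0 < (h : ℝ) / X := lt_of_lt_of_le d1 d2
      set α : ℝ := (h : ℝ) / X with hαd
      set τ : ℝ := t / (2 * Real.pi) with hτd
      have hατ : 0 < α * τ := by positivity
      have e2 := hPx (α * τ) (mul_le_mul_of_nonneg_right d2 d5.le)
      have hv := var_clip (fun Z => ((P : ℝ) : ℂ) * cf ω W G α τ Z)
        (P * (C2 * (α * τ) ^ (-1 / 2 : ℝ) / (α * τ))) (α * τ / 7) (5 * (α * τ))
        (by positivity) (by linarith) (by positivity)
        (fun x y hx hy => by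
          rw [← mul_sub, hnP]
          refine (mul_le_mul_of_nonneg_left (H2 G α τ x y hα d3 hG0.le d4 d5 d6 hx hy) hP0).trans
            (le_of_eq ?_)
          ring)
        (fun x hx hne => cf_supp ω W hω G α τ x hα d3 d5 hx (right_ne_zero_of_mul hne))
        (by rw [ZX4_cf0, mul_zero])
        (fun k : ℕ => (k : ℝ) * X)
        (fun k l hkl => mul_le_mul_of_nonneg_right (by exact_mod_cast hkl) hX0.le)
        (fun k => by positivity) J
      have e3 : ∀ k, bB ω W T G X i h k t = ((P : ℝ) : ℂ) * cf ω W G α τ ((k : ℝ) * X) := by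
        intro k
        unfold bB
        rw [if_pos hc]
      simp only [e3]
      refine le_trans hv ?_
      have e4 : P * (C2 * (α * τ) ^ (-1 / 2 : ℝ) / (α * τ)) * (2 * (5 * (α * τ))) =
          10 * C2 * (P * (α * τ) ^ (-1 / 2 : ℝ)) := by
        field_simp
        ring
      rw [e4]
      have e5 : 10 * C2 * (P * (α * τ) ^ (-1 / 2 : ℝ)) ≤ 10 * C2 * 6 :=
        mul_le_mul_of_nonneg_left e2 (by linarith)
      linarith
    · have e3 : ∀ k, bB ω W T G X i h k t = 0 := by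
        intro k
        unfold bB
        rw [if_neg hc]
      simp only [e3, sub_zero, norm_zero, sum_const_zero]
      linarith
  · -- variation in h
    intro k J
    rcases Nat.eq_zero_or_pos k with hk | hk
    · have e3 : ∀ h, bB ω W T G X i h k t = 0 := by
        intro h
        unfold bB
        rw [hk, Nat.cast_zero, zero_mul, ZX4_cf0, mul_zero, ite_self]
      simp only [e3, sub_zero, norm_zero, sum_const_zero]
      linarith
    · have hk' : (0 : ℝ) < k := by exact_mod_cast hk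
      have hL0 : 0 ≤ 6 * C3 / 2 ^ i := by positivity
      have h7 : 0 ≤ 7 * X / G := by positivity
      have hv := var_block (fun h => bB ω W T G X i h k t) (2 ^ i)
        (min (2 ^ (i + 1) - 1) ⌊7 * X / G⌋₊) (6 * C1) (6 * C3 / 2 ^ i) (by linarith) hL0
        (fun h hne => by
          unfold bB at hne
          split_ifs at hne with hc
          · refine ⟨hc.1, le_min ?_ (Nat.le_floor hc.2.2)⟩
            have := hc.2.1
            omega
          · exact absurd rfl hne)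
        (fun h => hsize h k)
        (fun h hh1 hh2 => by
          have hq1 : h + 1 ≤ 2 ^ (i + 1) - 1 := hh2.trans (min_le_left _ _)
          have hq2 : h + 1 ≤ ⌊7 * X / G⌋₊ := hh2.trans (min_le_right _ _)
          have hpos : 0 < 2 ^ (i + 1) := by positivity
          have hf := (Nat.le_floor_iff h7).1 hq2
          have hc : 2 ^ i ≤ h ∧ h < 2 ^ (i + 1) ∧ (h : ℝ) ≤ 7 * X / G := by
            refine ⟨hh1, by omega, le_trans ?_ hf⟩
            push_cast
            linarith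
          have hc' : 2 ^ i ≤ h + 1 ∧ h + 1 < 2 ^ (i + 1) ∧ ((h + 1 : ℕ) : ℝ) ≤ 7 * X / G :=
            ⟨by omega, by omega, hf⟩
          obtain ⟨d1, d2, d3, d4, d5, d6, d7, d8⟩ := ZX4_data hT hG hG5 hX ht hc.1 hc.2.2
          obtain ⟨f1, f2, f3, f4, f5, f6, f7, f8⟩ := ZX4_data hT hG hG5 hX ht hc'.1 hc'.2.2
          unfold bB
          rw [if_pos hc, if_pos hc', ← hP, ← mul_sub, hnP]
          have htwo : ∀ g : ℕ, g < 2 ^ (i + 1) → (g : ℝ) / X ≤ 2 * a := by
            intro g hg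
            have : (g : ℝ) ≤ 2 * 2 ^ i := by
              have h3 := hg.le
              rw [pow_succ] at h3
              have h4 : (g : ℝ) ≤ 2 ^ i * 2 := by exact_mod_cast h3
              linarith
            calc (g : ℝ) / X ≤ (2 * 2 ^ i) / X := div_le_div_of_nonneg_right this hX0.le
              _ = 2 * a := by rw [ha]; ring
          have ha5 : a ^ 5 * (t / (2 * Real.pi)) ≤ 100000 :=
            le_trans (mul_le_mul_of_nonneg_right (pow_le_pow_left₀ ha0.le d2 5) d5.le) d6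
          have e1 := H3 G a (((h + 1 : ℕ) : ℝ) / X) ((h : ℝ) / X) (t / (2 * Real.pi)) (k * X) ha0
            f2 (htwo _ hc'.2.1) d2 (htwo _ hc.2.1) f3 d3 hG0.le f4 d4 d5 ha5 (by positivity)
          have e2 := hPx (a * (t / (2 * Real.pi))) le_rfl
          have e3 : |((h + 1 : ℕ) : ℝ) / X - (h : ℝ) / X| / a = 1 / 2 ^ i := by
            have : ((h + 1 : ℕ) : ℝ) / X - (h : ℝ) / X = 1 / X := by
              push_cast
              field_simp
              ring
            rw [this, abs_of_pos (by positivity), ha]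
            field_simp
          rw [e3] at e1
          calc P * ‖cf ω W G (((h + 1 : ℕ) : ℝ) / X) (t / (2 * Real.pi)) (k * X) -
                cf ω W G ((h : ℝ) / X) (t / (2 * Real.pi)) (k * X)‖
              ≤ P * (C3 * (a * (t / (2 * Real.pi))) ^ (-1 / 2 : ℝ) * (1 / 2 ^ i)) :=
                mul_le_mul_of_nonneg_left e1 hP0
            _ = C3 / 2 ^ i * (P * (a * (t / (2 * Real.pi))) ^ (-1 / 2 : ℝ)) := by ring
            _ ≤ C3 / 2 ^ i * 6 := mul_le_mul_of_nonneg_left e2 (by positivity)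
            _ = 6 * C3 / 2 ^ i := by ring)
        J
      refine hv.trans ?_
      have e4 : ((min (2 ^ (i + 1) - 1) ⌊7 * X / G⌋₊ - 2 ^ i : ℕ) : ℝ) ≤ 2 ^ i := by
        have : min (2 ^ (i + 1) - 1) ⌊7 * X / G⌋₊ - 2 ^ i ≤ 2 ^ i := by
          have h5 : min (2 ^ (i + 1) - 1) ⌊7 * X / G⌋₊ ≤ 2 ^ (i + 1) - 1 := min_le_left _ _
          have h6 : 2 ^ (i + 1) = 2 * 2 ^ i := by rw [pow_succ]; ring
          omega
        exact_mod_cast this
      have e5 : ((min (2 ^ (i + 1) - 1) ⌊7 * X / G⌋₊ - 2 ^ i : ℕ) : ℝ) * (6 * C3 / 2 ^ i) ≤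
          2 ^ i * (6 * C3 / 2 ^ i) := mul_le_mul_of_nonneg_right e4 hL0
      have e6 : (2 : ℝ) ^ i * (6 * C3 / 2 ^ i) = 6 * C3 := by field_simp
      rw [e6] at e5
      linarith

end Pool.Agent.LibSX15
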