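import Pool.Agent.LibSX15.ZB12
import Pool.Agent.LibSX15.ZX4
import Pool.Agent.LibSX15.ZSA9Q

/-!
LibSX15, ZX5 (helper1): `ZSBprop` with the structured form of the coefficients; `zeta_to_S` with the structured form.
-/

set_option autoImplicit false

namespace Pool.Agent.LibSX15

open Finset

theorem ZSBprop_str : ZSBprop Str := by
  intro ω W hω hW B hB
  obtain ⟨C1, hC1, h1⟩ := iB_card B hB
  obtain ⟨C2, hC2, h2⟩ := cB_props ω W hω hW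
  obtain ⟨C3, hC3, h3⟩ := ZB_sum ω W hω hW B hB
  obtain ⟨C4, hC4, h4'⟩ := cB_str ω W hω hW
  refine ⟨C1 + C2 + C3 + C4 + 343, (700 : ℝ) ^ 5, by linarith, by norm_num, fun T hT G hG1 _ X hX1 hX2 => ?_⟩
  have hT3 : (3 : ℝ) ≤ T := le_trans (by norm_num) hT
  have hT0 : 0 < T := by linarith
  have hG : 700 ≤ G := by
    refine le_trans ?_ hG1
    have h4 : ((700 : ℝ) ^ 5) ^ (1 / 5 : ℝ) ≤ T ^ (1 / 5 : ℝ) := Real.rpow_le_rpow (by norm_num) hT (by norm_num)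
    have h5 : ((700 : ℝ) ^ 5) ^ (1 / 5 : ℝ) = 700 := by
      rw [← Real.rpow_natCast, ← Real.rpow_mul (by norm_num)]
      norm_num
    linarith
  have hG0 : 0 < G := by linarith
  have hX0 : 0 < X := by linarith
  have hlog : 0 ≤ Real.log T := Real.log_nonneg (by linarith)
  refine ⟨iB G X, KB T X, fun i n t => cB ω W T G X i n t, ?_, ?_, ?_, ?_, ?_, ?_, ?_⟩
  · exact (h1 T G X hT3 hG hX1 hX2).trans (mul_le_mul_of_nonneg_right (by linarith) hlog)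
  · intro i hi
    have hi2 : (2 : ℝ) ^ i ≤ 7 * X / G := (Finset.mem_filter.mp hi).2
    have h4 : (2 : ℝ) ^ i / X ≤ 7 / G := by
      rw [div_le_div_iff₀ hX0 hG0]
      rw [le_div_iff₀ hG0] at hi2
      linarith
    have h5 : 0 < (2 : ℝ) ^ i / X := by positivity
    unfold KB
    refine ⟨by positivity, ?_⟩
    calc 7 * T * (2 ^ i / X) ^ 2 ≤ 7 * T * (7 / G) ^ 2 := by
          refine mul_le_mul_of_nonneg_left (pow_le_pow_left₀ h5.le h4 2) (by positivity)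
      _ = 343 * T / G ^ 2 := by field_simp; ring
      _ ≤ (C1 + C2 + C3 + C4 + 343) * T / G ^ 2 := by
          refine div_le_div_of_nonneg_right (mul_le_mul_of_nonneg_right (by linarith) hT0.le) (by positivity)
  · intro i hi n t ht
    exact (h2 T G X hT3 hG hG1 hX1 i hi n t ht).1.trans (mul_le_mul_of_nonneg_right (by linarith) (by positivity))
  · intro i hi n t ht
    exact (h2 T G X hT3 hG hG1 hX1 i hi n t ht).2.1
  · intro i hi n t ht t' ht'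
    refine ((h2 T G X hT3 hG hG1 hX1 i hi n t ht).2.2 t' ht').trans ?_
    refine div_le_div_of_nonneg_right ?_ hT0.le
    refine mul_le_mul_of_nonneg_right (mul_le_mul_of_nonneg_right (by linarith) (by positivity)) (abs_nonneg _)
  · intro i hi
    exact (h4' T G X hT3 hG hG1 hX1 i hi).mono (by linarith)
  · intro t ht
    refine (h3 T G X hT3 hG hG1 hX1 hX2 t ht).trans ?_
    refine mul_le_mul_of_nonneg_right (by linarith) ?_
    refine add_nonneg (by norm_num) (Finset.sum_nonneg fun i _ => ?_)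
    have : 0 ≤ T * KB T X i := by unfold KB; positivity
    positivity

open scoped Classical in
theorem zeta_to_S_str : ∃ C T0 : ℝ, 1 ≤ C ∧ 3 ≤ T0 ∧ ∀ T : ℝ, T0 ≤ T → ∀ G : ℝ,
    T ^ (1 / 5 : ℝ) ≤ G → G ≤ T ^ (1 / 2 : ℝ) →
    ∃ (ι : Finset ℕ) (K : ℕ → ℝ) (c : ℕ → ℕ → ℝ → ℂ),
      (ι.card : ℝ) ≤ C * (Real.log T) ^ 2 ∧
      (∀ i ∈ ι, 0 < K i ∧ K i ≤ C * T / G ^ 2) ∧
      (∀ i ∈ ι, ∀ n : ℕ, ∀ t ∈ Set.Icc T (2 * T), ‖c i n t‖ ≤ C * n.divisors.card) ∧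
      (∀ i ∈ ι, ∀ n : ℕ, ∀ t ∈ Set.Icc T (2 * T), c i n t ≠ 0 → K i / 2000 ≤ n ∧ (n : ℝ) ≤ K i) ∧
      (∀ i ∈ ι, ∀ n : ℕ, ∀ t ∈ Set.Icc T (2 * T), ∀ t' ∈ Set.Icc T (2 * T),
        ‖c i n t - c i n t'‖ ≤ C * n.divisors.card * |t - t'| / T) ∧
      (∀ i ∈ ι, Str C T (K i) (c i)) ∧
      ∀ V : ℝ, 1 ≤ V → ∀ t ∈ Set.Icc T (2 * T),
        V ^ 2 * (((Finset.Icc ⌈t - G / 2⌉ ⌊t + G / 2⌋).filter fun r : ℤ =>
          ∃ v ∈ Set.Icc (-1 / 2 : ℝ) (1 / 2),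
            V ≤ ‖riemannZeta (1 / 2 + ((r + v : ℝ) : ℂ) * Complex.I)‖).card : ℝ) ≤
        C * (Real.log T) ^ 3 * (G + G * ∑ i ∈ ι, (T * K i) ^ (-1 / 4 : ℝ) *
          ‖∑ n ∈ Finset.Icc 1 ⌊K i⌋₊, c i n t * ee (-zph n t)‖) :=
  zeta_to_S_Q Str (fun _ _ _ _ _ hC h => h.mono hC) ZSBprop_str

end Pool.Agent.LibSX15
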