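import Pool.Agent.LibSX15.TE2
import Pool.Agent.LibSX15.ZX5
import Pool.Agent.LibSX15.TWX0
import Pool.Agent.LibSX15.AS4

/-! LibSX15, block TW (helper99): the bound for the structured sums at the top end, from `te2`. -/

set_option autoImplicit false

namespace Pool.Agent.LibSX15

open Finset

/-- the regrouping of a divisor sum, hyperbola method -/
theorem tws_regroup (N s : ℕ) (hsN : s ≤ N) (hs : N < (s + 1) ^ 2) (f : ℕ → ℕ → ℂ)
    (hf : ∀ h k, N < h * k → f h k = 0) :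
    ∑ n ∈ Icc 1 N, ∑ h ∈ n.divisors, f h (n / h) =
      ∑ h ∈ Ioc 0 s, ∑ k ∈ Ioc 0 N, f h k + ∑ k ∈ Ioc 0 s, ∑ h ∈ Ioc s N, f h k := by
  classical
  set S : Finset (ℕ × ℕ) := (Ioc 0 N ×ˢ Ioc 0 N).filter fun x => x.1 * x.2 ≤ N with hS
  have h1 : ∑ n ∈ Icc 1 N, ∑ x ∈ S.filter (fun x => x.1 * x.2 = n), f x.1 x.2 =
      ∑ x ∈ S, f x.1 x.2 := by
    refine sum_fiberwise_of_maps_to (fun x hx => ?_) _
    rw [hS, mem_filter, mem_product, mem_Ioc, mem_Ioc] at hx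
    rw [mem_Icc]
    exact ⟨Nat.mul_pos hx.1.1.1 hx.1.2.1, hx.2⟩
  have h2 : ∀ n ∈ Icc 1 N, ∑ h ∈ n.divisors, f h (n / h) =
      ∑ x ∈ S.filter (fun x => x.1 * x.2 = n), f x.1 x.2 := by
    intro n hn
    rw [mem_Icc] at hn
    rw [← Nat.sum_divisorsAntidiagonal fun x y => f x y]
    refine sum_congr ?_ fun _ _ => rfl
    ext x
    rw [Nat.mem_divisorsAntidiagonal, mem_filter, hS, mem_filter, mem_product, mem_Ioc, mem_Ioc]
    constructor
    · rintro ⟨e1, e2⟩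
      have e3 : 0 < x.1 := Nat.pos_of_ne_zero fun h => e2 (by rw [← e1, h, zero_mul])
      have e4 : 0 < x.2 := Nat.pos_of_ne_zero fun h => e2 (by rw [← e1, h, mul_zero])
      refine ⟨⟨⟨⟨e3, ?_⟩, ⟨e4, ?_⟩⟩, by omega⟩, e1⟩
      · exact (Nat.le_mul_of_pos_right _ e4).trans (e1.le.trans hn.2)
      · exact (Nat.le_mul_of_pos_left _ e3).trans (e1.le.trans hn.2)
    · rintro ⟨-, e1⟩
      exact ⟨e1, by omega⟩
  rw [sum_congr rfl h2, h1, hS, sum_filter_of_ne (fun x _ hx => ?_), sum_product]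
  · have h3 : Ioc 0 N = Ioc 0 s ∪ Ioc s N := by
      rw [Ioc_union_Ioc_eq_Ioc (Nat.zero_le _) hsN]
    have h4 : Disjoint (Ioc 0 s) (Ioc s N) := by
      rw [Finset.disjoint_left]
      intro x hx hx'
      rw [mem_Ioc] at hx hx'
      omega
    conv_lhs => rw [h3, sum_union h4]
    rw [← h3]
    congr 1
    rw [sum_comm]
    symm
    refine sum_subset (fun x hx => ?_) (fun k hk hk' => ?_)
    · rw [mem_Ioc] at hx ⊢
      omega
    · refine sum_eq_zero fun h hh => hf h k ?_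
      rw [mem_Ioc] at hk hk' hh
      have e1 : s + 1 ≤ k := by omega
      have e2 : s + 1 ≤ h := by omega
      calc N < (s + 1) ^ 2 := hs
        _ = (s + 1) * (s + 1) := by ring
        _ ≤ h * k := Nat.mul_le_mul e2 e1
  · by_contra h
    exact hx (hf x.1 x.2 (by omega))

/-- one variable -/
theorem tws_inner : ∃ c C : ℝ, 0 < c ∧ c ≤ 1 ∧ 1 ≤ C ∧
    ∀ (T K t B : ℝ) (m s0 : ℕ) (g : ℕ → ℂ), 4000 ^ 24 ≤ T → T ^ (3 / 10 : ℝ) ≤ K → K ≤ T →
    T ≤ t → t ≤ 2 * T → 1 ≤ B → 1 ≤ m → (m : ℝ) ^ 2 ≤ K → (∀ n, ‖g n‖ ≤ B) →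
    (∀ n, g n ≠ 0 → K / 2000 ≤ (m : ℝ) * n ∧ (m : ℝ) * n ≤ K) →
    (∀ J, ∑ n ∈ range J, ‖g (n + 1) - g n‖ ≤ B) →
    ‖∑ n ∈ Ioc s0 ⌊K⌋₊, g n * (-1) ^ (m * n) * ee (-zph (m * n) t)‖ ≤
      B * C * (K / m * K ^ (-(c / 2))) * (1 + K ^ (3 / 2 : ℝ) * T ^ (-1 / 2 : ℝ)) := by
  obtain ⟨c, C, hc0, hc1, hC, h2⟩ := te2 6 4000 (by norm_num) (by norm_num)
  refine ⟨c, 3 * C, hc0, hc1, by linarith, ?_⟩
  intro T K t B m s0 g hT hK1 hK2 ht1 ht2 hB hm hmK hgB hgs hgv
  have hT0 : 0 < T := lt_of_lt_of_le (by norm_num) hT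
  have hT1 : 1 ≤ T := le_trans (by norm_num) hT
  have hK4000 : (4000 : ℝ) ^ 6 ≤ K := by
    refine le_trans ?_ hK1
    have e1 : ((4000 : ℝ) ^ 20) ^ (3 / 10 : ℝ) ≤ T ^ (3 / 10 : ℝ) :=
      Real.rpow_le_rpow (by positivity) (le_trans (by norm_num) hT) (by norm_num)
    refine le_trans (le_of_eq ?_) e1
    rw [← Real.rpow_natCast, ← Real.rpow_natCast, ← Real.rpow_mul (by norm_num)]
    norm_num
  have hK0 : 0 < K := lt_of_lt_of_le (by norm_num) hK4000
  have hK1' : 1 ≤ K := le_trans (by norm_num) hK4000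
  have hm0 : (0 : ℝ) < m := by exact_mod_cast hm
  have hm1 : (1 : ℝ) ≤ m := by exact_mod_cast hm
  have hmq : (m : ℝ) ≤ Real.sqrt K := Real.le_sqrt_of_sq_le hmK
  have hq0 : 0 < Real.sqrt K := Real.sqrt_pos.2 hK0
  have hqq : Real.sqrt K * Real.sqrt K = K := Real.mul_self_sqrt hK0.le
  have hKm : Real.sqrt K ≤ K / m := by
    rw [le_div_iff₀ hm0]
    calc Real.sqrt K * m ≤ Real.sqrt K * Real.sqrt K := mul_le_mul_of_nonneg_left hmq hq0.le
      _ = K := hqq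
  have hqbig : (4000 : ℝ) ^ 3 ≤ Real.sqrt K := by
    apply Real.le_sqrt_of_sq_le
    calc ((4000 : ℝ) ^ 3) ^ 2 = 4000 ^ 6 := by ring
      _ ≤ K := hK4000
  set P : ℝ := K / (4000 * m) with hP
  have hP0 : 0 < P := by positivity
  have hmP : (m : ℝ) * P = K / 4000 := by
    rw [hP]
    field_simp
  have hPq : Real.sqrt K / 4000 ≤ P := by
    rw [hP, show K / (4000 * (m : ℝ)) = K / m / 4000 by field_simp]
    exact div_le_div_of_nonneg_right hKm (by norm_num)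
  have hP1 : 1 ≤ P := by
    refine le_trans ?_ hPq
    rw [le_div_iff₀ (by norm_num)]
    refine le_trans ?_ hqbig
    norm_num
  set τ : ℝ := t / (2 * Real.pi) with hτ
  have hπ3 := Real.pi_gt_three
  have hπ4 := Real.pi_le_four
  have hτ1 : T / 9 ≤ τ := by
    rw [hτ, div_le_div_iff₀ (by norm_num) (by positivity)]
    have h0 : Real.pi < 3.15 := Real.pi_lt_d2
    nlinarith
  have hτ2 : τ ≤ T := by
    rw [hτ, div_le_iff₀ (by positivity)]
    nlinarith
  have hτ0 : 0 < τ := by linarith [div_pos hT0 (by norm_num : (0 : ℝ) < 9)]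
  -- the interval
  set a : ℕ := ⌈K / (2000 * m)⌉₊ - 1 with ha
  set b : ℕ := ⌊K / m⌋₊ with hb
  have hx2 : (2 : ℝ) ≤ K / (2000 * m) := by
    have e1 : K / (2000 * m) = 2 * P := by
      rw [hP]
      field_simp
      norm_num
    linarith
  have hceil : 1 ≤ ⌈K / (2000 * m)⌉₊ := Nat.one_le_iff_ne_zero.2 (Nat.ceil_pos.2 (by linarith)).ne'
  have haR : (a : ℝ) = (⌈K / (2000 * m)⌉₊ : ℝ) - 1 := by
    rw [ha, Nat.cast_sub hceil, Nat.cast_one]
  have hPa : P ≤ a := by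
    have e1 : K / (2000 * m) = 2 * P := by
      rw [hP]
      field_simp
      norm_num
    have e2 : K / (2000 * m) ≤ (⌈K / (2000 * m)⌉₊ : ℝ) := Nat.le_ceil _
    rw [haR]
    linarith
  have hbR : (b : ℝ) ≤ 4000 * P := by
    have e1 : (b : ℝ) ≤ K / m := Nat.floor_le (by positivity)
    refine e1.trans (le_of_eq ?_)
    rw [hP]
    field_simp
  have hbN : b ≤ ⌊K⌋₊ := Nat.floor_le_floor (div_le_self hK0.le hm1)
  -- the support
  have hsupp : ∀ n, g n ≠ 0 → a < n ∧ n ≤ b := by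
    intro n hn
    obtain ⟨e1, e2⟩ := hgs n hn
    constructor
    · have e3 : K / (2000 * m) ≤ n := by
        rw [div_le_iff₀ (by positivity)]
        nlinarith
      have e4 : ⌈K / (2000 * m)⌉₊ ≤ n := Nat.ceil_le.2 e3
      omega
    · refine Nat.le_floor ?_
      rw [le_div_iff₀ hm0]
      linarith
  set a' : ℕ := max a s0 with ha'
  have hsum : ∑ n ∈ Ioc s0 ⌊K⌋₊, g n * (-1) ^ (m * n) * ee (-zph (m * n) t) =
      ∑ n ∈ Ioc a' b, g n * (-1) ^ (m * n) * ee (-zph (m * n) t) := by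
    symm
    refine sum_subset (fun n hn => ?_) (fun n hn hn' => ?_)
    · rw [mem_Ioc] at hn ⊢
      omega
    · have e1 : g n = 0 := by
        by_contra h
        have e2 := hsupp n h
        rw [mem_Ioc] at hn hn'
        omega
      rw [e1, zero_mul, zero_mul]
  have hWpos : 0 ≤ K ^ (3 / 2 : ℝ) * T ^ (-1 / 2 : ℝ) := by positivity
  have hRHS : 0 ≤ B * (3 * C) * (K / m * K ^ (-(c / 2))) * (1 + K ^ (3 / 2 : ℝ) * T ^ (-1 / 2 : ℝ)) := by
    positivity
  rw [hsum]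
  by_cases hab : a' ≤ b
  swap
  · rw [Ioc_eq_empty (by omega), sum_empty, norm_zero]
    exact hRHS
  have hPa' : P ≤ (a' : ℝ) := hPa.trans (by exact_mod_cast le_max_left _ _)
  have hB0 : 0 < B := by linarith
  have hBC : ((B : ℝ) : ℂ) ≠ 0 := by exact_mod_cast hB0.ne'
  have hkey := h2 a' b m P τ 1 (fun n => g n / (B : ℂ)) hP1 hPa' hab hbR hm hτ0 ?_ ?_ ?_ ?_
  · have e1 : ∑ n ∈ Ioc a' b, g n * (-1) ^ (m * n) * ee (-zph (m * n) t) =
        (B : ℂ) * ∑ n ∈ Ioc a' b, (fun n => g n / (B : ℂ)) n * (-1) ^ (m * n) *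
          ee (-(2 * Real.sqrt (((m * n : ℕ) : ℝ) * (τ + ((m * n : ℕ) : ℝ) / 12)))) := by
      rw [mul_sum]
      refine sum_congr rfl fun n _ => ?_
      simp only
      rw [← mul_assoc, ← mul_assoc, mul_div_cancel₀ _ hBC]
      rfl
    rw [e1, norm_mul, Complex.norm_real, Real.norm_eq_abs, abs_of_pos hB0]
    have e2 : (m * P) ^ (3 / 2 : ℝ) / τ ^ (1 / 2 : ℝ) ≤ 3 * (K ^ (3 / 2 : ℝ) * T ^ (-1 / 2 : ℝ)) := by
      rw [hmP]
      have e3 : (K / 4000) ^ (3 / 2 : ℝ) ≤ K ^ (3 / 2 : ℝ) :=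
        Real.rpow_le_rpow (by positivity) (div_le_self hK0.le (by norm_num)) (by norm_num)
      have e4 : T ^ (1 / 2 : ℝ) / 3 ≤ τ ^ (1 / 2 : ℝ) := by
        have e5 : (T / 9) ^ (1 / 2 : ℝ) ≤ τ ^ (1 / 2 : ℝ) :=
          Real.rpow_le_rpow (by positivity) hτ1 (by norm_num)
        refine le_trans (le_of_eq ?_) e5
        rw [Real.div_rpow hT0.le (by norm_num), show (9 : ℝ) = 3 ^ (2 : ℝ) by norm_num,
          ← Real.rpow_mul (by norm_num)]
        norm_num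
      have e6 : 0 < T ^ (1 / 2 : ℝ) := Real.rpow_pos_of_pos hT0 _
      calc (K / 4000) ^ (3 / 2 : ℝ) / τ ^ (1 / 2 : ℝ)
          ≤ K ^ (3 / 2 : ℝ) / (T ^ (1 / 2 : ℝ) / 3) :=
            div_le_div₀ (by positivity) e3 (by positivity) e4
        _ = 3 * (K ^ (3 / 2 : ℝ) * T ^ (-1 / 2 : ℝ)) := by
            rw [show (-1 / 2 : ℝ) = -(1 / 2) by norm_num, Real.rpow_neg hT0.le]
            field_simp
    have e3 : P ^ (1 - c) ≤ K / m * K ^ (-(c / 2)) := by
      have e4 : P ≤ K / m := by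
        rw [hP]
        refine div_le_div_of_nonneg_left hK0.le hm0 (by nlinarith)
      have e5 : P ^ (1 - c) ≤ (K / m) ^ (1 - c) := Real.rpow_le_rpow hP0.le e4 (by linarith)
      have e6 : (K / m) ^ (1 - c) = K / m * (K / m) ^ (-c) := by
        rw [sub_eq_add_neg, Real.rpow_add (by positivity), Real.rpow_one]
      have e7 : (K / m) ^ (-c) ≤ K ^ (-(c / 2)) := by
        have e8 : (K / m) ^ (-c) ≤ (Real.sqrt K) ^ (-c) :=
          Real.rpow_le_rpow_of_nonpos hq0 hKm (by linarith)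
        refine e8.trans (le_of_eq ?_)
        rw [Real.sqrt_eq_rpow, ← Real.rpow_mul hK0.le]
        congr 1
        ring
      rw [e6] at e5
      exact e5.trans (mul_le_mul_of_nonneg_left e7 (by positivity))
    calc B * ‖∑ n ∈ Ioc a' b, (fun n => g n / (B : ℂ)) n * (-1) ^ (m * n) *
          ee (-(2 * Real.sqrt (((m * n : ℕ) : ℝ) * (τ + ((m * n : ℕ) : ℝ) / 12))))‖
        ≤ B * (C * P ^ (1 - c) * (1 + 1 + (m * P) ^ (3 / 2 : ℝ) / τ ^ (1 / 2 : ℝ))) :=
          mul_le_mul_of_nonneg_left hkey hB0.le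
      _ ≤ B * (C * (K / m * K ^ (-(c / 2))) * (3 * (1 + K ^ (3 / 2 : ℝ) * T ^ (-1 / 2 : ℝ)))) := by
          refine mul_le_mul_of_nonneg_left ?_ hB0.le
          refine mul_le_mul (mul_le_mul_of_nonneg_left e3 (by linarith)) (by linarith)
            (by positivity) (by positivity)
      _ = B * (3 * C) * (K / m * K ^ (-(c / 2))) * (1 + K ^ (3 / 2 : ℝ) * T ^ (-1 / 2 : ℝ)) := by
          ring
  · -- P ≤ 2 √(m τ P)
    have e1 : P / 2 ≤ Real.sqrt (m * τ * P) := by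
      apply Real.le_sqrt_of_sq_le
      have e2 : P ≤ m * τ := by
        have e3 : P ≤ K / 4000 := by
          rw [hP]
          exact div_le_div_of_nonneg_left hK0.le (by norm_num) (by nlinarith)
        have e4 : τ ≤ m * τ := by nlinarith
        linarith
      nlinarith
    linarith
  · -- 2 √(m τ P) ≤ P ^ 6
    have e0 : P ^ (6 : ℝ) = P ^ (6 : ℕ) := by
      rw [← Real.rpow_natCast]
      norm_num
    rw [e0]
    have e1 : (m : ℝ) * τ * P = τ * (K / 4000) := by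
      rw [← hmP]
      ring
    rw [e1]
    have e2 : Real.sqrt (τ * (K / 4000)) ≤ P ^ 6 / 2 := by
      apply Real.sqrt_le_iff.2
      refine ⟨by positivity, ?_⟩
      have e3 : (Real.sqrt K / 4000) ^ 12 ≤ P ^ 12 := pow_le_pow_left₀ (by positivity) hPq 12
      have e4 : (Real.sqrt K / 4000) ^ 12 = K ^ 6 / 4000 ^ 12 := by
        rw [div_pow]
        congr 1
        calc Real.sqrt K ^ 12 = (Real.sqrt K * Real.sqrt K) ^ 6 := by ring
          _ = K ^ 6 := by rw [hqq]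
      have e5 : T * 4000 ^ 12 ≤ K ^ 5 := by
        have e6 : (T ^ (3 / 10 : ℝ)) ^ 5 ≤ K ^ 5 := pow_le_pow_left₀ (by positivity) hK1 5
        have e7 : (T ^ (3 / 10 : ℝ)) ^ 5 = T * T ^ (1 / 2 : ℝ) := by
          rw [← Real.rpow_natCast, ← Real.rpow_mul hT0.le]
          conv_rhs => rw [← Real.rpow_one T, ← Real.rpow_mul hT0.le, ← Real.rpow_add hT0]
          norm_num
        have e8 : (4000 : ℝ) ^ 12 ≤ T ^ (1 / 2 : ℝ) := by
          have e9 : ((4000 : ℝ) ^ 24) ^ (1 / 2 : ℝ) ≤ T ^ (1 / 2 : ℝ) :=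
            Real.rpow_le_rpow (by positivity) hT (by norm_num)
          refine le_trans (le_of_eq ?_) e9
          rw [← Real.rpow_natCast, ← Real.rpow_natCast, ← Real.rpow_mul (by norm_num)]
          norm_num
        rw [e7] at e6
        exact (mul_le_mul_of_nonneg_left e8 hT0.le).trans e6
      have e6 : T * K ≤ K ^ 6 / 4000 ^ 12 := by
        rw [le_div_iff₀ (by positivity)]
        calc T * K * 4000 ^ 12 = K * (T * 4000 ^ 12) := by ring
          _ ≤ K * K ^ 5 := mul_le_mul_of_nonneg_left e5 hK0.le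
          _ = K ^ 6 := by ring
      have e7 : τ * (K / 4000) ≤ T * K / 4000 := by
        rw [mul_div_assoc']
        exact div_le_div_of_nonneg_right (mul_le_mul_of_nonneg_right hτ2 hK0.le) (by norm_num)
      have e8 : 0 ≤ T * K := by positivity
      calc τ * (K / 4000) ≤ T * K / 4000 := e7
        _ ≤ T * K / 4 := by linarith
        _ ≤ K ^ 6 / 4000 ^ 12 / 4 := div_le_div_of_nonneg_right e6 (by norm_num)
        _ ≤ P ^ 12 / 4 := div_le_div_of_nonneg_right (e4 ▸ e3) (by norm_num)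
        _ = (P ^ 6 / 2) ^ 2 := by ring
    linarith
  · intro n _ _
    rw [norm_div, Complex.norm_real, Real.norm_eq_abs, abs_of_pos hB0, div_le_one hB0]
    exact hgB n
  · have e1 : ∀ n ∈ Ioo a' b, ‖(fun n => g n / (B : ℂ)) (n + 1) - (fun n => g n / (B : ℂ)) n‖ =
        ‖g (n + 1) - g n‖ / B := by
      intro n _
      simp only
      rw [← sub_div, norm_div, Complex.norm_real, Real.norm_eq_abs, abs_of_pos hB0]
    rw [sum_congr rfl e1, ← sum_div, div_le_one hB0]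
    refine le_trans (sum_le_sum_of_subset_of_nonneg (fun n hn => ?_) fun _ _ _ => norm_nonneg _)
      (hgv b)
    rw [mem_Ioo] at hn
    rw [mem_range]
    exact hn.2

end Pool.Agent.LibSX15
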