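import Pool.Agent.LibSX15.TWS1

/-! LibSX15, block TW (helper99): the top end of the structured sums, and `ZPX`. -/

set_option autoImplicit false

namespace Pool.Agent.LibSX15

open Finset

private theorem tws_harm (s : ℕ) (T : ℝ) (hs : (s : ℝ) ≤ T) (hT : 1 ≤ T) :
    ∑ m ∈ Ioc 0 s, (1 / (m : ℝ)) ≤ 1 + Real.log T := by
  have h1 : ∑ m ∈ Ioc 0 s, (1 / (m : ℝ)) = ((harmonic s : ℚ) : ℝ) := by
    rw [harmonic_eq_sum_Icc]
    push_cast
    refine sum_congr ?_ fun m _ => by rw [one_div]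
    ext x
    simp only [mem_Ioc, mem_Icc]
    omega
  rw [h1]
  refine (harmonic_le_one_add_log s).trans ?_
  rcases Nat.eq_zero_or_pos s with h0 | h0
  · rw [h0]
    simp only [Nat.cast_zero, Real.log_zero, add_zero]
    have := Real.log_nonneg hT
    linarith
  · have h2 : Real.log s ≤ Real.log T := Real.log_le_log (by exact_mod_cast h0) hs
    linarith

/-- the bound of the whole sum -/
private theorem tws_SS : ∃ c C : ℝ, 0 < c ∧ c ≤ 1 ∧ 1 ≤ C ∧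
    ∀ (T K B : ℝ) (cc : ℕ → ℝ → ℂ), 4000 ^ 24 ≤ T → T ^ (3 / 10 : ℝ) ≤ K → K ≤ T → 1 ≤ B →
    Str B T K cc → ∀ t ∈ Set.Icc T (2 * T),
    ‖SS K cc t‖ ≤ 2 * (B * C * (K * K ^ (-(c / 2))) * (1 + K ^ (3 / 2 : ℝ) * T ^ (-1 / 2 : ℝ)) *
      (1 + Real.log T)) := by
  obtain ⟨c, C, hc0, hc1, hC, h2⟩ := tws_inner
  refine ⟨c, C, hc0, hc1, hC, ?_⟩
  intro T K B cc hT hK1 hK2 hB hStr t ht
  obtain ⟨b, hb1, hb2⟩ := hStr
  obtain ⟨a1, a2, a3, a4⟩ := hb2 t ht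
  have hT0 : 0 < T := lt_of_lt_of_le (by norm_num) hT
  have hT1 : 1 ≤ T := le_trans (by norm_num) hT
  have hK0 : 0 < K := lt_of_lt_of_le (Real.rpow_pos_of_pos hT0 _) hK1
  have hK1' : 1 ≤ K := le_trans (Real.one_le_rpow hT1 (by norm_num)) hK1
  set N : ℕ := ⌊K⌋₊ with hN
  have hNK : (N : ℝ) ≤ K := Nat.floor_le hK0.le
  set s : ℕ := Nat.sqrt N with hs
  set f : ℕ → ℕ → ℂ := fun h k => b h k t * (-1) ^ (h * k) * ee (-zph (h * k) t) with hf
  have e1 : SS K cc t = ∑ n ∈ Icc 1 N, ∑ h ∈ n.divisors, f h (n / h) := by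
    unfold SS
    refine sum_congr rfl fun n hn => ?_
    rw [hb1, mul_sum, sum_mul]
    refine sum_congr rfl fun h hh => ?_
    have e2 : h * (n / h) = n := Nat.mul_div_cancel' (Nat.dvd_of_mem_divisors hh)
    simp only [hf, e2]
    ring
  have hf0 : ∀ h k, N < h * k → f h k = 0 := by
    intro h k hhk
    have e2 : b h k t = 0 := by
      by_contra h0
      have e3 := (a2 h k h0).2
      have e4 : h * k ≤ N := Nat.le_floor (by push_cast; exact e3)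
      omega
    simp only [hf, e2, zero_mul]
  have hss : s * s ≤ N := Nat.sqrt_le N
  have hsN : s ≤ N := Nat.sqrt_le_self N
  have hsN2 : N < (s + 1) ^ 2 := by
    have := Nat.lt_succ_sqrt N
    rw [pow_two]
    exact this
  rw [e1, tws_regroup N s hsN hsN2 f hf0]
  set D : ℝ := B * C * K ^ (-(c / 2)) * (1 + K ^ (3 / 2 : ℝ) * T ^ (-1 / 2 : ℝ)) with hD
  have hD0 : 0 ≤ D := by positivity
  have hmK : ∀ m ∈ Ioc 0 s, (m : ℝ) ^ 2 ≤ K := by
    intro m hm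
    rw [mem_Ioc] at hm
    have e2 : m * m ≤ N := (Nat.mul_le_mul hm.2 hm.2).trans hss
    have e3 : ((m * m : ℕ) : ℝ) ≤ N := by exact_mod_cast e2
    push_cast at e3
    calc (m : ℝ) ^ 2 = m * m := by ring
      _ ≤ N := e3
      _ ≤ K := hNK
  have hA : ∀ h ∈ Ioc 0 s, ‖∑ k ∈ Ioc 0 N, f h k‖ ≤ D * K * (1 / (h : ℝ)) := by
    intro h hh
    have hh1 : 1 ≤ h := by rw [mem_Ioc] at hh; omega
    have := h2 T K t B h 0 (fun k => b h k t) hT hK1 hK2 ht.1 ht.2 hB hh1 (hmK h hh) (fun n => a1 h n)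
      (fun n hn => a2 h n hn) (fun J => a3 h J)
    refine this.trans (le_of_eq ?_)
    rw [hD]
    ring
  have hB' : ∀ k ∈ Ioc 0 s, ‖∑ h ∈ Ioc s N, f h k‖ ≤ D * K * (1 / (k : ℝ)) := by
    intro k hk
    have hk1 : 1 ≤ k := by rw [mem_Ioc] at hk; omega
    have := h2 T K t B k s (fun h => b h k t) hT hK1 hK2 ht.1 ht.2 hB hk1 (hmK k hk) (fun n => a1 n k)
      (fun n hn => by
        have := a2 n k hn
        constructor
        · linarith [this.1, mul_comm (k : ℝ) n]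
        · linarith [this.2, mul_comm (k : ℝ) n]) (fun J => a4 k J)
    have e2 : ∑ h ∈ Ioc s N, f h k = ∑ n ∈ Ioc s ⌊K⌋₊, (fun h => b h k t) n * (-1) ^ (k * n) *
        ee (-zph (k * n) t) := by
      refine sum_congr rfl fun h _ => ?_
      simp only [hf, mul_comm h k]
    rw [e2]
    refine this.trans (le_of_eq ?_)
    rw [hD]
    ring
  have hH := tws_harm s T (le_trans (by exact_mod_cast hsN) (hNK.trans hK2)) hT1
  have hDK : 0 ≤ D * K := by positivity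
  have hS : ∀ F : ℕ → ℂ, (∀ m ∈ Ioc 0 s, ‖F m‖ ≤ D * K * (1 / (m : ℝ))) →
      ‖∑ m ∈ Ioc 0 s, F m‖ ≤ D * K * (1 + Real.log T) := by
    intro F hF
    refine (norm_sum_le _ _).trans ((sum_le_sum hF).trans ?_)
    rw [← mul_sum]
    exact mul_le_mul_of_nonneg_left hH hDK
  refine (norm_add_le _ _).trans ((add_le_add (hS _ hA) (hS _ hB')).trans (le_of_eq ?_))
  rw [hD]
  ring

theorem str_top : ∃ y0 η0 : ℝ, 0 < y0 ∧ y0 ≤ 1 / 30 ∧ 0 < η0 ∧
    ∀ B y η : ℝ, 1 ≤ B → 0 < y → y ≤ y0 → 0 < η → η ≤ η0 → ∃ T0 : ℝ, 3 ≤ T0 ∧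
    ∀ T : ℝ, T0 ≤ T → ∀ (K : ℝ) (cc : ℕ → ℝ → ℂ), Str B T K cc →
    T ^ (1 / 3 - y) ≤ K → K ≤ T ^ (1 / 3 + y) → ∀ t ∈ Set.Icc T (2 * T),
      ‖SS K cc t‖ ≤ (T * K) ^ (1 / 4 : ℝ) * T ^ (-η) := by
  obtain ⟨c, C, hc0, hc1, hC, h2⟩ := tws_SS
  refine ⟨c / 30, c / 20, by positivity, by linarith, by positivity, ?_⟩
  intro B y η hB hy hy1 hη hη1
  obtain ⟨T1, hT1, hL⟩ := as4b (8 * (B * C)) (c / 24) 1 (by positivity) (by positivity)
  refine ⟨max T1 (4000 ^ 24), le_max_of_le_left hT1, ?_⟩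
  intro T hT K cc hStr hK1 hK2 t ht
  have hTa : T1 ≤ T := (le_max_left _ _).trans hT
  have hTb : (4000 : ℝ) ^ 24 ≤ T := (le_max_right _ _).trans hT
  have hT0 : 0 < T := lt_of_lt_of_le (by norm_num) hTb
  have hT1' : 1 ≤ T := le_trans (by norm_num) hTb
  have hT3 : 3 ≤ T := le_trans (by norm_num) hTb
  have hK3 : T ^ (3 / 10 : ℝ) ≤ K := by
    refine le_trans (Real.rpow_le_rpow_of_exponent_le hT1' ?_) hK1
    linarith
  have hK0 : 0 < K := lt_of_lt_of_le (Real.rpow_pos_of_pos hT0 _) hK1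
  have hKT : K ≤ T := by
    refine hK2.trans ?_
    calc T ^ (1 / 3 + y) ≤ T ^ (1 : ℝ) := Real.rpow_le_rpow_of_exponent_le hT1' (by linarith)
      _ = T := Real.rpow_one T
  have hlog1 : 1 ≤ Real.log T := by
    rw [Real.le_log_iff_exp_le hT0]
    exact (Real.exp_one_lt_three.le).trans hT3
  have hlog := hL T hTa
  rw [pow_one] at hlog
  refine (h2 T K B cc hTb hK3 hKT hB hStr t ht).trans ?_
  -- the powers
  have p1 : K * K ^ (-(c / 2)) ≤ K ^ (1 / 4 : ℝ) * T ^ ((1 / 3 + y) * (3 / 4 - c / 2)) := by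
    have e1 : K * K ^ (-(c / 2)) = K ^ (1 / 4 : ℝ) * K ^ (3 / 4 - c / 2) := by
      rw [← Real.rpow_add hK0]
      conv_lhs => rw [← Real.rpow_one K, ← Real.rpow_mul hK0.le, ← Real.rpow_add hK0]
      congr 1
      ring
    rw [e1]
    refine mul_le_mul_of_nonneg_left ?_ (by positivity)
    have e2 : K ^ (3 / 4 - c / 2) ≤ (T ^ (1 / 3 + y)) ^ (3 / 4 - c / 2) :=
      Real.rpow_le_rpow hK0.le hK2 (by linarith)
    refine e2.trans (le_of_eq ?_)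
    rw [← Real.rpow_mul hT0.le]
  have p2 : 1 + K ^ (3 / 2 : ℝ) * T ^ (-1 / 2 : ℝ) ≤ 2 * T ^ (3 * y / 2) := by
    have e1 : K ^ (3 / 2 : ℝ) ≤ (T ^ (1 / 3 + y)) ^ (3 / 2 : ℝ) :=
      Real.rpow_le_rpow hK0.le hK2 (by norm_num)
    have e2 : K ^ (3 / 2 : ℝ) * T ^ (-1 / 2 : ℝ) ≤ T ^ (3 * y / 2) := by
      refine (mul_le_mul_of_nonneg_right e1 (by positivity)).trans (le_of_eq ?_)
      rw [← Real.rpow_mul hT0.le, ← Real.rpow_add hT0]
      congr 1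
      ring
    have e3 : 1 ≤ T ^ (3 * y / 2) := Real.one_le_rpow hT1' (by positivity)
    linarith
  have p3 : 1 + Real.log T ≤ 2 * Real.log T := by linarith
  have hfin : 2 * (B * C * (K * K ^ (-(c / 2))) * (1 + K ^ (3 / 2 : ℝ) * T ^ (-1 / 2 : ℝ)) *
      (1 + Real.log T)) ≤
      2 * (B * C * (K ^ (1 / 4 : ℝ) * T ^ ((1 / 3 + y) * (3 / 4 - c / 2))) * (2 * T ^ (3 * y / 2)) *
        (2 * Real.log T)) := by
    have hBC : 0 ≤ B * C := by positivity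
    refine mul_le_mul_of_nonneg_left ?_ (by norm_num)
    refine mul_le_mul (mul_le_mul (mul_le_mul_of_nonneg_left p1 hBC) p2 (by positivity) (by positivity)) p3
      (by linarith) (by positivity)
  refine hfin.trans ?_
  have q1 : (T * K) ^ (1 / 4 : ℝ) = T ^ (1 / 4 : ℝ) * K ^ (1 / 4 : ℝ) := Real.mul_rpow hT0.le hK0.le
  rw [q1]
  have q2 : 2 * (B * C * (K ^ (1 / 4 : ℝ) * T ^ ((1 / 3 + y) * (3 / 4 - c / 2))) * (2 * T ^ (3 * y / 2)) *
        (2 * Real.log T)) =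
      (8 * (B * C) * Real.log T) * T ^ ((1 / 3 + y) * (3 / 4 - c / 2)) * T ^ (3 * y / 2) * K ^ (1 / 4 : ℝ) := by
    ring
  rw [q2]
  have q3 : (8 * (B * C) * Real.log T) * T ^ ((1 / 3 + y) * (3 / 4 - c / 2)) * T ^ (3 * y / 2) ≤
      T ^ (1 / 4 : ℝ) * T ^ (-η) := by
    have e1 : (8 * (B * C) * Real.log T) * T ^ ((1 / 3 + y) * (3 / 4 - c / 2)) * T ^ (3 * y / 2) ≤
        T ^ (c / 24) * T ^ ((1 / 3 + y) * (3 / 4 - c / 2)) * T ^ (3 * y / 2) :=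
      mul_le_mul_of_nonneg_right (mul_le_mul_of_nonneg_right hlog (by positivity)) (by positivity)
    refine e1.trans ?_
    rw [← Real.rpow_add hT0, ← Real.rpow_add hT0, ← Real.rpow_add hT0]
    refine Real.rpow_le_rpow_of_exponent_le hT1' ?_
    nlinarith [mul_pos hy hc0]
  calc (8 * (B * C) * Real.log T) * T ^ ((1 / 3 + y) * (3 / 4 - c / 2)) * T ^ (3 * y / 2) * K ^ (1 / 4 : ℝ)
      ≤ T ^ (1 / 4 : ℝ) * T ^ (-η) * K ^ (1 / 4 : ℝ) := mul_le_mul_of_nonneg_right q3 (by positivity)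
    _ = T ^ (1 / 4 : ℝ) * K ^ (1 / 4 : ℝ) * T ^ (-η) := by ring

end Pool.Agent.LibSX15
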