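import Pool.Agent.LibSX15.ZBDefs

/-!
Row ZB1 (only Mathlib). Smoothness of `phf`, `sgf`, `lgf` on the whole line (`lgf`: for `x > -1`).

PLAN: let `R5 z = (e^z - ∑_{m<5} z^m/m!)/z^5` (value `1/120` at `0`). `R5` is smooth: 5 times `dslope` of `Real.exp` at `0`
(`HasFPowerSeriesAt.has_fpower_series_iterate_dslope_fslope`; away from `0` it is a quotient of smooth functions), or a power series
with infinite radius, or `R5 z = ∫_0^1 (1-s)^4/4! e^(s z) ds`. Then `E z = (e^z-1)/z = 1 + z/2 + z²/6 + z³/24 + z⁴ R5 z` is smooth and positive, `phf = 1/E`, and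
`sgf z = (p z - (1 - z/2 + z²/12) R5 z) / E z` where `p` is the polynomial `(1 - (1 - z/2 + z²/12)(1 + z/2 + z²/6 + z³/24))/z⁴`
`= -(1/144 - 1/48) z⁰ - z/288` (check: the coefficients of `z, z², z³` vanish: `1/6-1/4+1/12 = 0`, `1/24-1/12+1/24 = 0`; `z⁴`-coefficient of the product is
`-1/48+1/72 = -1/144`, `z⁵`-coefficient `1/288`; so `p z = 1/144 - z/288`), value `sgf 0 = 1/144 - 1/120 = -1/720`.
`lgf`: `dslope Real.log 1 (1+x)`, or `∫_0^1 1/(1+s x) ds`.
`phf_neg`: `-z/(e^{-z}-1) = z e^z/(e^z-1) = z/(e^z-1) + z`. `phf_near`: for `z > 0`: `1 - z ≤ e^{-z} ≤ z/(e^z-1) ≤ 1` (`e^z - 1 ≥ z` and `1 - e^{-z} ≤ z`), for `z < 0` use `phf_neg`.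
-/

set_option autoImplicit false

namespace Pool.Agent.LibSX15

open Filter Topology

private theorem zb1_dslope {f : ℝ → ℝ} (h0 : AnalyticAt ℝ f 0) {x : ℝ} (hx : AnalyticAt ℝ f x) :
    AnalyticAt ℝ (dslope f 0) x := by
  rcases eq_or_ne x 0 with rfl | hne
  · obtain ⟨p, hp⟩ := h0
    exact ⟨_, hp.has_fpower_series_dslope_fslope⟩
  · have h1 : AnalyticAt ℝ (slope f 0) x := by
      have h2 : slope f 0 = fun y => (y - 0)⁻¹ * (f y - f 0) := by
        funext y
        simp [slope, vsub_eq_sub]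
      rw [h2]
      refine AnalyticAt.mul (AnalyticAt.inv (analyticAt_id.sub analyticAt_const) ?_)
        (hx.sub analyticAt_const)
      simpa using hne
    exact h1.congr (dslope_eventuallyEq_slope_of_ne f hne).symm

/-- the iterated difference quotients of `exp` at `0` -/
private noncomputable def zb1_R (k : ℕ) : ℝ → ℝ := (Function.swap dslope 0)^[k] Real.exp

private theorem zb1_R_succ (k : ℕ) : zb1_R (k + 1) = dslope (zb1_R k) 0 := by
  unfold zb1_R
  rw [Function.iterate_succ_apply']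

private theorem zb1_R_an (k : ℕ) : ∀ x, AnalyticAt ℝ (zb1_R k) x := by
  induction k with
  | zero => intro x; exact analyticAt_rexp
  | succ k ih => intro x; rw [zb1_R_succ]; exact zb1_dslope (ih 0) (ih x)

private theorem zb1_R_zero (k : ℕ) : zb1_R k 0 = 1 / (k.factorial : ℝ) := by
  have h1 : HasFPowerSeriesAt Real.exp (FormalMultilinearSeries.ofScalars ℝ
      (fun n ↦ iteratedDeriv n Real.exp 0 / n.factorial)) 0 := analyticAt_rexp.hasFPowerSeriesAt
  have h2 := h1.has_fpower_series_iterate_dslope_fslope k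
  have h3 := h2.coeff_zero 1
  have h4 : zb1_R k 0 = (Function.swap dslope (0:ℝ))^[k] Real.exp 0 := rfl
  rw [h4, ← h3, ← FormalMultilinearSeries.coeff, FormalMultilinearSeries.coeff_iterate_fslope,
    zero_add, FormalMultilinearSeries.coeff_ofScalars, iteratedDeriv_eq_iterate, Real.iter_deriv_exp,
    Real.exp_zero]

private theorem zb1_R_rec (k : ℕ) (z : ℝ) : zb1_R k z = 1 / (k.factorial : ℝ) + z * zb1_R (k + 1) z := by
  have h1 := sub_smul_dslope (zb1_R k) 0 z
  rw [← zb1_R_succ, zb1_R_zero, sub_zero, smul_eq_mul] at h1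
  linarith

private theorem zb1_exp (z : ℝ) : Real.exp z = 1 + z * zb1_R 1 z := by
  have h1 := zb1_R_rec 0 z
  have h2 : zb1_R 0 z = Real.exp z := rfl
  rw [h2] at h1
  simpa using h1

private theorem zb1_E (z : ℝ) : zb1_R 1 z = 1 + z / 2 + z ^ 2 / 6 + z ^ 3 / 24 + z ^ 4 * zb1_R 5 z := by
  have h1 := zb1_R_rec 1 z
  have h2 := zb1_R_rec 2 z
  have h3 := zb1_R_rec 3 z
  have h4 := zb1_R_rec 4 z
  norm_num [Nat.factorial] at h1 h2 h3 h4
  rw [h1, h2, h3, h4]
  ring

private theorem zb1_R1_pos (z : ℝ) : 0 < zb1_R 1 z := by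
  rcases lt_trichotomy z 0 with h | h | h
  · have h1 := zb1_exp z
    have h2 : Real.exp z < 1 := Real.exp_lt_one_iff.2 h
    by_contra h3
    push Not at h3
    nlinarith [mul_nonneg_of_nonpos_of_nonpos h.le h3]
  · rw [h, zb1_R_zero]; norm_num
  · have h1 := zb1_exp z
    have h2 : 1 < Real.exp z := Real.one_lt_exp_iff.2 h
    by_contra h3
    push Not at h3
    nlinarith [mul_nonpos_of_nonneg_of_nonpos h.le h3]

private theorem zb1_phf (z : ℝ) : phf z = (zb1_R 1 z)⁻¹ := by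
  unfold phf
  split_ifs with h
  · rw [h, zb1_R_zero]; norm_num
  · have h1 := zb1_exp z
    have h2 : Real.exp z - 1 = z * zb1_R 1 z := by linarith
    have h3 := (zb1_R1_pos z).ne'
    rw [h2]
    field_simp

private theorem zb1_cd {f : ℝ → ℝ} (h : ∀ x, AnalyticAt ℝ f x) : ContDiff ℝ (⊤ : ℕ∞) f :=
  contDiff_iff_contDiffAt.2 fun x => (h x).contDiffAt

private theorem zb1_sgf (z : ℝ) : sgf z =
    (1 / 144 - z / 288 - (1 - z / 2 + z ^ 2 / 12) * zb1_R 5 z) * (zb1_R 1 z)⁻¹ := by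
  unfold sgf
  split_ifs with h
  · rw [h, zb1_R_zero, zb1_R_zero]
    norm_num [Nat.factorial]
  · have h1 : z / (Real.exp z - 1) = (zb1_R 1 z)⁻¹ := by
      have := zb1_phf z
      unfold phf at this
      rwa [if_neg h] at this
    have h3 := (zb1_R1_pos z).ne'
    have h4 := zb1_E z
    rw [h1, div_eq_iff (pow_ne_zero 4 h)]
    have h5 : (zb1_R 1 z)⁻¹ * zb1_R 1 z = 1 := inv_mul_cancel₀ h3
    have h6 : ((zb1_R 1 z)⁻¹ - 1 + z / 2 - z ^ 2 / 12) * zb1_R 1 z =
        ((1 / 144 - z / 288 - (1 - z / 2 + z ^ 2 / 12) * zb1_R 5 z) * (zb1_R 1 z)⁻¹ * z ^ 4) *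
          zb1_R 1 z := by
      have e1 : ((zb1_R 1 z)⁻¹ - 1 + z / 2 - z ^ 2 / 12) * zb1_R 1 z =
          1 - (1 - z / 2 + z ^ 2 / 12) * zb1_R 1 z := by
        rw [sub_mul, add_mul, sub_mul, h5]; ring
      have e2 : ((1 / 144 - z / 288 - (1 - z / 2 + z ^ 2 / 12) * zb1_R 5 z) * (zb1_R 1 z)⁻¹ * z ^ 4) *
          zb1_R 1 z = (1 / 144 - z / 288 - (1 - z / 2 + z ^ 2 / 12) * zb1_R 5 z) * z ^ 4 := by
        calc _ = (1 / 144 - z / 288 - (1 - z / 2 + z ^ 2 / 12) * zb1_R 5 z) * z ^ 4 *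
              ((zb1_R 1 z)⁻¹ * zb1_R 1 z) := by ring
          _ = _ := by rw [h5, mul_one]
      rw [e1, e2, h4]
      ring
    exact mul_right_cancel₀ h3 h6

theorem phf_smooth : ContDiff ℝ (⊤ : ℕ∞) phf := by
  have h1 : phf = fun z => (zb1_R 1 z)⁻¹ := funext zb1_phf
  rw [h1]
  exact zb1_cd fun x => (zb1_R_an 1 x).inv (zb1_R1_pos x).ne'

theorem sgf_smooth : ContDiff ℝ (⊤ : ℕ∞) sgf := by
  have h1 : sgf = fun z => (1 / 144 - z / 288 - (1 - z / 2 + z ^ 2 / 12) * zb1_R 5 z) *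
      (zb1_R 1 z)⁻¹ := funext zb1_sgf
  rw [h1]
  have hR1 := zb1_cd fun x => (zb1_R_an 1 x).inv (zb1_R1_pos x).ne'
  have hR5 := zb1_cd (zb1_R_an 5)
  refine ContDiff.mul (ContDiff.sub ?_ (ContDiff.mul ?_ hR5)) hR1
  · fun_prop
  · fun_prop

theorem lgf_smooth (x : ℝ) (hx : -1 < x) : ContDiffAt ℝ (⊤ : ℕ∞) lgf x := by
  have hlog : ∀ y : ℝ, -1 < y → AnalyticAt ℝ (fun x : ℝ => Real.log (1 + x)) y := by
    intro y hy
    exact AnalyticAt.log (analyticAt_const.add analyticAt_id) (show (0:ℝ) < 1 + y by linarith)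
  have h1 : lgf = dslope (fun x : ℝ => Real.log (1 + x)) 0 := by
    funext y
    unfold lgf
    split_ifs with h
    · rw [h, dslope_same]
      have h2 : HasDerivAt (fun x : ℝ => Real.log (1 + x)) (1 / (1 + 0)) 0 := by
        have h3 : HasDerivAt (fun x : ℝ => 1 + x) 1 0 := (hasDerivAt_id (0:ℝ)).const_add 1
        exact h3.log (by norm_num)
      rw [h2.deriv]; norm_num
    · rw [dslope_of_ne _ h]
      simp [slope, vsub_eq_sub]
      field_simp
  rw [h1]
  exact (zb1_dslope (hlog 0 (by norm_num)) (hlog x hx)).contDiffAt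

theorem phf_eq (z : ℝ) : phf z = 1 - z / 2 + z ^ 2 / 12 + z ^ 4 * sgf z := by
  unfold phf sgf
  split_ifs with h
  · rw [h]; norm_num
  · rw [mul_div_cancel₀ _ (pow_ne_zero 4 h)]
    ring

theorem phf_neg (z : ℝ) : phf (-z) = phf z + z := by
  unfold phf
  rcases eq_or_ne z 0 with h | h
  · simp [h]
  · rw [if_neg (neg_ne_zero.2 h), if_neg h, Real.exp_neg]
    have h1 : Real.exp z - 1 ≠ 0 := by
      rw [sub_ne_zero]
      intro h2
      exact h ((Real.exp_eq_one_iff z).1 h2)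
    have h2 : Real.exp z ≠ 0 := (Real.exp_pos z).ne'
    have h3 : (Real.exp z)⁻¹ - 1 = -(Real.exp z - 1) / Real.exp z := by
      field_simp
      ring
    rw [h3]
    field_simp
    ring

theorem phf_pos (z : ℝ) : 0 < phf z := by
  rw [zb1_phf]
  exact inv_pos.2 (zb1_R1_pos z)

theorem phf_le_one (z : ℝ) (hz : 0 ≤ z) : phf z ≤ 1 := by
  unfold phf
  split_ifs with h
  · exact le_rfl
  · have hz' : 0 < z := lt_of_le_of_ne hz (Ne.symm h)
    have h1 := Real.add_one_le_exp z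
    rw [div_le_one (by linarith)]
    linarith

private theorem zb1_ge (z : ℝ) (hz : 0 ≤ z) : 1 ≤ phf (-z) := by
  unfold phf
  split_ifs with h
  · exact le_rfl
  · have hz' : 0 < z := lt_of_le_of_ne hz (fun h' => h (by rw [← h']; simp))
    have h1 := Real.add_one_le_exp (-z)
    have h2 : Real.exp (-z) < 1 := Real.exp_lt_one_iff.2 (by linarith)
    have h3 : -z / (Real.exp (-z) - 1) = z / (1 - Real.exp (-z)) := by
      rw [← neg_div_neg_eq]
      congr 1 <;> ring
    rw [h3, one_le_div (by linarith)]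
    linarith

theorem phf_near (z : ℝ) : |phf z - 1| ≤ |z| := by
  rcases le_total 0 z with h | h
  · rw [abs_of_nonneg h, abs_le]
    have h1 := phf_le_one z h
    have h2 := zb1_ge z h
    rw [phf_neg] at h2
    constructor <;> linarith
  · obtain ⟨y, rfl⟩ : ∃ y, z = -y := ⟨-z, by ring⟩
    have hy : 0 ≤ y := by linarith
    rw [abs_neg, abs_of_nonneg hy, abs_le]
    have h1 := phf_le_one y hy
    have h2 := zb1_ge y hy
    constructor
    · linarith
    · rw [phf_neg]; linarith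

end Pool.Agent.LibSX15
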