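import Mathlib

/-!
Row ZB4 (only Mathlib). From joint smoothness to uniform bounds on compact sets.

PLAN `joint_bd`: `f1 q = fderiv ℝ f q (1, 0)`, `f2 q = fderiv ℝ f1 q (1, 0)`; on the open set `U` both are smooth (`ContDiffOn.fderiv_of_isOpen`, evaluation is linear and continuous);
`HasDerivAt (fun z => f (z, p)) (f1 (x, p)) x` = chain rule with `z ↦ (z, p)` (derivative `(1, 0)`), `HasFDerivAt.comp_hasDerivAt`. The norms are continuous on the compact `K`: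
`IsCompact.exists_bound_of_continuousOn`.
PLAN `joint_lip`: `‖fderiv‖` is bounded on the compact convex `K`; `Convex.norm_image_sub_le_of_norm_hasFDerivWithin_le` or `..._fderiv_le`.
-/

set_option autoImplicit false

namespace Pool.Agent.LibSX15

private theorem ZB4_top : ((⊤ : ℕ∞) : WithTop ℕ∞) + 1 ≤ ((⊤ : ℕ∞) : WithTop ℕ∞) := by simp

private theorem ZB4_f1 {P : Type} [NormedAddCommGroup P] [NormedSpace ℝ P] (f : ℝ × P → ℂ)
    (U : Set (ℝ × P)) (hU : IsOpen U) (hf : ContDiffOn ℝ (⊤ : ℕ∞) f U) :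
    ContDiffOn ℝ (⊤ : ℕ∞) (fun q => fderiv ℝ f q ((1 : ℝ), (0 : P))) U ∧
      ∀ x p, (x, p) ∈ U → HasDerivAt (fun z => f (z, p)) (fderiv ℝ f (x, p) ((1 : ℝ), (0 : P))) x := by
  refine ⟨(hf.fderiv_of_isOpen hU ZB4_top).clm_apply contDiffOn_const, fun x p hxp => ?_⟩
  have h1 : DifferentiableAt ℝ f (x, p) :=
    (hf.contDiffAt (hU.mem_nhds hxp)).differentiableAt (by simp)
  have h2 : HasDerivAt (fun z : ℝ => (z, p)) ((1 : ℝ), (0 : P)) x :=
    (hasDerivAt_id x).prodMk (hasDerivAt_const x p)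
  exact h1.hasFDerivAt.comp_hasDerivAt x h2

theorem joint_bd {P : Type} [NormedAddCommGroup P] [NormedSpace ℝ P] (f : ℝ × P → ℂ) (U : Set (ℝ × P))
    (hU : IsOpen U) (hf : ContDiffOn ℝ (⊤ : ℕ∞) f U) (K : Set (ℝ × P)) (hK : IsCompact K) (hKU : K ⊆ U) :
    ∃ (G : ℝ) (f1 f2 : ℝ × P → ℂ), 1 ≤ G ∧ ContinuousOn f1 U ∧ ContinuousOn f2 U ∧
      (∀ x p, (x, p) ∈ U → HasDerivAt (fun z => f (z, p)) (f1 (x, p)) x) ∧
      (∀ x p, (x, p) ∈ U → HasDerivAt (fun z => f1 (z, p)) (f2 (x, p)) x) ∧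
      ∀ q ∈ K, ‖f q‖ ≤ G ∧ ‖f1 q‖ ≤ G ∧ ‖f2 q‖ ≤ G := by
  obtain ⟨a1, a2⟩ := ZB4_f1 f U hU hf
  obtain ⟨b1, b2⟩ := ZB4_f1 _ U hU a1
  obtain ⟨C0, hC0⟩ := hK.exists_bound_of_continuousOn (hf.continuousOn.mono hKU)
  obtain ⟨C1, hC1⟩ := hK.exists_bound_of_continuousOn (a1.continuousOn.mono hKU)
  obtain ⟨C2, hC2⟩ := hK.exists_bound_of_continuousOn (b1.continuousOn.mono hKU)
  refine ⟨1 + |C0| + |C1| + |C2|, _, _, ?_, a1.continuousOn, b1.continuousOn, a2, b2, ?_⟩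
  · have h0 := abs_nonneg C0
    have h1 := abs_nonneg C1
    have h2 := abs_nonneg C2
    linarith
  · intro q hq
    have h0 := abs_nonneg C0
    have h1 := abs_nonneg C1
    have h2 := abs_nonneg C2
    refine ⟨?_, ?_, ?_⟩
    · exact (hC0 q hq).trans (by linarith [le_abs_self C0])
    · exact (hC1 q hq).trans (by linarith [le_abs_self C1])
    · exact (hC2 q hq).trans (by linarith [le_abs_self C2])

theorem joint_lip {E : Type} [NormedAddCommGroup E] [NormedSpace ℝ E] (f : E → ℂ) (U : Set E)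
    (hU : IsOpen U) (hf : ContDiffOn ℝ (⊤ : ℕ∞) f U) (K : Set E) (hK : IsCompact K) (hc : Convex ℝ K) (hKU : K ⊆ U) :
    ∃ G : ℝ, 1 ≤ G ∧ (∀ x ∈ K, ‖f x‖ ≤ G) ∧ ∀ x ∈ K, ∀ y ∈ K, ‖f x - f y‖ ≤ G * ‖x - y‖ := by
  have h1 : ContDiffOn ℝ (⊤ : ℕ∞) (fderiv ℝ f) U := hf.fderiv_of_isOpen hU ZB4_top
  obtain ⟨C0, hC0⟩ := hK.exists_bound_of_continuousOn (hf.continuousOn.mono hKU)
  obtain ⟨C1, hC1⟩ := hK.exists_bound_of_continuousOn (h1.continuousOn.mono hKU)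
  have e0 := abs_nonneg C0
  have e1 := abs_nonneg C1
  refine ⟨1 + |C0| + |C1|, by linarith, fun x hx => (hC0 x hx).trans (by linarith [le_abs_self C0]),
    fun x hx y hy => ?_⟩
  refine hc.norm_image_sub_le_of_norm_fderiv_le (𝕜 := ℝ) (fun z hz => ?_) (fun z hz => ?_) hy hx
  · exact (hf.contDiffAt (hU.mem_nhds (hKU hz))).differentiableAt (by simp)
  · exact (hC1 z hz).trans (by linarith [le_abs_self C1])

end Pool.Agent.LibSX15
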