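import Pool.Agent.LibSX15.ZB3
import Pool.Agent.LibSX15.ZB4

set_option autoImplicit false

namespace Pool.Agent.LibSX15

private theorem ZB10_et_sq {α τ Z : ℝ} (hα : 0 < α) (hτ : 0 < τ) (hZ : 0 < Z) :
    et α τ Z ^ 2 * (α * (τ + α * Z / 12)) = Z ∧ 0 ≤ et α τ Z := by
  have h1 : 0 < α * (τ + α * Z / 12) := by positivity
  constructor
  · unfold et
    rw [Real.sq_sqrt (by positivity)]
    field_simp
  · exact Real.sqrt_nonneg _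

private theorem ZB10_sp_norm {Z : ℝ} (hZ : 0 < Z) : ‖sp Z‖ = (2 * Z) ^ (-1 / 2 : ℝ) := by
  unfold sp
  have h1 : (1 / 2 : ℂ) = ((1 / 2 : ℝ) : ℂ) := by push_cast; ring
  rw [h1, Complex.norm_cpow_real, norm_div, norm_mul, Complex.norm_I, mul_one, norm_one,
    Complex.norm_real, Real.norm_of_nonneg (by positivity), one_div, ← Real.rpow_neg_one,
    ← Real.rpow_mul (by positivity)]
  congr 1
  norm_num

private theorem ZB10_sp_le {Z s : ℝ} (hs : 0 < s) (hZ : s / 7 ≤ Z) : ‖sp Z‖ ≤ 2 * s ^ (-1 / 2 : ℝ) := by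
  have hZ0 : 0 < Z := by linarith [div_pos hs (by norm_num : (0 : ℝ) < 7)]
  rw [ZB10_sp_norm hZ0]
  have h1 : s / 4 ≤ 2 * Z := by linarith
  calc (2 * Z) ^ (-1 / 2 : ℝ) ≤ (s / 4) ^ (-1 / 2 : ℝ) :=
        Real.rpow_le_rpow_of_nonpos (by positivity) h1 (by norm_num)
    _ = 2 * s ^ (-1 / 2 : ℝ) := by
        rw [Real.div_rpow hs.le (by norm_num)]
        have h2 : (4 : ℝ) ^ (-1 / 2 : ℝ) = 1 / 2 := by
          rw [show (4 : ℝ) = 2 ^ (2 : ℝ) by norm_num, ← Real.rpow_mul (by norm_num)]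
          norm_num
        rw [h2]
        ring

theorem cf_supp (ω W : ℝ → ℝ) (hω : Bump ω) (G α τ Z : ℝ) (hα : 0 < α) (hα2 : α ≤ 1 / 100) (hτ : 0 < τ)
    (hZ : 0 < Z) (h : cf ω W G α τ Z ≠ 0) : α * τ / 7 ≤ Z ∧ Z ≤ 5 * (α * τ) := by
  have h1 : ampA ω W (et α τ Z) α (G * α) (α ^ 4 * Z) ≠ 0 := by
    intro h0
    apply h
    unfold cf
    rw [h0, mul_zero]
  obtain ⟨h2, h3⟩ := ampA_supp ω W hω _ _ _ _ (by rw [abs_of_pos hα]; linarith) h1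
  obtain ⟨h4, h5⟩ := ZB10_et_sq hα hτ hZ
  have h6 : 4 / 25 ≤ et α τ Z ^ 2 := by nlinarith
  have h7 : et α τ Z ^ 2 ≤ 441 / 100 := by nlinarith
  have h8 : 0 < α * τ := by positivity
  have h9 : 0 ≤ α * (α * Z / 12) := by positivity
  have h10 : α * (α * Z / 12) ≤ Z / 120000 := by
    have : α * α ≤ 1 / 10000 := by nlinarith
    nlinarith
  have h11 : α * (τ + α * Z / 12) = α * τ + α * (α * Z / 12) := by ring
  rw [h11] at h4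
  constructor
  · nlinarith
  · nlinarith

private theorem ZB10_box (ω W : ℝ → ℝ) (hω : Bump ω) (hW : BumpW W) : ∃ C : ℝ, 1 ≤ C ∧
    (∀ η α β γ : ℝ, 1 / 10 ≤ η → η ≤ 10 → 0 ≤ α → α ≤ 1 / 100 → 0 ≤ β → β ≤ 7 → 0 ≤ γ → γ ≤ 1000000 →
      ‖ampA ω W η α β γ‖ ≤ C) ∧
    (∀ η η' α β γ : ℝ, 1 / 10 ≤ η → η ≤ 10 → 1 / 10 ≤ η' → η' ≤ 10 → 0 ≤ α → α ≤ 1 / 100 → 0 ≤ β →
      β ≤ 7 → 0 ≤ γ → γ ≤ 1000000 → ‖ampA ω W η α β γ - ampA ω W η' α β γ‖ ≤ C * |η - η'|) := by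
  have hU : IsOpen {p : ℝ × ℝ × ℝ × ℝ | |p.2.1| < 1 / 50} := by
    apply isOpen_lt
    · fun_prop
    · fun_prop
  obtain ⟨C, hC1, hC2, hC3⟩ := joint_lip (E := ℝ × ℝ × ℝ × ℝ)
    (fun p : ℝ × ℝ × ℝ × ℝ => ampA ω W p.1 p.2.1 p.2.2.1 p.2.2.2) {p | |p.2.1| < 1 / 50} hU
    (ampA_smooth ω W hω hW)
    (Set.Icc (1 / 10 : ℝ) 10 ×ˢ (Set.Icc (0 : ℝ) (1 / 100) ×ˢ (Set.Icc (0 : ℝ) 7 ×ˢ Set.Icc (0 : ℝ) 1000000)))
    (isCompact_Icc.prod (isCompact_Icc.prod (isCompact_Icc.prod isCompact_Icc)))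
    ((convex_Icc _ _).prod ((convex_Icc _ _).prod ((convex_Icc _ _).prod (convex_Icc _ _))))
    (by
      rintro ⟨p1, p2, p3, p4⟩ ⟨_, h2, _, _⟩
      simp only [Set.mem_Icc] at h2
      show |p2| < 1 / 50
      rw [abs_of_nonneg h2.1]
      linarith [h2.2])
  refine ⟨C, hC1, ?_, ?_⟩
  · intro η α β γ a1 a2 a3 a4 a5 a6 a7 a8
    exact hC2 (η, α, β, γ) ⟨⟨a1, a2⟩, ⟨a3, a4⟩, ⟨a5, a6⟩, ⟨a7, a8⟩⟩
  · intro η η' α β γ a1 a2 b1 b2 a3 a4 a5 a6 a7 a8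
    have := hC3 (η, α, β, γ) ⟨⟨a1, a2⟩, ⟨a3, a4⟩, ⟨a5, a6⟩, ⟨a7, a8⟩⟩ (η', α, β, γ)
      ⟨⟨b1, b2⟩, ⟨a3, a4⟩, ⟨a5, a6⟩, ⟨a7, a8⟩⟩
    refine this.trans (mul_le_mul_of_nonneg_left ?_ (by linarith))
    have e : ((η, α, β, γ) : ℝ × ℝ × ℝ × ℝ) - (η', α, β, γ) = (η - η', 0, 0, 0) := by
      simp only [Prod.mk_sub_mk, sub_self]
      rfl
    rw [e]
    simp only [Prod.norm_mk, norm_zero, Real.norm_eq_abs]
    simp

theorem cf_size (ω W : ℝ → ℝ) (hω : Bump ω) (hW : BumpW W) : ∃ C : ℝ, 1 ≤ C ∧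
    ∀ G α τ Z : ℝ, 0 < α → α ≤ 1 / 100 → 0 ≤ G → G * α ≤ 7 → 0 < τ → α ^ 5 * τ ≤ 100000 → 0 < Z →
    ‖cf ω W G α τ Z‖ ≤ C * (α * τ) ^ (-1 / 2 : ℝ) := by
  obtain ⟨C, hC1, hC2, -⟩ := ZB10_box ω W hω hW
  refine ⟨2 * C, by linarith, ?_⟩
  intro G α τ Z hα hα2 hG hGα hτ hατ hZ
  have hs : 0 < α * τ := by positivity
  by_cases h0 : cf ω W G α τ Z = 0
  · rw [h0, norm_zero]
    positivity
  obtain ⟨h1, h2⟩ := cf_supp ω W hω G α τ Z hα hα2 hτ hZ h0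
  have h3 : ampA ω W (et α τ Z) α (G * α) (α ^ 4 * Z) ≠ 0 := by
    intro h0'
    apply h0
    unfold cf
    rw [h0', mul_zero]
  obtain ⟨h4, h5⟩ := ampA_supp ω W hω _ _ _ _ (by rw [abs_of_pos hα]; linarith) h3
  have h6 : α ^ 4 * Z ≤ 1000000 := by
    calc α ^ 4 * Z ≤ α ^ 4 * (5 * (α * τ)) := mul_le_mul_of_nonneg_left h2 (by positivity)
      _ = 5 * (α ^ 5 * τ) := by ring
      _ ≤ 1000000 := by linarith
  have h7 := hC2 (et α τ Z) α (G * α) (α ^ 4 * Z) (by linarith) (by linarith) hα.le hα2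
    (by positivity) hGα (by positivity) h6
  have h8 := ZB10_sp_le hs h1
  unfold cf
  rw [norm_mul]
  calc ‖sp Z‖ * ‖ampA ω W (et α τ Z) α (G * α) (α ^ 4 * Z)‖
      ≤ (2 * (α * τ) ^ (-1 / 2 : ℝ)) * C := mul_le_mul h8 h7 (norm_nonneg _) (by positivity)
    _ = 2 * C * (α * τ) ^ (-1 / 2 : ℝ) := by ring

private theorem ZB10_et_box {α τ0 τ Z : ℝ} (hα : 0 < α) (hα2 : α ≤ 1 / 100) (hτ0 : 0 < τ0) (hZ : 0 < Z)
    (h1 : τ0 ≤ τ) (h2 : τ ≤ 2 * τ0) (hZ1 : α * τ0 / 7 ≤ Z) (hZ2 : Z ≤ 10 * (α * τ0)) :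
    1 / 10 ≤ et α τ Z ∧ et α τ Z ≤ 10 := by
  have hτ : 0 < τ := by linarith
  obtain ⟨h4, h5⟩ := ZB10_et_sq hα hτ hZ
  have h8 : 0 < α * τ0 := by positivity
  have h81 : α * τ0 ≤ α * τ := mul_le_mul_of_nonneg_left h1 hα.le
  have h82 : α * τ ≤ 2 * (α * τ0) := by nlinarith
  have h9 : 0 ≤ α * (α * Z / 12) := by positivity
  have h10 : α * (α * Z / 12) ≤ Z / 120000 := by
    have : α * α ≤ 1 / 10000 := by nlinarith
    nlinarith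
  have h11 : α * (τ + α * Z / 12) = α * τ + α * (α * Z / 12) := by ring
  rw [h11] at h4
  set B : ℝ := α * τ + α * (α * Z / 12) with hB
  have hB1 : α * τ0 ≤ B := by linarith
  have hB2 : B ≤ 3 * (α * τ0) := by linarith
  constructor
  · by_contra hlt
    push Not at hlt
    have : et α τ Z ^ 2 ≤ 1 / 100 := by nlinarith
    have h12 : et α τ Z ^ 2 * B ≤ 1 / 100 * (3 * (α * τ0)) :=
      mul_le_mul this hB2 (by linarith) (by norm_num)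
    linarith
  · by_contra hlt
    push Not at hlt
    have : 100 ≤ et α τ Z ^ 2 := by nlinarith
    have h12 : 100 * (α * τ0) ≤ et α τ Z ^ 2 * B :=
      mul_le_mul this hB1 h8.le (by positivity)
    linarith

private theorem ZB10_et_lip {α τ0 τ τ' Z : ℝ} (hα : 0 < α) (hα2 : α ≤ 1 / 100) (hτ0 : 0 < τ0) (hZ : 0 < Z)
    (h1 : τ0 ≤ τ) (h2 : τ ≤ 2 * τ0) (h1' : τ0 ≤ τ') (h2' : τ' ≤ 2 * τ0)
    (hZ1 : α * τ0 / 7 ≤ Z) (hZ2 : Z ≤ 10 * (α * τ0)) :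
    |et α τ Z - et α τ' Z| ≤ 100 * (|τ - τ'| / τ0) := by
  have hτ : 0 < τ := by linarith
  have hτ' : 0 < τ' := by linarith
  obtain ⟨h4, h5⟩ := ZB10_et_sq hα hτ hZ
  obtain ⟨h4', h5'⟩ := ZB10_et_sq hα hτ' hZ
  obtain ⟨b1, b2⟩ := ZB10_et_box hα hα2 hτ0 hZ h1 h2 hZ1 hZ2
  obtain ⟨c1, c2⟩ := ZB10_et_box hα hα2 hτ0 hZ h1' h2' hZ1 hZ2
  set x : ℝ := et α τ Z with hx
  set y : ℝ := et α τ' Z with hy
  -- (x^2 - y^2) * B * B' = Z * (B' - B)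
  set δ : ℝ := α * (α * Z / 12) with hδ
  have hδ0 : 0 ≤ δ := by positivity
  have e1 : α * (τ + α * Z / 12) = α * τ + δ := by rw [hδ]; ring
  have e2 : α * (τ' + α * Z / 12) = α * τ' + δ := by rw [hδ]; ring
  rw [e1] at h4
  rw [e2] at h4'
  have hs : 0 < α * τ0 := by positivity
  have k1 : α * τ0 ≤ α * τ + δ := by nlinarith
  have k2 : α * τ0 ≤ α * τ' + δ := by nlinarith
  have k3 : (x - y) * (x + y) * (α * τ + δ) = y ^ 2 * (α * (τ' - τ)) := by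
    linear_combination h4 - h4'
  have k4 : |x - y| * ((x + y) * (α * τ + δ)) = y ^ 2 * (α * |τ - τ'|) := by
    have h : |(x - y) * (x + y) * (α * τ + δ)| = |y ^ 2 * (α * (τ' - τ))| := by rw [k3]
    rw [abs_mul, abs_mul, abs_mul, abs_mul, abs_of_pos hα, abs_of_nonneg (sq_nonneg y),
      abs_of_nonneg (by linarith : 0 ≤ x + y), abs_of_nonneg (by linarith : 0 ≤ α * τ + δ),
      abs_sub_comm τ' τ] at h
    linarith
  -- y ^ 2 ≤ y * 10, x + y ≥ y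
  have k5 : |x - y| * (y * (α * τ0)) ≤ y ^ 2 * (α * |τ - τ'|) := by
    rw [← k4]
    refine mul_le_mul_of_nonneg_left ?_ (abs_nonneg _)
    exact mul_le_mul (by linarith) k1 hs.le (by linarith)
  have hy0 : 0 < y := by linarith
  have k6 : |x - y| * τ0 ≤ y * |τ - τ'| := by
    have h : (y * α) * (|x - y| * τ0) ≤ (y * α) * (y * |τ - τ'|) := by
      calc (y * α) * (|x - y| * τ0) = |x - y| * (y * (α * τ0)) := by ring
        _ ≤ y ^ 2 * (α * |τ - τ'|) := k5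
        _ = (y * α) * (y * |τ - τ'|) := by ring
    exact le_of_mul_le_mul_left h (by positivity)
  have k7 : |x - y| * τ0 ≤ 100 * |τ - τ'| := by
    refine k6.trans (mul_le_mul_of_nonneg_right (by linarith) (abs_nonneg _))
  rw [← mul_div_assoc, le_div_iff₀ hτ0]
  exact k7

theorem cf_lip (ω W : ℝ → ℝ) (hω : Bump ω) (hW : BumpW W) : ∃ C : ℝ, 1 ≤ C ∧
    ∀ G α τ0 τ τ' Z : ℝ, 0 < α → α ≤ 1 / 100 → 0 ≤ G → G * α ≤ 7 → 0 < τ0 → α ^ 5 * τ0 ≤ 100000 → 0 < Z →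
    τ0 ≤ τ → τ ≤ 2 * τ0 → τ0 ≤ τ' → τ' ≤ 2 * τ0 →
    ‖cf ω W G α τ Z - cf ω W G α τ' Z‖ ≤ C * (α * τ0) ^ (-1 / 2 : ℝ) * (|τ - τ'| / τ0) := by
  obtain ⟨C, hC1, -, hC3⟩ := ZB10_box ω W hω hW
  refine ⟨200 * C, by linarith, ?_⟩
  intro G α τ0 τ τ' Z hα hα2 hG hGα hτ0 hατ hZ a1 a2 b1 b2
  have hs : 0 < α * τ0 := by positivity
  have hτ : 0 < τ := by linarith
  have hτ' : 0 < τ' := by linarith
  by_cases h0 : cf ω W G α τ Z = 0 ∧ cf ω W G α τ' Z = 0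
  · rw [h0.1, h0.2, sub_zero, norm_zero]
    positivity
  have hZ12 : α * τ0 / 7 ≤ Z ∧ Z ≤ 10 * (α * τ0) := by
    by_cases h1 : cf ω W G α τ Z = 0
    · have h2 : cf ω W G α τ' Z ≠ 0 := fun h => h0 ⟨h1, h⟩
      obtain ⟨h3, h4⟩ := cf_supp ω W hω G α τ' Z hα hα2 hτ' hZ h2
      constructor
      · nlinarith
      · nlinarith
    · obtain ⟨h3, h4⟩ := cf_supp ω W hω G α τ Z hα hα2 hτ hZ h1
      constructor
      · nlinarith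
      · nlinarith
  obtain ⟨hZ1, hZ2⟩ := hZ12
  have h6 : α ^ 4 * Z ≤ 1000000 := by
    calc α ^ 4 * Z ≤ α ^ 4 * (10 * (α * τ0)) := mul_le_mul_of_nonneg_left hZ2 (by positivity)
      _ = 10 * (α ^ 5 * τ0) := by ring
      _ ≤ 1000000 := by linarith
  obtain ⟨c1, c2⟩ := ZB10_et_box hα hα2 hτ0 hZ a1 a2 hZ1 hZ2
  obtain ⟨d1, d2⟩ := ZB10_et_box hα hα2 hτ0 hZ b1 b2 hZ1 hZ2
  have h7 := hC3 (et α τ Z) (et α τ' Z) α (G * α) (α ^ 4 * Z) c1 c2 d1 d2 hα.le hα2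
    (by positivity) hGα (by positivity) h6
  have h8 := ZB10_sp_le hs hZ1
  have h9 := ZB10_et_lip hα hα2 hτ0 hZ a1 a2 b1 b2 hZ1 hZ2
  unfold cf
  rw [← mul_sub, norm_mul]
  calc ‖sp Z‖ * ‖ampA ω W (et α τ Z) α (G * α) (α ^ 4 * Z) -
        ampA ω W (et α τ' Z) α (G * α) (α ^ 4 * Z)‖
      ≤ (2 * (α * τ0) ^ (-1 / 2 : ℝ)) * (C * (100 * (|τ - τ'| / τ0))) := by
        refine mul_le_mul h8 (h7.trans (mul_le_mul_of_nonneg_left h9 (by linarith)))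
          (norm_nonneg _) (by positivity)
    _ = 200 * C * (α * τ0) ^ (-1 / 2 : ℝ) * (|τ - τ'| / τ0) := by ring

end Pool.Agent.LibSX15
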