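import Pool.Agent.LibSX15.ZB10

/-!
Row ZB11. Regrouping by `n = h k` and dyadic `h`.

PLAN: `Mn ω W G (h/X) τ (kX) = cf ω W G (h/X) τ (kX) · ee(n/2) · ee(-zph n t)` with `n = h k`, `τ = t/2π` (`(h/X)(kX) = hk`), `ee (n/2) = (-1)^n`. Every `h` in `Icc 1 ⌊7X/G⌋₊` lies in exactly one block
`2^i ≤ h < 2^(i+1)`, `i = Nat.log 2 h`, and `2^i ≤ 7X/G`. Pairs `(h, k)` with `cf ≠ 0` have `n = hk = αZ`, `α²τ/7 ≤ n ≤ 5α²τ` (`cf_supp`), so `n ≤ 5 (2·2^i/X)² (2T/2π) ≤ KB i` and `k ≤ 20ατ/X`; the pairs `(h, k)` with `h` in the block and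
`hk = n` are the divisors `h` of `n` in the block (`k = n/h`). Sums of zeros may be added freely.
-/

set_option autoImplicit false

namespace Pool.Agent.LibSX15

open Finset

/-- the length of the sum of the block `i` -/
noncomputable def KB (T X : ℝ) (i : ℕ) : ℝ := 7 * T * (2 ^ i / X) ^ 2

/-- the blocks -/
noncomputable def iB (G X : ℝ) : Finset ℕ := (range (⌊7 * X / G⌋₊ + 1)).filter fun i => (2 : ℝ) ^ i ≤ 7 * X / G

/-- the coefficients -/
noncomputable def cB (ω W : ℝ → ℝ) (T G X : ℝ) (i n : ℕ) (t : ℝ) : ℂ :=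
  (((T * KB T X i) ^ (1 / 4 : ℝ) : ℝ) : ℂ) * ((-1) ^ n *
    ∑ h ∈ n.divisors.filter (fun h : ℕ => 2 ^ i ≤ h ∧ h < 2 ^ (i + 1) ∧ (h : ℝ) ≤ 7 * X / G),
      cf ω W G (h / X) (t / (2 * Real.pi)) (((n / h : ℕ) : ℝ) * X))

private theorem ZB11_ee_half (n : ℕ) : ee ((n : ℝ) / 2) = (-1) ^ n := by
  unfold ee
  have : (((2 * Real.pi * ((n : ℝ) / 2) : ℝ) : ℂ) * Complex.I) = (n : ℂ) * (Real.pi * Complex.I) := by
    push_cast; ring
  rw [this, Complex.exp_nat_mul, Complex.exp_pi_mul_I]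

private theorem ZB11_Mn (ω W : ℝ → ℝ) (G X t : ℝ) (hX : 1 ≤ X) (h k : ℕ) :
    Mn ω W G (h / X) (t / (2 * Real.pi)) (k * X) =
      (-1) ^ (h * k) * cf ω W G (h / X) (t / (2 * Real.pi)) (k * X) * ee (-zph (h * k) t) := by
  have hX0 : X ≠ 0 := by positivity
  have e1 : (h : ℝ) / X * (k * X) = ((h * k : ℕ) : ℝ) := by
    push_cast; field_simp
  unfold Mn zph
  rw [e1, ZB11_ee_half]
  ring

theorem regroup (ω W : ℝ → ℝ) (hω : Bump ω) (T G X t : ℝ) (hT : 1 ≤ T) (hG : 700 ≤ G) (hX : 1 ≤ X)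
    (ht : T ≤ t) (ht2 : t ≤ 2 * T) :
    ∑ h ∈ Finset.Icc 1 ⌊7 * X / G⌋₊, ∑ k ∈ Finset.Icc 1 ⌊20 * ((h : ℝ) / X * (t / (2 * Real.pi))) / X⌋₊,
      Mn ω W G (h / X) (t / (2 * Real.pi)) (k * X) =
    ∑ i ∈ iB G X, (((T * KB T X i) ^ (-1 / 4 : ℝ) : ℝ) : ℂ) *
      ∑ n ∈ Finset.Icc 1 ⌊KB T X i⌋₊, cB ω W T G X i n t * ee (-zph n t) := by
  classical
  have hX0 : 0 < X := by linarith
  have hG0 : 0 < G := by linarith
  have hT0 : 0 < T := by linarith
  have ht0 : 0 < t := by linarith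
  have hτ0 : 0 < t / (2 * Real.pi) := by positivity
  have hXG : 0 ≤ 7 * X / G := by positivity
  set F : ℕ → ℕ → ℂ := fun h k =>
    (-1) ^ (h * k) * cf ω W G (h / X) (t / (2 * Real.pi)) (k * X) * ee (-zph (h * k) t) with hF
  -- the right-hand side, block by block
  have hR : ∀ i ∈ iB G X, (((T * KB T X i) ^ (-1 / 4 : ℝ) : ℝ) : ℂ) *
      ∑ n ∈ Finset.Icc 1 ⌊KB T X i⌋₊, cB ω W T G X i n t * ee (-zph n t) =
      ∑ h ∈ (Finset.Icc 1 ⌊7 * X / G⌋₊).filter (fun h => Nat.log 2 h = i),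
        ∑ k ∈ Finset.Icc 1 ⌊20 * ((h : ℝ) / X * (t / (2 * Real.pi))) / X⌋₊, F h k := by
    intro i hi
    have hKB : 0 < T * KB T X i := by unfold KB; positivity
    have hcan : (((T * KB T X i) ^ (-1 / 4 : ℝ) : ℝ) : ℂ) * (((T * KB T X i) ^ (1 / 4 : ℝ) : ℝ) : ℂ) = 1 := by
      rw [← Complex.ofReal_mul, ← Real.rpow_add hKB]
      norm_num
    have h1 : (((T * KB T X i) ^ (-1 / 4 : ℝ) : ℝ) : ℂ) *
        ∑ n ∈ Finset.Icc 1 ⌊KB T X i⌋₊, cB ω W T G X i n t * ee (-zph n t) =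
        ∑ n ∈ Finset.Icc 1 ⌊KB T X i⌋₊,
          ∑ h ∈ n.divisors.filter (fun h : ℕ => 2 ^ i ≤ h ∧ h < 2 ^ (i + 1) ∧ (h : ℝ) ≤ 7 * X / G),
            F h (n / h) := by
      rw [Finset.mul_sum]
      refine Finset.sum_congr rfl fun n hn => ?_
      have : (((T * KB T X i) ^ (-1 / 4 : ℝ) : ℝ) : ℂ) * (cB ω W T G X i n t * ee (-zph n t)) =
          ∑ h ∈ n.divisors.filter (fun h : ℕ => 2 ^ i ≤ h ∧ h < 2 ^ (i + 1) ∧ (h : ℝ) ≤ 7 * X / G),
            (-1) ^ n * cf ω W G (h / X) (t / (2 * Real.pi)) (((n / h : ℕ) : ℝ) * X) * ee (-zph n t) := by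
        unfold cB
        rw [← Finset.sum_mul, ← Finset.mul_sum]
        calc _ = ((((T * KB T X i) ^ (-1 / 4 : ℝ) : ℝ) : ℂ) * (((T * KB T X i) ^ (1 / 4 : ℝ) : ℝ) : ℂ)) *
              (((-1) ^ n *
    ∑ h ∈ n.divisors.filter (fun h : ℕ => 2 ^ i ≤ h ∧ h < 2 ^ (i + 1) ∧ (h : ℝ) ≤ 7 * X / G),
      cf ω W G (h / X) (t / (2 * Real.pi)) (((n / h : ℕ) : ℝ) * X)) * ee (-zph n t)) := by ring
          _ = _ := by rw [hcan, one_mul]
      rw [this]
      refine Finset.sum_congr rfl fun h hh => ?_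
      have hdvd : h ∣ n := Nat.dvd_of_mem_divisors (Finset.mem_filter.1 hh).1
      simp only [hF]
      rw [Nat.mul_div_cancel' hdvd]
    rw [h1]
    have h2 : ∑ n ∈ Finset.Icc 1 ⌊KB T X i⌋₊,
          ∑ h ∈ n.divisors.filter (fun h : ℕ => 2 ^ i ≤ h ∧ h < 2 ^ (i + 1) ∧ (h : ℝ) ≤ 7 * X / G),
            F h (n / h) =
        ∑ h ∈ (Finset.Icc 1 ⌊7 * X / G⌋₊).filter (fun h => Nat.log 2 h = i),
          ∑ n ∈ (Finset.Icc 1 ⌊KB T X i⌋₊).filter (fun n => h ∣ n), F h (n / h) := by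
      refine Finset.sum_comm' fun n h => ?_
      simp only [Finset.mem_Icc, Finset.mem_filter, Nat.mem_divisors, ← Nat.le_floor_iff hXG]
      constructor
      · rintro ⟨⟨hn1, hn2⟩, ⟨hd, hn0⟩, hb1, hb2, hb3⟩
        have hh0 : h ≠ 0 := by
          rintro rfl
          simp at hb1
        refine ⟨⟨⟨hn1, hn2⟩, hd⟩, ⟨Nat.one_le_iff_ne_zero.2 hh0, hb3⟩, ?_⟩
        exact (Nat.log_eq_iff (Or.inr ⟨by norm_num, hh0⟩)).2 ⟨hb1, hb2⟩
      · rintro ⟨⟨⟨hn1, hn2⟩, hd⟩, ⟨hh1, hh2⟩, hlog⟩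
        have hh0 : h ≠ 0 := by omega
        obtain ⟨hb1, hb2⟩ := (Nat.log_eq_iff (Or.inr ⟨by norm_num, hh0⟩)).1 hlog
        exact ⟨⟨hn1, hn2⟩, ⟨hd, by omega⟩, hb1, hb2, hh2⟩
    rw [h2]
    refine Finset.sum_congr rfl fun h hh => ?_
    obtain ⟨hh1, hlog⟩ := Finset.mem_filter.1 hh
    obtain ⟨hh1, hh2⟩ := Finset.mem_Icc.1 hh1
    have hh0 : h ≠ 0 := by omega
    have hhpos : 0 < h := by omega
    obtain ⟨hb1, hb2⟩ := (Nat.log_eq_iff (Or.inr ⟨by norm_num, hh0⟩)).1 hlog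
    have hhR : (0 : ℝ) < h := by exact_mod_cast hhpos
    have h3 : ∑ n ∈ (Finset.Icc 1 ⌊KB T X i⌋₊).filter (fun n => h ∣ n), F h (n / h) =
        ∑ k ∈ Finset.Icc 1 (⌊KB T X i⌋₊ / h), F h k := by
      refine Finset.sum_nbij' (fun n => n / h) (fun k => h * k) ?_ ?_ ?_ ?_ ?_
      · intro n hn
        simp only [Finset.mem_filter, Finset.mem_Icc] at hn ⊢
        obtain ⟨⟨hn1, hn2⟩, c, rfl⟩ := hn
        refine ⟨?_, Nat.div_le_div_right hn2⟩
        rw [Nat.mul_div_cancel_left _ hhpos]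
        rcases Nat.eq_zero_or_pos c with rfl | hc
        · simp at hn1
        · exact hc
      · intro k hk
        simp only [Finset.mem_filter, Finset.mem_Icc] at hk ⊢
        refine ⟨⟨?_, ?_⟩, Dvd.intro _ rfl⟩
        · exact Nat.mul_pos hhpos (by omega)
        · have := (Nat.le_div_iff_mul_le hhpos).1 hk.2
          rw [mul_comm]; exact this
      · intro n hn
        simp only [Finset.mem_filter, Finset.mem_Icc] at hn
        exact Nat.mul_div_cancel' hn.2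
      · intro k hk
        exact Nat.mul_div_cancel_left _ hhpos
      · intro n hn
        rfl
    rw [h3, ← Finset.sum_filter_ne_zero, ← Finset.sum_filter_ne_zero (s := Finset.Icc 1 ⌊20 * ((h : ℝ) / X * (t / (2 * Real.pi))) / X⌋₊)]
    refine Finset.sum_congr ?_ fun _ _ => rfl
    ext k
    simp only [Finset.mem_filter, Finset.mem_Icc]
    -- the support
    have hα : 0 < (h : ℝ) / X := by positivity
    have hα2 : (h : ℝ) / X ≤ 1 / 100 := by
      have h7 : (h : ℝ) ≤ 7 * X / G := (Nat.le_floor_iff hXG).1 hh2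
      rw [div_le_iff₀ hX0]
      have h8 : 7 * X / G ≤ 1 / 100 * X := by
        rw [div_le_iff₀ hG0]
        nlinarith
      linarith
    have key : 1 ≤ k → F h k ≠ 0 →
        (k : ℝ) * X ≤ 5 * ((h : ℝ) / X * (t / (2 * Real.pi))) := by
      intro hk1 hFk
      have hkR : (0 : ℝ) < k := by exact_mod_cast (by omega : 0 < k)
      have hcf : cf ω W G ((h : ℝ) / X) (t / (2 * Real.pi)) ((k : ℝ) * X) ≠ 0 := by
        intro h0
        apply hFk
        simp only [hF]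
        rw [h0]
        ring
      exact (cf_supp ω W hω G _ _ _ hα hα2 hτ0 (by positivity) hcf).2
    constructor
    · rintro ⟨⟨hk1, _⟩, hFk⟩
      have h5 := key hk1 hFk
      refine ⟨⟨hk1, ?_⟩, hFk⟩
      apply Nat.le_floor
      rw [le_div_iff₀ hX0]
      have : 0 < (h : ℝ) / X * (t / (2 * Real.pi)) := by positivity
      linarith
    · rintro ⟨⟨hk1, _⟩, hFk⟩
      have h5 := key hk1 hFk
      refine ⟨⟨hk1, ?_⟩, hFk⟩
      rw [Nat.le_div_iff_mul_le hhpos]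
      apply Nat.le_floor
      push_cast
      -- `k h ≤ 5 α² τ ≤ KB`
      have hb2R : (h : ℝ) ≤ 2 * 2 ^ i := by
        have : h ≤ 2 ^ (i + 1) := hb2.le
        have h9 : (h : ℝ) ≤ 2 ^ (i + 1) := by exact_mod_cast this
        rw [pow_succ] at h9
        linarith
      have h10 : (h : ℝ) / X ≤ 2 * (2 ^ i / X) := by
        rw [div_le_iff₀ hX0]
        have : 2 * ((2 : ℝ) ^ i / X) * X = 2 * 2 ^ i := by field_simp
        rw [this]; exact hb2R
      have h11 : (k : ℝ) * h = (h : ℝ) / X * ((k : ℝ) * X) := by field_simp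
      have hpi : t / (2 * Real.pi) ≤ 7 / 20 * T := by
        rw [div_le_iff₀ (by positivity)]
        have := Real.pi_gt_three
        nlinarith
      rw [h11]
      set q : ℝ := (2 : ℝ) ^ i / X with hq
      have hq0 : 0 < q := by positivity
      have h12 : (h : ℝ) / X * ((k : ℝ) * X) ≤ (h : ℝ) / X * (5 * ((h : ℝ) / X * (t / (2 * Real.pi)))) :=
        mul_le_mul_of_nonneg_left h5 hα.le
      have h13 : (h : ℝ) / X * (5 * ((h : ℝ) / X * (t / (2 * Real.pi)))) =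
          5 * (((h : ℝ) / X) ^ 2 * (t / (2 * Real.pi))) := by ring
      have h14 : ((h : ℝ) / X) ^ 2 ≤ (2 * q) ^ 2 := pow_le_pow_left₀ hα.le h10 2
      have h15 : ((h : ℝ) / X) ^ 2 * (t / (2 * Real.pi)) ≤ (2 * q) ^ 2 * (7 / 20 * T) :=
        mul_le_mul h14 hpi hτ0.le (by positivity)
      unfold KB
      rw [← hq]
      calc (h : ℝ) / X * ((k : ℝ) * X) ≤ 5 * (((h : ℝ) / X) ^ 2 * (t / (2 * Real.pi))) := by
            rw [← h13]; exact h12
        _ ≤ 5 * ((2 * q) ^ 2 * (7 / 20 * T)) := by linarith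
        _ = 7 * T * q ^ 2 := by ring
  rw [Finset.sum_congr rfl hR]
  rw [Finset.sum_fiberwise_of_maps_to (g := fun h => Nat.log 2 h)]
  · refine Finset.sum_congr rfl fun h _ => Finset.sum_congr rfl fun k _ => ?_
    simp only [hF]
    exact ZB11_Mn ω W G X t hX h k
  · intro h hh
    obtain ⟨hh1, hh2⟩ := Finset.mem_Icc.1 hh
    have hle : 2 ^ Nat.log 2 h ≤ h := Nat.pow_log_le_self 2 (by omega)
    have hfl : (h : ℝ) ≤ 7 * X / G := (Nat.le_floor_iff hXG).1 hh2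
    unfold iB
    simp only [Finset.mem_filter, Finset.mem_range]
    constructor
    · have : Nat.log 2 h < 2 ^ Nat.log 2 h := Nat.lt_two_pow_self
      omega
    · calc (2 : ℝ) ^ Nat.log 2 h = ((2 ^ Nat.log 2 h : ℕ) : ℝ) := by push_cast; rfl
        _ ≤ (h : ℝ) := by exact_mod_cast hle
        _ ≤ _ := hfl

end Pool.Agent.LibSX15
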