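import Pool.Agent.LibSX15.ZB9
import Pool.Agent.LibSX15.ZB11

/-!
Row ZB12. The properties of `cB`, `KB`, `iB` and the final bound.
-/

set_option autoImplicit false

namespace Pool.Agent.LibSX15

open Finset

theorem iB_card (B : ℝ) (hB : 1 ≤ B) : ∃ C : ℝ, 1 ≤ C ∧ ∀ T G X : ℝ, 3 ≤ T → 700 ≤ G → 1 ≤ X → X ≤ B * T →
    ((iB G X).card : ℝ) ≤ C * Real.log T := by
  refine ⟨2 * (Real.log B + 2) + 1, by have := Real.log_nonneg hB; linarith, fun T G X hT hG hX hXB => ?_⟩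
  have hlogB := Real.log_nonneg hB
  have hT0 : 0 < T := by linarith
  have hlogT : 1 ≤ Real.log T := by
    rw [Real.le_log_iff_exp_le hT0]
    have := Real.exp_one_lt_d9
    linarith
  have h1 : iB G X ⊆ range (⌊2 * Real.log (B * T)⌋₊ + 1) := by
    intro i hi
    have hi2 : (2 : ℝ) ^ i ≤ 7 * X / G := (Finset.mem_filter.mp hi).2
    have h3 : (2 : ℝ) ^ i ≤ B * T := by
      refine hi2.trans (le_trans ?_ hXB)
      rw [div_le_iff₀ (by linarith)]
      nlinarith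
    have h4 := Real.log_le_log (by positivity) h3
    rw [Real.log_pow] at h4
    have h5 : (0.69 : ℝ) < Real.log 2 := by linarith [Real.log_two_gt_d9]
    have h6 : (0 : ℝ) ≤ i := by positivity
    rw [Finset.mem_range]
    have h7 : (i : ℝ) ≤ 2 * Real.log (B * T) := by nlinarith
    have := Nat.le_floor h7
    omega
  have h2 : ((iB G X).card : ℝ) ≤ ((⌊2 * Real.log (B * T)⌋₊ + 1 : ℕ) : ℝ) := by
    have := Finset.card_le_card h1
    rw [Finset.card_range] at this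
    exact_mod_cast this
  have h3 : Real.log (B * T) = Real.log B + Real.log T := Real.log_mul (by linarith) hT0.ne'
  have h4 : ((⌊2 * Real.log (B * T)⌋₊ : ℕ) : ℝ) ≤ 2 * Real.log (B * T) := by
    refine Nat.floor_le ?_
    rw [h3]; linarith
  push_cast at h2
  have h5 : ((iB G X).card : ℝ) ≤ 2 * (Real.log B + Real.log T) + 1 := by
    rw [h3] at h4 h2
    linarith
  nlinarith [mul_nonneg hlogB (sub_nonneg.mpr hlogT)]

/-- what one needs on the pairs `(h, n)` -/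
private theorem alph (T G X : ℝ) (hT : 3 ≤ T) (hG : 700 ≤ G) (hGT : T ^ (1 / 5 : ℝ) ≤ G) (hX : 1 ≤ X) (h : ℕ)
    (hh : 1 ≤ h) (h7 : (h : ℝ) ≤ 7 * X / G) :
    0 < (h : ℝ) / X ∧ (h : ℝ) / X ≤ 1 / 100 ∧ G * (h / X) ≤ 7 ∧
      ((h : ℝ) / X) ^ 5 * (T / (2 * Real.pi)) ≤ 100000 ∧ ∀ t ∈ Set.Icc T (2 * T),
        ((h : ℝ) / X) ^ 5 * (t / (2 * Real.pi)) ≤ 100000 := by
  have hG0 : 0 < G := by linarith
  have hX0 : 0 < X := by linarith
  have hT0 : 0 < T := by linarith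
  have hh0 : (1 : ℝ) ≤ h := by exact_mod_cast hh
  have h1 : 0 < (h : ℝ) / X := by positivity
  have h2 : (h : ℝ) / X ≤ 7 / G := by
    rw [div_le_div_iff₀ hX0 hG0]
    rw [le_div_iff₀ hG0] at h7
    linarith
  have h3 : 7 / G ≤ 1 / 100 := by
    rw [div_le_div_iff₀ hG0 (by norm_num)]; linarith
  have h4 : T ≤ G ^ 5 := by
    have h5 : (T ^ (1 / 5 : ℝ)) ^ 5 ≤ G ^ 5 := pow_le_pow_left₀ (by positivity) hGT 5
    have h6 : (T ^ (1 / 5 : ℝ)) ^ 5 = T := by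
      rw [← Real.rpow_natCast, ← Real.rpow_mul hT0.le]
      norm_num
    linarith
  have h5 : ((h : ℝ) / X) ^ 5 * T ≤ 16807 := by
    calc ((h : ℝ) / X) ^ 5 * T ≤ (7 / G) ^ 5 * G ^ 5 :=
          mul_le_mul (pow_le_pow_left₀ h1.le h2 5) h4 hT0.le (by positivity)
      _ = 16807 := by
          rw [div_pow, div_mul_cancel₀ _ (by positivity)]
          norm_num
  have hpi := Real.pi_gt_three
  refine ⟨h1, h2.trans h3, ?_, ?_, ?_⟩
  · calc G * (h / X) ≤ G * (7 / G) := mul_le_mul_of_nonneg_left h2 hG0.le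
      _ = 7 := by field_simp
  · rw [← mul_div_assoc, div_le_iff₀ (by positivity)]
    nlinarith
  · intro t ht
    have ht2 := ht.2
    rw [← mul_div_assoc, div_le_iff₀ (by positivity)]
    have h8 : ((h : ℝ) / X) ^ 5 * t ≤ ((h : ℝ) / X) ^ 5 * (2 * T) := mul_le_mul_of_nonneg_left ht2 (by positivity)
    nlinarith

private theorem fac (T X : ℝ) (hT : 3 ≤ T) (hX : 1 ≤ X) (i h : ℕ) (hi : 2 ^ i ≤ h) (τ : ℝ) (hτ : T / (2 * Real.pi) ≤ τ) :
    (T * KB T X i) ^ (1 / 4 : ℝ) * ((h : ℝ) / X * τ) ^ (-1 / 2 : ℝ) ≤ 7 := by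
  have hX0 : 0 < X := by linarith
  have hT0 : 0 < T := by linarith
  have hpi := Real.pi_gt_three
  have hpi4 := Real.pi_lt_four
  have h1 : (0 : ℝ) < 2 ^ i / X := by positivity
  have h2 : (2 : ℝ) ^ i / X ≤ (h : ℝ) / X := by
    refine div_le_div_of_nonneg_right ?_ hX0.le
    exact_mod_cast hi
  have h3 : (2 : ℝ) ^ i / X * (T / 8) ≤ (h : ℝ) / X * τ := by
    refine mul_le_mul h2 (le_trans ?_ hτ) (by positivity) (by positivity)
    exact div_le_div_of_nonneg_left hT0.le (by positivity) (by linarith)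
  set a : ℝ := (2 : ℝ) ^ i / X with ha
  have h4 : ((h : ℝ) / X * τ) ^ (-1 / 2 : ℝ) ≤ (a * (T / 8)) ^ (-1 / 2 : ℝ) :=
    Real.rpow_le_rpow_of_nonpos (by positivity) h3 (by norm_num)
  have h5 : (T * KB T X i) ^ (1 / 4 : ℝ) = (7 : ℝ) ^ (1 / 4 : ℝ) * (a * T) ^ (1 / 2 : ℝ) := by
    have : T * KB T X i = 7 * ((a * T) ^ 2) := by unfold KB; rw [← ha]; ring
    rw [this, Real.mul_rpow (by norm_num) (by positivity)]
    congr 1
    rw [← Real.rpow_natCast, ← Real.rpow_mul (by positivity)]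
    norm_num
  have h6 : (a * (T / 8)) ^ (-1 / 2 : ℝ) = (8 : ℝ) ^ (1 / 2 : ℝ) * (a * T) ^ (-1 / 2 : ℝ) := by
    have : a * (T / 8) = (a * T) * (8 : ℝ)⁻¹ := by ring
    rw [this, Real.mul_rpow (by positivity) (by norm_num), Real.inv_rpow (by norm_num), ← Real.rpow_neg (by norm_num)]
    rw [mul_comm]
    norm_num
  have h7 : (a * T) ^ (1 / 2 : ℝ) * (a * T) ^ (-1 / 2 : ℝ) = 1 := by
    rw [← Real.rpow_add (by positivity)]
    norm_num
  have h8 : (7 : ℝ) ^ (1 / 4 : ℝ) ≤ 2 := by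
    have : (7 : ℝ) ^ (1 / 4 : ℝ) ≤ (16 : ℝ) ^ (1 / 4 : ℝ) := Real.rpow_le_rpow (by norm_num) (by norm_num) (by norm_num)
    refine this.trans (le_of_eq ?_)
    rw [show (16 : ℝ) = 2 ^ (4 : ℝ) by norm_num, ← Real.rpow_mul (by norm_num)]
    norm_num
  have h9 : (8 : ℝ) ^ (1 / 2 : ℝ) ≤ 3 := by
    rw [← Real.sqrt_eq_rpow, Real.sqrt_le_left (by norm_num)]
    norm_num
  calc (T * KB T X i) ^ (1 / 4 : ℝ) * ((h : ℝ) / X * τ) ^ (-1 / 2 : ℝ)
      ≤ ((7 : ℝ) ^ (1 / 4 : ℝ) * (a * T) ^ (1 / 2 : ℝ)) * ((8 : ℝ) ^ (1 / 2 : ℝ) * (a * T) ^ (-1 / 2 : ℝ)) := by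
        rw [h5]
        refine mul_le_mul_of_nonneg_left (h4.trans (le_of_eq h6)) (by positivity)
    _ = (7 : ℝ) ^ (1 / 4 : ℝ) * (8 : ℝ) ^ (1 / 2 : ℝ) * ((a * T) ^ (1 / 2 : ℝ) * (a * T) ^ (-1 / 2 : ℝ)) := by ring
    _ = (7 : ℝ) ^ (1 / 4 : ℝ) * (8 : ℝ) ^ (1 / 2 : ℝ) := by rw [h7, mul_one]
    _ ≤ 2 * 3 := mul_le_mul h8 h9 (by positivity) (by norm_num)
    _ ≤ 7 := by norm_num

theorem cB_props (ω W : ℝ → ℝ) (hω : Bump ω) (hW : BumpW W) : ∃ C : ℝ, 1 ≤ C ∧ ∀ T G X : ℝ, 3 ≤ T → 700 ≤ G →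
    T ^ (1 / 5 : ℝ) ≤ G → 1 ≤ X → ∀ i ∈ iB G X, ∀ n : ℕ, ∀ t ∈ Set.Icc T (2 * T),
      ‖cB ω W T G X i n t‖ ≤ C * n.divisors.card ∧
      (cB ω W T G X i n t ≠ 0 → KB T X i / 2000 ≤ n ∧ (n : ℝ) ≤ KB T X i) ∧
      ∀ t' ∈ Set.Icc T (2 * T), ‖cB ω W T G X i n t - cB ω W T G X i n t'‖ ≤ C * n.divisors.card * |t - t'| / T := by
  obtain ⟨C1, hC1, h1⟩ := cf_size ω W hω hW
  obtain ⟨C2, hC2, h2⟩ := cf_lip ω W hω hW
  refine ⟨7 * C1 + 7 * C2, by linarith, fun T G X hT hG hGT hX i hi n t ht => ?_⟩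
  have hT0 : 0 < T := by linarith
  have hX0 : 0 < X := by linarith
  have hpi := Real.pi_gt_three
  have hpi4 := Real.pi_lt_four
  have hKB : 0 < T * KB T X i := by unfold KB; positivity
  have hF : 0 ≤ (T * KB T X i) ^ (1 / 4 : ℝ) := by positivity
  have key : ∀ h ∈ n.divisors.filter (fun h : ℕ => 2 ^ i ≤ h ∧ h < 2 ^ (i + 1) ∧ (h : ℝ) ≤ 7 * X / G),
      1 ≤ h ∧ 2 ^ i ≤ h ∧ h < 2 ^ (i + 1) ∧ (h : ℝ) ≤ 7 * X / G ∧ 1 ≤ n / h ∧ n / h * h = n := by
    intro h hh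
    rw [Finset.mem_filter, Nat.mem_divisors] at hh
    obtain ⟨⟨hd, hn⟩, ha, hb, hc⟩ := hh
    have h0 : 0 < h := Nat.pos_of_dvd_of_pos hd (Nat.pos_of_ne_zero hn)
    exact ⟨h0, ha, hb, hc, Nat.div_pos (Nat.le_of_dvd (Nat.pos_of_ne_zero hn) hd) h0, Nat.div_mul_cancel hd⟩
  have hcard : ((n.divisors.filter (fun h : ℕ => 2 ^ i ≤ h ∧ h < 2 ^ (i + 1) ∧ (h : ℝ) ≤ 7 * X / G)).card : ℝ) ≤
      n.divisors.card := by exact_mod_cast Finset.card_filter_le _ _
  refine ⟨?_, ?_, ?_⟩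
  · unfold cB
    rw [norm_mul, norm_mul, norm_pow, norm_neg, norm_one, one_pow, one_mul, Complex.norm_real, Real.norm_eq_abs,
      abs_of_nonneg hF]
    calc (T * KB T X i) ^ (1 / 4 : ℝ) * ‖∑ h ∈ n.divisors.filter (fun h : ℕ => 2 ^ i ≤ h ∧ h < 2 ^ (i + 1) ∧ (h : ℝ) ≤ 7 * X / G),
          cf ω W G (h / X) (t / (2 * Real.pi)) (((n / h : ℕ) : ℝ) * X)‖
        ≤ (T * KB T X i) ^ (1 / 4 : ℝ) * ∑ h ∈ n.divisors.filter (fun h : ℕ => 2 ^ i ≤ h ∧ h < 2 ^ (i + 1) ∧ (h : ℝ) ≤ 7 * X / G),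
          C1 * ((h : ℝ) / X * (t / (2 * Real.pi))) ^ (-1 / 2 : ℝ) := by
          refine mul_le_mul_of_nonneg_left ((norm_sum_le _ _).trans (Finset.sum_le_sum fun h hh => ?_)) hF
          obtain ⟨k1, k2, k3, k4, k5, k6⟩ := key h hh
          obtain ⟨a1, a2, a3, a4, a5⟩ := alph T G X hT hG hGT hX h k1 k4
          have hnh : (0 : ℝ) < ((n / h : ℕ) : ℝ) := by exact_mod_cast k5
          exact h1 G (h / X) (t / (2 * Real.pi)) _ a1 a2 (by linarith) a3
            (div_pos (by linarith [ht.1]) (by positivity)) (a5 t ht) (by positivity)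
      _ = ∑ h ∈ n.divisors.filter (fun h : ℕ => 2 ^ i ≤ h ∧ h < 2 ^ (i + 1) ∧ (h : ℝ) ≤ 7 * X / G),
          C1 * ((T * KB T X i) ^ (1 / 4 : ℝ) * ((h : ℝ) / X * (t / (2 * Real.pi))) ^ (-1 / 2 : ℝ)) := by
          rw [Finset.mul_sum]
          refine Finset.sum_congr rfl fun h _ => by ring
      _ ≤ ∑ h ∈ n.divisors.filter (fun h : ℕ => 2 ^ i ≤ h ∧ h < 2 ^ (i + 1) ∧ (h : ℝ) ≤ 7 * X / G), C1 * 7 := by
          refine Finset.sum_le_sum fun h hh => mul_le_mul_of_nonneg_left ?_ (by linarith)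
          obtain ⟨k1, k2, k3, k4, k5, k6⟩ := key h hh
          refine fac T X hT hX i h k2 _ ?_
          exact div_le_div_of_nonneg_right ht.1 (by positivity)
      _ = ((n.divisors.filter (fun h : ℕ => 2 ^ i ≤ h ∧ h < 2 ^ (i + 1) ∧ (h : ℝ) ≤ 7 * X / G)).card : ℝ) * (C1 * 7) := by
          rw [Finset.sum_const, nsmul_eq_mul]
      _ ≤ (n.divisors.card : ℝ) * (C1 * 7) := mul_le_mul_of_nonneg_right hcard (by linarith)
      _ ≤ (7 * C1 + 7 * C2) * n.divisors.card := by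
          have : (0 : ℝ) ≤ n.divisors.card := by positivity
          nlinarith
  · intro hne
    unfold cB at hne
    have hs : ∑ h ∈ n.divisors.filter (fun h : ℕ => 2 ^ i ≤ h ∧ h < 2 ^ (i + 1) ∧ (h : ℝ) ≤ 7 * X / G),
        cf ω W G (h / X) (t / (2 * Real.pi)) (((n / h : ℕ) : ℝ) * X) ≠ 0 := by
      intro h0
      rw [h0, mul_zero, mul_zero] at hne
      exact hne rfl
    obtain ⟨h, hh, hcf⟩ := Finset.exists_ne_zero_of_sum_ne_zero hs
    obtain ⟨k1, k2, k3, k4, k5, k6⟩ := key h hh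
    obtain ⟨a1, a2, a3, a4, a5⟩ := alph T G X hT hG hGT hX h k1 k4
    have hnh : (0 : ℝ) < ((n / h : ℕ) : ℝ) := by exact_mod_cast k5
    obtain ⟨s1, s2⟩ := cf_supp ω W hω G (h / X) (t / (2 * Real.pi)) _ a1 a2
      (div_pos (by linarith [ht.1]) (by positivity)) (by positivity) hcf
    have hn : (n : ℝ) = (h / X) * (((n / h : ℕ) : ℝ) * X) := by
      have : (n : ℝ) = ((n / h : ℕ) : ℝ) * h := by
        have := congrArg (fun m : ℕ => (m : ℝ)) k6
        push_cast at this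
        exact this.symm
      rw [this]
      field_simp
    have hb1 : (2 : ℝ) ^ i / X ≤ (h : ℝ) / X := by
      refine div_le_div_of_nonneg_right ?_ hX0.le
      exact_mod_cast k2
    have hb2 : (h : ℝ) / X ≤ 2 * ((2 : ℝ) ^ i / X) := by
      rw [← mul_div_assoc]
      refine div_le_div_of_nonneg_right ?_ hX0.le
      have : (h : ℝ) ≤ 2 ^ (i + 1) := by exact_mod_cast k3.le
      rw [pow_succ] at this
      linarith
    set a : ℝ := (2 : ℝ) ^ i / X with ha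
    set α : ℝ := (h : ℝ) / X with hα
    have ha0 : 0 < a := by positivity
    have hKBa : KB T X i = 7 * T * a ^ 2 := by unfold KB; rw [← ha]
    have ht1 : T / 8 ≤ t / (2 * Real.pi) := by
      rw [div_le_div_iff₀ (by norm_num) (by positivity)]
      nlinarith [ht.1]
    have ht2 : t / (2 * Real.pi) ≤ T / 3 := by
      rw [div_le_div_iff₀ (by positivity) (by norm_num)]
      nlinarith [ht.2]
    rw [hKBa, hn]
    set Z : ℝ := ((n / h : ℕ) : ℝ) * X with hZ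
    constructor
    · calc 7 * T * a ^ 2 / 2000 ≤ a * (a * (T / 8) / 7) := by nlinarith [mul_pos hT0 (pow_pos ha0 2)]
        _ ≤ α * (α * (t / (2 * Real.pi)) / 7) := by
            refine mul_le_mul hb1 (div_le_div_of_nonneg_right ?_ (by norm_num)) (by positivity) (by positivity)
            exact mul_le_mul hb1 ht1 (by positivity) (by positivity)
        _ ≤ α * Z := mul_le_mul_of_nonneg_left s1 a1.le
    · have ht3 : t / (2 * Real.pi) ≤ T / 3.14 := by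
        rw [div_le_div_iff₀ (by positivity) (by norm_num)]
        have := Real.pi_gt_d2
        nlinarith [ht.2]
      calc α * Z ≤ α * (5 * (α * (t / (2 * Real.pi)))) := mul_le_mul_of_nonneg_left s2 a1.le
        _ ≤ (2 * a) * (5 * ((2 * a) * (T / 3.14))) := by
            refine mul_le_mul hb2 (mul_le_mul_of_nonneg_left ?_ (by norm_num)) ?_ (by positivity)
            · exact mul_le_mul hb2 ht3 (div_nonneg (by linarith [ht.1]) (by positivity)) (by positivity)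
            · have : 0 ≤ t / (2 * Real.pi) := div_nonneg (by linarith [ht.1]) (by positivity)
              positivity
        _ ≤ 7 * T * a ^ 2 := by
            have : (0 : ℝ) < T * a ^ 2 := by positivity
            have e : (2 * a) * (5 * ((2 * a) * (T / 3.14))) = (20 / 3.14) * (T * a ^ 2) := by ring
            rw [e]
            nlinarith
  · intro t' ht'
    unfold cB
    rw [← mul_sub, ← mul_sub, ← Finset.sum_sub_distrib]
    rw [norm_mul, norm_mul, norm_pow, norm_neg, norm_one, one_pow, one_mul, Complex.norm_real, Real.norm_eq_abs,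
      abs_of_nonneg hF]
    have hdt : |t / (2 * Real.pi) - t' / (2 * Real.pi)| / (T / (2 * Real.pi)) = |t - t'| / T := by
      rw [← sub_div, abs_div, abs_of_pos (show (0 : ℝ) < 2 * Real.pi by positivity)]
      field_simp
    calc (T * KB T X i) ^ (1 / 4 : ℝ) * ‖∑ h ∈ n.divisors.filter (fun h : ℕ => 2 ^ i ≤ h ∧ h < 2 ^ (i + 1) ∧ (h : ℝ) ≤ 7 * X / G),
          (cf ω W G (h / X) (t / (2 * Real.pi)) (((n / h : ℕ) : ℝ) * X) -
            cf ω W G (h / X) (t' / (2 * Real.pi)) (((n / h : ℕ) : ℝ) * X))‖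
        ≤ (T * KB T X i) ^ (1 / 4 : ℝ) * ∑ h ∈ n.divisors.filter (fun h : ℕ => 2 ^ i ≤ h ∧ h < 2 ^ (i + 1) ∧ (h : ℝ) ≤ 7 * X / G),
          C2 * ((h : ℝ) / X * (T / (2 * Real.pi))) ^ (-1 / 2 : ℝ) * (|t - t'| / T) := by
          refine mul_le_mul_of_nonneg_left ((norm_sum_le _ _).trans (Finset.sum_le_sum fun h hh => ?_)) hF
          obtain ⟨k1, k2, k3, k4, k5, k6⟩ := key h hh
          obtain ⟨a1, a2, a3, a4, a5⟩ := alph T G X hT hG hGT hX h k1 k4
          have hnh : (0 : ℝ) < ((n / h : ℕ) : ℝ) := by exact_mod_cast k5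
          have h2pi : (0 : ℝ) < 2 * Real.pi := by positivity
          have := h2 G (h / X) (T / (2 * Real.pi)) (t / (2 * Real.pi)) (t' / (2 * Real.pi)) (((n / h : ℕ) : ℝ) * X)
            a1 a2 (by linarith) a3 (div_pos hT0 h2pi) a4 (mul_pos hnh hX0)
            (div_le_div_of_nonneg_right ht.1 h2pi.le)
            (by rw [← mul_div_assoc]; exact div_le_div_of_nonneg_right ht.2 h2pi.le)
            (div_le_div_of_nonneg_right ht'.1 h2pi.le)
            (by rw [← mul_div_assoc]; exact div_le_div_of_nonneg_right ht'.2 h2pi.le)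
          rw [hdt] at this
          exact this
      _ = ∑ h ∈ n.divisors.filter (fun h : ℕ => 2 ^ i ≤ h ∧ h < 2 ^ (i + 1) ∧ (h : ℝ) ≤ 7 * X / G),
          C2 * (|t - t'| / T) * ((T * KB T X i) ^ (1 / 4 : ℝ) * ((h : ℝ) / X * (T / (2 * Real.pi))) ^ (-1 / 2 : ℝ)) := by
          rw [Finset.mul_sum]
          refine Finset.sum_congr rfl fun h _ => by ring
      _ ≤ ∑ h ∈ n.divisors.filter (fun h : ℕ => 2 ^ i ≤ h ∧ h < 2 ^ (i + 1) ∧ (h : ℝ) ≤ 7 * X / G),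
          C2 * (|t - t'| / T) * 7 := by
          refine Finset.sum_le_sum fun h hh => mul_le_mul_of_nonneg_left ?_ (by positivity)
          obtain ⟨k1, k2, k3, k4, k5, k6⟩ := key h hh
          exact fac T X hT hX i h k2 _ le_rfl
      _ = ((n.divisors.filter (fun h : ℕ => 2 ^ i ≤ h ∧ h < 2 ^ (i + 1) ∧ (h : ℝ) ≤ 7 * X / G)).card : ℝ) *
          (C2 * (|t - t'| / T) * 7) := by
          rw [Finset.sum_const, nsmul_eq_mul]
      _ ≤ (n.divisors.card : ℝ) * (C2 * (|t - t'| / T) * 7) := mul_le_mul_of_nonneg_right hcard (by positivity)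
      _ ≤ (7 * C1 + 7 * C2) * n.divisors.card * |t - t'| / T := by
          have e1 : (0 : ℝ) ≤ (n.divisors.card : ℝ) * (|t - t'| / T) := by positivity
          have e2 : (7 * C1 + 7 * C2) * n.divisors.card * |t - t'| / T =
            (7 * C1 + 7 * C2) * ((n.divisors.card : ℝ) * (|t - t'| / T)) := by ring
          rw [e2]
          nlinarith

theorem ZB_sum (ω W : ℝ → ℝ) (hω : Bump ω) (hW : BumpW W) (B : ℝ) (hB : 1 ≤ B) : ∃ C : ℝ, 1 ≤ C ∧
    ∀ T G X : ℝ, 3 ≤ T → 700 ≤ G → T ^ (1 / 5 : ℝ) ≤ G → 1 ≤ X → X ≤ B * T → ∀ t ∈ Set.Icc T (2 * T),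
      X⁻¹ * ‖∑ h ∈ Finset.Icc 1 ⌊2 * X⌋₊, ZF ω W G X t h‖ ≤
        C * (1 + ∑ i ∈ iB G X, (T * KB T X i) ^ (-1 / 4 : ℝ) *
          ‖∑ n ∈ Finset.Icc 1 ⌊KB T X i⌋₊, cB ω W T G X i n t * ee (-zph n t)‖) := by
  obtain ⟨C1, hC1, h1⟩ := ZF_main ω W hω hW
  refine ⟨C1 * (1 + 2 * B ^ 2) + 1, by nlinarith [sq_nonneg B], fun T G X hT hG hGT hX hXB t ht => ?_⟩
  have hT0 : 0 < T := by linarith
  have hG0 : 0 < G := by linarith
  have hX0 : 0 < X := by linarith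
  set S : ℝ := ∑ i ∈ iB G X, (T * KB T X i) ^ (-1 / 4 : ℝ) *
          ‖∑ n ∈ Finset.Icc 1 ⌊KB T X i⌋₊, cB ω W T G X i n t * ee (-zph n t)‖ with hS
  have hS0 : 0 ≤ S := Finset.sum_nonneg fun i _ => by
    have : 0 ≤ T * KB T X i := by unfold KB; positivity
    positivity
  -- restrict to `h ≤ 7X/G`
  have h2 : ∑ h ∈ Finset.Icc 1 ⌊2 * X⌋₊, ZF ω W G X t h = ∑ h ∈ Finset.Icc 1 ⌊7 * X / G⌋₊, ZF ω W G X t h := by
    symm
    refine Finset.sum_subset ?_ ?_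
    · refine Finset.Icc_subset_Icc le_rfl (Nat.floor_le_floor ?_)
      rw [div_le_iff₀ hG0]
      nlinarith
    · intro h hh hn
      rw [Finset.mem_Icc] at hh
      refine ZF_zero ω W hω hW G X t h hG hX ?_
      rw [Finset.mem_Icc, not_and, not_le] at hn
      have h3 := Nat.lt_of_floor_lt (hn hh.1)
      rw [div_lt_div_iff₀ hG0 hX0]
      rw [div_lt_iff₀ hG0] at h3
      linarith
  rw [h2]
  have h3 : ∀ h ∈ Finset.Icc 1 ⌊7 * X / G⌋₊, (1 : ℝ) ≤ h ∧ (h : ℝ) ≤ 7 * X / G := by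
    intro h hh
    rw [Finset.mem_Icc] at hh
    exact ⟨by exact_mod_cast hh.1, (Nat.le_floor_iff (by positivity)).mp hh.2⟩
  set M : ℂ := ∑ h ∈ Finset.Icc 1 ⌊7 * X / G⌋₊, ∑ k ∈ Finset.Icc 1 ⌊20 * ((h : ℝ) / X * (t / (2 * Real.pi))) / X⌋₊,
      Mn ω W G (h / X) (t / (2 * Real.pi)) (k * X) with hM
  have h4 : ‖M‖ ≤ S := by
    rw [hM, regroup ω W hω T G X t (by linarith) hG hX ht.1 ht.2, hS]
    refine (norm_sum_le _ _).trans (Finset.sum_le_sum fun i _ => ?_)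
    rw [norm_mul, Complex.norm_real, Real.norm_eq_abs, abs_of_nonneg]
    have : 0 ≤ T * KB T X i := by unfold KB; positivity
    positivity
  have h5 : ‖(X : ℂ)⁻¹ * (∑ h ∈ Finset.Icc 1 ⌊7 * X / G⌋₊, ZF ω W G X t h) - M‖ ≤ C1 * (1 + 2 * B ^ 2) := by
    rw [Finset.mul_sum, hM, ← Finset.sum_sub_distrib]
    refine (norm_sum_le _ _).trans ?_
    calc ∑ h ∈ Finset.Icc 1 ⌊7 * X / G⌋₊, ‖(X : ℂ)⁻¹ * ZF ω W G X t h -
          ∑ k ∈ Finset.Icc 1 ⌊20 * ((h : ℝ) / X * (t / (2 * Real.pi))) / X⌋₊,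
            Mn ω W G (h / X) (t / (2 * Real.pi)) (k * X)‖
        ≤ ∑ h ∈ Finset.Icc 1 ⌊7 * X / G⌋₊, C1 * (1 / X + (X / (h * T)) ^ 2) := by
          refine Finset.sum_le_sum fun h hh => ?_
          have hh1 := (Finset.mem_Icc.mp hh).1
          refine h1 T G X t h (by linarith) hG hGT hX ht.1 ht.2 hh1 ?_
          have h7 := (h3 h hh).2
          rw [div_le_div_iff₀ hX0 hG0]
          rw [le_div_iff₀ hG0] at h7
          linarith
      _ = C1 * (∑ h ∈ Finset.Icc 1 ⌊7 * X / G⌋₊, 1 / X + (X / T) ^ 2 * ∑ h ∈ Finset.Icc 1 ⌊7 * X / G⌋₊, 1 / (h : ℝ) ^ 2) := by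
          rw [← Finset.mul_sum, Finset.sum_add_distrib, Finset.mul_sum (s := Finset.Icc 1 ⌊7 * X / G⌋₊) (a := (X / T) ^ 2)]
          congr 2
          refine Finset.sum_congr rfl fun h hh => ?_
          have : (h : ℝ) ≠ 0 := by have := (h3 h hh).1; positivity
          field_simp
      _ ≤ C1 * (1 + B ^ 2 * 2) := by
          refine mul_le_mul_of_nonneg_left (add_le_add ?_ ?_) (by linarith)
          · rw [Finset.sum_const, nsmul_eq_mul, Nat.card_Icc, Nat.add_sub_cancel, mul_one_div, div_le_one hX0]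
            refine (Nat.floor_le (by positivity)).trans ?_
            rw [div_le_iff₀ hG0]
            nlinarith
          · refine mul_le_mul (pow_le_pow_left₀ (by positivity) ?_ 2) ?_ (by positivity) (by positivity)
            · rw [div_le_iff₀ hT0]; exact hXB
            · have h6 : ∀ N : ℕ, ∑ h ∈ Finset.Icc 1 (N + 1), 1 / (h : ℝ) ^ 2 ≤ 2 - 1 / ((N : ℝ) + 1) := by
                intro N
                induction N with
                | zero => simp; norm_num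
                | succ N ih =>
                  rw [Finset.sum_Icc_succ_top (by omega)]
                  have e1 : (0 : ℝ) < (N : ℝ) + 1 := by positivity
                  have e2 : 1 / (((N + 1 + 1 : ℕ) : ℝ)) ^ 2 ≤ 1 / ((N : ℝ) + 1) - 1 / (((N + 1 : ℕ) : ℝ) + 1) := by
                    push_cast
                    rw [div_sub_div _ _ (by positivity) (by positivity), div_le_div_iff₀ (by positivity) (by positivity)]
                    nlinarith
                  linarith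
              rcases Nat.eq_zero_or_pos ⌊7 * X / G⌋₊ with h0 | h0
              · rw [h0]; simp
              · obtain ⟨m, hm⟩ : ∃ m, ⌊7 * X / G⌋₊ = m + 1 := ⟨⌊7 * X / G⌋₊ - 1, by omega⟩
                rw [hm]
                refine (h6 m).trans ?_
                have : (0 : ℝ) ≤ 1 / ((m : ℝ) + 1) := by positivity
                linarith
      _ = C1 * (1 + 2 * B ^ 2) := by ring
  have h6 : X⁻¹ * ‖∑ h ∈ Finset.Icc 1 ⌊7 * X / G⌋₊, ZF ω W G X t h‖ =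
      ‖(X : ℂ)⁻¹ * (∑ h ∈ Finset.Icc 1 ⌊7 * X / G⌋₊, ZF ω W G X t h)‖ := by
    rw [norm_mul, norm_inv, Complex.norm_real, Real.norm_eq_abs, abs_of_pos hX0]
  rw [h6]
  calc ‖(X : ℂ)⁻¹ * (∑ h ∈ Finset.Icc 1 ⌊7 * X / G⌋₊, ZF ω W G X t h)‖
      ≤ ‖(X : ℂ)⁻¹ * (∑ h ∈ Finset.Icc 1 ⌊7 * X / G⌋₊, ZF ω W G X t h) - M‖ + ‖M‖ := by
        have := norm_add_le ((X : ℂ)⁻¹ * (∑ h ∈ Finset.Icc 1 ⌊7 * X / G⌋₊, ZF ω W G X t h) - M) M
        rwa [sub_add_cancel] at this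
    _ ≤ C1 * (1 + 2 * B ^ 2) + S := add_le_add h5 h4
    _ ≤ (C1 * (1 + 2 * B ^ 2) + 1) * (1 + S) := by
        have : 0 ≤ C1 * (1 + 2 * B ^ 2) := by positivity
        nlinarith

end Pool.Agent.LibSX15
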