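import Pool.Agent.LibSX15.ZBDefs

/-!
Row ZB2 (only Mathlib). The substitution `η = etz z η0`.

PLAN: `s = (z + √(z²+4η0))/2 > 0` satisfies `s² - z s - η0 = 0`, `η = s²`, `√η = s`, `η - η0 = z s`. Derivative of `s`: `s' = (1 + z/√(z²+4η0))/2 = s/√(z²+4η0)`
and `√(z²+4η0) = 2s - z = s + η0/s = (η+η0)/s`, so `s' = s²/(η+η0)`, `η' = 2 s s' = 2 s³/(η+η0)`. `etz_tend`: `η ≥ z²` for `z ≥ 0` (`s ≥ z`), and for `z < 0`:
`s = 2η0/(√(z²+4η0) - z) ≤ η0/|z|`.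
-/

set_option autoImplicit false

namespace Pool.Agent.LibSX15

private noncomputable def zb2_s (z η0 : ℝ) : ℝ := (z + Real.sqrt (z ^ 2 + 4 * η0)) / 2

private theorem zb2_etz (z η0 : ℝ) : etz z η0 = zb2_s z η0 ^ 2 := rfl

private theorem zb2_rt (z η0 : ℝ) (h : 0 < η0) : |z| < Real.sqrt (z ^ 2 + 4 * η0) := by
  rw [← Real.sqrt_sq_eq_abs]
  exact Real.sqrt_lt_sqrt (sq_nonneg z) (by linarith)

private theorem zb2_pos (z η0 : ℝ) (h : 0 < η0) : 0 < zb2_s z η0 := by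
  have h1 := zb2_rt z η0 h
  have h2 := neg_abs_le z
  unfold zb2_s
  linarith

private theorem zb2_eq (z η0 : ℝ) (h : 0 < η0) : zb2_s z η0 ^ 2 = z * zb2_s z η0 + η0 := by
  have h1 : Real.sqrt (z ^ 2 + 4 * η0) ^ 2 = z ^ 2 + 4 * η0 :=
    Real.sq_sqrt (by nlinarith [sq_nonneg z])
  unfold zb2_s
  nlinarith [h1]

theorem etz_pos (z η0 : ℝ) (h : 0 < η0) : 0 < etz z η0 := by
  rw [zb2_etz]
  exact pow_pos (zb2_pos z η0 h) 2

theorem etz_zero (η0 : ℝ) (h : 0 ≤ η0) : etz 0 η0 = η0 := by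
  unfold etz
  have h1 : Real.sqrt ((0:ℝ) ^ 2 + 4 * η0) ^ 2 = 4 * η0 := by
    rw [Real.sq_sqrt (by nlinarith)]; ring
  rw [div_pow, zero_add, h1]
  ring

theorem etz_sq (z η0 : ℝ) (h : 0 < η0) : (etz z η0 - η0) ^ 2 = z ^ 2 * etz z η0 := by
  have h1 := zb2_eq z η0 h
  rw [zb2_etz]
  have h2 : zb2_s z η0 ^ 2 - η0 = z * zb2_s z η0 := by linarith
  rw [h2]
  ring

theorem etz_deriv (z η0 : ℝ) (h : 0 < η0) :
    HasDerivAt (fun z => etz z η0) (2 * etz z η0 * Real.sqrt (etz z η0) / (etz z η0 + η0)) z := by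
  have hpos := zb2_pos z η0 h
  have heq := zb2_eq z η0 h
  have hsq : 0 < z ^ 2 + 4 * η0 := by nlinarith [sq_nonneg z]
  have hrt : 0 < Real.sqrt (z ^ 2 + 4 * η0) := Real.sqrt_pos.2 hsq
  have h1 : HasDerivAt (fun z : ℝ => z ^ 2 + 4 * η0) (2 * z) z := by
    have := (hasDerivAt_pow 2 z).add_const (4 * η0)
    simpa using this
  have h2 : HasDerivAt (fun z : ℝ => Real.sqrt (z ^ 2 + 4 * η0))
      (2 * z / (2 * Real.sqrt (z ^ 2 + 4 * η0))) z := h1.sqrt hsq.ne'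
  have h3 : HasDerivAt (fun z : ℝ => (z + Real.sqrt (z ^ 2 + 4 * η0)) / 2)
      ((1 + 2 * z / (2 * Real.sqrt (z ^ 2 + 4 * η0))) / 2) z :=
    ((hasDerivAt_id z).add h2).div_const 2
  have h4 := h3.pow 2
  have h5 : Real.sqrt (etz z η0) = zb2_s z η0 := by
    rw [zb2_etz, Real.sqrt_sq hpos.le]
  have hR : Real.sqrt (z ^ 2 + 4 * η0) = 2 * zb2_s z η0 - z := by
    unfold zb2_s; ring
  refine h4.congr_deriv ?_
  rw [h5, zb2_etz]
  have h6 : ((z + Real.sqrt (z ^ 2 + 4 * η0)) / 2) = zb2_s z η0 := rfl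
  rw [h6]
  rw [hR] at hrt ⊢
  have h7 : (0:ℝ) < zb2_s z η0 ^ 2 + η0 := by positivity
  have h8 : zb2_s z η0 ^ 2 + η0 = zb2_s z η0 * (2 * zb2_s z η0 - z) := by linarith
  rw [h8]
  have hs := hpos.ne'
  have hr := hrt.ne'
  field_simp
  ring

theorem etz_smooth : ContDiffOn ℝ (⊤ : ℕ∞) (fun p : ℝ × ℝ => etz p.1 p.2) {p | 0 < p.2} := by
  intro p hp
  have hsq : p.1 ^ 2 + 4 * p.2 ≠ 0 := by
    have : 0 < p.2 := hp
    nlinarith [sq_nonneg p.1]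
  apply ContDiffAt.contDiffWithinAt
  unfold etz
  refine ContDiffAt.pow (ContDiffAt.div_const (ContDiffAt.add contDiffAt_fst
    (ContDiffAt.sqrt ?_ hsq)) 2) 2
  exact (contDiffAt_fst.pow 2).add (contDiffAt_const.mul contDiffAt_snd)

theorem etz_mono (η0 : ℝ) (h : 0 < η0) : StrictMono (fun z => etz z η0) := by
  apply strictMono_of_deriv_pos
  intro z
  rw [(etz_deriv z η0 h).deriv]
  have h1 := etz_pos z η0 h
  have h2 := Real.sqrt_pos.2 h1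
  positivity

theorem etz_bd (z η0 : ℝ) (h1 : 1 / 6 ≤ η0) (h2 : η0 ≤ 5) (h3 : 2 / 5 ≤ etz z η0) (h4 : etz z η0 ≤ 21 / 10) :
    |z| ≤ 8 := by
  have h5 := etz_sq z η0 (by linarith)
  apply abs_le_of_sq_le_sq' _ (by norm_num) |> abs_le.2
  by_contra h6
  push Not at h6
  have h7 : (64 : ℝ) * (2 / 5) ≤ z ^ 2 * etz z η0 := by
    have : (64:ℝ) ≤ z ^ 2 := by nlinarith
    exact mul_le_mul this h3 (by norm_num) (sq_nonneg z)
  nlinarith [h5, h7]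

theorem etz_large (z η0 : ℝ) (h : 0 < η0) (hz : 0 ≤ z) : z ^ 2 ≤ etz z η0 := by
  rw [zb2_etz]
  have h1 := zb2_rt z η0 h
  rw [abs_of_nonneg hz] at h1
  apply pow_le_pow_left₀ hz
  unfold zb2_s
  linarith

theorem etz_small (z η0 : ℝ) (h : 0 < η0) (hz : z < 0) : etz z η0 ≤ (η0 / z) ^ 2 := by
  rw [zb2_etz]
  have h1 := zb2_eq z η0 h
  have h2 := zb2_pos z η0 h
  have hz' : 0 < -z := by linarith
  have h3 : zb2_s z η0 ≤ η0 / (-z) := by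
    rw [le_div_iff₀ hz']
    nlinarith [sq_nonneg (zb2_s z η0)]
  have h4 : (η0 / z) ^ 2 = (η0 / (-z)) ^ 2 := by
    rw [div_neg, neg_sq]
  rw [h4]
  exact pow_le_pow_left₀ h2.le h3 2

end Pool.Agent.LibSX15
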