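import Pool.Agent.LibSX15.ZB1
import Pool.Agent.LibSX15.ZB2

/-!
Row ZB3. Supports and joint smoothness of `ampA`, `gz`, `bbf`.

PLAN `ampA_supp`: one of `α η`, `-(α η)` is `≥ 0`, there `phf ≤ 1`, so `1/2 ≤ phf/η ≤ 1/η` gives `η ≤ 2`; then `|α η| ≤ 1/25` and `phf ≥ 24/25` (`phf_near`), so
`2 ≥ phf/η ≥ (24/25)/η` gives `η ≥ 12/25 ≥ 2/5`.
PLAN `ampA_smooth`: at a point with `η < 2/5` or `η > 21/10` the function vanishes in a neighbourhood (`ampA_supp`); at a point with `η > 0` it is (near the point) the explicit formula: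
`√` is smooth at positive arguments, `ω`, `W`, `phf`, `sgf` smooth, `ee` smooth (`Complex.exp`).
`gz_smooth`: composition with `etz` (`etz_smooth`), `etz + η0 > 0`. `bbf_smooth`: for `y < 1/2` it vanishes near the point, for `y > 2/5` explicit (`y + α > 0`, `α/y > -1`).
`bbf_eq`: `G/(2π) log(1+α/y) = (Gα)/(2π) · (log(1+α/y)/(α/y))/y`.
-/

set_option autoImplicit false

namespace Pool.Agent.LibSX15

theorem ampA_supp (ω W : ℝ → ℝ) (hω : Bump ω) (η α β γ : ℝ) (hα : |α| ≤ 1 / 50)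
    (h : ampA ω W η α β γ ≠ 0) : 2 / 5 ≤ η ∧ η ≤ 21 / 10 := by
  unfold ampA at h
  split_ifs at h with hη
  · have h1 : ω (phf (α * η) / η) ≠ 0 := by
      intro h0
      apply h
      rw [h0]
      simp
    have h2 : ω (phf (-(α * η)) / η) ≠ 0 := by
      intro h0
      apply h
      rw [h0]
      simp
    have k1 := hω.supp _ h1
    have k2 := hω.supp _ h2
    rw [le_div_iff₀ hη, div_le_iff₀ hη] at k1 k2
    have hη2 : η ≤ 2 := by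
      rcases le_total 0 (α * η) with hz | hz
      · have := phf_le_one _ hz
        linarith
      · have := phf_le_one (-(α * η)) (by linarith)
        linarith
    have hab : |α * η| ≤ 1 / 25 := by
      rw [abs_mul, abs_of_pos hη]
      calc |α| * η ≤ 1 / 50 * 2 := mul_le_mul hα hη2 hη.le (by norm_num)
        _ = 1 / 25 := by norm_num
    have hn := phf_near (α * η)
    have hn2 := (abs_le.mp (hn.trans hab)).1
    constructor <;> linarith [k1.2]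
  · exact absurd rfl h

private theorem ZB3_ee : ContDiff ℝ (⊤ : ℕ∞) ee := by
  unfold ee
  apply ContDiff.cexp
  apply ContDiff.mul _ contDiff_const
  exact Complex.ofRealCLM.contDiff.comp (contDiff_const.mul contDiff_id)

private theorem ZB3_ofReal {E : Type*} [NormedAddCommGroup E] [NormedSpace ℝ E] {f : E → ℝ} {x : E}
    (hf : ContDiffAt ℝ (⊤ : ℕ∞) f x) : ContDiffAt ℝ (⊤ : ℕ∞) (fun y => ((f y : ℝ) : ℂ)) x :=
  Complex.ofRealCLM.contDiff.contDiffAt.comp x hf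

private theorem ZB3_ampA (ω W : ℝ → ℝ) (hω : Bump ω) (hW : BumpW W) (p : ℝ × ℝ × ℝ × ℝ)
    (hp : |p.2.1| < 1 / 50) :
    ContDiffAt ℝ (⊤ : ℕ∞) (fun p : ℝ × ℝ × ℝ × ℝ => ampA ω W p.1 p.2.1 p.2.2.1 p.2.2.2) p := by
  rcases lt_or_ge p.1 (2 / 5) with h1 | h1
  · have he : (fun p : ℝ × ℝ × ℝ × ℝ => ampA ω W p.1 p.2.1 p.2.2.1 p.2.2.2) =ᶠ[nhds p] fun _ => (0 : ℂ) := by
      have o1 : {q : ℝ × ℝ × ℝ × ℝ | q.1 < 2 / 5} ∈ nhds p :=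
        (isOpen_lt continuous_fst continuous_const).mem_nhds h1
      have o2 : {q : ℝ × ℝ × ℝ × ℝ | |q.2.1| < 1 / 50} ∈ nhds p :=
        (isOpen_lt (by fun_prop) continuous_const).mem_nhds hp
      filter_upwards [o1, o2] with q hq1 hq2
      by_contra hne
      have := (ampA_supp ω W hω q.1 q.2.1 q.2.2.1 q.2.2.2 (le_of_lt hq2) hne).1
      exact absurd hq1 (not_lt.mpr this)
    exact contDiffAt_const.congr_of_eventuallyEq he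
  · have hpos : 0 < p.1 := lt_of_lt_of_le (by norm_num) h1
    have he : (fun p : ℝ × ℝ × ℝ × ℝ => ampA ω W p.1 p.2.1 p.2.2.1 p.2.2.2) =ᶠ[nhds p] fun p =>
        ((Real.sqrt p.1 * Real.sqrt (phf (p.2.1 * p.1) * phf (-(p.2.1 * p.1))) * ω (phf (p.2.1 * p.1) / p.1) *
          ω (phf (-(p.2.1 * p.1)) / p.1) *
          W (p.2.2.1 * p.1 / (2 * Real.pi)) : ℝ) : ℂ) * ee (-(p.2.2.2 * p.1 ^ 3 * sgf (p.2.1 * p.1))) := by
      have o1 : {q : ℝ × ℝ × ℝ × ℝ | 0 < q.1} ∈ nhds p :=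
        (isOpen_lt continuous_const continuous_fst).mem_nhds hpos
      filter_upwards [o1] with q hq1
      unfold ampA
      rw [if_pos hq1]
    refine ContDiffAt.congr_of_eventuallyEq ?_ he
    have c1 : ContDiffAt ℝ (⊤ : ℕ∞) (fun p : ℝ × ℝ × ℝ × ℝ => p.1) p := contDiffAt_fst
    have c2 : ContDiffAt ℝ (⊤ : ℕ∞) (fun p : ℝ × ℝ × ℝ × ℝ => p.2.1) p := contDiffAt_fst.comp p contDiffAt_snd
    have c22 : ContDiffAt ℝ (⊤ : ℕ∞) (fun p : ℝ × ℝ × ℝ × ℝ => p.2.2) p := contDiffAt_snd.comp p contDiffAt_snd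
    have c3 : ContDiffAt ℝ (⊤ : ℕ∞) (fun p : ℝ × ℝ × ℝ × ℝ => p.2.2.1) p := contDiffAt_fst.comp p c22
    have c4 : ContDiffAt ℝ (⊤ : ℕ∞) (fun p : ℝ × ℝ × ℝ × ℝ => p.2.2.2) p := contDiffAt_snd.comp p c22
    have c5 : ContDiffAt ℝ (⊤ : ℕ∞) (fun p : ℝ × ℝ × ℝ × ℝ => p.2.1 * p.1) p := c2.mul c1
    have c6 : ContDiffAt ℝ (⊤ : ℕ∞) (fun p : ℝ × ℝ × ℝ × ℝ => phf (p.2.1 * p.1)) p :=
      phf_smooth.contDiffAt.comp p c5
    have c7 : ContDiffAt ℝ (⊤ : ℕ∞) (fun p : ℝ × ℝ × ℝ × ℝ => phf (-(p.2.1 * p.1))) p :=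
      phf_smooth.contDiffAt.comp p c5.neg
    have c8 : ContDiffAt ℝ (⊤ : ℕ∞) (fun p : ℝ × ℝ × ℝ × ℝ => sgf (p.2.1 * p.1)) p :=
      sgf_smooth.contDiffAt.comp p c5
    have d1 : ContDiffAt ℝ (⊤ : ℕ∞) (fun p : ℝ × ℝ × ℝ × ℝ => Real.sqrt p.1) p := c1.sqrt hpos.ne'
    have d2 : ContDiffAt ℝ (⊤ : ℕ∞) (fun p : ℝ × ℝ × ℝ × ℝ =>
        Real.sqrt (phf (p.2.1 * p.1) * phf (-(p.2.1 * p.1)))) p :=
      (c6.mul c7).sqrt (mul_pos (phf_pos _) (phf_pos _)).ne'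
    have d3 : ContDiffAt ℝ (⊤ : ℕ∞) (fun p : ℝ × ℝ × ℝ × ℝ => ω (phf (p.2.1 * p.1) / p.1)) p :=
      hω.smooth.contDiffAt.comp p (c6.div c1 hpos.ne')
    have d4 : ContDiffAt ℝ (⊤ : ℕ∞) (fun p : ℝ × ℝ × ℝ × ℝ => ω (phf (-(p.2.1 * p.1)) / p.1)) p :=
      hω.smooth.contDiffAt.comp p (c7.div c1 hpos.ne')
    have d5 : ContDiffAt ℝ (⊤ : ℕ∞) (fun p : ℝ × ℝ × ℝ × ℝ => W (p.2.2.1 * p.1 / (2 * Real.pi))) p :=
      hW.smooth.contDiffAt.comp p ((c3.mul c1).div_const _)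
    have d6 : ContDiffAt ℝ (⊤ : ℕ∞) (fun p : ℝ × ℝ × ℝ × ℝ => ee (-(p.2.2.2 * p.1 ^ 3 * sgf (p.2.1 * p.1)))) p :=
      ZB3_ee.contDiffAt.comp p ((c4.mul (c1.pow 3)).mul c8).neg
    exact (ZB3_ofReal ((((d1.mul d2).mul d3).mul d4).mul d5)).mul d6

theorem ampA_smooth (ω W : ℝ → ℝ) (hω : Bump ω) (hW : BumpW W) :
    ContDiffOn ℝ (⊤ : ℕ∞) (fun p : ℝ × ℝ × ℝ × ℝ => ampA ω W p.1 p.2.1 p.2.2.1 p.2.2.2) {p | |p.2.1| < 1 / 50} :=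
  fun p hp => (ZB3_ampA ω W hω hW p hp).contDiffWithinAt

theorem gz_smooth (ω W : ℝ → ℝ) (hω : Bump ω) (hW : BumpW W) :
    ContDiffOn ℝ (⊤ : ℕ∞) (fun p : ℝ × ℝ × ℝ × ℝ × ℝ => gz ω W p.1 p.2.1 p.2.2.1 p.2.2.2.1 p.2.2.2.2)
      {p | 0 < p.2.1 ∧ |p.2.2.1| < 1 / 50} := by
  intro p hp
  apply ContDiffAt.contDiffWithinAt
  have c1 : ContDiffAt ℝ (⊤ : ℕ∞) (fun p : ℝ × ℝ × ℝ × ℝ × ℝ => p.1) p := contDiffAt_fst
  have c2 : ContDiffAt ℝ (⊤ : ℕ∞) (fun p : ℝ × ℝ × ℝ × ℝ × ℝ => p.2.1) p := contDiffAt_fst.comp p contDiffAt_snd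
  have c22 : ContDiffAt ℝ (⊤ : ℕ∞) (fun p : ℝ × ℝ × ℝ × ℝ × ℝ => p.2.2) p :=
    contDiffAt_snd.comp p contDiffAt_snd
  have ho : IsOpen {q : ℝ × ℝ | 0 < q.2} := isOpen_lt continuous_const continuous_snd
  have e0 : ContDiffAt ℝ (⊤ : ℕ∞) (fun q : ℝ × ℝ => etz q.1 q.2) (p.1, p.2.1) :=
    etz_smooth.contDiffAt (ho.mem_nhds hp.1)
  have e1 : ContDiffAt ℝ (⊤ : ℕ∞) (fun p : ℝ × ℝ × ℝ × ℝ × ℝ => etz p.1 p.2.1) p :=
    ContDiffAt.comp (g := fun q : ℝ × ℝ => etz q.1 q.2) p e0 (c1.prodMk c2)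
  have hpos : 0 < etz p.1 p.2.1 + p.2.1 := add_pos (etz_pos _ _ hp.1) hp.1
  have e2 : ContDiffAt ℝ (⊤ : ℕ∞) (fun p : ℝ × ℝ × ℝ × ℝ × ℝ => 2 / (etz p.1 p.2.1 + p.2.1)) p :=
    contDiffAt_const.div (e1.add c2) hpos.ne'
  have e3 : ContDiffAt ℝ (⊤ : ℕ∞) (fun p : ℝ × ℝ × ℝ × ℝ × ℝ =>
      ampA ω W (etz p.1 p.2.1) p.2.2.1 p.2.2.2.1 p.2.2.2.2) p :=
    ContDiffAt.comp (g := fun p : ℝ × ℝ × ℝ × ℝ => ampA ω W p.1 p.2.1 p.2.2.1 p.2.2.2) p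
      (ZB3_ampA ω W hω hW (etz p.1 p.2.1, p.2.2) hp.2) (e1.prodMk c22)
  exact (ZB3_ofReal e2).mul e3

theorem bbf_smooth (ω W : ℝ → ℝ) (hω : Bump ω) (hW : BumpW W) :
    ContDiffOn ℝ (⊤ : ℕ∞) (fun p : ℝ × ℝ × ℝ => bbf ω W p.1 p.2.1 p.2.2) {p | |p.2.1| < 1 / 50} := by
  intro p hp
  have hp' : |p.2.1| < 1 / 50 := hp
  apply ContDiffAt.contDiffWithinAt
  rcases lt_or_ge p.1 (9 / 20) with h1 | h1
  · have he : (fun p : ℝ × ℝ × ℝ => bbf ω W p.1 p.2.1 p.2.2) =ᶠ[nhds p] fun _ => (0 : ℝ) := by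
      have o1 : {q : ℝ × ℝ × ℝ | q.1 < 9 / 20} ∈ nhds p :=
        (isOpen_lt continuous_fst continuous_const).mem_nhds h1
      filter_upwards [o1] with q hq1
      have h0 : ω q.1 = 0 := by
        by_contra hne
        have h2 := (hω.supp _ hne).1
        have h3 : q.1 < 9 / 20 := hq1
        linarith
      unfold bbf
      rw [h0]
      simp
    exact contDiffAt_const.congr_of_eventuallyEq he
  · have hpos : 0 < p.1 := lt_of_lt_of_le (by norm_num) h1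
    have hab := abs_lt.mp hp'
    have hpos2 : 0 < p.1 + p.2.1 := by linarith [hab.1]
    have hlg : -1 < p.2.1 / p.1 := by
      rw [lt_div_iff₀ hpos]
      linarith [hab.1]
    have c1 : ContDiffAt ℝ (⊤ : ℕ∞) (fun p : ℝ × ℝ × ℝ => p.1) p := contDiffAt_fst
    have c2 : ContDiffAt ℝ (⊤ : ℕ∞) (fun p : ℝ × ℝ × ℝ => p.2.1) p := contDiffAt_fst.comp p contDiffAt_snd
    have c3 : ContDiffAt ℝ (⊤ : ℕ∞) (fun p : ℝ × ℝ × ℝ => p.2.2) p := contDiffAt_snd.comp p contDiffAt_snd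
    have d1 : ContDiffAt ℝ (⊤ : ℕ∞) (fun p : ℝ × ℝ × ℝ => ω p.1) p := hω.smooth.contDiffAt.comp p c1
    have d2 : ContDiffAt ℝ (⊤ : ℕ∞) (fun p : ℝ × ℝ × ℝ => ω (p.1 + p.2.1)) p :=
      hω.smooth.contDiffAt.comp p (c1.add c2)
    have d3 : ContDiffAt ℝ (⊤ : ℕ∞) (fun p : ℝ × ℝ × ℝ => Real.sqrt (p.1 * (p.1 + p.2.1))) p :=
      (c1.mul (c1.add c2)).sqrt (mul_pos hpos hpos2).ne'
    have d4 : ContDiffAt ℝ (⊤ : ℕ∞) (fun p : ℝ × ℝ × ℝ => lgf (p.2.1 / p.1)) p :=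
      ContDiffAt.comp (g := lgf) (f := fun p : ℝ × ℝ × ℝ => p.2.1 / p.1) p
        (lgf_smooth (p.2.1 / p.1) hlg) (c2.div c1 hpos.ne')
    have d5 : ContDiffAt ℝ (⊤ : ℕ∞) (fun p : ℝ × ℝ × ℝ =>
        W (p.2.2 / (2 * Real.pi) * (lgf (p.2.1 / p.1) / p.1))) p :=
      hW.smooth.contDiffAt.comp p ((c3.div_const _).mul (d4.div c1 hpos.ne'))
    exact ((d1.mul d2).div d3 (Real.sqrt_pos.mpr (mul_pos hpos hpos2)).ne').mul d5

theorem bbf_eq (ω W : ℝ → ℝ) (G α y : ℝ) (hα : 0 < α) (hy : 0 < y) :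
    bfun ω W G α y = bbf ω W y α (G * α) := by
  unfold bfun bbf lgf
  have h : α / y ≠ 0 := (div_pos hα hy).ne'
  rw [if_neg h]
  congr 2
  field_simp

end Pool.Agent.LibSX15
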