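import Pool.Agent.LibSX15.ZB3
import Pool.Agent.LibSX15.ZB4
import Pool.Agent.LibSX15.KN_SP0

/-!
Row ZB5. Stationary phase for `gz`, uniformly in the parameters.

PLAN: `joint_bd` for `f (z, η0, α, β, γ) = gz ω W z η0 α β γ`, `U = {0 < η0, |α| < 1/50}` (open), `K = [-9,9] × [1/6,5] × [0,1/100] × [0,7] × [0,Γ]` (compact). For fixed parameters, the function
`g z = gz …` has the derivatives `g1`, `g2` for all real `z`; for `|z| > 8` it vanishes (`ampA_supp` + `etz_bd`), hence `g1 z = g2 z = 0` for `|z| > 8` (derivatives of a function that vanishes near `z`), so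
`KN_SP0` applies with `R = 8` and the bound `G` of `joint_bd` (`|z| ≤ 8`: point of `K`), `A ≥ 1`.
-/

set_option autoImplicit false

namespace Pool.Agent.LibSX15

theorem SP_gz (ω W : ℝ → ℝ) (hω : Bump ω) (hW : BumpW W) (Γ : ℝ) : ∃ C : ℝ, 1 ≤ C ∧
    ∀ η0 α β γ A : ℝ, 1 / 6 ≤ η0 → η0 ≤ 5 → 0 ≤ α → α ≤ 1 / 100 → 0 ≤ β → β ≤ 7 → 0 ≤ γ → γ ≤ Γ → 1 ≤ A →
    ‖(∫ z : ℝ, gz ω W z η0 α β γ * ee (-(A * z ^ 2))) - sp A * gz ω W 0 η0 α β γ‖ ≤ C / A := by
  set U : Set (ℝ × ℝ × ℝ × ℝ × ℝ) := {p | 0 < p.2.1 ∧ |p.2.2.1| < 1 / 50} with hU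
  have hUo : IsOpen U := by
    have c1 : Continuous fun p : ℝ × ℝ × ℝ × ℝ × ℝ => p.2.1 := continuous_fst.comp continuous_snd
    have c2 : Continuous fun p : ℝ × ℝ × ℝ × ℝ × ℝ => |p.2.2.1| :=
      (continuous_fst.comp (continuous_snd.comp continuous_snd)).abs
    exact (isOpen_lt continuous_const c1).inter (isOpen_lt c2 continuous_const)
  set K : Set (ℝ × ℝ × ℝ × ℝ × ℝ) := Set.Icc (-9 : ℝ) 9 ×ˢ Set.Icc (1 / 6 : ℝ) 5 ×ˢ
    Set.Icc (0 : ℝ) (1 / 100) ×ˢ Set.Icc (0 : ℝ) 7 ×ˢ Set.Icc (0 : ℝ) Γ with hK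
  have hKc : IsCompact K := isCompact_Icc.prod (isCompact_Icc.prod (isCompact_Icc.prod
    (isCompact_Icc.prod isCompact_Icc)))
  have hKU : K ⊆ U := by
    rintro ⟨z, η0, α, β, γ⟩ ⟨_, h1, h2, _, _⟩
    simp only [Set.mem_Icc] at h1 h2
    refine ⟨?_, ?_⟩
    · show 0 < η0
      linarith [h1.1]
    · show |α| < 1 / 50
      rw [abs_of_nonneg h2.1]
      linarith [h2.2]
  obtain ⟨G, f1, f2, hG, -, cf2, d1, d2, hb⟩ := joint_bd _ U hUo (gz_smooth ω W hω hW) K hKc hKU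
  refine ⟨2400 * G, by linarith, ?_⟩
  intro η0 α β γ A a1 a2 a3 a4 a5 a6 a7 a8 hA
  have hη : 0 < η0 := by linarith
  have hp : ∀ x : ℝ, (x, η0, α, β, γ) ∈ U := by
    intro x
    refine ⟨hη, ?_⟩
    show |α| < 1 / 50
    rw [abs_of_nonneg a3]
    linarith
  have hin : ∀ x : ℝ, |x| ≤ 8 → (x, η0, α, β, γ) ∈ K := by
    intro x hx
    rw [abs_le] at hx
    exact ⟨⟨by linarith [hx.1], by linarith [hx.2]⟩, ⟨a1, a2⟩, ⟨a3, a4⟩, ⟨a5, a6⟩, ⟨a7, a8⟩⟩
  have hs : ∀ x : ℝ, 8 < |x| → gz ω W x η0 α β γ = 0 := by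
    intro x hx
    by_contra h
    have h1 : ampA ω W (etz x η0) α β γ ≠ 0 := by
      intro h0
      apply h
      rw [gz, h0, mul_zero]
    obtain ⟨h2, h3⟩ := ampA_supp ω W hω (etz x η0) α β γ
      (by rw [abs_of_nonneg a3]; linarith) h1
    exact absurd (etz_bd x η0 a1 a2 h2 h3) (not_le.2 hx)
  have hop : IsOpen {x : ℝ | 8 < |x|} := isOpen_lt continuous_const continuous_abs
  have dg : ∀ x, HasDerivAt (fun z => gz ω W z η0 α β γ) (f1 (x, η0, α, β, γ)) x := fun x =>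
    d1 x (η0, α, β, γ) (hp x)
  have dg1 : ∀ x, HasDerivAt (fun z => f1 (z, η0, α, β, γ)) (f2 (x, η0, α, β, γ)) x := fun x =>
    d2 x (η0, α, β, γ) (hp x)
  have hs1 : ∀ x : ℝ, 8 < |x| → f1 (x, η0, α, β, γ) = 0 := by
    intro x hx
    have h1 : (fun z => gz ω W z η0 α β γ) =ᶠ[nhds x] fun _ => 0 := by
      filter_upwards [hop.mem_nhds hx] with y hy
      exact hs y hy
    have h2 : HasDerivAt (fun z => gz ω W z η0 α β γ) 0 x :=
      (hasDerivAt_const x (0 : ℂ)).congr_of_eventuallyEq h1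
    exact (dg x).unique h2
  have hs2 : ∀ x : ℝ, 8 < |x| → f2 (x, η0, α, β, γ) = 0 := by
    intro x hx
    have h1 : (fun z => f1 (z, η0, α, β, γ)) =ᶠ[nhds x] fun _ => 0 := by
      filter_upwards [hop.mem_nhds hx] with y hy
      exact hs1 y hy
    have h2 : HasDerivAt (fun z => f1 (z, η0, α, β, γ)) 0 x :=
      (hasDerivAt_const x (0 : ℂ)).congr_of_eventuallyEq h1
    exact (dg1 x).unique h2
  have hG0 : (0 : ℝ) ≤ G := by linarith
  have hc : Continuous fun z => f2 (z, η0, α, β, γ) :=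
    cf2.comp_continuous (continuous_id.prodMk continuous_const) hp
  have h := KN_SP0 (fun z => gz ω W z η0 α β γ) (fun z => f1 (z, η0, α, β, γ))
    (fun z => f2 (z, η0, α, β, γ)) 8 G A (by norm_num) (by rw [abs_of_pos (by linarith)]; exact hA)
    dg dg1 hc hs
    (fun x => by
      by_cases hx : |x| ≤ 8
      · exact (hb _ (hin x hx)).1
      · rw [hs x (not_le.1 hx), norm_zero]; exact hG0)
    (fun x => by
      by_cases hx : |x| ≤ 8
      · exact (hb _ (hin x hx)).2.1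
      · rw [hs1 x (not_le.1 hx), norm_zero]; exact hG0)
    (fun x => by
      by_cases hx : |x| ≤ 8
      · exact (hb _ (hin x hx)).2.2
      · rw [hs2 x (not_le.1 hx), norm_zero]; exact hG0)
  rw [abs_of_pos (by linarith : 0 < A)] at h
  refine h.trans (le_of_eq ?_)
  ring

end Pool.Agent.LibSX15
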