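import Pool.Agent.LibSX15.ZB3

/-!
Row ZB6 (strong). The exact change of variable `y = phf (α η)/η`, `η = etz z η0`, `η0 = et α τ Z`.
-/

set_option autoImplicit false

namespace Pool.Agent.LibSX15

open MeasureTheory Set

private theorem ZB6_ee_add (a b : ℝ) : ee (a + b) = ee a * ee b := by
  unfold ee
  rw [← Complex.exp_add]
  congr 1
  push_cast
  ring

/-- the function `Y(η) = α / (e^(α η) - 1)` -/
private theorem ZB6_phf {α η : ℝ} (hα : 0 < α) (hη : 0 < η) :
    phf (α * η) / η = α / (Real.exp (α * η) - 1) := by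
  have hs : 0 < α * η := mul_pos hα hη
  have hE : 1 < Real.exp (α * η) := Real.one_lt_exp_iff.2 hs
  have hE' : Real.exp (α * η) - 1 ≠ 0 := by linarith
  unfold phf
  rw [if_neg hs.ne']
  field_simp

private theorem ZB6_phf_neg {α η : ℝ} (hα : 0 < α) (hη : 0 < η) :
    phf (-(α * η)) / η = α / (Real.exp (α * η) - 1) + α := by
  rw [phf_neg, add_div, ZB6_phf hα hη]
  congr 1
  field_simp

private theorem ZB6_deriv {α : ℝ} (hα : 0 < α) {η0 : ℝ} (h0 : 0 < η0) (z : ℝ) :
    HasDerivAt (fun z => α / (Real.exp (α * etz z η0) - 1))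
      (-((α / (Real.exp (α * etz z η0) - 1)) * (α / (Real.exp (α * etz z η0) - 1) + α) *
        (2 * etz z η0 * Real.sqrt (etz z η0) / (etz z η0 + η0)))) z := by
  have hη := etz_pos z η0 h0
  have hs : 0 < α * etz z η0 := mul_pos hα hη
  have hE : 1 < Real.exp (α * etz z η0) := Real.one_lt_exp_iff.2 hs
  have hE' : Real.exp (α * etz z η0) - 1 ≠ 0 := by linarith
  have h1 := (etz_deriv z η0 h0).const_mul α
  have h2 := (h1.exp).sub_const 1
  have h3 := h2.inv hE'
  have h4 := h3.const_mul α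
  refine (h4.congr_of_eventuallyEq (Filter.Eventually.of_forall fun x => ?_)).congr_deriv ?_
  · simp only [div_eq_mul_inv, Pi.inv_apply]
  · have hne : etz z η0 + η0 ≠ 0 := by linarith
    field_simp
    ring

private theorem ZB6_surj {α : ℝ} (hα : 0 < α) {η0 : ℝ} {y : ℝ} (hy : 0 < y) (h0 : 0 < η0) :
    ∃ z, α / (Real.exp (α * etz z η0) - 1) = y := by
  set η : ℝ := Real.log (1 + α / y) / α with hη
  have h1 : 0 < α / y := by positivity
  have hlog : 0 < Real.log (1 + α / y) := Real.log_pos (by linarith)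
  have hηp : 0 < η := by positivity
  have hs : 0 < Real.sqrt η := Real.sqrt_pos.2 hηp
  have hss : Real.sqrt η * Real.sqrt η = η := Real.mul_self_sqrt hηp.le
  refine ⟨Real.sqrt η - η0 / Real.sqrt η, ?_⟩
  have h2 : etz (Real.sqrt η - η0 / Real.sqrt η) η0 = η := by
    unfold etz
    have h3 : (Real.sqrt η - η0 / Real.sqrt η) ^ 2 + 4 * η0 = (Real.sqrt η + η0 / Real.sqrt η) ^ 2 := by
      field_simp
      ring
    rw [h3, Real.sqrt_sq (by positivity)]
    have h4 : (Real.sqrt η - η0 / Real.sqrt η + (Real.sqrt η + η0 / Real.sqrt η)) / 2 = Real.sqrt η := by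
      ring
    rw [h4, pow_two, hss]
  rw [h2]
  have h5 : α * η = Real.log (1 + α / y) := by
    rw [hη]
    field_simp
  rw [h5, Real.exp_log (by linarith)]
  have h6 : 1 + α / y - 1 = α / y := by ring
  rw [h6]
  field_simp

theorem Jk_change (ω W : ℝ → ℝ) (hω : Bump ω) (hW : BumpW W) (G α τ Z : ℝ) (hα : 0 < α) (hα2 : α ≤ 1 / 100)
    (hτ : 0 < τ) (hZ : 0 < Z) :
    Jk ω W G α τ Z = ee (α * Z / 2) * ee (-(2 * Real.sqrt (α * Z * (τ + α * Z / 12)))) *
      ∫ z : ℝ, gz ω W z (et α τ Z) α (G * α) (α ^ 4 * Z) * ee (-(α * (τ + α * Z / 12) * z ^ 2)) := by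
  set A : ℝ := α * (τ + α * Z / 12) with hA
  have hAp : 0 < A := by positivity
  set η0 : ℝ := et α τ Z with hη0
  have h0 : 0 < η0 := by
    rw [hη0]
    unfold et
    exact Real.sqrt_pos.2 (by positivity)
  have hAZ : A * η0 ^ 2 = Z := by
    rw [hη0]
    unfold et
    rw [Real.sq_sqrt (by positivity), ← hA]
    field_simp
  have hroot : Real.sqrt (α * Z * (τ + α * Z / 12)) = A * η0 := by
    have h1 : α * Z * (τ + α * Z / 12) = (A * η0) ^ 2 := by
      have h2 : (A * η0) ^ 2 = A * (A * η0 ^ 2) := by ring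
      rw [h2, hAZ, hA]
      ring
    rw [h1, Real.sqrt_sq (by positivity)]
  set F : ℝ → ℂ := fun y => (bfun ω W G α y : ℂ) * ee (-(τ * Real.log (1 + α / y)) - Z * y) with hF
  have hF0 : ∀ y, F y ≠ 0 → 1 / 2 ≤ y ∧ y ≤ 2 := by
    intro y hy
    apply hω.supp
    intro h1
    apply hy
    simp only [hF, bfun, h1, zero_mul, zero_div, Complex.ofReal_zero]
  set Y : ℝ → ℝ := fun z => α / (Real.exp (α * etz z η0) - 1) with hY
  have hYpos : ∀ z, 0 < Y z := by
    intro z
    have hη := etz_pos z η0 h0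
    have hs : 0 < α * etz z η0 := mul_pos hα hη
    have hE : 1 < Real.exp (α * etz z η0) := Real.one_lt_exp_iff.2 hs
    have : 0 < Real.exp (α * etz z η0) - 1 := by linarith
    simp only [hY]
    positivity
  have himg : Y '' univ = Ioi 0 := by
    ext y
    constructor
    · rintro ⟨z, -, rfl⟩
      exact hYpos z
    · intro hy
      obtain ⟨z, hz⟩ := ZB6_surj hα (η0 := η0) (y := y) hy h0
      exact ⟨z, mem_univ _, hz⟩
  have hinj : InjOn Y univ := by
    have hanti : StrictAnti Y := by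
      intro a b hab
      have h1 := etz_mono η0 h0 hab
      have ha := etz_pos a η0 h0
      simp only at h1
      have h2 : α * etz a η0 < α * etz b η0 := mul_lt_mul_of_pos_left h1 hα
      have h3 := Real.exp_lt_exp.2 h2
      have h4 : 1 < Real.exp (α * etz a η0) := Real.one_lt_exp_iff.2 (mul_pos hα ha)
      exact div_lt_div_of_pos_left hα (by linarith) (by linarith)
    exact hanti.injective.injOn
  have e1 : Jk ω W G α τ Z = ∫ y in Ioi (0 : ℝ), F y := by
    unfold Jk
    rw [intervalIntegral.integral_of_le (by norm_num), ← integral_Icc_eq_integral_Ioc]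
    refine (setIntegral_eq_of_subset_of_forall_sdiff_eq_zero measurableSet_Ioi ?_ ?_).symm
    · intro y hy
      have := hy.1
      simp only [mem_Ioi]
      linarith
    · intro y hy
      by_contra h1
      exact hy.2 (mem_Icc.2 (hF0 y h1))
  have e2 : ∫ y in Ioi (0 : ℝ), F y = ∫ z in univ, |(-((α / (Real.exp (α * etz z η0) - 1)) *
        (α / (Real.exp (α * etz z η0) - 1) + α) *
        (2 * etz z η0 * Real.sqrt (etz z η0) / (etz z η0 + η0))))| • F (Y z) := by
    rw [← himg]
    exact integral_image_eq_integral_abs_deriv_smul MeasurableSet.univ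
      (fun z _ => (ZB6_deriv hα h0 z).hasDerivWithinAt) hinj F
  rw [e1, e2, setIntegral_univ, ← integral_const_mul]
  congr 1
  funext z
  have hη := etz_pos z η0 h0
  have hsq := etz_sq z η0 h0
  set η : ℝ := etz z η0 with hηd
  have hs : 0 < α * η := mul_pos hα hη
  have hE : 1 < Real.exp (α * η) := Real.one_lt_exp_iff.2 hs
  have hYz : Y z = α / (Real.exp (α * η) - 1) := rfl
  set y : ℝ := Y z with hyd
  have hy : 0 < y := hYpos z
  have hy1 : phf (α * η) / η = y := by rw [ZB6_phf hα hη, hYz]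
  have hy2 : phf (-(α * η)) / η = y + α := by rw [ZB6_phf_neg hα hη, hYz]
  rw [← hYz]
  have hp1 : phf (α * η) = y * η := by
    rw [← hy1]
    field_simp
  have hp2 : phf (-(α * η)) = (y + α) * η := by
    rw [← hy2]
    field_simp
  have hlog : Real.log (1 + α / y) = α * η := by
    have h1 : 1 + α / y = Real.exp (α * η) := by
      rw [hYz]
      field_simp
      ring
    rw [h1, Real.log_exp]
  have hsη : 0 < Real.sqrt η := Real.sqrt_pos.2 hη
  have hyy : 0 < y * (y + α) := by positivity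
  have hsyy : 0 < Real.sqrt (y * (y + α)) := Real.sqrt_pos.2 hyy
  have hsyy2 : Real.sqrt (y * (y + α)) * Real.sqrt (y * (y + α)) = y * (y + α) :=
    Real.mul_self_sqrt hyy.le
  have hsp : Real.sqrt (phf (α * η) * phf (-(α * η))) = Real.sqrt (y * (y + α)) * η := by
    rw [hp1, hp2]
    have h1 : y * η * ((y + α) * η) = (y * (y + α)) * η ^ 2 := by ring
    rw [h1, Real.sqrt_mul hyy.le, Real.sqrt_sq hη.le]
  have hden : 0 < η + η0 := by linarith
  -- the amplitude
  have hamp : |(-(y * (y + α) * (2 * η * Real.sqrt η / (η + η0))))| * bfun ω W G α y =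
      2 / (η + η0) * (Real.sqrt η * Real.sqrt (phf (α * η) * phf (-(α * η))) * ω (phf (α * η) / η) *
        ω (phf (-(α * η)) / η) * W (G * α * η / (2 * Real.pi))) := by
    rw [abs_neg, abs_of_pos (by positivity), hsp, hy1, hy2]
    unfold bfun
    rw [hlog]
    have h1 : G / (2 * Real.pi) * (α * η) = G * α * η / (2 * Real.pi) := by ring
    rw [h1]
    have h2 : y * (y + α) * (2 * η * Real.sqrt η / (η + η0)) *
        (ω y * ω (y + α) / Real.sqrt (y * (y + α)) * W (G * α * η / (2 * Real.pi))) =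
        (Real.sqrt (y * (y + α)) * Real.sqrt (y * (y + α))) * (2 * η * Real.sqrt η / (η + η0)) *
        (ω y * ω (y + α) / Real.sqrt (y * (y + α)) * W (G * α * η / (2 * Real.pi))) := by
      rw [hsyy2]
    rw [h2]
    field_simp
  -- the phase
  have hph : -(τ * Real.log (1 + α / y)) - Z * y =
      α * Z / 2 + (-(2 * Real.sqrt (α * Z * (τ + α * Z / 12)))) + (-(α ^ 4 * Z * η ^ 3 * sgf (α * η))) +
        (-(A * z ^ 2)) := by
    rw [hlog, hroot]
    have h1 : y = (1 - α * η / 2 + (α * η) ^ 2 / 12 + (α * η) ^ 4 * sgf (α * η)) / η := by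
      rw [← hy1, phf_eq (α * η)]
    have h2 : Z * y = Z / η - Z * α / 2 + Z * α ^ 2 * η / 12 + Z * α ^ 4 * η ^ 3 * sgf (α * η) := by
      rw [h1]
      field_simp
    have h3 : A * z ^ 2 = A * η - 2 * (A * η0) + Z / η := by
      have h4 : z ^ 2 = (η - η0) ^ 2 / η := by
        rw [hsq]
        field_simp
      rw [h4, ← hAZ]
      field_simp
      ring
    rw [h2, h3, hA]
    ring
  show |(-(y * (y + α) * (2 * η * Real.sqrt η / (η + η0))))| •
      ((bfun ω W G α y : ℂ) * ee (-(τ * Real.log (1 + α / y)) - Z * y)) = _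
  rw [hph, ZB6_ee_add, ZB6_ee_add, ZB6_ee_add]
  unfold gz ampA
  rw [← hηd, if_pos hη, Complex.real_smul, ← mul_assoc, ← Complex.ofReal_mul, hamp]
  push_cast
  ring

end Pool.Agent.LibSX15
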