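import Pool.Agent.LibSX15.ZB3
import Pool.Agent.LibSX15.ZB4
import Pool.Agent.LibSX15.KN_NS

/-!
Row ZB7. The nonstationary bound for `Jk` and the trivial bound.

PLAN: `bfun ω W G α y = bbf ω W y α (G α)` (`bbf_eq`). `joint_bd` for `bbf` with `U = {|α| < 1/50}`, `K = [1/4, 4] × [0, 1/100] × [0, 7]`: derivatives `g1`, `g2` of `g y = bbf y α β` with bounds `G0`;
`g`, `g1` vanish at `1/2` and `2`: `bbf y = 0` for `y < 1/2` and for `y > 2`, continuity of `g`, `g1`. Phase `φ y = -(τ log(1+α/y)) - Z y`, `φ1 = τα/(y(y+α)) - Z`, `φ2 = -τα(2y+α)/(y(y+α))²`,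
`φ3 = τα (2(2y+α)²/(y(y+α))³ - 2/(y(y+α))²)`; on `[1/2, 2]`: `|φ2| ≤ 100 τα`, `|φ3| ≤ 5000 τα`, and `τα ≤ 30 lam`. `KN_NS` with `B = 150000`. (`KN_NS` is proved.)
-/

set_option autoImplicit false

namespace Pool.Agent.LibSX15

private theorem ZB7_norm_ee (x : ℝ) : ‖ee x‖ = 1 := by
  unfold ee
  exact Complex.norm_exp_ofReal_mul_I _

/-- a function which vanishes on the left of `a` -/
private theorem ZB7_left {g g1 g2 : ℝ → ℂ} (h1 : ∀ x, HasDerivAt g (g1 x) x)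
    (h2 : ∀ x, HasDerivAt g1 (g2 x) x) {a : ℝ} (h : ∀ x, x < a → g x = 0) :
    g a = 0 ∧ g1 a = 0 := by
  have h3 : ∀ x, x < a → g1 x = 0 := by
    intro x hx
    have e : g =ᶠ[nhds x] fun _ => (0 : ℂ) := by
      filter_upwards [Iio_mem_nhds hx] with y hy
      exact h y hy
    exact ((h1 x).congr_of_eventuallyEq e.symm).unique (hasDerivAt_const x (0 : ℂ))
  have key : ∀ f : ℝ → ℂ, ContinuousAt f a → (∀ x, x < a → f x = 0) → f a = 0 := by
    intro f hf h0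
    have e1 : Filter.Tendsto f (nhdsWithin a (Set.Iio a)) (nhds (f a)) :=
      hf.tendsto.mono_left nhdsWithin_le_nhds
    have e2 : Filter.Tendsto f (nhdsWithin a (Set.Iio a)) (nhds 0) := by
      refine tendsto_const_nhds.congr' ?_
      filter_upwards [self_mem_nhdsWithin] with y hy
      exact (h0 y hy).symm
    exact tendsto_nhds_unique e1 e2
  exact ⟨key g (h1 a).continuousAt h, key g1 (h2 a).continuousAt h3⟩

/-- a function which vanishes on the right of `a` -/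
private theorem ZB7_right {g g1 g2 : ℝ → ℂ} (h1 : ∀ x, HasDerivAt g (g1 x) x)
    (h2 : ∀ x, HasDerivAt g1 (g2 x) x) {a : ℝ} (h : ∀ x, a < x → g x = 0) :
    g a = 0 ∧ g1 a = 0 := by
  have h3 : ∀ x, a < x → g1 x = 0 := by
    intro x hx
    have e : g =ᶠ[nhds x] fun _ => (0 : ℂ) := by
      filter_upwards [Ioi_mem_nhds hx] with y hy
      exact h y hy
    exact ((h1 x).congr_of_eventuallyEq e.symm).unique (hasDerivAt_const x (0 : ℂ))
  have key : ∀ f : ℝ → ℂ, ContinuousAt f a → (∀ x, a < x → f x = 0) → f a = 0 := by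
    intro f hf h0
    have e1 : Filter.Tendsto f (nhdsWithin a (Set.Ioi a)) (nhds (f a)) :=
      hf.tendsto.mono_left nhdsWithin_le_nhds
    have e2 : Filter.Tendsto f (nhdsWithin a (Set.Ioi a)) (nhds 0) := by
      refine tendsto_const_nhds.congr' ?_
      filter_upwards [self_mem_nhdsWithin] with y hy
      exact (h0 y hy).symm
    exact tendsto_nhds_unique e1 e2
  exact ⟨key g (h1 a).continuousAt h, key g1 (h2 a).continuousAt h3⟩

private theorem ZB7_bbf_zero (ω W : ℝ → ℝ) (hω : Bump ω) (y α β : ℝ)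
    (h : y < 1 / 2 ∨ 2 < y) : bbf ω W y α β = 0 := by
  have h0 : ω y = 0 := by
    by_contra h1
    obtain ⟨h2, h3⟩ := hω.supp y h1
    rcases h with h | h <;> linarith
  unfold bbf
  rw [h0]
  simp

/-- the uniform bounds -/
private theorem ZB7_bd (ω W : ℝ → ℝ) (hω : Bump ω) (hW : BumpW W) :
    ∃ (G0 : ℝ) (f1 f2 : ℝ × ℝ × ℝ → ℂ), 1 ≤ G0 ∧
      (∀ x α β : ℝ, |α| < 1 / 50 →
        HasDerivAt (fun z => (bbf ω W z α β : ℂ)) (f1 (x, α, β)) x ∧
        HasDerivAt (fun z => f1 (z, α, β)) (f2 (x, α, β)) x ∧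
        ContinuousAt (fun z => f2 (z, α, β)) x) ∧
      ∀ x α β : ℝ, 1 / 4 ≤ x → x ≤ 4 → 0 ≤ α → α ≤ 1 / 100 → 0 ≤ β → β ≤ 7 →
        ‖(bbf ω W x α β : ℂ)‖ ≤ G0 ∧ ‖f1 (x, α, β)‖ ≤ G0 ∧ ‖f2 (x, α, β)‖ ≤ G0 := by
  have hU : IsOpen {p : ℝ × ℝ × ℝ | |p.2.1| < 1 / 50} := by
    refine isOpen_lt ?_ continuous_const
    exact (continuous_fst.comp continuous_snd).abs
  have hf : ContDiffOn ℝ (⊤ : ℕ∞) (fun p : ℝ × ℝ × ℝ => (bbf ω W p.1 p.2.1 p.2.2 : ℂ))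
      {p | |p.2.1| < 1 / 50} :=
    Complex.ofRealCLM.contDiff.comp_contDiffOn (bbf_smooth ω W hω hW)
  have hK : IsCompact (Set.Icc (1 / 4 : ℝ) 4 ×ˢ (Set.Icc (0 : ℝ) (1 / 100) ×ˢ Set.Icc (0 : ℝ) 7)) :=
    isCompact_Icc.prod (isCompact_Icc.prod isCompact_Icc)
  have hKU : (Set.Icc (1 / 4 : ℝ) 4 ×ˢ (Set.Icc (0 : ℝ) (1 / 100) ×ˢ Set.Icc (0 : ℝ) 7)) ⊆
      {p : ℝ × ℝ × ℝ | |p.2.1| < 1 / 50} := by
    rintro ⟨x, α, β⟩ ⟨_, h2, _⟩
    have h3 : (0 : ℝ) ≤ α := h2.1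
    have h4 : α ≤ 1 / 100 := h2.2
    change |α| < 1 / 50
    rw [abs_of_nonneg h3]
    linarith
  obtain ⟨G0, f1, f2, hG, c1, c2, d1, d2, hb⟩ := joint_bd _ _ hU hf _ hK hKU
  refine ⟨G0, f1, f2, hG, ?_, ?_⟩
  · intro x α β hα
    have hmem : ((x, α, β) : ℝ × ℝ × ℝ) ∈ {p : ℝ × ℝ × ℝ | |p.2.1| < 1 / 50} := hα
    refine ⟨d1 x (α, β) hmem, d2 x (α, β) hmem, ?_⟩
    have e1 : ContinuousAt f2 (x, α, β) := c2.continuousAt (hU.mem_nhds hmem)
    have e2 : ContinuousAt (fun z : ℝ => ((z, α, β) : ℝ × ℝ × ℝ)) x :=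
      (continuous_id.prodMk continuous_const).continuousAt
    exact ContinuousAt.comp (f := fun z : ℝ => ((z, α, β) : ℝ × ℝ × ℝ)) e1 e2
  · intro x α β h1 h2 h3 h4 h5 h6
    exact hb (x, α, β) ⟨⟨h1, h2⟩, ⟨h3, h4⟩, ⟨h5, h6⟩⟩

private theorem ZB7_Jk (ω W : ℝ → ℝ) (G α τ Z : ℝ) (hα : 0 < α) : Jk ω W G α τ Z =
    ∫ y in (1 / 2 : ℝ)..2, (bbf ω W y α (G * α) : ℂ) * ee (-(τ * Real.log (1 + α / y)) - Z * y) := by
  unfold Jk
  refine intervalIntegral.integral_congr fun y hy => ?_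
  rw [Set.uIcc_of_le (by norm_num)] at hy
  have hy0 : 0 < y := by linarith [hy.1]
  rw [bbf_eq ω W G α y hα hy0]

theorem Jk_ns (ω W : ℝ → ℝ) (hω : Bump ω) (hW : BumpW W) : ∃ C : ℝ, 1 ≤ C ∧
    ∀ G α τ Z lam : ℝ, 0 < α → α ≤ 1 / 100 → 0 ≤ G → G * α ≤ 7 → 0 < τ → 0 < lam → α * τ ≤ 30 * lam →
    (∀ y ∈ Set.Icc (1 / 2 : ℝ) 2, lam ≤ |τ * α / (y * (y + α)) - Z|) →
    ‖Jk ω W G α τ Z‖ ≤ C / lam ^ 2 := by
  obtain ⟨G0, f1, f2, hG0, hd, hb⟩ := ZB7_bd ω W hω hW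
  refine ⟨(2 - 1 / 2) * G0 * (1 + 150000) ^ 2, by nlinarith, ?_⟩
  intro G α τ Z lam hα hα1 hG hGα hτ hlam hατ hφ
  have hαa : |α| < 1 / 50 := by
    rw [abs_of_pos hα]
    linarith
  have hβ : 0 ≤ G * α := mul_nonneg hG hα.le
  rw [ZB7_Jk ω W G α τ Z hα]
  have hz1 := ZB7_left (g := fun z => (bbf ω W z α (G * α) : ℂ))
    (g1 := fun z => f1 (z, α, G * α)) (g2 := fun z => f2 (z, α, G * α))
    (fun x => (hd x α (G * α) hαa).1) (fun x => (hd x α (G * α) hαa).2.1) (a := 1 / 2)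
    (fun x hx => by rw [ZB7_bbf_zero ω W hω x α _ (Or.inl hx)]; simp)
  have hz2 := ZB7_right (g := fun z => (bbf ω W z α (G * α) : ℂ))
    (g1 := fun z => f1 (z, α, G * α)) (g2 := fun z => f2 (z, α, G * α))
    (fun x => (hd x α (G * α) hαa).1) (fun x => (hd x α (G * α) hαa).2.1) (a := 2)
    (fun x hx => by rw [ZB7_bbf_zero ω W hω x α _ (Or.inr hx)]; simp)
  have hpos : ∀ y ∈ Set.Icc (1 / 2 : ℝ) 2, 0 < y ∧ 1 / 4 ≤ y ^ 2 + α * y ∧ 2 * y + α ≤ 5 ∧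
      0 < 2 * y + α := by
    intro y hy
    have h1 : (1 / 2 : ℝ) ≤ y := hy.1
    have h2 : y ≤ 2 := hy.2
    have h3 : 0 < y := by linarith
    have h4 : 0 < α * y := mul_pos hα h3
    refine ⟨h3, by nlinarith, by linarith, by linarith⟩
  have hτα : 0 ≤ τ * α := (mul_pos hτ hα).le
  have h := KN_NS (1 / 2) 2 (fun z => (bbf ω W z α (G * α) : ℂ)) (fun z => f1 (z, α, G * α))
    (fun z => f2 (z, α, G * α)) (fun y => -(τ * Real.log (1 + α / y)) - Z * y)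
    (fun y => τ * α / (y ^ 2 + α * y) - Z)
    (fun y => -(τ * α * (2 * y + α)) / (y ^ 2 + α * y) ^ 2)
    (fun y => τ * α * (2 * (2 * y + α) ^ 2 / (y ^ 2 + α * y) ^ 3 - 2 / (y ^ 2 + α * y) ^ 2))
    G0 150000 lam (by norm_num) hlam (by norm_num)
    (fun x _ => (hd x α (G * α) hαa).1) (fun x _ => (hd x α (G * α) hαa).2.1)
    ?_ ?_ ?_ (fun x _ => (hd x α (G * α) hαa).2.2.continuousWithinAt) ?_
    hz1.1 hz2.1 hz1.2 hz2.2 ?_ ?_ ?_ ?_ ?_ ?_
  · exact h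
  · intro y hy
    obtain ⟨h1, h2, h3, h4⟩ := hpos y hy
    have e0 : HasDerivAt (fun y : ℝ => 1 + α / y) (-α / y ^ 2) y := by
      have := ((hasDerivAt_const y α).div (hasDerivAt_id y) h1.ne').const_add 1
      refine this.congr_deriv ?_
      simp
    have hpos1 : 0 < 1 + α / y := by positivity
    have e1 := e0.log hpos1.ne'
    have e2 := ((e1.const_mul τ).neg).sub ((hasDerivAt_id y).const_mul Z)
    refine e2.congr_deriv ?_
    have h5 : y + α ≠ 0 := by positivity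
    have h6 : y ^ 2 + α * y ≠ 0 := by positivity
    field_simp
  · intro y hy
    obtain ⟨h1, h2, h3, h4⟩ := hpos y hy
    have h6 : y ^ 2 + α * y ≠ 0 := by positivity
    have e0 : HasDerivAt (fun y : ℝ => y ^ 2 + α * y) (2 * y + α) y := by
      have := ((hasDerivAt_id y).pow 2).add ((hasDerivAt_id y).const_mul α)
      refine this.congr_deriv ?_
      simp
    have e1 := ((hasDerivAt_const y (τ * α)).div e0 h6).sub_const Z
    refine e1.congr_deriv ?_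
    congr 1
    ring
  · intro y hy
    obtain ⟨h1, h2, h3, h4⟩ := hpos y hy
    have h6 : y ^ 2 + α * y ≠ 0 := by positivity
    have e0 : HasDerivAt (fun y : ℝ => y ^ 2 + α * y) (2 * y + α) y := by
      have := ((hasDerivAt_id y).pow 2).add ((hasDerivAt_id y).const_mul α)
      refine this.congr_deriv ?_
      simp
    have e1 : HasDerivAt (fun y : ℝ => -(τ * α * (2 * y + α))) (-(τ * α * 2)) y := by
      have := ((((hasDerivAt_id y).const_mul 2).add_const α).const_mul (τ * α)).neg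
      refine this.congr_deriv ?_
      ring
    have e2 := e1.div (e0.pow 2) (pow_ne_zero 2 h6)
    refine e2.congr_deriv ?_
    simp only [Pi.pow_apply]
    field_simp
    ring
  · refine ContinuousOn.mul continuousOn_const ?_
    have hc : Continuous fun y : ℝ => y ^ 2 + α * y := by fun_prop
    refine ContinuousOn.sub ?_ ?_
    · refine ContinuousOn.div (by fun_prop) (hc.pow 3).continuousOn ?_
      intro y hy
      have := (hpos y hy).2.1
      exact pow_ne_zero 3 (by linarith)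
    · refine ContinuousOn.div (by fun_prop) (hc.pow 2).continuousOn ?_
      intro y hy
      have := (hpos y hy).2.1
      exact pow_ne_zero 2 (by linarith)
  · intro x hx
    exact (hb x α (G * α) (by linarith [hx.1]) (by linarith [hx.2]) hα.le hα1 hβ hGα).1
  · intro x hx
    exact (hb x α (G * α) (by linarith [hx.1]) (by linarith [hx.2]) hα.le hα1 hβ hGα).2.1
  · intro x hx
    exact (hb x α (G * α) (by linarith [hx.1]) (by linarith [hx.2]) hα.le hα1 hβ hGα).2.2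
  · intro y hy
    have := hφ y hy
    have e : y * (y + α) = y ^ 2 + α * y := by ring
    rwa [e] at this
  · intro y hy
    obtain ⟨h1, h2, h3, h4⟩ := hpos y hy
    have h7 : (1 / 4 : ℝ) ^ 2 ≤ (y ^ 2 + α * y) ^ 2 := pow_le_pow_left₀ (by norm_num) h2 2
    have h8 : 0 < (y ^ 2 + α * y) ^ 2 := lt_of_lt_of_le (by norm_num) h7
    rw [abs_div, abs_neg, abs_of_nonneg (mul_nonneg hτα h4.le), abs_of_pos h8, div_le_iff₀ h8]
    have h9 : τ * α * (2 * y + α) ≤ τ * α * 5 := mul_le_mul_of_nonneg_left h3 hτα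
    have h10 : 150000 * lam * (1 / 4 : ℝ) ^ 2 ≤ 150000 * lam * (y ^ 2 + α * y) ^ 2 :=
      mul_le_mul_of_nonneg_left h7 (by positivity)
    have h11 : τ * α ≤ 30 * lam := by rw [mul_comm]; exact hατ
    linarith
  · intro y hy
    obtain ⟨h1, h2, h3, h4⟩ := hpos y hy
    have h7 : (1 / 4 : ℝ) ^ 2 ≤ (y ^ 2 + α * y) ^ 2 := pow_le_pow_left₀ (by norm_num) h2 2
    have h7' : (1 / 4 : ℝ) ^ 3 ≤ (y ^ 2 + α * y) ^ 3 := pow_le_pow_left₀ (by norm_num) h2 3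
    have h8 : 0 < (y ^ 2 + α * y) ^ 2 := lt_of_lt_of_le (by norm_num) h7
    have h8' : 0 < (y ^ 2 + α * y) ^ 3 := lt_of_lt_of_le (by norm_num) h7'
    rw [abs_mul, abs_of_nonneg hτα]
    have h12 : |2 * (2 * y + α) ^ 2 / (y ^ 2 + α * y) ^ 3 - 2 / (y ^ 2 + α * y) ^ 2| ≤ 5000 := by
      refine (abs_sub _ _).trans ?_
      have h13 : |2 * (2 * y + α) ^ 2 / (y ^ 2 + α * y) ^ 3| ≤ 3200 := by
        rw [abs_of_nonneg (by positivity), div_le_iff₀ h8']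
        have h14 : (2 * y + α) ^ 2 ≤ 5 ^ 2 := pow_le_pow_left₀ h4.le h3 2
        nlinarith
      have h15 : |2 / (y ^ 2 + α * y) ^ 2| ≤ 32 := by
        rw [abs_of_nonneg (by positivity), div_le_iff₀ h8]
        nlinarith
      linarith
    have h11 : τ * α ≤ 30 * lam := by rw [mul_comm]; exact hατ
    calc τ * α * |2 * (2 * y + α) ^ 2 / (y ^ 2 + α * y) ^ 3 - 2 / (y ^ 2 + α * y) ^ 2|
        ≤ 30 * lam * 5000 := mul_le_mul h11 h12 (abs_nonneg _) (by positivity)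
      _ = 150000 * lam := by ring

theorem Jk_triv (ω W : ℝ → ℝ) (hω : Bump ω) (hW : BumpW W) : ∃ C : ℝ, 1 ≤ C ∧
    ∀ G α τ Z : ℝ, 0 < α → α ≤ 1 / 100 → 0 ≤ G → G * α ≤ 7 → ‖Jk ω W G α τ Z‖ ≤ C := by
  obtain ⟨G0, f1, f2, hG0, hd, hb⟩ := ZB7_bd ω W hω hW
  refine ⟨G0 * |2 - 1 / 2|, ?_, ?_⟩
  · rw [abs_of_pos (by norm_num)]
    linarith
  · intro G α τ Z hα hα1 hG hGα
    rw [ZB7_Jk ω W G α τ Z hα]
    refine intervalIntegral.norm_integral_le_of_norm_le_const fun y hy => ?_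
    rw [Set.uIoc_of_le (by norm_num)] at hy
    rw [norm_mul, ZB7_norm_ee, mul_one]
    exact (hb y α (G * α) (by linarith [hy.1]) (by linarith [hy.2]) hα.le hα1
      (mul_nonneg hG hα.le) hGα).1

end Pool.Agent.LibSX15
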