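import Pool.Agent.LibSX15.ZB5
import Pool.Agent.LibSX15.ZB6
import Pool.Agent.LibSX15.ZB7

/-!
Row ZB8. All `Z`.

PLAN `Jk_out`: on `[1/2,2]`, `α ≤ 1/100`: `1/4 ≤ y(y+α) ≤ 4.02`. If `Z ≤ ατ/30`: `τα/(y(y+α)) - Z ≥ ατ/4.02 - Z ≥ (ατ+|Z|)/10 =: lam` (both signs of `Z`); if `20ατ ≤ Z`: `Z - 4ατ ≥ (ατ+Z)/10`. `Jk_ns`.
PLAN `Jk_in`: `A = α(τ+αZ/12) ≥ ατ`. `η0² = Z/A`: `1/6 ≤ η0 ≤ 5` (`Z ≥ ατ/30`, `A ≤ ατ (1 + 20α²/12)`; `Z/A ≤ 20`), `γ = α⁴Z ≤ 20 α⁵τ ≤ 2·10⁶ =: Γ`, `β = Gα ∈ [0,7]`.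
If `A ≥ 1`: `Jk_change` + `SP_gz` (the unimodular factors are harmless), `gz 0 = ampA η0/η0` (`etz_zero`), `sp A/η0 = sp (A η0²) = sp Z` (`sp (c² A) = sp A / c` for `c > 0`: `Complex.mul_cpow_ofReal_nonneg`).
If `A < 1`: then `ατ < 1`; `‖Jk‖ ≤ C` (`Jk_triv`), `‖Mn‖ ≤ ‖sp Z‖ ‖ampA‖ ≤ C (2Z)^(-1/2) ≤ C' (ατ)^(-1/2) ≤ C'/(ατ)` (`ampA` is bounded on the compact: `joint_lip` with `ampA_smooth`, `[2/5,21/10]×[0,1/100]×[0,7]×[0,Γ]`, and `ampA_supp`).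
-/

set_option autoImplicit false

namespace Pool.Agent.LibSX15

private theorem ZB8_ee (x : ℝ) : ‖ee x‖ = 1 := by
  unfold ee
  exact Complex.norm_exp_ofReal_mul_I _

private theorem ZB8_half (r : ℝ) (hr : 0 < r) (x : ℂ) (hx : x ≠ 0) :
    ((r : ℂ) * x) ^ (1 / 2 : ℂ) = ((Real.sqrt r : ℝ) : ℂ) * x ^ (1 / 2 : ℂ) := by
  have hr' : (r : ℂ) ≠ 0 := Complex.ofReal_ne_zero.2 hr.ne'
  have h1 : ((Real.sqrt r : ℝ) : ℂ) = (r : ℂ) ^ (1 / 2 : ℂ) := by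
    rw [Real.sqrt_eq_rpow, Complex.ofReal_cpow hr.le]
    push_cast
    rfl
  rw [h1, Complex.cpow_def_of_ne_zero (mul_ne_zero hr' hx), Complex.cpow_def_of_ne_zero hr',
    Complex.cpow_def_of_ne_zero hx, Complex.log_ofReal_mul hr hx, Complex.ofReal_log hr.le,
    add_mul, Complex.exp_add]

private theorem ZB8_ne (A : ℝ) (hA : 0 < A) : (1 / (((2 * A : ℝ) : ℂ) * Complex.I)) ≠ 0 := by
  apply one_div_ne_zero
  apply mul_ne_zero _ Complex.I_ne_zero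
  exact Complex.ofReal_ne_zero.2 (by positivity)

private theorem ZB8_sp (A c : ℝ) (hA : 0 < A) (hc : 0 < c) :
    sp (A * c ^ 2) = ((1 / c : ℝ) : ℂ) * sp A := by
  unfold sp
  have h1 : (1 / (((2 * (A * c ^ 2) : ℝ) : ℂ) * Complex.I)) =
      (((1 / c) ^ 2 : ℝ) : ℂ) * (1 / (((2 * A : ℝ) : ℂ) * Complex.I)) := by
    have hc' : (c : ℂ) ≠ 0 := Complex.ofReal_ne_zero.2 hc.ne'
    have hA' : (A : ℂ) ≠ 0 := Complex.ofReal_ne_zero.2 hA.ne'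
    push_cast
    field_simp
  rw [h1, ZB8_half _ (by positivity) _ (ZB8_ne A hA), Real.sqrt_sq (by positivity)]

private theorem ZB8_spn (A : ℝ) (hA : 0 < A) : ‖sp A‖ = Real.sqrt (1 / (2 * A)) := by
  unfold sp
  have h1 : (1 / 2 : ℂ) = ((1 / 2 : ℝ) : ℂ) := by push_cast; rfl
  rw [h1, Complex.norm_cpow_real, norm_div, norm_mul, norm_one, Complex.norm_I, mul_one,
    Complex.norm_real, Real.norm_eq_abs, abs_of_pos (by positivity), Real.sqrt_eq_rpow]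

theorem Jk_out (ω W : ℝ → ℝ) (hω : Bump ω) (hW : BumpW W) : ∃ C : ℝ, 1 ≤ C ∧
    ∀ G α τ Z : ℝ, 0 < α → α ≤ 1 / 100 → 0 ≤ G → G * α ≤ 7 → 0 < τ → (Z ≤ α * τ / 30 ∨ 20 * (α * τ) ≤ Z) →
    ‖Jk ω W G α τ Z‖ ≤ C / (α * τ + |Z|) ^ 2 := by
  obtain ⟨C, hC, h⟩ := Jk_ns ω W hω hW
  refine ⟨100 * C, by linarith, ?_⟩
  intro G α τ Z hα hα2 hG hGα hτ hZ
  have ha : 0 < α * τ := mul_pos hα hτ
  have hZ0 : 0 ≤ |Z| := abs_nonneg Z
  have h1 := h G α τ Z ((α * τ + |Z|) / 10) hα hα2 hG hGα hτ (by positivity) (by linarith) ?_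
  · refine h1.trans (le_of_eq ?_)
    have : α * τ + |Z| ≠ 0 := by positivity
    field_simp
    ring
  · intro y hy
    have hy1 := hy.1
    have hy2 := hy.2
    have hp1 : 1 / 4 ≤ y * (y + α) := by nlinarith
    have hp2 : y * (y + α) ≤ 402 / 100 := by nlinarith
    have hp0 : 0 < y * (y + α) := by linarith
    have hq1 : α * τ / (402 / 100) ≤ τ * α / (y * (y + α)) := by
      rw [mul_comm τ α]
      exact div_le_div_of_nonneg_left ha.le hp0 hp2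
    have hq2 : τ * α / (y * (y + α)) ≤ 4 * (α * τ) := by
      rw [div_le_iff₀ hp0]
      nlinarith
    have hq1' : α * τ * (1 / 5) ≤ τ * α / (y * (y + α)) := by
      refine le_trans ?_ hq1
      rw [le_div_iff₀ (by norm_num)]
      nlinarith
    rcases hZ with hZ | hZ
    · refine le_trans ?_ (le_abs_self _)
      rcases le_total 0 Z with h0 | h0
      · rw [abs_of_nonneg h0]
        linarith
      · rw [abs_of_nonpos h0]
        linarith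
    · rw [abs_sub_comm]
      refine le_trans ?_ (le_abs_self _)
      rw [abs_of_nonneg (by linarith : 0 ≤ Z)]
      linarith

theorem Jk_in (ω W : ℝ → ℝ) (hω : Bump ω) (hW : BumpW W) : ∃ C : ℝ, 1 ≤ C ∧
    ∀ G α τ Z : ℝ, 0 < α → α ≤ 1 / 100 → 0 ≤ G → G * α ≤ 7 → 0 < τ → α ^ 5 * τ ≤ 100000 →
    α * τ / 30 ≤ Z → Z ≤ 20 * (α * τ) →
    ‖Jk ω W G α τ Z - Mn ω W G α τ Z‖ ≤ C / (α * τ) := by
  obtain ⟨C1, hC1, h1⟩ := SP_gz ω W hω hW 2000000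
  obtain ⟨C2, hC2, h2⟩ := Jk_triv ω W hω hW
  obtain ⟨C3, h3⟩ := (isCompact_Icc.prod (isCompact_Icc.prod (isCompact_Icc.prod isCompact_Icc)) :
    IsCompact (Set.Icc (1 / 6 : ℝ) 5 ×ˢ Set.Icc (0 : ℝ) (1 / 100) ×ˢ Set.Icc (0 : ℝ) 7 ×ˢ
      Set.Icc (0 : ℝ) 2000000)).exists_bound_of_continuousOn
    ((ampA_smooth ω W hω hW).continuousOn.mono (by
      rintro ⟨η, α, β, γ⟩ ⟨_, h, _, _⟩
      simp only [Set.mem_Icc] at h
      show |α| < 1 / 50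
      rw [abs_of_nonneg h.1]
      linarith [h.2]))
  refine ⟨C1 + C2 + 15 * |C3|, by have := abs_nonneg C3; linarith, ?_⟩
  intro G α τ Z hα hα2 hG hGα hτ hγ hZ1 hZ2
  have ha : 0 < α * τ := mul_pos hα hτ
  have hZ : 0 < Z := lt_of_lt_of_le (by positivity) hZ1
  set A : ℝ := α * (τ + α * Z / 12) with hA
  have hA' : A = α * τ + α ^ 2 * Z / 12 := by rw [hA]; ring
  have hα3 : α ^ 2 ≤ 1 / 10000 := by nlinarith
  have hAa : α * τ ≤ A := by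
    rw [hA']
    have : 0 ≤ α ^ 2 * Z / 12 := by positivity
    linarith
  have hA0 : 0 < A := lt_of_lt_of_le ha hAa
  have hAu : A ≤ α * τ * (1001 / 1000) := by
    rw [hA']
    have : α ^ 2 * Z ≤ 1 / 10000 * (20 * (α * τ)) :=
      mul_le_mul hα3 hZ2 hZ.le (by norm_num)
    linarith
  have het : et α τ Z = Real.sqrt (Z / A) := rfl
  have hq0 : 0 < Z / A := div_pos hZ hA0
  have he0 : 0 < et α τ Z := by rw [het]; exact Real.sqrt_pos.2 hq0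
  have hesq : A * et α τ Z ^ 2 = Z := by
    rw [het, Real.sq_sqrt hq0.le]
    field_simp
  have he1 : 1 / 6 ≤ et α τ Z := by
    rw [het]
    apply Real.le_sqrt_of_sq_le
    rw [le_div_iff₀ hA0]
    linarith
  have he2 : et α τ Z ≤ 5 := by
    rw [het]
    apply Real.sqrt_le_iff.2
    refine ⟨by norm_num, ?_⟩
    rw [div_le_iff₀ hA0]
    linarith
  have hg0 : 0 ≤ α ^ 4 * Z := by positivity
  have hg1 : α ^ 4 * Z ≤ 2000000 := by
    calc α ^ 4 * Z ≤ α ^ 4 * (20 * (α * τ)) := mul_le_mul_of_nonneg_left hZ2 (by positivity)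
      _ = 20 * (α ^ 5 * τ) := by ring
      _ ≤ 2000000 := by linarith
  have hb0 : 0 ≤ G * α := by positivity
  have hC3 : 0 ≤ |C3| := abs_nonneg C3
  rcases le_or_gt 1 A with hA1 | hA1
  · rw [Jk_change ω W hω hW G α τ Z hα hα2 hτ hZ]
    have h4 := h1 (et α τ Z) α (G * α) (α ^ 4 * Z) A he1 he2 hα.le hα2 hb0 hGα hg0 hg1 hA1
    have h5 : sp A * gz ω W 0 (et α τ Z) α (G * α) (α ^ 4 * Z) =
        sp Z * ampA ω W (et α τ Z) α (G * α) (α ^ 4 * Z) := by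
      have h9 := ZB8_sp A (et α τ Z) hA0 he0
      rw [hesq] at h9
      rw [gz, etz_zero _ he0.le, h9]
      have h6 : (2 / (et α τ Z + et α τ Z) : ℝ) = 1 / et α τ Z := by
        field_simp
        norm_num
      rw [h6]
      ring
    rw [h5] at h4
    have h7 : ee (α * Z / 2) * ee (-(2 * Real.sqrt (α * Z * (τ + α * Z / 12)))) *
        (∫ z : ℝ, gz ω W z (et α τ Z) α (G * α) (α ^ 4 * Z) *
          ee (-(α * (τ + α * Z / 12) * z ^ 2))) - Mn ω W G α τ Z =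
        ee (α * Z / 2) * ee (-(2 * Real.sqrt (α * Z * (τ + α * Z / 12)))) *
        ((∫ z : ℝ, gz ω W z (et α τ Z) α (G * α) (α ^ 4 * Z) * ee (-(A * z ^ 2))) -
          sp Z * ampA ω W (et α τ Z) α (G * α) (α ^ 4 * Z)) := by
      rw [Mn, cf, hA]
      ring
    rw [h7, norm_mul, norm_mul, ZB8_ee, ZB8_ee, one_mul, one_mul]
    refine h4.trans ?_
    calc C1 / A ≤ C1 / (α * τ) := div_le_div_of_nonneg_left (by linarith) ha hAa
      _ ≤ _ := div_le_div_of_nonneg_right (by linarith) ha.le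
  · have ha1 : α * τ < 1 := lt_of_le_of_lt hAa hA1
    have h4 := h2 G α τ Z hα hα2 hG hGα
    have h5 : ‖ampA ω W (et α τ Z) α (G * α) (α ^ 4 * Z)‖ ≤ |C3| :=
      (h3 (et α τ Z, α, G * α, α ^ 4 * Z)
        ⟨⟨he1, he2⟩, ⟨hα.le, hα2⟩, ⟨hb0, hGα⟩, ⟨hg0, hg1⟩⟩).trans (le_abs_self _)
    have h6 : ‖sp Z‖ ≤ 15 / (α * τ) := by
      rw [ZB8_spn Z hZ]
      apply Real.sqrt_le_iff.2
      refine ⟨by positivity, ?_⟩
      have h7 : 1 / (2 * Z) ≤ 15 / (α * τ) := by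
        rw [div_le_div_iff₀ (by positivity) ha]
        linarith
      have h8 : 1 ≤ 15 / (α * τ) := by
        rw [le_div_iff₀ ha]
        linarith
      nlinarith
    have h7 : ‖Mn ω W G α τ Z‖ ≤ 15 / (α * τ) * |C3| := by
      rw [Mn, cf, norm_mul, norm_mul, norm_mul, ZB8_ee, ZB8_ee, mul_one, mul_one]
      exact mul_le_mul h6 h5 (norm_nonneg _) (by positivity)
    have h8 : C2 ≤ C2 / (α * τ) := by
      rw [le_div_iff₀ ha]
      nlinarith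
    calc ‖Jk ω W G α τ Z - Mn ω W G α τ Z‖ ≤ ‖Jk ω W G α τ Z‖ + ‖Mn ω W G α τ Z‖ :=
          norm_sub_le _ _
      _ ≤ C2 / (α * τ) + 15 / (α * τ) * |C3| := add_le_add (h4.trans h8) h7
      _ = (C2 + 15 * |C3|) / (α * τ) := by ring
      _ ≤ _ := div_le_div_of_nonneg_right (by linarith) ha.le

end Pool.Agent.LibSX15
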