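import Pool.Agent.LibSX15.ZSDefs
import Pool.Agent.LibSX15.KN_poi

/-!
LibSX15, block ZS, row ZSP (shared): Poisson summation for bumps on `[1/2, 2]`.

PLAN `bump_smooth`: at `x ≤ 1/4` (use: if `x < 1/2`) the function vanishes in a neighbourhood of `x` (ω y = 0 for y < 1/2), so it is
smooth there (contDiffAt_const.congr_of_eventuallyEq); at `x > 0` product of two functions smooth at `x`.
The two cases cover `ℝ`.

PLAN `ZS_poisson`: `f x := F (x / X)` is smooth with compact support (support in `[X/2, 2X]`): cite `KN_poi` (summability and Poisson).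
The left side `∑' n : ℤ, f n` is the finite sum over `n ∈ Icc 1 ⌊2X⌋₊` (`tsum_eq_sum` / injection of the naturals into the integers): `F (n / X) ≠ 0`
implies `n ≥ X/2 > 0` and `n ≤ 2X`. Right side: `∫ x, F (x/X) ee (-(k x)) = X ∫ y, F y ee(-(k X y))` (change of variable
`MeasureTheory.Measure.integral_comp_div`/`integral_comp_mul_left`), and the integrand vanishes outside `[1/2, 2]`
(`intervalIntegral.integral_of_le`, `setIntegral_eq_integral_of_forall_compl_eq_zero`).
-/

set_option autoImplicit false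

namespace Pool.Agent.LibSX15

open Finset

theorem bump_smooth (ω : ℝ → ℝ) (hω : Bump ω) (g : ℝ → ℂ) (hg : ∀ x : ℝ, 0 < x → ContDiffAt ℝ (⊤ : ℕ∞) g x) :
    ContDiff ℝ (⊤ : ℕ∞) (fun x => (ω x : ℂ) * g x) := by
  rw [contDiff_iff_contDiffAt]
  intro x
  by_cases hx : x < 1 / 2
  · have h1 : (fun y => (ω y : ℂ) * g y) =ᶠ[nhds x] fun _ => (0 : ℂ) := by
      filter_upwards [Iio_mem_nhds hx] with y hy
      have h2 : ω y = 0 := by
        by_contra h
        exact absurd (hω.supp y h).1 (not_le.2 hy)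
      rw [h2, Complex.ofReal_zero, zero_mul]
    exact contDiffAt_const.congr_of_eventuallyEq h1
  · have hx0 : 0 < x := by linarith
    have h1 : ContDiff ℝ (⊤ : ℕ∞) (fun y => (ω y : ℂ)) :=
      Complex.ofRealCLM.contDiff.comp hω.smooth
    exact h1.contDiffAt.mul (hg x hx0)

theorem ZS_poisson (F : ℝ → ℂ) (hF : ContDiff ℝ (⊤ : ℕ∞) F) (hs : ∀ y, F y ≠ 0 → 1 / 2 ≤ y ∧ y ≤ 2)
    (X : ℝ) (hX : 1 ≤ X) :
    HasSum (fun k : ℤ => (X : ℂ) * ∫ y in (1 / 2 : ℝ)..2, F y * ee (-(k * X * y)))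
      (∑ n ∈ Finset.Icc 1 ⌊2 * X⌋₊, F (n / X)) := by
  have hX0 : 0 < X := by linarith
  have h0 : ∀ y, ¬ (1 / 2 ≤ y ∧ y ≤ 2) → F y = 0 := fun y hy => by
    by_contra h
    exact hy (hs y h)
  have hf : ContDiff ℝ 2 (fun x : ℝ => F (x / X)) := by
    have h1 : ContDiff ℝ 2 F := contDiff_infty.1 hF 2
    exact h1.comp (contDiff_id.div_const X)
  have hcs : HasCompactSupport (fun x : ℝ => F (x / X)) := by
    refine HasCompactSupport.intro (isCompact_Icc (a := X / 2) (b := 2 * X)) ?_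
    intro x hx
    refine h0 _ fun h => hx ?_
    obtain ⟨h1, h2⟩ := h
    rw [le_div_iff₀ hX0] at h1
    rw [div_le_iff₀ hX0] at h2
    exact ⟨by linarith, h2⟩
  obtain ⟨hsum, heq⟩ := KN_poi (fun x : ℝ => F (x / X)) hf hcs
  have hterm : ∀ k : ℤ, (∫ x : ℝ, F (x / X) * ee (-(k * x))) =
      (X : ℂ) * ∫ y in (1 / 2 : ℝ)..2, F y * ee (-(k * X * y)) := by
    intro k
    have h1 := MeasureTheory.Measure.integral_comp_div (fun y : ℝ => F y * ee (-(k * X * y))) X
    have h2 : (fun x : ℝ => F (x / X) * ee (-(k * X * (x / X)))) =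
        fun x : ℝ => F (x / X) * ee (-(k * x)) := by
      funext x
      congr 3
      rw [mul_assoc, mul_div_cancel₀ _ hX0.ne']
    rw [h2, abs_of_pos hX0] at h1
    rw [h1, Complex.real_smul, intervalIntegral.integral_of_le (by norm_num),
      ← MeasureTheory.integral_Icc_eq_integral_Ioc]
    congr 1
    symm
    apply MeasureTheory.setIntegral_eq_integral_of_forall_compl_eq_zero
    intro y hy
    rw [h0 y hy, zero_mul]
  have hsum' : Summable (fun k : ℤ => (X : ℂ) * ∫ y in (1 / 2 : ℝ)..2, F y * ee (-(k * X * y))) :=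
    hsum.congr fun k => hterm k
  rw [hsum'.hasSum_iff]
  have h3 : ∑' k : ℤ, ((X : ℂ) * ∫ y in (1 / 2 : ℝ)..2, F y * ee (-(k * X * y))) =
      ∑' n : ℤ, F (n / X) := by
    rw [heq]
    exact tsum_congr fun k => (hterm k).symm
  rw [h3, tsum_eq_sum (s := (Finset.Icc 1 ⌊2 * X⌋₊).map Nat.castEmbedding), Finset.sum_map]
  · refine Finset.sum_congr rfl fun n _ => ?_
    simp
  · intro b hb
    by_contra h
    apply hb
    obtain ⟨h1, h2⟩ := hs _ h
    rw [le_div_iff₀ hX0] at h1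
    rw [div_le_iff₀ hX0] at h2
    have h4 : (0 : ℝ) < b := by linarith
    have h5 : (0 : ℤ) < b := by exact_mod_cast h4
    obtain ⟨n, rfl⟩ := Int.eq_ofNat_of_zero_le h5.le
    refine Finset.mem_map.2 ⟨n, Finset.mem_Icc.2 ⟨by omega, Nat.le_floor (by exact_mod_cast h2)⟩, rfl⟩

end Pool.Agent.LibSX15
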