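import Pool.Agent.LibSX15.ZB8
import Pool.Agent.LibSX15.ZB10
import Pool.Agent.LibSX15.ZSP

/-!
Row ZB9 (strong). Poisson for a fixed `h`.
-/

set_option autoImplicit false

namespace Pool.Agent.LibSX15

open Finset

theorem ZF_zero (ω W : ℝ → ℝ) (hω : Bump ω) (hW : BumpW W) (G X t : ℝ) (h : ℕ) (hG : 700 ≤ G) (hX : 1 ≤ X)
    (hh : 7 / G < h / X) : ZF ω W G X t h = 0 := by
  have hG0 : 0 < G := by linarith
  have hX0 : 0 < X := by linarith
  have hpi := Real.pi_pos
  have hpi2 := Real.pi_lt_d2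
  unfold ZF
  refine Finset.sum_eq_zero fun n _ => ?_
  have h0 : bfun ω W G (h / X) (n / X) = 0 := by
    unfold bfun
    by_cases h1 : ω (n / X) = 0
    · rw [h1]
      simp
    obtain ⟨h2, h3⟩ := hω.supp _ h1
    set y : ℝ := (n : ℝ) / X with hy
    set α : ℝ := (h : ℝ) / X with hα
    have hy0 : 0 < y := by linarith
    have hα0 : 0 < α := lt_trans (by positivity) hh
    have h4 : 7 / (2 * G) ≤ α / y := by
      rw [div_le_div_iff₀ (by positivity) hy0]
      rw [div_lt_iff₀ hG0] at hh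
      nlinarith
    have h5 : 1 + 7 / (2 * G) ≤ 1 + α / y := by linarith
    have hp : 0 < 7 / (2 * G) := by positivity
    have h6 : Real.log (1 + 7 / (2 * G)) ≤ Real.log (1 + α / y) := Real.log_le_log (by linarith) h5
    have h7 : 1 - (1 + 7 / (2 * G))⁻¹ ≤ Real.log (1 + 7 / (2 * G)) :=
      Real.one_sub_inv_le_log_of_pos (by linarith)
    have h8 : 1 - (1 + 7 / (2 * G))⁻¹ = 7 / (2 * G + 7) := by
      field_simp
      ring
    have h9 : W (G / (2 * Real.pi) * Real.log (1 + α / y)) = 0 := by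
      by_contra h10
      have h11 := hW.supp _ h10
      have h12 := (abs_le.1 h11).2
      have h13 : 7 / (2 * G + 7) ≤ Real.log (1 + α / y) := by linarith
      have h14 : G / (2 * Real.pi) * (7 / (2 * G + 7)) ≤ 1 / 4 :=
        (mul_le_mul_of_nonneg_left h13 (by positivity)).trans h12
      have h15 : G / (2 * Real.pi) * (7 / (2 * G + 7)) = 7 * G / (2 * Real.pi * (2 * G + 7)) := by
        field_simp
      rw [h15, div_le_div_iff₀ (by positivity) (by norm_num)] at h14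
      nlinarith
    rw [h9, mul_zero]
  rw [h0]
  simp

private theorem ZB9_ee_add (a b : ℝ) : ee (a + b) = ee a * ee b := by
  unfold ee
  rw [← Complex.exp_add]
  congr 1
  push_cast
  ring

private theorem ZB9_ee_smooth : ContDiff ℝ (⊤ : ℕ∞) ee := by
  unfold ee
  refine ContDiff.cexp (ContDiff.mul ?_ contDiff_const)
  exact Complex.ofRealCLM.contDiff.comp (contDiff_const.mul contDiff_id)

/-- the function to which Poisson is applied -/
private noncomputable def ZB9_F (ω W : ℝ → ℝ) (G α τ y : ℝ) : ℂ :=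
  (bfun ω W G α y : ℂ) * ee (-(τ * Real.log (1 + α / y)))

private theorem ZB9_F_smooth (ω W : ℝ → ℝ) (hω : Bump ω) (hW : BumpW W) (G α τ : ℝ) (hα : 0 < α) :
    ContDiff ℝ (⊤ : ℕ∞) (ZB9_F ω W G α τ) := by
  have h1 : ZB9_F ω W G α τ = fun y => (ω y : ℂ) *
      (((ω (y + α) / Real.sqrt (y * (y + α)) * W (G / (2 * Real.pi) * Real.log (1 + α / y)) : ℝ) : ℂ) *
        ee (-(τ * Real.log (1 + α / y)))) := by
    funext y
    unfold ZB9_F bfun
    push_cast
    ring
  rw [h1]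
  refine bump_smooth ω hω _ ?_
  intro y hy
  have hlog : ContDiffAt ℝ (⊤ : ℕ∞) (fun y : ℝ => Real.log (1 + α / y)) y := by
    refine ContDiffAt.log (contDiffAt_const.add (contDiffAt_const.div contDiffAt_id hy.ne')) ?_
    positivity
  have hsq : ContDiffAt ℝ (⊤ : ℕ∞) (fun y : ℝ => Real.sqrt (y * (y + α))) y := by
    refine ContDiffAt.sqrt (contDiffAt_id.mul (contDiffAt_id.add contDiffAt_const)) ?_
    positivity
  have hom : ContDiffAt ℝ (⊤ : ℕ∞) (fun y : ℝ => ω (y + α)) y :=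
    ContDiffAt.comp y hω.smooth.contDiffAt (contDiffAt_id.add contDiffAt_const)
  have hWl : ContDiffAt ℝ (⊤ : ℕ∞) (fun y : ℝ => W (G / (2 * Real.pi) * Real.log (1 + α / y))) y :=
    ContDiffAt.comp y hW.smooth.contDiffAt (contDiffAt_const.mul hlog)
  have hreal : ContDiffAt ℝ (⊤ : ℕ∞) (fun y : ℝ => ω (y + α) / Real.sqrt (y * (y + α)) *
      W (G / (2 * Real.pi) * Real.log (1 + α / y))) y := by
    refine (hom.div hsq ?_).mul hWl
    have : 0 < Real.sqrt (y * (y + α)) := Real.sqrt_pos.2 (by positivity)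
    exact this.ne'
  refine ContDiffAt.mul ?_ ?_
  · exact Complex.ofRealCLM.contDiff.contDiffAt.comp y hreal
  · exact ContDiffAt.comp (g := ee) y ZB9_ee_smooth.contDiffAt (contDiffAt_const.mul hlog).neg

private theorem ZB9_F_supp (ω W : ℝ → ℝ) (hω : Bump ω) (G α τ y : ℝ) (h : ZB9_F ω W G α τ y ≠ 0) :
    1 / 2 ≤ y ∧ y ≤ 2 := by
  apply hω.supp
  intro h1
  apply h
  unfold ZB9_F bfun
  rw [h1]
  simp

private theorem ZB9_poisson (ω W : ℝ → ℝ) (hω : Bump ω) (hW : BumpW W) (G X t : ℝ) (h : ℕ) (hX : 1 ≤ X)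
    (hh : 1 ≤ h) :
    HasSum (fun k : ℤ => Jk ω W G (h / X) (t / (2 * Real.pi)) (k * X)) ((X : ℂ)⁻¹ * ZF ω W G X t h) := by
  have hX0 : 0 < X := by linarith
  have hh0 : (0 : ℝ) < h := by exact_mod_cast hh
  have hα : 0 < (h : ℝ) / X := by positivity
  have hXc : (X : ℂ) ≠ 0 := by exact_mod_cast hX0.ne'
  have h1 := (ZS_poisson _ (ZB9_F_smooth ω W hω hW G (h / X) (t / (2 * Real.pi)) hα)
    (ZB9_F_supp ω W hω G (h / X) (t / (2 * Real.pi))) X hX).mul_left (X : ℂ)⁻¹
  have h2 : ∑ n ∈ Finset.Icc 1 ⌊2 * X⌋₊, ZB9_F ω W G (h / X) (t / (2 * Real.pi)) (n / X) =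
      ZF ω W G X t h := by
    unfold ZF
    refine Finset.sum_congr rfl fun n hn => ?_
    have hn1 : 1 ≤ n := (Finset.mem_Icc.1 hn).1
    have hn0 : (0 : ℝ) < n := by exact_mod_cast hn1
    unfold ZB9_F
    have h3 : (h : ℝ) / X / (n / X) = h / n := by
      field_simp
    rw [h3, neg_mul]
  rw [h2] at h1
  have h3 : (fun k : ℤ => Jk ω W G (h / X) (t / (2 * Real.pi)) (k * X)) = fun k : ℤ =>
      (X : ℂ)⁻¹ * ((X : ℂ) * ∫ y in (1 / 2 : ℝ)..2, ZB9_F ω W G (h / X) (t / (2 * Real.pi)) y *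
        ee (-(k * X * y))) := by
    funext k
    rw [inv_mul_cancel_left₀ hXc]
    unfold Jk ZB9_F
    congr 1
    funext y
    rw [sub_eq_add_neg, ZB9_ee_add]
    ring
  rw [h3]
  exact h1

theorem ZF_main (ω W : ℝ → ℝ) (hω : Bump ω) (hW : BumpW W) : ∃ C : ℝ, 1 ≤ C ∧
    ∀ T G X t : ℝ, ∀ h : ℕ, 1 ≤ T → 700 ≤ G → T ^ (1 / 5 : ℝ) ≤ G → 1 ≤ X → T ≤ t → t ≤ 2 * T → 1 ≤ h →
    (h : ℝ) / X ≤ 7 / G →
    ‖(X : ℂ)⁻¹ * ZF ω W G X t h - ∑ k ∈ Finset.Icc 1 ⌊20 * (h / X * (t / (2 * Real.pi))) / X⌋₊,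
      Mn ω W G (h / X) (t / (2 * Real.pi)) (k * X)‖ ≤ C * (1 / X + (X / (h * T)) ^ 2) := by
  obtain ⟨C1, hC1, H1⟩ := Jk_in ω W hω hW
  obtain ⟨C2, hC2, H2⟩ := Jk_out ω W hω hW
  have hS2 : Summable (fun k : ℤ => 1 / (k : ℝ) ^ 2) := Real.summable_one_div_int_pow.2 (by norm_num)
  set S2 : ℝ := ∑' k : ℤ, 1 / (k : ℝ) ^ 2 with hS2d
  have hS2p : 0 ≤ S2 := tsum_nonneg fun k => by positivity
  refine ⟨20 * C1 + 40 * C2 + C2 * S2 + 1, by nlinarith [mul_nonneg (by linarith : 0 ≤ C2) hS2p], ?_⟩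
  intro T G X t h hT hG hTG hX ht1 ht2 hh hhG
  have hG0 : 0 < G := by linarith
  have hX0 : 0 < X := by linarith
  have hT0 : 0 < T := by linarith
  have ht0 : 0 < t := by linarith
  have hh0 : (0 : ℝ) < h := by exact_mod_cast hh
  have hpi := Real.pi_pos
  have hpi3 := Real.pi_gt_three
  have hpi4 := Real.pi_lt_d2
  have hP := ZB9_poisson ω W hω hW G X t h hX hh
  set α : ℝ := (h : ℝ) / X with hα
  set τ : ℝ := t / (2 * Real.pi) with hτ
  have hα0 : 0 < α := by positivity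
  have hτ0 : 0 < τ := by positivity
  have hα2 : α ≤ 1 / 100 := by
    refine hhG.trans ?_
    rw [div_le_div_iff₀ hG0 (by norm_num)]
    linarith
  have hGα : G * α ≤ 7 := by
    rw [le_div_iff₀ hG0] at hhG
    linarith
  have hαc : α ≠ 0 := hα0.ne'
  have hG5 : T ≤ G ^ 5 := by
    have h1 : (T ^ (1 / 5 : ℝ)) ^ 5 ≤ G ^ 5 := pow_le_pow_left₀ (by positivity) hTG 5
    have h2 : (T ^ (1 / 5 : ℝ)) ^ 5 = T := by
      rw [← Real.rpow_natCast, ← Real.rpow_mul hT0.le]
      norm_num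
    linarith
  have hα5 : α ^ 5 * τ ≤ 100000 := by
    have h1 : α ^ 5 ≤ (7 / G) ^ 5 := pow_le_pow_left₀ hα0.le hhG 5
    have h2 : τ ≤ G ^ 5 := by
      rw [hτ, div_le_iff₀ (by positivity)]
      nlinarith [pow_pos hG0 5]
    calc α ^ 5 * τ ≤ (7 / G) ^ 5 * G ^ 5 := mul_le_mul h1 h2 hτ0.le (by positivity)
      _ = 7 ^ 5 := by
        rw [div_pow]
        field_simp
      _ ≤ 100000 := by norm_num
  have hατ : 0 < α * τ := by positivity
  -- the finite set
  set n0 : ℕ := ⌊20 * (α * τ) / X⌋₊ with hn0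
  set S : Finset ℤ := (Finset.Icc 1 n0).map Nat.castEmbedding with hSd
  have hmem : ∀ k : ℤ, k ∈ S ↔ 1 ≤ k ∧ (k : ℝ) * X ≤ 20 * (α * τ) := by
    intro k
    rw [hSd, Finset.mem_map]
    constructor
    · rintro ⟨m, hm, rfl⟩
      rw [Finset.mem_Icc] at hm
      have h1 : (m : ℝ) ≤ 20 * (α * τ) / X := (Nat.le_floor_iff (by positivity)).1 hm.2
      rw [le_div_iff₀ hX0] at h1
      refine ⟨?_, ?_⟩
      · simp only [Nat.castEmbedding_apply]
        exact_mod_cast hm.1
      · simp only [Nat.castEmbedding_apply, Int.cast_natCast]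
        exact h1
    · rintro ⟨h1, h2⟩
      refine ⟨k.toNat, ?_, ?_⟩
      · rw [Finset.mem_Icc]
        have h3 : ((k.toNat : ℕ) : ℤ) = k := Int.toNat_of_nonneg (by omega)
        refine ⟨by omega, ?_⟩
        refine Nat.le_floor ?_
        rw [le_div_iff₀ hX0]
        have h4 : ((k.toNat : ℕ) : ℝ) = (k : ℝ) := by exact_mod_cast h3
        rw [h4]
        exact h2
      · simp only [Nat.castEmbedding_apply]
        omega
  have hSsum : ∑ k ∈ S, Mn ω W G α τ (k * X) = ∑ k ∈ Finset.Icc 1 n0, Mn ω W G α τ (k * X) := by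
    rw [hSd, Finset.sum_map]
    refine Finset.sum_congr rfl fun k _ => ?_
    simp only [Nat.castEmbedding_apply, Int.cast_natCast]
  have hM : HasSum (fun k : ℤ => if k ∈ S then Mn ω W G α τ (k * X) else 0)
      (∑ k ∈ Finset.Icc 1 n0, Mn ω W G α τ (k * X)) := by
    rw [← hSsum]
    have h1 : HasSum (fun k : ℤ => if k ∈ S then Mn ω W G α τ (k * X) else 0)
        (∑ k ∈ S, if k ∈ S then Mn ω W G α τ (k * X) else 0) :=
      hasSum_sum_of_ne_finset_zero (fun k hk => if_neg hk)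
    have h2 : ∑ k ∈ S, (if k ∈ S then Mn ω W G α τ (k * X) else 0) = ∑ k ∈ S, Mn ω W G α τ (k * X) :=
      Finset.sum_congr rfl fun k hk => if_pos hk
    rw [h2] at h1
    exact h1
  have hD := hP.sub hM
  -- the bounding function
  have hg1 : HasSum (fun k : ℤ => if k ∈ S then C1 / (α * τ) else 0) (S.card * (C1 / (α * τ))) := by
    have h1 : HasSum (fun k : ℤ => if k ∈ S then C1 / (α * τ) else 0)
        (∑ k ∈ S, if k ∈ S then C1 / (α * τ) else 0) :=
      hasSum_sum_of_ne_finset_zero (fun k hk => if_neg hk)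
    have h2 : ∑ k ∈ S, (if k ∈ S then C1 / (α * τ) else 0) = S.card * (C1 / (α * τ)) := by
      rw [Finset.sum_congr rfl fun k hk => if_pos hk, Finset.sum_const, nsmul_eq_mul]
    rw [h2] at h1
    exact h1
  have hg2 : HasSum (fun k : ℤ => if k = 0 then C2 / (α * τ) ^ 2 else 0) (C2 / (α * τ) ^ 2) :=
    hasSum_ite_eq 0 _
  have hg3 : HasSum (fun k : ℤ => C2 / X ^ 2 * (1 / (k : ℝ) ^ 2)) (C2 / X ^ 2 * S2) :=
    hS2.hasSum.mul_left _
  have hg := (hg1.add hg2).add hg3
  have hC2p : 0 < C2 := by linarith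
  have hC1p : 0 < C1 := by linarith
  have hbound := HasSum.norm_le_of_bounded hD hg ?_
  · refine hbound.trans ?_
    have hcard : (S.card : ℝ) ≤ 20 * (α * τ) / X := by
      rw [hSd, Finset.card_map, Nat.card_Icc, Nat.add_sub_cancel]
      exact Nat.floor_le (by positivity)
    have h1 : (S.card : ℝ) * (C1 / (α * τ)) ≤ 20 * C1 * (1 / X) := by
      calc (S.card : ℝ) * (C1 / (α * τ)) ≤ 20 * (α * τ) / X * (C1 / (α * τ)) :=
            mul_le_mul_of_nonneg_right hcard (by positivity)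
        _ = 20 * C1 * (1 / X) := by
            field_simp
    have h2 : C2 / (α * τ) ^ 2 ≤ 40 * C2 * (X / (h * T)) ^ 2 := by
      have h3 : h * T / (2 * Real.pi * X) ≤ α * τ := by
        rw [hα, hτ, div_mul_div_comm]
        rw [div_le_div_iff₀ (by positivity) (by positivity)]
        nlinarith [mul_pos hh0 (mul_pos (mul_pos (by norm_num : (0:ℝ) < 2) hpi) hX0), mul_le_mul_of_nonneg_left ht1 (mul_pos hh0 (mul_pos (mul_pos (by norm_num : (0:ℝ) < 2) hpi) hX0)).le]
      have h4 : 0 < h * T / (2 * Real.pi * X) := by positivity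
      calc C2 / (α * τ) ^ 2 ≤ C2 / (h * T / (2 * Real.pi * X)) ^ 2 := by
            refine div_le_div_of_nonneg_left hC2p.le (by positivity) (pow_le_pow_left₀ h4.le h3 2)
        _ = (2 * Real.pi) ^ 2 * (C2 * (X / (h * T)) ^ 2) := by
            field_simp
        _ ≤ 40 * (C2 * (X / (h * T)) ^ 2) := by
            refine mul_le_mul_of_nonneg_right ?_ (by positivity)
            nlinarith
        _ = 40 * C2 * (X / (h * T)) ^ 2 := by ring
    have h5 : C2 / X ^ 2 * S2 ≤ C2 * S2 * (1 / X) := by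
      have h6 : C2 / X ^ 2 * S2 = C2 * S2 * (1 / X * (1 / X)) := by
        field_simp
      rw [h6]
      refine mul_le_mul_of_nonneg_left ?_ (by positivity)
      have h7 : 1 / X ≤ 1 := by
        rw [div_le_one hX0]
        exact hX
      have h8 : 0 < 1 / X := by positivity
      nlinarith
    have h9 : 0 < 1 / X := by positivity
    have h10 : 0 ≤ (X / (h * T)) ^ 2 := by positivity
    have h11 : 0 ≤ C2 * S2 := by positivity
    nlinarith [mul_nonneg h11 h10, mul_nonneg hC1p.le h10, mul_nonneg hC2p.le h9.le]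
  · intro k
    have hnn1 : 0 ≤ C1 / (α * τ) := by positivity
    have hnn2 : 0 ≤ C2 / (α * τ) ^ 2 := by positivity
    have hnn3 : 0 ≤ C2 / X ^ 2 * (1 / (k : ℝ) ^ 2) := by positivity
    by_cases hcase : α * τ / 30 ≤ k * X ∧ k * X ≤ 20 * (α * τ)
    · have hk1 : 1 ≤ k := by
        have h1 : 0 < (k : ℝ) * X := lt_of_lt_of_le (by positivity) hcase.1
        have h2 : 0 < (k : ℝ) := (pos_iff_pos_of_mul_pos h1).2 hX0
        exact_mod_cast h2
      have hkS : k ∈ S := (hmem k).2 ⟨hk1, hcase.2⟩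
      have h1 := H1 G α τ (k * X) hα0 hα2 hG0.le hGα hτ0 hα5 hcase.1 hcase.2
      simp only [if_pos hkS]
      have h2 : 0 ≤ (if k = 0 then C2 / (α * τ) ^ 2 else 0) := by
        split_ifs <;> simp [hnn2]
      linarith
    · have hMz : (if k ∈ S then Mn ω W G α τ (k * X) else 0) = 0 := by
        split_ifs with hkS
        · obtain ⟨hk1, hk2⟩ := (hmem k).1 hkS
          have hk0 : (0 : ℝ) < k := by exact_mod_cast hk1
          have h1 : k * X < α * τ / 30 := by
            by_contra h2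
            exact hcase ⟨not_lt.1 h2, hk2⟩
          have h2 : cf ω W G α τ (k * X) = 0 := by
            by_contra h3
            have h4 := (cf_supp ω W hω G α τ (k * X) hα0 hα2 hτ0 (by positivity) h3).1
            linarith
          unfold Mn
          rw [h2]
          simp
        · rfl
      have hZ : (k * X : ℝ) ≤ α * τ / 30 ∨ 20 * (α * τ) ≤ k * X := by
        by_cases h1 : (k * X : ℝ) ≤ α * τ / 30
        · exact Or.inl h1
        · right
          by_contra h2
          exact hcase ⟨(not_le.1 h1).le, (not_le.1 h2).le⟩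
      have h1 := H2 G α τ (k * X) hα0 hα2 hG0.le hGα hτ0 hZ
      have h2 : C2 / (α * τ + |k * X|) ^ 2 ≤
          (if k = 0 then C2 / (α * τ) ^ 2 else 0) + C2 / X ^ 2 * (1 / (k : ℝ) ^ 2) := by
        split_ifs with hk0
        · rw [hk0]
          simp
        · have hkr : (k : ℝ) ≠ 0 := by exact_mod_cast hk0
          have hka : 0 < |(k : ℝ)| := abs_pos.2 hkr
          rw [abs_mul, abs_of_pos hX0, zero_add]
          have h3 : C2 / X ^ 2 * (1 / (k : ℝ) ^ 2) = C2 / (|(k : ℝ)| * X) ^ 2 := by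
            rw [mul_pow, sq_abs]
            field_simp
          rw [h3]
          refine div_le_div_of_nonneg_left hC2p.le (by positivity) (pow_le_pow_left₀ (by positivity) ?_ 2)
          linarith
      have h3 : 0 ≤ (if k ∈ S then C1 / (α * τ) else 0) := by
        split_ifs <;> simp [hnn1]
      simp only [hMz, sub_zero]
      linarith

end Pool.Agent.LibSX15
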