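import Pool.Agent.LibSX15.ZSDefs
import Pool.Agent.LibSX15.KNDefs

/-!
LibSX15, block ZSB: definitions.

`α = h/X`, `τ = t/(2π)`, `Z = k X` (so `α Z = h k = n`), `β = G α`, `γ = α⁴ Z = n α³`.
`y = phf (α η) / η`, `η0 = et α τ Z`, `A = α (τ + α Z/12)`, `A η0² = Z`, `z = √η - η0/√η`.
-/

set_option autoImplicit false

namespace Pool.Agent.LibSX15

open Finset

/-- `z / (e^z - 1)` -/
noncomputable def phf (z : ℝ) : ℝ := if z = 0 then 1 else z / (Real.exp z - 1)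

/-- `phf z = 1 - z/2 + z^2/12 + z^4 * sgf z` -/
noncomputable def sgf (z : ℝ) : ℝ :=
  if z = 0 then -1 / 720 else (z / (Real.exp z - 1) - 1 + z / 2 - z ^ 2 / 12) / z ^ 4

/-- `log (1 + x) / x` -/
noncomputable def lgf (x : ℝ) : ℝ := if x = 0 then 1 else Real.log (1 + x) / x

/-- the point `η` with `√η - η0/√η = z` -/
noncomputable def etz (z η0 : ℝ) : ℝ := ((z + Real.sqrt (z ^ 2 + 4 * η0)) / 2) ^ 2

/-- the amplitude `a(η)` -/
noncomputable def ampA (ω W : ℝ → ℝ) (η α β γ : ℝ) : ℂ :=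
  if 0 < η then
    ((Real.sqrt η * Real.sqrt (phf (α * η) * phf (-(α * η))) * ω (phf (α * η) / η) * ω (phf (-(α * η)) / η) *
      W (β * η / (2 * Real.pi)) : ℝ) : ℂ) * ee (-(γ * η ^ 3 * sgf (α * η)))
  else 0

/-- the amplitude in the variable `z` -/
noncomputable def gz (ω W : ℝ → ℝ) (z η0 α β γ : ℝ) : ℂ :=
  ((2 / (etz z η0 + η0) : ℝ) : ℂ) * ampA ω W (etz z η0) α β γ

/-- `bfun` with the parameter `β = G α` -/
noncomputable def bbf (ω W : ℝ → ℝ) (y α β : ℝ) : ℝ :=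
  ω y * ω (y + α) / Real.sqrt (y * (y + α)) * W (β / (2 * Real.pi) * (lgf (α / y) / y))

/-- the integral -/
noncomputable def Jk (ω W : ℝ → ℝ) (G α τ Z : ℝ) : ℂ :=
  ∫ y in (1 / 2 : ℝ)..2, (bfun ω W G α y : ℂ) * ee (-(τ * Real.log (1 + α / y)) - Z * y)

/-- the stationary point -/
noncomputable def et (α τ Z : ℝ) : ℝ := Real.sqrt (Z / (α * (τ + α * Z / 12)))

/-- the coefficient of the main term -/
noncomputable def cf (ω W : ℝ → ℝ) (G α τ Z : ℝ) : ℂ :=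
  sp Z * ampA ω W (et α τ Z) α (G * α) (α ^ 4 * Z)

/-- the main term -/
noncomputable def Mn (ω W : ℝ → ℝ) (G α τ Z : ℝ) : ℂ :=
  cf ω W G α τ Z * ee (α * Z / 2) * ee (-(2 * Real.sqrt (α * Z * (τ + α * Z / 12))))

end Pool.Agent.LibSX15
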