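import Pool.Agent.LibSX15.ZSDefs

/-!
LibSX15, row ZSA1: a nonnegative weight `w`, `w ≥ 1` on `[-1, 1]`, with a smooth compactly supported Fourier transform.
-/

set_option autoImplicit false

namespace Pool.Agent.LibSX15

/-- all the properties of the pair (weight, transform) -/
structure Wt (w W : ℝ → ℝ) : Prop where
  bump : BumpW W
  even : ∀ x, W (-x) = W x
  cont : Continuous w
  int : MeasureTheory.Integrable w
  nonneg : ∀ x, 0 ≤ w x
  one : ∀ x, |x| ≤ 1 → 1 ≤ w x
  four : ∀ x : ℝ, ∫ v, (w v : ℂ) * ee (-(x * v)) = (W x : ℂ)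

open MeasureTheory Convolution FourierTransform SchwartzMap

private noncomputable def ph0 : ContDiffBump (0 : ℝ) := ⟨1 / 32, 1 / 16, by norm_num, by norm_num⟩

private noncomputable def phc (x : ℝ) : ℂ := ((ph0 x : ℝ) : ℂ)

private noncomputable def Wr (x : ℝ) : ℝ := ∫ t, ph0 t * ph0 (x - t)

private theorem phc_int : Integrable phc := (ph0.integrable).ofReal

private theorem Wr_conv : Wr = (ph0 : ℝ → ℝ) ⋆[ContinuousLinearMap.mul ℝ ℝ, volume] (ph0 : ℝ → ℝ) := by
  funext x
  rw [convolution_def]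
  rfl

private theorem Wr_conv_c : (fun x => ((Wr x : ℝ) : ℂ)) = phc ⋆[ContinuousLinearMap.mul ℂ ℂ, volume] phc := by
  funext x
  rw [convolution_def]
  simp only [ContinuousLinearMap.mul_apply', phc, Wr]
  rw [← integral_complex_ofReal]
  refine integral_congr_ae (Filter.Eventually.of_forall fun t => ?_)
  push_cast
  rfl

private theorem Wr_smooth : ContDiff ℝ (⊤ : ℕ∞) Wr := by
  rw [Wr_conv]
  exact HasCompactSupport.contDiff_convolution_right _ ph0.hasCompactSupport ph0.integrable.locallyIntegrable ph0.contDiff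

private theorem ph0_zero (x : ℝ) (hx : 1 / 16 ≤ |x|) : ph0 x = 0 := by
  by_contra h
  have h1 : x ∈ Function.support ph0 := h
  rw [ph0.support_eq, Metric.mem_ball, Real.dist_eq, sub_zero] at h1
  have : ph0.rOut = 1 / 16 := rfl
  linarith

private theorem Wr_supp (x : ℝ) (hx : Wr x ≠ 0) : |x| ≤ 1 / 8 := by
  by_contra h
  push Not at h
  apply hx
  unfold Wr
  have : ∀ t : ℝ, ph0 t * ph0 (x - t) = 0 := by
    intro t
    by_cases ht : 1 / 16 ≤ |t|
    · rw [ph0_zero t ht, zero_mul]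
    · push Not at ht
      rw [ph0_zero (x - t), mul_zero]
      have := abs_sub_abs_le_abs_sub x t
      linarith
  simp [this]

private theorem Wr_even (x : ℝ) : Wr (-x) = Wr x := by
  unfold Wr
  rw [← integral_neg_eq_self]
  refine integral_congr_ae (Filter.Eventually.of_forall fun t => ?_)
  simp only
  rw [ph0.neg, show -x - -t = -(x - t) by ring, ph0.neg]

private noncomputable def gW : 𝓢(ℝ, ℂ) :=
  HasCompactSupport.toSchwartzMap (f := fun x => ((Wr x : ℝ) : ℂ))
    (by
      refine HasCompactSupport.of_support_subset_isCompact (isCompact_Icc (a := (-1 / 8 : ℝ)) (b := 1 / 8)) ?_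
      intro x hx
      have h1 : Wr x ≠ 0 := by
        intro h
        exact hx (by simp [h])
      have := Wr_supp x h1
      rw [abs_le] at this
      exact ⟨by linarith [this.1], this.2⟩)
    (Complex.ofRealCLM.contDiff.comp Wr_smooth)

private noncomputable def Fr (x : ℝ) : ℝ := ∫ t, ph0 t * Real.cos (2 * Real.pi * t * x)

private theorem four_phc (x : ℝ) : 𝓕 phc x = ((Fr x : ℝ) : ℂ) := by
  rw [Real.fourier_real_eq_integral_exp_smul]
  have hi : Integrable fun t : ℝ => Complex.exp (((-2 * Real.pi * t * x : ℝ) : ℂ) * Complex.I) • phc t := by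
    refine phc_int.norm.mono' ?_ (Filter.Eventually.of_forall fun t => ?_)
    · refine Continuous.aestronglyMeasurable ?_
      have c1 : Continuous fun t : ℝ => Complex.exp (((-2 * Real.pi * t * x : ℝ) : ℂ) * Complex.I) := by fun_prop
      exact c1.smul (Complex.continuous_ofReal.comp ph0.continuous)
    · rw [norm_smul, Complex.norm_exp_ofReal_mul_I, one_mul]
  have h1 : ∫ t : ℝ, Complex.exp (((-2 * Real.pi * t * x : ℝ) : ℂ) * Complex.I) • phc t =
      ∫ t : ℝ, Complex.exp (((-2 * Real.pi * (-t) * x : ℝ) : ℂ) * Complex.I) • phc (-t) :=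
    (integral_neg_eq_self (fun t : ℝ => Complex.exp (((-2 * Real.pi * t * x : ℝ) : ℂ) * Complex.I) • phc t) volume).symm
  have h2 : (2 : ℂ) * ∫ t : ℝ, Complex.exp (((-2 * Real.pi * t * x : ℝ) : ℂ) * Complex.I) • phc t =
      2 * ((Fr x : ℝ) : ℂ) := by
    have h3 : (2 : ℂ) * ∫ t : ℝ, Complex.exp (((-2 * Real.pi * t * x : ℝ) : ℂ) * Complex.I) • phc t =
      (∫ t : ℝ, Complex.exp (((-2 * Real.pi * t * x : ℝ) : ℂ) * Complex.I) • phc t) +
      ∫ t : ℝ, Complex.exp (((-2 * Real.pi * (-t) * x : ℝ) : ℂ) * Complex.I) • phc (-t) := by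
      rw [← h1]; ring
    rw [h3, ← integral_add hi]
    · unfold Fr
      rw [← integral_complex_ofReal, ← integral_const_mul]
      refine integral_congr_ae (Filter.Eventually.of_forall fun t => ?_)
      simp only [phc, smul_eq_mul]
      rw [ph0.neg]
      have e1 : Complex.exp (((-2 * Real.pi * t * x : ℝ) : ℂ) * Complex.I) =
        Complex.cos ((2 * Real.pi * t * x : ℝ) : ℂ) - Complex.sin ((2 * Real.pi * t * x : ℝ) : ℂ) * Complex.I := by
        rw [Complex.exp_mul_I, show ((-2 * Real.pi * t * x : ℝ) : ℂ) = -((2 * Real.pi * t * x : ℝ) : ℂ) by push_cast; ring,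
          Complex.cos_neg, Complex.sin_neg]
        ring
      have e2 : Complex.exp (((-2 * Real.pi * (-t) * x : ℝ) : ℂ) * Complex.I) =
        Complex.cos ((2 * Real.pi * t * x : ℝ) : ℂ) + Complex.sin ((2 * Real.pi * t * x : ℝ) : ℂ) * Complex.I := by
        rw [Complex.exp_mul_I, show ((-2 * Real.pi * (-t) * x : ℝ) : ℂ) = ((2 * Real.pi * t * x : ℝ) : ℂ) by push_cast; ring]
      rw [e1, e2]
      rw [← Complex.ofReal_cos]
      push_cast
      ring
    · have := hi.comp_neg
      exact this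
  exact mul_left_cancel₀ two_ne_zero h2

private theorem four_g (x : ℝ) : 𝓕 (gW : ℝ → ℂ) x = (((Fr x) ^ 2 : ℝ) : ℂ) := by
  have h1 : (gW : ℝ → ℂ) = phc ⋆[ContinuousLinearMap.mul ℂ ℂ, volume] phc := by
    rw [← Wr_conv_c]
    rfl
  rw [h1, Real.fourier_mul_convolution_eq phc_int phc_int, four_phc]
  push_cast
  ring

private theorem Fr_lower (x : ℝ) (hx : |x| ≤ 1) : (1 / 2) * ∫ t, ph0 t ≤ Fr x := by
  unfold Fr
  rw [← integral_const_mul]
  refine integral_mono (ph0.integrable.const_mul _) ?_ ?_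
  · refine ph0.integrable.mono' ?_ (Filter.Eventually.of_forall fun t => ?_)
    · exact (ph0.continuous.mul (by fun_prop)).aestronglyMeasurable
    · rw [norm_mul, Real.norm_eq_abs, abs_of_nonneg ph0.nonneg, Real.norm_eq_abs]
      calc ph0 t * |Real.cos (2 * Real.pi * t * x)| ≤ ph0 t * 1 :=
            mul_le_mul_of_nonneg_left (Real.abs_cos_le_one _) ph0.nonneg
        _ = ph0 t := mul_one _
  · intro t
    simp only
    by_cases ht : 1 / 16 ≤ |t|
    · rw [ph0_zero t ht]; simp
    · push Not at ht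
      have h1 : |2 * Real.pi * t * x| ≤ Real.pi / 3 := by
        rw [abs_mul, abs_mul, abs_of_pos (by positivity : (0 : ℝ) < 2 * Real.pi)]
        have h3 : |t| * |x| ≤ 1 / 16 * 1 := mul_le_mul ht.le hx (abs_nonneg _) (by norm_num)
        have hp := Real.pi_pos
        nlinarith
      have h2 : 1 / 2 ≤ Real.cos (2 * Real.pi * t * x) := by
        rw [← Real.cos_abs, ← Real.cos_pi_div_three]
        exact Real.cos_le_cos_of_nonneg_of_le_pi (abs_nonneg _) (by linarith [Real.pi_pos]) h1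
      rw [mul_comm]
      exact mul_le_mul_of_nonneg_left h2 ph0.nonneg

theorem ZSA_weight : ∃ w W : ℝ → ℝ, Wt w W := by
  have hI : 0 < ∫ t, ph0 t := ph0.integral_pos
  set I : ℝ := ∫ t, ph0 t with hIdef
  set A : ℝ := 4 / I ^ 2 with hA
  have hA0 : 0 < A := by positivity
  have hFS : ∀ x, (𝓕 gW : 𝓢(ℝ, ℂ)) x = (((Fr x) ^ 2 : ℝ) : ℂ) := fun x => by
    rw [SchwartzMap.fourier_coe]
    exact four_g x
  have hFc : Continuous fun x => (Fr x) ^ 2 := by
    have h1 : Continuous fun x => ((𝓕 gW : 𝓢(ℝ, ℂ)) x).re := Complex.continuous_re.comp (𝓕 gW : 𝓢(ℝ, ℂ)).continuous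
    refine h1.congr fun x => ?_
    rw [hFS x, Complex.ofReal_re]
  have hFi : Integrable fun x => (Fr x) ^ 2 := by
    have h1 : Integrable fun x => ((𝓕 gW : 𝓢(ℝ, ℂ)) x).re := (𝓕 gW : 𝓢(ℝ, ℂ)).integrable.re
    refine h1.congr (Filter.Eventually.of_forall fun x => ?_)
    simp only
    rw [hFS x, Complex.ofReal_re]
  refine ⟨fun x => A * (Fr x) ^ 2, fun x => A * Wr x, ⟨?_, ?_⟩, ?_, ?_, ?_, ?_, ?_, ?_⟩
  · exact contDiff_const.mul Wr_smooth
  · intro x hx
    have h1 : Wr x ≠ 0 := by
      intro h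
      exact hx (by simp [h])
    have := Wr_supp x h1
    linarith
  · intro x
    rw [Wr_even]
  · exact continuous_const.mul hFc
  · exact hFi.const_mul A
  · intro x
    positivity
  · intro x hx
    have h1 := Fr_lower x hx
    have h2 : (1 / 2 * I) ^ 2 ≤ (Fr x) ^ 2 := pow_le_pow_left₀ (by positivity) h1 2
    calc (1 : ℝ) = A * (1 / 2 * I) ^ 2 := by rw [hA]; field_simp; norm_num
      _ ≤ A * (Fr x) ^ 2 := mul_le_mul_of_nonneg_left h2 hA0.le
  · intro x
    have h1 : 𝓕⁻ (𝓕 (gW : ℝ → ℂ)) = (gW : ℝ → ℂ) :=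
      gW.continuous.fourierInv_fourier_eq gW.integrable (by
        have := (𝓕 gW : 𝓢(ℝ, ℂ)).integrable (μ := volume)
        rw [SchwartzMap.fourier_coe] at this
        exact this)
    have h2 := congrFun h1 (-x)
    rw [Real.fourierInv_eq'] at h2
    have h3 : (gW : ℝ → ℂ) (-x) = ((Wr x : ℝ) : ℂ) := by
      rw [← Wr_even x]
      rfl
    rw [h3] at h2
    calc ∫ v, ((A * (Fr v) ^ 2 : ℝ) : ℂ) * ee (-(x * v)) =
        ∫ v, (A : ℂ) * (Complex.exp ((((2 * Real.pi * (inner ℝ v (-x)) : ℝ)) : ℂ) * Complex.I) • 𝓕 (gW : ℝ → ℂ) v) := by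
          refine integral_congr_ae (Filter.Eventually.of_forall fun v => ?_)
          simp only
          rw [four_g v, smul_eq_mul]
          unfold ee
          have : (inner ℝ v (-x) : ℝ) = -(x * v) := by simp
          rw [this]
          push_cast
          ring
      _ = (A : ℂ) * ((Wr x : ℝ) : ℂ) := by
          rw [integral_const_mul, h2]
      _ = ((A * Wr x : ℝ) : ℂ) := by push_cast; ring

end Pool.Agent.LibSX15
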