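import Pool.Agent.LibSX15.ZSDefs

/-!
LibSX15, row ZSA2: the smooth dyadic partition.

PLAN: `Real.smoothTransition` is smooth (`Real.smoothTransition.contDiff`), monotone, `= 0` for `x ≤ 0`, `= 1` for `1 ≤ x`.
`omg x = 0` for `x ≤ 1/2` (both terms 1) and for `x ≥ 2` (both 0; `2 x ≥ 4`). `omgl`: smooth at `x > 0` (log smooth), vanishes near every `x < 1/2`.
`sum_omg`: telescoping (`Finset.sum_range_succ`, induction on `J`: `omg (n/2^j) = zchi (n/2^j) - zchi (n/2^(j-1))`), `zchi (2 n) = 0` for `n ≥ 1`.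
-/

set_option autoImplicit false

namespace Pool.Agent.LibSX15

open Finset

/-- smooth cutoff: `1` for `x ≤ 1`, `0` for `x ≥ 2` -/
noncomputable def zchi (x : ℝ) : ℝ := Real.smoothTransition (2 - x)

/-- the dyadic bump -/
noncomputable def omg (x : ℝ) : ℝ := zchi x - zchi (2 * x)

/-- the dyadic bump times the logarithm -/
noncomputable def omgl (x : ℝ) : ℝ := omg x * Real.log x

private theorem ZSA2_glue_mono {x y : ℝ} (h : x ≤ y) : expNegInvGlue x ≤ expNegInvGlue y := by
  rcases le_or_gt x 0 with hx | hx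
  · rw [expNegInvGlue.zero_of_nonpos hx]
    exact expNegInvGlue.nonneg y
  · have hy : 0 < y := hx.trans_le h
    simp only [expNegInvGlue, if_neg (not_le.2 hx), if_neg (not_le.2 hy)]
    rw [Real.exp_le_exp, neg_le_neg_iff]
    exact inv_anti₀ hx h

private theorem ZSA2_mono : Monotone Real.smoothTransition := by
  intro x y h
  unfold Real.smoothTransition
  have h1 := Real.smoothTransition.pos_denom x
  have h2 := Real.smoothTransition.pos_denom y
  rw [div_le_div_iff₀ h1 h2]
  have h3 := ZSA2_glue_mono h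
  have h4 : expNegInvGlue (1 - y) ≤ expNegInvGlue (1 - x) := ZSA2_glue_mono (by linarith)
  have h5 := expNegInvGlue.nonneg x
  have h6 := expNegInvGlue.nonneg (1 - y)
  have h7 := mul_le_mul h3 h4 h6 (h5.trans h3)
  nlinarith

theorem zchi_anti : Antitone zchi := by
  intro x y h
  exact ZSA2_mono (by linarith)

theorem zchi_one (x : ℝ) (hx : x ≤ 1) : zchi x = 1 :=
  Real.smoothTransition.one_of_one_le (by linarith)

theorem zchi_zero (x : ℝ) (hx : 2 ≤ x) : zchi x = 0 :=
  Real.smoothTransition.zero_of_nonpos (by linarith)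

theorem zchi_nonneg (x : ℝ) : 0 ≤ zchi x := Real.smoothTransition.nonneg _

private theorem ZSA2_smooth : ContDiff ℝ (⊤ : ℕ∞) zchi :=
  Real.smoothTransition.contDiff.comp (contDiff_const.sub contDiff_id)

private theorem ZSA2_omg_small {x : ℝ} (hx : x < 1 / 2) : omg x = 0 := by
  rw [omg, zchi_one x (by linarith), zchi_one (2 * x) (by linarith), sub_self]

theorem bump_omg : Bump omg := by
  refine ⟨?_, fun x hx => ⟨?_, ?_⟩⟩
  · exact ZSA2_smooth.sub (ZSA2_smooth.comp (contDiff_const.mul contDiff_id))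
  · by_contra h
    exact hx (ZSA2_omg_small (not_le.1 h))
  · by_contra h
    apply hx
    rw [omg, zchi_zero x (not_le.1 h).le, zchi_zero (2 * x) (by linarith [not_le.1 h]), sub_self]

theorem bump_omgl : Bump omgl := by
  refine ⟨?_, fun x hx => bump_omg.supp x (left_ne_zero_of_mul hx)⟩
  rw [contDiff_iff_contDiffAt]
  intro x
  rcases lt_or_ge x (1 / 2) with hx | hx
  · have h1 : omgl =ᶠ[nhds x] fun _ => (0 : ℝ) := by
      filter_upwards [eventually_lt_nhds hx] with y hy
      rw [omgl, ZSA2_omg_small hy, zero_mul]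
    exact contDiffAt_const.congr_of_eventuallyEq h1
  · exact bump_omg.smooth.contDiffAt.mul (Real.contDiffAt_log.2 (by linarith))

theorem sum_omg (J n : ℕ) (hn : 1 ≤ n) :
    ∑ j ∈ range (J + 1), omg ((n : ℝ) / 2 ^ j) = zchi ((n : ℝ) / 2 ^ J) := by
  induction J with
  | zero =>
    have h1 : (1 : ℝ) ≤ n := by exact_mod_cast hn
    rw [zero_add, sum_range_one, omg, pow_zero, div_one, zchi_zero (2 * (n : ℝ)) (by linarith),
      sub_zero]
  | succ J ih =>
    rw [sum_range_succ, ih, omg]
    have h1 : 2 * ((n : ℝ) / 2 ^ (J + 1)) = (n : ℝ) / 2 ^ J := by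
      rw [pow_succ]
      field_simp
    rw [h1]
    ring

end Pool.Agent.LibSX15
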