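import Pool.Agent.LibSX15.ZSA2
import Pool.Agent.LibZM.ZetaApprox

/-!
LibSX15, row ZSA3: `ζ(1/2+it) = ∑_{j ≤ J} D_{2^j}(t) + O(1)` for `2^J ≍ T²`.

PLAN: `s = 1/2 + it`, `N = 2^J`, `A(n) = ∑_{m ≤ n} m^(-s)`. By `ZSA2.sum_omg` (swap the finite sums; all the sums `ZD omg (2^j) t` can be
extended to `n ∈ Icc 1 (2 N)`, as `omg (n/2^j) = 0` for `n ≥ 2·2^j`), `∑_{j ≤ J} ZD omg (2^j) t = ∑_{n=1}^{2N} zchi(n/N) n^(-s)`
`= ∑_{n=1}^{2N-1} (zchi(n/N) - zchi((n+1)/N)) A(n)` (Abel; `zchi 2 = 0`) and the terms `n < N` vanish (`zchi = 1` on `[0,1]`), the coefficients are `≥ 0`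
and their sum is `zchi(1) - zchi(2) = 1`. For `N ≤ n < 2N`: `LibZM.zeta_approx` gives
`‖A(n) - ζ(s)‖ ≤ n^(1/2)/‖1-s‖ + 2 ‖s‖ n^(-1/2) ≤ (2·2T²)^(1/2)/(T/2) + 2 (3T+1)/T ≤ 20`. So `C = 20`.
-/

set_option autoImplicit false

namespace Pool.Agent.LibSX15

open Finset

private theorem ZSA3_swap (J : ℕ) (t : ℝ) : ∑ j ∈ range (J + 1), ZD omg (2 ^ j) t =
    ∑ n ∈ Icc (1 : ℕ) (2 * 2 ^ J), (zchi ((n : ℝ) / 2 ^ J) : ℂ) *
      (n : ℂ) ^ (-(1 / 2 : ℂ) - (t : ℂ) * Complex.I) := by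
  have h1 : ∀ j ∈ range (J + 1), ZD omg (2 ^ j) t = ∑ n ∈ Icc (1 : ℕ) (2 * 2 ^ J),
      (omg ((n : ℝ) / 2 ^ j) : ℂ) * (n : ℂ) ^ (-(1 / 2 : ℂ) - (t : ℂ) * Complex.I) := by
    intro j hj
    have hj' : j ≤ J := by rw [mem_range] at hj; omega
    unfold ZD
    have h2 : (2 : ℝ) * 2 ^ j = ((2 * 2 ^ j : ℕ) : ℝ) := by push_cast; ring
    rw [h2, Nat.floor_natCast]
    refine sum_subset ?_ ?_
    · refine Icc_subset_Icc_right ?_
      exact Nat.mul_le_mul_left 2 (Nat.pow_le_pow_right (by norm_num) hj')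
    · intro n hn hn'
      have h3 : omg ((n : ℝ) / 2 ^ j) = 0 := by
        by_contra h4
        have h5 := (bump_omg.supp _ h4).2
        rw [div_le_iff₀ (by positivity)] at h5
        apply hn'
        rw [mem_Icc] at hn ⊢
        refine ⟨hn.1, ?_⟩
        exact_mod_cast h5
      rw [h3, Complex.ofReal_zero, zero_mul]
  rw [sum_congr rfl h1, sum_comm]
  refine sum_congr rfl fun n hn => ?_
  rw [← sum_mul]
  congr 1
  rw [← Complex.ofReal_sum, sum_omg J n (mem_Icc.1 hn).1]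

private theorem ZSA3_abel (χ : ℕ → ℝ) (F : ℕ → ℂ) (M : ℕ) :
    ∑ n ∈ Icc 1 M, (χ n : ℂ) * F n = (χ (M + 1) : ℂ) * ∑ m ∈ Icc 1 M, F m +
      ∑ n ∈ Icc 1 M, ((χ n - χ (n + 1) : ℝ) : ℂ) * ∑ m ∈ Icc 1 n, F m := by
  induction M with
  | zero => simp
  | succ M ih =>
    rw [sum_Icc_succ_top (by omega), sum_Icc_succ_top (by omega), sum_Icc_succ_top (by omega), ih,
      sum_Icc_succ_top (by omega)]
    push_cast
    ring

private theorem ZSA3_tele (χ : ℕ → ℝ) (M : ℕ) :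
    ∑ n ∈ Icc 1 M, (χ n - χ (n + 1)) = χ 1 - χ (M + 1) := by
  induction M with
  | zero => simp
  | succ M ih =>
    rw [sum_Icc_succ_top (by omega), ih]
    ring

private theorem ZSA3_approx {T t : ℝ} (hT : 3 ≤ T) (ht1 : T / 2 ≤ t) (ht2 : t ≤ 3 * T) {n : ℕ}
    (hn1 : T ^ 2 ≤ n) (hn2 : (n : ℝ) ≤ 4 * T ^ 2) :
    ‖∑ m ∈ Icc 1 n, (m : ℂ) ^ (-(1 / 2 : ℂ) - (t : ℂ) * Complex.I) -
      riemannZeta (1 / 2 + (t : ℂ) * Complex.I)‖ ≤ 20 := by
  have hT0 : 0 < T := by linarith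
  have ht0 : 0 < t := by linarith
  have hnR : (0 : ℝ) < n := lt_of_lt_of_le (by positivity) hn1
  have hn0 : 0 < n := by exact_mod_cast hnR
  set s : ℂ := 1 / 2 + (t : ℂ) * Complex.I with hs
  have hre : s.re = 1 / 2 := by simp [hs]
  have him : s.im = t := by simp [hs]
  have hs1 : s ≠ 1 := by
    intro h
    have := congrArg Complex.im h
    rw [him, Complex.one_im] at this
    linarith
  have hexp : -(1 / 2 : ℂ) - (t : ℂ) * Complex.I = -s := by rw [hs]; ring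
  have key := Pool.Agent.LibZM.zeta_approx (s := s) (by rw [hre]; norm_num) hs1
    (N := n) hn0
  rw [hre] at key
  rw [hexp]
  have e1 : ‖(n : ℂ) ^ (1 - s) / (1 - s)‖ ≤ 4 := by
    rw [norm_div, Complex.norm_natCast_cpow_of_pos hn0]
    have h1 : (1 - s).re = 1 / 2 := by
      rw [Complex.sub_re, Complex.one_re, hre]
      norm_num
    rw [h1, ← Real.sqrt_eq_rpow]
    have h2 : Real.sqrt n ≤ 2 * T := by
      rw [Real.sqrt_le_left (by positivity)]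
      nlinarith
    have h3 : T / 2 ≤ ‖1 - s‖ := by
      have h4 := Complex.abs_im_le_norm (1 - s)
      have h5 : (1 - s).im = -t := by rw [Complex.sub_im, Complex.one_im, him]; ring
      rw [h5, abs_neg, abs_of_pos ht0] at h4
      linarith
    rw [div_le_iff₀ (by linarith)]
    linarith
  have e2 : ‖s‖ / (1 / 2) * (n : ℝ) ^ (-(1 / 2) : ℝ) ≤ 16 := by
    have h1 : ‖s‖ ≤ 1 / 2 + 3 * T := by
      rw [hs]
      refine (norm_add_le _ _).trans ?_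
      rw [norm_mul, Complex.norm_I, Complex.norm_real, Real.norm_of_nonneg ht0.le, mul_one]
      have : ‖(1 / 2 : ℂ)‖ = 1 / 2 := by simp
      rw [this]
      linarith
    have h2 : (n : ℝ) ^ (-(1 / 2) : ℝ) ≤ 1 / T := by
      rw [Real.rpow_neg hnR.le, ← Real.sqrt_eq_rpow, one_div]
      refine inv_anti₀ hT0 ?_
      exact Real.le_sqrt_of_sq_le hn1
    have h3 : (0 : ℝ) ≤ (n : ℝ) ^ (-(1 / 2) : ℝ) := Real.rpow_nonneg hnR.le _
    calc ‖s‖ / (1 / 2) * (n : ℝ) ^ (-(1 / 2) : ℝ) ≤ ((1 / 2 + 3 * T) / (1 / 2)) * (1 / T) := by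
          gcongr
      _ = 1 / T + 6 := by
          field_simp
          ring
      _ ≤ 16 := by
          have : 1 / T ≤ 1 := by rw [div_le_one hT0]; linarith
          linarith
  have h4 : ∑ m ∈ Icc 1 n, (m : ℂ) ^ (-s) - riemannZeta s =
      (n : ℂ) ^ (1 - s) / (1 - s) - (riemannZeta s - (∑ m ∈ Icc 1 n, (m : ℂ) ^ (-s) -
        (n : ℂ) ^ (1 - s) / (1 - s))) := by ring
  rw [h4]
  refine (norm_sub_le _ _).trans ?_
  have h5 := key.trans e2
  linarith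

theorem ZSA_zeta : ∃ C : ℝ, 1 ≤ C ∧ ∀ T : ℝ, 3 ≤ T → ∀ J : ℕ, T ^ 2 ≤ 2 ^ J → (2 : ℝ) ^ J ≤ 2 * T ^ 2 →
    ∀ t : ℝ, T / 2 ≤ t → t ≤ 3 * T →
    ‖riemannZeta (1 / 2 + (t : ℂ) * Complex.I)‖ ≤ ∑ j ∈ range (J + 1), ‖ZD omg (2 ^ j) t‖ + C := by
  refine ⟨20, by norm_num, fun T hT J hJ1 hJ2 t ht1 ht2 => ?_⟩
  set χ : ℕ → ℝ := fun n => zchi ((n : ℝ) / 2 ^ J) with hχ
  set F : ℕ → ℂ := fun n => (n : ℂ) ^ (-(1 / 2 : ℂ) - (t : ℂ) * Complex.I) with hF
  have hpow : (0 : ℝ) < 2 ^ J := by positivity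
  have h0 := ZSA3_swap J t
  have h1 := ZSA3_abel χ F (2 * 2 ^ J)
  have hlast : χ (2 * 2 ^ J + 1) = 0 := by
    simp only [hχ]
    refine zchi_zero _ ?_
    rw [le_div_iff₀ hpow]
    push_cast
    linarith
  have hfirst : χ 1 = 1 := by
    simp only [hχ]
    refine zchi_one _ ?_
    rw [div_le_one hpow]
    push_cast
    exact one_le_pow₀ (by norm_num)
  have htele := ZSA3_tele χ (2 * 2 ^ J)
  rw [hlast, hfirst, sub_zero] at htele
  rw [hlast, Complex.ofReal_zero, zero_mul, zero_add] at h1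
  have hS : ∑ j ∈ range (J + 1), ZD omg (2 ^ j) t - riemannZeta (1 / 2 + (t : ℂ) * Complex.I) =
      ∑ n ∈ Icc 1 (2 * 2 ^ J), ((χ n - χ (n + 1) : ℝ) : ℂ) * (∑ m ∈ Icc 1 n, F m -
        riemannZeta (1 / 2 + (t : ℂ) * Complex.I)) := by
    simp only [mul_sub]
    rw [sum_sub_distrib, ← sum_mul, ← Complex.ofReal_sum, htele, Complex.ofReal_one, one_mul, h0]
    congr 1
  have hnorm : ‖∑ j ∈ range (J + 1), ZD omg (2 ^ j) t -
      riemannZeta (1 / 2 + (t : ℂ) * Complex.I)‖ ≤ 20 := by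
    rw [hS]
    refine (norm_sum_le _ _).trans ?_
    have h2 : ∀ n ∈ Icc 1 (2 * 2 ^ J), ‖((χ n - χ (n + 1) : ℝ) : ℂ) * (∑ m ∈ Icc 1 n, F m -
        riemannZeta (1 / 2 + (t : ℂ) * Complex.I))‖ ≤ (χ n - χ (n + 1)) * 20 := by
      intro n hn
      have hc : 0 ≤ χ n - χ (n + 1) := by
        rw [sub_nonneg]
        refine zchi_anti ?_
        gcongr
        simp
      rw [norm_mul, Complex.norm_real, Real.norm_of_nonneg hc]
      rcases Nat.lt_or_ge n (2 ^ J) with hlt | hge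
      · have h3 : χ n - χ (n + 1) = 0 := by
          have h4 : χ n = 1 := by
            refine zchi_one _ ?_
            rw [div_le_one hpow]
            exact_mod_cast hlt.le
          have h5 : χ (n + 1) = 1 := by
            refine zchi_one _ ?_
            rw [div_le_one hpow]
            exact_mod_cast hlt
          rw [h4, h5, sub_self]
        rw [h3, zero_mul, zero_mul]
      · refine mul_le_mul_of_nonneg_left ?_ hc
        have h3 : ((2 : ℝ) ^ J) ≤ n := by exact_mod_cast hge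
        have h4 : (n : ℝ) ≤ 2 * 2 ^ J := by exact_mod_cast (mem_Icc.1 hn).2
        exact ZSA3_approx hT ht1 ht2 (hJ1.trans h3) (by linarith)
    refine (sum_le_sum h2).trans ?_
    rw [← sum_mul, htele, one_mul]
  have h6 : riemannZeta (1 / 2 + (t : ℂ) * Complex.I) = ∑ j ∈ range (J + 1), ZD omg (2 ^ j) t -
      (∑ j ∈ range (J + 1), ZD omg (2 ^ j) t - riemannZeta (1 / 2 + (t : ℂ) * Complex.I)) := by
    ring
  rw [h6]
  refine (norm_sub_le _ _).trans (add_le_add (norm_sum_le _ _) hnorm)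

end Pool.Agent.LibSX15
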