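import Pool.Agent.LibSX15.ZSA2
import Pool.Agent.LibSX15.ZSP
import Pool.Agent.LibSX15.KN_NS

/-!
LibSX15, row ZSA5: `D_X(t)` is small for `X ≥ 2T` (Poisson + nonstationary).

PLAN: `F(y) = omg(y) y^(-1/2) ee(-(t/2π) log y)` (smooth by `bump_smooth`, support in `[1/2,2]`). `omg(n/X) n^(-1/2-it) = X^(-1/2) X^(-it) F(n/X)`
for `n ≥ 1` (`n^(-it) = ee(-(t/2π) log n)`). `ZS_poisson`: `ZD omg X t = X^(-1/2) X^(-it) X ∑_k I_k`, `I_k = ∫_{1/2}^2 omg(y) y^(-1/2) ee(-(t/2π) log y - k X y) dy`.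
 * `k ≠ 0`: `ψ1 = -t/(2πy) - kX`, `|t/(2πy)| ≤ 3T/π ≤ 0.48 X`, so `|ψ1| ≥ |k| X/2 =: Λ`, `|ψ2| = t/(2πy²) ≤ 2X ≤ 4 Λ`, `|ψ3| = t/(πy³) ≤ 8 X ≤ 16 Λ`
   (constants with `t ≤ 3T ≤ 3X/2`), so `KN_NS` (statement in KN_NS.lean) gives `|I_k| ≤ C/(k² X²)`; `∑_{k≠0} 1/k² < ∞`.
 * `k = 0`: `|ψ1| = t/(2πy) ≥ T/(8π) =: Λ` on `[1/2, 2]`, `|ψ2|, |ψ3| ≤ C Λ`: `|I_0| ≤ C/T² ≤ C/T`.
 The amplitude `g(y) = omg(y) y^(-1/2)` is a fixed smooth function with support in `[1/2,2]` (so `g`, `g1` vanish at the end points by continuity: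
 they vanish outside `[1/2,2]`), its first two derivatives are bounded. Total: `‖ZD omg X t‖ ≤ C X^(1/2) (1/T + 1/X²) ≤ 2C X^(1/2)/T`.
-/

set_option autoImplicit false

namespace Pool.Agent.LibSX15

open Finset

private theorem ZSA5_ee_add (x y : ℝ) : ee (x + y) = ee x * ee y := by
  unfold ee
  rw [← Complex.exp_add]
  congr 1
  push_cast
  ring

private theorem ZSA5_norm_ee (x : ℝ) : ‖ee x‖ = 1 := by
  unfold ee
  rw [Complex.norm_exp_ofReal_mul_I]

/-- the amplitude -/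
private noncomputable def ZSA5_g (y : ℝ) : ℂ := (omg y : ℂ) * (((1 / Real.sqrt y : ℝ)) : ℂ)

private theorem ZSA5_sqrt_smooth (x : ℝ) (hx : 0 < x) :
    ContDiffAt ℝ (⊤ : ℕ∞) (fun y : ℝ => (((1 / Real.sqrt y : ℝ)) : ℂ)) x := by
  have h1 : ContDiffAt ℝ (⊤ : ℕ∞) (fun y : ℝ => 1 / Real.sqrt y) x := by
    refine ContDiffAt.div contDiffAt_const ?_ (Real.sqrt_ne_zero'.2 hx)
    exact Real.contDiffAt_sqrt hx.ne'
  exact Complex.ofRealCLM.contDiff.contDiffAt.comp x h1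

private theorem ZSA5_g_smooth : ContDiff ℝ (⊤ : ℕ∞) ZSA5_g :=
  bump_smooth omg bump_omg _ ZSA5_sqrt_smooth

private theorem ZSA5_ee_smooth (c x : ℝ) (hx : 0 < x) :
    ContDiffAt ℝ (⊤ : ℕ∞) (fun y : ℝ => ee (c * Real.log y)) x := by
  unfold ee
  have h1 : ContDiffAt ℝ (⊤ : ℕ∞) (fun y : ℝ => 2 * Real.pi * (c * Real.log y)) x := by
    refine ContDiffAt.mul contDiffAt_const (ContDiffAt.mul contDiffAt_const ?_)
    exact Real.contDiffAt_log.2 hx.ne'
  have h2 : ContDiffAt ℝ (⊤ : ℕ∞)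
      (fun y : ℝ => ((2 * Real.pi * (c * Real.log y) : ℝ) : ℂ)) x :=
    Complex.ofRealCLM.contDiff.contDiffAt.comp x h1
  exact (h2.mul contDiffAt_const).cexp

private theorem ZSA5_g_supp (y : ℝ) (h : ZSA5_g y ≠ 0) : 1 / 2 ≤ y ∧ y ≤ 2 := by
  apply bump_omg.supp
  intro h0
  apply h
  rw [ZSA5_g, h0]
  simp

private theorem ZSA5_zero_left {h : ℝ → ℂ} (hc : Continuous h) {a : ℝ}
    (h0 : ∀ x, x < a → h x = 0) : h a = 0 := by
  have h1 : Set.EqOn h (fun _ => 0) (Set.Iio a) := fun x hx => h0 x hx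
  have h2 := h1.closure hc continuous_const
  rw [closure_Iio] at h2
  exact h2 (Set.mem_Iic.2 le_rfl)

private theorem ZSA5_zero_right {h : ℝ → ℂ} (hc : Continuous h) {a : ℝ}
    (h0 : ∀ x, a < x → h x = 0) : h a = 0 := by
  have h1 : Set.EqOn h (fun _ => 0) (Set.Ioi a) := fun x hx => h0 x hx
  have h2 := h1.closure hc continuous_const
  rw [closure_Ioi] at h2
  exact h2 (Set.mem_Ici.2 le_rfl)

private theorem ZSA5_deriv_left {h : ℝ → ℂ} {a : ℝ}
    (h0 : ∀ x, x < a → h x = 0) : ∀ x, x < a → deriv h x = 0 := by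
  intro x hx
  have h1 : h =ᶠ[nhds x] fun _ => 0 := by
    filter_upwards [Iio_mem_nhds hx] with y hy using h0 y hy
  rw [h1.deriv_eq]
  simp

private theorem ZSA5_deriv_right {h : ℝ → ℂ} {a : ℝ}
    (h0 : ∀ x, a < x → h x = 0) : ∀ x, a < x → deriv h x = 0 := by
  intro x hx
  have h1 : h =ᶠ[nhds x] fun _ => 0 := by
    filter_upwards [Ioi_mem_nhds hx] with y hy using h0 y hy
  rw [h1.deriv_eq]
  simp

/-- the phase estimate for the fixed amplitude -/
private theorem ZSA5_int : ∃ G : ℝ, 0 ≤ G ∧ ∀ c s B lam : ℝ, 0 ≤ B → 0 < lam →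
    (∀ y ∈ Set.Icc (1 / 2 : ℝ) 2, lam ≤ |c * y⁻¹ + s|) →
    (∀ y ∈ Set.Icc (1 / 2 : ℝ) 2, |c * (y ^ 2)⁻¹| ≤ B * lam) →
    (∀ y ∈ Set.Icc (1 / 2 : ℝ) 2, |c * (2 * (y ^ 3)⁻¹)| ≤ B * lam) →
    ‖∫ y in (1 / 2 : ℝ)..2, ZSA5_g y * ee (c * Real.log y + s * y)‖ ≤
      2 * G * (1 + B) ^ 2 / lam ^ 2 := by
  have hg := ZSA5_g_smooth
  have hg' : ContDiff ℝ (⊤ : ℕ∞) (deriv ZSA5_g) := (contDiff_infty_iff_deriv.1 hg).2
  have hg'' : ContDiff ℝ (⊤ : ℕ∞) (deriv (deriv ZSA5_g)) := (contDiff_infty_iff_deriv.1 hg').2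
  have hd : Differentiable ℝ ZSA5_g := (contDiff_infty_iff_deriv.1 hg).1
  have hd' : Differentiable ℝ (deriv ZSA5_g) := (contDiff_infty_iff_deriv.1 hg').1
  obtain ⟨G0, hG0⟩ := (isCompact_Icc (a := (1 / 2 : ℝ)) (b := 2)).exists_bound_of_continuousOn
    hg.continuous.continuousOn
  obtain ⟨G1, hG1⟩ := (isCompact_Icc (a := (1 / 2 : ℝ)) (b := 2)).exists_bound_of_continuousOn
    hg'.continuous.continuousOn
  obtain ⟨G2, hG2⟩ := (isCompact_Icc (a := (1 / 2 : ℝ)) (b := 2)).exists_bound_of_continuousOn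
    hg''.continuous.continuousOn
  have zl : ∀ x, x < (1 / 2 : ℝ) → ZSA5_g x = 0 := fun x hx => by
    by_contra h
    exact absurd (ZSA5_g_supp x h).1 (not_le.2 hx)
  have zr : ∀ x, (2 : ℝ) < x → ZSA5_g x = 0 := fun x hx => by
    by_contra h
    exact absurd (ZSA5_g_supp x h).2 (not_le.2 hx)
  refine ⟨max 0 (max G0 (max G1 G2)), le_max_left _ _, ?_⟩
  intro c s B lam hB hlam h1 h2 h3
  have hpos : ∀ x ∈ Set.Icc (1 / 2 : ℝ) 2, x ≠ 0 := fun x hx => by
    have := hx.1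
    intro h0
    rw [h0] at this
    norm_num at this
  have key := KN_NS (1 / 2) 2 ZSA5_g (deriv ZSA5_g) (deriv (deriv ZSA5_g))
    (fun y => c * Real.log y + s * y) (fun y => c * y⁻¹ + s) (fun y => c * (-(y ^ 2)⁻¹))
    (fun y => c * (2 * (y ^ 3)⁻¹)) (max 0 (max G0 (max G1 G2))) B lam
    (by norm_num) hlam hB
    (fun x _ => (hd x).hasDerivAt) (fun x _ => (hd' x).hasDerivAt)
    (fun x hx => by
      have h4 := ((Real.hasDerivAt_log (hpos x hx)).const_mul c).add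
        ((hasDerivAt_id x).const_mul s)
      rw [mul_one] at h4
      exact h4)
    (fun x hx => by
      have := ((hasDerivAt_inv (hpos x hx)).const_mul c).add_const s
      simpa using this)
    (fun x hx => by
      have h4 : HasDerivAt (fun y : ℝ => -(y ^ 2)⁻¹) (2 * (x ^ 3)⁻¹) x := by
        have h5 := ((hasDerivAt_pow 2 x).inv (pow_ne_zero 2 (hpos x hx))).neg
        have e : -(-(((2 : ℕ) : ℝ) * x ^ (2 - 1)) / (x ^ 2) ^ 2) = 2 * (x ^ 3)⁻¹ := by
          have := hpos x hx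
          norm_num
          field_simp
        rw [e] at h5
        exact h5
      exact h4.const_mul c)
    hg''.continuous.continuousOn
    (by
      refine ContinuousOn.mul continuousOn_const (ContinuousOn.mul continuousOn_const ?_)
      exact ContinuousOn.inv₀ (by fun_prop) (fun x hx => pow_ne_zero 3 (hpos x hx)))
    (ZSA5_zero_left hg.continuous zl) (ZSA5_zero_right hg.continuous zr)
    (ZSA5_zero_left hg'.continuous (ZSA5_deriv_left zl))
    (ZSA5_zero_right hg'.continuous (ZSA5_deriv_right zr))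
    (fun x hx => (hG0 x hx).trans ((le_max_left _ _).trans (le_max_right _ _)))
    (fun x hx => (hG1 x hx).trans ((le_max_left _ _).trans ((le_max_right _ _).trans
      (le_max_right _ _))))
    (fun x hx => (hG2 x hx).trans ((le_max_right _ _).trans ((le_max_right _ _).trans
      (le_max_right _ _))))
    h1 (fun x hx => by
      have := h2 x hx
      rw [mul_neg, abs_neg]
      exact this) h3
  refine key.trans ?_
  have hG : 0 ≤ max 0 (max G0 (max G1 G2)) := le_max_left _ _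
  have hl2 : 0 < lam ^ 2 := by positivity
  rw [div_le_div_iff_of_pos_right hl2]
  have : 0 ≤ max 0 (max G0 (max G1 G2)) * (1 + B) ^ 2 := by positivity
  nlinarith

/-- the terms -/
private theorem ZSA5_term (X t : ℝ) (hX : 0 < X) (n : ℕ) (hn : 1 ≤ n) :
    (omg (n / X) : ℂ) * (n : ℂ) ^ (-(1 / 2 : ℂ) - (t : ℂ) * Complex.I) =
      ((1 / Real.sqrt X : ℝ) : ℂ) * ee (-(t / (2 * Real.pi)) * Real.log X) *
        ((omg (n / X) : ℂ) * ((((1 / Real.sqrt (n / X) : ℝ)) : ℂ) *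
          ee (-(t / (2 * Real.pi)) * Real.log (n / X)))) := by
  have hn0 : (0 : ℝ) < n := by exact_mod_cast hn
  have hnc : (n : ℂ) ≠ 0 := by exact_mod_cast hn0.ne'
  have hsX : 0 < Real.sqrt X := Real.sqrt_pos.2 hX
  have hsn : 0 < Real.sqrt n := Real.sqrt_pos.2 hn0
  have e1 : Real.log (n / X) = Real.log n - Real.log X := Real.log_div hn0.ne' hX.ne'
  have e2 : ee (-(t / (2 * Real.pi)) * Real.log X) * ee (-(t / (2 * Real.pi)) * Real.log (n / X)) =
      ee (-(t / (2 * Real.pi)) * Real.log n) := by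
    rw [← ZSA5_ee_add, e1]
    congr 1
    ring
  have e3 : (1 / Real.sqrt X) * (1 / Real.sqrt (n / X)) = 1 / Real.sqrt n := by
    rw [Real.sqrt_div hn0.le]
    field_simp
  have e4 : (n : ℂ) ^ (-(1 / 2 : ℂ) - (t : ℂ) * Complex.I) =
      ((1 / Real.sqrt n : ℝ) : ℂ) * ee (-(t / (2 * Real.pi)) * Real.log n) := by
    rw [Complex.cpow_sub _ _ hnc, div_eq_mul_inv, ← Complex.cpow_neg]
    congr 1
    · have e5 : (n : ℂ) ^ (1 / 2 : ℂ) = ((Real.sqrt n : ℝ) : ℂ) := by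
        rw [Real.sqrt_eq_rpow, Complex.ofReal_cpow hn0.le]
        push_cast
        rfl
      rw [Complex.cpow_neg, e5, one_div, Complex.ofReal_inv]
    · rw [Complex.cpow_def_of_ne_zero hnc, ee]
      congr 1
      rw [← Complex.natCast_log]
      have hpi : (Real.pi : ℂ) ≠ 0 := by exact_mod_cast Real.pi_ne_zero
      push_cast
      field_simp
  rw [e4, ← e2, ← e3]
  push_cast
  ring

theorem ZSA_tail : ∃ C : ℝ, 1 ≤ C ∧ ∀ T : ℝ, 3 ≤ T → ∀ X : ℝ, 2 * T ≤ X → ∀ t : ℝ, T / 2 ≤ t → t ≤ 3 * T →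
    ‖ZD omg X t‖ ≤ C * Real.sqrt X / T := by
  obtain ⟨G, hG, hint⟩ := ZSA5_int
  set S : ℝ := ∑' k : ℤ, 1 / (k : ℝ) ^ 2 with hS
  have hsum : Summable fun k : ℤ => 1 / (k : ℝ) ^ 2 :=
    Real.summable_one_div_int_pow.2 (by norm_num)
  have hS0 : 0 ≤ S := tsum_nonneg fun k => by positivity
  have hpi := Real.pi_gt_three
  have hpi4 := Real.pi_le_four
  refine ⟨1 + 648 * G * S + 2 * G * 257 ^ 2 * (8 * 4) ^ 2, by nlinarith [mul_nonneg hG hS0], ?_⟩
  intro T hT X hX t ht1 ht2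
  have hX1 : 1 ≤ X := by linarith
  have hX0 : 0 < X := by linarith
  have hT0 : 0 < T := by linarith
  have ht0 : 0 < t := by linarith
  have hsX : 0 < Real.sqrt X := Real.sqrt_pos.2 hX0
  -- the function
  set F : ℝ → ℂ := fun y => (omg y : ℂ) * ((((1 / Real.sqrt y : ℝ)) : ℂ) *
    ee (-(t / (2 * Real.pi)) * Real.log y)) with hF
  have hFs : ContDiff ℝ (⊤ : ℕ∞) F :=
    bump_smooth omg bump_omg _ fun x hx =>
      (ZSA5_sqrt_smooth x hx).mul (ZSA5_ee_smooth _ x hx)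
  have hFsupp : ∀ y, F y ≠ 0 → 1 / 2 ≤ y ∧ y ≤ 2 := fun y h => by
    apply bump_omg.supp
    intro h0
    apply h
    simp only [hF, h0]
    simp
  have hP := ZS_poisson F hFs hFsupp X hX1
  have hZ : ZD omg X t = ((1 / Real.sqrt X : ℝ) : ℂ) * ee (-(t / (2 * Real.pi)) * Real.log X) *
      ∑ n ∈ Finset.Icc 1 ⌊2 * X⌋₊, F (n / X) := by
    rw [ZD, Finset.mul_sum]
    refine Finset.sum_congr rfl fun n hn => ?_
    exact ZSA5_term X t hX0 n (Finset.mem_Icc.1 hn).1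
  have hbound : ∀ k : ℤ, ‖(X : ℂ) * ∫ y in (1 / 2 : ℝ)..2, F y * ee (-(k * X * y))‖ ≤
      X * (648 * G / X ^ 2 * (1 / (k : ℝ) ^ 2) +
        if k = 0 then 2 * G * 257 ^ 2 * (8 * 4) ^ 2 / T ^ 2 else 0) := by
    intro k
    rw [norm_mul, Complex.norm_real, Real.norm_of_nonneg hX0.le]
    refine mul_le_mul_of_nonneg_left ?_ hX0.le
    have e : (∫ y in (1 / 2 : ℝ)..2, F y * ee (-(k * X * y))) =
        ∫ y in (1 / 2 : ℝ)..2, ZSA5_g y *
          ee (-(t / (2 * Real.pi)) * Real.log y + (-(k * X)) * y) := by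
      congr 1
      ext y
      simp only [hF, ZSA5_g]
      rw [ZSA5_ee_add, neg_mul ((k : ℝ) * X) y]
      ring
    rw [e]
    have hc : 0 < t / (2 * Real.pi) := by positivity
    have b1 : ∀ y ∈ Set.Icc (1 / 2 : ℝ) 2, y⁻¹ ≤ 2 := fun y hy => by
      have := inv_anti₀ (by norm_num) hy.1
      norm_num at this
      exact this
    have b0 : ∀ y ∈ Set.Icc (1 / 2 : ℝ) 2, 1 / 2 ≤ y⁻¹ := fun y hy => by
      have := inv_anti₀ (by linarith [hy.1]) hy.2
      norm_num at this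
      linarith
    have b2 : ∀ y ∈ Set.Icc (1 / 2 : ℝ) 2, (y ^ 2)⁻¹ ≤ 4 := fun y hy => by
      rw [← inv_pow]
      have h1 := b1 y hy
      have h2 := b0 y hy
      nlinarith
    have b3 : ∀ y ∈ Set.Icc (1 / 2 : ℝ) 2, (y ^ 3)⁻¹ ≤ 8 := fun y hy => by
      rw [← inv_pow]
      have h1 := b1 y hy
      have h2 := b0 y hy
      have h3 : y⁻¹ ^ 2 ≤ 4 := by nlinarith
      have h4 : 0 ≤ y⁻¹ ^ 2 := by positivity
      nlinarith
    have p2 : ∀ y ∈ Set.Icc (1 / 2 : ℝ) 2, 0 ≤ (y ^ 2)⁻¹ := fun y _ => by positivity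
    have p3 : ∀ y ∈ Set.Icc (1 / 2 : ℝ) 2, 0 ≤ (y ^ 3)⁻¹ := fun y hy => by
      have : 0 ≤ y := by linarith [hy.1]
      positivity
    by_cases hk : k = 0
    · -- k = 0
      subst hk
      simp only [if_true, Int.cast_zero]
      have hl : 0 < T / (8 * 4) := by positivity
      have h := hint (-(t / (2 * Real.pi))) (-(0 * X)) 256 (T / (8 * 4)) (by norm_num) hl
        (fun y hy => by
          rw [zero_mul, neg_zero, add_zero, neg_mul, abs_neg, abs_mul, abs_of_pos hc,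
            abs_of_pos (by linarith [b0 y hy])]
          have h1 : T / 16 ≤ t / (2 * Real.pi) := by
            rw [div_le_div_iff₀ (by norm_num) (by positivity)]
            nlinarith
          nlinarith [b0 y hy])
        (fun y hy => by
          rw [neg_mul, abs_neg, abs_mul, abs_of_pos hc, abs_of_nonneg (p2 y hy)]
          have h1 : t / (2 * Real.pi) ≤ T / 2 := by
            rw [div_le_div_iff₀ (by positivity) (by norm_num)]
            nlinarith
          have h2 := mul_le_mul h1 (b2 y hy) (p2 y hy) (by positivity)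
          linarith)
        (fun y hy => by
          rw [neg_mul, abs_neg, abs_mul, abs_of_pos hc,
            abs_of_nonneg (by linarith [p3 y hy])]
          have h1 : t / (2 * Real.pi) ≤ T / 2 := by
            rw [div_le_div_iff₀ (by positivity) (by norm_num)]
            nlinarith
          have h2 := mul_le_mul h1 (by linarith [b3 y hy] : 2 * (y ^ 3)⁻¹ ≤ 16)
            (by linarith [p3 y hy]) (by positivity)
          linarith)
      refine (h.trans (le_of_eq ?_))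
      norm_num
      field_simp
      ring
    · -- k ≠ 0
      rw [if_neg hk, add_zero]
      have hk1 : (1 : ℝ) ≤ |(k : ℝ)| := by
        rw [← Int.cast_abs]
        exact_mod_cast Int.one_le_abs hk
      have hl : 0 < |(k : ℝ)| * X / 2 := by positivity
      have hc2 : t / (2 * Real.pi) ≤ X / 4 := by
        rw [div_le_div_iff₀ (by positivity) (by norm_num)]
        nlinarith
      have hXl : X / 4 ≤ |(k : ℝ)| * X / 2 / 2 := by nlinarith
      have h := hint (-(t / (2 * Real.pi))) (-(k * X)) 8 (|(k : ℝ)| * X / 2) (by norm_num) hl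
        (fun y hy => by
          have h1 : |(-(k * X) : ℝ)| = |(k : ℝ)| * X := by
            rw [abs_neg, abs_mul, abs_of_pos hX0]
          have h2 : |(-(t / (2 * Real.pi)) * y⁻¹)| ≤ |(k : ℝ)| * X / 2 := by
            rw [neg_mul, abs_neg, abs_mul, abs_of_pos hc, abs_of_pos (by linarith [b0 y hy])]
            have h3 := mul_le_mul hc2 (b1 y hy) (by linarith [b0 y hy]) (by positivity)
            nlinarith
          have h4 := abs_sub_abs_le_abs_sub (-(k * X) : ℝ) (-(-(t / (2 * Real.pi)) * y⁻¹))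
          rw [h1, abs_neg] at h4
          have h5 : (-(k * X) : ℝ) - -(-(t / (2 * Real.pi)) * y⁻¹) =
              -(t / (2 * Real.pi)) * y⁻¹ + -(k * X) := by ring
          rw [h5] at h4
          linarith)
        (fun y hy => by
          rw [neg_mul, abs_neg, abs_mul, abs_of_pos hc, abs_of_nonneg (p2 y hy)]
          have h2 := mul_le_mul hc2 (b2 y hy) (p2 y hy) (by positivity)
          linarith)
        (fun y hy => by
          rw [neg_mul, abs_neg, abs_mul, abs_of_pos hc,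
            abs_of_nonneg (by linarith [p3 y hy])]
          have h2 := mul_le_mul hc2 (by linarith [b3 y hy] : 2 * (y ^ 3)⁻¹ ≤ 16)
            (by linarith [p3 y hy]) (by positivity)
          linarith)
      refine (h.trans (le_of_eq ?_))
      have e5 : (|(k : ℝ)| * X / 2) ^ 2 = (k : ℝ) ^ 2 * X ^ 2 / 4 := by
        rw [div_pow, mul_pow, sq_abs]
        norm_num
      rw [e5]
      have hk2 : (k : ℝ) ≠ 0 := by exact_mod_cast hk
      field_simp
      ring
  have hs : HasSum (fun k : ℤ => X * (648 * G / X ^ 2 * (1 / (k : ℝ) ^ 2) +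
        if k = 0 then 2 * G * 257 ^ 2 * (8 * 4) ^ 2 / T ^ 2 else 0))
      (X * (648 * G / X ^ 2 * S + 2 * G * 257 ^ 2 * (8 * 4) ^ 2 / T ^ 2)) :=
    ((hsum.hasSum.mul_left _).add (hasSum_ite_eq 0 _)).mul_left _
  have hfin := hP.norm_le_of_bounded hs hbound
  rw [hZ, norm_mul, norm_mul, ZSA5_norm_ee, mul_one, Complex.norm_real,
    Real.norm_of_nonneg (by positivity)]
  have h6 : 1 / Real.sqrt X * ‖∑ n ∈ Finset.Icc 1 ⌊2 * X⌋₊, F (n / X)‖ ≤
      1 / Real.sqrt X * (X * (648 * G / X ^ 2 * S + 2 * G * 257 ^ 2 * (8 * 4) ^ 2 / T ^ 2)) :=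
    mul_le_mul_of_nonneg_left hfin (by positivity)
  refine h6.trans ?_
  have h7 : 1 / Real.sqrt X * (X * (648 * G / X ^ 2 * S + 2 * G * 257 ^ 2 * (8 * 4) ^ 2 / T ^ 2)) =
      Real.sqrt X * (648 * G / X ^ 2 * S + 2 * G * 257 ^ 2 * (8 * 4) ^ 2 / T ^ 2) := by
    have : X = Real.sqrt X * Real.sqrt X := (Real.mul_self_sqrt hX0.le).symm
    rw [← mul_assoc]
    congr 1
    rw [one_div, inv_mul_eq_div, div_eq_iff hsX.ne']
    exact this
  rw [h7]
  have h8 : 648 * G / X ^ 2 * S ≤ 648 * G * S / T := by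
    rw [div_mul_eq_mul_div]
    apply div_le_div_of_nonneg_left (by positivity) hT0
    nlinarith
  have h9 : 2 * G * 257 ^ 2 * (8 * 4) ^ 2 / T ^ 2 ≤ 2 * G * 257 ^ 2 * (8 * 4) ^ 2 / T := by
    apply div_le_div_of_nonneg_left (by positivity) hT0
    nlinarith
  have h10 : (1 + 648 * G * S + 2 * G * 257 ^ 2 * (8 * 4) ^ 2) * Real.sqrt X / T =
      Real.sqrt X * (1 / T + 648 * G * S / T + 2 * G * 257 ^ 2 * (8 * 4) ^ 2 / T) := by
    field_simp
  rw [h10]
  refine mul_le_mul_of_nonneg_left ?_ hsX.le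
  have : 0 ≤ 1 / T := by positivity
  linarith

end Pool.Agent.LibSX15
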