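import Pool.Agent.LibSX15.ZSA2

/-!
LibSX15, row ZSA6: Sobolev (sup over `|v| ≤ 1/2` by the local mean of the function and its derivative).

PLAN `ZSA_sobolev`: for `x, y ∈ [r-1/2, r+1/2]`: `‖f x‖² ≤ ‖f y‖² + ∫_{r-1/2}^{r+1/2} 2‖f‖‖f'‖` (derivative of `‖f‖²` is `2 Re(conj f · f')`,
FTC `intervalIntegral.integral_eq_sub_of_hasDerivAt`); integrate over `y` in the interval of length 1.
PLAN `ZD_deriv`: termwise: `d/dt n^(-1/2-it) = -i log n · n^(-1/2-it)`, `log n = log X + log (n/X)`.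
PLAN `ZSA_sup`: `2‖f‖‖f'‖ ≤ 2‖f‖ (log X ‖f‖ + ‖f2‖) ≤ (2 log X + 1)‖f‖² + ‖f2‖²`.
-/

set_option autoImplicit false

namespace Pool.Agent.LibSX15

open Finset

theorem ZSA_sobolev (f f' : ℝ → ℂ) (hf : ∀ x, HasDerivAt f (f' x) x) (hf' : Continuous f') (r v : ℝ)
    (hv : |v| ≤ 1 / 2) :
    ‖f (r + v)‖ ^ 2 ≤ ∫ y in (r - 1 / 2)..(r + 1 / 2), (‖f y‖ ^ 2 + 2 * ‖f y‖ * ‖f' y‖) := by
  have hfc : Continuous f := continuous_iff_continuousAt.2 fun x => (hf x).continuousAt
  obtain ⟨hv1, hv2⟩ := abs_le.1 hv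
  set g' : ℝ → ℝ := fun y => 2 * inner ℝ (f y) (f' y) with hg'
  have hg : ∀ y, HasDerivAt (fun y => ‖f y‖ ^ 2) (g' y) y := fun y => (hf y).norm_sq
  have hgc : Continuous g' := continuous_const.mul (hfc.inner hf')
  have hle : ∀ y, |g' y| ≤ 2 * ‖f y‖ * ‖f' y‖ := by
    intro y
    have h1 := abs_real_inner_le_norm (f y) (f' y)
    simp only [hg']
    rw [abs_mul, abs_two]
    linarith
  have hab : r - 1 / 2 ≤ r + 1 / 2 := by linarith
  have hkey : ∀ y ∈ Set.Icc (r - 1 / 2) (r + 1 / 2),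
      ‖f (r + v)‖ ^ 2 ≤ ‖f y‖ ^ 2 + ∫ z in (r - 1 / 2)..(r + 1 / 2), |g' z| := by
    intro y hy
    have h1 : ∫ z in y..(r + v), g' z = ‖f (r + v)‖ ^ 2 - ‖f y‖ ^ 2 :=
      intervalIntegral.integral_eq_sub_of_hasDerivAt (fun z _ => hg z) (hgc.intervalIntegrable _ _)
    have h2 : |∫ z in y..(r + v), g' z| ≤ |∫ z in y..(r + v), abs (g' z)| := by
      simpa only [Real.norm_eq_abs] using intervalIntegral.norm_integral_le_abs_integral_norm
        (f := g') (a := y) (b := r + v) (μ := MeasureTheory.volume)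
    have h3 : |∫ z in y..(r + v), abs (g' z)| ≤ |∫ z in (r - 1 / 2)..(r + 1 / 2), abs (g' z)| := by
      refine intervalIntegral.abs_integral_mono_interval ?_
        (Filter.Eventually.of_forall fun z => abs_nonneg _) (hgc.abs.intervalIntegrable _ _)
      rw [Set.uIoc_of_le hab]
      intro z hz
      rw [Set.mem_uIoc] at hz
      rw [Set.mem_Ioc]
      rw [Set.mem_Icc] at hy
      rcases hz with hz | hz
      · exact ⟨by linarith [hz.1], by linarith [hz.2]⟩
      · exact ⟨by linarith [hz.1], by linarith [hz.2]⟩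
    have h4 : |∫ z in (r - 1 / 2)..(r + 1 / 2), abs (g' z)| = ∫ z in (r - 1 / 2)..(r + 1 / 2), |g' z| :=
      abs_of_nonneg (intervalIntegral.integral_nonneg hab fun z _ => abs_nonneg _)
    have h5 := le_abs_self (∫ z in y..(r + v), g' z)
    linarith
  have hgi : IntervalIntegrable (fun y => ‖f y‖ ^ 2) MeasureTheory.volume (r - 1 / 2) (r + 1 / 2) :=
    (hfc.norm.pow 2).intervalIntegrable _ _
  have hhi : IntervalIntegrable (fun y => 2 * ‖f y‖ * ‖f' y‖) MeasureTheory.volume (r - 1 / 2)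
      (r + 1 / 2) := ((continuous_const.mul hfc.norm).mul hf'.norm).intervalIntegrable _ _
  have h6 : ∫ _y in (r - 1 / 2)..(r + 1 / 2), ‖f (r + v)‖ ^ 2 ≤
      ∫ y in (r - 1 / 2)..(r + 1 / 2), (‖f y‖ ^ 2 + ∫ z in (r - 1 / 2)..(r + 1 / 2), |g' z|) :=
    intervalIntegral.integral_mono_on hab intervalIntegrable_const
      (hgi.add intervalIntegrable_const) hkey
  rw [intervalIntegral.integral_const, intervalIntegral.integral_add hgi intervalIntegrable_const,
    intervalIntegral.integral_const] at h6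
  have h7 : r + 1 / 2 - (r - 1 / 2) = 1 := by ring
  rw [h7, one_smul, one_smul] at h6
  have h8 : ∫ z in (r - 1 / 2)..(r + 1 / 2), |g' z| ≤
      ∫ z in (r - 1 / 2)..(r + 1 / 2), 2 * ‖f z‖ * ‖f' z‖ :=
    intervalIntegral.integral_mono_on hab (hgc.abs.intervalIntegrable _ _) hhi fun z _ => hle z
  rw [intervalIntegral.integral_add hgi hhi]
  linarith

theorem ZD_deriv (X : ℝ) (hX : 0 < X) (t : ℝ) :
    HasDerivAt (ZD omg X) (-Complex.I * ((Real.log X : ℂ) * ZD omg X t + ZD omgl X t)) t := by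
  have h1 : ∀ n ∈ Finset.Icc 1 ⌊2 * X⌋₊, HasDerivAt
      (fun t : ℝ => (omg (n / X) : ℂ) * (n : ℂ) ^ (-(1 / 2 : ℂ) - (t : ℂ) * Complex.I))
      ((omg (n / X) : ℂ) * ((n : ℂ) ^ (-(1 / 2 : ℂ) - (t : ℂ) * Complex.I) * Complex.log n *
        (-Complex.I))) t := by
    intro n hn
    have hn0 : (n : ℂ) ≠ 0 := by
      have := (Finset.mem_Icc.1 hn).1
      exact_mod_cast (by omega : n ≠ 0)
    have h2 : HasDerivAt (fun z : ℂ => -(1 / 2 : ℂ) - z * Complex.I) (-Complex.I) (t : ℂ) := by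
      have h3 := ((hasDerivAt_id (t : ℂ)).mul_const Complex.I).const_sub (-(1 / 2 : ℂ))
      rw [one_mul] at h3
      exact h3
    exact ((h2.const_cpow (Or.inl hn0)).comp_ofReal).const_mul _
  have h2 := HasDerivAt.fun_sum h1
  have h3 : -Complex.I * ((Real.log X : ℂ) * ZD omg X t + ZD omgl X t) =
      ∑ n ∈ Finset.Icc 1 ⌊2 * X⌋₊, (omg (n / X) : ℂ) *
        ((n : ℂ) ^ (-(1 / 2 : ℂ) - (t : ℂ) * Complex.I) * Complex.log n * (-Complex.I)) := by
    unfold ZD
    rw [Finset.mul_sum, ← Finset.sum_add_distrib, Finset.mul_sum]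
    refine Finset.sum_congr rfl fun n hn => ?_
    have hn0 : (0 : ℝ) < n := by
      have := (Finset.mem_Icc.1 hn).1
      exact_mod_cast (by omega : 0 < n)
    have h4 : Real.log n = Real.log X + Real.log (n / X) := by
      rw [Real.log_div hn0.ne' hX.ne']
      ring
    have h5 : Complex.log n = (Real.log X : ℂ) + (Real.log (n / X) : ℂ) := by
      rw [← Complex.natCast_log, h4]
      push_cast
      rfl
    rw [h5, omgl]
    push_cast
    ring
  rw [h3]
  exact h2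

theorem ZD_cont (ω : ℝ → ℝ) (X : ℝ) : Continuous (ZD ω X) := by
  unfold ZD
  refine continuous_finsetSum _ fun n hn => continuous_const.mul ?_
  have hn0 : (n : ℂ) ≠ 0 := by
    have := (Finset.mem_Icc.1 hn).1
    exact_mod_cast (by omega : n ≠ 0)
  refine Continuous.const_cpow ?_ (Or.inl hn0)
  fun_prop

theorem ZSA_sup (X : ℝ) (hX : 1 ≤ X) (r v : ℝ) (hv : |v| ≤ 1 / 2) :
    ‖ZD omg X (r + v)‖ ^ 2 ≤
      (2 * Real.log X + 2) * ∫ y in (r - 1 / 2)..(r + 1 / 2), (‖ZD omg X y‖ ^ 2 + ‖ZD omgl X y‖ ^ 2) := by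
  have hX0 : 0 < X := by linarith
  have hl : 0 ≤ Real.log X := Real.log_nonneg hX
  have c1 := ZD_cont omg X
  have c2 := ZD_cont omgl X
  have hc : Continuous fun t => -Complex.I * ((Real.log X : ℂ) * ZD omg X t + ZD omgl X t) :=
    continuous_const.mul ((continuous_const.mul c1).add c2)
  refine (ZSA_sobolev (ZD omg X) _ (ZD_deriv X hX0) hc r v hv).trans ?_
  rw [← intervalIntegral.integral_const_mul]
  refine intervalIntegral.integral_mono_on (by linarith) ?_ ?_ fun y _ => ?_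
  · exact ((c1.norm.pow 2).add ((continuous_const.mul c1.norm).mul hc.norm)).intervalIntegrable _ _
  · exact (continuous_const.mul ((c1.norm.pow 2).add (c2.norm.pow 2))).intervalIntegrable _ _
  · have h1 : ‖-Complex.I * ((Real.log X : ℂ) * ZD omg X y + ZD omgl X y)‖ ≤
        Real.log X * ‖ZD omg X y‖ + ‖ZD omgl X y‖ := by
      rw [norm_mul, norm_neg, Complex.norm_I, one_mul]
      refine (norm_add_le _ _).trans ?_
      rw [norm_mul, Complex.norm_real, Real.norm_eq_abs, abs_of_nonneg hl]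
    have h2 : 0 ≤ ‖ZD omg X y‖ := norm_nonneg _
    have h3 : 0 ≤ ‖ZD omgl X y‖ := norm_nonneg _
    have h4 := mul_le_mul_of_nonneg_left h1 (by positivity : 0 ≤ 2 * ‖ZD omg X y‖)
    nlinarith [sq_nonneg (‖ZD omg X y‖ - ‖ZD omgl X y‖), mul_nonneg hl (sq_nonneg ‖ZD omgl X y‖)]

end Pool.Agent.LibSX15
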