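import Pool.Agent.LibSX15.ZSA1

/-!
LibSX15, row ZSA7: expansion of the local mean.

PLAN: `‖D‖² = D conj D`; `n^(-1/2-iy) conj(m^(-1/2-iy)) = (nm)^(-1/2) ee(-(y/2π) log(n/m))`; with `y = t + v` and `v = G v'`:
`∫ ee(-((t+v)/2π) log(n/m)) w(v/G) dv = G ee(-(t/2π) log(n/m)) W((G/2π) log(n/m))` (`Wt.four`, substitution `integral_comp_mul_left/…`).
So `ZMn = G ∑_{n,m} ω(n/X) ω(m/X) (nm)^(-1/2) ee(-(t/2π) log(n/m)) W((G/2π) log(n/m))`.
 * `n = m`: `G W(0) ∑ ω(n/X)²/n ≤ G |W 0| sup ω² ∑_{X/2 ≤ n ≤ 2X} 1/n ≤ C G` (`1/n ≤ 2/X` and at most `2X` integers).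
 * `m = n + h`, `h ≥ 1`: `log(n/m) = -log(1+h/n)`; `n = m + h`: the conjugate of the previous one (`W` even). Both together
   `= 2 Re ∑_h ∑_n ω(n/X) ω((n+h)/X) (n(n+h))^(-1/2) ee(-(t/2π) log(1+h/n)) W((G/2π) log(1+h/n)) G = 2 G X⁻¹ Re ∑_h ZF h`
   (`bfun (h/X) (n/X) = X · ω ω (n(n+h))^(-1/2) W(..)`, as `(h/X)/(n/X) = h/n`; `h ≤ 2X` since both are in `[X/2, 2X]`; for `n + h > 2X`
   the bump vanishes). `Re z ≤ ‖z‖`.
-/

set_option autoImplicit false

namespace Pool.Agent.LibSX15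

open Finset

/-- the local mean -/
noncomputable def ZMn (ω w : ℝ → ℝ) (G X t : ℝ) : ℝ := ∫ v, ‖ZD ω X (t + v)‖ ^ 2 * w (v / G)

private theorem ZSA7_add (x y : ℝ) : ee (x + y) = ee x * ee y := by
  unfold ee
  rw [← Complex.exp_add]
  congr 1
  push_cast
  ring

private theorem ZSA7_conj (x : ℝ) : (starRingEnd ℂ) (ee x) = ee (-x) := by
  unfold ee
  rw [← Complex.exp_conj]
  congr 1
  rw [map_mul, Complex.conj_I, Complex.conj_ofReal]
  push_cast
  ring

private theorem ZSA7_norm (x : ℝ) : ‖ee x‖ = 1 := by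
  unfold ee
  exact Complex.norm_exp_ofReal_mul_I _

private theorem ZSA7_re_neg (x : ℝ) : (ee (-x)).re = (ee x).re := by
  rw [← ZSA7_conj, Complex.conj_re]

private theorem ZSA7_cont : Continuous ee := by
  unfold ee
  fun_prop

/-- the powers -/
private theorem ZSA7_pow (n : ℕ) (hn : 1 ≤ n) (y : ℝ) :
    (n : ℂ) ^ (-(1 / 2 : ℂ) - (y : ℂ) * Complex.I) =
      ((1 / √(n : ℝ) : ℝ) : ℂ) * ee (-(y / (2 * Real.pi)) * Real.log n) := by
  have hn0 : (0 : ℝ) < n := by exact_mod_cast hn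
  have hnc : (n : ℂ) ≠ 0 := by
    have : n ≠ 0 := by omega
    exact_mod_cast this
  have h1 : 1 / √(n : ℝ) = Real.exp (-(1 / 2) * Real.log n) := by
    rw [Real.sqrt_eq_rpow, one_div, ← Real.rpow_neg hn0.le, Real.rpow_def_of_pos hn0, mul_comm]
  rw [h1, Complex.cpow_def_of_ne_zero hnc, Complex.ofReal_exp]
  unfold ee
  rw [← Complex.exp_add]
  congr 1
  rw [← Complex.natCast_log]
  push_cast
  have hpi : (Real.pi : ℂ) ≠ 0 := by exact_mod_cast Real.pi_ne_zero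
  field_simp
  ring

/-- the coefficient of a pair -/
private noncomputable def ZSA7_a (ω : ℝ → ℝ) (X : ℝ) (n m : ℕ) : ℝ :=
  ω (n / X) * ω (m / X) * (1 / √(n : ℝ)) * (1 / √(m : ℝ))

private theorem ZSA7_sq (ω : ℝ → ℝ) (X y : ℝ) :
    ((‖ZD ω X y‖ ^ 2 : ℝ) : ℂ) = ∑ n ∈ Icc 1 ⌊2 * X⌋₊, ∑ m ∈ Icc 1 ⌊2 * X⌋₊,
      (ZSA7_a ω X n m : ℂ) * ee (-(y / (2 * Real.pi)) * (Real.log n - Real.log m)) := by
  have h1 : ((‖ZD ω X y‖ ^ 2 : ℝ) : ℂ) = ZD ω X y * (starRingEnd ℂ) (ZD ω X y) := by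
    rw [Complex.mul_conj, Complex.normSq_eq_norm_sq]
  have h2 : ZD ω X y = ∑ n ∈ Icc 1 ⌊2 * X⌋₊,
      ((ω (n / X) * (1 / √(n : ℝ)) : ℝ) : ℂ) * ee (-(y / (2 * Real.pi)) * Real.log n) := by
    unfold ZD
    refine Finset.sum_congr rfl fun n hn => ?_
    rw [ZSA7_pow n (Finset.mem_Icc.1 hn).1 y]
    push_cast
    ring
  rw [h1, h2, map_sum, Finset.sum_mul_sum]
  refine Finset.sum_congr rfl fun n _ => Finset.sum_congr rfl fun m _ => ?_
  rw [map_mul, Complex.conj_ofReal, ZSA7_conj]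
  have h3 : -(y / (2 * Real.pi)) * (Real.log n - Real.log m) =
      -(y / (2 * Real.pi)) * Real.log n + -(-(y / (2 * Real.pi)) * Real.log m) := by ring
  rw [h3, ZSA7_add]
  unfold ZSA7_a
  push_cast
  ring

/-- the integral of one pair -/
private theorem ZSA7_int {w W : ℝ → ℝ} (hW : Wt w W) {G : ℝ} (hG : 1 ≤ G) (t x : ℝ) :
    ∫ v : ℝ, ee (-((t + v) / (2 * Real.pi)) * x) * (w (v / G) : ℂ) =
      (G : ℂ) * (ee (-(t / (2 * Real.pi)) * x) * (W (G / (2 * Real.pi) * x) : ℂ)) := by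
  have hG0 : 0 < G := by linarith
  have h1 : ∀ v : ℝ, ee (-((t + v) / (2 * Real.pi)) * x) * (w (v / G) : ℂ) =
      ee (-(t / (2 * Real.pi)) * x) *
        ((w (v / G) : ℂ) * ee (-(G / (2 * Real.pi) * x * (v / G)))) := by
    intro v
    have h2 : -((t + v) / (2 * Real.pi)) * x =
        -(t / (2 * Real.pi)) * x + -(G / (2 * Real.pi) * x * (v / G)) := by
      have := Real.pi_ne_zero
      field_simp
      ring
    rw [h2, ZSA7_add]
    ring
  simp_rw [h1]
  rw [MeasureTheory.integral_const_mul]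
  have h3 := MeasureTheory.Measure.integral_comp_div
    (fun v : ℝ => (w v : ℂ) * ee (-(G / (2 * Real.pi) * x * v))) G
  rw [h3, hW.four, abs_of_pos hG0, Complex.real_smul]
  ring

private theorem ZSA7_integrable {w W : ℝ → ℝ} (hW : Wt w W) {G : ℝ} (hG : 1 ≤ G) (t x : ℝ) :
    MeasureTheory.Integrable fun v : ℝ => ee (-((t + v) / (2 * Real.pi)) * x) * (w (v / G) : ℂ) := by
  have hG0 : G ≠ 0 := by linarith
  have h1 : MeasureTheory.Integrable fun v : ℝ => w (v / G) := hW.int.comp_div hG0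
  have h2 : MeasureTheory.Integrable fun v : ℝ => (w (v / G) : ℂ) := h1.ofReal
  refine h2.bdd_mul (c := 1) ?_ ?_
  · exact (ZSA7_cont.comp (by fun_prop)).aestronglyMeasurable
  · exact Filter.Eventually.of_forall fun v => (ZSA7_norm _).le

/-- the real double sum -/
private noncomputable def ZSA7_f (ω W : ℝ → ℝ) (G X t : ℝ) (n m : ℕ) : ℝ :=
  ZSA7_a ω X n m * W (G / (2 * Real.pi) * (Real.log n - Real.log m)) *
    (ee (-(t / (2 * Real.pi)) * (Real.log n - Real.log m))).re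

private theorem ZSA7_symm {ω w W : ℝ → ℝ} (hW : Wt w W) (G X t : ℝ) (n m : ℕ) :
    ZSA7_f ω W G X t n m = ZSA7_f ω W G X t m n := by
  unfold ZSA7_f ZSA7_a
  have h1 : G / (2 * Real.pi) * (Real.log n - Real.log m) =
      -(G / (2 * Real.pi) * (Real.log m - Real.log n)) := by ring
  have h2 : -(t / (2 * Real.pi)) * (Real.log n - Real.log m) =
      -(-(t / (2 * Real.pi)) * (Real.log m - Real.log n)) := by ring
  rw [h1, h2, hW.even, ZSA7_re_neg]
  ring

private theorem ZSA7_eq {ω w W : ℝ → ℝ} (hW : Wt w W) {G : ℝ} (hG : 1 ≤ G) (X t : ℝ) :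
    ZMn ω w G X t =
      G * ∑ n ∈ Icc 1 ⌊2 * X⌋₊, ∑ m ∈ Icc 1 ⌊2 * X⌋₊, ZSA7_f ω W G X t n m := by
  have h1 : ((ZMn ω w G X t : ℝ) : ℂ) = ∑ n ∈ Icc 1 ⌊2 * X⌋₊, ∑ m ∈ Icc 1 ⌊2 * X⌋₊,
      (ZSA7_a ω X n m : ℂ) * ((G : ℂ) * (ee (-(t / (2 * Real.pi)) * (Real.log n - Real.log m)) *
        (W (G / (2 * Real.pi) * (Real.log n - Real.log m)) : ℂ))) := by
    unfold ZMn
    rw [← integral_complex_ofReal]
    have h2 : ∀ v : ℝ, ((‖ZD ω X (t + v)‖ ^ 2 * w (v / G) : ℝ) : ℂ) =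
        ∑ n ∈ Icc 1 ⌊2 * X⌋₊, ∑ m ∈ Icc 1 ⌊2 * X⌋₊, (ZSA7_a ω X n m : ℂ) *
          (ee (-((t + v) / (2 * Real.pi)) * (Real.log n - Real.log m)) * (w (v / G) : ℂ)) := by
      intro v
      rw [Complex.ofReal_mul, ZSA7_sq, Finset.sum_mul]
      refine Finset.sum_congr rfl fun n _ => ?_
      rw [Finset.sum_mul]
      exact Finset.sum_congr rfl fun m _ => mul_assoc _ _ _
    have h3 : ∫ v : ℝ, ((‖ZD ω X (t + v)‖ ^ 2 * w (v / G) : ℝ) : ℂ) =
        ∫ v : ℝ, ∑ n ∈ Icc 1 ⌊2 * X⌋₊, ∑ m ∈ Icc 1 ⌊2 * X⌋₊, (ZSA7_a ω X n m : ℂ) *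
          (ee (-((t + v) / (2 * Real.pi)) * (Real.log n - Real.log m)) * (w (v / G) : ℂ)) :=
      MeasureTheory.integral_congr_ae (Filter.Eventually.of_forall h2)
    refine Eq.trans h3 ?_
    rw [MeasureTheory.integral_finsetSum _ fun n _ =>
      MeasureTheory.integrable_finsetSum _ fun m _ => (ZSA7_integrable hW hG t _).const_mul _]
    refine Finset.sum_congr rfl fun n _ => ?_
    rw [MeasureTheory.integral_finsetSum _ fun m _ => (ZSA7_integrable hW hG t _).const_mul _]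
    refine Finset.sum_congr rfl fun m _ => ?_
    rw [MeasureTheory.integral_const_mul, ZSA7_int hW hG]
  have h4 := congrArg Complex.re h1
  rw [Complex.ofReal_re, Complex.re_sum] at h4
  rw [h4, Finset.mul_sum]
  refine Finset.sum_congr rfl fun n _ => ?_
  rw [Complex.re_sum, Finset.mul_sum]
  refine Finset.sum_congr rfl fun m _ => ?_
  rw [Complex.re_ofReal_mul, Complex.re_ofReal_mul, Complex.re_mul_ofReal]
  unfold ZSA7_f
  ring

/-- splitting of a symmetric double sum -/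
private theorem ZSA7_split (S : Finset ℕ) (f : ℕ → ℕ → ℝ) (hf : ∀ n m, f n m = f m n) :
    ∑ n ∈ S, ∑ m ∈ S, f n m =
      ∑ n ∈ S, f n n + 2 * ∑ n ∈ S, ∑ m ∈ S with n < m, f m n := by
  have h1 : ∀ n ∈ S, ∑ m ∈ S, f n m =
      f n n + (∑ m ∈ S, (if n < m then f m n else 0)) + ∑ m ∈ S, (if m < n then f n m else 0) := by
    intro n hn
    have h2 : ∀ m ∈ S, f n m = (if m = n then f n n else 0) + (if n < m then f m n else 0) +
        (if m < n then f n m else 0) := by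
      intro m _
      rcases lt_trichotomy n m with h | h | h
      · rw [if_neg h.ne', if_pos h, if_neg (not_lt.2 h.le), hf n m]
        ring
      · subst h
        simp
      · rw [if_neg h.ne, if_neg (not_lt.2 h.le), if_pos h]
        ring
    rw [Finset.sum_congr rfl h2, Finset.sum_add_distrib, Finset.sum_add_distrib,
      Finset.sum_ite_eq' S n, if_pos hn]
  rw [Finset.sum_congr rfl h1, Finset.sum_add_distrib, Finset.sum_add_distrib]
  have h3 : ∑ n ∈ S, ∑ m ∈ S, (if m < n then f n m else 0) =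
      ∑ n ∈ S, ∑ m ∈ S, (if n < m then f m n else 0) := Finset.sum_comm
  rw [h3]
  simp only [Finset.sum_filter]
  ring

theorem ZSA_mean (ω w W : ℝ → ℝ) (hω : Bump ω) (hW : Wt w W) : ∃ C : ℝ, 1 ≤ C ∧ ∀ G X t : ℝ, 1 ≤ G → 1 ≤ X →
    ZMn ω w G X t ≤ C * G + 2 * G * (X⁻¹ * ‖∑ h ∈ Finset.Icc 1 ⌊2 * X⌋₊, ZF ω W G X t h‖) := by
  -- the bump is bounded
  obtain ⟨B, hB⟩ : ∃ B : ℝ, ∀ x, |ω x| ≤ B := by
    have hc : HasCompactSupport ω := by
      refine HasCompactSupport.intro (isCompact_Icc (a := (1 / 2 : ℝ)) (b := 2)) fun x hx => ?_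
      by_contra h
      exact hx (Set.mem_Icc.2 (hω.supp x h))
    obtain ⟨B, hB⟩ := hc.exists_bound_of_continuous hω.smooth.continuous
    exact ⟨B, fun x => hB x⟩
  have hB0 : 0 ≤ B := (abs_nonneg _).trans (hB 0)
  refine ⟨1 + |W 0| * (4 * B ^ 2), by have := abs_nonneg (W 0); nlinarith [sq_nonneg B], ?_⟩
  intro G X t hG hX
  have hX0 : 0 < X := by linarith
  have hG0 : 0 < G := by linarith
  rw [ZSA7_eq hW hG X t, ZSA7_split _ _ (ZSA7_symm hW G X t), mul_add]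
  set S := Icc 1 ⌊2 * X⌋₊ with hS
  -- the diagonal
  have hdiag : ∑ n ∈ S, ZSA7_f ω W G X t n n ≤ |W 0| * (4 * B ^ 2) := by
    have h1 : ∀ n ∈ S, ZSA7_f ω W G X t n n ≤ |W 0| * (B ^ 2 * (2 / X)) := by
      intro n hn
      have hn1 : 1 ≤ n := (Finset.mem_Icc.1 hn).1
      have hn0 : (0 : ℝ) < n := by exact_mod_cast hn1
      have h2 : ZSA7_f ω W G X t n n = W 0 * (ω (n / X) ^ 2 / n) := by
        unfold ZSA7_f ZSA7_a
        rw [sub_self, mul_zero, mul_zero]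
        have h3 : (ee 0).re = 1 := by
          unfold ee
          simp
        rw [h3]
        have h4 : 1 / √(n : ℝ) * (1 / √(n : ℝ)) = 1 / n := by
          rw [div_mul_div_comm, one_mul, Real.mul_self_sqrt hn0.le]
        calc ω (n / X) * ω (n / X) * (1 / √(n : ℝ)) * (1 / √(n : ℝ)) * W 0 * 1 =
              ω (n / X) * ω (n / X) * (1 / √(n : ℝ) * (1 / √(n : ℝ))) * W 0 := by ring
          _ = W 0 * (ω (n / X) ^ 2 / n) := by rw [h4]; ring
      rw [h2]
      have h6 : 0 ≤ ω (n / X) ^ 2 / n := by positivity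
      have h7 : ω (n / X) ^ 2 / n ≤ B ^ 2 * (2 / X) := by
        by_cases h0 : ω (n / X) = 0
        · rw [h0]
          have : 0 ≤ B ^ 2 * (2 / X) := by positivity
          simpa using this
        · have h8 := (hω.supp _ h0).1
          rw [le_div_iff₀ hX0] at h8
          have h9 : ω (n / X) ^ 2 ≤ B ^ 2 := by
            rw [← sq_abs (ω (n / X))]
            exact pow_le_pow_left₀ (abs_nonneg _) (hB _) 2
          have h10 : (1 : ℝ) / n ≤ 2 / X := by
            rw [div_le_div_iff₀ hn0 hX0]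
            linarith
          calc ω (n / X) ^ 2 / n = ω (n / X) ^ 2 * (1 / n) := by ring
            _ ≤ B ^ 2 * (2 / X) := mul_le_mul h9 h10 (by positivity) (by positivity)
      calc W 0 * (ω (n / X) ^ 2 / n) ≤ |W 0| * (ω (n / X) ^ 2 / n) :=
            mul_le_mul_of_nonneg_right (le_abs_self _) h6
        _ ≤ |W 0| * (B ^ 2 * (2 / X)) := mul_le_mul_of_nonneg_left h7 (abs_nonneg _)
    refine (Finset.sum_le_sum h1).trans ?_
    rw [Finset.sum_const, nsmul_eq_mul, hS, Nat.card_Icc, Nat.add_sub_cancel]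
    have h11 : ((⌊2 * X⌋₊ : ℕ) : ℝ) ≤ 2 * X := Nat.floor_le (by linarith)
    have h12 : 0 ≤ |W 0| * (B ^ 2 * (2 / X)) := by positivity
    calc ((⌊2 * X⌋₊ : ℕ) : ℝ) * (|W 0| * (B ^ 2 * (2 / X))) ≤ 2 * X * (|W 0| * (B ^ 2 * (2 / X))) :=
          mul_le_mul_of_nonneg_right h11 h12
      _ = |W 0| * (4 * B ^ 2) := by
          field_simp
          ring
  -- the other terms
  have hterm : ∀ n ∈ S, ∀ h ∈ S, ZSA7_f ω W G X t (n + h) n =
      X⁻¹ * ((bfun ω W G (h / X) (n / X) : ℂ) *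
        ee (-(t / (2 * Real.pi)) * Real.log (1 + (h : ℝ) / n))).re := by
    intro n hn h hh
    have hn1 : 1 ≤ n := (Finset.mem_Icc.1 hn).1
    have hn0 : (0 : ℝ) < n := by exact_mod_cast hn1
    have hh0 : (0 : ℝ) < h := by
      have : 1 ≤ h := (Finset.mem_Icc.1 hh).1
      exact_mod_cast this
    have hl : Real.log ((n + h : ℕ) : ℝ) - Real.log n = Real.log (1 + (h : ℝ) / n) := by
      rw [← Real.log_div (by positivity) hn0.ne']
      congr 1
      push_cast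
      field_simp
    unfold ZSA7_f ZSA7_a bfun
    rw [hl, Complex.re_ofReal_mul]
    have e1 : (h : ℝ) / X / (n / X) = h / n := by field_simp
    have e2 : (n : ℝ) / X + h / X = ((n + h : ℕ) : ℝ) / X := by push_cast; ring
    rw [e1, e2]
    have e3 : √((n : ℝ) / X * (((n + h : ℕ) : ℝ) / X)) = √(n : ℝ) * √((n + h : ℕ) : ℝ) / X := by
      have : (n : ℝ) / X * (((n + h : ℕ) : ℝ) / X) = (n * ((n + h : ℕ) : ℝ)) / X ^ 2 := by
        field_simp
      rw [this, Real.sqrt_div' _ (sq_nonneg X), Real.sqrt_sq hX0.le, Real.sqrt_mul hn0.le]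
    rw [e3]
    have e4 : √(n : ℝ) ≠ 0 := (Real.sqrt_pos.2 hn0).ne'
    have e5 : √((n + h : ℕ) : ℝ) ≠ 0 := by
      refine (Real.sqrt_pos.2 ?_).ne'
      push_cast
      positivity
    field_simp
  have hoff : ∑ n ∈ S, ∑ m ∈ S with n < m, ZSA7_f ω W G X t m n =
      X⁻¹ * (∑ h ∈ S, ZF ω W G X t h).re := by
    have h1 : ∀ n ∈ S, ∑ m ∈ S with n < m, ZSA7_f ω W G X t m n =
        ∑ h ∈ S, ZSA7_f ω W G X t (n + h) n := by
      intro n hn
      have h2 : ∑ h ∈ S, ZSA7_f ω W G X t (n + h) n =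
          ∑ h ∈ S with n + h ≤ ⌊2 * X⌋₊, ZSA7_f ω W G X t (n + h) n := by
        rw [Finset.sum_filter_of_ne]
        intro h _ hne
        by_contra hlt
        apply hne
        have h3 : 2 * X < ((n + h : ℕ) : ℝ) := (Nat.floor_lt (by linarith)).1 (not_le.1 hlt)
        have h4 : ω (((n + h : ℕ) : ℝ) / X) = 0 := by
          by_contra h5
          have h6 := (hω.supp _ h5).2
          rw [div_le_iff₀ hX0] at h6
          linarith
        unfold ZSA7_f ZSA7_a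
        rw [h4]
        ring
      rw [h2]
      refine Finset.sum_bij' (fun m _ => m - n) (fun h _ => n + h) ?_ ?_ ?_ ?_ ?_
      · intro m hm
        rw [Finset.mem_filter, hS, Finset.mem_Icc] at hm
        rw [Finset.mem_filter, hS, Finset.mem_Icc]
        omega
      · intro h hh
        rw [Finset.mem_filter, hS, Finset.mem_Icc] at hh
        rw [Finset.mem_filter, hS, Finset.mem_Icc]
        omega
      · intro m hm
        rw [Finset.mem_filter] at hm
        show n + (m - n) = m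
        omega
      · intro h hh
        show n + h - n = h
        omega
      · intro m hm
        rw [Finset.mem_filter] at hm
        have : n + (m - n) = m := by omega
        rw [this]
    rw [Finset.sum_congr rfl h1, Finset.sum_comm, Complex.re_sum, Finset.mul_sum]
    refine Finset.sum_congr rfl fun h hh => ?_
    unfold ZF
    rw [Complex.re_sum, Finset.mul_sum]
    exact Finset.sum_congr rfl fun n hn => hterm n hn h hh
  rw [hoff]
  have h1 : (∑ h ∈ S, ZF ω W G X t h).re ≤ ‖∑ h ∈ S, ZF ω W G X t h‖ :=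
    (le_abs_self _).trans (Complex.abs_re_le_norm _)
  have h2 : G * ∑ n ∈ S, ZSA7_f ω W G X t n n ≤ (1 + |W 0| * (4 * B ^ 2)) * G := by
    nlinarith
  have h3 : X⁻¹ * (∑ h ∈ S, ZF ω W G X t h).re ≤ X⁻¹ * ‖∑ h ∈ S, ZF ω W G X t h‖ :=
    mul_le_mul_of_nonneg_left h1 (inv_nonneg.2 hX0.le)
  nlinarith

end Pool.Agent.LibSX15
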