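import Pool.Agent.LibSX15.ZSA3
import Pool.Agent.LibSX15.ZSA5
import Pool.Agent.LibSX15.ZSA6
import Pool.Agent.LibSX15.ZSA7

/-!
LibSX15, row ZSA8 (helper57): counting large values by local means.
-/

set_option autoImplicit false

namespace Pool.Agent.LibSX15

open Finset MeasureTheory

private theorem ZSA8_sum (Φ : ℝ → ℝ) (hΦc : Continuous Φ) (hΦ0 : ∀ y, 0 ≤ Φ y) (B : ℝ) (hB : ∀ y, Φ y ≤ B)
    (w W : ℝ → ℝ) (hW : Wt w W) (G t : ℝ) (hG : 1 ≤ G) :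
    ∑ r ∈ Finset.Icc ⌈t - G / 2⌉ ⌊t + G / 2⌋, ∫ y in ((r : ℝ) - 1 / 2)..((r : ℝ) + 1 / 2), Φ y ≤
      ∫ v, Φ (t + v) * w (v / G) := by
  have hG0 : 0 < G := by linarith
  have hB0 : 0 ≤ B := (hΦ0 0).trans (hB 0)
  have hint : Integrable (fun v => Φ (t + v) * w (v / G)) := by
    have h1 : Integrable (fun v : ℝ => w (v / G)) := hW.int.comp_div hG0.ne'
    refine (h1.const_mul B).mono' ?_ ?_
    · exact ((hΦc.comp (continuous_const.add continuous_id)).mul (hW.cont.comp (continuous_id.div_const G))).aestronglyMeasurable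
    · refine Filter.Eventually.of_forall fun v => ?_
      rw [Real.norm_eq_abs, abs_of_nonneg (mul_nonneg (hΦ0 _) (hW.nonneg _))]
      exact mul_le_mul_of_nonneg_right (hB _) (hW.nonneg _)
  have hint2 : Integrable (fun y => Φ y * w ((y - t) / G)) := by
    have := hint.comp_sub_right t
    refine this.congr (Filter.Eventually.of_forall fun y => ?_)
    simp only
    rw [show t + (y - t) = y by ring]
  have heq : ∫ v, Φ (t + v) * w (v / G) = ∫ y, Φ y * w ((y - t) / G) := by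
    have := integral_sub_right_eq_self (μ := volume) (fun v => Φ (t + v) * w (v / G)) t
    rw [← this]
    refine integral_congr_ae (Filter.Eventually.of_forall fun y => ?_)
    simp only
    rw [show t + (y - t) = y by ring]
  rw [heq]
  set I : Finset ℤ := Finset.Icc ⌈t - G / 2⌉ ⌊t + G / 2⌋ with hI
  have h2 : ∑ r ∈ I, ∫ y in ((r : ℝ) - 1 / 2)..((r : ℝ) + 1 / 2), Φ y =
      ∫ y in ⋃ r ∈ I, Set.Ioc ((r : ℝ) - 1 / 2) ((r : ℝ) + 1 / 2), Φ y := by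
    rw [integral_biUnion_finset]
    · refine Finset.sum_congr rfl fun r _ => ?_
      rw [intervalIntegral.integral_of_le (by linarith)]
    · intro r _
      exact measurableSet_Ioc
    · intro a _ b _ hab
      rw [Function.onFun, Set.disjoint_left]
      intro x hx1 hx2
      apply hab
      have h1 : ((a : ℝ) - b) < 1 := by linarith [hx1.1, hx2.2]
      have h2 : ((b : ℝ) - a) < 1 := by linarith [hx2.1, hx1.2]
      have h3 : a - b < 1 := by exact_mod_cast h1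
      have h4 : b - a < 1 := by exact_mod_cast h2
      omega
    · intro r _
      exact (hΦc.integrableOn_Icc).mono_set Set.Ioc_subset_Icc_self
  rw [h2]
  have hms : MeasurableSet (⋃ r ∈ I, Set.Ioc ((r : ℝ) - 1 / 2) ((r : ℝ) + 1 / 2)) :=
    Finset.measurableSet_biUnion I fun r _ => measurableSet_Ioc
  have hfi : IntegrableOn Φ (⋃ r ∈ I, Set.Ioc ((r : ℝ) - 1 / 2) ((r : ℝ) + 1 / 2)) := by
    rw [integrableOn_finset_iUnion]
    intro r _
    exact (hΦc.integrableOn_Icc).mono_set Set.Ioc_subset_Icc_self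
  calc ∫ y in ⋃ r ∈ I, Set.Ioc ((r : ℝ) - 1 / 2) ((r : ℝ) + 1 / 2), Φ y
      ≤ ∫ y in ⋃ r ∈ I, Set.Ioc ((r : ℝ) - 1 / 2) ((r : ℝ) + 1 / 2), Φ y * w ((y - t) / G) := by
        refine setIntegral_mono_on hfi hint2.integrableOn hms ?_
        intro y hy
        simp only [Set.mem_iUnion] at hy
        obtain ⟨r, hr, hy1, hy2⟩ := hy
        rw [hI, Finset.mem_Icc] at hr
        have h3 : t - G / 2 ≤ r := by
          have := Int.ceil_le.mp hr.1
          exact this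
        have h4 : (r : ℝ) ≤ t + G / 2 := Int.le_floor.mp hr.2
        have h5 : |(y - t) / G| ≤ 1 := by
          rw [abs_div, abs_of_pos hG0, div_le_one hG0, abs_le]
          constructor <;> linarith
        have h6 := hW.one _ h5
        nlinarith [hΦ0 y]
    _ ≤ ∫ y, Φ y * w ((y - t) / G) := by
        refine setIntegral_le_integral hint2 (Filter.Eventually.of_forall fun y => ?_)
        exact mul_nonneg (hΦ0 y) (hW.nonneg _)

private theorem ZSA8_bd (ω : ℝ → ℝ) (X : ℝ) : ∃ B : ℝ, ∀ t : ℝ, ‖ZD ω X t‖ ^ 2 ≤ B := by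
  refine ⟨(∑ n ∈ Finset.Icc 1 ⌊2 * X⌋₊, |ω (n / X)|) ^ 2, fun t => ?_⟩
  refine pow_le_pow_left₀ (norm_nonneg _) ?_ 2
  unfold ZD
  refine (norm_sum_le _ _).trans (Finset.sum_le_sum fun n hn => ?_)
  rw [Finset.mem_Icc] at hn
  have hn1 : (1 : ℝ) ≤ n := by exact_mod_cast hn.1
  rw [norm_mul, Complex.norm_real, Real.norm_eq_abs, Complex.norm_natCast_cpow_of_pos (by omega)]
  have h1 : (-(1 / 2 : ℂ) - (t : ℂ) * Complex.I).re = -(1 / 2) := by simp
  rw [h1]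
  have h2 : (n : ℝ) ^ (-(1 / 2) : ℝ) ≤ 1 := Real.rpow_le_one_of_one_le_of_nonpos hn1 (by norm_num)
  calc |ω (n / X)| * (n : ℝ) ^ (-(1 / 2) : ℝ) ≤ |ω (n / X)| * 1 := mul_le_mul_of_nonneg_left h2 (abs_nonneg _)
    _ = |ω (n / X)| := mul_one _

private theorem ZSA8_nonneg (ω w W : ℝ → ℝ) (hW : Wt w W) (G X t : ℝ) : 0 ≤ ZMn ω w G X t :=
  integral_nonneg fun _ => mul_nonneg (sq_nonneg _) (hW.nonneg _)

/-- the sum over the integers of an interval, for one `X` -/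
private theorem ZSA8_sumX (w W : ℝ → ℝ) (hW : Wt w W) (G X t : ℝ) (hG : 1 ≤ G) :
    ∑ r ∈ Finset.Icc ⌈t - G / 2⌉ ⌊t + G / 2⌋, ∫ y in ((r : ℝ) - 1 / 2)..((r : ℝ) + 1 / 2),
      (‖ZD omg X y‖ ^ 2 + ‖ZD omgl X y‖ ^ 2) ≤ ZMn omg w G X t + ZMn omgl w G X t := by
  obtain ⟨B1, h1⟩ := ZSA8_bd omg X
  obtain ⟨B2, h2⟩ := ZSA8_bd omgl X
  have hc1 : Continuous fun y => ‖ZD omg X y‖ ^ 2 := (ZD_cont omg X).norm.pow 2
  have hc2 : Continuous fun y => ‖ZD omgl X y‖ ^ 2 := (ZD_cont omgl X).norm.pow 2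
  have e1 := ZSA8_sum (fun y => ‖ZD omg X y‖ ^ 2) hc1 (fun _ => sq_nonneg _) B1 h1 w W hW G t hG
  have e2 := ZSA8_sum (fun y => ‖ZD omgl X y‖ ^ 2) hc2 (fun _ => sq_nonneg _) B2 h2 w W hW G t hG
  have e3 : ∑ r ∈ Finset.Icc ⌈t - G / 2⌉ ⌊t + G / 2⌋, ∫ y in ((r : ℝ) - 1 / 2)..((r : ℝ) + 1 / 2),
      (‖ZD omg X y‖ ^ 2 + ‖ZD omgl X y‖ ^ 2) =
      ∑ r ∈ Finset.Icc ⌈t - G / 2⌉ ⌊t + G / 2⌋, (∫ y in ((r : ℝ) - 1 / 2)..((r : ℝ) + 1 / 2), ‖ZD omg X y‖ ^ 2) +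
      ∑ r ∈ Finset.Icc ⌈t - G / 2⌉ ⌊t + G / 2⌋, ∫ y in ((r : ℝ) - 1 / 2)..((r : ℝ) + 1 / 2), ‖ZD omgl X y‖ ^ 2 := by
    rw [← Finset.sum_add_distrib]
    refine Finset.sum_congr rfl fun r _ => ?_
    exact intervalIntegral.integral_add (hc1.intervalIntegrable _ _) (hc2.intervalIntegrable _ _)
  rw [e3]
  exact add_le_add e1 e2

/-- the pointwise bound -/
private theorem ZSA8_zeta : ∃ C : ℝ, 1 ≤ C ∧ ∀ T : ℝ, 3 ≤ T → ∀ u : ℝ, T / 2 ≤ u → u ≤ 3 * T →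
    ‖riemannZeta (1 / 2 + (u : ℂ) * Complex.I)‖ ≤
      ∑ j ∈ range (Nat.log 2 ⌊2 * T⌋₊ + 1), ‖ZD omg (2 ^ j) u‖ + C := by
  obtain ⟨C0, hC0, h0⟩ := ZSA_zeta
  obtain ⟨C1, hC1, h1⟩ := ZSA_tail
  refine ⟨C0 + 10 * C1, by linarith, fun T hT u hu1 hu2 => ?_⟩
  obtain ⟨J', hJ1, hJ2⟩ := exists_nat_pow_near (show (1 : ℝ) ≤ T ^ 2 by nlinarith) (show (1 : ℝ) < 2 by norm_num)
  have h2 := h0 T hT (J' + 1) hJ2.le (by rw [pow_succ]; linarith) u hu1 hu2
  refine h2.trans ?_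
  have hT0 : 0 < T := by linarith
  set L := Nat.log 2 ⌊2 * T⌋₊ + 1 with hL
  have h3 : ∑ j ∈ range (J' + 1 + 1), ‖ZD omg (2 ^ j) u‖ ≤
      ∑ j ∈ range L, ‖ZD omg (2 ^ j) u‖ + ∑ j ∈ range (J' + 2), C1 * Real.sqrt (2 ^ j) / T := by
    rw [← Finset.sum_filter_add_sum_filter_not (range (J' + 1 + 1)) (fun j => j ∈ range L)]
    refine add_le_add ?_ ?_
    · refine Finset.sum_le_sum_of_subset_of_nonneg ?_ (fun _ _ _ => norm_nonneg _)
      intro j hj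
      exact (Finset.mem_filter.mp hj).2
    · calc ∑ j ∈ (range (J' + 1 + 1)).filter (fun j => ¬ j ∈ range L), ‖ZD omg (2 ^ j) u‖
          ≤ ∑ j ∈ (range (J' + 1 + 1)).filter (fun j => ¬ j ∈ range L), C1 * Real.sqrt (2 ^ j) / T := by
            refine Finset.sum_le_sum fun j hj => ?_
            have hj2 := (Finset.mem_filter.mp hj).2
            rw [Finset.mem_range, not_lt, hL] at hj2
            refine h1 T hT (2 ^ j) ?_ u hu1 hu2
            have h4 : ⌊2 * T⌋₊ < 2 ^ j := by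
              have := Nat.lt_pow_succ_log_self (b := 2) (by norm_num) ⌊2 * T⌋₊
              exact lt_of_lt_of_le this (Nat.pow_le_pow_right (by norm_num) hj2)
            have h5 := Nat.lt_of_floor_lt h4
            push_cast at h5
            exact h5.le
        _ ≤ _ := by
            refine Finset.sum_le_sum_of_subset_of_nonneg (Finset.filter_subset _ _) ?_
            intro j _ _
            positivity
  have h4 : ∑ j ∈ range (J' + 2), C1 * Real.sqrt (2 ^ j) / T ≤ 10 * C1 := by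
    have h5 : ∀ j : ℕ, Real.sqrt (2 ^ j) = (Real.sqrt 2) ^ j := fun j => by
      rw [Real.sqrt_eq_iff_mul_self_eq (by positivity) (by positivity), ← mul_pow, Real.mul_self_sqrt (by norm_num)]
    have h6 : ∑ j ∈ range (J' + 2), C1 * Real.sqrt (2 ^ j) / T = C1 / T * ∑ j ∈ range (J' + 2), (Real.sqrt 2) ^ j := by
      rw [Finset.mul_sum]
      refine Finset.sum_congr rfl fun j _ => ?_
      rw [h5]; ring
    rw [h6]
    have hs1 : (1.4 : ℝ) ≤ Real.sqrt 2 := Real.le_sqrt_of_sq_le (by norm_num)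
    have hs2 : Real.sqrt 2 ≤ 1.5 := by
      rw [Real.sqrt_le_left (by norm_num)]; norm_num
    have h7 : ∑ j ∈ range (J' + 2), (Real.sqrt 2) ^ j ≤ 2.5 * (Real.sqrt 2) ^ (J' + 2) := by
      rw [geom_sum_eq (by linarith)]
      rw [div_le_iff₀ (by linarith)]
      have : 0 < (Real.sqrt 2) ^ (J' + 2) := by positivity
      nlinarith
    have h8 : (Real.sqrt 2) ^ (J' + 2) ≤ 2 * T := by
      rw [pow_add, ← h5, Real.sq_sqrt (by norm_num)]
      have : Real.sqrt (2 ^ J') ≤ T := by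
        rw [Real.sqrt_le_left hT0.le]
        exact hJ1
      linarith
    calc C1 / T * ∑ j ∈ range (J' + 2), (Real.sqrt 2) ^ j ≤ C1 / T * (2.5 * (2 * T)) := by
          refine mul_le_mul_of_nonneg_left (h7.trans ?_) (by positivity)
          linarith
      _ = 5 * C1 := by field_simp; ring
      _ ≤ 10 * C1 := by linarith
  linarith

open scoped Classical in
theorem ZSA_count (w W : ℝ → ℝ) (hW : Wt w W) : ∃ C T0 : ℝ, 1 ≤ C ∧ 3 ≤ T0 ∧ ∀ T : ℝ, T0 ≤ T →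
    ∀ G : ℝ, 1 ≤ G → G ≤ T / 4 → ∀ V : ℝ, 1 ≤ V → ∀ t ∈ Set.Icc T (2 * T),
    V ^ 2 * (((Finset.Icc ⌈t - G / 2⌉ ⌊t + G / 2⌋).filter fun r : ℤ =>
          ∃ v ∈ Set.Icc (-1 / 2 : ℝ) (1 / 2),
            V ≤ ‖riemannZeta (1 / 2 + ((r + v : ℝ) : ℂ) * Complex.I)‖).card : ℝ) ≤
      C * (Real.log T) ^ 2 * (G + ∑ j ∈ range (Nat.log 2 ⌊2 * T⌋₊ + 1),
        (ZMn omg w G (2 ^ j) t + ZMn omgl w G (2 ^ j) t)) := by
  obtain ⟨C2, hC2, h2⟩ := ZSA8_zeta
  refine ⟨8 * C2 ^ 2 + 1000, 4, by nlinarith, by norm_num, fun T hT G hG1 hG2 V hV t ht => ?_⟩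
  obtain ⟨ht1, ht2⟩ := ht
  have hT0 : 0 < T := by linarith
  have hlog1 : 1 ≤ Real.log T := by
    rw [Real.le_log_iff_exp_le hT0]
    have := Real.exp_one_lt_d9
    linarith
  set I : Finset ℤ := Finset.Icc ⌈t - G / 2⌉ ⌊t + G / 2⌋ with hI
  set S : Finset ℤ := I.filter fun r : ℤ => ∃ v ∈ Set.Icc (-1 / 2 : ℝ) (1 / 2),
            V ≤ ‖riemannZeta (1 / 2 + ((r + v : ℝ) : ℂ) * Complex.I)‖ with hS
  set L := Nat.log 2 ⌊2 * T⌋₊ + 1 with hL
  set Sg : ℝ := ∑ j ∈ range L, (ZMn omg w G (2 ^ j) t + ZMn omgl w G (2 ^ j) t) with hSg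
  have hSg0 : 0 ≤ Sg := Finset.sum_nonneg fun j _ =>
    add_nonneg (ZSA8_nonneg omg w W hW _ _ _) (ZSA8_nonneg omgl w W hW _ _ _)
  -- the trivial bound of the cardinality
  have hcard : (S.card : ℝ) ≤ 2 * G := by
    have h3 : (S.card : ℝ) ≤ (I.card : ℝ) := by exact_mod_cast Finset.card_filter_le _ _
    have h4 : (I.card : ℝ) ≤ G + 1 := by
      rw [hI, Int.card_Icc]
      have h5 : (((⌊t + G / 2⌋ + 1 - ⌈t - G / 2⌉).toNat : ℤ) : ℝ) ≤ G + 1 := by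
        rw [Int.toNat_eq_max, Int.cast_max]
        refine max_le ?_ (by simp; linarith)
        push_cast
        have h6 := Int.floor_le (t + G / 2)
        have h7 := Int.le_ceil (t - G / 2)
        linarith
      exact_mod_cast h5
    linarith
  by_cases hV2 : V ≤ 2 * C2
  · calc V ^ 2 * (S.card : ℝ) ≤ (2 * C2) ^ 2 * (2 * G) := by
          refine mul_le_mul (pow_le_pow_left₀ (by linarith) hV2 2) hcard (by positivity) (by positivity)
      _ = 8 * C2 ^ 2 * 1 * G := by ring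
      _ ≤ (8 * C2 ^ 2 + 1000) * (Real.log T) ^ 2 * (G + Sg) := by
          have h5 : 1 ≤ (Real.log T) ^ 2 := by nlinarith
          refine mul_le_mul (mul_le_mul (by linarith) h5 (by norm_num) (by positivity)) (by linarith) (by linarith)
            (by positivity)
  · push Not at hV2
    -- logs
    have hLlog : (L : ℝ) ≤ 4 * Real.log T := by
      have h3 : ((Nat.log 2 ⌊2 * T⌋₊ : ℕ) : ℝ) * Real.log 2 ≤ Real.log (2 * T) := by
        have h4 : ((2 : ℝ) ^ (Nat.log 2 ⌊2 * T⌋₊)) ≤ 2 * T := by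
          have h5 : 2 ^ (Nat.log 2 ⌊2 * T⌋₊) ≤ ⌊2 * T⌋₊ := by
            refine Nat.pow_log_le_self 2 ?_
            have : 1 ≤ ⌊2 * T⌋₊ := Nat.le_floor (by push_cast; linarith)
            omega
          have h6 : ((2 : ℝ) ^ (Nat.log 2 ⌊2 * T⌋₊)) ≤ (⌊2 * T⌋₊ : ℝ) := by exact_mod_cast h5
          exact h6.trans (Nat.floor_le (by linarith))
        have h5 := Real.log_le_log (by positivity) h4
        rwa [Real.log_pow] at h5
      have h6 : Real.log (2 * T) ≤ 2 * Real.log T := by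
        rw [Real.log_mul (by norm_num) hT0.ne']
        have := Real.log_le_log (by norm_num : (0:ℝ) < 2) (by linarith : (2 : ℝ) ≤ T)
        linarith
      have h7 : (0.69 : ℝ) < Real.log 2 := by linarith [Real.log_two_gt_d9]
      rw [hL]
      push_cast
      have h8 : (0 : ℝ) ≤ (Nat.log 2 ⌊2 * T⌋₊ : ℕ) := by positivity
      nlinarith
    have hlogj : ∀ j ∈ range L, 2 * Real.log (2 ^ j) + 2 ≤ 6 * Real.log T := by
      intro j hj
      rw [Finset.mem_range, hL] at hj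
      have h4 : ((2 : ℝ) ^ j) ≤ 2 * T := by
        have h5 : 2 ^ j ≤ ⌊2 * T⌋₊ := by
          refine (Nat.pow_le_pow_right (by norm_num) (Nat.lt_succ_iff.mp hj)).trans (Nat.pow_log_le_self 2 ?_)
          have : 1 ≤ ⌊2 * T⌋₊ := Nat.le_floor (by push_cast; linarith)
          omega
        have h6 : ((2 : ℝ) ^ j) ≤ (⌊2 * T⌋₊ : ℝ) := by exact_mod_cast h5
        exact h6.trans (Nat.floor_le (by linarith))
      have h5 := Real.log_le_log (by positivity) h4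
      have h6 : Real.log (2 * T) ≤ 2 * Real.log T := by
        rw [Real.log_mul (by norm_num) hT0.ne']
        have := Real.log_le_log (by norm_num : (0:ℝ) < 2) (by linarith : (2 : ℝ) ≤ T)
        linarith
      linarith
    have hpt : ∀ r ∈ S, V ^ 2 ≤ 96 * (Real.log T) ^ 2 * ∑ j ∈ range L,
        ∫ y in ((r : ℝ) - 1 / 2)..((r : ℝ) + 1 / 2), (‖ZD omg (2 ^ j) y‖ ^ 2 + ‖ZD omgl (2 ^ j) y‖ ^ 2) := by
      intro r hr
      rw [hS, Finset.mem_filter] at hr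
      obtain ⟨hr1, v, ⟨hv1, hv2⟩, hv3⟩ := hr
      rw [hI, Finset.mem_Icc] at hr1
      have h3 : t - G / 2 ≤ r := Int.ceil_le.mp hr1.1
      have h4 : (r : ℝ) ≤ t + G / 2 := Int.le_floor.mp hr1.2
      have h5 := h2 T (by linarith) ((r : ℝ) + v) (by linarith) (by linarith)
      have h6 : V / 2 ≤ ∑ j ∈ range L, ‖ZD omg (2 ^ j) ((r : ℝ) + v)‖ := by
        have h7 : V ≤ ∑ j ∈ range L, ‖ZD omg (2 ^ j) ((r : ℝ) + v)‖ + C2 := hv3.trans h5
        linarith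
      have h7 : (V / 2) ^ 2 ≤ (L : ℝ) * ∑ j ∈ range L, ‖ZD omg (2 ^ j) ((r : ℝ) + v)‖ ^ 2 := by
        calc (V / 2) ^ 2 ≤ (∑ j ∈ range L, ‖ZD omg (2 ^ j) ((r : ℝ) + v)‖) ^ 2 :=
              pow_le_pow_left₀ (by linarith) h6 2
          _ ≤ ((range L).card : ℝ) * ∑ j ∈ range L, ‖ZD omg (2 ^ j) ((r : ℝ) + v)‖ ^ 2 := sq_sum_le_card_mul_sum_sq
          _ = _ := by rw [Finset.card_range]
      have h8 : ∀ j ∈ range L, ‖ZD omg (2 ^ j) ((r : ℝ) + v)‖ ^ 2 ≤ 6 * Real.log T *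
          ∫ y in ((r : ℝ) - 1 / 2)..((r : ℝ) + 1 / 2), (‖ZD omg (2 ^ j) y‖ ^ 2 + ‖ZD omgl (2 ^ j) y‖ ^ 2) := by
        intro j hj
        refine (ZSA_sup (2 ^ j) (one_le_pow₀ (by norm_num)) r v (abs_le.mpr ⟨by linarith, by linarith⟩)).trans ?_
        refine mul_le_mul_of_nonneg_right (hlogj j hj) ?_
        refine intervalIntegral.integral_nonneg (by linarith) fun y _ => by positivity
      have h9 : ∑ j ∈ range L, ‖ZD omg (2 ^ j) ((r : ℝ) + v)‖ ^ 2 ≤ 6 * Real.log T * ∑ j ∈ range L,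
          ∫ y in ((r : ℝ) - 1 / 2)..((r : ℝ) + 1 / 2), (‖ZD omg (2 ^ j) y‖ ^ 2 + ‖ZD omgl (2 ^ j) y‖ ^ 2) := by
        rw [Finset.mul_sum]
        exact Finset.sum_le_sum h8
      have h10 : 0 ≤ ∑ j ∈ range L,
          ∫ y in ((r : ℝ) - 1 / 2)..((r : ℝ) + 1 / 2), (‖ZD omg (2 ^ j) y‖ ^ 2 + ‖ZD omgl (2 ^ j) y‖ ^ 2) :=
        Finset.sum_nonneg fun j _ => intervalIntegral.integral_nonneg (by linarith) fun y _ => by positivity
      set Q : ℝ := ∑ j ∈ range L,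
          ∫ y in ((r : ℝ) - 1 / 2)..((r : ℝ) + 1 / 2), (‖ZD omg (2 ^ j) y‖ ^ 2 + ‖ZD omgl (2 ^ j) y‖ ^ 2) with hQ
      calc V ^ 2 = 4 * (V / 2) ^ 2 := by ring
        _ ≤ 4 * ((4 * Real.log T) * (6 * Real.log T * Q)) := by
            refine mul_le_mul_of_nonneg_left (h7.trans ?_) (by norm_num)
            exact mul_le_mul hLlog h9 (Finset.sum_nonneg fun _ _ => by positivity) (by positivity)
        _ = 96 * (Real.log T) ^ 2 * Q := by ring
    calc V ^ 2 * (S.card : ℝ) = ∑ r ∈ S, V ^ 2 := by rw [Finset.sum_const, nsmul_eq_mul]; ring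
      _ ≤ ∑ r ∈ S, 96 * (Real.log T) ^ 2 * ∑ j ∈ range L,
          ∫ y in ((r : ℝ) - 1 / 2)..((r : ℝ) + 1 / 2), (‖ZD omg (2 ^ j) y‖ ^ 2 + ‖ZD omgl (2 ^ j) y‖ ^ 2) :=
          Finset.sum_le_sum hpt
      _ ≤ ∑ r ∈ I, 96 * (Real.log T) ^ 2 * ∑ j ∈ range L,
          ∫ y in ((r : ℝ) - 1 / 2)..((r : ℝ) + 1 / 2), (‖ZD omg (2 ^ j) y‖ ^ 2 + ‖ZD omgl (2 ^ j) y‖ ^ 2) := by
          refine Finset.sum_le_sum_of_subset_of_nonneg (Finset.filter_subset _ _) fun r _ _ => ?_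
          refine mul_nonneg (by positivity) (Finset.sum_nonneg fun j _ => ?_)
          exact intervalIntegral.integral_nonneg (by linarith) fun y _ => by positivity
      _ = 96 * (Real.log T) ^ 2 * ∑ j ∈ range L, ∑ r ∈ I,
          ∫ y in ((r : ℝ) - 1 / 2)..((r : ℝ) + 1 / 2), (‖ZD omg (2 ^ j) y‖ ^ 2 + ‖ZD omgl (2 ^ j) y‖ ^ 2) := by
          rw [← Finset.mul_sum, Finset.sum_comm]
      _ ≤ 96 * (Real.log T) ^ 2 * Sg := by
          refine mul_le_mul_of_nonneg_left ?_ (by positivity)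
          exact Finset.sum_le_sum fun j _ => ZSA8_sumX w W hW G (2 ^ j) t hG1
      _ ≤ (8 * C2 ^ 2 + 1000) * (Real.log T) ^ 2 * (G + Sg) := by
          refine mul_le_mul (mul_le_mul_of_nonneg_right (by nlinarith) (by positivity)) (by linarith) hSg0 (by positivity)

end Pool.Agent.LibSX15
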