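import Pool.Agent.LibSX15.Defs

/-!
LibSX15, block ZS: definitions shared by the two halves of the block.
`ω` = bump with support in `[1/2, 2]`, `W` = (real, even) Fourier transform of the weight of the local mean,
support in `[-1/4, 1/4]`.
-/

set_option autoImplicit false

namespace Pool.Agent.LibSX15

open Finset

/-- a smooth bump on `[1/2, 2]` -/
structure Bump (ω : ℝ → ℝ) : Prop where
  smooth : ContDiff ℝ (⊤ : ℕ∞) ω
  supp : ∀ x, ω x ≠ 0 → 1 / 2 ≤ x ∧ x ≤ 2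

/-- a smooth bump on `[-1/4, 1/4]` -/
structure BumpW (W : ℝ → ℝ) : Prop where
  smooth : ContDiff ℝ (⊤ : ℕ∞) W
  supp : ∀ x, W x ≠ 0 → |x| ≤ 1 / 4

/-- `D_X(t) = ∑ ω(n/X) n^(-1/2-it)` -/
noncomputable def ZD (ω : ℝ → ℝ) (X t : ℝ) : ℂ :=
  ∑ n ∈ Finset.Icc 1 ⌊2 * X⌋₊, (ω (n / X) : ℂ) * (n : ℂ) ^ (-(1 / 2 : ℂ) - (t : ℂ) * Complex.I)

/-- the amplitude `b_α(y)` -/
noncomputable def bfun (ω W : ℝ → ℝ) (G α y : ℝ) : ℝ :=
  ω y * ω (y + α) / Real.sqrt (y * (y + α)) * W (G / (2 * Real.pi) * Real.log (1 + α / y))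

/-- the inner sum for a fixed `h` -/
noncomputable def ZF (ω W : ℝ → ℝ) (G X t : ℝ) (h : ℕ) : ℂ :=
  ∑ n ∈ Finset.Icc 1 ⌊2 * X⌋₊, (bfun ω W G (h / X) (n / X) : ℂ) *
    ee (-(t / (2 * Real.pi)) * Real.log (1 + (h : ℝ) / n))

end Pool.Agent.LibSX15
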